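import Pool.Agent.FCS.Tab

/-!
# Star check: the final theorem
-/

namespace Pool.FCS

noncomputable section

variable {D : Type*} {cmp : Nat → Nat → Bool} {sol lng : Nat → Bool} {S : Sys D} {Q : Prm}
  {le : Nat → Nat → Bool} {ml : Nat → Nat} {FB : BT (List Fct)} {CB : BT (List CenD)}
  {WL : BT (List Nat)} {S4 : List Nat} {PD SPT : BT (List Nat)}

/-- the fact and its mirror image do not occur -/
def NoX (le : Nat → Nat → Bool) (ml : Nat → Nat) (sol : Nat → Bool) (S : Sys D) (X : Fct) : Prop :=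
  (∀ e, ¬ Mtn le sol S X e) ∧ ∀ e, ¬ Mtn le sol S (mirX ml X) e

/-- two solid words of length 4 with null neighbours around -/
def Sp (sol : Nat → Bool) (S : Sys D) (e : D) : Prop :=
  ∃ i, (S.W (S.nx^[i] e)).length = 4 ∧ (∀ x ∈ S.W (S.nx^[i] e), sol x = true) ∧
    (S.W (S.al (S.nx^[i] e))).length = 4 ∧ (∀ x ∈ S.W (S.al (S.nx^[i] e)), sol x = true) ∧
    S.nb (S.nx^[i] e) 1 = 0 ∧ S.nb (S.nx^[i] e) 2 = 0 ∧ S.nb (S.nx^[i] e) 3 = 0

/-- the check of a pair of solid words of length 4 -/
def Prm.spc (Q : Prm) (le : Nat → Nat → Bool) (ml : Nat → Nat) (FB : BT (List Fct))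
    (SPT : BT (List Nat)) (a b : Nat) : Bool :=
  bif (bif Q.cmd (Nat.mod b 32) (Nat.div a (pw a)) then Q.cmd (Nat.mod a 32) (Nat.div b (pw b))
    else false) then
    bif Q.pf a b then true else
      List.rec (motive := fun _ => Bool) false
        (fun d _ ih => bif ptf le Q.sm (fct ml FB (Nat.div d 8)) a (Nat.mod d 8)
          [(0, b), (1, 2), (2, 2), (3, 2)] then true else ih) (SPT.get a)
  else true

/-- the fact with a number -/
theorem fct_no (hF : ∀ p ∈ FB.toList, ∀ X ∈ p.2, NoX le ml sol S X) {n : Nat}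
    (h0 : (fct ml FB n).1 ≠ []) (e : D) : ¬ Mtn le sol S (fct ml FB n) e := by
  have key : ∀ k j, (nthF (FB.get k) j).1 ≠ [] → NoX le ml sol S (nthF (FB.get k) j) := by
    intro k j hj
    have h1 := nthF_mem hj
    have h2 : FB.get k ≠ [] := by
      intro h3
      rw [h3] at h1
      simp at h1
    exact hF _ (BT.get_mem h2) _ h1
  unfold fct at h0 ⊢
  cases hm : Nat.beq (Nat.mod n 2) 0 with
  | true =>
    rw [hm] at h0
    exact (key _ _ h0).1 e
  | false =>
    rw [hm] at h0
    dsimp only [cond_false] at h0 ⊢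
    rw [mirXk_eq] at h0 ⊢
    refine (key _ _ fun h1 => h0 ?_).2 e
    unfold mirX mirw
    dsimp only
    rw [h1]; rfl

theorem ptf_ne {X : Fct} {sm c r : Nat} {P : List (Nat × Nat)} (h : ptf le sm X c r P = true)
    (hc : rot c r ≠ 0) : X.1 ≠ [] := by
  intro h0
  unfold ptf at h
  rw [cond_true_iff, h0] at h
  have : Nat.beq (rot c r) 0 = true := h.1
  exact hc (Nat.eq_of_beq_eq_true this)

theorem prf_ne {X : Fct} {x y s : Nat} (h : prf le X x y s = true) (hc : rot x s ≠ 0) :
    X.1 ≠ [] := by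
  intro h0
  unfold prf at h
  rw [cond_true_iff, h0] at h
  have : Nat.beq (rot x s) 0 = true := h.1
  exact hc (Nat.eq_of_beq_eq_true this)

theorem rot_ne (hS : S.Ok cmp sol) {e : D} (he : S.W e ≠ []) (r : Nat) : rot (S.c e) r ≠ 0 := by
  rw [rot_c hS he r]
  exact Sys.enc_ne (hS.ne_iter he r)

/-- the patterns do not occur -/
theorem pdr_sound (hS : S.Ok cmp sol) (hsm : ∀ e, ∀ x ∈ S.W e, tb Q.sm (x + 1) = sol x)
    (hF : ∀ p ∈ FB.toList, ∀ X ∈ p.2, NoX le ml sol S X) {c : Nat} {e : D} (he : S.W e ≠ [])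
    (hc : S.c e = c) : ∀ {pats : List (List (Nat × Nat))} {ds : List Nat},
      pdr le ml FB Q.sm c pats ds = true →
      ∀ P ∈ pats, ¬ ∀ q ∈ P, mt Q.sm (S.nc e q.1) q.2 = true
  | [], _, _, P, hP => by simp at hP
  | P :: pats, [], h, _, _ => absurd (show false = true from h) (by simp)
  | P :: pats, d :: ds, h, P', hP' => by
    have h' : (bif ptf le Q.sm (fct ml FB (Nat.div d 8)) c (Nat.mod d 8) P then
      pdr le ml FB Q.sm c pats ds else false) = true := h
    rw [cond_true_iff] at h'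
    rcases List.mem_cons.1 hP' with rfl | hP'
    · intro hm
      have h1 := ptf_sound (Q := Q) hS hsm h'.1 he hc hm
      exact fct_no hF (ptf_ne h'.1 (by rw [← hc]; exact rot_ne hS he _)) _ h1
    · exact pdr_sound hS hsm hF he hc h'.2 P' hP'

/-- the forbidden pairs do not occur -/
theorem pfd_sound (hS : S.Ok cmp sol)
    (hF : ∀ p ∈ FB.toList, ∀ X ∈ p.2, NoX le ml sol S X) {x : Nat} {r : D} (hr : S.W r ≠ [])
    (hr' : S.W (S.al r) ≠ []) (hx : S.c r = x) : ∀ {ys : List Nat} {ds : List Nat},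
      pfd le ml FB x ys ds = true → S.c (S.al r) ∉ ys
  | [], _, _ => by simp
  | y :: ys, [], h => absurd (show false = true from h) (by simp)
  | y :: ys, d :: ds, h => by
    have h' : (bif (bif Nat.beq (Nat.mod d 2) 0 then
            prf le (fct ml FB (Nat.div d 16)) x y (Nat.mod (Nat.div d 2) 8)
          else prf le (fct ml FB (Nat.div d 16)) y x (Nat.mod (Nat.div d 2) 8)) then
        pfd le ml FB x ys ds else false) = true := h
    rw [cond_true_iff] at h'
    have h2 := pfd_sound hS hF hr hr' hx h'.2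
    rw [List.mem_cons, not_or]
    refine ⟨fun hy => ?_, h2⟩
    cases hm : Nat.beq (Nat.mod d 2) 0 with
    | true =>
      rw [hm] at h'
      have h3 : prf le (fct ml FB (Nat.div d 16)) x y (Nat.mod (Nat.div d 2) 8) = true := h'.1
      exact fct_no hF (prf_ne h3 (by rw [← hx]; exact rot_ne hS hr _)) _
        (prf_sound (sol := sol) hS h3 hr hx hy)
    | false =>
      rw [hm] at h'
      have h3 : prf le (fct ml FB (Nat.div d 16)) y x (Nat.mod (Nat.div d 2) 8) = true := h'.1
      exact fct_no hF (prf_ne h3 (by rw [← hy]; exact rot_ne hS hr' _)) _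
        (prf_sound (sol := sol) hS h3 hr' hy (by rw [hS.alal]; exact hx))

/-- the forbidden pairs -/
theorem pf_all (hS : S.Ok cmp sol)
    (hF : ∀ p ∈ FB.toList, ∀ X ∈ p.2, NoX le ml sol S X)
    (hPF : Q.PF.allB (fun x ys => pfd le ml FB x ys (PD.get x)) = true) (r : D)
    (hr : S.W r ≠ []) (hr' : S.W (S.al r) ≠ []) : Q.pf (S.c r) (S.c (S.al r)) = false := by
  rw [← Bool.not_eq_true]
  intro h
  unfold Prm.pf at h
  rw [mem_iff] at h
  have h1 : Q.PF.get (S.c r) ≠ [] := by
    intro h0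
    rw [h0] at h
    simp at h
  exact pfd_sound hS hF hr hr' rfl (BT.allB_sound hPF _ (BT.get_mem h1)) h

theorem ckE_sound {k : Nat} : ∀ {l : List CenD}, Q.ckE le ml FB k l = true → ∀ E ∈ l,
    E.C.c = k ∧ pdr le ml FB Q.sm k E.C.pats E.ds = true ∧
      (hasNil E.C.pats = true ∨ Q.chk E.C = true)
  | [], _, E, hE => by simp at hE
  | F :: l, h, E, hE => by
    have h' : (bif Nat.beq F.C.c k then
      bif pdr le ml FB Q.sm k F.C.pats F.ds then
        bif (bif hasNil F.C.pats then true else Q.chk F.C) then Q.ckE le ml FB k l else false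
      else false
    else false) = true := h
    rw [cond_true_iff, cond_true_iff, cond_true_iff] at h'
    obtain ⟨h1, h2, h3, h4⟩ := h'
    rcases List.mem_cons.1 hE with rfl | hE
    · refine ⟨Nat.eq_of_beq_eq_true h1, h2, ?_⟩
      cases hn : hasNil E.C.pats with
      | true => exact Or.inl rfl
      | false => rw [hn] at h3; exact Or.inr h3
    · exact ckE_sound h4 E hE

/-- the state of a word -/
theorem cst_sound (CB : BT (List CenD)) (c : Nat) : ∀ d, cst CB c d = 0 ∨
    ∃ i < d, ∃ E ∈ CB.get (rot c i), (cst CB c d = 1 → hasNil E.C.pats = true)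
  | 0 => Or.inl rfl
  | d + 1 => by
    have e : cst CB c (d + 1) = List.rec (motive := fun _ => Nat) (cst CB c d)
      (fun E _ _ => bif hasNil E.C.pats then 1 else 2) (CB.get (rot c d)) := rfl
    cases h : CB.get (rot c d) with
    | nil =>
      rw [h] at e
      have e' : cst CB c (d + 1) = cst CB c d := e
      rcases cst_sound CB c d with h1 | ⟨i, hi, E, hE, h1⟩
      · left; rw [e', h1]
      · right
        exact ⟨i, by omega, E, hE, by rw [e']; exact h1⟩
    | cons E l =>
      right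
      refine ⟨d, by omega, E, by rw [h]; exact List.mem_cons_self .., ?_⟩
      rw [h] at e
      have e' : cst CB c (d + 1) = bif hasNil E.C.pats then 1 else 2 := e
      rw [e']
      cases hasNil E.C.pats with
      | true => intro _; rfl
      | false => intro h2; exact absurd h2 (by decide)

theorem anyd_sound {f : Nat → Bool} : ∀ {l : List Nat}, List.rec (motive := fun _ => Bool) false
    (fun d _ ih => bif f d then true else ih) l = true → ∃ d, f d = true
  | [], h => absurd h (by simp)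
  | d :: l, h => by
    cases hf : f d with
    | true => exact ⟨d, hf⟩
    | false =>
      dsimp only at h
      rw [hf] at h
      exact anyd_sound (l := l) h

/-- The star inequality. -/
theorem star_all (hS : S.Ok cmp sol) {gl : List Nat → Bool} (hg : ∀ e, S.W e ≠ [] → gl (S.W e) = true)
    (hF : ∀ p ∈ FB.toList, ∀ X ∈ p.2, NoX le ml sol S X)
    (hN : ∀ e, S.W e ≠ [] → Nr sol S e ∨ Sp sol S e)
    (hcm : ∀ x y, cmp x y = true → Q.cmd (x + 1) (y + 1) = true)
    (hsm : ∀ w, gl w = true → ∀ x ∈ w, tb Q.sm (x + 1) = sol x)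
    (hlm : ∀ w, gl w = true → ∀ x ∈ w, tb Q.lm (x + 1) = lng x)
    (hsmt : ∀ x, tb Q.sm (x + 1) = true → sol x = true) (hsm0 : tb Q.sm 0 = false)
    (hnu : Q.nu ≤ 2 * Q.den)
    (hPF : Q.PF.allB (fun x ys => pfd le ml FB x ys (PD.get x)) = true)
    (hCB : CB.allB (Q.ckE le ml FB) = true)
    (hSG : Q.SG.allB (Q.sok WL) = true)
    (hcov : ∀ w, gl w = true → Q.covc CB WL S4 (enc w) = true)
    (hS4 : ∀ a ∈ S4, ∀ b ∈ S4, Q.spc le ml FB SPT a b = true)
    (e : D) (he : S.W e ≠ []) : chw sol lng S Q e ≤ 0 := by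
  have hsm' : ∀ e, ∀ x ∈ S.W e, tb Q.sm (x + 1) = sol x := by
    intro e x hx
    exact hsm _ (hg e (by rintro h0; rw [h0] at hx; simp at hx)) x hx
  have hlm' : ∀ e, ∀ x ∈ S.W e, tb Q.lm (x + 1) = lng x := by
    intro e x hx
    exact hlm _ (hg e (by rintro h0; rw [h0] at hx; simp at hx)) x hx
  have hpf := pf_all hS hF hPF
  -- centres
  have hcen : ∀ e, S.W e ≠ [] → ∀ E ∈ CB.get (S.c e),
      (∀ P ∈ E.C.pats, ¬ ∀ q ∈ P, mt Q.sm (S.nc e q.1) q.2 = true) ∧
        S.c e = E.C.c ∧ (hasNil E.C.pats = true ∨ Q.chk E.C = true) := by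
    intro e he E hE
    have h1 : CB.get (S.c e) ≠ [] := by
      intro h0; rw [h0] at hE; simp at hE
    obtain ⟨h2, h3, h4⟩ := ckE_sound (BT.allB_sound hCB _ (BT.get_mem h1)) E hE
    exact ⟨pdr_sound hS hsm' hF he rfl h3, h2.symm, h4⟩
  -- all words are in the list
  have hst : ∀ e, S.W e ≠ [] → (cst CB (S.c e) (dgn (S.c e)) ≠ 1) := by
    intro e he h1
    rcases cst_sound CB (S.c e) (dgn (S.c e)) with h2 | ⟨i, -, E, hE, h2⟩
    · rw [h2] at h1; exact absurd h1 (by decide)
    · rw [rot_c hS he i] at hE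
      obtain ⟨h3, -, -⟩ := hcen _ (hS.ne_iter he i) E hE
      exact h3 [] (hasNil_iff (h2 h1)) fun q hq => by simp at hq
  have hcv : ∀ e, S.W e ≠ [] →
      ((bif Nat.beq (cst CB (S.c e) (dgn (S.c e))) 0 then Q.trv (S.c e) else true) = true) ∧
      S.c e ∈ WL.get (wkey (S.c e)) ∧ (so4 Q.sm (S.c e) = true → S.c e ∈ S4) := by
    intro e he
    have h1 : Q.covc CB WL S4 (S.c e) = true := hcov _ (hg e he)
    unfold Prm.covc at h1
    dsimp only at h1
    have h2 : Nat.beq (cst CB (S.c e) (dgn (S.c e))) 1 = false := by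
      rw [← Bool.not_eq_true]
      intro h3
      exact hst e he (Nat.eq_of_beq_eq_true h3)
    rw [h2] at h1
    dsimp only [cond_false] at h1
    rw [cond_true_iff, cond_true_iff] at h1
    obtain ⟨h3, h4, h5⟩ := h1
    refine ⟨h3, mem_iff.1 h4, fun h6 => ?_⟩
    rw [h6] at h5
    exact mem_iff.1 h5
  have hy : Hyp cmp sol lng S Q := ⟨hS, hcm, hsm', hlm', hsmt, hsm0, hpf, hnu,
    posOk_all hS hnu hcm hpf (WL := WL) (fun e he => (hcv e he).2.1)
      (sok_all (BT.allB_sound hSG))⟩
  -- the exceptional case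
  have hsp : ∀ e, S.W e ≠ [] → ¬ Sp sol S e := by
    rintro e he ⟨i, l1, s1, l2, s2, n1, n2, n3⟩
    have hx := hS.ne_iter he i
    set x := S.nx^[i] e with hxd
    have hx' : S.W (S.al x) ≠ [] := by
      intro h0; rw [h0] at l2; simp at l2
    have a1 := (hcv x hx).2.2 (so4_iff (hS.sm _) (by omega) (by omega) (hsm' _) ⟨l1, s1⟩)
    have a2 := (hcv _ hx').2.2 (so4_iff (hS.sm _) (by omega) (by omega) (hsm' _) ⟨l2, s2⟩)
    have h1 := hS4 _ a1 _ a2
    unfold Prm.spc at h1
    have c1 : Q.cmd (Nat.mod (S.c (S.al x)) 32) (Nat.div (S.c x) (pw (S.c x))) = true := by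
      rw [hS.dg0 hx', hS.dgl hx]
      apply hcm
      have := hS.cmp (S.al x) hx' (by rw [hS.alal]; exact hx)
      rwa [hS.alal] at this
    have c2 : Q.cmd (Nat.mod (S.c x) 32) (Nat.div (S.c (S.al x)) (pw (S.c (S.al x)))) = true := by
      rw [hS.dg0 hx, hS.dgl hx']
      exact hcm _ _ (hS.cmp x hx hx')
    rw [c1, c2] at h1
    dsimp only [cond_true] at h1
    rw [hpf x hx hx'] at h1
    dsimp only [cond_false] at h1
    obtain ⟨d, hd⟩ := anyd_sound h1
    have n0 : ∀ j, S.nb x j = 0 → S.nc x j = 1 := by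
      intro j hj
      unfold Sys.nc
      rw [hj]; rfl
    have h2 := ptf_sound (Q := Q) hS hsm' hd hx rfl (by
      intro q hq
      simp only [List.mem_cons, List.not_mem_nil, or_false] at hq
      rcases hq with rfl | rfl | rfl | rfl
      · show mt Q.sm (S.nc x 0) (S.c (S.al x)) = true
        have e1 : S.nc x 0 = S.c (S.al x) := nc_ne (Sys.enc_ne hx')
        have e2 : Nat.beq (S.c (S.al x)) 2 = false := by
          rw [← Bool.not_eq_true]
          intro h3
          have h4 := Nat.eq_of_beq_eq_true h3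
          have h5 := le_enc hx'
          rw [l2] at h5
          have h6 : enc (S.W (S.al x)) = 2 := h4
          rw [h6] at h5
          norm_num at h5
        unfold mt
        rw [e1, e2]
        exact Nat.beq_refl _
      · show mt Q.sm (S.nc x 1) 2 = true
        rw [n0 1 n1]; rfl
      · show mt Q.sm (S.nc x 2) 2 = true
        rw [n0 2 n2]; rfl
      · show mt Q.sm (S.nc x 3) 2 = true
        rw [n0 3 n3]; rfl)
    exact fct_no hF (ptf_ne hd (rot_ne hS hx _)) _ h2
  have hN' : ∀ i, Nr sol S (S.nx^[i] e) := fun i =>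
    (hN _ (hS.ne_iter he i)).resolve_right (hsp _ (hS.ne_iter he i))
  -- the conclusion
  have h1 := (hcv e he).1
  by_cases h2 : cst CB (S.c e) (dgn (S.c e)) = 0
  · rw [h2] at h1
    exact chw_trv hy he h1
  · rcases cst_sound CB (S.c e) (dgn (S.c e)) with h3 | ⟨i, -, E, hE, -⟩
    · exact absurd h3 h2
    · rw [rot_c hS he i] at hE
      obtain ⟨h4, h5, h6⟩ := hcen _ (hS.ne_iter he i) E hE
      rcases h6 with h6 | h6
      · exact absurd (fun q hq => by simp at hq) (h4 [] (hasNil_iff h6))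
      · rw [← chw_iter hS he i]
        exact chw_chk hy h6 (hS.ne_iter he i) h5 (hN' i) h4

end

end Pool.FCS
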