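import Pool.Agent.FCS.Bd
import Pool.Agent.FCS.Fnl

/-!
# Star check with blind neighbours: the tables and the final theorem
-/

namespace Pool.FCS

noncomputable section

/-- the derivations of the patterns -/
def pdrb (le leb : Nat → Nat → Bool) (ml : Nat → Nat) (FB : BT (List Fct)) (c : Nat)
    (pats : List (List (Nat × Nat))) : List Nat → Bool :=
  List.rec (motive := fun _ => List Nat → Bool) (fun _ => true)
    (fun P _ ih ds => List.rec (motive := fun _ => Bool) false
      (fun d ds' _ => bif ptfb le leb (fct ml FB (Nat.div d 8)) c (Nat.mod d 8) P then ih ds'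
        else false) ds) pats

/-- The check of an entry of the table of the centres. -/
def Pm.ckE (Q : Pm) (le leb : Nat → Nat → Bool) (ml : Nat → Nat) (FB : BT (List Fct)) (k : Nat)
    (l : List CenD) : Bool :=
  List.rec (motive := fun _ => Bool) true
    (fun E _ ih => bif Nat.beq E.C.c k then
      bif pdrb le leb ml FB k E.C.pats E.ds then
        bif (bif hasNil E.C.pats then true else Q.chk E.C) then ih else false
      else false
    else false) l

/-- The check of an entry of the table of the forbidden pairs. -/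
def pfdb (leb : Nat → Nat → Bool) (ml : Nat → Nat) (FB : BT (List Fct)) (x : Nat)
    (ys : List Nat) : List Nat → Bool :=
  List.rec (motive := fun _ => List Nat → Bool) (fun _ => true)
    (fun y _ ih ds => List.rec (motive := fun _ => Bool) false
      (fun d ds' _ =>
        bif (bif Nat.beq (Nat.mod d 2) 0 then
            prfb leb (fct ml FB (Nat.div d 16)) x y (Nat.mod (Nat.div d 2) 8)
          else prfb leb (fct ml FB (Nat.div d 16)) y x (Nat.mod (Nat.div d 2) 8)) then ih ds'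
        else false) ds) ys

/-- the check of a word -/
def Pm.covc (Q : Pm) (CB : BT (List CenD)) (WL : BT (List Nat)) (S4 : List Nat) (c : Nat) :
    Bool :=
  (fun t : Nat => bif Nat.beq t 1 then true else
    bif (bif Nat.beq t 0 then Q.trv c else true) then
      bif mem (Q.ky c) (WL.get (hi (Q.ky c))) then
        bif so4 Q.sm c then mem c S4 else true
      else false
    else false) (cst CB c (dgn c))

/-- the check of a pair of solid words of length 4 -/
def Pm.spc (Q : Pm) (le leb : Nat → Nat → Bool) (ml : Nat → Nat) (FB : BT (List Fct))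
    (SPT : BT (List Nat)) (a b : Nat) : Bool :=
  bif (bif Q.cme (Nat.mod b 32) (Nat.div a (pw a)) then Q.cme (Nat.mod a 32) (Nat.div b (pw b))
    else false) then
    bif Q.pf (blc Q.bm a) (blc Q.bm b) then true else
      List.rec (motive := fun _ => Bool) false
        (fun d _ ih => bif ptfb le leb (fct ml FB (Nat.div d 8)) a (Nat.mod d 8)
          [(0, nfc Q.bm Q.wm Q.sm b), (1, 2), (2, 2), (3, 2)] then true else ih) (SPT.get a)
  else true

variable {D : Type*} {cmp : Nat → Nat → Bool} {sol lng : Nat → Bool} {S : Sys D} {Q : Pm}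
  {le leb : Nat → Nat → Bool} {ml : Nat → Nat} {FB : BT (List Fct)} {CB : BT (List CenD)}
  {WL : BT (List Nat)} {S4 : List Nat} {PD SPT : BT (List Nat)} {f : Nat → Nat}

theorem ptfb_ne {X : Fct} {c r : Nat} {P : List (Nat × Nat)} (h : ptfb le leb X c r P = true)
    (hc : rot c r ≠ 0) : X.1 ≠ [] := by
  intro h0
  unfold ptfb at h
  rw [cond_true_iff, h0] at h
  have : Nat.beq (rot c r) 0 = true := h.1
  exact hc (Nat.eq_of_beq_eq_true this)

theorem prfb_ne {X : Fct} {x y s : Nat} (h : prfb leb X x y s = true) (hc : rot x s ≠ 0) :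
    X.1 ≠ [] := by
  intro h0
  unfold prfb at h
  rw [cond_true_iff, h0] at h
  have : Nat.beq (rot x s) 0 = true := h.1
  exact hc (Nat.eq_of_beq_eq_true this)

/-- the patterns do not occur -/
theorem pdrb_sound (hS : S.Ok cmp sol) (hb : Bmp Q.bm f S) (hl : Leb le leb f S)
    (hsm : ∀ e, ∀ x ∈ S.W e, tb Q.sm (x + 1) = sol x)
    (hF : ∀ p ∈ FB.toList, ∀ X ∈ p.2, NoX le ml sol S X) {c : Nat} {e : D} (he : S.W e ≠ [])
    (hc : S.c e = c) : ∀ {pats : List (List (Nat × Nat))} {ds : List Nat},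
      pdrb le leb ml FB c pats ds = true →
      ∀ P ∈ pats, ¬ ∀ q ∈ P, mtb (S.nf Q.bm Q.wm Q.sm e q.1) q.2 = true
  | [], _, _, P, hP => by simp at hP
  | P :: pats, [], h, _, _ => absurd (show false = true from h) (by simp)
  | P :: pats, d :: ds, h, P', hP' => by
    have h' : (bif ptfb le leb (fct ml FB (Nat.div d 8)) c (Nat.mod d 8) P then
      pdrb le leb ml FB c pats ds else false) = true := h
    rw [cond_true_iff] at h'
    rcases List.mem_cons.1 hP' with rfl | hP'
    · intro hm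
      have h1 := ptfb_sound (wm := Q.wm) hS hb hl hsm h'.1 he hc hm
      exact fct_no hF (ptfb_ne h'.1 (by rw [← hc]; exact rot_ne hS he _)) _ h1
    · exact pdrb_sound hS hb hl hsm hF he hc h'.2 P' hP'

/-- the forbidden pairs do not occur -/
theorem pfdb_sound (hS : S.Ok cmp sol) (hb : Bmp Q.bm f S) {cmp' : Nat → Nat → Bool}
    {sol' : Nat → Bool} (hS' : (S.mp f).Ok cmp' sol') (hl : Leb le leb f S)
    (hF : ∀ p ∈ FB.toList, ∀ X ∈ p.2, NoX le ml sol S X) {x : Nat} {r : D} (hr : S.W r ≠ [])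
    (hr' : S.W (S.al r) ≠ []) (hx : blc Q.bm (S.c r) = x) : ∀ {ys : List Nat} {ds : List Nat},
      pfdb leb ml FB x ys ds = true → blc Q.bm (S.c (S.al r)) ∉ ys
  | [], _, _ => by simp
  | y :: ys, [], h => absurd (show false = true from h) (by simp)
  | y :: ys, d :: ds, h => by
    have h' : (bif (bif Nat.beq (Nat.mod d 2) 0 then
            prfb leb (fct ml FB (Nat.div d 16)) x y (Nat.mod (Nat.div d 2) 8)
          else prfb leb (fct ml FB (Nat.div d 16)) y x (Nat.mod (Nat.div d 2) 8)) then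
        pfdb leb ml FB x ys ds else false) = true := h
    rw [cond_true_iff] at h'
    have h2 := pfdb_sound hS hb hS' hl hF hr hr' hx h'.2
    rw [List.mem_cons, not_or]
    refine ⟨fun hy => ?_, h2⟩
    have rne : ∀ r, S.W r ≠ [] → ∀ s, rot (blc Q.bm (S.c r)) s ≠ 0 := by
      intro r hr s
      rw [hb.bl hS]
      exact rot_ne hS' (mp_ne.2 hr) s
    cases hm : Nat.beq (Nat.mod d 2) 0 with
    | true =>
      rw [hm] at h'
      have h3 : prfb leb (fct ml FB (Nat.div d 16)) x y (Nat.mod (Nat.div d 2) 8) = true := h'.1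
      exact fct_no hF (prfb_ne h3 (by rw [← hx]; exact rne _ hr _)) _
        (prfb_sound (sol := sol) hS hb hS' hl h3 hr hx hy)
    | false =>
      rw [hm] at h'
      have h3 : prfb leb (fct ml FB (Nat.div d 16)) y x (Nat.mod (Nat.div d 2) 8) = true := h'.1
      exact fct_no hF (prfb_ne h3 (by rw [← hy]; exact rne _ hr' _)) _
        (prfb_sound (sol := sol) hS hb hS' hl h3 hr' hy (by rw [hS.alal]; exact hx))

/-- the forbidden pairs -/
theorem pfb_all (hS : S.Ok cmp sol) (hb : Bmp Q.bm f S) {cmp' : Nat → Nat → Bool}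
    {sol' : Nat → Bool} (hS' : (S.mp f).Ok cmp' sol') (hl : Leb le leb f S)
    (hF : ∀ p ∈ FB.toList, ∀ X ∈ p.2, NoX le ml sol S X)
    (hPF : Q.PF.allB (fun x ys => pfdb leb ml FB x ys (PD.get x)) = true) (r : D)
    (hr : S.W r ≠ []) (hr' : S.W (S.al r) ≠ []) :
    Q.pf (blc Q.bm (S.c r)) (blc Q.bm (S.c (S.al r))) = false := by
  rw [← Bool.not_eq_true]
  intro h
  unfold Pm.pf at h
  rw [mem_iff] at h
  have h1 : Q.PF.get (blc Q.bm (S.c r)) ≠ [] := by
    intro h0
    rw [h0] at h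
    simp at h
  exact pfdb_sound hS hb hS' hl hF hr hr' rfl (BT.allB_sound hPF _ (BT.get_mem h1)) h

theorem ckEb_sound {k : Nat} : ∀ {l : List CenD}, Q.ckE le leb ml FB k l = true → ∀ E ∈ l,
    E.C.c = k ∧ pdrb le leb ml FB k E.C.pats E.ds = true ∧
      (hasNil E.C.pats = true ∨ Q.chk E.C = true)
  | [], _, E, hE => by simp at hE
  | F :: l, h, E, hE => by
    have h' : (bif Nat.beq F.C.c k then
      bif pdrb le leb ml FB k F.C.pats F.ds then
        bif (bif hasNil F.C.pats then true else Q.chk F.C) then Q.ckE le leb ml FB k l else false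
      else false
    else false) = true := h
    rw [cond_true_iff, cond_true_iff, cond_true_iff] at h'
    obtain ⟨h1, h2, h3, h4⟩ := h'
    rcases List.mem_cons.1 hE with rfl | hE
    · refine ⟨Nat.eq_of_beq_eq_true h1, h2, ?_⟩
      cases hn : hasNil E.C.pats with
      | true => exact Or.inl rfl
      | false => rw [hn] at h3; exact Or.inr h3
    · exact ckEb_sound h4 E hE

/-- The star inequality. -/
theorem star_allb (hS : S.Ok cmp sol) {gl : List Nat → Bool}
    (hg : ∀ e, S.W e ≠ [] → gl (S.W e) = true)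
    (hF : ∀ p ∈ FB.toList, ∀ X ∈ p.2, NoX le ml sol S X)
    (hN : ∀ e, S.W e ≠ [] → Nr sol S e ∨ Sp sol S e)
    (hcm : ∀ x y, cmp x y = true → Q.cme (x + 1) (y + 1) = true)
    (hcb : ∀ x y, cmp x y = true → Q.cmb (f x + 1) (f y + 1) = true)
    (hL : ∀ w, gl w = true → ∀ x ∈ w, tb Q.sm (x + 1) = sol x ∧ tb Q.lm (x + 1) = lng x ∧
      tdg Q.bm (x + 1) = f x + 1 ∧ f x < 31 ∧ tb Q.sm (f x + 1) = sol x ∧
      ∀ g, leb g (f x) = true → le g x = true)
    (hgk : ∀ r, S.W r ≠ [] → S.W (S.al r) ≠ [] → S.W (S.al (S.nx r)) ≠ [] →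
      sol ((S.W r).getD 0 0) = false →
      Q.gk (wsl Q.wm (S.c r)) ((S.W r).getD 0 0 + 1) (nfc Q.bm Q.wm Q.sm (S.c (S.al r)))
        (nfc Q.bm Q.wm Q.sm (S.c (S.al (S.nx r)))) = false)
    (hnu : Q.nu ≤ Q.sh) (hsh : 12 * Q.den ≤ 4 * (Q.sh + 2 * Q.den))
    (hPF : Q.PF.allB (fun x ys => pfdb leb ml FB x ys (PD.get x)) = true)
    (hCB : CB.allB (Q.ckE le leb ml FB) = true)
    (hSG : Q.SG.allB (Q.sok WL) = true)
    (hcov : ∀ w, gl w = true → Q.covc CB WL S4 (enc w) = true)
    (hS4 : ∀ a ∈ S4, ∀ b ∈ S4, Q.spc le leb ml FB SPT a b = true)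
    (e : D) (he : S.W e ≠ []) : chv sol lng Q.den Q.nl Q.nu Q.fw S e ≤ 0 := by
  have hW : ∀ e, ∀ x ∈ S.W e, tb Q.sm (x + 1) = sol x ∧ tb Q.lm (x + 1) = lng x ∧
      tdg Q.bm (x + 1) = f x + 1 ∧ f x < 31 ∧ tb Q.sm (f x + 1) = sol x ∧
      ∀ g, leb g (f x) = true → le g x = true := by
    intro e x hx
    exact hL _ (hg e (by rintro h0; rw [h0] at hx; simp at hx)) x hx
  have hsm' : ∀ e, ∀ x ∈ S.W e, tb Q.sm (x + 1) = sol x := fun e x hx => (hW e x hx).1
  have hb : Bmp Q.bm f S := ⟨fun e x hx => (hW e x hx).2.2.1, fun e x hx => (hW e x hx).2.2.2.1⟩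
  have hl : Leb le leb f S := fun e x hx => (hW e x hx).2.2.2.2.2
  have hS' : (S.mp f).Ok (fun x y => Q.cmb (x + 1) (y + 1)) (fun x => tb Q.sm (x + 1)) := by
    refine hS.mp (fun e x hx => (hW e x hx).2.2.2.1) (fun x y h => hcb x y h) ?_
    intro e x hx h
    rw [← (hW e x hx).2.2.2.2.1]
    exact h
  have hpf := pfb_all (Q := Q) hS hb hS' hl hF hPF
  have hcf : Hcf cmp (fun x y => Q.cmb (x + 1) (y + 1)) sol (fun x => tb Q.sm (x + 1)) S f
      Q.bm Q.wm Q.sm Q.cmb Q.pf Q.gk :=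
    ⟨hS, hb, hS', fun x y h => h, hsm', fun e x hx h => by
      show tb Q.sm (f x + 1) = true
      rw [(hW e x hx).2.2.2.2.1]; exact h, hpf, hgk⟩
  -- centres
  have hcen : ∀ e, S.W e ≠ [] → ∀ E ∈ CB.get (S.c e),
      (∀ P ∈ E.C.pats, ¬ ∀ q ∈ P, mtb (S.nf Q.bm Q.wm Q.sm e q.1) q.2 = true) ∧
        S.c e = E.C.c ∧ (hasNil E.C.pats = true ∨ Q.chk E.C = true) := by
    intro e he E hE
    have h1 : CB.get (S.c e) ≠ [] := by
      intro h0; rw [h0] at hE; simp at hE
    obtain ⟨h2, h3, h4⟩ := ckEb_sound (BT.allB_sound hCB _ (BT.get_mem h1)) E hE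
    exact ⟨pdrb_sound hS hb hl hsm' hF he rfl h3, h2.symm, h4⟩
  -- all words are in the list
  have hst : ∀ e, S.W e ≠ [] → (cst CB (S.c e) (dgn (S.c e)) ≠ 1) := by
    intro e he h1
    rcases cst_sound CB (S.c e) (dgn (S.c e)) with h2 | ⟨i, -, E, hE, h2⟩
    · rw [h2] at h1; exact absurd h1 (by decide)
    · rw [rot_c hS he i] at hE
      obtain ⟨h3, -, -⟩ := hcen _ (hS.ne_iter he i) E hE
      exact h3 [] (hasNil_iff (h2 h1)) fun q hq => by simp at hq
  have hcv : ∀ e, S.W e ≠ [] →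
      ((bif Nat.beq (cst CB (S.c e) (dgn (S.c e))) 0 then Q.trv (S.c e) else true) = true) ∧
      Q.ky (S.c e) ∈ WL.get (hi (Q.ky (S.c e))) ∧ (so4 Q.sm (S.c e) = true → S.c e ∈ S4) := by
    intro e he
    have h1 : Q.covc CB WL S4 (S.c e) = true := hcov _ (hg e he)
    unfold Pm.covc at h1
    dsimp only at h1
    have h2 : Nat.beq (cst CB (S.c e) (dgn (S.c e))) 1 = false := by
      rw [← Bool.not_eq_true]
      intro h3
      exact hst e he (Nat.eq_of_beq_eq_true h3)
    rw [h2] at h1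
    dsimp only [cond_false] at h1
    rw [cond_true_iff, cond_true_iff] at h1
    obtain ⟨h3, h4, h5⟩ := h1
    refine ⟨h3, mem_iff.1 h4, fun h6 => ?_⟩
    rw [h6] at h5
    exact mem_iff.1 h5
  have hy : Hyb cmp (fun x y => Q.cmb (x + 1) (y + 1)) sol (fun x => tb Q.sm (x + 1)) lng S f Q :=
    ⟨hcf, fun e x hx => (hW e x hx).2.1, hnu, hsh,
      posb_all hS hb hcm hpf (WL := WL) (fun e he => (hcv e he).2.1)
        (sokb_all (BT.allB_sound hSG))⟩
  -- the exceptional case
  have hsp : ∀ e, S.W e ≠ [] → ¬ Sp sol S e := by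
    rintro e he ⟨i, l1, s1, l2, s2, n1, n2, n3⟩
    have hx := hS.ne_iter he i
    set x := S.nx^[i] e with hxd
    have hx' : S.W (S.al x) ≠ [] := by
      intro h0; rw [h0] at l2; simp at l2
    have a1 := (hcv x hx).2.2 (so4_iff (hS.sm _) (by omega) (by omega) (hsm' _) ⟨l1, s1⟩)
    have a2 := (hcv _ hx').2.2 (so4_iff (hS.sm _) (by omega) (by omega) (hsm' _) ⟨l2, s2⟩)
    have h1 := hS4 _ a1 _ a2
    unfold Pm.spc at h1
    have c1 : Q.cme (Nat.mod (S.c (S.al x)) 32) (Nat.div (S.c x) (pw (S.c x))) = true := by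
      rw [hS.dg0 hx', hS.dgl hx]
      apply hcm
      have := hS.cmp (S.al x) hx' (by rw [hS.alal]; exact hx)
      rwa [hS.alal] at this
    have c2 : Q.cme (Nat.mod (S.c x) 32) (Nat.div (S.c (S.al x)) (pw (S.c (S.al x)))) = true := by
      rw [hS.dg0 hx, hS.dgl hx']
      exact hcm _ _ (hS.cmp x hx hx')
    rw [c1, c2] at h1
    dsimp only [cond_true] at h1
    rw [hpf x hx hx'] at h1
    dsimp only [cond_false] at h1
    obtain ⟨d, hd⟩ := anyd_sound h1
    have n0 : ∀ j, S.nb x j = 0 → S.nf Q.bm Q.wm Q.sm x j = 1 := by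
      intro j hj
      unfold Sys.nf
      rw [hj]; rfl
    have h2 := ptfb_sound (wm := Q.wm) hS hb hl hsm' hd hx rfl (by
      intro q hq
      simp only [List.mem_cons, List.not_mem_nil, or_false] at hq
      rcases hq with rfl | rfl | rfl | rfl
      · show mtb (S.nf Q.bm Q.wm Q.sm x 0) (nfc Q.bm Q.wm Q.sm (S.c (S.al x))) = true
        have e1 : S.nf Q.bm Q.wm Q.sm x 0 = nfc Q.bm Q.wm Q.sm (S.c (S.al x)) :=
          nf_ne (i := 0) hx'
        have e2 : Nat.beq (nfc Q.bm Q.wm Q.sm (S.c (S.al x))) 2 = false := by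
          rw [← Bool.not_eq_true]
          intro h3
          have h4 := Nat.eq_of_beq_eq_true h3
          have h5 := hb.nge (wm := Q.wm) (sm := Q.sm) hS hx'
          omega
        unfold mtb
        rw [e1, e2]
        exact Nat.beq_refl _
      · show mtb (S.nf Q.bm Q.wm Q.sm x 1) 2 = true
        rw [n0 1 n1]; rfl
      · show mtb (S.nf Q.bm Q.wm Q.sm x 2) 2 = true
        rw [n0 2 n2]; rfl
      · show mtb (S.nf Q.bm Q.wm Q.sm x 3) 2 = true
        rw [n0 3 n3]; rfl)
    exact fct_no hF (ptfb_ne hd (rot_ne hS hx _)) _ h2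
  have hN' : ∀ i, Nr sol S (S.nx^[i] e) := fun i =>
    (hN _ (hS.ne_iter he i)).resolve_right (hsp _ (hS.ne_iter he i))
  -- the conclusion
  have h1 := (hcv e he).1
  by_cases h2 : cst CB (S.c e) (dgn (S.c e)) = 0
  · rw [h2] at h1
    exact chv_trv hy he h1
  · rcases cst_sound CB (S.c e) (dgn (S.c e)) with h3 | ⟨i, -, E, hE, -⟩
    · exact absurd h3 h2
    · rw [rot_c hS he i] at hE
      obtain ⟨h4, h5, h6⟩ := hcen _ (hS.ne_iter he i) E hE
      rcases h6 with h6 | h6
      · exact absurd (fun q hq => by simp at hq) (h4 [] (hasNil_iff h6))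
      · rw [← chv_iter hS he i]
        exact chv_chk hy h6 (hS.ne_iter he i) h5 (hN' i) h4

end

end Pool.FCS
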