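import Pool.Agent.FCS.Mx

/-! # Flows between the three corners of a solid triangle -/

open Finset

namespace Pool.FCS

variable {D : Type*}

/-- the next corner of the triangle between `e` and `nx e` -/
def Sys.rh (S : Sys D) (e : D) : D := S.al (S.nx e)

/-- the gain of the corner `e` of a solid triangle (the sector between `e` and `nx e`); all
three corners have words -/
def tgn (sol : Nat → Bool) (T : List Nat → List Nat → List Nat → Nat) (S : Sys D) (e : D) : Int :=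
  if sol ((S.W e).getD 0 0) = true ∧ S.W (S.rh e) ≠ [] ∧ S.W (S.rh (S.rh e)) ≠ [] then
    (T (S.W e) (S.W (S.rh e)) (S.W (S.rh (S.rh e))) : Int) -
      T (S.W (S.rh e)) (S.W (S.rh (S.rh e))) (S.W e)
  else 0

section

variable {cmp : Nat → Nat → Bool} {sol : Nat → Bool} {S : Sys D}

theorem Sys.Ok.nx_ne (hS : S.Ok cmp sol) {e : D} (he : S.W e ≠ []) : S.W (S.nx e) ≠ [] := by
  rw [hS.rot e he]
  intro h
  rw [List.rotate_eq_nil_iff] at h
  exact he h

/-- the third corner: its next edge is the edge `e` -/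
theorem Sys.Ok.rh3 (hS : S.Ok cmp sol) {e : D} (he : S.W e ≠ [])
    (h : sol ((S.W e).getD 0 0) = true) : S.nx (S.rh (S.rh e)) = S.al e ∧
      S.rh (S.rh (S.rh e)) = e := by
  obtain ⟨r, h1, h2⟩ := hS.tri e he h
  have h3 : S.rh (S.rh e) = r := by
    show S.al (S.nx (S.al (S.nx e))) = r
    rw [← h2, hS.alal]
  rw [h3]
  refine ⟨h1, ?_⟩
  show S.al (S.nx r) = e
  rw [h1, hS.alal]

theorem Sys.Ok.rh_ne (hS : S.Ok cmp sol) {e : D} (he : S.W e ≠ [])
    (h : sol ((S.W e).getD 0 0) = true) : S.W (S.rh (S.rh e)) ≠ [] ↔ S.W (S.al e) ≠ [] := by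
  have h1 := (hS.rh3 he h).1
  rw [← h1]
  exact ⟨fun h2 => hS.nx_ne h2, fun h2 => hS.nn _ h2⟩

theorem Sys.Ok.rh_sol (hS : S.Ok cmp sol) (hc : ∀ x y, cmp x y = true → sol x = sol y) {e : D}
    (he : S.W e ≠ []) (h : sol ((S.W e).getD 0 0) = true) (h2 : S.W (S.rh e) ≠ []) :
    sol ((S.W (S.rh e)).getD 0 0) = true := by
  have h3 : S.al (S.rh e) = S.nx e := hS.alal _
  have h4 := hS.nx_ne he
  have h5 := hS.cmp (S.rh e) h2 (by rw [h3]; exact h4)
  rw [h3, hS.rot e he] at h5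
  have h6 := (hS.len e he).1
  have h7 : ((S.W e).rotate 1).getD (((S.W e).rotate 1).length - 1) 0 = (S.W e).getD 0 0 := by
    rw [List.length_rotate, List.getD_eq_getElem _ _ (by rw [List.length_rotate]; omega),
      List.getElem_rotate, List.getD_eq_getElem _ _ (by omega)]
    congr 1
    rw [show (S.W e).length - 1 + 1 = (S.W e).length by omega, Nat.mod_self]
  rw [h7] at h5
  rw [hc _ _ h5]
  exact h

/-- ZERO SUM: the gains of the three corners of a triangle cancel -/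
theorem sum_tgn [Fintype D] (hS : S.Ok cmp sol) (hc : ∀ x y, cmp x y = true → sol x = sol y)
    (T : List Nat → List Nat → List Nat → Nat) :
    ∑ d, (if S.W d ≠ [] then tgn sol T S d else 0) = 0 := by
  classical
  let A : Finset D := Finset.univ.filter fun d => S.W d ≠ [] ∧ sol ((S.W d).getD 0 0) = true ∧
    S.W (S.rh d) ≠ [] ∧ S.W (S.rh (S.rh d)) ≠ []
  let g : D → Int := fun d => (T (S.W d) (S.W (S.rh d)) (S.W (S.rh (S.rh d))) : Int)
  have hA : ∀ {d}, d ∈ A ↔ S.W d ≠ [] ∧ sol ((S.W d).getD 0 0) = true ∧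
      S.W (S.rh d) ≠ [] ∧ S.W (S.rh (S.rh d)) ≠ [] := by
    intro d
    simp only [A, Finset.mem_filter, Finset.mem_univ, true_and]
  have h3 : ∀ d ∈ A, S.rh (S.rh (S.rh d)) = d := fun d hd =>
    (hS.rh3 (hA.1 hd).1 (hA.1 hd).2.1).2
  have hr : ∀ d ∈ A, S.rh d ∈ A := by
    intro d hd
    obtain ⟨a1, a2, a3, a4⟩ := hA.1 hd
    refine hA.2 ⟨a3, hS.rh_sol hc a1 a2 a3, a4, ?_⟩
    rw [h3 d hd]
    exact a1
  have e1 : ∑ d, (if S.W d ≠ [] then tgn sol T S d else 0) = ∑ d ∈ A, (g d - g (S.rh d)) := by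
    rw [Finset.sum_filter]
    refine Finset.sum_congr rfl fun d _ => ?_
    by_cases h0 : S.W d ≠ []
    · rw [if_pos h0]
      by_cases h1 : sol ((S.W d).getD 0 0) = true ∧ S.W (S.rh d) ≠ [] ∧ S.W (S.rh (S.rh d)) ≠ []
      · rw [if_pos ⟨h0, h1⟩]
        unfold tgn
        rw [if_pos h1]
        simp only [g]
        rw [h3 d (hA.2 ⟨h0, h1⟩)]
      · rw [if_neg fun h => h1 h.2]
        unfold tgn
        rw [if_neg h1]
    · rw [if_neg h0, if_neg fun h => h0 h.1]
  have e2 : ∑ d ∈ A, g (S.rh d) = ∑ d ∈ A, g d := by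
    refine Finset.sum_bij' (fun d _ => S.rh d) (fun d _ => S.rh (S.rh d)) hr
      (fun d hd => hr _ (hr d hd)) (fun d hd => h3 d hd) (fun d hd => h3 d hd)
      (fun d hd => rfl)
  rw [e1, Finset.sum_sub_distrib, e2, sub_self]

end

end Pool.FCS
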