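import Pool.Agent.FCS.Tg

/-!
# Flows between the three corners of a solid triangle, general form

`X a b c` is the gain of the corner `a`; `b` is the corner of the neighbour before the sector, `c`
the corner of the neighbour behind it. The sum over the three rotations is zero.
-/

open Finset

namespace Pool.FCS

variable {D : Type*}

/-- the gain of the corner `e` of a solid triangle (the sector between `e` and `nx e`); all three
corners have words -/
def tgx (sol : Nat → Bool) (X : List Nat → List Nat → List Nat → Int) (S : Sys D) (e : D) : Int :=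
  if sol ((S.W e).getD 0 0) = true ∧ S.W (S.rh e) ≠ [] ∧ S.W (S.rh (S.rh e)) ≠ [] then
    X (S.W e) (S.W (S.rh (S.rh e))) (S.W (S.rh e)) else 0

section

variable {cmp : Nat → Nat → Bool} {sol sol' : Nat → Bool} {S : Sys D} {cc : Nat → Nat}

/-- ZERO SUM: the gains of the three corners of a triangle cancel -/
theorem sum_tgx [Fintype D] (hS : S.Ok cmp sol) (hc : ∀ x y, cmp x y = true → sol x = sol y)
    {X : List Nat → List Nat → List Nat → Int} (hX : ∀ a b c, X a b c + X b c a + X c a b = 0) :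
    ∑ d, (if S.W d ≠ [] then tgx sol X S d else 0) = 0 := by
  classical
  let A : Finset D := Finset.univ.filter fun d => S.W d ≠ [] ∧ sol ((S.W d).getD 0 0) = true ∧
    S.W (S.rh d) ≠ [] ∧ S.W (S.rh (S.rh d)) ≠ []
  let g : D → Int := fun d => X (S.W d) (S.W (S.rh (S.rh d))) (S.W (S.rh d))
  have hA : ∀ {d}, d ∈ A ↔ S.W d ≠ [] ∧ sol ((S.W d).getD 0 0) = true ∧
      S.W (S.rh d) ≠ [] ∧ S.W (S.rh (S.rh d)) ≠ [] := by
    intro d
    simp only [A, Finset.mem_filter, Finset.mem_univ, true_and]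
  have h3 : ∀ d ∈ A, S.rh (S.rh (S.rh d)) = d := fun d hd =>
    (hS.rh3 (hA.1 hd).1 (hA.1 hd).2.1).2
  have hr : ∀ d ∈ A, S.rh d ∈ A := by
    intro d hd
    obtain ⟨a1, a2, a3, a4⟩ := hA.1 hd
    refine hA.2 ⟨a3, hS.rh_sol hc a1 a2 a3, a4, ?_⟩
    rw [h3 d hd]
    exact a1
  have e1 : ∑ d, (if S.W d ≠ [] then tgx sol X S d else 0) = ∑ d ∈ A, g d := by
    rw [Finset.sum_filter]
    refine Finset.sum_congr rfl fun d _ => ?_
    by_cases h0 : S.W d ≠ []
    · rw [if_pos h0]
      by_cases h1 : sol ((S.W d).getD 0 0) = true ∧ S.W (S.rh d) ≠ [] ∧ S.W (S.rh (S.rh d)) ≠ []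
      · rw [if_pos ⟨h0, h1⟩]
        unfold tgx
        rw [if_pos h1]
      · rw [if_neg fun h => h1 h.2]
        unfold tgx
        rw [if_neg h1]
    · rw [if_neg h0, if_neg fun h => h0 h.1]
  have e2 : ∀ f : D → Int, ∑ d ∈ A, f (S.rh d) = ∑ d ∈ A, f d := fun f => by
    refine Finset.sum_bij' (fun d _ => S.rh d) (fun d _ => S.rh (S.rh d)) hr
      (fun d hd => hr _ (hr d hd)) (fun d hd => h3 d hd) (fun d hd => h3 d hd)
      (fun d hd => rfl)
  have e3 : ∑ d ∈ A, (g d + g (S.rh d) + g (S.rh (S.rh d))) = 0 := by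
    refine Finset.sum_eq_zero fun d hd => ?_
    simp only [g]
    rw [h3 d hd]
    have h4 := hX (S.W d) (S.W (S.rh (S.rh d))) (S.W (S.rh d))
    linarith
  rw [Finset.sum_add_distrib, Finset.sum_add_distrib, e2 g, e2 fun d => g (S.rh d), e2 g] at e3
  rw [e1]
  omega

/-- the gain of a corner does not change in the coarse system -/
theorem tgx_down (hS : S.Ok cmp sol) (hs : ∀ e, ∀ x ∈ S.W e, sol' (cc x) = sol x)
    (X : List Nat → List Nat → List Nat → Int) {e : D} (he : S.W e ≠ []) :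
    tgx sol' X (S.mp cc) e = tgx sol (fun a b c => X (a.map cc) (b.map cc) (c.map cc)) S e := by
  have h4 := (hS.len e he).1
  have h1 : sol' (((S.mp cc).W e).getD 0 0) = sol ((S.W e).getD 0 0) := by
    show sol' (((S.W e).map cc).getD 0 0) = _
    rw [getD_map0 (by omega)]
    exact hs e _ (by rw [List.getD_eq_getElem _ _ (by omega)]; exact List.getElem_mem _)
  have h2 : ∀ d, (S.mp cc).W ((S.mp cc).rh d) ≠ [] ↔ S.W (S.rh d) ≠ [] := fun d => mp_ne
  have h3 : ∀ d, (S.mp cc).W ((S.mp cc).rh ((S.mp cc).rh d)) ≠ [] ↔ S.W (S.rh (S.rh d)) ≠ [] :=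
    fun d => mp_ne
  unfold tgx
  by_cases hc : sol ((S.W e).getD 0 0) = true ∧ S.W (S.rh e) ≠ [] ∧ S.W (S.rh (S.rh e)) ≠ []
  · rw [if_pos hc, if_pos ⟨by rw [h1]; exact hc.1, (h2 e).2 hc.2.1, (h3 e).2 hc.2.2⟩]
    rfl
  · rw [if_neg hc, if_neg fun h => hc ⟨by rw [← h1]; exact h.1, (h2 e).1 h.2.1, (h3 e).1 h.2.2⟩]

/-- the sum of the gains around a vertex does not change in the coarse system -/
theorem tgxs_down (hS : S.Ok cmp sol) (hs : ∀ e, ∀ x ∈ S.W e, sol' (cc x) = sol x)
    (X : List Nat → List Nat → List Nat → Int) {e : D} (he : S.W e ≠ []) :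
    ∑ i ∈ range ((S.mp cc).W e).length, tgx sol' X (S.mp cc) ((S.mp cc).nx^[i] e) =
      ∑ i ∈ range (S.W e).length,
        tgx sol (fun a b c => X (a.map cc) (b.map cc) (c.map cc)) S (S.nx^[i] e) := by
  have e1 : ((S.mp cc).W e).length = (S.W e).length := by
    show ((S.W e).map cc).length = _
    rw [List.length_map]
  rw [e1]
  refine Finset.sum_congr rfl fun i _ => ?_
  exact tgx_down hS hs X (hS.ne_iter he i)

/-- rotation of the centre, any function of the darts -/
theorem sumE_nx (hS : S.Ok cmp sol) (E : D → Int) {e : D}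
    (he : S.W e ≠ []) : ∑ i ∈ range (S.W (S.nx e)).length, E (S.nx^[i] (S.nx e)) =
      ∑ i ∈ range (S.W e).length, E (S.nx^[i] e) := by
  have h1 : (S.W (S.nx e)).length = (S.W e).length := by rw [hS.rot e he, List.length_rotate]
  rw [h1]
  exact sum_nx hS E he

theorem sumE_iter (hS : S.Ok cmp sol) (E : D → Int) {e : D} (he : S.W e ≠ []) (j : Nat) :
    ∑ i ∈ range (S.W (S.nx^[j] e)).length, E (S.nx^[i] (S.nx^[j] e)) =
      ∑ i ∈ range (S.W e).length, E (S.nx^[i] e) := by
  induction j with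
  | zero => rfl
  | succ j ih =>
    rw [Function.iterate_succ_apply', sumE_nx hS E (hS.ne_iter he j), ih]

theorem tgxs_iter (hS : S.Ok cmp sol) (X : List Nat → List Nat → List Nat → Int) {e : D}
    (he : S.W e ≠ []) (j : Nat) :
    ∑ i ∈ range (S.W (S.nx^[j] e)).length, tgx sol X S (S.nx^[i] (S.nx^[j] e)) =
      ∑ i ∈ range (S.W e).length, tgx sol X S (S.nx^[i] e) :=
  sumE_iter hS (fun d => tgx sol X S d) he j

theorem tgx_zero {X : List Nat → List Nat → List Nat → Int} {e : D}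
    (hS : S.Ok cmp sol) (he : S.W e ≠ [])
    (h : ¬ (sol ((S.W e).getD 0 0) = true ∧ S.W (S.al e) ≠ [] ∧ S.W (S.al (S.nx e)) ≠ [])) :
    tgx sol X S e = 0 := by
  unfold tgx
  rw [if_neg]
  rintro ⟨h1, h2, h3⟩
  exact h ⟨h1, (hS.rh_ne he h1).1 h3, h2⟩

end

end Pool.FCS
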