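/-!
# Packed lists of facts
-/

namespace Pool.FCS

noncomputable section

/-- list of letters: digits with 6 bits, less one; `0` ends the list -/
def dW (n : Nat) : List Nat :=
  Nat.rec (motive := fun _ => Nat → List Nat) (fun _ => [])
    (fun _ ih m => Bool.rec (motive := fun _ => List Nat)
      (Nat.sub (Nat.mod m 64) 1 :: ih (Nat.shiftRight m 6)) [] (Nat.beq m 0)) 8 n

/-- the mark of a neighbour which is only positive -/
def plu : Nat := 68719476735

/-- the neighbours of a fact, `k` fields from the slot `s` on -/
def dnb (k : Nat) : Nat → Nat → List (Nat × List Nat) :=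
  Nat.rec (motive := fun _ => Nat → Nat → List (Nat × List Nat)) (fun _ _ => [])
    (fun _ ih s y => Bool.rec (motive := fun _ => List (Nat × List Nat))
      (Bool.rec (motive := fun _ => List (Nat × List Nat))
        ((s, dW (Nat.mod y 68719476736)) :: ih (Nat.add s 1) (Nat.shiftRight y 36))
        ((s, []) :: ih (Nat.add s 1) (Nat.shiftRight y 36))
        (Nat.beq (Nat.mod y 68719476736) plu))
      (ih (Nat.add s 1) (Nat.shiftRight y 36))
      (Nat.beq (Nat.mod y 68719476736) 0)) k

/-- the fact with the number `x` in a table for `D` neighbours -/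
def dX (D x : Nat) : List Nat × List (Nat × List Nat) :=
  (dW (Nat.mod x (Nat.pow 64 D)), dnb D 0 (Nat.shiftRight x (Nat.mul 6 D)))

/-- the number of the fact `j` in a packed list -/
def nX (N j : Nat) : Nat :=
  Nat.mod (Nat.shiftRight N (Nat.add 4 (Nat.mul (Nat.mul 42 (Nat.mod N 16)) j)))
    (Nat.pow 2 (Nat.mul 42 (Nat.mod N 16)))

/-- the facts with the numbers `j`, `j + 1`, .. -/
def dFa (N k : Nat) : Nat → List (List Nat × List (Nat × List Nat)) :=
  Nat.rec (motive := fun _ => Nat → List (List Nat × List (Nat × List Nat))) (fun _ => [])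
    (fun _ ih j => Bool.rec (motive := fun _ => List (List Nat × List (Nat × List Nat)))
      (dX (Nat.mod N 16) (nX N j) :: ih (Nat.add j 1))
      (ih (Nat.add j 1)) (Nat.beq (nX N j) 0)) k

/-- the facts of a packed list -/
def dF (N : Nat) : List (List Nat × List (Nat × List Nat)) := dFa N 32 0

end

end Pool.FCS
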