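import Pool.Agent.FCS.Wj

/-!
# Star check, second version: heavy leaves in parts
-/

namespace Pool.FCS

noncomputable section

/-- A part of the loop of the first position: mask `m` of the candidates, fuel `n`. -/
def prs (thr M Z s : Nat) (ps : List PQ) (n m : Nat) : Bool :=
  List.rec (motive := fun _ => Bool) false
    (fun p ps _ => PQ.rec (motive := fun _ => Bool)
      (fun a _ gp _ R => gol thr a gp R (gon thr ps) (bsq M ps) M Z s n m) p) ps

/-- A part of the loop of the first position, at the beginning. -/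
def prt (thr M : Nat) (ps : List PQ) (n m : Nat) : Bool :=
  List.rec (motive := fun _ => Bool) false
    (fun p ps _ => PQ.rec (motive := fun _ => Bool)
      (fun a _ gp _ R => gol thr a gp R (gon thr ps) (bsq M ps) M 0 0 n m) p) ps

/-- the mask of the first position -/
def prk (M : Nat) (ps : List PQ) (n m : Nat) : Bool :=
  List.rec (motive := fun _ => Bool) false
    (fun p _ _ => PQ.rec (motive := fun _ => Bool)
      (fun a f _ k _ => bif Nat.ble n k then Nat.beq m (Nat.land (Nat.shiftRight M a) f)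
        else false) p) ps

/-- the step of the loop -/
theorem gol_succ {thr a gp : Nat} {R : Nat → Nat → Nat} {ch : Nat → Nat → Nat → Bool}
    {r M Z s n m : Nat} : gol thr a gp R ch r M Z s (n + 1) m = true ↔
      m = 0 ∨ s + (gnl gp (Nat.log2 m) + r) ≤ thr ∨
      ((Bool.rec (motive := fun _ => Bool)
        (Bool.rec (motive := fun _ => Bool) true
          (ch (Nat.xor M (Nat.land M (R (Nat.log2 m)
            (Nat.lor Z (Nat.shiftLeft 1 (a + Nat.log2 m))))))
            (Nat.lor Z (Nat.shiftLeft 1 (a + Nat.log2 m)))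
            (s + gnl gp (Nat.log2 m)))
          (Nat.beq (Nat.land (Nat.shiftRight (R (Nat.log2 m)
            (Nat.lor Z (Nat.shiftLeft 1 (a + Nat.log2 m)))) (a + Nat.log2 m)) 1) 0))
        (ch M Z (s + gnl gp 0)) (Nat.beq (Nat.log2 m) 0)) = true ∧
      gol thr a gp R ch r M Z s n (Nat.xor m (Nat.shiftLeft 1 (Nat.log2 m))) = true) := by
  have e : gol thr a gp R ch r M Z s (n + 1) m = Bool.rec (motive := fun _ => Bool)
        (Bool.rec (motive := fun _ => Bool)
          (Bool.rec (motive := fun _ => Bool) false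
              (gol thr a gp R ch r M Z s n (Nat.xor m (Nat.shiftLeft 1 (Nat.log2 m))))
              (Bool.rec (motive := fun _ => Bool)
                (Bool.rec (motive := fun _ => Bool) true
                    (ch (Nat.xor M (Nat.land M (R (Nat.log2 m)
                      (Nat.lor Z (Nat.shiftLeft 1 (a + Nat.log2 m))))))
                      (Nat.lor Z (Nat.shiftLeft 1 (a + Nat.log2 m)))
                      (s + gnl gp (Nat.log2 m)))
                    (Nat.beq (Nat.land (Nat.shiftRight (R (Nat.log2 m)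
                      (Nat.lor Z (Nat.shiftLeft 1 (a + Nat.log2 m)))) (a + Nat.log2 m)) 1) 0))
                (ch M Z (s + gnl gp 0)) (Nat.beq (Nat.log2 m) 0)))
          true (Nat.ble (s + (gnl gp (Nat.log2 m) + r)) thr))
        true (Nat.beq m 0) := by
    rw [← lgm_eq m]
    rfl
  rw [e]
  cases h0 : Nat.beq m 0 with
  | true =>
    have := Nat.eq_of_beq_eq_true h0
    exact ⟨fun _ => Or.inl this, fun _ => rfl⟩
  | false =>
    have h1 : m ≠ 0 := Nat.ne_of_beq_eq_false h0
    cases h2 : Nat.ble (s + (gnl gp (Nat.log2 m) + r)) thr with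
    | true => exact ⟨fun _ => Or.inr (Or.inl (Nat.le_of_ble_eq_true h2)), fun _ => rfl⟩
    | false =>
      have h3 : ¬ s + (gnl gp (Nat.log2 m) + r) ≤ thr := by
        intro h
        rw [Nat.ble_eq_true_of_le h] at h2
        exact Bool.noConfusion h2
      generalize (Bool.rec (motive := fun _ => Bool)
        (Bool.rec (motive := fun _ => Bool) true
          (ch (Nat.xor M (Nat.land M (R (Nat.log2 m)
            (Nat.lor Z (Nat.shiftLeft 1 (a + Nat.log2 m))))))
            (Nat.lor Z (Nat.shiftLeft 1 (a + Nat.log2 m)))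
            (s + gnl gp (Nat.log2 m)))
          (Nat.beq (Nat.land (Nat.shiftRight (R (Nat.log2 m)
            (Nat.lor Z (Nat.shiftLeft 1 (a + Nat.log2 m)))) (a + Nat.log2 m)) 1) 0))
        (ch M Z (s + gnl gp 0)) (Nat.beq (Nat.log2 m) 0)) = b
      cases b with
      | false =>
        exact ⟨fun h => Bool.noConfusion (show false = true from h), fun h => by
          rcases h with h | h | h
          · exact absurd h h1
          · exact absurd h h3
          · exact Bool.noConfusion h.1⟩
      | true =>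
        exact ⟨fun h => Or.inr (Or.inr ⟨rfl, h⟩), fun h => by
          rcases h with h | h | h
          · exact absurd h h1
          · exact absurd h h3
          · exact h.2⟩

/-- more fuel -/
theorem gol_mono {thr a gp : Nat} {R : Nat → Nat → Nat} {ch : Nat → Nat → Nat → Bool}
    {r M Z s : Nat} : ∀ {n m k : Nat}, n ≤ k → gol thr a gp R ch r M Z s n m = true →
      gol thr a gp R ch r M Z s k m = true
  | 0, _, _, _, h => Bool.noConfusion (show false = true from h)
  | n + 1, m, 0, hk, _ => absurd hk (by omega)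
  | n + 1, m, k + 1, hk, h => by
    rw [gol_succ] at h ⊢
    rcases h with h | h | h
    · exact Or.inl h
    · exact Or.inr (Or.inl h)
    · exact Or.inr (Or.inr ⟨h.1, gol_mono (by omega) h.2⟩)

theorem log2_lor {m1 m2 j : Nat} (h1 : m1 ≠ 0) (h2 : m2 < 2 ^ j) (h3 : m1 % 2 ^ j = 0) :
    Nat.log2 (m1 ||| m2) = Nat.log2 m1 ∧ j ≤ Nat.log2 m1 := by
  have h4 : 2 ^ j ≤ m1 := Nat.le_of_dvd (by omega) (Nat.dvd_of_mod_eq_zero h3)
  have h5 : j ≤ Nat.log2 m1 := (Nat.le_log2 h1).2 h4
  refine ⟨?_, h5⟩
  have h6 : m1 ||| m2 ≠ 0 := by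
    intro h
    have := Nat.left_le_or (n := m1) (m := m2)
    omega
  apply le_antisymm
  · have h7 : m1 ||| m2 < 2 ^ (Nat.log2 m1 + 1) :=
      Nat.or_lt_two_pow ((Nat.log2_lt h1).1 (Nat.lt_succ_self _))
        (lt_of_lt_of_le h2 (Nat.pow_le_pow_right (by norm_num) (by omega)))
    exact Nat.lt_succ_iff.1 ((Nat.log2_lt h6).2 h7)
  · rw [Nat.le_log2 h6]
    exact le_trans ((Nat.le_log2 h1).1 le_rfl) Nat.left_le_or

/-- two parts: all bits of `m2` are below the bits of `m1` -/
theorem gol_or {thr a gp : Nat} {R : Nat → Nat → Nat} {ch : Nat → Nat → Nat → Bool}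
    {r M Z s n2 m2 j : Nat} (h2 : m2 < 2 ^ j) (g2 : gol thr a gp R ch r M Z s n2 m2 = true) :
    ∀ {n1 m1 : Nat}, m1 % 2 ^ j = 0 → gol thr a gp R ch r M Z s n1 m1 = true →
      gol thr a gp R ch r M Z s (n1 + n2) (m1 ||| m2) = true
  | 0, _, _, h => Bool.noConfusion (show false = true from h)
  | n + 1, m1, h3, h => by
    by_cases h0 : m1 = 0
    · subst h0
      rw [Nat.zero_or]
      exact gol_mono (by omega) g2
    · obtain ⟨e1, e2⟩ := log2_lor h0 h2 h3
      rw [show n + 1 + n2 = (n + n2) + 1 by omega]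
      rw [gol_succ] at h ⊢
      rw [e1]
      rcases h with h | h | h
      · exact absurd h h0
      · exact Or.inr (Or.inl h)
      · refine Or.inr (Or.inr ⟨h.1, ?_⟩)
        have e3 : Nat.shiftLeft 1 (Nat.log2 m1) = 2 ^ Nat.log2 m1 := by
          rw [shl_one]
        rw [e3] at h ⊢
        have e4 : Nat.xor (m1 ||| m2) (2 ^ Nat.log2 m1) =
            (Nat.xor m1 (2 ^ Nat.log2 m1)) ||| m2 := by
          apply Nat.eq_of_testBit_eq
          intro i
          rw [xor_eq, xor_eq, Nat.testBit_xor, Nat.testBit_or, Nat.testBit_or, Nat.testBit_xor,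
            Nat.testBit_two_pow]
          by_cases hi : Nat.log2 m1 = i
          · have h7 : Nat.testBit m2 i = false :=
              Nat.testBit_lt_two_pow (lt_of_lt_of_le h2
                (Nat.pow_le_pow_right (by norm_num) (by omega)))
            rw [h7]
            cases Nat.testBit m1 i <;> simp
          · rw [decide_eq_false hi]
            cases Nat.testBit m1 i <;> cases Nat.testBit m2 i <;> rfl
        rw [e4]
        refine gol_or h2 g2 (n1 := n) ?_ h.2
        have h8 : Nat.testBit m1 (Nat.log2 m1) = true := testBit_log2 h0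
        apply Nat.eq_of_testBit_eq
        intro i
        rw [Nat.testBit_mod_two_pow, Nat.zero_testBit]
        by_cases hi : i < j
        · have h9 : Nat.testBit (m1 % 2 ^ j) i = false := by rw [h3, Nat.zero_testBit]
          rw [Nat.testBit_mod_two_pow, decide_eq_true hi, Bool.true_and] at h9
          have h10 : ¬ Nat.log2 m1 = i := by omega
          rw [xor_eq, Nat.testBit_xor, h9, Nat.testBit_two_pow, decide_eq_false h10]
          simp
        · rw [decide_eq_false hi]
          rfl

/-- two parts of the loop -/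
theorem prt_or {thr M n1 m1 n2 m2 : Nat} {ps : List PQ} (h1 : prt thr M ps n1 m1 = true)
    (h2 : prt thr M ps n2 m2 = true) (j : Nat)
    (hj : Nat.ble (Nat.succ m2) (Nat.pow 2 j) = true)
    (hm : Nat.beq (Nat.mod m1 (Nat.pow 2 j)) 0 = true) :
    prt thr M ps (n1 + n2) (Nat.lor m1 m2) = true := by
  cases ps with
  | nil => exact Bool.noConfusion (show false = true from h1)
  | cons p ps =>
    exact gol_or (j := j) (Nat.le_of_ble_eq_true hj) h2
      (show m1 % 2 ^ j = 0 from Nat.eq_of_beq_eq_true hm) h1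

/-- all parts -/
theorem gon_of {thr M n m : Nat} {ps : List PQ} (h : prt thr M ps n m = true)
    (hf : prk M ps n m = true) : gon thr ps M 0 0 = true := by
  cases ps with
  | nil => exact Bool.noConfusion (show false = true from h)
  | cons p ps =>
    have hf' : (bif Nat.ble n p.n then Nat.beq m (Nat.land (Nat.shiftRight M p.a) p.f)
        else false) = true := hf
    rw [cond_true_iff] at hf'
    have e : m = Nat.land (Nat.shiftRight M p.a) p.f := Nat.eq_of_beq_eq_true hf'.2
    subst e
    exact gol_mono (Nat.le_of_ble_eq_true hf'.1) h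

/-! ### Parts inside the search -/

theorem prs_zero {thr M n m : Nat} {ps : List PQ} : prs thr M 0 0 ps n m = prt thr M ps n m := rfl

/-- two parts of the loop -/
theorem prs_or {thr M Z s n1 m1 n2 m2 : Nat} {ps : List PQ}
    (h1 : prs thr M Z s ps n1 m1 = true) (h2 : prs thr M Z s ps n2 m2 = true) (j : Nat)
    (hj : Nat.ble (Nat.succ m2) (Nat.pow 2 j) = true)
    (hm : Nat.beq (Nat.mod m1 (Nat.pow 2 j)) 0 = true) :
    prs thr M Z s ps (n1 + n2) (Nat.lor m1 m2) = true := by
  cases ps with
  | nil => exact Bool.noConfusion (show false = true from h1)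
  | cons p ps =>
    exact gol_or (j := j) (Nat.le_of_ble_eq_true hj) h2
      (show m1 % 2 ^ j = 0 from Nat.eq_of_beq_eq_true hm) h1

/-- all parts -/
theorem gon_of_prs {thr M Z s n m : Nat} {ps : List PQ} (h : prs thr M Z s ps n m = true)
    (hf : prk M ps n m = true) : gon thr ps M Z s = true := by
  cases ps with
  | nil => exact Bool.noConfusion (show false = true from h)
  | cons p ps =>
    have hf' : (bif Nat.ble n p.n then Nat.beq m (Nat.land (Nat.shiftRight M p.a) p.f)
        else false) = true := hf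
    rw [cond_true_iff] at hf'
    have e : m = Nat.land (Nat.shiftRight M p.a) p.f := Nat.eq_of_beq_eq_true hf'.2
    subst e
    exact gol_mono (Nat.le_of_ble_eq_true hf'.1) h

/-- one candidate: the search of the other positions -/
theorem prs_one {thr M Z s m k M' Z' s' : Nat} {p : PQ} {ps : List PQ}
    (hk : Nat.log2 m = k) (hk0 : Nat.beq k 0 = false)
    (hm : Nat.xor m (Nat.shiftLeft 1 k) = 0)
    (hZ : Nat.lor Z (Nat.shiftLeft 1 (Nat.add p.a k)) = Z')
    (hM : Nat.xor M (Nat.land M (p.R k Z')) = M') (hs : Nat.add s (gnl p.gp k) = s')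
    (h : gon thr ps M' Z' s' = true) : prs thr M Z s (p :: ps) 2 m = true := by
  subst hk; subst hZ; subst hM; subst hs
  show gol thr p.a p.gp p.R (gon thr ps) (bsq M ps) M Z s (1 + 1) m = true
  rw [gol_succ]
  refine Or.inr (Or.inr ⟨?_, ?_⟩)
  · rw [hk0]
    generalize (Nat.beq (Nat.land (Nat.shiftRight (p.R (Nat.log2 m)
      (Nat.lor Z (Nat.shiftLeft 1 (p.a + Nat.log2 m)))) (p.a + Nat.log2 m)) 1) 0) = b
    cases b
    · rfl
    · exact h
  · rw [hm, show (1 : Nat) = 0 + 1 from rfl, gol_succ]
    exact Or.inl rfl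

/-! ### A leaf in parts -/

/-- the check of a leaf without the search -/
def Pw.lfa (W : Pw) (c d k : Nat) (o x _s u : Nat) (NL V : List Nat) : Bool :=
  Bool.rec (motive := fun _ => Bool) false
    (Bool.rec (motive := fun _ => Bool) false
      (frc (av2 W.lv V) fun AV => frc (av2 W.lm (rvl V)) fun AW =>
        Bool.rec (motive := fun _ => Bool) false
          (alln d fun i => W.cks c d k AV AW i (kn (W.kr c i)) (nth NL i))
          (ala (W.fqz c d AV AW 0 0) (dN 36 u)))
      (ala (fun t => frc t (W.P.ux c d k V)) (dN 11 x)))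
    (okOrd d (dN 3 o))

theorem Pw.lfc_eq {W : Pw} {c d k o x s u : Nat} {NL V : List Nat} :
    W.lfc c d k o x s u NL V = true ↔ W.lfa c d k o x s u NL V = true ∧
      (List.rec (motive := fun _ => Bool)
          (gon (W.P.Q.thr c) (W.pqs c d k NL (dN 3 o)) (W.m0 c d (dN 11 x) (dN 36 u)) 0 0)
          (fun _ _ _ => W.lfn c d (dN 3 s) (W.pqs c d k NL (dN 3 o))
            (W.m0 c d (dN 11 x) (dN 36 u))) (dN 3 s)) = true := by
  unfold Pw.lfc Pw.lfa
  generalize okOrd d (dN 3 o) = b1
  generalize ala (fun t => frc t (W.P.ux c d k V)) (dN 11 x) = b2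
  generalize (frc (av2 W.lv V) fun AV => frc (av2 W.lm (rvl V)) fun AW =>
        Bool.rec (motive := fun _ => Bool) false
          (alln d fun i => W.cks c d k AV AW i (kn (W.kr c i)) (nth NL i))
          (ala (W.fqz c d AV AW 0 0) (dN 36 u))) = b3
  generalize (List.rec (motive := fun _ => Bool)
          (gon (W.P.Q.thr c) (W.pqs c d k NL (dN 3 o)) (W.m0 c d (dN 11 x) (dN 36 u)) 0 0)
          (fun _ _ _ => W.lfn c d (dN 3 s) (W.pqs c d k NL (dN 3 o))
            (W.m0 c d (dN 11 x) (dN 36 u))) (dN 3 s)) = b4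
  cases b1 <;> cases b2 <;> cases b3 <;> cases b4 <;> decide

/-- a leaf without null cases -/
theorem Pw.lfc_of {W : Pw} {c d k o x u : Nat} {NL V : List Nat}
    (h : W.lfa c d k o x 0 u NL V = true)
    (hg : gon (W.P.Q.thr c) (W.pqs c d k NL (dN 3 o)) (W.m0 c d (dN 11 x) (dN 36 u)) 0 0 = true) :
    W.lfc c d k o x 0 u NL V = true :=
  Pw.lfc_eq.2 ⟨h, hg⟩

/-- a leaf with null cases -/
theorem Pw.lfc_of' {W : Pw} {c d k o x s u : Nat} {NL V : List Nat}
    (h : W.lfa c d k o x s u NL V = true)
    (hn : W.lfn c d (dN 3 s) (W.pqs c d k NL (dN 3 o)) (W.m0 c d (dN 11 x) (dN 36 u)) = true)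
    (hs : dN 3 s ≠ []) : W.lfc c d k o x s u NL V = true := by
  refine Pw.lfc_eq.2 ⟨h, ?_⟩
  revert hn hs
  generalize W.lfn c d (dN 3 s) (W.pqs c d k NL (dN 3 o)) (W.m0 c d (dN 11 x) (dN 36 u)) = b
  cases dN 3 s with
  | nil => exact fun _ hs => absurd rfl hs
  | cons i l => exact fun hn _ => hn

/-- one null neighbour -/
def Pw.ln1 (W : Pw) (c d : Nat) (ps : List PQ) (m : Nat) (L : List Nat) : Bool :=
  allb (fun i => bif Nat.ble (Nat.succ i) d then
    gon (Nat.add (W.P.Q.thr c) W.P.dl) ps (rmv m (Nat.lor (W.P.nlo c i) (W.P.x1 c i d))) 0 0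
    else false) L

/-- two null neighbours -/
def Pw.ln2 (W : Pw) (c d : Nat) (ns : List Nat) (ps : List PQ) (m n : Nat) : Bool :=
  alln n fun i => bif (bif tb W.P.Q.sm (dg (Nat.pow 32 i) c) then
      (bif mem i ns then true else mem (nxt d i) ns) else false) then
    gon (W.P.Q.thr c) ps (rmv m (Nat.lor (W.P.nlo c i) (sl6 (W.P.nlo c) (nxt d i)))) 0 0
  else true

/-- the cases of the null neighbours -/
theorem Pw.lfn_of {W : Pw} {c d m : Nat} {ns : List Nat} {ps : List PQ}
    (h0 : gon (W.P.Q.thr c) ps (rmv m (W.P.x0 c ns)) 0 0 = true)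
    (h1 : W.ln1 c d ps m ns = true) (h2 : W.ln2 c d ns ps m d = true) :
    W.lfn c d ns ps m = true := by
  have e : W.lfn c d ns ps m = (bif gon (W.P.Q.thr c) ps (rmv m (W.P.x0 c ns)) 0 0 then
    bif W.ln1 c d ps m ns then W.ln2 c d ns ps m d else false else false) := rfl
  rw [e, h0, h1, h2]
  rfl

theorem Pw.ln1_nil {W : Pw} {c d m : Nat} {ps : List PQ} : W.ln1 c d ps m [] = true := rfl

theorem Pw.ln1_cons {W : Pw} {c d m i : Nat} {L : List Nat} {ps : List PQ}
    (hi : Nat.ble (Nat.succ i) d = true)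
    (h : gon (Nat.add (W.P.Q.thr c) W.P.dl) ps
      (rmv m (Nat.lor (W.P.nlo c i) (W.P.x1 c i d))) 0 0 = true)
    (hL : W.ln1 c d ps m L = true) : W.ln1 c d ps m (i :: L) = true := by
  have e : W.ln1 c d ps m (i :: L) = (bif (bif Nat.ble (Nat.succ i) d then
    gon (Nat.add (W.P.Q.thr c) W.P.dl) ps (rmv m (Nat.lor (W.P.nlo c i) (W.P.x1 c i d))) 0 0
    else false) then W.ln1 c d ps m L else false) := rfl
  rw [e, hi, h, hL]
  rfl

/-- a leaf -/
theorem Pw.ckt_lf {W : Pw} {c d k o x s u i : Nat} {NL V L : List Nat}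
    (h : W.lfc c d k o x s u NL V = true) : W.ckt c d k (.lf o x s u NL) V i L = true := h

/-- a dead leaf -/
theorem Pw.ckt_dd {W : Pw} {c d k n i : Nat} {V L : List Nat}
    (h : fq W.FN d (av2 W.lv V) (av2 W.lm (rvl V)) 0 0 n = true) :
    W.ckt c d k (.dd n) V i L = true := h

end

end Pool.FCS
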