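import Pool.Agent.FCS.Wh

/-!
# Star check, second version: the tree of a centre, the star inequality
-/

namespace Pool.FCS

open Finset

noncomputable section

section sound

variable {D : Type*} {cmp cmp' cmpS : Nat → Nat → Bool} {sol sol' lng : Nat → Bool}
  {S : Sys D} {cc f : Nat → Nat} {W : Pw} {le : Nat → Nat → Bool} {ml : Nat → Nat} {e : D}

/-- The check of a tree. -/
theorem ckt2_sound (hv : Hv cmpS cmp cmp' sol sol' S cc f W.P le) (hk : Hk le ml sol S cc f W)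
    (he : S.W e ≠ []) (hN : Nr sol (S.mp cc) e) (hpr : Hpr sol lng (S.mp cc) W.P.Q)
    (hpos : ∀ e, (S.mp cc).W e ≠ [] → W.P.PosOk2 ((S.mp cc).c e) ((S.mp cc).c ((S.mp cc).al e)))
    (hK : Kk W ((S.mp cc).c e) (S.W e).length) :
    ∀ (t : Tr2) (V : List Nat) (i : Nat) (L : List Nat),
      Cov W.P V (S.W e) → i < (S.W e).length → (S.W e).getD i 0 ∈ L →
      W.ckt ((S.mp cc).c e) (S.W e).length (wsl W.P.Q.wm ((S.mp cc).c e)) t V i L = true →
      chv2 sol lng W.P.Q.den W.P.Q.nl W.P.Q.nu W.P.dl W.P.hl W.P.Q.fw (S.mp cc) e ≤ 0 ∧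
        ded2 t = false := by
  intro t
  induction t with
  | lf o x s u NL =>
    intro V i L hV _ _ h
    exact ⟨lfc2_sound hv hk he hN hpr hpos hK hV h, rfl⟩
  | dd n =>
    intro V i L hV _ _ h
    exfalso
    exact fq_sound hk.hw hv he hk.fn hV (Vo.zero he) (Wo.zero he) h
  | sp j t ih =>
    intro V i L hV hi hL h
    have h' : (bif Nat.ble (Nat.succ j) (S.W e).length then
      W.ckt ((S.mp cc).c e) (S.W e).length (wsl W.P.Q.wm ((S.mp cc).c e)) t V
        j (W.P.lg (gtk V j)) else false) = true := h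
    rw [cond_true_iff] at h'
    have hj : j < (S.W e).length := Nat.le_of_ble_eq_true h'.1
    refine ih V j _ hV hj ?_ h'.2
    rw [gtk_eq]
    exact hV.2 j hj
  | ch a t iha iht =>
    intro V i L hV hi hL h
    cases L with
    | nil => simp at hL
    | cons x L =>
      have h' : (bif (bif W.P.imp (wsl W.P.Q.wm ((S.mp cc).c e)) x
          (gtk V (prv (S.W e).length i)) (gtk V (nxt (S.W e).length i)) then true else
          W.ckt ((S.mp cc).c e) (S.W e).length (wsl W.P.Q.wm ((S.mp cc).c e)) a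
            (stk x V i) i [x]) then
          W.ckt ((S.mp cc).c e) (S.W e).length (wsl W.P.Q.wm ((S.mp cc).c e)) t V i L
        else false) = true := h
      rw [cond_true_iff] at h'
      obtain ⟨h1, h2⟩ := h'
      have e1 : ded2 (.ch a t) = (bif ded2 a then ded2 t else false) := rfl
      rw [e1]
      rcases List.mem_cons.1 hL with hx | hx
      · have himp : W.P.imp (wsl W.P.Q.wm ((S.mp cc).c e)) x
            (gtk V (prv (S.W e).length i)) (gtk V (nxt (S.W e).length i)) = false := by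
          rw [← hx, gtk_eq, gtk_eq]
          exact hv.imp e i hi _ _ (hV.2 _ (prv_lt hi)) (hV.2 _ (nxt_lt hi))
        rw [himp] at h1
        have h3 := iha (stk x V i) i [x] (cov_set hv hV hi hx) hi
          (by rw [hx]; exact List.mem_singleton.2 rfl) h1
        refine ⟨h3.1, ?_⟩
        rw [h3.2]; rfl
      · have h3 := iht V i L hV hi hx h2
        refine ⟨h3.1, ?_⟩
        rw [h3.2]
        cases ded2 a <;> rfl
  | en =>
    intro V i L _ _ hL h
    cases L with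
    | nil => simp at hL
    | cons x L => exact Bool.noConfusion h

/-- A tree with dead leaves only. -/
theorem ckt2_dead (hv : Hv cmpS cmp cmp' sol sol' S cc f W.P le) (hk : Hk le ml sol S cc f W)
    (he : S.W e ≠ []) :
    ∀ (t : Tr2) (V : List Nat) (i : Nat) (L : List Nat),
      Cov W.P V (S.W e) → i < (S.W e).length → (S.W e).getD i 0 ∈ L →
      W.ckt ((S.mp cc).c e) (S.W e).length (wsl W.P.Q.wm ((S.mp cc).c e)) t V i L = true →
      ded2 t = false := by
  intro t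
  induction t with
  | lf o x s u NL => intros; rfl
  | dd n =>
    intro V i L hV _ _ h
    exfalso
    exact fq_sound hk.hw hv he hk.fn hV (Vo.zero he) (Wo.zero he) h
  | sp j t ih =>
    intro V i L hV hi hL h
    have h' : (bif Nat.ble (Nat.succ j) (S.W e).length then
      W.ckt ((S.mp cc).c e) (S.W e).length (wsl W.P.Q.wm ((S.mp cc).c e)) t V
        j (W.P.lg (gtk V j)) else false) = true := h
    rw [cond_true_iff] at h'
    have hj : j < (S.W e).length := Nat.le_of_ble_eq_true h'.1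
    refine ih V j _ hV hj ?_ h'.2
    rw [gtk_eq]
    exact hV.2 j hj
  | ch a t iha iht =>
    intro V i L hV hi hL h
    cases L with
    | nil => simp at hL
    | cons x L =>
      have h' : (bif (bif W.P.imp (wsl W.P.Q.wm ((S.mp cc).c e)) x
          (gtk V (prv (S.W e).length i)) (gtk V (nxt (S.W e).length i)) then true else
          W.ckt ((S.mp cc).c e) (S.W e).length (wsl W.P.Q.wm ((S.mp cc).c e)) a
            (stk x V i) i [x]) then
          W.ckt ((S.mp cc).c e) (S.W e).length (wsl W.P.Q.wm ((S.mp cc).c e)) t V i L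
        else false) = true := h
      rw [cond_true_iff] at h'
      obtain ⟨h1, h2⟩ := h'
      have e1 : ded2 (.ch a t) = (bif ded2 a then ded2 t else false) := rfl
      rw [e1]
      rcases List.mem_cons.1 hL with hx | hx
      · have himp : W.P.imp (wsl W.P.Q.wm ((S.mp cc).c e)) x
            (gtk V (prv (S.W e).length i)) (gtk V (nxt (S.W e).length i)) = false := by
          rw [← hx, gtk_eq, gtk_eq]
          exact hv.imp e i hi _ _ (hV.2 _ (prv_lt hi)) (hV.2 _ (nxt_lt hi))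
        rw [himp] at h1
        rw [iha (stk x V i) i [x] (cov_set hv hV hi hx) hi
          (by rw [hx]; exact List.mem_singleton.2 rfl) h1]
        rfl
      · rw [iht V i L hV hi hx h2]
        cases ded2 a <;> rfl
  | en =>
    intro V i L _ _ hL h
    cases L with
    | nil => simp at hL
    | cons x L => exact Bool.noConfusion h

theorem ckc2_sound {k : Nat} : ∀ {l : List CE2}, W.ckc k l = true → ∀ E ∈ l,
    (ded2 E.t = false → ∀ i < dgn k, W.kr k i ≠ 0) ∧
      W.ckt k (dgn k) (wsl W.P.Q.wm k) E.t (W.P.v0 k) 0 (W.P.lg (gtk (W.P.v0 k) 0)) = true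
  | [], _, E, hE => by simp at hE
  | F :: l, h, E, hE => by
    have h' : (bif Nat.beq F.c k then
      bif (bif ded2 F.t then true else alln (dgn k) (fun i => Nat.ble 1 (W.kr k i))) then
        bif W.ckt k (dgn k) (wsl W.P.Q.wm k) F.t (W.P.v0 k) 0 (W.P.lg (gtk (W.P.v0 k) 0))
          then W.ckc k l else false
      else false
    else false) = true := h
    rw [cond_true_iff, cond_true_iff, cond_true_iff] at h'
    obtain ⟨-, h2, h3, h4⟩ := h'
    rcases List.mem_cons.1 hE with rfl | hE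
    · refine ⟨fun hd i hi h0 => ?_, h3⟩
      rw [hd] at h2
      have h5 := alln_iff.1 h2 i hi
      rw [h0] at h5
      exact Bool.noConfusion h5
    · exact ckc2_sound h4 E hE

theorem csu2_sound (CB : BT (List CE2)) (c : Nat) : ∀ d, csu2 CB c d = 0 ∨
    ∃ i, i < d ∧ ∃ E ∈ CB.get (rot c i), (csu2 CB c d = 1 → ded2 E.t = true)
  | 0 => Or.inl rfl
  | d + 1 => by
    have e : csu2 CB c (d + 1) = List.rec (motive := fun _ => Nat) (csu2 CB c d)
      (fun E _ _ => bif ded2 E.t then 1 else 2) (CB.get (rot c d)) := rfl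
    rw [e]
    cases h : CB.get (rot c d) with
    | nil =>
      rcases csu2_sound CB c d with h1 | ⟨i, h1, h2⟩
      · exact Or.inl h1
      · exact Or.inr ⟨i, by omega, h2⟩
    | cons E l =>
      right
      refine ⟨d, by omega, E, by rw [h]; exact List.mem_cons_self .., fun h1 => ?_⟩
      cases h2 : ded2 E.t with
      | true => rfl
      | false =>
        have h1' : (bif ded2 E.t then 1 else 2) = 1 := h1
        rw [h2] at h1'
        exact absurd h1' (by simp)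

/-- The star inequality (as `star_allc`, with the second version of the check). -/
theorem star_allc2 {PD : BT (List Nat)} {FB : BT (List Fct)} {WL : BT (List Nat)}
    {CB : BT (List CE2)} (hS : S.Ok cmpS sol)
    (hF : ∀ p ∈ FB.toList, ∀ X ∈ p.2, NoX le ml sol S X)
    (hk : Hk le ml sol S cc f W)
    (hN : ∀ e, S.W e ≠ [] → Nr sol S e)
    {glY : List Nat → Bool} (hg : ∀ e, S.W e ≠ [] → glY ((S.W e).map cc) = true)
    (hcc : ∀ x y, cmpS x y = true → W.P.Q.cme (cc x + 1) (cc y + 1) = true ∧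
      W.P.Q.cmb (f (cc x) + 1) (f (cc y) + 1) = true)
    (hL : ∀ e, ∀ x ∈ S.W e, cc x < 31 ∧ f (cc x) < 31 ∧ sol (cc x) = sol x ∧
      tb W.P.Q.sm (cc x + 1) = sol x ∧ tb W.P.Q.lm (cc x + 1) = lng x ∧
      tdg W.P.Q.bm (cc x + 1) = f (cc x) + 1 ∧ tb W.P.Q.sm (f (cc x) + 1) = sol x ∧
      x ∈ W.P.lg (W.P.vl (cc x + 1)) ∧ ∀ g, W.P.leb g (f (cc x)) = true → le g x = true)
    (himp : ∀ e, ∀ i < (S.W e).length, ∀ p n, (S.W e).getD (prv (S.W e).length i) 0 ∈ W.P.lg p →
      (S.W e).getD (nxt (S.W e).length i) 0 ∈ W.P.lg n →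
      W.P.imp (wsl W.P.Q.wm ((S.mp cc).c e)) ((S.W e).getD i 0) p n = false)
    (hlev : ∀ g v, W.P.lev g v = true → ∀ x ∈ W.P.lg v, le g x = true)
    (hlg : ∀ v, ∀ x ∈ W.P.lg v, x ∈ W.P.lg x)
    (hr2 : ∀ r, S.W r ≠ [] → S.W (S.al r) ≠ [] →
      W.P.r2 (wsl W.P.Q.wm ((S.mp cc).c r)) (f (cc ((S.W r).getD 0 0)) + 1)
        (wsl W.P.Q.wm ((S.mp cc).c (S.al r)))
        (f (cc ((S.W (S.al r)).getD ((S.W (S.al r)).length - 1) 0)) + 1) = true)
    (hua : ∀ e, S.W e ≠ [] → S.W (S.al e) ≠ [] → ∀ v, (S.W e).getD 0 0 ∈ W.P.lg v →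
      W.P.ua (wsl W.P.Q.wm ((S.mp cc).c e)) v (wsl W.P.Q.wm ((S.mp cc).c (S.al e)))
        (f (cc ((S.W (S.al e)).getD ((S.W (S.al e)).length - 1) 0)) + 1) = true)
    (hub : ∀ e, S.W e ≠ [] → S.W (S.al e) ≠ [] → ∀ v,
      (S.W e).getD ((S.W e).length - 1) 0 ∈ W.P.lg v →
      W.P.ub (wsl W.P.Q.wm ((S.mp cc).c e)) v (wsl W.P.Q.wm ((S.mp cc).c (S.al e)))
        (f (cc ((S.W (S.al e)).getD 0 0)) + 1) = true)
    (hgk : ∀ r, S.W r ≠ [] → S.W (S.al r) ≠ [] → S.W (S.al (S.nx r)) ≠ [] →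
      W.P.Q.gk (wsl W.P.Q.wm ((S.mp cc).c r)) (cc ((S.W r).getD 0 0) + 1)
        (nfc W.P.Q.bm W.P.Q.wm W.P.Q.sm ((S.mp cc).c (S.al r)))
        (nfc W.P.Q.bm W.P.Q.wm W.P.Q.sm ((S.mp cc).c (S.al (S.nx r)))) = false)
    (hgv : ∀ r, S.W r ≠ [] → S.W (S.al r) ≠ [] → S.W (S.al (S.nx r)) ≠ [] →
      ∀ v, (S.W r).getD 0 0 ∈ W.P.lg v →
      W.P.gv (wsl W.P.Q.wm ((S.mp cc).c r)) v
        (nfc W.P.Q.bm W.P.Q.wm W.P.Q.sm ((S.mp cc).c (S.al r)))
        (nfc W.P.Q.bm W.P.Q.wm W.P.Q.sm ((S.mp cc).c (S.al (S.nx r)))) = false)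
    (hcd : ∀ a i, W.P.cd a i = cda (W.P.Q.pos a 0).cl i)
    (hsh : 12 * W.P.Q.den ≤ 4 * (W.P.Q.sh + 2 * W.P.Q.den))
    {h : Nat → Nat} (hh : ∀ e, ∀ x ∈ S.W e, W.P.hd (cc x + 1) = h x)
    (hPF : W.P.Q.PF.allB (fun x ys => pfdb W.P.leb ml FB x ys (PD.get x)) = true)
    (hCB : CB.allB W.ckc = true)
    (hSG : W.P.Q.SG.allB (W.P.soc WL) = true)
    (hcov : ∀ w, glY w = true → W.cow CB WL (enc w) = true)
    (e : D) (he : S.W e ≠ []) :
    chv2 sol lng W.P.Q.den W.P.Q.nl W.P.Q.nu W.P.dl h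
      (fun a b => W.P.Q.fw (a.map cc) (b.map cc)) S e ≤ 0 := by
  set Y := S.mp cc with hYd
  set lngY : Nat → Bool := fun y => tb W.P.Q.lm (y + 1) with hlY
  set cmpY : Nat → Nat → Bool := fun x y =>
    W.P.Q.cme (x + 1) (y + 1) && W.P.Q.cmb (f x + 1) (f y + 1) with hcY
  -- the coarse system
  have hY : Y.Ok cmpY sol := by
    refine hS.mp (fun e x hx => (hL e x hx).1) (fun x y h => ?_) ?_
    · obtain ⟨h1, h2⟩ := hcc x y h
      simp only [hcY]
      rw [h1, h2]; rfl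
    · intro e x hx h
      rw [← (hL e x hx).2.2.1]
      exact h
  have hYm : ∀ e, ∀ y ∈ Y.W e, ∃ x ∈ S.W e, y = cc x := by
    intro e y hy
    obtain ⟨x, hx, rfl⟩ := List.mem_map.1 hy
    exact ⟨x, hx, rfl⟩
  have hYsm : ∀ e, ∀ y ∈ Y.W e, tb W.P.Q.sm (y + 1) = sol y := by
    intro e y hy
    obtain ⟨x, hx, rfl⟩ := hYm e y hy
    rw [(hL e x hx).2.2.2.1, (hL e x hx).2.2.1]
  have hb : Bmp W.P.Q.bm f Y := ⟨fun e y hy => by
      obtain ⟨x, hx, rfl⟩ := hYm e y hy
      exact (hL e x hx).2.2.2.2.2.1, fun e y hy => by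
      obtain ⟨x, hx, rfl⟩ := hYm e y hy
      exact (hL e x hx).2.1⟩
  have hY' : (Y.mp f).Ok (fun x y => W.P.Q.cmb (x + 1) (y + 1)) (fun x => tb W.P.Q.sm (x + 1)) := by
    refine hY.mp (fun e y hy => hb.s e y hy) (fun x y h => ?_) ?_
    · simp only [hcY, Bool.and_eq_true] at h
      exact h.2
    · intro e y hy h
      obtain ⟨x, hx, rfl⟩ := hYm e y hy
      rw [(hL e x hx).2.2.1, ← (hL e x hx).2.2.2.2.2.2.1]
      exact h
  -- the facts in the coarse system
  have hl : Leb (fun g y => W.P.leb g (f y)) W.P.leb f Y := fun _ _ _ _ h => h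
  have hsl : ∀ e, ∀ x ∈ S.W e, sol (cc x) = sol x := fun e x hx => (hL e x hx).2.2.1
  have hlb : ∀ e, ∀ x ∈ S.W e, ∀ g, W.P.leb g (f (cc x)) = true → le g x = true :=
    fun e x hx => (hL e x hx).2.2.2.2.2.2.2.2
  have hmd : ∀ {X : Fct} {e : D}, Mtn (fun g y => W.P.leb g (f y)) sol Y X e →
      Mtn le sol S X e := by
    intro X e hm
    exact ⟨lew_map (f := cc) (leb := fun g y => W.P.leb g (f y)) (hlb e) hm.1,
      fun p hp => ⟨fun h0 => pls_mp (hsl _) ((hm.2 p hp).1 h0), fun h0 =>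
        lew_map (f := cc) (leb := fun g y => W.P.leb g (f y)) (hlb _) ((hm.2 p hp).2 h0)⟩⟩
  have hF' : ∀ p ∈ FB.toList, ∀ X ∈ p.2, NoX (fun g y => W.P.leb g (f y)) ml sol Y X :=
    fun p hp X hX => ⟨fun e hm => (hF p hp X hX).1 e (hmd hm),
      fun e hm => (hF p hp X hX).2 e (hmd hm)⟩
  have hpf := pfb_all (Q := W.P.Q) hY hb hY' hl hF' hPF
  have first : ∀ r, S.W r ≠ [] → (Y.W r).getD 0 0 = cc ((S.W r).getD 0 0) := by
    intro r hr
    have := (hS.len r hr).1
    show ((S.W r).map cc).getD 0 0 = _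
    rw [getD_map0 (by omega)]
  have last : ∀ r, S.W r ≠ [] → (Y.W r).getD ((Y.W r).length - 1) 0 =
      cc ((S.W r).getD ((S.W r).length - 1) 0) := by
    intro r hr
    have := (hS.len r hr).1
    show ((S.W r).map cc).getD (((S.W r).map cc).length - 1) 0 = _
    rw [List.length_map, getD_map0 (by omega)]
  have h2 : Hc2 cmpY (fun x y => W.P.Q.cmb (x + 1) (y + 1)) sol (fun x => tb W.P.Q.sm (x + 1))
      Y f W.P := by
    refine ⟨hY, hb, hY', hYsm, fun r hr hr' => ?_, hpf, fun r hr hr' hr'' => ?_, hcd⟩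
    · have hr1 := mp_ne.1 hr
      have hr2' := mp_ne.1 hr'
      rw [first r hr1]
      have e2 : (Y.W (Y.al r)).getD ((Y.W (Y.al r)).length - 1) 0 =
        cc ((S.W (S.al r)).getD ((S.W (S.al r)).length - 1) 0) := last _ hr2'
      rw [e2]
      exact hr2 r hr1 hr2'
    · have hr1 := mp_ne.1 hr
      rw [first r hr1]
      exact hgk r hr1 (mp_ne.1 hr') (mp_ne.1 hr'')
  have hv : Hv cmpS cmpY (fun x y => W.P.Q.cmb (x + 1) (y + 1)) sol (fun x => tb W.P.Q.sm (x + 1))
      S cc f W.P le :=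
    ⟨hS, h2, hsl, hlb, hlev, fun e x hx => (hL e x hx).2.2.2.2.2.2.2.1, hlg,
      himp, hgv, hua, hub⟩
  have hpr : Hpr sol lngY Y W.P.Q := by
    exact ⟨hYsm, fun e y hy => rfl, hsh⟩
  -- centres
  have ent : ∀ e, S.W e ≠ [] → ∀ E ∈ CB.get (Y.c e), 0 < (S.W e).length ∧
      (ded2 E.t = false → Kk W (Y.c e) (S.W e).length) ∧
      W.ckt (Y.c e) (S.W e).length (wsl W.P.Q.wm (Y.c e)) E.t (W.P.v0 (Y.c e)) 0
        (W.P.lg (gtk (W.P.v0 (Y.c e)) 0)) = true := by
    intro e he E hE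
    have he' : Y.W e ≠ [] := mp_ne.2 he
    have h4 := hY.len e he'
    have hlen : (Y.W e).length = (S.W e).length := by
      show ((S.W e).map cc).length = _
      rw [List.length_map]
    have hd : dgn (Y.c e) = (S.W e).length := by
      rw [← hlen]; exact dgn_enc (hY.sm e) h4.1 h4.2
    have h1 : CB.get (Y.c e) ≠ [] := by
      intro h0; rw [h0] at hE; simp at hE
    obtain ⟨h3, h5⟩ := ckc2_sound (BT.allB_sound hCB _ (BT.get_mem h1)) E hE
    dsimp only at h3 h5
    rw [hd] at h3 h5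
    exact ⟨by omega, fun hd i hi => hk.kt _ (h3 hd i hi), h5⟩
  have v00 : ∀ e, S.W e ≠ [] → (S.W e).getD 0 0 ∈ W.P.lg (gtk (W.P.v0 (Y.c e)) 0) := by
    intro e he
    have h4 := (hS.len e he).1
    rw [gtk_eq]
    exact (v0_cov hv he).2 0 (by omega)
  -- dead centres do not occur
  have hded : ∀ e, S.W e ≠ [] → ∀ E ∈ CB.get (Y.c e), ded2 E.t = false := by
    intro e he E hE
    obtain ⟨hj, -, h5⟩ := ent e he E hE
    exact ckt2_dead hv hk he E.t _ 0 _ (v0_cov hv he) hj (v00 e he) h5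
  have hst : ∀ e, S.W e ≠ [] → (csu2 CB (Y.c e) (dgn (Y.c e)) ≠ 1) := by
    intro e he h1
    rcases csu2_sound CB (Y.c e) (dgn (Y.c e)) with h2 | ⟨i, -, E, hE, h2⟩
    · rw [h2] at h1; exact absurd h1 (by decide)
    · rw [rot_c hY (mp_ne.2 he) i] at hE
      have h3 := hded (S.nx^[i] e) (hS.ne_iter he i) E hE
      rw [h2 h1] at h3
      exact Bool.noConfusion h3
  have hcv : ∀ e, S.W e ≠ [] →
      ((bif Nat.beq (csu2 CB (Y.c e) (dgn (Y.c e))) 0 then W.P.Q.trv (Y.c e) else true) = true) ∧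
      W.P.Q.ky (Y.c e) ∈ WL.get (hi (W.P.Q.ky (Y.c e))) := by
    intro e he
    have h1 : W.cow CB WL (Y.c e) = true := hcov _ (hg e he)
    unfold Pw.cow at h1
    dsimp only at h1
    have h2 : Nat.beq (csu2 CB (Y.c e) (dgn (Y.c e))) 1 = false := by
      rw [← Bool.not_eq_true]
      intro h3
      exact hst e he (Nat.eq_of_beq_eq_true h3)
    rw [h2] at h1
    dsimp only [cond_false] at h1
    rw [cond_true_iff] at h1
    exact ⟨h1.1, mem_iff.1 h1.2⟩
  have hpos := posc_all (WL := WL) h2 (fun x y h => by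
    simp only [hcY, Bool.and_eq_true] at h
    exact h.1) (fun e he => (hcv e (mp_ne.1 he)).2) (socb_all (BT.allB_sound hSG))
  rw [← chv_down (lngY := lngY) (hY := W.P.hl) hS hsl (fun e x hx => (hL e x hx).2.2.2.2.1)
    (fun e x hx => hh e x hx) e he]
  have he' : Y.W e ≠ [] := mp_ne.2 he
  have h1 := (hcv e he).1
  by_cases h3 : csu2 CB (Y.c e) (dgn (Y.c e)) = 0
  · rw [h3] at h1
    exact chc_trv hY hb hpr hpos he' h1
  · rcases csu2_sound CB (Y.c e) (dgn (Y.c e)) with h4 | ⟨i, -, E, hE, -⟩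
    · exact absurd h4 h3
    · rw [rot_c hY he' i] at hE
      have hei := hS.ne_iter he i
      obtain ⟨hj, h5, h6⟩ := ent (S.nx^[i] e) hei E hE
      have h7 := (ckt2_sound hv hk hei (nr_up hsl (hN _ hei)) hpr hpos (h5 (hded _ hei E hE))
        E.t _ 0 _ (v0_cov hv hei) hj (v00 _ hei) h6).1
      have h8 := chv2_iter (lng := lngY) (den := W.P.Q.den) (nl := W.P.Q.nl) (nu := W.P.Q.nu)
        (dl := W.P.dl) (h := W.P.hl) (F := W.P.Q.fw) hY he' i
      rw [← h8]
      exact h7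

end sound

end

end Pool.FCS
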