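import Pool.Agent.FCS.We

/-!
# Star check, second version: parts of the tables
-/

namespace Pool.FCS

noncomputable section

/-! ### Trees of numbers -/

theorem BT.getN_mem : ∀ {t : BT Nat} {k : Nat}, t.getN k ≠ 0 → (k, t.getN k) ∈ t.toList
  | lf, k, h => absurd rfl h
  | nd l m v r, k, h => by
    have e : (nd l m v r).getN k = (bif Nat.beq k m then v else bif Nat.ble k m then l.getN k
      else r.getN k) := rfl
    rw [e] at h ⊢
    unfold BT.toList
    cases h1 : Nat.beq k m with
    | true =>
      have := Nat.eq_of_beq_eq_true h1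
      subst this
      simp
    | false =>
      rw [h1] at h
      cases h2 : Nat.ble k m with
      | true =>
        rw [h2] at h
        exact List.mem_append_left _ (BT.getN_mem (t := l) h)
      | false =>
        rw [h2] at h
        exact List.mem_append_right _ (List.mem_cons_of_mem _ (BT.getN_mem (t := r) h))

theorem BT.toList_mp {α : Type} (g : Nat → α) : ∀ t : BT Nat,
    (t.mp g).toList = t.toList.map fun p => (p.1, g p.2)
  | lf => rfl
  | nd l m v r => by
    have e : (nd l m v r).mp g = nd (l.mp g) m (g v) (r.mp g) := rfl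
    rw [e]
    show (l.mp g).toList ++ (m, g v) :: (r.mp g).toList = (l.toList ++ (m, v) :: r.toList).map _
    rw [BT.toList_mp g l, BT.toList_mp g r, List.map_append, List.map_cons]

/-- a tree of numbers with checked entries, mapped -/
theorem BT.allB_mp_nd {α : Type} {f : Nat → α → Bool} {g : Nat → α} {l r : BT Nat} {m v : Nat}
    (hl : (l.mp g).allB f = true) (hv : f m (g v) = true) (hr : (r.mp g).allB f = true) :
    ((BT.nd l m v r).mp g).allB f = true := BT.allB_nd hl hv hr

/-- the empty tree -/
theorem BT.allB_lf {α : Type} {f : Nat → α → Bool} : (BT.lf : BT α).allB f = true := rfl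

/-- the records of the keys are correct -/
theorem Pw.kt_of {W : Pw} {t : BT Nat} (h : t.allB W.kok = true) :
    ∀ a, t.getN a ≠ 0 → W.kok a (t.getN a) = true :=
  fun _ ha => BT.allB_sound h _ (BT.getN_mem ha)

/-- the pairs in a packed table -/
theorem mo_of (t : BT Nat) (x y : Nat) (h : mbs (t.getN x) y = true) :
    memF y (getF (t.mp (dN 30)) x) = true := by
  rw [getF_eq, BT.get_mp rfl]
  exact mbs_mem h

/-! ### Parts of the tree of a centre -/

/-- the entry of a centre -/
theorem Pw.ckc_of {W : Pw} {k d s : Nat} {V L : List Nat} {t : Tr2} (hd : dgn k = d)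
    (hs : wsl W.P.Q.wm k = s) (hV : W.P.v0 k = V) (hL : W.P.lg (gtk V 0) = L)
    (hk : alln d (fun i => Nat.ble 1 (W.kr k i)) = true) (ht : W.ckt k d s t V 0 L = true) :
    W.ckc k [⟨k, t⟩] = true := by
  subst hd; subst hs; subst hV; subst hL
  have e : W.ckc k [⟨k, t⟩] = (bif Nat.beq k k then
      bif (bif ded2 t then true else alln (dgn k) (fun i => Nat.ble 1 (W.kr k i))) then
        bif W.ckt k (dgn k) (wsl W.P.Q.wm k) t (W.P.v0 k) 0 (W.P.lg (gtk (W.P.v0 k) 0))
          then true else false
      else false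
    else false) := rfl
  rw [e, hk, ht, Nat.beq_refl k]
  cases ded2 t <;> rfl

/-- the entry of a dead centre -/
theorem Pw.ckc_dd {W : Pw} {k d s : Nat} {V L : List Nat} {t : Tr2} (hd : dgn k = d)
    (hs : wsl W.P.Q.wm k = s) (hV : W.P.v0 k = V) (hL : W.P.lg (gtk V 0) = L)
    (hk : ded2 t = true) (ht : W.ckt k d s t V 0 L = true) : W.ckc k [⟨k, t⟩] = true := by
  subst hd; subst hs; subst hV; subst hL
  have e : W.ckc k [⟨k, t⟩] = (bif Nat.beq k k then
      bif (bif ded2 t then true else alln (dgn k) (fun i => Nat.ble 1 (W.kr k i))) then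
        bif W.ckt k (dgn k) (wsl W.P.Q.wm k) t (W.P.v0 k) 0 (W.P.lg (gtk (W.P.v0 k) 0))
          then true else false
      else false
    else false) := rfl
  rw [e, hk, ht, Nat.beq_refl k]
  rfl

/-- split of a sector -/
theorem Pw.ckt_sp {W : Pw} {c d k i j : Nat} {V L M : List Nat} {t : Tr2}
    (hi : Nat.ble (Nat.succ i) d = true) (hM : W.P.lg (gtk V i) = M)
    (h : W.ckt c d k t V i M = true) : W.ckt c d k (.sp i t) V j L = true := by
  subst hM
  have e : W.ckt c d k (.sp i t) V j L =
    (bif Nat.ble (Nat.succ i) d then W.ckt c d k t V i (W.P.lg (gtk V i)) else false) := rfl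
  rw [e, hi]
  exact h

/-- the next letter -/
theorem Pw.ckt_ch {W : Pw} {c d k i x : Nat} {V U L : List Nat} {a t : Tr2}
    (hU : stk x V i = U) (ha : W.ckt c d k a U i [x] = true) (ht : W.ckt c d k t V i L = true) :
    W.ckt c d k (.ch a t) V i (x :: L) = true := by
  subst hU
  have e : W.ckt c d k (.ch a t) V i (x :: L) =
    (bif (bif W.P.imp k x (gtk V (prv d i)) (gtk V (nxt d i)) then true else
      W.ckt c d k a (stk x V i) i [x]) then W.ckt c d k t V i L else false) := rfl
  rw [e, ha, ht]
  cases W.P.imp k x (gtk V (prv d i)) (gtk V (nxt d i)) <;> rfl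

/-- an impossible letter -/
theorem Pw.ckt_im {W : Pw} {c d k i x : Nat} {V L : List Nat} {a t : Tr2}
    (hi : W.P.imp k x (gtk V (prv d i)) (gtk V (nxt d i)) = true)
    (ht : W.ckt c d k t V i L = true) : W.ckt c d k (.ch a t) V i (x :: L) = true := by
  have e : W.ckt c d k (.ch a t) V i (x :: L) =
    (bif (bif W.P.imp k x (gtk V (prv d i)) (gtk V (nxt d i)) then true else
      W.ckt c d k a (stk x V i) i [x]) then W.ckt c d k t V i L else false) := rfl
  rw [e, hi, ht]
  rfl

/-- no more letters -/
theorem Pw.ckt_nil {W : Pw} {c d k i : Nat} {V : List Nat} {a t : Tr2} :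
    W.ckt c d k (.ch a t) V i [] = true := rfl

/-- the end -/
theorem Pw.ckt_en {W : Pw} {c d k i : Nat} {V : List Nat} : W.ckt c d k .en V i [] = true := rfl

end

end Pool.FCS
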