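import Pool.Agent.FCS.Sys
import Mathlib.Algebra.BigOperators.Group.Finset.Basic
import Mathlib.Algebra.Order.BigOperators.Group.Finset
import Mathlib.Algebra.BigOperators.Group.Finset.Piecewise

/-!
# Star check: one centre
-/

namespace Pool.FCS

open Finset

noncomputable section

/-- Search trees. -/
inductive BT (α : Type) where
  | lf : BT α
  | nd : BT α → Nat → α → BT α → BT α

/-- value of a key -/
def BT.get {α : Type} (t : BT (List α)) (k : Nat) : List α :=
  BT.rec (motive := fun _ => List α) []
    (fun _ m v _ hl hr => bif Nat.beq k m then v else bif Nat.ble k m then hl else hr) t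

/-- all entries -/
def BT.toList {α : Type} : BT α → List (Nat × α)
  | lf => []
  | nd l k v r => l.toList ++ (k, v) :: r.toList

theorem BT.get_mem {α : Type} : ∀ {t : BT (List α)} {k : Nat}, t.get k ≠ [] →
    (k, t.get k) ∈ t.toList
  | lf, k, h => absurd rfl h
  | nd l m v r, k, h => by
    have e : (nd l m v r).get k = (bif Nat.beq k m then v else bif Nat.ble k m then l.get k
      else r.get k) := rfl
    rw [e] at h ⊢
    unfold BT.toList
    cases h1 : Nat.beq k m with
    | true =>
      have := Nat.eq_of_beq_eq_true h1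
      subst this
      simp
    | false =>
      rw [h1] at h
      cases h2 : Nat.ble k m with
      | true =>
        rw [h2] at h
        exact List.mem_append_left _ (BT.get_mem (t := l) h)
      | false =>
        rw [h2] at h
        exact List.mem_append_right _ (List.mem_cons_of_mem _ (BT.get_mem (t := r) h))

/-- first value of a key in a list of pairs (value, key) -/
def asc (l : List (Nat × Nat)) (b : Nat) : Nat :=
  List.rec (motive := fun _ => Nat) 0 (fun q _ ih => bif Nat.beq q.2 b then q.1 else ih) l

theorem asc_mem : ∀ {l : List (Nat × Nat)} {b : Nat}, asc l b ≠ 0 → (asc l b, b) ∈ l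
  | [], b, h => absurd rfl h
  | q :: l, b, h => by
    have e : asc (q :: l) b = (bif Nat.beq q.2 b then q.1 else asc l b) := rfl
    rw [e] at h ⊢
    cases hb : Nat.beq q.2 b with
    | true =>
      have := Nat.eq_of_beq_eq_true hb
      rw [← this]
      exact List.mem_cons_self ..
    | false =>
      rw [hb] at h
      exact List.mem_cons_of_mem _ (asc_mem (l := l) h)

/-- The parameters of the check. -/
structure Par where
  den : Nat
  nu : Nat
  sm : Nat
  cmd : Nat → Nat → Bool
  /-- receiver: list of (2 (den + flow), sender) -/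
  T : BT (List (Nat × Nat))
  /-- sender: (default, 0) :: candidates -/
  SG : BT (List (Nat × Nat))
  /-- forbidden pairs -/
  PF : BT (List Nat)

/-- membership -/
def mem (b : Nat) (l : List Nat) : Bool :=
  List.rec (motive := fun _ => Bool) false (fun x _ ih => bif Nat.beq x b then true else ih) l

theorem mem_iff {b : Nat} : ∀ {l : List Nat}, mem b l = true ↔ b ∈ l
  | [] => by simp [mem]
  | x :: l => by
    have e : mem b (x :: l) = (bif Nat.beq x b then true else mem b l) := rfl
    rw [e, List.mem_cons]
    cases h : Nat.beq x b with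
    | true => have := Nat.eq_of_beq_eq_true h; simp [this]
    | false =>
      have : b ≠ x := by rintro rfl; rw [Nat.beq_refl] at h; simp at h
      simp only [cond_false, this, false_or]
      exact mem_iff

/-- forbidden pair -/
def Par.pf (Q : Par) (x y : Nat) : Bool := mem y (Q.PF.get x)

/-- the flow from `a` to `b` (in units `1 / den`) -/
def Par.fl (Q : Par) (a b : Nat) : Nat := asc (Q.T.get b) a / 2 - Q.den

/-- the contribution of a neighbour with code `b` at the root with code `a` -/
def Par.gi (Q : Par) (a b : Nat) : Int :=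
  if b = 0 then - (Q.nu : Int) else 2 * ((Q.fl b a : Int) - (Q.fl a b : Int))

/-- the same, shifted by `2 den` -/
def Par.G (Q : Par) (a b : Nat) : Nat := (Q.gi a b + 2 * Q.den).toNat

/-- a position -/
def Par.pos (Q : Par) (a i : Nat) : Pos :=
  List.rec (motive := fun _ => Pos) ⟨i, Q.T.get a, Nat.mul 2 Q.den⟩ (fun q cl _ => ⟨i, cl, q.1⟩)
    (Q.SG.get a)

theorem Par.pos_i (Q : Par) (a i : Nat) : (Q.pos a i).i = i := by
  unfold Par.pos
  cases Q.SG.get a <;> rfl

/-- the position is correct for the neighbour `b` -/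
def Par.PosOk (Q : Par) (a b : Nat) : Prop :=
  Q.G a b ≤ (Q.pos a 0).df ∨ ∃ g, (g, b) ∈ (Q.pos a 0).cl ∧ Q.G a b ≤ g

theorem Par.pos_df (Q : Par) (a i : Nat) : (Q.pos a i).df = (Q.pos a 0).df := by
  unfold Par.pos
  cases Q.SG.get a <;> rfl

theorem Par.pos_cl (Q : Par) (a i : Nat) : (Q.pos a i).cl = (Q.pos a 0).cl := by
  unfold Par.pos
  cases Q.SG.get a <;> rfl

/-- iterated rotation -/
def rot (c i : Nat) : Nat := Nat.rec (motive := fun _ => Nat) c (fun _ ih => rlc ih) i

/-- number of letters -/
def dgn (c : Nat) : Nat := bif Nat.ble 33554432 c then 6 else bif Nat.ble 1048576 c then 5 else 4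

/-- number of gaps among the first `d` letters -/
def gps (sm c d : Nat) : Nat :=
  Nat.rec (motive := fun _ => Nat) 0
    (fun i ih => bif tb sm (dg (Nat.pow 32 i) c) then ih else Nat.succ ih) d

/-- threshold -/
def Par.thr (Q : Par) (c : Nat) : Nat :=
  Nat.mul Q.den (Nat.sub (Nat.add (Nat.mul 4 (dgn c)) (gps Q.sm c (dgn c))) 12)

/-- positions in the given order, without `x` and `y` -/
def Par.pss (Q : Par) (c : Nat) (ord : List Nat) (x y : Nat) : List Pos :=
  List.rec (motive := fun _ => List Pos) []
    (fun i _ ih => bif Nat.beq i x then ih else bif Nat.beq i y then ih else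
      Q.pos (rot c i) i :: ih) ord

/-- all `i < n` -/
def alln (n : Nat) (f : Nat → Bool) : Bool :=
  Nat.rec (motive := fun _ => Bool) true (fun i ih => bif f i then ih else false) n

theorem alln_iff {n : Nat} {f : Nat → Bool} : alln n f = true ↔ ∀ i < n, f i = true := by
  induction n with
  | zero => simp [alln]
  | succ n ih =>
    have e : alln (n + 1) f = (bif f n then alln n f else false) := rfl
    rw [e]
    constructor
    · intro h i hi
      cases hf : f n with
      | false => rw [hf] at h; simp at h
      | true =>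
        rw [hf] at h
        rcases Nat.lt_succ_iff_lt_or_eq.1 hi with h1 | h1
        · exact (ih.1 h) i h1
        · rw [h1]; exact hf
    · intro h
      rw [h n (Nat.lt_succ_self n)]
      exact ih.2 fun i hi => h i (Nat.lt_succ_of_lt hi)

/-- number of occurrences -/
def cnt (i : Nat) (l : List Nat) : Nat :=
  List.rec (motive := fun _ => Nat) 0 (fun x _ ih => bif Nat.beq x i then Nat.succ ih else ih) l

/-- the order is a permutation of `0 .. d - 1` -/
def okOrd (d : Nat) (ord : List Nat) : Bool :=
  bif Nat.beq ord.length d then alln d fun i => Nat.beq (cnt i ord) 1 else false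

/-- A centre: code of the word, order of the positions, forbidden patterns. -/
structure Cen where
  c : Nat
  ord : List Nat
  pats : List (List (Nat × Nat))

/-- all lists of candidates are sorted -/
def srts (ps : List Pos) : Bool :=
  List.rec (motive := fun _ => Bool) true (fun p _ ih => bif srt p.cl then ih else false) ps

/-- all codes in the patterns are positive -/
def pos0 (pats : List (List (Nat × Nat))) : Bool := pats.all fun P => P.all fun q => !Nat.beq q.2 0

/-- The check of a centre. -/
def Par.chk (Q : Par) (C : Cen) : Bool :=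
  bif okOrd (dgn C.c) C.ord then
    bif pos0 C.pats then
      bif srts (Q.pss C.c C.ord 9 9) then
        bif go (cf Q.cmd Q.pf Q.sm C.c (dgn C.c) C.pats) (Q.thr C.c) (Q.pss C.c C.ord 9 9) [] 0 then
          alln (dgn C.c) fun i => bif tb Q.sm (dg (Nat.pow 32 i) C.c) then
            bif Nat.beq (Q.thr C.c) 0 then false else
            go (cf Q.cmd Q.pf Q.sm C.c (dgn C.c) C.pats) (Nat.pred (Q.thr C.c))
              (Q.pss C.c C.ord i (bif Nat.beq (Nat.succ i) (dgn C.c) then 0 else Nat.succ i)) []
              (Nat.mul 2 (Nat.sub (Nat.mul 2 Q.den) Q.nu)) else true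
        else false
      else false
    else false
  else false

/-! ### Soundness -/

theorem cond_true_iff {a b : Bool} : (bif a then b else false) = true ↔ a = true ∧ b = true := by
  cases a <;> simp

theorem dgn_enc {l : List Nat} (h : Sm l) (h4 : 4 ≤ l.length) (h6 : l.length ≤ 6) :
    dgn (enc l) = l.length := by
  have h1 := enc_lt h
  have h2 := le_enc (l := l) (by rintro rfl; simp at h4)
  have hl : l.length = 4 ∨ l.length = 5 ∨ l.length = 6 := by omega
  unfold dgn
  rcases hl with hl | hl | hl
  · rw [hl] at h1 h2 ⊢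
    norm_num at h1 h2 ⊢
    have a1 : Nat.ble 33554432 (enc l) = false := by
      rw [← Bool.not_eq_true, Nat.ble_eq]; omega
    have a2 : Nat.ble 1048576 (enc l) = false := by
      rw [← Bool.not_eq_true, Nat.ble_eq]; omega
    rw [a1, a2]; rfl
  · rw [hl] at h1 h2 ⊢
    norm_num at h1 h2 ⊢
    have a1 : Nat.ble 33554432 (enc l) = false := by
      rw [← Bool.not_eq_true, Nat.ble_eq]; omega
    have a2 : Nat.ble 1048576 (enc l) = true := by rw [Nat.ble_eq]; omega
    rw [a1, a2]; rfl
  · rw [hl] at h1 h2 ⊢
    norm_num at h1 h2 ⊢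
    have a1 : Nat.ble 33554432 (enc l) = true := by rw [Nat.ble_eq]; omega
    rw [a1]; rfl

theorem cnt_eq (i : Nat) : ∀ l : List Nat, cnt i l = l.count i
  | [] => rfl
  | x :: l => by
    have e : cnt i (x :: l) = (bif Nat.beq x i then Nat.succ (cnt i l) else cnt i l) := rfl
    rw [e, List.count_cons, cnt_eq i l]
    cases h : Nat.beq x i with
    | true => have := Nat.eq_of_beq_eq_true h; simp [this]
    | false =>
      have : x ≠ i := by rintro rfl; rw [Nat.beq_refl] at h; simp at h
      simp [this]

/-- sums along the order -/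
theorem okOrd_perm {d : Nat} {ord : List Nat} (h : okOrd d ord = true) :
    ord.Perm (List.range d) := by
  unfold okOrd at h
  rw [cond_true_iff] at h
  have h1 := Nat.eq_of_beq_eq_true h.1
  have h2 := alln_iff.1 h.2
  have hsub : (List.range d).Subperm ord := by
    rw [List.subperm_ext_iff]
    intro x hx
    have hx' := List.mem_range.1 hx
    have h3 := Nat.eq_of_beq_eq_true (h2 x hx')
    rw [cnt_eq] at h3
    rw [h3]
    exact List.nodup_iff_count_le_one.1 List.nodup_range x
  exact (hsub.perm_of_length_le (by rw [h1, List.length_range])).symm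

theorem gps_eq {sm : Nat} {sol : Nat → Bool} {l : List Nat} (h : Sm l)
    (hsm : ∀ x ∈ l, tb sm (x + 1) = sol x) :
    gps sm (enc l) l.length = l.countP fun x => !sol x := by
  have key : ∀ n ≤ l.length, gps sm (enc l) n = (l.take n).countP fun x => !sol x := by
    intro n
    induction n with
    | zero => intro _; simp [gps]
    | succ n ih =>
      intro hn
      have e : gps sm (enc l) (n + 1) = (bif tb sm (dg (Nat.pow 32 n) (enc l)) then gps sm (enc l) n
        else Nat.succ (gps sm (enc l) n)) := rfl
      have h1 : dg (Nat.pow 32 n) (enc l) = _ := dg_enc h (show n < l.length by omega)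
      rw [e, h1, List.getD_eq_getElem _ _ (by omega), hsm _ (List.getElem_mem _), ih (by omega),
        List.take_add_one, List.getElem?_eq_getElem (by omega), List.countP_append]
      cases hc : sol l[n] <;> simp [hc]
  rw [key _ le_rfl, List.take_length]

section sound

variable {D : Type*} {cmp : Nat → Nat → Bool} {sol : Nat → Bool} {S : Sys D} {Q : Par}

/-- The hypotheses on the tables. -/
structure Hy (cmp : Nat → Nat → Bool) (sol : Nat → Bool) (S : Sys D) (Q : Par) : Prop where
  ok : S.Ok cmp sol
  cm : ∀ x y, cmp x y = true → Q.cmd (x + 1) (y + 1) = true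
  sm : ∀ e, ∀ x ∈ S.W e, tb Q.sm (x + 1) = sol x
  smt : ∀ x, tb Q.sm (x + 1) = true → sol x = true
  sm0 : tb Q.sm 0 = false
  pf : ∀ r, S.W r ≠ [] → S.W (S.al r) ≠ [] → Q.pf (S.c r) (S.c (S.al r)) = false
  nu : Q.nu ≤ 2 * Q.den
  pos : ∀ e, S.W e ≠ [] → Q.PosOk (S.c e) (S.c (S.al e))

/-- contribution of a dart -/
def Par.ga (Q : Par) (S : Sys D) (x : D) : Int := Q.gi (S.c x) (S.c (S.al x))

theorem rot_c (hS : S.Ok cmp sol) {e : D} (he : S.W e ≠ []) (i : Nat) :
    rot (S.c e) i = S.c (S.nx^[i] e) := by
  induction i with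
  | zero => rfl
  | succ i ih =>
    show rlc (rot (S.c e) i) = _
    rw [ih, Function.iterate_succ_apply', hS.c_nx (hS.ne_iter he i)]

theorem pss_ok (hy : Hy cmp sol S Q) {e : D} (he : S.W e ≠ []) (x y : Nat) :
    ∀ (ord : List Nat), (srts (Q.pss (S.c e) ord 9 9) = true) → (∀ i ∈ ord, i < 9) →
      ∀ p ∈ Q.pss (S.c e) ord x y,
        POk (S.nb e) (fun i => Q.G (S.c (S.nx^[i] e)) (S.nb e i)) p
  | [], _, _, p, hp => by simp [Par.pss] at hp
  | i :: ord, hs, h9, p, hp => by
    have hi : Nat.beq i 9 = false := by
      rw [← Bool.not_eq_true]; intro hc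
      have := Nat.eq_of_beq_eq_true hc
      have := h9 i (List.mem_cons_self ..)
      omega
    have e1 : Q.pss (S.c e) (i :: ord) 9 9 = (bif Nat.beq i 9 then Q.pss (S.c e) ord 9 9 else
      bif Nat.beq i 9 then Q.pss (S.c e) ord 9 9 else
        Q.pos (rot (S.c e) i) i :: Q.pss (S.c e) ord 9 9) := rfl
    rw [e1, hi] at hs
    have e2 : srts (Q.pos (rot (S.c e) i) i :: Q.pss (S.c e) ord 9 9) =
      (bif srt (Q.pos (rot (S.c e) i) i).cl then srts (Q.pss (S.c e) ord 9 9) else false) := rfl
    have hs' : srts (Q.pos (rot (S.c e) i) i :: Q.pss (S.c e) ord 9 9) = true := hs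
    rw [e2, cond_true_iff] at hs'
    have ih := pss_ok hy he x y ord hs'.2 (fun j hj => h9 j (List.mem_cons_of_mem _ hj))
    have e3 : Q.pss (S.c e) (i :: ord) x y = (bif Nat.beq i x then Q.pss (S.c e) ord x y else
      bif Nat.beq i y then Q.pss (S.c e) ord x y else
        Q.pos (rot (S.c e) i) i :: Q.pss (S.c e) ord x y) := rfl
    rw [e3] at hp
    cases hx : Nat.beq i x with
    | true => rw [hx] at hp; exact ih p hp
    | false =>
      rw [hx] at hp
      cases hyy : Nat.beq i y with
      | true => rw [hyy] at hp; exact ih p hp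
      | false =>
        rw [hyy] at hp
        rcases List.mem_cons.1 hp with rfl | hp
        · refine ⟨srt_Srt hs'.1, ?_⟩
          have h1 := hy.pos _ (hy.ok.ne_iter he i)
          unfold Par.PosOk at h1
          rw [Par.pos_i, Par.pos_df, Par.pos_cl, rot_c hy.ok he i]
          exact h1
        · exact ih p hp

theorem pss_sum {Q : Par} (c : Nat) (G : Nat → Nat) (x y : Nat) : ∀ (ord : List Nat),
    ((Q.pss c ord x y).map fun p => G p.i).sum =
      ((ord.filter fun i => !(Nat.beq i x) && !(Nat.beq i y)).map G).sum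
  | [] => rfl
  | i :: ord => by
    have e3 : Q.pss c (i :: ord) x y = (bif Nat.beq i x then Q.pss c ord x y else
      bif Nat.beq i y then Q.pss c ord x y else
        Q.pos (rot c i) i :: Q.pss c ord x y) := rfl
    rw [e3, List.filter_cons]
    cases Nat.beq i x with
    | true => simpa using pss_sum c G x y ord
    | false =>
      cases Nat.beq i y with
      | true => simpa using pss_sum c G x y ord
      | false =>
        have := pss_sum (Q := Q) c G x y ord
        simp only [cond_false, List.map_cons, List.sum_cons, this, Par.pos_i]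
        simp

theorem gi_le (x : D) : Q.ga S x + 2 * Q.den ≤ Q.G (S.c x) (S.c (S.al x)) := by
  unfold Par.G Par.ga
  exact Int.self_le_toNat _

theorem sum_range_list (n : Nat) (f : Nat → Nat) :
    ((List.range n).map f).sum = ∑ i ∈ range n, f i := by
  induction n with
  | zero => simp
  | succ n ih => rw [List.range_succ, List.map_append, List.sum_append, ih, sum_range_succ]; simp

theorem sum_filter_list (G : Nat → Nat) (x y : Nat) : ∀ ord : List Nat,
    ((ord.filter fun i => !(Nat.beq i x) && !(Nat.beq i y)).map G).sum =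
      (ord.map fun i => if i = x ∨ i = y then 0 else G i).sum
  | [] => rfl
  | i :: ord => by
    rw [List.filter_cons, List.map_cons, List.sum_cons, ← sum_filter_list G x y ord]
    cases hx : Nat.beq i x with
    | true => have := Nat.eq_of_beq_eq_true hx; simp [this]
    | false =>
      have h1 : i ≠ x := by rintro rfl; rw [Nat.beq_refl] at hx; simp at hx
      cases hyy : Nat.beq i y with
      | true => have := Nat.eq_of_beq_eq_true hyy; simp [this]
      | false =>
        have h2 : i ≠ y := by rintro rfl; rw [Nat.beq_refl] at hyy; simp at hyy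
        simp [h1, h2]

theorem sum_two {d x y : Nat} (G : Nat → Nat) (hx : x < d) (hyd : y < d) (hxy : x ≠ y) :
    ∑ i ∈ range d, G i = (∑ i ∈ range d, if i = x ∨ i = y then 0 else G i) + G x + G y := by
  have h1 : ∀ i ∈ range d, G i = (if i = x ∨ i = y then 0 else G i) +
      (if i = x then G x else 0) + (if i = y then G y else 0) := by
    intro i _
    by_cases h1 : i = x
    · subst h1
      have : ¬ i = y := hxy
      simp [this]
    · by_cases h2 : i = y
      · subst h2; simp [h1]
      · simp [h1, h2]
  rw [sum_congr rfl h1, sum_add_distrib, sum_add_distrib, sum_ite_eq', sum_ite_eq',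
    if_pos (mem_range.2 hx), if_pos (mem_range.2 hyd)]

theorem chk_sound (hy : Hy cmp sol S Q) {C : Cen} (hC : Q.chk C = true) {e : D}
    (he : S.W e ≠ []) (hc : S.c e = C.c)
    (hP : ∀ P ∈ C.pats, ¬ ∀ q ∈ P, S.nb e q.1 = q.2) :
    (∑ i ∈ range (S.W e).length, Q.G (S.c (S.nx^[i] e)) (S.nb e i) ≤ Q.thr C.c) ∧
    (∀ i < (S.W e).length, sol ((S.W (S.nx^[i] e)).getD 0 0) = true →
      S.nb e i = 0 → S.nb e (i + 1) = 0 →
      ∑ i ∈ range (S.W e).length, Q.G (S.c (S.nx^[i] e)) (S.nb e i) < Q.thr C.c) := by
  have h4 := hy.ok.len e he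
  have hd : dgn C.c = (S.W e).length := by
    rw [← hc]; exact dgn_enc (hy.ok.sm e) h4.1 h4.2
  unfold Par.chk at hC
  simp only [cond_true_iff] at hC
  obtain ⟨c1, c2, c3, c4, c5⟩ := hC
  rw [hd] at c1 c4 c5
  have hperm := okOrd_perm c1
  have h9 : ∀ i ∈ C.ord, i < 9 := fun i hi => by
    have := List.mem_range.1 (hperm.mem_iff.1 hi)
    omega
  have hP0 : ∀ P ∈ C.pats, (∀ q ∈ P, q.2 ≠ 0) ∧ ¬ ∀ q ∈ P, S.nb e q.1 = q.2 := by
    intro P hPm
    refine ⟨fun q hq h0 => ?_, hP P hPm⟩
    unfold pos0 at c2
    have := List.all_eq_true.1 (List.all_eq_true.1 c2 P hPm) q hq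
    rw [h0] at this
    simp at this
  have hcf := cf_sound (cmd := Q.cmd) (pf := Q.pf) (sm := Q.sm) hy.ok hy.cm hy.smt hy.sm0 hy.pf he hP0
  rw [← hc] at c3 c4 c5
  constructor
  · have h1 := go_sound _ hcf _ (pss_ok hy he 9 9 C.ord c3 h9) [] (fun q hq => by simp at hq) 0
      c4
    rw [Nat.zero_add, pss_sum (S.c e) (fun i => Q.G (S.c (S.nx^[i] e)) (S.nb e i))] at h1
    have h2 : (C.ord.filter fun i => !(Nat.beq i 9) && !(Nat.beq i 9)) = C.ord := by
      rw [List.filter_eq_self]
      intro i hi
      have : Nat.beq i 9 = false := by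
        rw [← Bool.not_eq_true]; intro hh
        have := Nat.eq_of_beq_eq_true hh
        have := h9 i hi
        omega
      rw [this]; rfl
    rw [h2, (hperm.map _).sum_eq, sum_range_list] at h1
    rw [← hc]
    exact h1
  · intro i hi hs n1 n2
    have h5 := alln_iff.1 c5 i hi
    have h6 : tb Q.sm (dg (Nat.pow 32 i) (S.c e)) = true := by
      have h7 : dg (32 ^ i) (enc (S.W e)) = _ := dg_enc (hy.ok.sm e) hi
      have h8 : dg (Nat.pow 32 i) (S.c e) = (S.W e).getD i 0 + 1 := h7
      rw [h8, hy.sm e _ (by rw [List.getD_eq_getElem _ _ hi]; exact List.getElem_mem _)]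
      rw [hy.ok.W_iter he i] at hs
      rw [List.getD_eq_getElem _ _ (by rw [List.length_rotate]; omega), List.getElem_rotate] at hs
      rw [List.getD_eq_getElem _ _ hi]
      simpa [Nat.mod_eq_of_lt hi] using hs
    rw [h6] at h5
    replace h5 : (bif Nat.beq (Q.thr (S.c e)) 0 then false else
            go (cf Q.cmd Q.pf Q.sm (S.c e) (S.W e).length C.pats) (Nat.pred (Q.thr (S.c e)))
              (Q.pss (S.c e) C.ord i (bif Nat.beq (Nat.succ i) (S.W e).length then 0 else Nat.succ i)) []
              (Nat.mul 2 (Nat.sub (Nat.mul 2 Q.den) Q.nu))) = true := h5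
    set j := (bif Nat.beq (Nat.succ i) (S.W e).length then 0 else Nat.succ i) with hj
    cases ht : Nat.beq (Q.thr (S.c e)) 0 with
    | true => rw [ht] at h5; simp at h5
    | false =>
      rw [ht] at h5
      have ht0 : Q.thr (S.c e) ≠ 0 := by intro h0; rw [h0] at ht; simp at ht
      have h1 := go_sound _ hcf _ (pss_ok hy he i j C.ord c3 h9) [] (fun q hq => by simp at hq) _ h5
      have hjd : j < (S.W e).length ∧ j ≠ i ∧ S.nb e j = S.nb e (i + 1) := by
        rw [hj]
        cases hb : Nat.beq (Nat.succ i) (S.W e).length with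
        | true =>
          have hb' := Nat.eq_of_beq_eq_true hb
          refine ⟨by show 0 < _; omega, by show 0 ≠ i; omega, ?_⟩
          show S.nb e 0 = S.nb e (i + 1)
          unfold Sys.nb
          rw [show i + 1 = (S.W e).length from hb', hy.ok.per e he]; rfl
        | false =>
          have hb' : i + 1 ≠ (S.W e).length := by
            intro hh
            have : Nat.beq (Nat.succ i) (S.W e).length = true := by
              rw [show Nat.succ i = (S.W e).length from hh]; exact Nat.beq_refl _
            rw [this] at hb; simp at hb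
          exact ⟨by show i + 1 < _; omega, by show i + 1 ≠ i; omega, rfl⟩
      obtain ⟨j1, j2, j3⟩ := hjd
      rw [pss_sum (S.c e) (fun i => Q.G (S.c (S.nx^[i] e)) (S.nb e i)),
        sum_filter_list, (hperm.map _).sum_eq, sum_range_list] at h1
      have g0 : ∀ a, Q.G a 0 = 2 * Q.den - Q.nu := by
        intro a
        unfold Par.G Par.gi
        rw [if_pos rfl]
        have := hy.nu
        omega
      rw [← hc, sum_two (fun i => Q.G (S.c (S.nx^[i] e)) (S.nb e i)) hi j1 (Ne.symm j2)]
      have e1 : Q.G (S.c (S.nx^[i] e)) (S.nb e i) = 2 * Q.den - Q.nu := by rw [n1, g0]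
      have e2 : Q.G (S.c (S.nx^[j] e)) (S.nb e j) = 2 * Q.den - Q.nu := by rw [j3, n2, g0]
      have e3 : Nat.mul 2 (Nat.sub (Nat.mul 2 Q.den) Q.nu) = 2 * (2 * Q.den - Q.nu) := rfl
      rw [e3] at h1
      have e4 : Nat.pred (Q.thr (S.c e)) = Q.thr (S.c e) - 1 := rfl
      rw [e4] at h1
      simp only [e1, e2]
      omega

end sound

end

end Pool.FCS
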