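import Pool.Agent.FCS.Wj

/-!
# Star check, second version: the lists of the candidates, fast check
-/

namespace Pool.FCS

noncomputable section

/-- The list of the candidates of the sender `a` (key) is complete, fast check: only the entries of
the table of the flows with a larger gain than the default are considered; `WM` the keys of a
flagged blind code. -/
def Pn.so2 (P : Pn) (WL WM : BT (List Nat)) (a : Nat) (L : List (Nat × Nat)) : Bool :=
  List.rec (motive := fun _ => Bool) true
    (fun q cl _ =>
      bif Nat.ble P.Q.sh q.1 then
        (fun la fa : Nat =>
          List.rec (motive := fun _ => Bool) true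
            (fun p _ ih => bif (bif Nat.ble p.1 q.1 then true else
              allb (fun b => bif (bif P.Q.cme (Nat.mod (hi b) 32) la then
                P.Q.cme fa (Nat.div (hi b) 32) else false) then P.okc a q.1 cl b else true)
                (WM.get p.2)) then ih else false)
            (P.Q.T.get a)) (Nat.div (hi a) 32) (Nat.mod (hi a) 32)
      else P.soc WL a L) L

/-- the keys of the letters `k` are in the lists of their codes -/
def wlm (WM : BT (List Nat)) (k : Nat) (l : List Nat) : Bool :=
  allb (fun b => bif Nat.beq (hi b) k then mem b (WM.get (mi b)) else false) l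

theorem allb_of {f : Nat → Bool} : ∀ {l : List Nat}, (∀ x ∈ l, f x = true) → allb f l = true
  | [], _ => rfl
  | y :: l, h => by
    have e : allb f (y :: l) = (bif f y then allb f l else false) := rfl
    rw [e, h y (List.mem_cons_self ..), allb_of fun x hx => h x (List.mem_cons_of_mem _ hx)]
    rfl

theorem so2_soc {P : Pn} {WL WM : BT (List Nat)} {a : Nat} {L : List (Nat × Nat)}
    (hW : ∀ k, ∀ b ∈ WL.get k, hi b = k ∧ b ∈ WM.get (mi b))
    (h : P.so2 WL WM a L = true) : P.soc WL a L = true := by
  cases L with
  | nil => rfl
  | cons q cl =>
    have e : P.so2 WL WM a (q :: cl) = (bif Nat.ble P.Q.sh q.1 then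
        List.rec (motive := fun _ => Bool) true
            (fun p _ ih => bif (bif Nat.ble p.1 q.1 then true else
              allb (fun b => bif (bif P.Q.cme (Nat.mod (hi b) 32) (Nat.div (hi a) 32) then
                P.Q.cme (Nat.mod (hi a) 32) (Nat.div (hi b) 32) else false) then
                  P.okc a q.1 cl b else true)
                (WM.get p.2)) then ih else false)
            (P.Q.T.get a)
      else P.soc WL a (q :: cl)) := rfl
    rw [e] at h
    cases hsh : Nat.ble P.Q.sh q.1 with
    | false => rw [hsh] at h; exact h
    | true =>
      rw [hsh] at h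
      have hsh' : P.Q.sh ≤ q.1 := Nat.le_of_ble_eq_true hsh
      -- the entries of the table
      have key : ∀ T : List (Nat × Nat), List.rec (motive := fun _ => Bool) true
            (fun p _ ih => bif (bif Nat.ble p.1 q.1 then true else
              allb (fun b => bif (bif P.Q.cme (Nat.mod (hi b) 32) (Nat.div (hi a) 32) then
                P.Q.cme (Nat.mod (hi a) 32) (Nat.div (hi b) 32) else false) then
                  P.okc a q.1 cl b else true)
                (WM.get p.2)) then ih else false) T = true →
          ∀ p ∈ T, p.1 ≤ q.1 ∨ ∀ b ∈ WM.get p.2, P.Q.cme (Nat.mod (hi b) 32)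
            (Nat.div (hi a) 32) = true → P.Q.cme (Nat.mod (hi a) 32) (Nat.div (hi b) 32) = true →
              P.okc a q.1 cl b = true := by
        intro T
        induction T with
        | nil => intro _ p hp; simp at hp
        | cons r T ih =>
          intro hT p hp
          dsimp only at hT
          rw [cond_true_iff] at hT
          rcases List.mem_cons.1 hp with rfl | hp
          · cases h1 : Nat.ble p.1 q.1 with
            | true => exact Or.inl (Nat.le_of_ble_eq_true h1)
            | false =>
              right
              intro b hb c1 c2
              have h2 := hT.1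
              rw [h1] at h2
              have h3 := allb_sound h2 b hb
              rw [c1, c2] at h3
              exact h3
          · exact ih hT.2 p hp
      have e2 : P.soc WL a (q :: cl) =
        (bif (bif Nat.ble (Nat.sub P.Q.sh (P.nk a)) q.1 then true else
          lst (Nat.sub P.Q.sh (P.nk a)) 1 cl) then
          (alln 32 fun f => bif P.Q.cme f (Nat.div (hi a) 32) then
              alln 32 fun l => bif P.Q.cme (Nat.mod (hi a) 32) l then
                allb (P.okc a q.1 cl) (WL.get (Nat.add f (Nat.mul 32 l))) else true
            else true)
        else false) := rfl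
      have e3 : Nat.ble (Nat.sub P.Q.sh (P.nk a)) q.1 = true :=
        Nat.ble_eq_true_of_le (le_trans (Nat.sub_le _ _) hsh')
      rw [e2, e3]
      dsimp only [cond_true]
      rw [alln_iff]
      intro f hf
      cases c1 : P.Q.cme f (Nat.div (hi a) 32) with
      | false => rfl
      | true =>
        dsimp only [cond_true]
        rw [alln_iff]
        intro l hl
        cases c2 : P.Q.cme (Nat.mod (hi a) 32) l with
        | false => rfl
        | true =>
          dsimp only [cond_true]
          apply allb_of
          intro b hb
          obtain ⟨w1, w2⟩ := hW _ b hb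
          have w1' : hi b = f + 32 * l := w1
          have w3 : Nat.mod (hi b) 32 = f := by
            show hi b % 32 = f
            omega
          have w4 : Nat.div (hi b) 32 = l := by
            show hi b / 32 = l
            omega
          have eg : P.Q.Gn a b = (2 * ((asc (P.Q.T.get a) (mi b) - P.Q.sh) / 2) + P.Q.sh) -
              2 * P.Q.fk a b := rfl
          have small : asc (P.Q.T.get a) (mi b) ≤ q.1 → P.okc a q.1 cl b = true := by
            intro hs
            have e4 : Nat.ble (P.Q.Gn a b) q.1 = true := Nat.ble_eq_true_of_le (by
              rw [eg]; omega)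
            have e5 : P.okc a q.1 cl b = (bif P.pcs (slf a) (lo a) (slf b) (lo b) then true else
              bif Nat.ble (P.Q.Gn a b) q.1 then true else lst (P.Q.Gn a b) (mi b) cl) := rfl
            rw [e5, e4]
            cases P.pcs (slf a) (lo a) (slf b) (lo b) <;> rfl
          by_cases h0 : asc (P.Q.T.get a) (mi b) = 0
          · exact small (by omega)
          · rcases key _ h _ (asc_mem h0) with h1 | h1
            · exact small h1
            · exact h1 b w2 (by rw [w3]; exact c1) (by rw [w4]; exact c2)

theorem wlm_sound {WL WM : BT (List Nat)} (h : WL.allB (wlm WM) = true) :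
    ∀ k, ∀ b ∈ WL.get k, hi b = k ∧ b ∈ WM.get (mi b) := by
  intro k b hb
  have h0 : WL.get k ≠ [] := by
    intro h1; rw [h1] at hb; simp at hb
  have h1 := BT.allB_sound h _ (BT.get_mem h0)
  have h2 := allb_sound (show allb _ _ = true from h1) b hb
  rw [cond_true_iff] at h2
  exact ⟨Nat.eq_of_beq_eq_true h2.1, mem_iff.1 h2.2⟩

theorem BT.allB_mono {α : Type} {f g : Nat → α → Bool} (hfg : ∀ k v, f k v = true → g k v = true) :
    ∀ {t : BT α}, t.allB f = true → t.allB g = true
  | lf, _ => rfl
  | nd l m v r, h => by
    have e : ∀ f : Nat → α → Bool, (nd l m v r).allB f =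
      (bif f m v then bif l.allB f then r.allB f else false else false) := fun _ => rfl
    rw [e, cond_true_iff, cond_true_iff] at h
    rw [e, cond_true_iff, cond_true_iff]
    exact ⟨hfg _ _ h.1, BT.allB_mono hfg h.2.1, BT.allB_mono hfg h.2.2⟩

/-- the fast check of all lists -/
theorem so2_all {P : Pn} {WL WM : BT (List Nat)} {t : BT (List (Nat × Nat))}
    (hW : WL.allB (wlm WM) = true) (h : t.allB (P.so2 WL WM) = true) :
    t.allB (P.soc WL) = true :=
  BT.allB_mono (fun _ _ h1 => so2_soc (wlm_sound hW) h1) h

end

end Pool.FCS
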