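import Pool.Agent.FCS.Bk

/-!
# Star check: conflicts of blind codes
-/

namespace Pool.FCS

/-- the flagged code `v` (`0`: not yet known) satisfies the condition `q` -/
def mtb (v q : Nat) : Bool :=
  bif Nat.beq q 2 then
    bif Nat.beq v 0 then false else bif Nat.ble 4294967296 v then false else true
  else Nat.beq v q

/-- all conditions of the pattern hold -/
def ptb (i b : Nat) (asg : List (Nat × Nat)) (P : List (Nat × Nat)) : Bool :=
  List.rec (motive := fun _ => Bool) true
    (fun q _ ih => bif mtb (bif Nat.beq q.1 i then b else look asg q.1) q.2 then ih else false) P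

/-- some pattern holds -/
def ptsb (i b : Nat) (asg : List (Nat × Nat)) (pats : List (List (Nat × Nat))) : Bool :=
  List.rec (motive := fun _ => Bool) false (fun P _ ih => bif ptb i b asg P then true else ih) pats

/-- the position before -/
def prv (d i : Nat) : Nat := bif Nat.beq i 0 then Nat.pred d else Nat.pred i

/-- The conflict of two neighbours `u`, `v` with the sector `x` between them. -/
def sidb (cmb pf : Nat → Nat → Bool) (gk : Nat → Nat → Nat → Nat → Bool) (sm k x u v : Nat) :
    Bool :=
  bif Nat.ble u 1 then false else bif Nat.ble v 1 then false else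
    bif Nat.beq x 0 then false else
      bif tb sm x then adj cmb pf (rrc (lo u)) (rlc (lo v)) else gk k x u v

/-- The conflicts of the candidate `b` at the position `i` of the centre with the code `c` and the
degree `d`. -/
def cfb (cmb pf : Nat → Nat → Bool) (gk : Nat → Nat → Nat → Nat → Bool) (sm k c d : Nat)
    (pats : List (List (Nat × Nat))) (i b : Nat) (asg : List (Nat × Nat)) : Bool :=
  bif Nat.beq b 0 then false else
  bif Nat.beq b 1 then bif nlc sm c d i asg then true else ptsb i b asg pats else
  bif sidb cmb pf gk sm k (dg (Nat.pow 32 i) c) b (look asg (nxt d i)) then true else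
  bif sidb cmb pf gk sm k (dg (Nat.pow 32 (prv d i)) c) (look asg (prv d i)) b then true else
  ptsb i b asg pats

/-- the slack of a code -/
def wsl (wm c : Nat) : Nat := Nat.mod (Nat.sub 6 (wtc wm c)) 4

variable {D : Type*}

theorem wsl_iter {cmp : Nat → Nat → Bool} {sol : Nat → Bool} {S : Sys D} (hS : S.Ok cmp sol)
    {wm : Nat} {e : D} (he : S.W e ≠ []) (i : Nat) : wsl wm (S.c (S.nx^[i] e)) = wsl wm (S.c e) := by
  have h4 := hS.len e he
  have h5 := hS.len _ (hS.ne_iter he i)
  have e1 : wtc wm (S.c (S.nx^[i] e)) = _ :=
    wtc_enc (g := fun x => tdg wm (x + 1)) (hS.sm _) h5.2 (fun x _ => rfl)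
  have e2 : wtc wm (S.c e) = _ :=
    wtc_enc (g := fun x => tdg wm (x + 1)) (hS.sm _) h4.2 (fun x _ => rfl)
  unfold wsl
  rw [e1, e2, hS.W_iter he i]
  have h : (((S.W e).rotate i).map fun x => tdg wm (x + 1)).sum =
      ((S.W e).map fun x => tdg wm (x + 1)).sum := ((List.rotate_perm _ i).map _).sum_eq
  rw [h]

/-- the flagged blind code of the neighbour, `1` for a null neighbour -/
def Sys.nf (bm wm sm : Nat) (S : Sys D) (e : D) (i : Nat) : Nat :=
  bif Nat.beq (S.nb e i) 0 then 1 else nfc bm wm sm (S.nb e i)

section sound

variable {cmp cmp' : Nat → Nat → Bool} {sol sol' : Nat → Bool} {S : Sys D} {bm wm sm : Nat}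
  {f : Nat → Nat}

theorem ptb_sound {nb : Nat → Nat} {asg : List (Nat × Nat)} (ha : Agr nb asg) {i b : Nat}
    (hb : nb i = b) : ∀ {P : List (Nat × Nat)}, (∀ q ∈ P, q.2 ≠ 0) → ptb i b asg P = true →
      ∀ q ∈ P, mtb (nb q.1) q.2 = true
  | [], _, _, q, hq => by simp at hq
  | r :: P, h0, h, q, hq => by
    have e : ptb i b asg (r :: P) = (bif mtb (bif Nat.beq r.1 i then b else look asg r.1) r.2
      then ptb i b asg P else false) := rfl
    rw [e] at h
    cases hr : mtb (bif Nat.beq r.1 i then b else look asg r.1) r.2 with
    | false => rw [hr] at h; simp at h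
    | true =>
      rw [hr] at h
      rcases List.mem_cons.1 hq with rfl | hq
      · cases hi : Nat.beq q.1 i with
        | true =>
          rw [hi] at hr
          have := Nat.eq_of_beq_eq_true hi
          rw [this, hb]; exact hr
        | false =>
          rw [hi] at hr
          have h2 : mtb (look asg q.1) q.2 = true := hr
          have h3 : look asg q.1 ≠ 0 := by
            intro h4
            rw [h4] at h2
            unfold mtb at h2
            cases h5 : Nat.beq q.2 2 with
            | true => rw [h5] at h2; simp at h2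
            | false =>
              rw [h5] at h2
              exact h0 q (List.mem_cons_self ..) (Nat.eq_of_beq_eq_true h2).symm
          rw [look_agr ha q.1 h3]
          exact h2
      · exact ptb_sound ha hb (fun q hq => h0 q (List.mem_cons_of_mem _ hq)) h q hq

theorem ptsb_sound {nb : Nat → Nat} {asg : List (Nat × Nat)} (ha : Agr nb asg)
    {i b : Nat} (hb : nb i = b) : ∀ {pats : List (List (Nat × Nat))},
      (∀ P ∈ pats, (∀ q ∈ P, q.2 ≠ 0) ∧ ¬ ∀ q ∈ P, mtb (nb q.1) q.2 = true) →
        ptsb i b asg pats = false
  | [], _ => rfl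
  | P :: pats, h => by
    have e : ptsb i b asg (P :: pats) = (bif ptb i b asg P then true else
      ptsb i b asg pats) := rfl
    rw [e]
    have h1 := h P (List.mem_cons_self ..)
    have h2 : ptb i b asg P = false := by
      rw [← Bool.not_eq_true]
      exact fun hc => h1.2 (ptb_sound ha hb h1.1 hc)
    rw [h2]
    exact ptsb_sound ha hb (fun Q hQ => h Q (List.mem_cons_of_mem _ hQ))

/-- the table of the blind letters describes the map `f` -/
structure Bmp (bm : Nat) (f : Nat → Nat) (S : Sys D) : Prop where
  t : ∀ e, ∀ x ∈ S.W e, tdg bm (x + 1) = f x + 1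
  s : ∀ e, ∀ x ∈ S.W e, f x < 31

theorem Bmp.sm' (hb : Bmp bm f S) (e : D) : Sm ((S.W e).map f) := by
  intro x hx
  obtain ⟨y, hy, rfl⟩ := List.mem_map.1 hx
  exact hb.s e y hy

theorem len6 (hS : S.Ok cmp sol) (e : D) : (S.W e).length ≤ 6 := by
  by_cases h : S.W e = []
  · rw [h]; norm_num
  · exact (hS.len e h).2

theorem Bmp.bl (hb : Bmp bm f S) (hS : S.Ok cmp sol) (e : D) :
    blc bm (S.c e) = (S.mp f).c e :=
  blc_enc (hS.sm e) (len6 hS e) (hb.t e)

theorem Bmp.lt (hb : Bmp bm f S) (hS : S.Ok cmp sol) (e : D) : blc bm (S.c e) < 1073741824 := by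
  rw [hb.bl hS e]
  have h1 := enc_lt (hb.sm' e)
  have h2 : ((S.W e).map f).length ≤ 6 := by rw [List.length_map]; exact len6 hS e
  have h3 : (32 : Nat) ^ ((S.W e).map f).length ≤ 32 ^ 6 := Nat.pow_le_pow_right (by norm_num) h2
  have h4 : (32 : Nat) ^ 6 = 1073741824 := by norm_num
  show enc ((S.W e).map f) < _
  omega

theorem Bmp.ge (hb : Bmp bm f S) (hS : S.Ok cmp sol) {e : D} (he : S.W e ≠ []) :
    32768 ≤ blc bm (S.c e) := by
  rw [hb.bl hS e]
  have h0 : (S.W e).map f ≠ [] := by rw [Ne, List.map_eq_nil_iff]; exact he
  have h1 := le_enc h0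
  have h2 := (hS.len e he).1
  rw [List.length_map] at h1
  have h3 : (32 : Nat) ^ 3 ≤ 32 ^ ((S.W e).length - 1) :=
    Nat.pow_le_pow_right (by norm_num) (by omega)
  have h4 : (32 : Nat) ^ 3 = 32768 := by norm_num
  show _ ≤ enc ((S.W e).map f)
  omega

theorem Bmp.nge (hb : Bmp bm f S) (hS : S.Ok cmp sol) {e : D} (he : S.W e ≠ []) :
    32768 ≤ nfc bm wm sm (S.c e) := by
  have h1 := hb.ge hS he
  have h2 : nfc bm wm sm (S.c e) = blc bm (S.c e) + (1073741824 * ((6 - wtc wm (S.c e)) % 4) +
    (bif so4 sm (S.c e) then 4294967296 else 0)) := rfl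
  rw [h2]
  omega

/-- the flagged code of a neighbour which is not null -/
theorem nf_ne {e : D} {i : Nat} (h : S.W (S.al (S.nx^[i] e)) ≠ []) :
    S.nf bm wm sm e i = nfc bm wm sm (S.c (S.al (S.nx^[i] e))) := by
  unfold Sys.nf
  have h1 : S.nb e i ≠ 0 := Sys.enc_ne h
  cases h2 : Nat.beq (S.nb e i) 0 with
  | true => exact absurd (Nat.eq_of_beq_eq_true h2) h1
  | false => rfl

theorem nf_nil {e : D} {i : Nat} (h : S.W (S.al (S.nx^[i] e)) = []) : S.nf bm wm sm e i = 1 := by
  unfold Sys.nf
  have h1 : S.nb e i = 0 := by unfold Sys.nb Sys.c; rw [h]; rfl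
  rw [h1]; rfl

theorem nf_one (hb : Bmp bm f S) (hS : S.Ok cmp sol) {e : D} {i : Nat}
    (h : S.nf bm wm sm e i = 1) : S.nb e i = 0 := by
  by_contra h1
  have h2 : S.W (S.al (S.nx^[i] e)) ≠ [] := Sys.ne_of_c h1
  rw [nf_ne h2] at h
  have := hb.nge (wm := wm) (sm := sm) hS h2
  omega

theorem nf_two {e : D} {i b : Nat} (h : S.nf bm wm sm e i = b) (h1 : b ≠ 1) :
    S.W (S.al (S.nx^[i] e)) ≠ [] := by
  intro h2
  rw [nf_nil h2] at h
  exact h1 h.symm

/-- The hypotheses of the conflicts. -/
structure Hcf (cmp cmp' : Nat → Nat → Bool) (sol sol' : Nat → Bool) (S : Sys D) (f : Nat → Nat)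
    (bm wm sm : Nat) (cmb pf : Nat → Nat → Bool) (gk : Nat → Nat → Nat → Nat → Bool) : Prop where
  ok : S.Ok cmp sol
  hb : Bmp bm f S
  ok' : (S.mp f).Ok cmp' sol'
  hcm : ∀ x y, cmp' x y = true → cmb (x + 1) (y + 1) = true
  hsm : ∀ e, ∀ x ∈ S.W e, tb sm (x + 1) = sol x
  so : ∀ e, ∀ x ∈ S.W e, sol x = true → sol' (f x) = true
  hpf : ∀ r, S.W r ≠ [] → S.W (S.al r) ≠ [] → pf (blc bm (S.c r)) (blc bm (S.c (S.al r))) = false
  hgk : ∀ r, S.W r ≠ [] → S.W (S.al r) ≠ [] → S.W (S.al (S.nx r)) ≠ [] →
    sol ((S.W r).getD 0 0) = false →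
    gk (wsl wm (S.c r)) ((S.W r).getD 0 0 + 1) (nfc bm wm sm (S.c (S.al r)))
      (nfc bm wm sm (S.c (S.al (S.nx r)))) = false

variable {cmb pf : Nat → Nat → Bool} {gk : Nat → Nat → Nat → Nat → Bool}

theorem sidb_ok (hy : Hcf cmp cmp' sol sol' S f bm wm sm cmb pf gk) {r : D} (hr : S.W r ≠ [])
    (h1 : S.W (S.al r) ≠ []) (h2 : S.W (S.al (S.nx r)) ≠ []) :
    sidb cmb pf gk sm (wsl wm (S.c r)) ((S.W r).getD 0 0 + 1) (nfc bm wm sm (S.c (S.al r)))
      (nfc bm wm sm (S.c (S.al (S.nx r)))) = false := by
  have hS := hy.ok
  have h4 := (hS.len r hr).1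
  have hm : (S.W r).getD 0 0 ∈ S.W r := by
    rw [List.getD_eq_getElem _ _ (by omega)]; exact List.getElem_mem _
  unfold sidb
  cases Nat.ble (nfc bm wm sm (S.c (S.al r))) 1 with
  | true => rfl
  | false =>
    cases Nat.ble (nfc bm wm sm (S.c (S.al (S.nx r)))) 1 with
    | true => rfl
    | false =>
      cases Nat.beq ((S.W r).getD 0 0 + 1) 0 with
      | true => rfl
      | false =>
        dsimp only [cond_false]
        cases h3 : tb sm ((S.W r).getD 0 0 + 1) with
        | false =>
          rw [hy.hsm r _ hm] at h3
          exact hy.hgk r hr h1 h2 h3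
        | true =>
          dsimp only [cond_true]
          have h5 : sol ((S.W r).getD 0 0) = true := by rw [← hy.hsm r _ hm]; exact h3
          rw [lo_nfc (hy.hb.lt hS _), lo_nfc (hy.hb.lt hS _), hy.hb.bl hS, hy.hb.bl hS]
          refine adj_sound hy.ok' hy.hcm (fun r hr hr' => ?_) (e := r) (mp_ne.2 hr) ?_ ?_ ?_
          · have := hy.hpf r (mp_ne.1 hr) (mp_ne.1 hr')
            rw [hy.hb.bl hS, hy.hb.bl hS] at this
            exact this
          · show sol' (((S.W r).map f).getD 0 0) = true
            rw [getD_map0 (by omega)]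
            exact hy.so r _ hm h5
          · exact Sys.enc_ne (S := S.mp f) (mp_ne.2 h1)
          · exact Sys.enc_ne (S := S.mp f) (mp_ne.2 h2)

theorem nlcb_sound {asg : List (Nat × Nat)} (hb : Bmp bm f S) (hS : S.Ok cmp sol) {e : D}
    (hsm' : ∀ x ∈ S.W e, tb sm (x + 1) = sol x)
    (hN : Nr sol S e) (ha : Agr (S.nf bm wm sm e) asg) {i : Nat}
    (h : nlc sm (S.c e) (S.W e).length i asg = true) : S.nf bm wm sm e i ≠ 1 := by
  intro h1
  -- the assignment with the exact codes
  have key : ∀ asg : List (Nat × Nat), Agr (S.nf bm wm sm e) asg →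
      nlc sm (S.c e) (S.W e).length i asg = true → ∃ asg', Agr (S.nc e) asg' ∧
        nlc sm (S.c e) (S.W e).length i asg' = true := by
    intro asg
    induction asg with
    | nil => intro _ h; exact ⟨[], fun q hq => by simp at hq, h⟩
    | cons q asg ih =>
      intro ha h
      have hq := ha q (List.mem_cons_self ..)
      have ha' : Agr (S.nf bm wm sm e) asg := fun r hr => ha r (List.mem_cons_of_mem _ hr)
      unfold nlc at h ⊢
      cases hi : Nat.ble (Nat.succ i) (S.W e).length with
      | false => rw [hi] at h; simp at h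
      | true =>
        rw [hi] at h
        dsimp only [cond_true] at h ⊢
        cases c1 : Nat.beq q.2 1 with
        | false =>
          rw [c1] at h
          obtain ⟨asg', h2, h3⟩ := ih ha' (by unfold nlc; rw [hi]; exact h)
          exact ⟨asg', h2, by unfold nlc at h3; rw [hi] at h3; exact h3⟩
        | true =>
          have c1' := Nat.eq_of_beq_eq_true c1
          have hq1 : S.nc e q.1 = 1 := by
            have h5 := nf_one (wm := wm) (sm := sm) hb hS (by rw [hq]; exact c1')
            unfold Sys.nc
            rw [h5]; rfl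
          rw [c1] at h
          dsimp only [cond_true] at h
          cases c2 : Nat.ble (Nat.succ q.1) (S.W e).length with
          | false =>
            rw [c2] at h
            obtain ⟨asg', h2, h3⟩ := ih ha' (by unfold nlc; rw [hi]; exact h)
            exact ⟨asg', h2, by unfold nlc at h3; rw [hi] at h3; exact h3⟩
          | true =>
            rw [c2] at h
            dsimp only [cond_true] at h
            cases c3 : Nat.beq q.1 i with
            | true =>
              rw [c3] at h
              obtain ⟨asg', h2, h3⟩ := ih ha' (by unfold nlc; rw [hi]; exact h)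
              exact ⟨asg', h2, by unfold nlc at h3; rw [hi] at h3; exact h3⟩
            | false =>
              rw [c3] at h
              dsimp only [cond_false] at h
              cases c4 : n2k sm (S.c e) (S.W e).length i q.1 with
              | true =>
                rw [c4] at h
                obtain ⟨asg', h2, h3⟩ := ih ha' (by unfold nlc; rw [hi]; exact h)
                exact ⟨asg', h2, by unfold nlc at h3; rw [hi] at h3; exact h3⟩
              | false =>
                refine ⟨[(q.1, 1)], fun r hr => ?_, ?_⟩
                · simp only [List.mem_singleton] at hr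
                  rw [hr]; exact hq1
                · dsimp only
                  rw [show Nat.beq 1 1 = true from rfl, c2, c3, c4]
                  rfl
  obtain ⟨asg', h2, h3⟩ := key asg ha h
  refine nlc_sound hS hsm' hN h2 h3 ?_
  unfold Sys.nc
  rw [nf_one hb hS h1]
  rfl

theorem cfb_sound (hy : Hcf cmp cmp' sol sol' S f bm wm sm cmb pf gk) {e : D}
    (hN : Nr sol S e) (he : S.W e ≠ []) {pats : List (List (Nat × Nat))}
    (hP : ∀ P ∈ pats, (∀ q ∈ P, q.2 ≠ 0) ∧ ¬ ∀ q ∈ P, mtb (S.nf bm wm sm e q.1) q.2 = true) :
    ∀ asg, Agr (S.nf bm wm sm e) asg → ∀ i b,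
      cfb cmb pf gk sm (wsl wm (S.c e)) (S.c e) (S.W e).length pats i b asg = true →
        S.nf bm wm sm e i ≠ b := by
  intro asg ha i b h hb
  have hS := hy.ok
  have h4 := hS.len e he
  -- the digit of the sector `i`
  have hdg : ∀ i, i < (S.W e).length →
      dg (Nat.pow 32 i) (S.c e) = (S.W (S.nx^[i] e)).getD 0 0 + 1 := by
    intro i hl
    have h1 : dg (32 ^ i) (enc (S.W e)) = _ := dg_enc (hS.sm e) hl
    have h2 : dg (Nat.pow 32 i) (S.c e) = (S.W e).getD i 0 + 1 := h1
    rw [h2, hS.W_iter he i, List.getD_eq_getElem _ _ hl,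
      List.getD_eq_getElem _ _ (by rw [List.length_rotate]; omega), List.getElem_rotate]
    simp [Nat.mod_eq_of_lt hl]
  have hdg0 : ∀ i, ¬ i < (S.W e).length → dg (Nat.pow 32 i) (S.c e) = 0 := by
    intro i hl
    show S.c e / 32 ^ i % 32 = 0
    have h2 : S.c e < 32 ^ (S.W e).length := enc_lt (hS.sm e)
    have h3 : 32 ^ (S.W e).length ≤ 32 ^ i := Nat.pow_le_pow_right (by norm_num) (by omega)
    rw [Nat.div_eq_of_lt (by omega)]
  -- the next position
  have hnx : ∀ i, i < (S.W e).length → S.nx^[nxt (S.W e).length i] e = S.nx (S.nx^[i] e) := by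
    intro i hi
    unfold nxt
    cases hb : Nat.beq (Nat.succ i) (S.W e).length with
    | true =>
      have h1 := Nat.eq_of_beq_eq_true hb
      rw [← Function.iterate_succ_apply' S.nx, h1, hS.per e he]
      rfl
    | false => rw [← Function.iterate_succ_apply' S.nx]; rfl
  -- two consecutive neighbours
  have side : ∀ i u v, S.nf bm wm sm e i = u → i < (S.W e).length →
      S.nf bm wm sm e (nxt (S.W e).length i) = v →
      sidb cmb pf gk sm (wsl wm (S.c e)) (dg (Nat.pow 32 i) (S.c e)) u v = false := by
    intro i u v hu hi hv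
    by_cases u1 : S.W (S.al (S.nx^[i] e)) = []
    · rw [nf_nil u1] at hu
      rw [← hu]; rfl
    · by_cases v1 : S.W (S.al (S.nx^[nxt (S.W e).length i] e)) = []
      · rw [nf_nil v1] at hv
        rw [← hv]
        unfold sidb
        cases Nat.ble u 1 <;> rfl
      · rw [nf_ne u1] at hu
        rw [nf_ne v1, hnx i hi] at hv
        rw [hdg i hi, ← hu, ← hv]
        rw [hnx i hi] at v1
        rw [← wsl_iter hS he i]
        exact sidb_ok hy (hS.ne_iter he i) u1 v1
  unfold cfb at h
  have hb0 : Nat.beq b 0 = false := by
    cases h0 : Nat.beq b 0 with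
    | true => rw [h0] at h; simp at h
    | false => rfl
  rw [hb0] at h
  dsimp only [cond_false] at h
  cases hb1 : Nat.beq b 1 with
  | true =>
    have hb1' := Nat.eq_of_beq_eq_true hb1
    rw [hb1] at h
    dsimp only [cond_true] at h
    cases hn : nlc sm (S.c e) (S.W e).length i asg with
    | true => exact nlcb_sound hy.hb hS (hy.hsm e) hN ha hn (by rw [hb, hb1'])
    | false =>
      rw [hn] at h
      dsimp only [cond_false] at h
      rw [ptsb_sound ha hb hP] at h
      exact absurd h (by simp)
  | false =>
    rw [hb1] at h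
    dsimp only [cond_false] at h
    cases c1 : sidb cmb pf gk sm (wsl wm (S.c e)) (dg (Nat.pow 32 i) (S.c e)) b
        (look asg (nxt (S.W e).length i)) with
    | true =>
      by_cases hl : i < (S.W e).length
      · cases h2 : Nat.ble (look asg (nxt (S.W e).length i)) 1 with
        | true =>
          unfold sidb at c1
          rw [h2] at c1
          cases hbb : Nat.ble b 1 <;> (rw [hbb] at c1; simp at c1)
        | false =>
          have h3 : look asg (nxt (S.W e).length i) ≠ 0 := by
            intro h4
            rw [h4] at h2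
            exact absurd h2 (by simp)
          rw [side i b _ hb hl (look_agr ha _ h3)] at c1
          exact absurd c1 (by simp)
      · rw [hdg0 i hl] at c1
        unfold sidb at c1
        cases h5 : Nat.ble b 1 <;> cases h6 : Nat.ble (look asg (nxt (S.W e).length i)) 1 <;>
          rw [h5, h6] at c1 <;> simp at c1
    | false =>
      rw [c1] at h
      dsimp only [cond_false] at h
      cases c2 : sidb cmb pf gk sm (wsl wm (S.c e)) (dg (Nat.pow 32 (prv (S.W e).length i)) (S.c e))
          (look asg (prv (S.W e).length i)) b with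
      | false =>
        rw [c2] at h
        dsimp only [cond_false] at h
        rw [ptsb_sound ha hb hP] at h
        exact absurd h (by simp)
      | true =>
        by_cases hl : prv (S.W e).length i < (S.W e).length
        · cases h2 : Nat.ble (look asg (prv (S.W e).length i)) 1 with
          | true =>
            unfold sidb at c2
            rw [h2] at c2
            simp at c2
          | false =>
            have h3 : look asg (prv (S.W e).length i) ≠ 0 := by
              intro h4
              rw [h4] at h2
              exact absurd h2 (by simp)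
            -- the successor of `k` is `i`
            have hki : S.nf bm wm sm e (nxt (S.W e).length (prv (S.W e).length i)) = b := by
              rw [← hb]
              cases hi0 : Nat.beq i 0 with
              | true =>
                have hi := Nat.eq_of_beq_eq_true hi0
                subst hi
                have hk' : prv (S.W e).length 0 = (S.W e).length - 1 := rfl
                rw [hk']
                have : Nat.succ ((S.W e).length - 1) = (S.W e).length := by omega
                unfold nxt
                rw [this]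
                have : Nat.beq (S.W e).length (S.W e).length = true := Nat.beq_refl _
                rw [this]; rfl
              | false =>
                have hi : i ≠ 0 := by rintro rfl; simp at hi0
                have hk' : prv (S.W e).length i = i - 1 := by unfold prv; rw [hi0]; rfl
                have hs' : Nat.succ (i - 1) = i := by omega
                rw [hk']
                unfold nxt
                rw [hs']
                by_cases hil : i = (S.W e).length
                · have : Nat.beq i (S.W e).length = true := by rw [hil]; exact Nat.beq_refl _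
                  rw [this]
                  unfold Sys.nf Sys.nb
                  rw [hil, hS.per e he]; rfl
                · have : Nat.beq i (S.W e).length = false := by
                    rw [← Bool.not_eq_true]; intro hc; exact hil (Nat.eq_of_beq_eq_true hc)
                  rw [this]; rfl
            rw [side _ _ b (look_agr ha _ h3) hl hki] at c2
            exact absurd c2 (by simp)
        · rw [hdg0 _ hl] at c2
          unfold sidb at c2
          cases h5 : Nat.ble (look asg (prv (S.W e).length i)) 1 <;> cases h6 : Nat.ble b 1 <;>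
            rw [h5, h6] at c2 <;> simp at c2

end sound

end Pool.FCS
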