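import Pool.Agent.FCS.Cp

/-!
# Star check: from the facts to the patterns and the forbidden pairs

A fact is a word of letters (of the centre) and a list of neighbours `(i, word)`; the empty word
means: null or not solid of length 4.  `le l x`: the letter `l` of a fact stands for the letter `x`.
-/

namespace Pool.FCS

/-- letterwise relation -/
def lew (le : Nat → Nat → Bool) : List Nat → List Nat → Bool
  | [], [] => true
  | x :: l, y :: m => le x y && lew le l m
  | _, _ => false

/-- a fact -/
abbrev Fct := List Nat × List (Nat × List Nat)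

variable {D : Type*} {cmp : Nat → Nat → Bool} {sol lng : Nat → Bool} {S : Sys D} {Q : Prm}
  {le : Nat → Nat → Bool}

/-- the word is unknown or not solid of length 4 -/
def Pls (sol : Nat → Bool) (w : List Nat) : Prop :=
  w = [] ∨ ¬ (w.length = 4 ∧ ∀ x ∈ w, sol x = true)

/-- the star at the dart `e` matches the fact `X` -/
def Mtn (le : Nat → Nat → Bool) (sol : Nat → Bool) (S : Sys D) (X : Fct) (e : D) : Prop :=
  lew le X.1 (S.W e) = true ∧ ∀ p ∈ X.2,
    (p.2 = [] → Pls sol (S.W (S.al (S.nx^[p.1] e)))) ∧
    (p.2 ≠ [] → lew le p.2 (S.W (S.al (S.nx^[p.1] e))) = true)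

/-- letterwise relation, for a code -/
def lewc (le : Nat → Nat → Bool) (l : List Nat) : Nat → Bool :=
  List.rec (motive := fun _ => Nat → Bool) (fun c => Nat.beq c 0)
    (fun x _ ih c => bif Nat.beq (Nat.mod c 32) 0 then false else
      bif le x (Nat.pred (Nat.mod c 32)) then ih (Nat.div c 32) else false) l

theorem lewc_sound : ∀ {l w : List Nat}, Sm w → lewc le l (enc w) = true → lew le l w = true
  | [], [], _, _ => rfl
  | [], y :: w, _, h => by
    have : Nat.beq (enc (y :: w)) 0 = true := h
    have := Nat.eq_of_beq_eq_true this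
    rw [enc_cons] at this
    omega
  | x :: l, [], _, h => by
    have : (bif Nat.beq (Nat.mod 0 32) 0 then false else
      bif le x (Nat.pred (Nat.mod 0 32)) then lewc le l (Nat.div 0 32) else false) = true := h
    exact absurd this (by simp)
  | x :: l, y :: w, hs, h => by
    have hy := hs y (List.mem_cons_self ..)
    have h' : (bif Nat.beq ((y + 1 + 32 * enc w) % 32) 0 then false else
      bif le x (Nat.pred ((y + 1 + 32 * enc w) % 32)) then lewc le l ((y + 1 + 32 * enc w) / 32)
        else false) = true := h
    have e1 : (y + 1 + 32 * enc w) % 32 = y + 1 := by omega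
    have e2 : (y + 1 + 32 * enc w) / 32 = enc w := by omega
    rw [e1, e2] at h'
    have e3 : Nat.beq (y + 1) 0 = false := rfl
    rw [e3] at h'
    dsimp only [cond_false] at h'
    rw [cond_true_iff] at h'
    have h2 : le x y = true := h'.1
    have h3 := lewc_sound (fun z hz => hs z (List.mem_cons_of_mem _ hz)) h'.2
    show (le x y && lew le l w) = true
    rw [h2, h3]; rfl

theorem dgw {w : List Nat} (hs : Sm w) {k : Nat} (hk : k < w.length) (p : Nat) (hp : p = 32 ^ k) :
    dg p (enc w) = w.getD k 0 + 1 := by
  rw [hp]; exact dg_enc hs hk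

/-- solid words of length 4 -/
theorem so4_iff {sm : Nat} {w : List Nat} (hs : Sm w) (h4 : 4 ≤ w.length) (h6 : w.length ≤ 6)
    (hsm : ∀ x ∈ w, tb sm (x + 1) = sol x) (h : w.length = 4 ∧ ∀ x ∈ w, sol x = true) :
    so4 sm (enc w) = true := by
  obtain ⟨hl, hw⟩ := h
  have h1 := enc_lt hs
  rw [hl] at h1
  norm_num at h1
  have a1 : Nat.ble 1048576 (enc w) = false := by
    rw [← Bool.not_eq_true, Nat.ble_eq]; omega
  have key : ∀ k < 4, ∀ p, p = 32 ^ k → tb sm (dg p (enc w)) = true := by
    intro k hk p hp
    rw [dgw hs (by omega) p hp, List.getD_eq_getElem _ _ (by omega)]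
    rw [hsm _ (List.getElem_mem _)]
    exact hw _ (List.getElem_mem _)
  unfold so4
  rw [a1, key 0 (by omega) 1 (by norm_num), key 1 (by omega) 32 (by norm_num),
    key 2 (by omega) 1024 (by norm_num), key 3 (by omega) 32768 (by norm_num)]
  rfl

/-- the condition `w` of a fact follows from the condition `v` of a pattern -/
def cdp (le : Nat → Nat → Bool) (sm : Nat) (w : List Nat) (v : Nat) : Bool :=
  List.rec (motive := fun _ => Bool)
    (bif Nat.beq v 2 then true else bif Nat.ble v 2 then false else !so4 sm v)
    (fun _ _ _ => bif Nat.ble v 2 then false else lewc le w v) w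

/-- the pattern `P` of a centre with code `c` follows from the fact `X` at the dart `r` -/
def ptf (le : Nat → Nat → Bool) (sm : Nat) (X : Fct) (c r : Nat) (P : List (Nat × Nat)) : Bool :=
  bif lewc le X.1 (rot c r) then
    List.rec (motive := fun _ => Bool) true
      (fun p _ ih => bif cdp le sm p.2 (look P (Nat.mod (Nat.add r p.1) (dgn c))) then ih
        else false) X.2
  else false

theorem look_mem : ∀ {P : List (Nat × Nat)} {i : Nat}, look P i ≠ 0 → (i, look P i) ∈ P
  | [], i, h => absurd rfl h
  | q :: P, i, h => by
    have e : look (q :: P) i = (bif Nat.beq q.1 i then q.2 else look P i) := rfl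
    rw [e] at h ⊢
    cases hb : Nat.beq q.1 i with
    | true =>
      have := Nat.eq_of_beq_eq_true hb
      rw [← this]
      exact List.mem_cons_self ..
    | false =>
      rw [hb] at h
      exact List.mem_cons_of_mem _ (look_mem (P := P) h)

/-- a condition of a pattern implies a condition of a fact -/
theorem cdp_sound (hS : S.Ok cmp sol) (hsm : ∀ e, ∀ x ∈ S.W e, tb Q.sm (x + 1) = sol x)
    {e : D} {j v : Nat} {w : List Nat} (hm : v ≠ 0 → mt Q.sm (S.nc e j) v = true)
    (h : cdp le Q.sm w v = true) :
    (w = [] → Pls sol (S.W (S.al (S.nx^[j] e)))) ∧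
    (w ≠ [] → lew le w (S.W (S.al (S.nx^[j] e))) = true) := by
  have hso : ∀ x, so4 Q.sm x = false → S.nb e j = x → Pls sol (S.W (S.al (S.nx^[j] e))) := by
    intro x hx hj
    by_cases h0 : S.W (S.al (S.nx^[j] e)) = []
    · exact Or.inl h0
    · right
      intro h1
      have h2 := hS.len _ h0
      have h3 := so4_iff (hS.sm _) h2.1 h2.2 (hsm _) h1
      have h4 : S.nb e j = enc (S.W (S.al (S.nx^[j] e))) := rfl
      rw [← h4, hj, hx] at h3
      exact absurd h3 (by simp)
  cases w with
  | nil =>
    refine ⟨fun _ => ?_, fun h0 => absurd rfl h0⟩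
    have h' : (bif Nat.beq v 2 then true else bif Nat.ble v 2 then false else !so4 Q.sm v) = true := h
    cases h1 : Nat.beq v 2 with
    | true =>
      have h2 := Nat.eq_of_beq_eq_true h1
      subst h2
      have h3 := hm (by norm_num)
      unfold mt at h3
      rw [h1] at h3
      dsimp only [cond_true] at h3
      cases h4 : Nat.beq (S.nc e j) 0 with
      | true => rw [h4] at h3; simp at h3
      | false =>
        rw [h4] at h3
        dsimp only [cond_false] at h3
        cases h5 : Nat.beq (S.nc e j) 1 with
        | true =>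
          left
          have h6 := nc_one hS (Nat.eq_of_beq_eq_true h5)
          by_contra h7
          exact Sys.enc_ne h7 h6
        | false =>
          rw [h5] at h3
          dsimp only [cond_false] at h3
          have h8 : 2 ≤ S.nc e j := by
            rcases hh : S.nc e j with _ | _ | n
            · rw [hh] at h4; exact absurd h4 (by simp)
            · rw [hh] at h5; exact absurd h5 (by simp)
            · omega
          exact hso _ (by simpa using h3) (nb_of_nc rfl h8)
    | false =>
      rw [h1] at h'
      dsimp only [cond_false] at h'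
      cases h2 : Nat.ble v 2 with
      | true => rw [h2] at h'; simp at h'
      | false =>
        rw [h2] at h'
        dsimp only [cond_false] at h'
        have h3 : ¬ v ≤ 2 := by
          intro hh; rw [Nat.ble_eq_true_of_le hh] at h2; exact absurd h2 (by decide)
        have h4 := hm (by omega)
        unfold mt at h4
        rw [h1] at h4
        exact hso v (by simpa using h') (nb_of_nc (Nat.eq_of_beq_eq_true h4) (by omega))
  | cons x l =>
    refine ⟨fun h0 => absurd h0 (by simp), fun _ => ?_⟩
    have h' : (bif Nat.ble v 2 then false else lewc le (x :: l) v) = true := h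
    cases h2 : Nat.ble v 2 with
    | true => rw [h2] at h'; simp at h'
    | false =>
      rw [h2] at h'
      have h3 : ¬ v ≤ 2 := by
        intro hh; rw [Nat.ble_eq_true_of_le hh] at h2; exact absurd h2 (by decide)
      have h4 := hm (by omega)
      unfold mt at h4
      have h1 : Nat.beq v 2 = false := by
        rw [← Bool.not_eq_true]; intro hc
        have := Nat.eq_of_beq_eq_true hc
        omega
      rw [h1] at h4
      have h5 := nb_of_nc (Nat.eq_of_beq_eq_true h4) (by omega)
      apply lewc_sound (hS.sm _)
      have h6 : enc (S.W (S.al (S.nx^[j] e))) = v := h5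
      rw [h6]
      exact h'

theorem ptf_sound (hS : S.Ok cmp sol) (hsm : ∀ e, ∀ x ∈ S.W e, tb Q.sm (x + 1) = sol x)
    {X : Fct} {c r : Nat} {P : List (Nat × Nat)} (h : ptf le Q.sm X c r P = true)
    {e : D} (he : S.W e ≠ []) (hc : S.c e = c)
    (hP : ∀ q ∈ P, mt Q.sm (S.nc e q.1) q.2 = true) : Mtn le sol S X (S.nx^[r] e) := by
  unfold ptf at h
  rw [cond_true_iff] at h
  obtain ⟨h1, h2⟩ := h
  have h4 := hS.len e he
  have hd : dgn c = (S.W e).length := by rw [← hc]; exact dgn_enc (hS.sm e) h4.1 h4.2
  rw [← hc, rot_c hS he r] at h1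
  refine ⟨lewc_sound (hS.sm _) h1, ?_⟩
  have key : ∀ L : List (Nat × List Nat), List.rec (motive := fun _ => Bool) true
      (fun p _ ih => bif cdp le Q.sm p.2 (look P (Nat.mod (Nat.add r p.1) (dgn c))) then ih
        else false) L = true → ∀ p ∈ L,
      (p.2 = [] → Pls sol (S.W (S.al (S.nx^[p.1] (S.nx^[r] e))))) ∧
      (p.2 ≠ [] → lew le p.2 (S.W (S.al (S.nx^[p.1] (S.nx^[r] e)))) = true) := by
    intro L
    induction L with
    | nil => intro _ p hp; simp at hp
    | cons q L ih =>
      intro hL p hp
      dsimp only at hL
      rw [cond_true_iff] at hL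
      rcases List.mem_cons.1 hp with rfl | hp
      · have e1 : S.nx^[p.1] (S.nx^[r] e) = S.nx^[(r + p.1) % (S.W e).length] e := by
          rw [← Function.iterate_add_apply, Nat.add_comm p.1 r]
          have hpp : Function.IsPeriodicPt S.nx (S.W e).length e := hS.per e he
          exact (hpp.iterate_mod_apply _).symm
        rw [e1]
        rw [hd] at hL
        exact cdp_sound (Q := Q) hS hsm (fun hv => hP _ (look_mem hv)) hL.1
      · exact ih hL.2 p hp
  exact key X.2 h2

/-- the pair `(x, y)` is forbidden by the fact `X`, centre at `x`, at the dart `s` -/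
def prf (le : Nat → Nat → Bool) (X : Fct) (x y s : Nat) : Bool :=
  bif lewc le X.1 (rot x s) then
    List.rec (motive := fun _ => Bool) true
      (fun p _ ih => bif Nat.beq (Nat.mod (Nat.add s p.1) (dgn x)) 0 then
        List.rec (motive := fun _ => Bool) false
          (fun _ _ _ => bif lewc le p.2 y then ih else false) p.2
        else false) X.2
  else false

theorem prf_sound (hS : S.Ok cmp sol) {X : Fct} {x y s : Nat} (h : prf le X x y s = true)
    {r : D} (hr : S.W r ≠ []) (hx : S.c r = x) (hy : S.c (S.al r) = y) :
    Mtn le sol S X (S.nx^[s] r) := by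
  unfold prf at h
  rw [cond_true_iff] at h
  obtain ⟨h1, h2⟩ := h
  have h4 := hS.len r hr
  have hd : dgn x = (S.W r).length := by rw [← hx]; exact dgn_enc (hS.sm r) h4.1 h4.2
  rw [← hx, rot_c hS hr s] at h1
  refine ⟨lewc_sound (hS.sm _) h1, ?_⟩
  have key : ∀ L : List (Nat × List Nat), List.rec (motive := fun _ => Bool) true
      (fun p _ ih => bif Nat.beq (Nat.mod (Nat.add s p.1) (dgn x)) 0 then
        List.rec (motive := fun _ => Bool) false
          (fun _ _ _ => bif lewc le p.2 y then ih else false) p.2
        else false) L = true → ∀ p ∈ L,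
      (p.2 = [] → Pls sol (S.W (S.al (S.nx^[p.1] (S.nx^[s] r))))) ∧
      (p.2 ≠ [] → lew le p.2 (S.W (S.al (S.nx^[p.1] (S.nx^[s] r)))) = true) := by
    intro L
    induction L with
    | nil => intro _ p hp; simp at hp
    | cons q L ih =>
      intro hL p hp
      obtain ⟨q1, q2⟩ := q
      cases q2 with
      | nil =>
        dsimp only at hL
        rw [cond_true_iff] at hL
        exact absurd hL.2 (by simp)
      | cons a l =>
        dsimp only at hL
        rw [cond_true_iff, cond_true_iff] at hL
        obtain ⟨g1, g2, g3⟩ := hL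
        rcases List.mem_cons.1 hp with rfl | hp
        · refine ⟨fun h0 => absurd h0 (by simp), fun _ => ?_⟩
          have e1 : S.nx^[q1] (S.nx^[s] r) = r := by
            rw [← Function.iterate_add_apply, Nat.add_comm q1 s]
            have hpp : Function.IsPeriodicPt S.nx (S.W r).length r := hS.per r hr
            rw [← hpp.iterate_mod_apply]
            have g1' := Nat.eq_of_beq_eq_true g1
            rw [hd] at g1'
            have g1'' : (s + q1) % (S.W r).length = 0 := g1'
            rw [g1'']; rfl
          show lew le (a :: l) (S.W (S.al (S.nx^[q1] (S.nx^[s] r)))) = true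
          rw [e1]
          apply lewc_sound (hS.sm _)
          have h6 : enc (S.W (S.al r)) = y := hy
          rw [h6]
          exact g2
        · exact ih g3 p hp
  exact key X.2 h2

end Pool.FCS
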