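import Pool.Agent.FCS.Bp
import Pool.Agent.FCS.Der

/-!
# Star check: from the facts to the patterns and the forbidden pairs, blind neighbours

`le g x`: the letter `g` of a fact stands for the letter `x` of the system; `leb g y`: it stands
for every letter with the blind letter `y`.
-/

namespace Pool.FCS

variable {D : Type*} {cmp : Nat → Nat → Bool} {sol : Nat → Bool} {S : Sys D}
  {le leb : Nat → Nat → Bool} {f : Nat → Nat} {bm wm sm : Nat}

/-- the two relations -/
def Leb (le leb : Nat → Nat → Bool) (f : Nat → Nat) (S : Sys D) : Prop :=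
  ∀ e, ∀ x ∈ S.W e, ∀ g, leb g (f x) = true → le g x = true

theorem lew_map : ∀ {l w : List Nat}, (∀ x ∈ w, ∀ g, leb g (f x) = true → le g x = true) →
    lew leb l (w.map f) = true → lew le l w = true
  | [], [], _, _ => rfl
  | [], y :: w, _, h => by simp [lew] at h
  | x :: l, [], _, h => by simp [lew] at h
  | x :: l, y :: w, hf, h => by
    have h' : (leb x (f y) && lew leb l (w.map f)) = true := h
    rw [Bool.and_eq_true] at h'
    show (le x y && lew le l w) = true
    rw [hf y (List.mem_cons_self ..) x h'.1,
      lew_map (fun z hz => hf z (List.mem_cons_of_mem _ hz)) h'.2]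
    rfl

/-- the condition `w` of a fact follows from the condition `v` of a pattern -/
def cdb (leb : Nat → Nat → Bool) (w : List Nat) (v : Nat) : Bool :=
  List.rec (motive := fun _ => Bool)
    (bif Nat.beq v 2 then true else bif Nat.ble v 2 then false else
      bif Nat.ble 4294967296 v then false else true)
    (fun _ _ _ => bif Nat.ble v 2 then false else lewc leb w (lo v)) w

/-- the pattern `P` of a centre with code `c` follows from the fact `X` at the dart `r` -/
def ptfb (le leb : Nat → Nat → Bool) (X : Fct) (c r : Nat) (P : List (Nat × Nat)) : Bool :=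
  bif lewc le X.1 (rot c r) then
    List.rec (motive := fun _ => Bool) true
      (fun p _ ih => bif cdb leb p.2 (look P (Nat.mod (Nat.add r p.1) (dgn c))) then ih
        else false) X.2
  else false

/-- a neighbour with a flagged code which is not a solid word of length 4 -/
theorem pls_nf (hS : S.Ok cmp sol) (hb : Bmp bm f S)
    (hsm : ∀ e, ∀ x ∈ S.W e, tb sm (x + 1) = sol x) {e : D} {j : Nat}
    (h : Nat.ble 4294967296 (S.nf bm wm sm e j) = false) :
    Pls sol (S.W (S.al (S.nx^[j] e))) := by
  by_cases h0 : S.W (S.al (S.nx^[j] e)) = []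
  · exact Or.inl h0
  · right
    intro h1
    have h2 := hS.len _ h0
    have h3 := so4_iff (hS.sm _) h2.1 h2.2 (hsm _) h1
    rw [nf_ne h0, so4_nfc (hb.lt hS _)] at h
    have h4 : so4 sm (S.c (S.al (S.nx^[j] e))) = true := h3
    rw [h4] at h
    exact absurd h (by simp)

/-- a condition of a pattern implies a condition of a fact -/
theorem cdb_sound (hS : S.Ok cmp sol) (hb : Bmp bm f S) (hl : Leb le leb f S)
    (hsm : ∀ e, ∀ x ∈ S.W e, tb sm (x + 1) = sol x)
    {e : D} {j v : Nat} {w : List Nat} (hm : v ≠ 0 → mtb (S.nf bm wm sm e j) v = true)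
    (h : cdb leb w v = true) :
    (w = [] → Pls sol (S.W (S.al (S.nx^[j] e)))) ∧
    (w ≠ [] → lew le w (S.W (S.al (S.nx^[j] e))) = true) := by
  cases w with
  | nil =>
    refine ⟨fun _ => ?_, fun h0 => absurd rfl h0⟩
    have h' : (bif Nat.beq v 2 then true else bif Nat.ble v 2 then false else
      bif Nat.ble 4294967296 v then false else true) = true := h
    cases h1 : Nat.beq v 2 with
    | true =>
      have h2 := Nat.eq_of_beq_eq_true h1
      subst h2
      have h3 := hm (by norm_num)
      unfold mtb at h3
      rw [h1] at h3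
      dsimp only [cond_true] at h3
      apply pls_nf (wm := wm) hS hb hsm
      cases h4 : Nat.beq (S.nf bm wm sm e j) 0 with
      | true => rw [h4] at h3; simp at h3
      | false =>
        rw [h4] at h3
        dsimp only [cond_false] at h3
        cases h5 : Nat.ble 4294967296 (S.nf bm wm sm e j) with
        | true => rw [h5] at h3; simp at h3
        | false => rfl
    | false =>
      rw [h1] at h'
      dsimp only [cond_false] at h'
      cases h2 : Nat.ble v 2 with
      | true => rw [h2] at h'; simp at h'
      | false =>
        rw [h2] at h'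
        dsimp only [cond_false] at h'
        have h3 : ¬ v ≤ 2 := by
          intro hh; rw [Nat.ble_eq_true_of_le hh] at h2; exact absurd h2 (by decide)
        have h4 := hm (by omega)
        unfold mtb at h4
        rw [h1] at h4
        have h5 : S.nf bm wm sm e j = v := Nat.eq_of_beq_eq_true h4
        apply pls_nf (wm := wm) hS hb hsm
        rw [h5]
        cases h6 : Nat.ble 4294967296 v with
        | true => rw [h6] at h'; simp at h'
        | false => rfl
  | cons x l =>
    refine ⟨fun h0 => absurd h0 (by simp), fun _ => ?_⟩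
    have h' : (bif Nat.ble v 2 then false else lewc leb (x :: l) (lo v)) = true := h
    cases h2 : Nat.ble v 2 with
    | true => rw [h2] at h'; simp at h'
    | false =>
      rw [h2] at h'
      have h3 : ¬ v ≤ 2 := by
        intro hh; rw [Nat.ble_eq_true_of_le hh] at h2; exact absurd h2 (by decide)
      have h4 := hm (by omega)
      unfold mtb at h4
      have h1 : Nat.beq v 2 = false := by
        rw [← Bool.not_eq_true]; intro hc
        have := Nat.eq_of_beq_eq_true hc
        omega
      rw [h1] at h4
      have h5 : S.nf bm wm sm e j = v := Nat.eq_of_beq_eq_true h4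
      have h6 : S.W (S.al (S.nx^[j] e)) ≠ [] := nf_two h5 (by omega)
      rw [nf_ne h6] at h5
      apply lew_map (f := f) (leb := leb) (hl _)
      apply lewc_sound (hb.sm' _)
      have h7 : enc ((S.W (S.al (S.nx^[j] e))).map f) = lo v := by
        rw [← h5, lo_nfc (hb.lt hS _), hb.bl hS]
        rfl
      rw [h7]
      exact h'

theorem ptfb_sound (hS : S.Ok cmp sol) (hb : Bmp bm f S) (hl : Leb le leb f S)
    (hsm : ∀ e, ∀ x ∈ S.W e, tb sm (x + 1) = sol x)
    {X : Fct} {c r : Nat} {P : List (Nat × Nat)} (h : ptfb le leb X c r P = true)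
    {e : D} (he : S.W e ≠ []) (hc : S.c e = c)
    (hP : ∀ q ∈ P, mtb (S.nf bm wm sm e q.1) q.2 = true) : Mtn le sol S X (S.nx^[r] e) := by
  unfold ptfb at h
  rw [cond_true_iff] at h
  obtain ⟨h1, h2⟩ := h
  have h4 := hS.len e he
  have hd : dgn c = (S.W e).length := by rw [← hc]; exact dgn_enc (hS.sm e) h4.1 h4.2
  rw [← hc, rot_c hS he r] at h1
  refine ⟨lewc_sound (hS.sm _) h1, ?_⟩
  have key : ∀ L : List (Nat × List Nat), List.rec (motive := fun _ => Bool) true
      (fun p _ ih => bif cdb leb p.2 (look P (Nat.mod (Nat.add r p.1) (dgn c))) then ih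
        else false) L = true → ∀ p ∈ L,
      (p.2 = [] → Pls sol (S.W (S.al (S.nx^[p.1] (S.nx^[r] e))))) ∧
      (p.2 ≠ [] → lew le p.2 (S.W (S.al (S.nx^[p.1] (S.nx^[r] e)))) = true) := by
    intro L
    induction L with
    | nil => intro _ p hp; simp at hp
    | cons q L ih =>
      intro hL p hp
      dsimp only at hL
      rw [cond_true_iff] at hL
      rcases List.mem_cons.1 hp with rfl | hp
      · have e1 : S.nx^[p.1] (S.nx^[r] e) = S.nx^[(r + p.1) % (S.W e).length] e := by
          rw [← Function.iterate_add_apply, Nat.add_comm p.1 r]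
          have hpp : Function.IsPeriodicPt S.nx (S.W e).length e := hS.per e he
          exact (hpp.iterate_mod_apply _).symm
        rw [e1]
        rw [hd] at hL
        exact cdb_sound (wm := wm) hS hb hl hsm (fun hv => hP _ (look_mem hv)) hL.1
      · exact ih hL.2 p hp
  exact key X.2 h2

/-- the pair `(x, y)` of blind codes is forbidden by the fact `X`, centre at `x`, at the dart `s` -/
def prfb (leb : Nat → Nat → Bool) (X : Fct) (x y s : Nat) : Bool :=
  bif lewc leb X.1 (rot x s) then
    List.rec (motive := fun _ => Bool) true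
      (fun p _ ih => bif Nat.beq (Nat.mod (Nat.add s p.1) (dgn x)) 0 then
        List.rec (motive := fun _ => Bool) false
          (fun _ _ _ => bif lewc leb p.2 y then ih else false) p.2
        else false) X.2
  else false

theorem prfb_sound (hS : S.Ok cmp sol) (hb : Bmp bm f S) {cmp' : Nat → Nat → Bool}
    {sol' : Nat → Bool} (hS' : (S.mp f).Ok cmp' sol') (hl : Leb le leb f S)
    {X : Fct} {x y s : Nat} (h : prfb leb X x y s = true)
    {r : D} (hr : S.W r ≠ []) (hx : blc bm (S.c r) = x) (hy : blc bm (S.c (S.al r)) = y) :
    Mtn le sol S X (S.nx^[s] r) := by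
  rw [hb.bl hS] at hx hy
  have hr' : (S.mp f).W r ≠ [] := mp_ne.2 hr
  unfold prfb at h
  rw [cond_true_iff] at h
  obtain ⟨h1, h2⟩ := h
  have h4 := hS'.len r hr'
  have hd : dgn x = (S.W r).length := by
    have h5 : dgn x = ((S.mp f).W r).length := by rw [← hx]; exact dgn_enc (hS'.sm r) h4.1 h4.2
    rw [h5]
    show ((S.W r).map f).length = _
    rw [List.length_map]
  rw [← hx, rot_c hS' hr' s] at h1
  refine ⟨lew_map (f := f) (leb := leb) (hl _) (lewc_sound (hb.sm' _) h1), ?_⟩
  have key : ∀ L : List (Nat × List Nat), List.rec (motive := fun _ => Bool) true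
      (fun p _ ih => bif Nat.beq (Nat.mod (Nat.add s p.1) (dgn x)) 0 then
        List.rec (motive := fun _ => Bool) false
          (fun _ _ _ => bif lewc leb p.2 y then ih else false) p.2
        else false) L = true → ∀ p ∈ L,
      (p.2 = [] → Pls sol (S.W (S.al (S.nx^[p.1] (S.nx^[s] r))))) ∧
      (p.2 ≠ [] → lew le p.2 (S.W (S.al (S.nx^[p.1] (S.nx^[s] r)))) = true) := by
    intro L
    induction L with
    | nil => intro _ p hp; simp at hp
    | cons q L ih =>
      intro hL p hp
      obtain ⟨q1, q2⟩ := q
      cases q2 with
      | nil =>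
        dsimp only at hL
        rw [cond_true_iff] at hL
        exact absurd hL.2 (by simp)
      | cons a l =>
        dsimp only at hL
        rw [cond_true_iff, cond_true_iff] at hL
        obtain ⟨g1, g2, g3⟩ := hL
        rcases List.mem_cons.1 hp with rfl | hp
        · refine ⟨fun h0 => absurd h0 (by simp), fun _ => ?_⟩
          have e1 : S.nx^[q1] (S.nx^[s] r) = r := by
            rw [← Function.iterate_add_apply, Nat.add_comm q1 s]
            have hpp : Function.IsPeriodicPt S.nx (S.W r).length r := hS.per r hr
            rw [← hpp.iterate_mod_apply]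
            have g1' := Nat.eq_of_beq_eq_true g1
            rw [hd] at g1'
            have g1'' : (s + q1) % (S.W r).length = 0 := g1'
            rw [g1'']; rfl
          show lew le (a :: l) (S.W (S.al (S.nx^[q1] (S.nx^[s] r)))) = true
          rw [e1]
          apply lew_map (f := f) (leb := leb) (hl _)
          apply lewc_sound (hb.sm' _)
          have h6 : enc ((S.W (S.al r)).map f) = y := hy
          rw [h6]
          exact g2
        · exact ih g3 p hp
  exact key X.2 h2

end Pool.FCS
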