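import Pool.Agent.FCS.Cp

/-!
# Star check: blind codes and keys

The words of the neighbours are only known up to a map of the letters (blind words); the key of a
dart contains the blind word, its slack, a flag (solid of length 4) and the exact first and last
letters.
-/

namespace Pool.FCS

/-- digit of a table -/
def tdg (m d : Nat) : Nat := Nat.mod (Nat.shiftRight m (Nat.mul 5 d)) 32

/-- blind code -/
def blc (bm c : Nat) : Nat :=
  Nat.rec (motive := fun _ => Nat → Nat) (fun _ => 0)
    (fun _ ih c => bif Nat.beq c 0 then 0 else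
      Nat.add (tdg bm (Nat.mod c 32)) (Nat.mul 32 (ih (Nat.div c 32)))) 6 c

/-- weight of a code -/
def wtc (wm c : Nat) : Nat :=
  Nat.rec (motive := fun _ => Nat → Nat) (fun _ => 0)
    (fun _ ih c => bif Nat.beq c 0 then 0 else
      Nat.add (tdg wm (Nat.mod c 32)) (ih (Nat.div c 32))) 6 c

theorem blc_aux (bm : Nat) (f : Nat → Nat) : ∀ (n : Nat) (w : List Nat), Sm w → w.length ≤ n →
    (∀ x ∈ w, tdg bm (x + 1) = f x + 1) →
    Nat.rec (motive := fun _ => Nat → Nat) (fun _ => 0)
      (fun _ ih c => bif Nat.beq c 0 then 0 else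
      Nat.add (tdg bm (Nat.mod c 32)) (Nat.mul 32 (ih (Nat.div c 32)))) n (enc w) = enc (w.map f)
  | 0, w, _, hl, _ => by
    have : w = [] := List.eq_nil_of_length_eq_zero (by omega)
    subst this; rfl
  | n + 1, [], _, _, _ => rfl
  | n + 1, x :: w, hs, hl, h => by
    have ih := blc_aux bm f n w (fun y hy => hs y (List.mem_cons_of_mem _ hy))
      (by simpa using hl) (fun y hy => h y (List.mem_cons_of_mem _ hy))
    have hx := hs x (List.mem_cons_self ..)
    have e1 : Nat.mod (enc (x :: w)) 32 = x + 1 := by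
      show (x + 1 + 32 * enc w) % 32 = x + 1
      omega
    have e2 : Nat.div (enc (x :: w)) 32 = enc w := by
      show (x + 1 + 32 * enc w) / 32 = enc w
      omega
    have e3 : Nat.beq (enc (x :: w)) 0 = false := by
      rw [← Bool.not_eq_true]
      intro h
      have := Nat.eq_of_beq_eq_true h
      rw [enc_cons] at this
      omega
    dsimp only
    rw [e3, e1, e2]
    dsimp only [cond_false]
    rw [ih, h x (List.mem_cons_self ..), List.map_cons, enc_cons]
    rfl

theorem blc_enc {bm : Nat} {f : Nat → Nat} {w : List Nat} (hs : Sm w) (hl : w.length ≤ 6)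
    (h : ∀ x ∈ w, tdg bm (x + 1) = f x + 1) : blc bm (enc w) = enc (w.map f) :=
  blc_aux bm f 6 w hs hl h

theorem wtc_aux (wm : Nat) (g : Nat → Nat) : ∀ (n : Nat) (w : List Nat), Sm w → w.length ≤ n →
    (∀ x ∈ w, tdg wm (x + 1) = g x) →
    Nat.rec (motive := fun _ => Nat → Nat) (fun _ => 0)
      (fun _ ih c => bif Nat.beq c 0 then 0 else
      Nat.add (tdg wm (Nat.mod c 32)) (ih (Nat.div c 32))) n (enc w) = (w.map g).sum
  | 0, w, _, hl, _ => by
    have : w = [] := List.eq_nil_of_length_eq_zero (by omega)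
    subst this; rfl
  | n + 1, [], _, _, _ => rfl
  | n + 1, x :: w, hs, hl, h => by
    have ih := wtc_aux wm g n w (fun y hy => hs y (List.mem_cons_of_mem _ hy))
      (by simpa using hl) (fun y hy => h y (List.mem_cons_of_mem _ hy))
    have hx := hs x (List.mem_cons_self ..)
    have e1 : Nat.mod (enc (x :: w)) 32 = x + 1 := by
      show (x + 1 + 32 * enc w) % 32 = x + 1
      omega
    have e2 : Nat.div (enc (x :: w)) 32 = enc w := by
      show (x + 1 + 32 * enc w) / 32 = enc w
      omega
    have e3 : Nat.beq (enc (x :: w)) 0 = false := by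
      rw [← Bool.not_eq_true]
      intro h
      have := Nat.eq_of_beq_eq_true h
      rw [enc_cons] at this
      omega
    dsimp only
    rw [e3, e1, e2]
    dsimp only [cond_false]
    rw [ih, h x (List.mem_cons_self ..), List.map_cons, List.sum_cons]
    rfl

theorem wtc_enc {wm : Nat} {g : Nat → Nat} {w : List Nat} (hs : Sm w) (hl : w.length ≤ 6)
    (h : ∀ x ∈ w, tdg wm (x + 1) = g x) : wtc wm (enc w) = (w.map g).sum :=
  wtc_aux wm g 6 w hs hl h

/-- flagged blind code -/
def nfc (bm wm sm c : Nat) : Nat :=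
  Nat.add (blc bm c) (Nat.add (Nat.mul 1073741824 (Nat.mod (Nat.sub 6 (wtc wm c)) 4))
    (bif so4 sm c then 4294967296 else 0))

/-- key -/
def kfc (bm wm sm c : Nat) : Nat :=
  Nat.add (nfc bm wm sm c)
    (Nat.mul 8589934592 (Nat.add (Nat.mod c 32) (Nat.mul 32 (Nat.div c (pw c)))))

/-- the blind code -/
def lo (n : Nat) : Nat := Nat.mod n 1073741824

/-- the flagged blind code of a key -/
def mi (n : Nat) : Nat := Nat.mod n 8589934592

/-- the letters of a key -/
def hi (n : Nat) : Nat := Nat.div n 8589934592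

section codes

variable {bm wm sm c : Nat}

theorem nfc_lt (h : blc bm c < 1073741824) : nfc bm wm sm c < 8589934592 := by
  have h1 : (6 - wtc wm c) % 4 < 4 := Nat.mod_lt _ (by norm_num)
  show blc bm c + (1073741824 * ((6 - wtc wm c) % 4) + (bif so4 sm c then 4294967296 else 0)) < _
  cases so4 sm c
  · dsimp only [cond_false]; omega
  · dsimp only [cond_true]; omega

theorem lo_nfc (h : blc bm c < 1073741824) : lo (nfc bm wm sm c) = blc bm c := by
  show (blc bm c + (1073741824 * ((6 - wtc wm c) % 4) +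
    (bif so4 sm c then 4294967296 else 0))) % 1073741824 = _
  cases so4 sm c
  · dsimp only [cond_false]; omega
  · dsimp only [cond_true]; omega

theorem mi_kfc (h : blc bm c < 1073741824) : mi (kfc bm wm sm c) = nfc bm wm sm c := by
  have h1 := nfc_lt (wm := wm) (sm := sm) h
  show (nfc bm wm sm c + 8589934592 * (c % 32 + 32 * (c / pw c))) % 8589934592 = _
  omega

theorem hi_kfc (h : blc bm c < 1073741824) :
    hi (kfc bm wm sm c) = c % 32 + 32 * (c / pw c) := by
  have h1 := nfc_lt (wm := wm) (sm := sm) h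
  show (nfc bm wm sm c + 8589934592 * (c % 32 + 32 * (c / pw c))) / 8589934592 = _
  omega

theorem lo_kfc (h : blc bm c < 1073741824) : lo (kfc bm wm sm c) = blc bm c := by
  have h1 : lo (mi (kfc bm wm sm c)) = lo (kfc bm wm sm c) := by
    show kfc bm wm sm c % 8589934592 % 1073741824 = kfc bm wm sm c % 1073741824
    omega
  rw [← h1, mi_kfc h, lo_nfc h]

theorem so4_nfc (h : blc bm c < 1073741824) :
    Nat.ble 4294967296 (nfc bm wm sm c) = so4 sm c := by
  have h1 : (6 - wtc wm c) % 4 < 4 := Nat.mod_lt _ (by norm_num)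
  have e : nfc bm wm sm c = blc bm c + (1073741824 * ((6 - wtc wm c) % 4) +
    (bif so4 sm c then 4294967296 else 0)) := rfl
  cases h2 : so4 sm c with
  | true =>
    rw [e, h2]
    apply Nat.ble_eq_true_of_le
    dsimp only [cond_true]
    omega
  | false =>
    rw [← Bool.not_eq_true, Nat.ble_eq, e, h2]
    dsimp only [cond_false]
    omega

end codes

variable {D : Type*}

/-- the system with mapped letters -/
def Sys.mp (f : Nat → Nat) (S : Sys D) : Sys D := ⟨S.nx, S.al, fun e => (S.W e).map f⟩

theorem mp_ne {f : Nat → Nat} {S : Sys D} {e : D} : (S.mp f).W e ≠ [] ↔ S.W e ≠ [] := by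
  show (S.W e).map f ≠ [] ↔ _
  rw [Ne, List.map_eq_nil_iff]

theorem getD_map0 {f : Nat → Nat} {l : List Nat} {k : Nat} (hk : k < l.length) :
    (l.map f).getD k 0 = f (l.getD k 0) := by
  rw [List.getD_eq_getElem _ _ (by rw [List.length_map]; exact hk), List.getElem_map,
    List.getD_eq_getElem _ _ hk]

theorem Sys.Ok.mp {cmp cmp' : Nat → Nat → Bool} {sol sol' : Nat → Bool} {S : Sys D}
    (hS : S.Ok cmp sol) {f : Nat → Nat} (hf : ∀ e, ∀ x ∈ S.W e, f x < 31)
    (hc : ∀ x y, cmp x y = true → cmp' (f x) (f y) = true)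
    (hs : ∀ e, ∀ x ∈ S.W e, sol' (f x) = true → sol x = true) : (S.mp f).Ok cmp' sol' := by
  refine ⟨fun e x hx => ?_, fun e he => ?_, fun e he => ?_, fun e he => ?_, fun e he => ?_,
    hS.alal, fun e he ha => ?_, fun e he h => ?_⟩
  · obtain ⟨y, hy, rfl⟩ := List.mem_map.1 hx
    exact hf e y hy
  · have := hS.len e (mp_ne.1 he)
    show 4 ≤ ((S.W e).map f).length ∧ ((S.W e).map f).length ≤ 6
    rw [List.length_map]
    exact this
  · exact mp_ne.2 (hS.nn e (mp_ne.1 he))
  · show (S.W (S.nx e)).map f = ((S.W e).map f).rotate 1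
    rw [hS.rot e (mp_ne.1 he), List.map_rotate]
  · have := hS.per e (mp_ne.1 he)
    show S.nx^[((S.W e).map f).length] e = e
    rw [List.length_map]
    exact this
  · have he' := mp_ne.1 he
    have ha' : S.W (S.al e) ≠ [] := mp_ne.1 ha
    have h1 := (hS.len e he').1
    have h2 := (hS.len _ ha').1
    show cmp' (((S.W e).map f).getD 0 0)
      (((S.W (S.al e)).map f).getD (((S.W (S.al e)).map f).length - 1) 0) = true
    rw [List.length_map, getD_map0 (by omega), getD_map0 (by omega)]
    exact hc _ _ (hS.cmp e he' ha')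
  · have he' := mp_ne.1 he
    have h1 := (hS.len e he').1
    have h' : sol' (((S.W e).map f).getD 0 0) = true := h
    rw [getD_map0 (by omega)] at h'
    refine hS.tri e he' (hs e _ ?_ h')
    rw [List.getD_eq_getElem _ _ (by omega)]
    exact List.getElem_mem _

end Pool.FCS
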