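import Pool.Agent.FCS.Bc

/-!
# Star check: one centre, blind neighbours
-/

namespace Pool.FCS

open Finset

noncomputable section

/-- The parameters of the check: `den` unit, `sh` shift of the gains, `nu` price of a null
neighbour, `nl` price of a long gap, `sm` solid letters, `lm` long gaps, `bm` blind letters, `wm`
weights. -/
structure Pm where
  den : Nat
  sh : Nat
  nu : Nat
  nl : Nat
  sm : Nat
  lm : Nat
  bm : Nat
  wm : Nat
  cme : Nat → Nat → Bool
  cmb : Nat → Nat → Bool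
  gk : Nat → Nat → Nat → Nat → Bool
  /-- key of the receiver: list of (sh + 2 flow, flagged code of the sender) -/
  T : BT (List (Nat × Nat))
  /-- key of a sender: (default, 0) :: candidates -/
  SG : BT (List (Nat × Nat))
  /-- forbidden pairs of blind codes -/
  PF : BT (List Nat)

/-- forbidden pair -/
def Pm.pf (Q : Pm) (x y : Nat) : Bool := mem y (Q.PF.get x)

/-- the key of a code -/
def Pm.ky (Q : Pm) (c : Nat) : Nat := kfc Q.bm Q.wm Q.sm c

/-- the flow from `a` to `b` (keys; in units `1 / den`) -/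
def Pm.fk (Q : Pm) (a b : Nat) : Nat := Nat.div (Nat.sub (asc (Q.T.get b) (mi a)) Q.sh) 2

/-- the flow from the word `a` to the word `b` -/
def Pm.fw (Q : Pm) (a b : List Nat) : Nat := Q.fk (Q.ky (enc a)) (Q.ky (enc b))

/-- shifted gain of a neighbour which is not null (keys) -/
def Pm.Gn (Q : Pm) (a b : Nat) : Nat :=
  Nat.sub (Nat.add (Nat.mul 2 (Q.fk b a)) Q.sh) (Nat.mul 2 (Q.fk a b))

/-- shifted gain (codes) -/
def Pm.G (Q : Pm) (a b : Nat) : Nat :=
  bif Nat.beq b 0 then Nat.sub Q.sh Q.nu else Q.Gn (Q.ky a) (Q.ky b)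

/-- a position -/
def Pm.pos (Q : Pm) (a i : Nat) : Pos :=
  List.rec (motive := fun _ => Pos) ⟨i, Q.T.get a, Q.sh⟩ (fun q cl _ => ⟨i, cl, q.1⟩)
    (Q.SG.get a)

theorem Pm.pos_i (Q : Pm) (a i : Nat) : (Q.pos a i).i = i := by
  unfold Pm.pos
  cases Q.SG.get a <;> rfl

/-- flagged code of a neighbour: `1` for null -/
def Pm.nz (Q : Pm) (b : Nat) : Nat := bif Nat.beq b 0 then 1 else nfc Q.bm Q.wm Q.sm b

/-- the position is correct for the neighbour `b` -/
def Pm.PosOk (Q : Pm) (a b : Nat) : Prop :=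
  Q.G a b ≤ (Q.pos (Q.ky a) 0).df ∨
    ∃ g, (g, Q.nz b) ∈ (Q.pos (Q.ky a) 0).cl ∧ Q.G a b ≤ g

theorem Pm.pos_df (Q : Pm) (a i : Nat) : (Q.pos a i).df = (Q.pos a 0).df := by
  unfold Pm.pos
  cases Q.SG.get a <;> rfl

theorem Pm.pos_cl (Q : Pm) (a i : Nat) : (Q.pos a i).cl = (Q.pos a 0).cl := by
  unfold Pm.pos
  cases Q.SG.get a <;> rfl

/-- the price of a digit -/
def Pm.gw (Q : Pm) (x : Nat) : Nat :=
  bif tb Q.sm x then 0 else bif tb Q.lm x then Q.nl else Q.den

/-- the price of the first `d` letters -/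
def Pm.gws (Q : Pm) (c d : Nat) : Nat :=
  Nat.rec (motive := fun _ => Nat) 0 (fun i ih => Nat.add ih (Q.gw (dg (Nat.pow 32 i) c))) d

/-- threshold -/
def Pm.thr (Q : Pm) (c : Nat) : Nat :=
  Nat.sub (Nat.add (Nat.mul (dgn c) (Nat.add Q.sh (Nat.mul 2 Q.den))) (Q.gws c (dgn c)))
    (Nat.mul 12 Q.den)

/-- positions in the given order -/
def Pm.pss (Q : Pm) (c : Nat) (ord : List Nat) : List Pos :=
  List.rec (motive := fun _ => List Pos) [] (fun i _ ih => Q.pos (Q.ky (rot c i)) i :: ih) ord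

/-- The check of a centre. -/
def Pm.chk (Q : Pm) (C : Cen) : Bool :=
  bif okOrd (dgn C.c) C.ord then
    bif pos0 C.pats then
      (fun ps : List Pos =>
        bif srts ps then
          go (cfb Q.cmb Q.pf Q.gk Q.sm (wsl Q.wm C.c) C.c (dgn C.c) C.pats) (Q.thr C.c) ps [] 0
        else false) (Q.pss C.c C.ord)
    else false
  else false

/-- price of the gaps of a word -/
def gsv (sol lng : Nat → Bool) (den nl : Nat) (l : List Nat) : Nat :=
  (l.map fun x => bif sol x then 0 else bif lng x then nl else den).sum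

/-- contribution of an edge, `a` here, `b` at the other end -/
def gav (nu : Nat) (F : List Nat → List Nat → Nat) (a b : List Nat) : Int :=
  if b = [] then -(nu : Int) else 2 * ((F b a : Int) - (F a b : Int))

/-- the charge of a star for the flows `F` -/
def chv {D : Type*} (sol lng : Nat → Bool) (den nl nu : Nat) (F : List Nat → List Nat → Nat)
    (S : Sys D) (e : D) : Int :=
  12 * den - 2 * (S.W e).length * den - gsv sol lng den nl (S.W e) +
    ∑ i ∈ range (S.W e).length, gav nu F (S.W (S.nx^[i] e)) (S.W (S.al (S.nx^[i] e)))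

theorem gwsv_eq {Q : Pm} {sol lng : Nat → Bool} {l : List Nat} (h : Sm l)
    (hsm : ∀ x ∈ l, tb Q.sm (x + 1) = sol x) (hlm : ∀ x ∈ l, tb Q.lm (x + 1) = lng x) :
    Q.gws (enc l) l.length = gsv sol lng Q.den Q.nl l := by
  have key : ∀ n ≤ l.length, Q.gws (enc l) n = gsv sol lng Q.den Q.nl (l.take n) := by
    intro n
    induction n with
    | zero => intro _; simp [Pm.gws, gsv]
    | succ n ih =>
      intro hn
      have e : Q.gws (enc l) (n + 1) = Q.gws (enc l) n + Q.gw (dg (Nat.pow 32 n) (enc l)) := rfl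
      have h1 : dg (Nat.pow 32 n) (enc l) = _ := dg_enc h (show n < l.length by omega)
      have hm : l[n]'(by omega) ∈ l := List.getElem_mem _
      rw [e, h1, List.getD_eq_getElem _ _ (by omega), ih (by omega)]
      unfold gsv
      rw [List.take_add_one, List.getElem?_eq_getElem (by omega), List.map_append,
        List.sum_append]
      simp only [Option.toList_some, List.map_cons, List.map_nil, List.sum_cons, List.sum_nil,
        Nat.add_zero]
      unfold Pm.gw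
      rw [hsm _ hm, hlm _ hm]
  rw [key _ le_rfl, List.take_length]

section sound

variable {D : Type*} {cmp cmp' : Nat → Nat → Bool} {sol sol' lng : Nat → Bool} {S : Sys D}
  {Q : Pm} {f : Nat → Nat}

/-- The hypotheses on the tables. -/
structure Hyb (cmp cmp' : Nat → Nat → Bool) (sol sol' lng : Nat → Bool) (S : Sys D)
    (f : Nat → Nat) (Q : Pm) : Prop where
  cf : Hcf cmp cmp' sol sol' S f Q.bm Q.wm Q.sm Q.cmb Q.pf Q.gk
  lm : ∀ e, ∀ x ∈ S.W e, tb Q.lm (x + 1) = lng x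
  nu : Q.nu ≤ Q.sh
  sh : 12 * Q.den ≤ 4 * (Q.sh + 2 * Q.den)
  pos : ∀ e, S.W e ≠ [] → Q.PosOk (S.c e) (S.c (S.al e))

/-- contribution of a dart -/
def Pm.ga (Q : Pm) (S : Sys D) (x : D) : Int := gav Q.nu Q.fw (S.W x) (S.W (S.al x))

theorem gab_le (hnu : Q.nu ≤ Q.sh) (x : D) :
    Q.ga S x + Q.sh ≤ Q.G (S.c x) (S.c (S.al x)) := by
  unfold Pm.ga gav
  by_cases h : S.W (S.al x) = []
  · rw [if_pos h]
    have h1 : S.c (S.al x) = 0 := by unfold Sys.c; rw [h]; rfl
    have h2 : Q.G (S.c x) (S.c (S.al x)) = Q.sh - Q.nu := by rw [h1]; rfl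
    rw [h2]
    omega
  · rw [if_neg h]
    have h1 : Nat.beq (S.c (S.al x)) 0 = false := by
      rw [← Bool.not_eq_true]
      intro h0
      exact Sys.enc_ne h (Nat.eq_of_beq_eq_true h0)
    have h2 : Q.G (S.c x) (S.c (S.al x)) = 2 * Q.fk (Q.ky (S.c (S.al x))) (Q.ky (S.c x)) +
        Q.sh - 2 * Q.fk (Q.ky (S.c x)) (Q.ky (S.c (S.al x))) := by
      unfold Pm.G; rw [h1]; rfl
    rw [h2]
    show 2 * ((Q.fk (Q.ky (S.c (S.al x))) (Q.ky (S.c x)) : Int) -
      (Q.fk (Q.ky (S.c x)) (Q.ky (S.c (S.al x))) : Int)) + Q.sh ≤ _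
    omega

theorem nz_nf {e : D} {i : Nat} : Q.nz (S.nb e i) = S.nf Q.bm Q.wm Q.sm e i := rfl

theorem pssb_ok (hy : Hyb cmp cmp' sol sol' lng S f Q) {e : D} (he : S.W e ≠ []) :
    ∀ (ord : List Nat), (srts (Q.pss (S.c e) ord) = true) →
      ∀ p ∈ Q.pss (S.c e) ord,
        POk (S.nf Q.bm Q.wm Q.sm e) (fun i => Q.G (S.c (S.nx^[i] e)) (S.nb e i)) p
  | [], _, p, hp => by simp [Pm.pss] at hp
  | i :: ord, hs, p, hp => by
    have e1 : Q.pss (S.c e) (i :: ord) = Q.pos (Q.ky (rot (S.c e) i)) i :: Q.pss (S.c e) ord := rfl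
    rw [e1] at hs hp
    have e2 : srts (Q.pos (Q.ky (rot (S.c e) i)) i :: Q.pss (S.c e) ord) =
      (bif srt (Q.pos (Q.ky (rot (S.c e) i)) i).cl then srts (Q.pss (S.c e) ord) else false) := rfl
    rw [e2, cond_true_iff] at hs
    rcases List.mem_cons.1 hp with rfl | hp
    · refine ⟨srt_Srt hs.1, ?_⟩
      rw [Pm.pos_i]
      have h1 := hy.pos _ (hy.cf.ok.ne_iter he i)
      unfold Pm.PosOk at h1
      have h2 : S.c (S.nx^[i] e) = rot (S.c e) i := (rot_c hy.cf.ok he i).symm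
      rw [Pm.pos_df, Pm.pos_cl]
      show Q.G (S.c (S.nx^[i] e)) (S.nb e i) ≤ _ ∨ ∃ g, (g, Q.nz (S.nb e i)) ∈ _ ∧
        Q.G (S.c (S.nx^[i] e)) (S.nb e i) ≤ g
      rw [h2] at h1 ⊢
      exact h1
    · exact pssb_ok hy he ord hs.2 p hp

theorem pssb_sum (c : Nat) (G : Nat → Nat) : ∀ ord : List Nat,
    ((Q.pss c ord).map fun p => G p.i).sum = (ord.map G).sum
  | [] => rfl
  | i :: ord => by
    have e1 : Q.pss c (i :: ord) = Q.pos (Q.ky (rot c i)) i :: Q.pss c ord := rfl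
    rw [e1, List.map_cons, List.map_cons, List.sum_cons, List.sum_cons, pssb_sum c G ord,
      Pm.pos_i]

theorem chkb_sound (hy : Hyb cmp cmp' sol sol' lng S f Q) {C : Cen} (hC : Q.chk C = true) {e : D}
    (he : S.W e ≠ []) (hc : S.c e = C.c) (hN : Nr sol S e)
    (hP : ∀ P ∈ C.pats, ¬ ∀ q ∈ P, mtb (S.nf Q.bm Q.wm Q.sm e q.1) q.2 = true) :
    ∑ i ∈ range (S.W e).length, Q.G (S.c (S.nx^[i] e)) (S.nb e i) ≤ Q.thr C.c := by
  have h4 := hy.cf.ok.len e he
  have hd : dgn C.c = (S.W e).length := by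
    rw [← hc]; exact dgn_enc (hy.cf.ok.sm e) h4.1 h4.2
  unfold Pm.chk at hC
  rw [cond_true_iff, cond_true_iff] at hC
  obtain ⟨c1, c2, c3⟩ := hC
  dsimp only at c3
  rw [cond_true_iff] at c3
  obtain ⟨c3, c4⟩ := c3
  rw [hd] at c1 c4
  have hperm := okOrd_perm c1
  have hP0 : ∀ P ∈ C.pats, (∀ q ∈ P, q.2 ≠ 0) ∧
      ¬ ∀ q ∈ P, mtb (S.nf Q.bm Q.wm Q.sm e q.1) q.2 = true := by
    intro P hPm
    refine ⟨fun q hq h0 => ?_, hP P hPm⟩
    unfold pos0 at c2
    have := List.all_eq_true.1 (List.all_eq_true.1 c2 P hPm) q hq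
    rw [h0] at this
    simp at this
  have hcf := cfb_sound hy.cf hN he hP0
  rw [← hc] at c3 c4
  have h1 := go_sound (nb := S.nf Q.bm Q.wm Q.sm e)
    (G := fun i => Q.G (S.c (S.nx^[i] e)) (S.nb e i)) _ hcf _
    (pssb_ok hy he C.ord c3) [] (fun q hq => by simp at hq) 0 c4
  rw [Nat.zero_add, pssb_sum (S.c e) (fun i => Q.G (S.c (S.nx^[i] e)) (S.nb e i)),
    (hperm.map _).sum_eq, sum_range_list] at h1
  rw [← hc]
  exact h1

theorem gsv_rotate (den nl : Nat) (l : List Nat) (k : Nat) :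
    gsv sol lng den nl (l.rotate k) = gsv sol lng den nl l :=
  ((List.rotate_perm l k).map _).sum_eq

theorem chv_nx (hS : S.Ok cmp sol) {den nl nu : Nat} {F : List Nat → List Nat → Nat} {e : D}
    (he : S.W e ≠ []) : chv sol lng den nl nu F S (S.nx e) = chv sol lng den nl nu F S e := by
  have h1 : gsv sol lng den nl (S.W (S.nx e)) = gsv sol lng den nl (S.W e) := by
    rw [hS.rot e he, gsv_rotate]
  have h0 : (S.W (S.nx e)).length = (S.W e).length := by rw [hS.rot e he, List.length_rotate]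
  set ga : D → Int := fun x => gav nu F (S.W x) (S.W (S.al x)) with hga
  have h2 : ∑ i ∈ range (S.W e).length, ga (S.nx^[i] (S.nx e)) =
      ∑ i ∈ range (S.W e).length, ga (S.nx^[i] e) := by
    have e1 := sum_range_succ (fun i => ga (S.nx^[i] e)) (S.W e).length
    have e2 := sum_range_succ' (fun i => ga (S.nx^[i] e)) (S.W e).length
    rw [hS.per e he] at e1
    have e3 : ∀ i, S.nx^[i] (S.nx e) = S.nx^[i + 1] e := fun i => rfl
    simp only [e3]
    have e4 : S.nx^[0] e = e := rfl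
    rw [e4] at e2
    omega
  unfold chv
  rw [h1, h0]
  have h3 : ∑ i ∈ range (S.W e).length,
      gav nu F (S.W (S.nx^[i] (S.nx e))) (S.W (S.al (S.nx^[i] (S.nx e)))) =
      ∑ i ∈ range (S.W e).length, gav nu F (S.W (S.nx^[i] e)) (S.W (S.al (S.nx^[i] e))) := h2
  rw [h3]

theorem chv_iter (hS : S.Ok cmp sol) {den nl nu : Nat} {F : List Nat → List Nat → Nat} {e : D}
    (he : S.W e ≠ []) (k : Nat) :
    chv sol lng den nl nu F S (S.nx^[k] e) = chv sol lng den nl nu F S e := by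
  induction k with
  | zero => rfl
  | succ k ih => rw [Function.iterate_succ_apply', chv_nx hS (hS.ne_iter he k), ih]

theorem thrb_eq (hy : Hyb cmp cmp' sol sol' lng S f Q) {e : D} (he : S.W e ≠ []) :
    (Q.thr (S.c e) : Int) =
      (S.W e).length * (Q.sh + 2 * Q.den) + gsv sol lng Q.den Q.nl (S.W e) - 12 * Q.den := by
  have h4 := hy.cf.ok.len e he
  have hd : dgn (S.c e) = (S.W e).length := dgn_enc (hy.cf.ok.sm e) h4.1 h4.2
  have hg : Q.gws (S.c e) (S.W e).length = gsv sol lng Q.den Q.nl (S.W e) :=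
    gwsv_eq (hy.cf.ok.sm e) (hy.cf.hsm e) (hy.lm e)
  show ((dgn (S.c e) * (Q.sh + 2 * Q.den) + Q.gws (S.c e) (dgn (S.c e)) - 12 * Q.den : Nat) :
    Int) = _
  rw [hd, hg]
  have : 12 * Q.den ≤ (S.W e).length * (Q.sh + 2 * Q.den) + gsv sol lng Q.den Q.nl (S.W e) := by
    have h1 : 4 * (Q.sh + 2 * Q.den) ≤ (S.W e).length * (Q.sh + 2 * Q.den) :=
      Nat.mul_le_mul_right _ h4.1
    have h2 := hy.sh
    omega
  push_cast [Nat.cast_sub this]
  ring

/-- from the sums of the gains to the charge -/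
theorem chv_le (hy : Hyb cmp cmp' sol sol' lng S f Q) {e : D} (he : S.W e ≠ [])
    (h1 : ∑ i ∈ range (S.W e).length, Q.G (S.c (S.nx^[i] e)) (S.nb e i) ≤ Q.thr (S.c e)) :
    chv sol lng Q.den Q.nl Q.nu Q.fw S e ≤ 0 := by
  have key : ∑ i ∈ range (S.W e).length, Q.ga S (S.nx^[i] e) + (S.W e).length * Q.sh ≤
      ((∑ i ∈ range (S.W e).length, Q.G (S.c (S.nx^[i] e)) (S.nb e i) : Nat) : Int) := by
    rw [Nat.cast_sum]
    have h3 : ∑ i ∈ range (S.W e).length, (Q.ga S (S.nx^[i] e) + (Q.sh : Int)) ≤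
      ∑ i ∈ range (S.W e).length, ((Q.G (S.c (S.nx^[i] e)) (S.nb e i) : Nat) : Int) :=
      sum_le_sum fun i _ => gab_le hy.nu (S.nx^[i] e)
    rw [sum_add_distrib, sum_const, card_range, nsmul_eq_mul] at h3
    exact h3
  have h3 : ((∑ i ∈ range (S.W e).length, Q.G (S.c (S.nx^[i] e)) (S.nb e i) : Nat) : Int) ≤
      Q.thr (S.c e) := by exact_mod_cast h1
  rw [thrb_eq hy he] at h3
  have e3 : ((S.W e).length : Int) * (Q.sh + 2 * Q.den) =
    (S.W e).length * Q.sh + 2 * (S.W e).length * Q.den := by ring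
  rw [e3] at h3
  have e4 : chv sol lng Q.den Q.nl Q.nu Q.fw S e = 12 * Q.den - 2 * (S.W e).length * Q.den -
    gsv sol lng Q.den Q.nl (S.W e) + ∑ i ∈ range (S.W e).length, Q.ga S (S.nx^[i] e) := rfl
  rw [e4]
  linarith

/-- checked centres -/
theorem chv_chk (hy : Hyb cmp cmp' sol sol' lng S f Q) {C : Cen} (hC : Q.chk C = true) {e : D}
    (he : S.W e ≠ []) (hc : S.c e = C.c) (hN : Nr sol S e)
    (hP : ∀ P ∈ C.pats, ¬ ∀ q ∈ P, mtb (S.nf Q.bm Q.wm Q.sm e q.1) q.2 = true) :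
    chv sol lng Q.den Q.nl Q.nu Q.fw S e ≤ 0 := by
  have h1 := chkb_sound hy hC he hc hN hP
  rw [← hc] at h1
  exact chv_le hy he h1

/-- no flows and charge at most 0 -/
def Pm.trv (Q : Pm) (c : Nat) : Bool :=
  bif Nat.ble (Nat.mul 12 Q.den) (Nat.add (Nat.mul (Nat.mul 2 (dgn c)) Q.den) (Q.gws c (dgn c))) then
    alln (dgn c) fun i => bif (Q.T.get (Q.ky (rot c i))).isEmpty then
      (Q.SG.get (Q.ky (rot c i))).isEmpty else false
  else false

theorem chv_trv (hy : Hyb cmp cmp' sol sol' lng S f Q) {e : D} (he : S.W e ≠ [])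
    (h : Q.trv (S.c e) = true) : chv sol lng Q.den Q.nl Q.nu Q.fw S e ≤ 0 := by
  have h4 := hy.cf.ok.len e he
  have hd : dgn (S.c e) = (S.W e).length := dgn_enc (hy.cf.ok.sm e) h4.1 h4.2
  have hg : Q.gws (S.c e) (S.W e).length = gsv sol lng Q.den Q.nl (S.W e) :=
    gwsv_eq (hy.cf.ok.sm e) (hy.cf.hsm e) (hy.lm e)
  unfold Pm.trv at h
  rw [cond_true_iff, hd, hg] at h
  obtain ⟨h0, h1⟩ := h
  have h0 : 12 * Q.den ≤ 2 * (S.W e).length * Q.den + gsv sol lng Q.den Q.nl (S.W e) :=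
    Nat.le_of_ble_eq_true h0
  have hG : ∀ i < (S.W e).length, Q.G (S.c (S.nx^[i] e)) (S.nb e i) ≤ Q.sh := by
    intro i hi
    have h2 := alln_iff.1 h1 i hi
    rw [cond_true_iff, rot_c hy.cf.ok he i] at h2
    have h3 := hy.pos _ (hy.cf.ok.ne_iter he i)
    have e1 : Q.SG.get (Q.ky (S.c (S.nx^[i] e))) = [] := List.isEmpty_iff.1 h2.2
    have e2 : Q.T.get (Q.ky (S.c (S.nx^[i] e))) = [] := List.isEmpty_iff.1 h2.1
    unfold Pm.PosOk Pm.pos at h3
    rw [e1, e2] at h3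
    rcases h3 with h3 | ⟨g, h3, _⟩
    · exact h3
    · simp at h3
  apply chv_le hy he
  have hs : ∑ i ∈ range (S.W e).length, Q.G (S.c (S.nx^[i] e)) (S.nb e i) ≤
      (S.W e).length * Q.sh := by
    have := sum_le_sum (s := range (S.W e).length) (fun i hi => hG i (mem_range.1 hi))
    rw [sum_const, card_range, smul_eq_mul] at this
    exact this
  refine le_trans hs ?_
  have h5 := thrb_eq hy he
  zify
  rw [h5]
  have h6 : (12 * Q.den : Int) ≤ 2 * (S.W e).length * Q.den + gsv sol lng Q.den Q.nl (S.W e) := by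
    exact_mod_cast h0
  nlinarith

end sound

end

end Pool.FCS
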