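import Pool.Agent.FCS.Bn

/-!
# Star check: the lists of candidates are complete
-/

namespace Pool.FCS

noncomputable section

/-- the neighbour with the key `b` is covered -/
def Pm.okb (Q : Pm) (a df : Nat) (cl : List (Nat × Nat)) (b : Nat) : Bool :=
  bif Q.pf (lo a) (lo b) then true else
    (fun g : Nat => bif Nat.ble g df then true else lst g (mi b) cl) (Q.Gn a b)

/-- the list of the candidates of the sender `a` (key) is complete -/
def Pm.sok (Q : Pm) (WL : BT (List Nat)) (a : Nat) (L : List (Nat × Nat)) : Bool :=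
  List.rec (motive := fun _ => Bool) true
    (fun q cl _ =>
      bif (bif Nat.ble (Nat.sub Q.sh Q.nu) q.1 then true else
        lst (Nat.sub Q.sh Q.nu) 1 cl) then
        (fun la fa : Nat =>
          alln 32 fun f => bif Q.cme f la then
            alln 32 fun l => bif Q.cme fa l then
              allb (Q.okb a q.1 cl) (WL.get (Nat.add f (Nat.mul 32 l))) else true
          else true) (Nat.div (hi a) 32) (Nat.mod (hi a) 32)
      else false) L

section sound

variable {D : Type*} {cmp : Nat → Nat → Bool} {sol : Nat → Bool} {S : Sys D}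
  {Q : Pm} {f : Nat → Nat}

theorem posb_null {a : Nat} {WL : BT (List Nat)}
    (hs : Q.sok WL (Q.ky a) (Q.SG.get (Q.ky a)) = true) : Q.PosOk a 0 := by
  unfold Pm.PosOk
  show Q.sh - Q.nu ≤ _ ∨ ∃ g, (g, 1) ∈ _ ∧ Q.sh - Q.nu ≤ g
  unfold Pm.pos
  revert hs
  cases hSG : Q.SG.get (Q.ky a) with
  | nil =>
    intro _
    left
    show Q.sh - Q.nu ≤ Q.sh
    omega
  | cons q cl =>
    intro hs
    have e : Q.sok WL (Q.ky a) (q :: cl) =
      (bif (bif Nat.ble (Nat.sub Q.sh Q.nu) q.1 then true else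
        lst (Nat.sub Q.sh Q.nu) 1 cl) then
        (alln 32 fun f => bif Q.cme f (Nat.div (hi (Q.ky a)) 32) then
            alln 32 fun l => bif Q.cme (Nat.mod (hi (Q.ky a)) 32) l then
              allb (Q.okb (Q.ky a) q.1 cl) (WL.get (Nat.add f (Nat.mul 32 l))) else true
          else true)
      else false) := rfl
    rw [e, cond_true_iff] at hs
    obtain ⟨h1, -⟩ := hs
    cases h2 : Nat.ble (Nat.sub Q.sh Q.nu) q.1 with
    | true => left; exact Nat.le_of_ble_eq_true h2
    | false =>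
      rw [h2] at h1
      right
      exact lst_sound h1

theorem posb_typed {a b : Nat} (hb : b ≠ 0) {WL : BT (List Nat)}
    (hs : Q.sok WL (Q.ky a) (Q.SG.get (Q.ky a)) = true)
    (ha1 : blc Q.bm a < 1073741824) (hb1 : blc Q.bm b < 1073741824)
    (h1 : Q.cme (Nat.mod b 32) (Nat.div a (pw a)) = true)
    (h2 : Q.cme (Nat.mod a 32) (Nat.div b (pw b)) = true)
    (hb32 : Nat.div b (pw b) < 32)
    (hpf : Q.pf (blc Q.bm a) (blc Q.bm b) = false) (hW : Q.ky b ∈ WL.get (hi (Q.ky b))) :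
    Q.PosOk a b := by
  have hb0 : Nat.beq b 0 = false := by
    rw [← Bool.not_eq_true]
    intro h
    exact hb (Nat.eq_of_beq_eq_true h)
  have hG : Q.G a b = Q.Gn (Q.ky a) (Q.ky b) := by unfold Pm.G; rw [hb0]; rfl
  have hnz : Q.nz b = mi (Q.ky b) := by
    unfold Pm.nz Pm.ky
    rw [hb0, mi_kfc hb1]; rfl
  have hib : hi (Q.ky b) = b % 32 + 32 * (b / pw b) := hi_kfc hb1
  have hia : hi (Q.ky a) = a % 32 + 32 * (a / pw a) := hi_kfc ha1
  unfold Pm.PosOk
  rw [hG, hnz]
  unfold Pm.pos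
  revert hs
  cases hSG : Q.SG.get (Q.ky a) with
  | nil =>
    intro _
    show Q.Gn (Q.ky a) (Q.ky b) ≤ Q.sh ∨
      ∃ g, (g, mi (Q.ky b)) ∈ Q.T.get (Q.ky a) ∧ Q.Gn (Q.ky a) (Q.ky b) ≤ g
    have e : Q.Gn (Q.ky a) (Q.ky b) = 2 * ((asc (Q.T.get (Q.ky a)) (mi (Q.ky b)) - Q.sh) / 2) +
      Q.sh - 2 * Q.fk (Q.ky a) (Q.ky b) := rfl
    by_cases hA : asc (Q.T.get (Q.ky a)) (mi (Q.ky b)) = 0
    · left; rw [e, hA]; omega
    · by_cases hB : asc (Q.T.get (Q.ky a)) (mi (Q.ky b)) ≤ Q.sh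
      · left; rw [e]; omega
      · right
        exact ⟨_, asc_mem hA, by rw [e]; omega⟩
  | cons q cl =>
    intro hs
    have e : Q.sok WL (Q.ky a) (q :: cl) =
      (bif (bif Nat.ble (Nat.sub Q.sh Q.nu) q.1 then true else
        lst (Nat.sub Q.sh Q.nu) 1 cl) then
        (alln 32 fun f => bif Q.cme f (Nat.div (hi (Q.ky a)) 32) then
            alln 32 fun l => bif Q.cme (Nat.mod (hi (Q.ky a)) 32) l then
              allb (Q.okb (Q.ky a) q.1 cl) (WL.get (Nat.add f (Nat.mul 32 l))) else true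
          else true)
      else false) := rfl
    rw [e, cond_true_iff] at hs
    obtain ⟨-, h3⟩ := hs
    have a32 : a % 32 < 32 := Nat.mod_lt _ (by norm_num)
    have b32 : b % 32 < 32 := Nat.mod_lt _ (by norm_num)
    have hb32' : b / pw b < 32 := hb32
    have e1 : Nat.div (hi (Q.ky a)) 32 = Nat.div a (pw a) := by
      rw [hia]
      show (a % 32 + 32 * (a / pw a)) / 32 = a / pw a
      omega
    have e2 : Nat.mod (hi (Q.ky a)) 32 = Nat.mod a 32 := by
      rw [hia]
      show (a % 32 + 32 * (a / pw a)) % 32 = a % 32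
      omega
    rw [e1, e2] at h3
    have h4 := alln_iff.1 h3 (Nat.mod b 32) b32
    rw [h1] at h4
    dsimp only [cond_true] at h4
    have h5 := alln_iff.1 h4 (Nat.div b (pw b)) hb32
    rw [h2] at h5
    dsimp only [cond_true] at h5
    have e3 : Nat.add (Nat.mod b 32) (Nat.mul 32 (Nat.div b (pw b))) = hi (Q.ky b) := hib.symm
    rw [e3] at h5
    have h6 := allb_sound h5 _ hW
    unfold Pm.okb at h6
    have e4 : lo (Q.ky a) = blc Q.bm a := lo_kfc ha1
    have e5 : lo (Q.ky b) = blc Q.bm b := lo_kfc hb1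
    rw [e4, e5, hpf] at h6
    dsimp only [cond_false] at h6
    show Q.Gn (Q.ky a) (Q.ky b) ≤ q.1 ∨
      ∃ g, (g, mi (Q.ky b)) ∈ cl ∧ Q.Gn (Q.ky a) (Q.ky b) ≤ g
    cases h7 : Nat.ble (Q.Gn (Q.ky a) (Q.ky b)) q.1 with
    | true => left; exact Nat.le_of_ble_eq_true h7
    | false =>
      rw [h7] at h6
      right
      exact lst_sound h6

/-- the positions are correct -/
theorem posb_all (hS : S.Ok cmp sol) (hb : Bmp Q.bm f S)
    (hcm : ∀ x y, cmp x y = true → Q.cme (x + 1) (y + 1) = true)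
    (hpf : ∀ r, S.W r ≠ [] → S.W (S.al r) ≠ [] →
      Q.pf (blc Q.bm (S.c r)) (blc Q.bm (S.c (S.al r))) = false)
    {WL : BT (List Nat)}
    (hWL : ∀ e, S.W e ≠ [] → Q.ky (S.c e) ∈ WL.get (hi (Q.ky (S.c e))))
    (hs : ∀ a, Q.sok WL a (Q.SG.get a) = true) (e : D) (he : S.W e ≠ []) :
    Q.PosOk (S.c e) (S.c (S.al e)) := by
  by_cases ha : S.W (S.al e) = []
  · have : S.c (S.al e) = 0 := by unfold Sys.c; rw [ha]; rfl
    rw [this]
    exact posb_null (hs _)
  · have h4 := hS.len _ ha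
    refine posb_typed (Sys.enc_ne ha) (hs _) (hb.lt hS _) (hb.lt hS _) ?_ ?_ ?_
      (hpf e he ha) (hWL _ ha)
    · rw [hS.dg0 ha, hS.dgl he]
      apply hcm
      have := hS.cmp (S.al e) ha (by rw [hS.alal]; exact he)
      rwa [hS.alal] at this
    · rw [hS.dg0 he, hS.dgl ha]
      exact hcm _ _ (hS.cmp e he ha)
    · rw [hS.dgl ha]
      have h5 : (S.W (S.al e)).length - 1 < (S.W (S.al e)).length := by omega
      rw [List.getD_eq_getElem _ _ h5]
      have := hS.sm (S.al e) _ (List.getElem_mem h5)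
      omega

/-- from the entries of the table -/
theorem sokb_all {WL : BT (List Nat)}
    (h : ∀ p ∈ Q.SG.toList, Q.sok WL p.1 p.2 = true) (a : Nat) :
    Q.sok WL a (Q.SG.get a) = true := by
  by_cases h0 : Q.SG.get a = []
  · rw [h0]; rfl
  · exact h _ (BT.get_mem h0)

end sound

end

end Pool.FCS
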