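import Pool.Agent.FCS.Bf

/-!
# Star check with blind neighbours: faster forms for the kernel
-/

namespace Pool.FCS

noncomputable section

theorem brec {α : Type} (t e : α) (c : Bool) :
    (Bool.rec (motive := fun _ => α) e t c) = (bif c then t else e) := by cases c <;> rfl

/-- `look` -/
def lookF (asg : List (Nat × Nat)) (i : Nat) : Nat :=
  List.rec (motive := fun _ => Nat) 0
    (fun q _ ih => Bool.rec (motive := fun _ => Nat) ih q.2 (Nat.beq q.1 i)) asg

theorem lookF_eq (asg : List (Nat × Nat)) (i : Nat) : lookF asg i = look asg i := by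
  unfold lookF look
  simp only [brec]

/-- `mem` -/
def memF (b : Nat) (l : List Nat) : Bool :=
  List.rec (motive := fun _ => Bool) false
    (fun x _ ih => Bool.rec (motive := fun _ => Bool) ih true (Nat.beq x b)) l

theorem memF_eq (b : Nat) (l : List Nat) : memF b l = mem b l := by
  unfold memF mem
  simp only [brec]

/-- `BT.get` -/
def getF (t : BT (List Nat)) (k : Nat) : List Nat :=
  BT.rec (motive := fun _ => List Nat) []
    (fun _ m v _ hl hr => Bool.rec (motive := fun _ => List Nat)
      (Bool.rec (motive := fun _ => List Nat) hr hl (Nat.ble k m)) v (Nat.beq k m)) t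

theorem getF_eq (t : BT (List Nat)) (k : Nat) : getF t k = t.get k := by
  unfold getF BT.get
  simp only [brec]

/-- `pw` -/
def pwF (c : Nat) : Nat :=
  Bool.rec (motive := fun _ => Nat)
    (Bool.rec (motive := fun _ => Nat) 32768 1048576 (Nat.ble 1048576 c)) 33554432
    (Nat.ble 33554432 c)

theorem pwF_eq (c : Nat) : pwF c = pw c := by
  unfold pwF pw
  simp only [brec]

/-- `adj` for two neighbours -/
def adjF (cmb : Nat → Nat → Bool) (PF : BT (List Nat)) (u v : Nat) : Bool :=
  (fun x y : Nat => Bool.rec (motive := fun _ => Bool) true (memF y (getF PF x))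
    (cmb (Nat.mod y 32) (Nat.div x (pwF x))))
    (Nat.add (Nat.mul (Nat.mod u (pwF u)) 32) (Nat.div u (pwF u)))
    (Nat.add (Nat.div v 32) (Nat.mul (Nat.mod v 32) (pwF v)))

theorem adjF_eq (Q : Pm) (u v : Nat) :
    adjF Q.cmb Q.PF u v = adj Q.cmb Q.pf (rrc u) (rlc v) := by
  unfold adjF adj rrc rlc Pm.pf
  simp only [brec, memF_eq, getF_eq, pwF_eq]

/-- `mtb` -/
def mtbF (v q : Nat) : Bool :=
  Bool.rec (motive := fun _ => Bool) (Nat.beq v q)
    (Bool.rec (motive := fun _ => Bool)
      (Bool.rec (motive := fun _ => Bool) true false (Nat.ble 4294967296 v)) false (Nat.beq v 0))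
    (Nat.beq q 2)

theorem mtbF_eq (v q : Nat) : mtbF v q = mtb v q := by
  unfold mtbF mtb
  simp only [brec]

/-- `ptb` -/
def ptbF (i b : Nat) (asg : List (Nat × Nat)) (P : List (Nat × Nat)) : Bool :=
  List.rec (motive := fun _ => Bool) true
    (fun q _ ih => Bool.rec (motive := fun _ => Bool) false ih
      (mtbF (Bool.rec (motive := fun _ => Nat) (lookF asg q.1) b (Nat.beq q.1 i)) q.2)) P

theorem ptbF_eq (i b : Nat) (asg : List (Nat × Nat)) (P : List (Nat × Nat)) :
    ptbF i b asg P = ptb i b asg P := by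
  unfold ptbF ptb
  simp only [brec, mtbF_eq, lookF_eq]

/-- `ptsb` -/
def ptsbF (i b : Nat) (asg : List (Nat × Nat)) (pats : List (List (Nat × Nat))) : Bool :=
  List.rec (motive := fun _ => Bool) false
    (fun P _ ih => Bool.rec (motive := fun _ => Bool) ih true (ptbF i b asg P)) pats

theorem ptsbF_eq (i b : Nat) (asg : List (Nat × Nat)) (pats : List (List (Nat × Nat))) :
    ptsbF i b asg pats = ptsb i b asg pats := by
  unfold ptsbF ptsb
  simp only [brec, ptbF_eq]

/-- `sidb` -/
def sidbF (Q : Pm) (k x u v : Nat) : Bool :=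
  Bool.rec (motive := fun _ => Bool)
    (Bool.rec (motive := fun _ => Bool)
      (Bool.rec (motive := fun _ => Bool)
        (Bool.rec (motive := fun _ => Bool) (Q.gk k x u v) (adjF Q.cmb Q.PF (lo u) (lo v))
          (Nat.beq (Nat.land (Nat.shiftRight Q.sm x) 1) 1))
        false (Nat.beq x 0))
      false (Nat.ble v 1))
    false (Nat.ble u 1)

theorem sidbF_eq (Q : Pm) (k x u v : Nat) :
    sidbF Q k x u v = sidb Q.cmb Q.pf Q.gk Q.sm k x u v := by
  unfold sidbF sidb tb
  simp only [brec, adjF_eq]

/-- `cfb` -/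
def cfbF (Q : Pm) (k c d : Nat) (pats : List (List (Nat × Nat))) (i b : Nat)
    (asg : List (Nat × Nat)) : Bool :=
  Bool.rec (motive := fun _ => Bool)
    (Bool.rec (motive := fun _ => Bool)
      (Bool.rec (motive := fun _ => Bool)
        (Bool.rec (motive := fun _ => Bool) (ptsbF i b asg pats) true
          (sidbF Q k (dg (Nat.pow 32 (Bool.rec (motive := fun _ => Nat) (Nat.sub i 1) (Nat.sub d 1)
            (Nat.beq i 0))) c) (lookF asg (Bool.rec (motive := fun _ => Nat) (Nat.sub i 1)
              (Nat.sub d 1) (Nat.beq i 0))) b))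
        true
        (sidbF Q k (dg (Nat.pow 32 i) c) b (lookF asg (Bool.rec (motive := fun _ => Nat)
          (Nat.succ i) 0 (Nat.beq (Nat.succ i) d)))))
      (Bool.rec (motive := fun _ => Bool) (ptsbF i b asg pats) true (nlc Q.sm c d i asg))
      (Nat.beq b 1))
    false (Nat.beq b 0)

theorem cfbF_eq (Q : Pm) (k c d : Nat) (pats : List (List (Nat × Nat))) (i b : Nat)
    (asg : List (Nat × Nat)) :
    cfbF Q k c d pats i b asg = cfb Q.cmb Q.pf Q.gk Q.sm k c d pats i b asg := by
  unfold cfbF cfb prv nxt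
  simp only [brec, ptsbF_eq, sidbF_eq, lookF_eq, Nat.pred_eq_sub_one]
  rfl

/-- `ub` -/
def ubF (cf : Nat → Nat → List (Nat × Nat) → Bool) (i df : Nat) (asg : List (Nat × Nat))
    (cl : List (Nat × Nat)) : Nat :=
  List.rec (motive := fun _ => Nat) df
    (fun c _ ih => Bool.rec (motive := fun _ => Nat)
      (Bool.rec (motive := fun _ => Nat) c.1 ih (cf i c.2 asg)) df (Nat.ble c.1 df)) cl

theorem ubF_eq (cf : Nat → Nat → List (Nat × Nat) → Bool) (i df : Nat) (asg : List (Nat × Nat))
    (cl : List (Nat × Nat)) : ubF cf i df asg cl = ub cf i df asg cl := by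
  unfold ubF ub
  simp only [brec]

/-- `ubs` -/
def ubsF (cf : Nat → Nat → List (Nat × Nat) → Bool) (asg : List (Nat × Nat)) (ps : List Pos) :
    Nat :=
  List.rec (motive := fun _ => Nat) 0 (fun p _ ih => Nat.add (ubF cf p.i p.df asg p.cl) ih) ps

theorem ubsF_eq (cf : Nat → Nat → List (Nat × Nat) → Bool) (asg : List (Nat × Nat))
    (ps : List Pos) : ubsF cf asg ps = ubs cf asg ps := by
  unfold ubsF ubs
  simp only [ubF_eq]
  rfl

/-- `go` -/
def goF (cf : Nat → Nat → List (Nat × Nat) → Bool) (thr : Nat) (ps : List Pos) :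
    List (Nat × Nat) → Nat → Bool :=
  List.rec (motive := fun _ => List (Nat × Nat) → Nat → Bool)
    (fun _ s => Nat.ble s thr)
    (fun p ps ih asg s =>
      (fun r : Nat =>
        Bool.rec (motive := fun _ => Bool)
          (Bool.rec (motive := fun _ => Bool) false
            (List.rec (motive := fun _ => Bool) true
              (fun c _ jh =>
                Bool.rec (motive := fun _ => Bool)
                  (Bool.rec (motive := fun _ => Bool)
                    (Bool.rec (motive := fun _ => Bool) false jh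
                      (ih ((p.i, c.2) :: asg) (Nat.add s c.1))) jh
                    (cf p.i c.2 asg)) jh
                  (Nat.ble (Nat.add s (Nat.add c.1 r)) thr)) p.cl)
            (Bool.rec (motive := fun _ => Bool) (ih asg (Nat.add s p.df)) true
              (Nat.ble (Nat.add s (Nat.add p.df r)) thr)))
          true
          (Nat.ble (Nat.add s (Nat.add (ubF cf p.i p.df asg p.cl) r)) thr))
        (ubsF cf asg ps)) ps

theorem goF_eq (cf : Nat → Nat → List (Nat × Nat) → Bool) (thr : Nat) (ps : List Pos) :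
    goF cf thr ps = go cf thr ps := by
  unfold goF go
  simp only [brec, ubF_eq, ubsF_eq]
  rfl

/-- The check of a centre. -/
def Pm.chkF (Q : Pm) (C : Cen) : Bool :=
  bif okOrd (dgn C.c) C.ord then
    bif pos0 C.pats then
      (fun ps : List Pos =>
        bif srts ps then
          goF (cfbF Q (wsl Q.wm C.c) C.c (dgn C.c) C.pats) (Q.thr C.c) ps [] 0
        else false) (Q.pss C.c C.ord)
    else false
  else false

theorem Pm.chkF_eq (Q : Pm) (C : Cen) : Q.chkF C = Q.chk C := by
  have h : cfbF Q (wsl Q.wm C.c) C.c (dgn C.c) C.pats =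
      cfb Q.cmb Q.pf Q.gk Q.sm (wsl Q.wm C.c) C.c (dgn C.c) C.pats := by
    funext i b asg
    exact cfbF_eq Q _ _ _ _ i b asg
  unfold Pm.chkF Pm.chk
  rw [h]
  simp only [goF_eq]

end

end Pool.FCS
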