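import Pool.Agent.FCS.Sys

/-!
# Star check: conflicts, with codes for null neighbours and for unknown neighbours

The code of a neighbour is `1` if nothing is known about it (null).  A condition of a pattern is a
code of a word, or `2`: null or not solid of length 4.
-/

namespace Pool.FCS

variable {D : Type*}

/-- code of a neighbour, `1` for a null neighbour -/
def Sys.nc (S : Sys D) (e : D) (i : Nat) : Nat :=
  bif Nat.beq (S.nb e i) 0 then 1 else S.nb e i

/-- solid of length 4 -/
def so4 (sm c : Nat) : Bool :=
  bif Nat.ble 1048576 c then false else
    bif tb sm (dg 1 c) then bif tb sm (dg 32 c) then bif tb sm (dg 1024 c) then tb sm (dg 32768 c)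
      else false else false else false

/-- the code `v` (`0`: not yet known) satisfies the condition `q` -/
def mt (sm v q : Nat) : Bool :=
  bif Nat.beq q 2 then
    bif Nat.beq v 0 then false else bif Nat.beq v 1 then true else !so4 sm v
  else Nat.beq v q

/-- all conditions of the pattern hold -/
def pt (sm i b : Nat) (asg : List (Nat × Nat)) (P : List (Nat × Nat)) : Bool :=
  List.rec (motive := fun _ => Bool) true
    (fun q _ ih => bif mt sm (bif Nat.beq q.1 i then b else look asg q.1) q.2 then ih else false) P

/-- some pattern holds -/
def pts (sm i b : Nat) (asg : List (Nat × Nat)) (pats : List (List (Nat × Nat))) : Bool :=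
  List.rec (motive := fun _ => Bool) false (fun P _ ih => bif pt sm i b asg P then true else ih) pats

/-- the next position -/
def nxt (d i : Nat) : Nat := bif Nat.beq (Nat.succ i) d then 0 else Nat.succ i

/-- the null neighbours `i` and `j` are allowed -/
def n2k (sm c d i j : Nat) : Bool :=
  bif Nat.beq j (nxt d i) then tb sm (dg (Nat.pow 32 i) c) else
    bif Nat.beq i (nxt d j) then tb sm (dg (Nat.pow 32 j) c) else false

/-- a null neighbour at `i` is not possible -/
def nlc (sm c d i : Nat) (asg : List (Nat × Nat)) : Bool :=
  bif Nat.ble (Nat.succ i) d then
    List.rec (motive := fun _ => Bool) false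
      (fun q _ ih => bif Nat.beq q.2 1 then
          bif Nat.ble (Nat.succ q.1) d then
            bif Nat.beq q.1 i then ih else bif n2k sm c d i q.1 then ih else true
          else ih
        else ih) asg
  else false

/-- The conflicts of the candidate `b` at the position `i` of the centre with the code `c` and the
degree `d`. -/
def cfn (cmd pf : Nat → Nat → Bool) (sm c d : Nat) (pats : List (List (Nat × Nat)))
    (i b : Nat) (asg : List (Nat × Nat)) : Bool :=
  bif Nat.beq b 0 then false else
  bif Nat.beq b 1 then bif nlc sm c d i asg then true else pts sm i b asg pats else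
  bif (bif tb sm (dg (Nat.pow 32 i) c) then
      bif Nat.ble (look asg (nxt d i)) 1 then false
      else adj cmd pf (rrc b) (rlc (look asg (nxt d i)))
    else false) then true else
  bif (bif tb sm (dg (Nat.pow 32 (bif Nat.beq i 0 then Nat.pred d else Nat.pred i)) c) then
      bif Nat.ble (look asg (bif Nat.beq i 0 then Nat.pred d else Nat.pred i)) 1 then false
      else adj cmd pf (rrc (look asg (bif Nat.beq i 0 then Nat.pred d else Nat.pred i))) (rlc b)
    else false) then true else
  pts sm i b asg pats

section sound

variable {cmp : Nat → Nat → Bool} {sol : Nat → Bool} {S : Sys D}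

theorem pt_sound {sm : Nat} {nb : Nat → Nat} {asg : List (Nat × Nat)} (ha : Agr nb asg) {i b : Nat}
    (hb : nb i = b) : ∀ {P : List (Nat × Nat)}, (∀ q ∈ P, q.2 ≠ 0) → pt sm i b asg P = true →
      ∀ q ∈ P, mt sm (nb q.1) q.2 = true
  | [], _, _, q, hq => by simp at hq
  | r :: P, h0, h, q, hq => by
    have e : pt sm i b asg (r :: P) = (bif mt sm (bif Nat.beq r.1 i then b else look asg r.1) r.2
      then pt sm i b asg P else false) := rfl
    rw [e] at h
    cases hr : mt sm (bif Nat.beq r.1 i then b else look asg r.1) r.2 with
    | false => rw [hr] at h; simp at h
    | true =>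
      rw [hr] at h
      rcases List.mem_cons.1 hq with rfl | hq
      · cases hi : Nat.beq q.1 i with
        | true =>
          rw [hi] at hr
          have := Nat.eq_of_beq_eq_true hi
          rw [this, hb]; exact hr
        | false =>
          rw [hi] at hr
          have h2 : mt sm (look asg q.1) q.2 = true := hr
          have h3 : look asg q.1 ≠ 0 := by
            intro h4
            rw [h4] at h2
            unfold mt at h2
            cases h5 : Nat.beq q.2 2 with
            | true => rw [h5] at h2; simp at h2
            | false =>
              rw [h5] at h2
              exact h0 q (List.mem_cons_self ..) (Nat.eq_of_beq_eq_true h2).symm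
          rw [look_agr ha q.1 h3]
          exact h2
      · exact pt_sound ha hb (fun q hq => h0 q (List.mem_cons_of_mem _ hq)) h q hq

theorem pts_sound {sm : Nat} {nb : Nat → Nat} {asg : List (Nat × Nat)} (ha : Agr nb asg)
    {i b : Nat} (hb : nb i = b) : ∀ {pats : List (List (Nat × Nat))},
      (∀ P ∈ pats, (∀ q ∈ P, q.2 ≠ 0) ∧ ¬ ∀ q ∈ P, mt sm (nb q.1) q.2 = true) →
        pts sm i b asg pats = false
  | [], _ => rfl
  | P :: pats, h => by
    have e : pts sm i b asg (P :: pats) = (bif pt sm i b asg P then true else
      pts sm i b asg pats) := rfl
    rw [e]
    have h1 := h P (List.mem_cons_self ..)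
    have h2 : pt sm i b asg P = false := by
      rw [← Bool.not_eq_true]
      exact fun hc => h1.2 (pt_sound ha hb h1.1 hc)
    rw [h2]
    exact pts_sound ha hb (fun Q hQ => h Q (List.mem_cons_of_mem _ hQ))

/-- the rule for two null neighbours of a star -/
def Nr (sol : Nat → Bool) (S : Sys D) (e : D) : Prop :=
  ∀ i < (S.W e).length, ∀ j < (S.W e).length, i ≠ j → S.nb e i = 0 → S.nb e j = 0 →
    (j = nxt (S.W e).length i ∧ sol ((S.W e).getD i 0) = true) ∨
      (i = nxt (S.W e).length j ∧ sol ((S.W e).getD j 0) = true)

theorem nc_one {e : D} {i : Nat} (hS : S.Ok cmp sol) (h : S.nc e i = 1) : S.nb e i = 0 := by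
  unfold Sys.nc at h
  cases h1 : Nat.beq (S.nb e i) 0 with
  | true => exact Nat.eq_of_beq_eq_true h1
  | false =>
    exfalso
    rw [h1] at h
    have h2 : S.nb e i = 1 := h
    have h3 : S.W (S.al (S.nx^[i] e)) ≠ [] := by
      apply Sys.ne_of_c
      intro h4
      have : S.nb e i = 0 := h4
      omega
    have h4 := le_enc h3
    have h5 := (hS.len _ h3).1
    have h6 : 32 ^ 3 ≤ 32 ^ ((S.W (S.al (S.nx^[i] e))).length - 1) :=
      Nat.pow_le_pow_right (by norm_num) (by omega)
    have h7 : enc (S.W (S.al (S.nx^[i] e))) = 1 := h2
    rw [h7] at h4
    have : (32 : Nat) ^ 3 = 32768 := by norm_num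
    omega

theorem nc_ne {e : D} {i : Nat} (h : S.nb e i ≠ 0) : S.nc e i = S.nb e i := by
  unfold Sys.nc
  cases h1 : Nat.beq (S.nb e i) 0 with
  | true => exact absurd (Nat.eq_of_beq_eq_true h1) h
  | false => rfl

theorem nb_of_nc {e : D} {i b : Nat} (h : S.nc e i = b) (hb : 2 ≤ b) : S.nb e i = b := by
  unfold Sys.nc at h
  cases h1 : Nat.beq (S.nb e i) 0 with
  | true => rw [h1] at h; have : 1 = b := h; omega
  | false => rw [h1] at h; exact h

theorem nxt_lt {d i : Nat} (hi : i < d) : nxt d i < d := by
  unfold nxt
  cases h : Nat.beq (Nat.succ i) d with
  | true => show 0 < d; omega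
  | false =>
    show i + 1 < d
    have : i + 1 ≠ d := by
      intro hh
      rw [show Nat.succ i = d from hh, Nat.beq_refl] at h
      exact absurd h (by decide)
    omega

theorem nlc_sound {sm : Nat} {asg : List (Nat × Nat)} (hS : S.Ok cmp sol) {e : D}
    (hsm' : ∀ x ∈ S.W e, tb sm (x + 1) = sol x)
    (hN : Nr sol S e) (ha : Agr (S.nc e) asg) {i : Nat}
    (h : nlc sm (S.c e) (S.W e).length i asg = true) : S.nc e i ≠ 1 := by
  intro h1
  have h2 := nc_one hS h1
  unfold nlc at h
  cases hi : Nat.ble (Nat.succ i) (S.W e).length with
  | false => rw [hi] at h; simp at h
  | true =>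
    rw [hi] at h
    have hi' : i < (S.W e).length := Nat.le_of_ble_eq_true hi
    dsimp only [cond_true] at h
    revert h
    induction asg with
    | nil => intro h; exact absurd h (by simp)
    | cons q asg ih =>
      intro h
      have hq := ha q (List.mem_cons_self ..)
      have ih' := ih (fun r hr => ha r (List.mem_cons_of_mem _ hr))
      dsimp only at h
      cases c1 : Nat.beq q.2 1 with
      | false => rw [c1] at h; exact ih' h
      | true =>
        rw [c1] at h
        dsimp only [cond_true] at h
        cases c2 : Nat.ble (Nat.succ q.1) (S.W e).length with
        | false => rw [c2] at h; exact ih' h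
        | true =>
          rw [c2] at h
          dsimp only [cond_true] at h
          cases c3 : Nat.beq q.1 i with
          | true => rw [c3] at h; exact ih' h
          | false =>
            rw [c3] at h
            dsimp only [cond_false] at h
            cases c4 : n2k sm (S.c e) (S.W e).length i q.1 with
            | true => rw [c4] at h; exact ih' h
            | false =>
              have hj : q.1 < (S.W e).length := Nat.le_of_ble_eq_true c2
              have hne : i ≠ q.1 := by
                rintro rfl
                rw [Nat.beq_refl] at c3
                exact absurd c3 (by decide)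
              have hq1 : S.nc e q.1 = 1 := by rw [hq]; exact Nat.eq_of_beq_eq_true c1
              have tbk : ∀ k < (S.W e).length, sol ((S.W e).getD k 0) = true →
                  tb sm (dg (Nat.pow 32 k) (S.c e)) = true := by
                intro k hk hs
                have h7 : dg (32 ^ k) (enc (S.W e)) = _ := dg_enc (hS.sm e) hk
                have h8 : dg (Nat.pow 32 k) (S.c e) = (S.W e).getD k 0 + 1 := h7
                rw [h8, hsm' _ (by rw [List.getD_eq_getElem _ _ hk]; exact List.getElem_mem _)]
                exact hs
              rcases hN i hi' q.1 hj hne h2 (nc_one hS hq1) with ⟨e1, e2⟩ | ⟨e1, e2⟩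
              · unfold n2k at c4
                rw [← e1, Nat.beq_refl, tbk i hi' e2] at c4
                exact absurd c4 (by simp)
              · unfold n2k at c4
                rw [← e1, Nat.beq_refl, tbk q.1 hj e2] at c4
                cases c5 : Nat.beq q.1 (nxt (S.W e).length i) with
                | false => rw [c5] at c4; exact absurd c4 (by simp)
                | true =>
                  -- both are next: impossible for length at least 3
                  have e3 := Nat.eq_of_beq_eq_true c5
                  exfalso
                  have h4 := (hS.len e (by
                    intro h0; rw [h0] at hi'; exact absurd hi' (by simp))).1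
                  unfold nxt at e1 e3
                  cases d1 : Nat.beq (Nat.succ i) (S.W e).length with
                  | true =>
                    have d1' := Nat.eq_of_beq_eq_true d1
                    rw [d1] at e3
                    have e3' : q.1 = 0 := e3
                    cases d2 : Nat.beq (Nat.succ q.1) (S.W e).length with
                    | true => have := Nat.eq_of_beq_eq_true d2; omega
                    | false =>
                      rw [d2] at e1
                      have e1' : i = q.1 + 1 := e1
                      omega
                  | false =>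
                    rw [d1] at e3
                    have e3' : q.1 = i + 1 := e3
                    cases d2 : Nat.beq (Nat.succ q.1) (S.W e).length with
                    | true =>
                      have d2' := Nat.eq_of_beq_eq_true d2
                      rw [d2] at e1
                      have e1' : i = 0 := e1
                      omega
                    | false =>
                      rw [d2] at e1
                      have e1' : i = q.1 + 1 := e1
                      omega

variable (hS : S.Ok cmp sol)

include hS

theorem cfn_sound {cmd pf : Nat → Nat → Bool} {sm : Nat}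
    (hcm : ∀ x y, cmp x y = true → cmd (x + 1) (y + 1) = true)
    (hsm : ∀ x, tb sm (x + 1) = true → sol x = true) (hsm0 : tb sm 0 = false)
    (hpf : ∀ r, S.W r ≠ [] → S.W (S.al r) ≠ [] → pf (S.c r) (S.c (S.al r)) = false)
    {e : D} (hsm' : ∀ x ∈ S.W e, tb sm (x + 1) = sol x)
    (hN : Nr sol S e) (he : S.W e ≠ []) {pats : List (List (Nat × Nat))}
    (hP : ∀ P ∈ pats, (∀ q ∈ P, q.2 ≠ 0) ∧ ¬ ∀ q ∈ P, mt sm (S.nc e q.1) q.2 = true) :
    ∀ asg, Agr (S.nc e) asg → ∀ i b,
      cfn cmd pf sm (S.c e) (S.W e).length pats i b asg = true → S.nc e i ≠ b := by
  intro asg ha i b h hb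
  have h4 := hS.len e he
  -- the letter of the sector `i`
  have hsec : ∀ i, tb sm (dg (Nat.pow 32 i) (S.c e)) = true →
      i < (S.W e).length ∧ sol ((S.W (S.nx^[i] e)).getD 0 0) = true := by
    intro i hi
    by_cases hl : i < (S.W e).length
    · refine ⟨hl, ?_⟩
      have h1 : dg (32 ^ i) (enc (S.W e)) = _ := dg_enc (hS.sm e) hl
      have hi' : tb sm (dg (32 ^ i) (enc (S.W e))) = true := hi
      rw [h1] at hi'
      have h2 := hsm _ hi'
      rw [hS.W_iter he i]
      rw [List.getD_eq_getElem _ _ (by rw [List.length_rotate]; omega), List.getElem_rotate]
      rw [List.getD_eq_getElem _ _ hl] at h2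
      simpa [Nat.mod_eq_of_lt hl] using h2
    · exfalso
      have h1 : dg (Nat.pow 32 i) (S.c e) = 0 := by
        show S.c e / 32 ^ i % 32 = 0
        have h2 : S.c e < 32 ^ (S.W e).length := enc_lt (hS.sm e)
        have h3 : 32 ^ (S.W e).length ≤ 32 ^ i := Nat.pow_le_pow_right (by norm_num) (by omega)
        rw [Nat.div_eq_of_lt (by omega)]
      rw [h1, hsm0] at hi
      exact absurd hi (by simp)
  -- the next position
  have hnx : ∀ i, i < (S.W e).length →
      S.nb e (nxt (S.W e).length i) = S.c (S.al (S.nx (S.nx^[i] e))) := by
    intro i hi
    unfold Sys.nb nxt
    cases hb : Nat.beq (Nat.succ i) (S.W e).length with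
    | true =>
      have h1 := Nat.eq_of_beq_eq_true hb
      rw [← Function.iterate_succ_apply' S.nx, h1, hS.per e he]
      rfl
    | false => rw [← Function.iterate_succ_apply' S.nx]; rfl
  unfold cfn at h
  have hb0 : Nat.beq b 0 = false := by
    cases h0 : Nat.beq b 0 with
    | true => rw [h0] at h; simp at h
    | false => rfl
  rw [hb0] at h
  dsimp only [cond_false] at h
  cases hb1 : Nat.beq b 1 with
  | true =>
    have hb1' := Nat.eq_of_beq_eq_true hb1
    rw [hb1] at h
    dsimp only [cond_true] at h
    cases hn : nlc sm (S.c e) (S.W e).length i asg with
    | true => exact nlc_sound hS hsm' hN ha hn (by rw [hb, hb1'])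
    | false =>
      rw [hn] at h
      dsimp only [cond_false] at h
      rw [pts_sound ha hb hP] at h
      exact absurd h (by simp)
  | false =>
    rw [hb1] at h
    dsimp only [cond_false] at h
    have hb2 : 2 ≤ b := by
      rcases b with _ | _ | b
      · simp at hb0
      · simp at hb1
      · omega
    have hbn : S.nb e i = b := nb_of_nc hb hb2
    have lk : ∀ k, Nat.ble (look asg k) 1 = false → S.nb e k = look asg k ∧ look asg k ≠ 0 := by
      intro k hk
      have h3 : ¬ look asg k ≤ 1 := by
        intro h4
        rw [Nat.ble_eq_true_of_le h4] at hk
        exact absurd hk (by decide)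
      have h5 := look_agr ha k (by omega)
      exact ⟨nb_of_nc h5 (by omega), by omega⟩
    cases c1 : (bif tb sm (dg (Nat.pow 32 i) (S.c e)) then
        bif Nat.ble (look asg (nxt (S.W e).length i)) 1 then false
        else adj cmd pf (rrc b) (rlc (look asg (nxt (S.W e).length i)))
      else false) with
    | true =>
      cases h1 : tb sm (dg (Nat.pow 32 i) (S.c e)) with
      | false => rw [h1] at c1; simp at c1
      | true =>
        obtain ⟨hl, hs⟩ := hsec i h1
        rw [h1] at c1
        dsimp only [cond_true] at c1
        cases h2 : Nat.ble (look asg (nxt (S.W e).length i)) 1 with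
        | true => rw [h2] at c1; simp at c1
        | false =>
          rw [h2] at c1
          obtain ⟨h5, h3⟩ := lk _ h2
          rw [hnx i hl] at h5
          have h6 : adj cmd pf (rrc b) (rlc (look asg (nxt (S.W e).length i))) = true := c1
          rw [← h5, ← hbn] at h6
          have h7 := adj_sound hS hcm hpf (hS.ne_iter he i) hs
            (by unfold Sys.nb at hbn; rw [hbn]; omega) (by rw [h5]; exact h3)
          unfold Sys.nb at h6
          rw [h6] at h7
          exact absurd h7 (by simp)
    | false =>
      rw [c1] at h
      dsimp only [cond_false] at h
      set k := (bif Nat.beq i 0 then Nat.pred (S.W e).length else Nat.pred i) with hk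
      cases c2 : (bif tb sm (dg (Nat.pow 32 k) (S.c e)) then
        bif Nat.ble (look asg k) 1 then false
        else adj cmd pf (rrc (look asg k)) (rlc b)
        else false) with
      | false =>
        rw [c2] at h
        dsimp only [cond_false] at h
        rw [pts_sound ha hb hP] at h
        exact absurd h (by simp)
      | true =>
        cases h1 : tb sm (dg (Nat.pow 32 k) (S.c e)) with
        | false => rw [h1] at c2; simp at c2
        | true =>
          obtain ⟨hl, hs⟩ := hsec k h1
          rw [h1] at c2
          dsimp only [cond_true] at c2
          cases h2 : Nat.ble (look asg k) 1 with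
          | true => rw [h2] at c2; simp at c2
          | false =>
            rw [h2] at c2
            obtain ⟨h5, h3⟩ := lk _ h2
            have h6 : adj cmd pf (rrc (look asg k)) (rlc b) = true := c2
            -- the successor of `k` is `i`
            have hki : S.c (S.al (S.nx (S.nx^[k] e))) = b := by
              rw [← hnx k hl, ← hbn]
              cases hi0 : Nat.beq i 0 with
              | true =>
                have hi := Nat.eq_of_beq_eq_true hi0
                subst hi
                rw [hi0] at hk
                have hk' : k = (S.W e).length - 1 := hk
                have : Nat.succ k = (S.W e).length := by omega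
                unfold nxt
                rw [this]
                have : Nat.beq (S.W e).length (S.W e).length = true := Nat.beq_refl _
                rw [this]; rfl
              | false =>
                have hi : i ≠ 0 := by rintro rfl; simp at hi0
                rw [hi0] at hk
                have hk' : k = i - 1 := hk
                have hs' : Nat.succ k = i := by omega
                unfold nxt
                rw [hs']
                by_cases hil : i = (S.W e).length
                · have : Nat.beq i (S.W e).length = true := by rw [hil]; exact Nat.beq_refl _
                  rw [this]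
                  unfold Sys.nb
                  rw [hil, hS.per e he]; rfl
                · have : Nat.beq i (S.W e).length = false := by
                    rw [← Bool.not_eq_true]; intro hc; exact hil (Nat.eq_of_beq_eq_true hc)
                  rw [this]; rfl
            rw [← h5, ← hki] at h6
            have h7 := adj_sound hS hcm hpf (hS.ne_iter he k) hs
              (by unfold Sys.nb at h5; rw [h5]; exact h3) (by rw [hki]; omega)
            unfold Sys.nb at h6
            rw [h6] at h7
            exact absurd h7 (by simp)

end sound

end Pool.FCS
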