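import Pool.Agent.FCS.Cen
import Pool.Agent.FCS.Cfn
import Mathlib.Algebra.BigOperators.Ring.Finset
import Mathlib.Algebra.Order.Ring.Int
import Mathlib.Dynamics.PeriodicPts.Defs

/-!
# Star check: one centre, with length classes of the gaps and null neighbours
-/

namespace Pool.FCS

open Finset

noncomputable section

/-- The parameters of the check: `den` unit, `nu` price of a null neighbour, `nl` price of a long
gap, `sm` solid letters, `lm` long gaps. -/
structure Prm where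
  den : Nat
  nu : Nat
  nl : Nat
  sm : Nat
  lm : Nat
  cmd : Nat → Nat → Bool
  /-- receiver: list of (2 (den + flow), sender) -/
  T : BT (List (Nat × Nat))
  /-- sender: (default, 0) :: candidates -/
  SG : BT (List (Nat × Nat))
  /-- forbidden pairs -/
  PF : BT (List Nat)

/-- forbidden pair -/
def Prm.pf (Q : Prm) (x y : Nat) : Bool := mem y (Q.PF.get x)

/-- the flow from `a` to `b` (in units `1 / den`) -/
def Prm.fl (Q : Prm) (a b : Nat) : Nat := Nat.sub (Nat.div (asc (Q.T.get b) a) 2) Q.den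

/-- the contribution of a neighbour with code `b` at the root with code `a` -/
def Prm.gi (Q : Prm) (a b : Nat) : Int :=
  if b = 0 then - (Q.nu : Int) else 2 * ((Q.fl b a : Int) - (Q.fl a b : Int))

/-- the same, shifted by `2 den` -/
def Prm.G (Q : Prm) (a b : Nat) : Nat := (Q.gi a b + 2 * Q.den).toNat

/-- a position -/
def Prm.pos (Q : Prm) (a i : Nat) : Pos :=
  List.rec (motive := fun _ => Pos) ⟨i, Q.T.get a, Nat.mul 2 Q.den⟩ (fun q cl _ => ⟨i, cl, q.1⟩)
    (Q.SG.get a)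

theorem Prm.pos_i (Q : Prm) (a i : Nat) : (Q.pos a i).i = i := by
  unfold Prm.pos
  cases Q.SG.get a <;> rfl

/-- code of a neighbour: `1` for null -/
def nz (b : Nat) : Nat := bif Nat.beq b 0 then 1 else b

/-- the position is correct for the neighbour `b` -/
def Prm.PosOk (Q : Prm) (a b : Nat) : Prop :=
  Q.G a b ≤ (Q.pos a 0).df ∨ ∃ g, (g, nz b) ∈ (Q.pos a 0).cl ∧ Q.G a b ≤ g

theorem Prm.pos_df (Q : Prm) (a i : Nat) : (Q.pos a i).df = (Q.pos a 0).df := by
  unfold Prm.pos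
  cases Q.SG.get a <;> rfl

theorem Prm.pos_cl (Q : Prm) (a i : Nat) : (Q.pos a i).cl = (Q.pos a 0).cl := by
  unfold Prm.pos
  cases Q.SG.get a <;> rfl

/-- the price of a digit -/
def Prm.gw (Q : Prm) (x : Nat) : Nat :=
  bif tb Q.sm x then 0 else bif tb Q.lm x then Q.nl else Q.den

/-- the price of the first `d` letters -/
def Prm.gws (Q : Prm) (c d : Nat) : Nat :=
  Nat.rec (motive := fun _ => Nat) 0 (fun i ih => Nat.add ih (Q.gw (dg (Nat.pow 32 i) c))) d

/-- threshold -/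
def Prm.thr (Q : Prm) (c : Nat) : Nat :=
  Nat.sub (Nat.add (Nat.mul (Nat.mul 4 (dgn c)) Q.den) (Q.gws c (dgn c))) (Nat.mul 12 Q.den)

/-- positions in the given order -/
def Prm.pss (Q : Prm) (c : Nat) (ord : List Nat) : List Pos :=
  List.rec (motive := fun _ => List Pos) [] (fun i _ ih => Q.pos (rot c i) i :: ih) ord

/-- The check of a centre. -/
def Prm.chk (Q : Prm) (C : Cen) : Bool :=
  bif okOrd (dgn C.c) C.ord then
    bif pos0 C.pats then
      (fun ps : List Pos =>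
        bif srts ps then
          go (cfn Q.cmd Q.pf Q.sm C.c (dgn C.c) C.pats) (Q.thr C.c) ps [] 0
        else false) (Q.pss C.c C.ord)
    else false
  else false

/-- price of the gaps of a word -/
def gsm (sol lng : Nat → Bool) (Q : Prm) (l : List Nat) : Nat :=
  (l.map fun x => bif sol x then 0 else bif lng x then Q.nl else Q.den).sum

theorem gws_eq {Q : Prm} {sol lng : Nat → Bool} {l : List Nat} (h : Sm l)
    (hsm : ∀ x ∈ l, tb Q.sm (x + 1) = sol x) (hlm : ∀ x ∈ l, tb Q.lm (x + 1) = lng x) :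
    Q.gws (enc l) l.length = gsm sol lng Q l := by
  have key : ∀ n ≤ l.length, Q.gws (enc l) n = gsm sol lng Q (l.take n) := by
    intro n
    induction n with
    | zero => intro _; simp [Prm.gws, gsm]
    | succ n ih =>
      intro hn
      have e : Q.gws (enc l) (n + 1) = Q.gws (enc l) n + Q.gw (dg (Nat.pow 32 n) (enc l)) := rfl
      have h1 : dg (Nat.pow 32 n) (enc l) = _ := dg_enc h (show n < l.length by omega)
      have hm : l[n]'(by omega) ∈ l := List.getElem_mem _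
      rw [e, h1, List.getD_eq_getElem _ _ (by omega), ih (by omega)]
      unfold gsm
      rw [List.take_add_one, List.getElem?_eq_getElem (by omega), List.map_append,
        List.sum_append]
      simp only [Option.toList_some, List.map_cons, List.map_nil, List.sum_cons, List.sum_nil,
        Nat.add_zero]
      unfold Prm.gw
      rw [hsm _ hm, hlm _ hm]
  rw [key _ le_rfl, List.take_length]

section sound

variable {D : Type*} {cmp : Nat → Nat → Bool} {sol lng : Nat → Bool} {S : Sys D} {Q : Prm}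

/-- The hypotheses on the tables. -/
structure Hyp (cmp : Nat → Nat → Bool) (sol lng : Nat → Bool) (S : Sys D) (Q : Prm) : Prop where
  ok : S.Ok cmp sol
  cm : ∀ x y, cmp x y = true → Q.cmd (x + 1) (y + 1) = true
  sm : ∀ e, ∀ x ∈ S.W e, tb Q.sm (x + 1) = sol x
  lm : ∀ e, ∀ x ∈ S.W e, tb Q.lm (x + 1) = lng x
  smt : ∀ x, tb Q.sm (x + 1) = true → sol x = true
  sm0 : tb Q.sm 0 = false
  pf : ∀ r, S.W r ≠ [] → S.W (S.al r) ≠ [] → Q.pf (S.c r) (S.c (S.al r)) = false
  nu : Q.nu ≤ 2 * Q.den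
  pos : ∀ e, S.W e ≠ [] → Q.PosOk (S.c e) (S.c (S.al e))

/-- contribution of a dart -/
def Prm.ga (Q : Prm) (S : Sys D) (x : D) : Int := Q.gi (S.c x) (S.c (S.al x))

theorem ga_le (x : D) : Q.ga S x + 2 * Q.den ≤ Q.G (S.c x) (S.c (S.al x)) := by
  unfold Prm.G Prm.ga
  exact Int.self_le_toNat _

theorem nz_nb {e : D} {i : Nat} : nz (S.nb e i) = S.nc e i := rfl

theorem pss_ok' (hy : Hyp cmp sol lng S Q) {e : D} (he : S.W e ≠ []) :
    ∀ (ord : List Nat), (srts (Q.pss (S.c e) ord) = true) →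
      ∀ p ∈ Q.pss (S.c e) ord,
        POk (S.nc e) (fun i => Q.G (S.c (S.nx^[i] e)) (S.nb e i)) p
  | [], _, p, hp => by simp [Prm.pss] at hp
  | i :: ord, hs, p, hp => by
    have e1 : Q.pss (S.c e) (i :: ord) = Q.pos (rot (S.c e) i) i :: Q.pss (S.c e) ord := rfl
    rw [e1] at hs hp
    have e2 : srts (Q.pos (rot (S.c e) i) i :: Q.pss (S.c e) ord) =
      (bif srt (Q.pos (rot (S.c e) i) i).cl then srts (Q.pss (S.c e) ord) else false) := rfl
    rw [e2, cond_true_iff] at hs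
    rcases List.mem_cons.1 hp with rfl | hp
    · refine ⟨srt_Srt hs.1, ?_⟩
      rw [Prm.pos_i]
      have h1 := hy.pos _ (hy.ok.ne_iter he i)
      unfold Prm.PosOk at h1
      have h2 : S.c (S.nx^[i] e) = rot (S.c e) i := (rot_c hy.ok he i).symm
      rw [Prm.pos_df, Prm.pos_cl]
      show Q.G (S.c (S.nx^[i] e)) (S.nb e i) ≤ _ ∨ ∃ g, (g, S.nc e i) ∈ _ ∧
        Q.G (S.c (S.nx^[i] e)) (S.nb e i) ≤ g
      rw [h2] at h1 ⊢
      exact h1
    · exact pss_ok' hy he ord hs.2 p hp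

theorem pss_sum' (c : Nat) (G : Nat → Nat) : ∀ ord : List Nat,
    ((Q.pss c ord).map fun p => G p.i).sum = (ord.map G).sum
  | [] => rfl
  | i :: ord => by
    have e1 : Q.pss c (i :: ord) = Q.pos (rot c i) i :: Q.pss c ord := rfl
    rw [e1, List.map_cons, List.map_cons, List.sum_cons, List.sum_cons, pss_sum' c G ord,
      Prm.pos_i]

theorem chkn_sound (hy : Hyp cmp sol lng S Q) {C : Cen} (hC : Q.chk C = true) {e : D}
    (he : S.W e ≠ []) (hc : S.c e = C.c) (hN : Nr sol S e)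
    (hP : ∀ P ∈ C.pats, ¬ ∀ q ∈ P, mt Q.sm (S.nc e q.1) q.2 = true) :
    ∑ i ∈ range (S.W e).length, Q.G (S.c (S.nx^[i] e)) (S.nb e i) ≤ Q.thr C.c := by
  have h4 := hy.ok.len e he
  have hd : dgn C.c = (S.W e).length := by
    rw [← hc]; exact dgn_enc (hy.ok.sm e) h4.1 h4.2
  unfold Prm.chk at hC
  rw [cond_true_iff, cond_true_iff] at hC
  obtain ⟨c1, c2, c3⟩ := hC
  dsimp only at c3
  rw [cond_true_iff] at c3
  obtain ⟨c3, c4⟩ := c3
  rw [hd] at c1 c4
  have hperm := okOrd_perm c1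
  have hP0 : ∀ P ∈ C.pats, (∀ q ∈ P, q.2 ≠ 0) ∧ ¬ ∀ q ∈ P, mt Q.sm (S.nc e q.1) q.2 = true := by
    intro P hPm
    refine ⟨fun q hq h0 => ?_, hP P hPm⟩
    unfold pos0 at c2
    have := List.all_eq_true.1 (List.all_eq_true.1 c2 P hPm) q hq
    rw [h0] at this
    simp at this
  have hcf := cfn_sound (cmd := Q.cmd) (pf := Q.pf) (sm := Q.sm) hy.ok hy.cm hy.smt hy.sm0 hy.pf
    (hy.sm e) hN he hP0
  rw [← hc] at c3 c4
  have h1 := go_sound (nb := S.nc e) (G := fun i => Q.G (S.c (S.nx^[i] e)) (S.nb e i)) _ hcf _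
    (pss_ok' hy he C.ord c3) [] (fun q hq => by simp at hq) 0 c4
  rw [Nat.zero_add, pss_sum' (S.c e) (fun i => Q.G (S.c (S.nx^[i] e)) (S.nb e i)),
    (hperm.map _).sum_eq, sum_range_list] at h1
  rw [← hc]
  exact h1

/-- the charge of a star -/
def chw (sol lng : Nat → Bool) (S : Sys D) (Q : Prm) (e : D) : Int :=
  12 * Q.den - 2 * (S.W e).length * Q.den - gsm sol lng Q (S.W e) +
    ∑ i ∈ range (S.W e).length, Q.ga S (S.nx^[i] e)

theorem gsm_rotate (l : List Nat) (k : Nat) : gsm sol lng Q (l.rotate k) = gsm sol lng Q l :=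
  ((List.rotate_perm l k).map _).sum_eq

theorem chw_nx (hS : S.Ok cmp sol) {e : D} (he : S.W e ≠ []) :
    chw sol lng S Q (S.nx e) = chw sol lng S Q e := by
  have h1 : gsm sol lng Q (S.W (S.nx e)) = gsm sol lng Q (S.W e) := by
    rw [hS.rot e he, gsm_rotate]
  have h0 : (S.W (S.nx e)).length = (S.W e).length := by rw [hS.rot e he, List.length_rotate]
  have h2 : ∑ i ∈ range (S.W e).length, Q.ga S (S.nx^[i] (S.nx e)) =
      ∑ i ∈ range (S.W e).length, Q.ga S (S.nx^[i] e) := by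
    have e1 := sum_range_succ (fun i => Q.ga S (S.nx^[i] e)) (S.W e).length
    have e2 := sum_range_succ' (fun i => Q.ga S (S.nx^[i] e)) (S.W e).length
    rw [hS.per e he] at e1
    have e3 : ∀ i, S.nx^[i] (S.nx e) = S.nx^[i + 1] e := fun i => rfl
    simp only [e3]
    have e4 : S.nx^[0] e = e := rfl
    rw [e4] at e2
    omega
  unfold chw
  rw [h1, h0, h2]

theorem chw_iter (hS : S.Ok cmp sol) {e : D} (he : S.W e ≠ []) (k : Nat) :
    chw sol lng S Q (S.nx^[k] e) = chw sol lng S Q e := by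
  induction k with
  | zero => rfl
  | succ k ih => rw [Function.iterate_succ_apply', chw_nx hS (hS.ne_iter he k), ih]

theorem thrn_eq (hy : Hyp cmp sol lng S Q) {e : D} (he : S.W e ≠ []) :
    (Q.thr (S.c e) : Int) =
      4 * (S.W e).length * Q.den + gsm sol lng Q (S.W e) - 12 * Q.den := by
  have h4 := hy.ok.len e he
  have hd : dgn (S.c e) = (S.W e).length := dgn_enc (hy.ok.sm e) h4.1 h4.2
  have hg : Q.gws (S.c e) (S.W e).length = gsm sol lng Q (S.W e) :=
    gws_eq (hy.ok.sm e) (hy.sm e) (hy.lm e)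
  show ((4 * dgn (S.c e) * Q.den + Q.gws (S.c e) (dgn (S.c e)) - 12 * Q.den : Nat) : Int) = _
  rw [hd, hg]
  have : 12 * Q.den ≤ 4 * (S.W e).length * Q.den + gsm sol lng Q (S.W e) := by
    have : 12 * Q.den ≤ 4 * (S.W e).length * Q.den := Nat.mul_le_mul_right _ (by omega)
    omega
  push_cast [Nat.cast_sub this]
  ring

/-- from the sums of the gains to the charge -/
theorem chw_le (hy : Hyp cmp sol lng S Q) {e : D} (he : S.W e ≠ [])
    (h1 : ∑ i ∈ range (S.W e).length, Q.G (S.c (S.nx^[i] e)) (S.nb e i) ≤ Q.thr (S.c e)) :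
    chw sol lng S Q e ≤ 0 := by
  have key : ∑ i ∈ range (S.W e).length, Q.ga S (S.nx^[i] e) + 2 * Q.den * (S.W e).length ≤
      ((∑ i ∈ range (S.W e).length, Q.G (S.c (S.nx^[i] e)) (S.nb e i) : Nat) : Int) := by
    rw [Nat.cast_sum]
    have h3 : ∑ i ∈ range (S.W e).length, (Q.ga S (S.nx^[i] e) + 2 * Q.den) ≤
      ∑ i ∈ range (S.W e).length, ((Q.G (S.c (S.nx^[i] e)) (S.nb e i) : Nat) : Int) :=
      sum_le_sum fun i _ => ga_le (S.nx^[i] e)
    rw [sum_add_distrib, sum_const, card_range, nsmul_eq_mul] at h3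
    have e1 : ((S.W e).length : Int) * (2 * (Q.den : Int)) = 2 * Q.den * (S.W e).length := by ring
    rw [e1] at h3
    exact h3
  have h3 : ((∑ i ∈ range (S.W e).length, Q.G (S.c (S.nx^[i] e)) (S.nb e i) : Nat) : Int) ≤
      Q.thr (S.c e) := by exact_mod_cast h1
  rw [thrn_eq hy he] at h3
  unfold chw
  have e2 : 2 * (Q.den : Int) * (S.W e).length = 2 * (S.W e).length * Q.den := by ring
  rw [e2] at key
  have e3 : 4 * ((S.W e).length : Int) * Q.den = 2 * (2 * (S.W e).length * Q.den) := by ring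
  rw [e3] at h3
  linarith

/-- checked centres -/
theorem chw_chk (hy : Hyp cmp sol lng S Q) {C : Cen} (hC : Q.chk C = true) {e : D}
    (he : S.W e ≠ []) (hc : S.c e = C.c) (hN : Nr sol S e)
    (hP : ∀ P ∈ C.pats, ¬ ∀ q ∈ P, mt Q.sm (S.nc e q.1) q.2 = true) :
    chw sol lng S Q e ≤ 0 := by
  have h1 := chkn_sound hy hC he hc hN hP
  rw [← hc] at h1
  exact chw_le hy he h1

/-- no flows and charge at most 0 -/
def Prm.trv (Q : Prm) (c : Nat) : Bool :=
  bif Nat.ble (Nat.mul 12 Q.den) (Nat.add (Nat.mul (Nat.mul 2 (dgn c)) Q.den) (Q.gws c (dgn c))) then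
    alln (dgn c) fun i => bif (Q.T.get (rot c i)).isEmpty then (Q.SG.get (rot c i)).isEmpty
      else false else false

theorem chw_trv (hy : Hyp cmp sol lng S Q) {e : D} (he : S.W e ≠ [])
    (h : Q.trv (S.c e) = true) : chw sol lng S Q e ≤ 0 := by
  have h4 := hy.ok.len e he
  have hd : dgn (S.c e) = (S.W e).length := dgn_enc (hy.ok.sm e) h4.1 h4.2
  have hg : Q.gws (S.c e) (S.W e).length = gsm sol lng Q (S.W e) :=
    gws_eq (hy.ok.sm e) (hy.sm e) (hy.lm e)
  unfold Prm.trv at h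
  rw [cond_true_iff, hd, hg] at h
  obtain ⟨h0, h1⟩ := h
  have h0 : 12 * Q.den ≤ 2 * (S.W e).length * Q.den + gsm sol lng Q (S.W e) :=
    Nat.le_of_ble_eq_true h0
  have hG : ∀ i < (S.W e).length, Q.G (S.c (S.nx^[i] e)) (S.nb e i) ≤ 2 * Q.den := by
    intro i hi
    have h2 := alln_iff.1 h1 i hi
    rw [cond_true_iff, rot_c hy.ok he i] at h2
    have h3 := hy.pos _ (hy.ok.ne_iter he i)
    have e1 : Q.SG.get (S.c (S.nx^[i] e)) = [] := List.isEmpty_iff.1 h2.2
    have e2 : Q.T.get (S.c (S.nx^[i] e)) = [] := List.isEmpty_iff.1 h2.1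
    unfold Prm.PosOk Prm.pos at h3
    rw [e1, e2] at h3
    rcases h3 with h3 | ⟨g, h3, _⟩
    · exact h3
    · simp at h3
  apply chw_le hy he
  have hs : ∑ i ∈ range (S.W e).length, Q.G (S.c (S.nx^[i] e)) (S.nb e i) ≤
      (S.W e).length * (2 * Q.den) := by
    have := sum_le_sum (s := range (S.W e).length) (fun i hi => hG i (mem_range.1 hi))
    rw [sum_const, card_range, smul_eq_mul] at this
    exact this
  refine le_trans hs ?_
  have h5 := thrn_eq hy he
  zify
  rw [h5]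
  have h6 : (12 * Q.den : Int) ≤ 2 * (S.W e).length * Q.den + gsm sol lng Q (S.W e) := by
    exact_mod_cast h0
  nlinarith

/-- The star inequality for all darts. -/
theorem chw_all (hy : Hyp cmp sol lng S Q) (cens : List Cen)
    (hchk : ∀ C ∈ cens, Q.chk C = true)
    (hP : ∀ C ∈ cens, ∀ P ∈ C.pats, ∀ e, S.c e = C.c → ¬ ∀ q ∈ P, mt Q.sm (S.nc e q.1) q.2 = true)
    (hcov : ∀ e, S.W e ≠ [] → (∃ i, ∃ C ∈ cens, S.c (S.nx^[i] e) = C.c) ∨
      Q.trv (S.c e) = true) {e : D} (he : S.W e ≠ [])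
    (hN : ∀ i, Nr sol S (S.nx^[i] e)) : chw sol lng S Q e ≤ 0 := by
  rcases hcov e he with ⟨i, C, hC, hc⟩ | h
  · rw [← chw_iter hy.ok he i]
    exact chw_chk hy (hchk C hC) (hy.ok.ne_iter he i) hc (hN i) fun P hPm => hP C hC P hPm _ hc
  · exact chw_trv hy he h

end sound

end

end Pool.FCS
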