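import Pool.Agent.FCS.Core
import Mathlib.Data.List.Rotate
import Mathlib.Data.List.GetD

/-!
# Star check: words as numbers

A word (list of letters `< 31`, length 4, 5 or 6) is coded with the digits `letter + 1` in base 32.
-/

namespace Pool.FCS

/-- The code of a word. -/
def enc : List Nat → Nat
  | [] => 0
  | x :: l => (x + 1) + 32 * enc l

@[simp] theorem enc_nil : enc [] = 0 := rfl
theorem enc_cons (x : Nat) (l : List Nat) : enc (x :: l) = (x + 1) + 32 * enc l := rfl

theorem enc_append (l : List Nat) (m : List Nat) : enc (l ++ m) = enc l + 32 ^ l.length * enc m := by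
  induction l with
  | nil => simp
  | cons x l ih => rw [List.cons_append, enc_cons, ih, enc_cons, List.length_cons]; ring

theorem enc_single (x : Nat) : enc [x] = x + 1 := by simp [enc]

theorem enc_snoc (l : List Nat) (x : Nat) : enc (l ++ [x]) = enc l + 32 ^ l.length * (x + 1) := by
  rw [enc_append, enc_single]

/-- All letters are small. -/
def Sm (l : List Nat) : Prop := ∀ x ∈ l, x < 31

theorem enc_lt : ∀ {l : List Nat}, Sm l → enc l < 32 ^ l.length
  | [], _ => by simp
  | x :: l, h => by
    have h1 := enc_lt (l := l) (fun y hy => h y (List.mem_cons_of_mem _ hy))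
    have h2 := h x (List.mem_cons_self ..)
    rw [enc_cons, List.length_cons, pow_succ]
    omega

theorem le_enc : ∀ {l : List Nat}, l ≠ [] → 32 ^ (l.length - 1) ≤ enc l
  | [], h => absurd rfl h
  | [x], _ => by simp [enc]
  | x :: y :: l, _ => by
    have h1 := le_enc (l := y :: l) (by simp)
    rw [enc_cons]
    simp only [List.length_cons, Nat.add_sub_cancel] at h1 ⊢
    rw [pow_succ]
    omega

theorem enc_inj : ∀ {l m : List Nat}, Sm l → Sm m → enc l = enc m → l = m
  | [], [], _, _, _ => rfl
  | [], y :: m, _, _, h => by rw [enc_cons] at h; simp only [enc_nil] at h; omega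
  | x :: l, [], _, _, h => by rw [enc_cons] at h; simp only [enc_nil] at h; omega
  | x :: l, y :: m, hl, hm, h => by
    rw [enc_cons, enc_cons] at h
    have hx := hl x (List.mem_cons_self ..)
    have hy := hm y (List.mem_cons_self ..)
    have h1 : x = y := by omega
    subst h1
    rw [enc_inj (fun z hz => hl z (List.mem_cons_of_mem _ hz))
      (fun z hz => hm z (List.mem_cons_of_mem _ hz)) (by omega : enc l = enc m)]

theorem Sm.rotate {l : List Nat} (h : Sm l) (n : Nat) : Sm (l.rotate n) := fun x hx =>
  h x (List.mem_rotate.1 hx)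

/-- `32 ^ (length - 1)` -/
def pw (c : Nat) : Nat :=
  bif Nat.ble 33554432 c then 33554432 else bif Nat.ble 1048576 c then 1048576 else 32768

theorem pw_enc {l : List Nat} (h : Sm l) (h4 : 4 ≤ l.length) (h6 : l.length ≤ 6) :
    pw (enc l) = 32 ^ (l.length - 1) := by
  have h1 := enc_lt h
  have h2 := le_enc (l := l) (by rintro rfl; simp at h4)
  have hl : l.length = 4 ∨ l.length = 5 ∨ l.length = 6 := by omega
  unfold pw
  rcases hl with hl | hl | hl
  · rw [hl] at h1 h2 ⊢
    norm_num at h1 h2 ⊢
    have a1 : Nat.ble 33554432 (enc l) = false := by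
      rw [← Bool.not_eq_true, Nat.ble_eq]; omega
    have a2 : Nat.ble 1048576 (enc l) = false := by
      rw [← Bool.not_eq_true, Nat.ble_eq]; omega
    rw [a1, a2]; rfl
  · rw [hl] at h1 h2 ⊢
    norm_num at h1 h2 ⊢
    have a1 : Nat.ble 33554432 (enc l) = false := by
      rw [← Bool.not_eq_true, Nat.ble_eq]; omega
    have a2 : Nat.ble 1048576 (enc l) = true := by rw [Nat.ble_eq]; omega
    rw [a1, a2]; rfl
  · rw [hl] at h1 h2 ⊢
    norm_num at h1 h2 ⊢
    have a1 : Nat.ble 33554432 (enc l) = true := by rw [Nat.ble_eq]; omega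
    rw [a1]; rfl

/-- rotation to the left -/
def rlc (c : Nat) : Nat := Nat.add (Nat.div c 32) (Nat.mul (Nat.mod c 32) (pw c))

/-- rotation to the right -/
def rrc (c : Nat) : Nat := Nat.add (Nat.mul (Nat.mod c (pw c)) 32) (Nat.div c (pw c))

theorem rlc_enc {l : List Nat} (h : Sm l) (h4 : 4 ≤ l.length) (h6 : l.length ≤ 6) :
    rlc (enc l) = enc (l.rotate 1) := by
  show enc l / 32 + enc l % 32 * pw (enc l) = _
  rw [pw_enc h h4 h6]
  match l, h4 with
  | x :: l, _ =>
    have hx := h x (List.mem_cons_self ..)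
    rw [List.rotate_cons_succ, List.rotate_zero, enc_snoc, enc_cons, List.length_cons,
      Nat.add_sub_cancel]
    have h1 : (x + 1 + 32 * enc l) / 32 = enc l := by omega
    have h2 : (x + 1 + 32 * enc l) % 32 = x + 1 := by omega
    rw [h1, h2]; ring

theorem rrc_enc {l : List Nat} (h : Sm l) (h4 : 4 ≤ l.length) (h6 : l.length ≤ 6) :
    rrc (enc (l.rotate 1)) = enc l := by
  have h1 : pw (enc (l.rotate 1)) = 32 ^ (l.length - 1) := by
    rw [pw_enc (h.rotate 1) (by rw [List.length_rotate]; exact h4)
      (by rw [List.length_rotate]; exact h6), List.length_rotate]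
  show enc (l.rotate 1) % pw (enc (l.rotate 1)) * 32 +
    enc (l.rotate 1) / pw (enc (l.rotate 1)) = enc l
  rw [h1]
  match l, h4 with
  | x :: l, _ =>
    have hl : enc l < 32 ^ l.length := enc_lt (fun z hz => h z (List.mem_cons_of_mem _ hz))
    rw [List.rotate_cons_succ, List.rotate_zero, enc_snoc, enc_cons, List.length_cons,
      Nat.add_sub_cancel]
    have hp : 0 < 32 ^ l.length := by positivity
    have h2 : (enc l + 32 ^ l.length * (x + 1)) % 32 ^ l.length = enc l := by
      rw [Nat.add_mul_mod_self_left, Nat.mod_eq_of_lt hl]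
    have h3 : (enc l + 32 ^ l.length * (x + 1)) / 32 ^ l.length = x + 1 := by
      rw [Nat.add_mul_div_left _ _ hp, Nat.div_eq_of_lt hl, Nat.zero_add]
    rw [h2, h3]; ring

/-- The `k`-th digit. -/
def dg (p c : Nat) : Nat := Nat.mod (Nat.div c p) 32

theorem dg_enc : ∀ {l : List Nat}, Sm l → ∀ {k : Nat}, k < l.length →
    dg (32 ^ k) (enc l) = l.getD k 0 + 1
  | [], _, k, hk => by simp at hk
  | x :: l, h, 0, _ => by
    have hx := h x (List.mem_cons_self ..)
    show enc (x :: l) / 32 ^ 0 % 32 = _
    rw [enc_cons]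
    simp only [pow_zero, Nat.div_one, List.getD_cons_zero]
    omega
  | x :: l, h, k + 1, hk => by
    have ih := dg_enc (l := l) (fun z hz => h z (List.mem_cons_of_mem _ hz)) (k := k)
      (by simpa using hk)
    have hx := h x (List.mem_cons_self ..)
    show enc (x :: l) / 32 ^ (k + 1) % 32 = _
    have h1 : enc (x :: l) / 32 ^ (k + 1) = enc l / 32 ^ k := by
      rw [enc_cons, pow_succ', ← Nat.div_div_eq_div_mul]
      congr 1
      omega
    rw [h1, List.getD_cons_succ]
    exact ih

end Pool.FCS
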