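import Mathlib.Data.List.Basic
import Mathlib.Tactic.Ring
import Mathlib.Tactic.Linarith

/-!
# Star check: the branch and bound search

`go` proves `s + ∑ G p.i ≤ thr` over the positions `p` of a list, where the neighbour of each
position is either a listed candidate `(g, b)` with gain at most `g`, or anything with gain at
most `p.df`; `cf i b asg` says that the candidate `b` at the position `i` is impossible together
with the assignment `asg` of the other positions.
-/

namespace Pool.FCS

/-- A position: index, candidates (gain, code) with decreasing gains, default gain. -/
structure Pos where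
  i : Nat
  cl : List (Nat × Nat)
  df : Nat

/-- First candidate which is not excluded. -/
def ub (cf : Nat → Nat → List (Nat × Nat) → Bool) (i df : Nat) (asg : List (Nat × Nat)) (cl : List (Nat × Nat)) : Nat :=
  List.rec (motive := fun _ => Nat) df
    (fun c _ ih => bif Nat.ble c.1 df then df else bif cf i c.2 asg then ih else c.1) cl

/-- Sum of the upper bounds. -/
def ubs (cf : Nat → Nat → List (Nat × Nat) → Bool) (asg : List (Nat × Nat)) (ps : List Pos) : Nat :=
  List.rec (motive := fun _ => Nat) 0 (fun p _ ih => ub cf p.i p.df asg p.cl + ih) ps

/-- The search. -/
def go (cf : Nat → Nat → List (Nat × Nat) → Bool) (thr : Nat) (ps : List Pos) :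
    List (Nat × Nat) → Nat → Bool :=
  List.rec (motive := fun _ => List (Nat × Nat) → Nat → Bool)
    (fun _ s => Nat.ble s thr)
    (fun p ps ih asg s =>
      (fun r : Nat =>
        bif Nat.ble (s + (ub cf p.i p.df asg p.cl + r)) thr then true else
          bif (bif Nat.ble (s + (p.df + r)) thr then true else ih asg (s + p.df)) then
            List.rec (motive := fun _ => Bool) true
              (fun c _ jh =>
                bif Nat.ble (s + (c.1 + r)) thr then jh else
                  bif cf p.i c.2 asg then jh else
                    bif ih ((p.i, c.2) :: asg) (s + c.1) then jh else false) p.cl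
          else false) (ubs cf asg ps)) ps

/-- Decreasing gains. -/
def srt (cl : List (Nat × Nat)) : Bool :=
  List.rec (motive := fun _ => Nat → Bool) (fun _ => true)
    (fun c _ ih m => bif Nat.ble c.1 m then ih c.1 else false) cl (2 ^ 64)

section sound
variable {cf : Nat → Nat → List (Nat × Nat) → Bool} {nb G : Nat → Nat}

/-- sorted below `m`. -/
def Srt : Nat → List (Nat × Nat) → Prop
  | _, [] => True
  | m, c :: l => c.1 ≤ m ∧ Srt c.1 l

theorem Srt.mono {m m' : Nat} (h : m ≤ m') : ∀ {l : List (Nat × Nat)}, Srt m l → Srt m' l
  | [], _ => trivial
  | _ :: _, h' => ⟨le_trans h'.1 h, h'.2⟩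

theorem Srt.le {m : Nat} : ∀ {l : List (Nat × Nat)}, Srt m l → ∀ {c}, c ∈ l → c.1 ≤ m
  | [], _, c, hc => by simp at hc
  | a :: l, h, c, hc => by
    rcases List.mem_cons.1 hc with rfl | hc
    · exact h.1
    · exact le_trans (Srt.le h.2 hc) h.1

theorem srt_aux : ∀ (l : List (Nat × Nat)) (m : Nat),
    List.rec (motive := fun _ => Nat → Bool) (fun _ => true)
      (fun (c : Nat × Nat) _ ih m => bif Nat.ble c.1 m then ih c.1 else false) l m = true → Srt m l
  | [], _, _ => trivial
  | c :: l, m, h => by
    dsimp only at h
    cases hb : Nat.ble c.1 m with
    | false => rw [hb] at h; simp at h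
    | true =>
      rw [hb] at h
      exact ⟨Nat.le_of_ble_eq_true hb, srt_aux l c.1 h⟩

theorem srt_Srt {l : List (Nat × Nat)} (h : srt l = true) : Srt (2 ^ 64) l := srt_aux l _ h

/-- The assignment agrees with the neighbours. -/
def Agr (nb : Nat → Nat) (asg : List (Nat × Nat)) : Prop := ∀ q ∈ asg, nb q.1 = q.2

theorem ub_le (i df : Nat) (asg : List (Nat × Nat)) (hc : ∀ b, cf i b asg = true → nb i ≠ b)
    (g : Nat) : ∀ (cl : List (Nat × Nat)) (m : Nat), Srt m cl → (g, nb i) ∈ cl →
      g ≤ ub cf i df asg cl
  | [], _, _, h => by simp at h
  | c :: l, m, hs, h => by
    show g ≤ (bif Nat.ble c.1 df then df else bif cf i c.2 asg then ub cf i df asg l else c.1)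
    have hg : g ≤ c.1 := by
      rcases List.mem_cons.1 h with h | h
      · rw [← h]
      · exact Srt.le hs.2 h
    cases hb : Nat.ble c.1 df with
    | true => exact le_trans hg (Nat.le_of_ble_eq_true hb)
    | false =>
      cases hf : cf i c.2 asg with
      | false => exact hg
      | true =>
        show g ≤ ub cf i df asg l
        rcases List.mem_cons.1 h with h | h
        · exact absurd (by rw [← h]) (hc c.2 hf)
        · exact ub_le i df asg hc g l c.1 hs.2 h

theorem df_le_ub (i df : Nat) (asg : List (Nat × Nat)) : ∀ (cl : List (Nat × Nat)),
    df ≤ ub cf i df asg cl
  | [] => le_refl _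
  | c :: l => by
    show df ≤ (bif Nat.ble c.1 df then df else bif cf i c.2 asg then ub cf i df asg l else c.1)
    cases hb : Nat.ble c.1 df with
    | true => exact le_refl _
    | false =>
      have : df ≤ c.1 := by
        have := Nat.not_le_of_not_ble_eq_true (by rw [hb]; simp : ¬ Nat.ble c.1 df = true)
        omega
      cases hf : cf i c.2 asg with
      | false => exact this
      | true => exact df_le_ub i df asg l

/-- The position `p` is described correctly. -/
def POk (nb G : Nat → Nat) (p : Pos) : Prop :=
  Srt (2 ^ 64) p.cl ∧ (G p.i ≤ p.df ∨ ∃ g, (g, nb p.i) ∈ p.cl ∧ G p.i ≤ g)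

theorem POk.le {p : Pos} (h : POk nb G p) (asg : List (Nat × Nat))
    (hc : ∀ b, cf p.i b asg = true → nb p.i ≠ b) : G p.i ≤ ub cf p.i p.df asg p.cl := by
  rcases h.2 with h' | ⟨g, hg, h'⟩
  · exact le_trans h' (df_le_ub _ _ _ _)
  · exact le_trans h' (ub_le _ _ _ hc g _ _ h.1 hg)

theorem ubs_le (asg : List (Nat × Nat)) : ∀ (ps : List Pos), (∀ p ∈ ps, POk nb G p) →
    (∀ i b, cf i b asg = true → nb i ≠ b) → (ps.map fun p => G p.i).sum ≤ ubs cf asg ps
  | [], _, _ => le_refl _
  | p :: ps, h, hc => by
    have h1 := (h p (List.mem_cons_self ..)).le asg (hc p.i)
    have h2 := ubs_le asg ps (fun q hq => h q (List.mem_cons_of_mem _ hq)) hc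
    show _ ≤ ub cf p.i p.df asg p.cl + ubs cf asg ps
    simp only [List.map_cons, List.sum_cons]
    omega

theorem go_sound (thr : Nat)
    (hcf : ∀ asg, Agr nb asg → ∀ i b, cf i b asg = true → nb i ≠ b) :
    ∀ (ps : List Pos), (∀ p ∈ ps, POk nb G p) → ∀ (asg : List (Nat × Nat)), Agr nb asg →
      ∀ s, go cf thr ps asg s = true → s + (ps.map fun p => G p.i).sum ≤ thr
  | [], _, asg, _, s, h => by
    have : Nat.ble s thr = true := h
    simpa using Nat.le_of_ble_eq_true this
  | p :: ps, hp, asg, ha, s, h => by
    have hp0 := hp p (List.mem_cons_self ..)
    have hps := fun q hq => hp q (List.mem_cons_of_mem p hq)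
    have hr := ubs_le asg ps hps (hcf asg ha)
    have hc0 := hcf asg ha p.i
    have ih := go_sound thr hcf ps hps
    replace h : (bif Nat.ble (s + (ub cf p.i p.df asg p.cl + ubs cf asg ps)) thr then true else
          bif (bif Nat.ble (s + (p.df + ubs cf asg ps)) thr then true else go cf thr ps asg (s + p.df)) then
            List.rec (motive := fun _ => Bool) true
              (fun (c : Nat × Nat) _ jh =>
                bif Nat.ble (s + (c.1 + ubs cf asg ps)) thr then jh else
                  bif cf p.i c.2 asg then jh else
                    bif go cf thr ps ((p.i, c.2) :: asg) (s + c.1) then jh else false) p.cl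
          else false) = true := h
    simp only [List.map_cons, List.sum_cons]
    generalize ubs cf asg ps = r at *
    cases hb : Nat.ble (s + (ub cf p.i p.df asg p.cl + r)) thr with
    | true =>
      have h1 := Nat.le_of_ble_eq_true hb
      have h2 := hp0.le asg hc0
      omega
    | false =>
      rw [hb] at h
      dsimp only [cond_false] at h
      cases hd : (bif Nat.ble (s + (p.df + r)) thr then true else go cf thr ps asg (s + p.df)) with
      | false => rw [hd] at h; simp at h
      | true =>
        rw [hd] at h
        dsimp only [cond_true] at h
        rcases hp0.2 with h' | ⟨g, hg, h'⟩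
        · cases hb2 : Nat.ble (s + (p.df + r)) thr with
          | true => have := Nat.le_of_ble_eq_true hb2; omega
          | false =>
            rw [hb2] at hd
            have := ih asg ha (s + p.df) hd
            omega
        · have key : ∀ cl : List (Nat × Nat), (g, nb p.i) ∈ cl →
              List.rec (motive := fun _ => Bool) true
              (fun (c : Nat × Nat) _ jh =>
                bif Nat.ble (s + (c.1 + r)) thr then jh else
                  bif cf p.i c.2 asg then jh else
                    bif go cf thr ps ((p.i, c.2) :: asg) (s + c.1) then jh else false) cl = true →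
              s + (G p.i + (ps.map fun q => G q.i).sum) ≤ thr := by
            intro cl
            induction cl with
            | nil => intro h; simp at h
            | cons c l jh =>
              intro hm hh
              dsimp only at hh
              rcases List.mem_cons.1 hm with hm | hm
              · subst hm
                cases hb3 : Nat.ble (s + (g + r)) thr with
                | true => have := Nat.le_of_ble_eq_true hb3; omega
                | false =>
                  rw [hb3] at hh
                  dsimp only [cond_false] at hh
                  cases hf : cf p.i (nb p.i) asg with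
                  | true => exact absurd rfl (hc0 _ hf)
                  | false =>
                    rw [hf] at hh
                    dsimp only [cond_false] at hh
                    cases hgo : go cf thr ps ((p.i, nb p.i) :: asg) (s + g) with
                    | false => rw [hgo] at hh; simp at hh
                    | true =>
                      have ha' : Agr nb ((p.i, nb p.i) :: asg) := by
                        intro q hq
                        rcases List.mem_cons.1 hq with rfl | hq
                        · rfl
                        · exact ha q hq
                      have := ih _ ha' (s + g) hgo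
                      omega
              · apply jh hm
                revert hh
                cases Nat.ble (s + (c.1 + r)) thr with
                | true => intro hh; exact hh
                | false =>
                  cases cf p.i c.2 asg with
                  | true => intro hh; exact hh
                  | false =>
                    cases go cf thr ps ((p.i, c.2) :: asg) (s + c.1) with
                    | true => intro hh; exact hh
                    | false => intro hh; simp at hh
          exact key p.cl hg h

end sound

end Pool.FCS
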