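import Pool.Agent.FCS.Cn

/-!
# Star check: the lists of candidates are complete
-/

namespace Pool.FCS

noncomputable section

/-- shifted gain of a neighbour which is not null -/
def Prm.Gn (Q : Prm) (a b : Nat) : Nat :=
  Nat.sub (Nat.add (Nat.mul 2 (Q.fl b a)) (Nat.mul 2 Q.den)) (Nat.mul 2 (Q.fl a b))

theorem Prm.G_eq (Q : Prm) (a : Nat) {b : Nat} (hb : b ≠ 0) : Q.G a b = Q.Gn a b := by
  unfold Prm.G Prm.gi
  rw [if_neg hb]
  show _ = 2 * Q.fl b a + 2 * Q.den - 2 * Q.fl a b
  omega

theorem Prm.G_null (Q : Prm) (a : Nat) (h : Q.nu ≤ 2 * Q.den) : Q.G a 0 = 2 * Q.den - Q.nu := by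
  unfold Prm.G Prm.gi
  rw [if_pos rfl]
  omega

/-- `b` is listed with a gain at least `g` -/
def lst (g b : Nat) (cl : List (Nat × Nat)) : Bool :=
  List.rec (motive := fun _ => Bool) false
    (fun q _ ih => bif Nat.beq q.2 b then Nat.ble g q.1 else ih) cl

theorem lst_sound {g b : Nat} : ∀ {cl : List (Nat × Nat)}, lst g b cl = true →
    ∃ g', (g', b) ∈ cl ∧ g ≤ g'
  | [], h => absurd h (by simp [lst])
  | q :: cl, h => by
    have e : lst g b (q :: cl) = (bif Nat.beq q.2 b then Nat.ble g q.1 else lst g b cl) := rfl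
    rw [e] at h
    cases hb : Nat.beq q.2 b with
    | true =>
      rw [hb] at h
      have := Nat.eq_of_beq_eq_true hb
      exact ⟨q.1, by rw [← this]; exact List.mem_cons_self .., Nat.le_of_ble_eq_true h⟩
    | false =>
      rw [hb] at h
      obtain ⟨g', h1, h2⟩ := lst_sound h
      exact ⟨g', List.mem_cons_of_mem _ h1, h2⟩

/-- the neighbour `b` is covered -/
def Prm.okb (Q : Prm) (a df : Nat) (cl : List (Nat × Nat)) (b : Nat) : Bool :=
  bif Q.pf a b then true else
    (fun g : Nat => bif Nat.ble g df then true else lst g b cl) (Q.Gn a b)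

/-- all elements -/
def allb (f : Nat → Bool) (l : List Nat) : Bool :=
  List.rec (motive := fun _ => Bool) true (fun x _ ih => bif f x then ih else false) l

theorem allb_sound {f : Nat → Bool} : ∀ {l : List Nat}, allb f l = true → ∀ x ∈ l, f x = true
  | [], _, x, hx => by simp at hx
  | y :: l, h, x, hx => by
    have e : allb f (y :: l) = (bif f y then allb f l else false) := rfl
    rw [e, cond_true_iff] at h
    rcases List.mem_cons.1 hx with rfl | hx
    · exact h.1
    · exact allb_sound h.2 x hx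

/-- the list of the candidates of the sender `a` is complete -/
def Prm.sok (Q : Prm) (WL : BT (List Nat)) (a : Nat) (L : List (Nat × Nat)) : Bool :=
  List.rec (motive := fun _ => Bool) true
    (fun q cl _ =>
      bif (bif Nat.ble (Nat.sub (Nat.mul 2 Q.den) Q.nu) q.1 then true else
        lst (Nat.sub (Nat.mul 2 Q.den) Q.nu) 1 cl) then
        (fun la fa : Nat =>
          alln 32 fun f => bif Q.cmd f la then
            alln 32 fun l => bif Q.cmd fa l then
              allb (Q.okb a q.1 cl) (WL.get (Nat.add (Nat.mul 32 f) l)) else true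
          else true) (Nat.div a (pw a)) (Nat.mod a 32)
      else false) L

/-- the key of a word -/
def wkey (c : Nat) : Nat := Nat.add (Nat.mul 32 (Nat.mod c 32)) (Nat.div c (pw c))

section sound

variable {D : Type*} {cmp : Nat → Nat → Bool} {sol lng : Nat → Bool} {S : Sys D} {Q : Prm}

theorem posOk_null (hnu : Q.nu ≤ 2 * Q.den) {a : Nat} {WL : BT (List Nat)}
    (hs : Q.sok WL a (Q.SG.get a) = true) : Q.PosOk a 0 := by
  unfold Prm.PosOk
  rw [Q.G_null a hnu]
  show _ ∨ ∃ g, (g, 1) ∈ _ ∧ _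
  unfold Prm.pos
  revert hs
  cases hSG : Q.SG.get a with
  | nil =>
    intro _
    left
    show 2 * Q.den - Q.nu ≤ 2 * Q.den
    omega
  | cons q cl =>
    intro hs
    have e : Q.sok WL a (q :: cl) =
      (bif (bif Nat.ble (Nat.sub (Nat.mul 2 Q.den) Q.nu) q.1 then true else
        lst (Nat.sub (Nat.mul 2 Q.den) Q.nu) 1 cl) then
        (alln 32 fun f => bif Q.cmd f (Nat.div a (pw a)) then
            alln 32 fun l => bif Q.cmd (Nat.mod a 32) l then
              allb (Q.okb a q.1 cl) (WL.get (Nat.add (Nat.mul 32 f) l)) else true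
          else true)
      else false) := rfl
    rw [e, cond_true_iff] at hs
    obtain ⟨h1, -⟩ := hs
    cases h2 : Nat.ble (Nat.sub (Nat.mul 2 Q.den) Q.nu) q.1 with
    | true => left; exact Nat.le_of_ble_eq_true h2
    | false =>
      rw [h2] at h1
      right
      exact lst_sound h1

theorem posOk_typed {a b : Nat} (hb : b ≠ 0) {WL : BT (List Nat)}
    (hs : Q.sok WL a (Q.SG.get a) = true)
    (h1 : Q.cmd (Nat.mod b 32) (Nat.div a (pw a)) = true)
    (h2 : Q.cmd (Nat.mod a 32) (Nat.div b (pw b)) = true)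
    (hb32 : Nat.div b (pw b) < 32)
    (hpf : Q.pf a b = false) (hW : b ∈ WL.get (wkey b)) : Q.PosOk a b := by
  have hnz : nz b = b := by
    unfold nz
    cases h : Nat.beq b 0 with
    | true => exact absurd (Nat.eq_of_beq_eq_true h) hb
    | false => rfl
  unfold Prm.PosOk
  rw [Q.G_eq a hb, hnz]
  unfold Prm.pos
  revert hs
  cases hSG : Q.SG.get a with
  | nil =>
    intro _
    show Q.Gn a b ≤ 2 * Q.den ∨ ∃ g, (g, b) ∈ Q.T.get a ∧ Q.Gn a b ≤ g
    have e : Q.Gn a b = 2 * (asc (Q.T.get a) b / 2 - Q.den) + 2 * Q.den - 2 * Q.fl a b := rfl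
    by_cases hA : asc (Q.T.get a) b = 0
    · left; rw [e, hA]; omega
    · by_cases hB : asc (Q.T.get a) b / 2 ≤ Q.den
      · left; rw [e]; omega
      · right
        exact ⟨_, asc_mem hA, by rw [e]; omega⟩
  | cons q cl =>
    intro hs
    have e : Q.sok WL a (q :: cl) =
      (bif (bif Nat.ble (Nat.sub (Nat.mul 2 Q.den) Q.nu) q.1 then true else
        lst (Nat.sub (Nat.mul 2 Q.den) Q.nu) 1 cl) then
        (alln 32 fun f => bif Q.cmd f (Nat.div a (pw a)) then
            alln 32 fun l => bif Q.cmd (Nat.mod a 32) l then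
              allb (Q.okb a q.1 cl) (WL.get (Nat.add (Nat.mul 32 f) l)) else true
          else true)
      else false) := rfl
    rw [e, cond_true_iff] at hs
    obtain ⟨-, h3⟩ := hs
    have h4 := alln_iff.1 h3 (Nat.mod b 32) (Nat.mod_lt _ (by norm_num))
    rw [h1] at h4
    dsimp only [cond_true] at h4
    have h5 := alln_iff.1 h4 (Nat.div b (pw b)) hb32
    rw [h2] at h5
    dsimp only [cond_true] at h5
    have h6 := allb_sound h5 b hW
    unfold Prm.okb at h6
    rw [hpf] at h6
    dsimp only [cond_false] at h6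
    show Q.Gn a b ≤ q.1 ∨ ∃ g, (g, b) ∈ cl ∧ Q.Gn a b ≤ g
    cases h7 : Nat.ble (Q.Gn a b) q.1 with
    | true => left; exact Nat.le_of_ble_eq_true h7
    | false =>
      rw [h7] at h6
      right
      exact lst_sound h6

/-- the positions are correct -/
theorem posOk_all (hS : S.Ok cmp sol) (hnu : Q.nu ≤ 2 * Q.den)
    (hcm : ∀ x y, cmp x y = true → Q.cmd (x + 1) (y + 1) = true)
    (hpf : ∀ r, S.W r ≠ [] → S.W (S.al r) ≠ [] → Q.pf (S.c r) (S.c (S.al r)) = false)
    {WL : BT (List Nat)} (hWL : ∀ e, S.W e ≠ [] → S.c e ∈ WL.get (wkey (S.c e)))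
    (hs : ∀ a, Q.sok WL a (Q.SG.get a) = true) (e : D) (he : S.W e ≠ []) :
    Q.PosOk (S.c e) (S.c (S.al e)) := by
  by_cases ha : S.W (S.al e) = []
  · have : S.c (S.al e) = 0 := by unfold Sys.c; rw [ha]; rfl
    rw [this]
    exact posOk_null hnu (hs _)
  · have h4 := hS.len _ ha
    refine posOk_typed (Sys.enc_ne ha) (hs _) ?_ ?_ ?_ (hpf e he ha) (hWL _ ha)
    · rw [hS.dg0 ha, hS.dgl he]
      apply hcm
      have := hS.cmp (S.al e) ha (by rw [hS.alal]; exact he)
      rwa [hS.alal] at this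
    · rw [hS.dg0 he, hS.dgl ha]
      exact hcm _ _ (hS.cmp e he ha)
    · rw [hS.dgl ha]
      have h5 : (S.W (S.al e)).length - 1 < (S.W (S.al e)).length := by omega
      rw [List.getD_eq_getElem _ _ h5]
      have := hS.sm (S.al e) _ (List.getElem_mem h5)
      omega

/-- from the entries of the table -/
theorem sok_all {WL : BT (List Nat)}
    (h : ∀ p ∈ Q.SG.toList, Q.sok WL p.1 p.2 = true) (a : Nat) :
    Q.sok WL a (Q.SG.get a) = true := by
  by_cases h0 : Q.SG.get a = []
  · rw [h0]; rfl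
  · exact h _ (BT.get_mem h0)

end sound

end

end Pool.FCS
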