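import Pool.Agent.FCS.Wa

/-!
# Star check: the groups of a row in packed form

The masks of all groups of a row are put into the lanes of one number; the bits which are excluded by
the groups are computed with a few operations on these numbers.
-/

namespace Pool.FCS

noncomputable section

/-- all masks have a chosen bit -/
def allZ (Z : Nat) (Bs : List Nat) : Bool :=
  List.rec (motive := fun _ => Bool) true
    (fun B _ ih => Bool.rec (motive := fun _ => Bool) ih false
      (Nat.beq (Nat.land B Z) (nat_lit 0))) Bs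

/-- the bits which are excluded by groups -/
def dyn (Z : Nat) (G : List (List Nat × Nat)) : Nat :=
  List.rec (motive := fun _ => Nat) (nat_lit 0)
    (fun g _ ih => Prod.rec (motive := fun _ => Nat) (fun Bs m => Bool.rec (motive := fun _ => Nat)
      ih (Nat.lor m ih) (allZ Z Bs)) g) G

namespace Dv

/-! ### Lanes -/

/-- the number with the lanes `xs` of `L` bits -/
def pkl (L : Nat) (xs : List Nat) : Nat :=
  List.rec (motive := fun _ => Nat) (nat_lit 0)
    (fun x _ ih => Nat.lor x (Nat.shiftLeft ih L)) xs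

/-- the same as a sum -/
def pks (L : Nat) : List Nat → Nat
  | [] => 0
  | x :: xs => 2 ^ L * pks L xs + x

theorem pkl_eq {L : Nat} : ∀ {xs : List Nat}, (∀ x ∈ xs, x < 2 ^ L) → pkl L xs = pks L xs
  | [], _ => rfl
  | x :: xs, h => by
    have h1 : x < 2 ^ L := h x (List.mem_cons_self ..)
    have ih := pkl_eq (L := L) (xs := xs) fun y hy => h y (List.mem_cons_of_mem _ hy)
    show x ||| (pkl L xs <<< L) = _
    rw [ih, Nat.lor_comm, ← Nat.shiftLeft_add_eq_or_of_lt h1, Nat.shiftLeft_eq, pks, Nat.mul_comm]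

theorem pks_bit {L x : Nat} (hx : x < 2 ^ L) (r : Nat) (i : Nat) :
    Nat.testBit (2 ^ L * r + x) i =
      if i < L then Nat.testBit x i else Nat.testBit r (i - L) :=
  Nat.testBit_two_pow_mul_add r hx i

theorem pks_land {L : Nat} : ∀ {xs ys : List Nat}, (∀ x ∈ xs, x < 2 ^ L) → (∀ x ∈ ys, x < 2 ^ L) →
    pks L xs &&& pks L ys = pks L (List.zipWith (· &&& ·) xs ys)
  | [], ys, _, _ => by simp [pks]
  | x :: xs, [], _, _ => by simp [pks]
  | x :: xs, y :: ys, h1, h2 => by
    have a1 : x < 2 ^ L := h1 x (List.mem_cons_self ..)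
    have a2 : y < 2 ^ L := h2 y (List.mem_cons_self ..)
    have ih := pks_land (L := L) (xs := xs) (ys := ys)
      (fun z hz => h1 z (List.mem_cons_of_mem _ hz)) fun z hz => h2 z (List.mem_cons_of_mem _ hz)
    have a3 : x &&& y < 2 ^ L := lt_of_le_of_lt Nat.and_le_left a1
    show (2 ^ L * pks L xs + x) &&& (2 ^ L * pks L ys + y) =
      2 ^ L * pks L (List.zipWith (· &&& ·) xs ys) + (x &&& y)
    rw [← ih]
    apply Nat.eq_of_testBit_eq
    intro i
    rw [Nat.testBit_and, pks_bit a1, pks_bit a2, pks_bit a3]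
    by_cases hi : i < L
    · simp [hi]
    · simp [hi]

theorem pks_mul (L c : Nat) : ∀ xs : List Nat, c * pks L xs = pks L (xs.map (c * ·))
  | [] => rfl
  | x :: xs => by
    show c * (2 ^ L * pks L xs + x) = 2 ^ L * pks L (xs.map (c * ·)) + c * x
    rw [← pks_mul L c xs]
    ring

theorem pks_add {L : Nat} : ∀ {xs ys : List Nat}, xs.length = ys.length →
    pks L xs + pks L ys = pks L (List.zipWith (· + ·) xs ys)
  | [], [], _ => rfl
  | [], _ :: _, h => by simp at h
  | _ :: _, [], h => by simp at h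
  | x :: xs, y :: ys, h => by
    have ih := pks_add (L := L) (xs := xs) (ys := ys) (by simpa using h)
    show (2 ^ L * pks L xs + x) + (2 ^ L * pks L ys + y) =
      2 ^ L * pks L (List.zipWith (· + ·) xs ys) + (x + y)
    rw [← ih]
    ring

/-- the guard bits of the lanes -/
theorem pks_grd {K : Nat} : ∀ {xs : List Nat}, (∀ x ∈ xs, x < 2 ^ (K + 1)) →
    (pks (K + 1) xs >>> K) &&& pks (K + 1) (xs.map fun _ => 1) =
      pks (K + 1) (xs.map fun x => (Nat.testBit x K).toNat)
  | [], _ => by simp [pks]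
  | x :: xs, h => by
    have a1 : x < 2 ^ (K + 1) := h x (List.mem_cons_self ..)
    have ih := pks_grd (K := K) (xs := xs) fun y hy => h y (List.mem_cons_of_mem _ hy)
    have a2 : 1 < 2 ^ (K + 1) := Nat.one_lt_two_pow (by omega)
    have a3 : (Nat.testBit x K).toNat < 2 ^ (K + 1) :=
      lt_of_le_of_lt (by cases Nat.testBit x K <;> decide) a2
    show ((2 ^ (K + 1) * pks (K + 1) xs + x) >>> K) &&&
        (2 ^ (K + 1) * pks (K + 1) (xs.map fun _ => 1) + 1) =
      2 ^ (K + 1) * pks (K + 1) (xs.map fun x => (Nat.testBit x K).toNat) + (Nat.testBit x K).toNat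
    rw [← ih]
    apply Nat.eq_of_testBit_eq
    intro i
    rw [Nat.testBit_and, Nat.testBit_shiftRight, pks_bit a1, pks_bit a2, pks_bit a3,
      Nat.testBit_and, Nat.testBit_shiftRight]
    by_cases hi : i < K + 1
    · rw [if_pos hi, if_pos hi]
      by_cases h0 : i = 0
      · subst h0
        rw [Nat.add_zero, if_pos (by omega)]
        cases Nat.testBit x K <;> rfl
      · have e1 : Nat.testBit 1 i = false := by
          have h1 := Nat.testBit_two_pow (n := 0) (m := i)
          rw [pow_zero] at h1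
          rw [h1, decide_eq_false_iff_not]
          omega
        have e2 : Nat.testBit (Nat.testBit x K).toNat i = false := by
          cases Nat.testBit x K
          · simp
          · show Nat.testBit 1 i = false
            exact e1
        rw [e1, e2, Bool.and_false]
    · rw [if_neg hi, if_neg hi, if_neg (by omega), show K + i - (K + 1) = K + (i - (K + 1)) - 0 by omega]
      rfl

theorem pks_at {L u : Nat} (hu : u < L) : ∀ {xs : List Nat}, (∀ x ∈ xs, x < 2 ^ L) → ∀ g,
    Nat.testBit (pks L xs) (L * g + u) = Nat.testBit (xs.getD g 0) u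
  | [], _, g => by simp [pks]
  | x :: xs, h, 0 => by
    show Nat.testBit (2 ^ L * pks L xs + x) _ = Nat.testBit x u
    rw [pks_bit (h x (List.mem_cons_self ..)), Nat.mul_zero, Nat.zero_add, if_pos hu]
  | x :: xs, h, g + 1 => by
    show Nat.testBit (2 ^ L * pks L xs + x) _ = Nat.testBit (xs.getD g 0) u
    have e : L * (g + 1) + u = L * g + u + L := by ring
    rw [pks_bit (h x (List.mem_cons_self ..)), if_neg (by omega), e, Nat.add_sub_cancel,
      pks_at hu fun y hy => h y (List.mem_cons_of_mem _ hy)]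

/-- the union of `2 ^ k` lanes -/
def fld (L k : Nat) : Nat → Nat :=
  Nat.rec (motive := fun _ => Nat → Nat) (fun X => X)
    (fun j ih X => ih (Nat.lor X (Nat.shiftRight X (Nat.mul L (Nat.pow (nat_lit 2) j))))) k

theorem fld_bit (L u : Nat) : ∀ k X : Nat, Nat.testBit (fld L k X) u = true ↔
    ∃ g < 2 ^ k, Nat.testBit X (L * g + u) = true
  | 0, X => by
    show Nat.testBit X u = true ↔ _
    constructor
    · exact fun h => ⟨0, by norm_num, by rw [Nat.mul_zero, Nat.zero_add]; exact h⟩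
    · rintro ⟨g, hg, h⟩
      have : g = 0 := by simpa using hg
      subst this
      rw [Nat.mul_zero, Nat.zero_add] at h
      exact h
  | k + 1, X => by
    show Nat.testBit (fld L k (X ||| (X >>> (L * 2 ^ k)))) u = true ↔ _
    rw [fld_bit L u k]
    constructor
    · rintro ⟨g, hg, h⟩
      rw [Nat.testBit_or, Nat.testBit_shiftRight, Bool.or_eq_true] at h
      rcases h with h | h
      · exact ⟨g, by rw [pow_succ]; omega, h⟩
      · refine ⟨2 ^ k + g, by rw [pow_succ]; omega, ?_⟩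
        rw [show L * (2 ^ k + g) + u = L * 2 ^ k + (L * g + u) by ring]
        exact h
    · rintro ⟨g, hg, h⟩
      by_cases h1 : g < 2 ^ k
      · exact ⟨g, h1, by rw [Nat.testBit_or, h]; rfl⟩
      · obtain ⟨t, rfl⟩ : ∃ t, g = 2 ^ k + t := ⟨g - 2 ^ k, by omega⟩
        refine ⟨t, by rw [pow_succ] at hg; omega, ?_⟩
        rw [Nat.testBit_or, Nat.testBit_shiftRight,
          show L * 2 ^ k + (L * t + u) = L * (2 ^ k + t) + u by ring, h, Bool.or_true]

/-! ### The test of the masks -/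

theorem dyn_bit {Z u : Nat} : ∀ {G : List (List Nat × Nat)}, Nat.testBit (dyn Z G) u = true ↔
    ∃ g ∈ G, allZ Z g.1 = true ∧ Nat.testBit g.2 u = true
  | [] => by
    show Nat.testBit 0 u = true ↔ _
    simp
  | g :: G => by
    have e : dyn Z (g :: G) = Bool.rec (motive := fun _ => Nat) (dyn Z G)
      (Nat.lor g.2 (dyn Z G)) (allZ Z g.1) := rfl
    have ih := dyn_bit (Z := Z) (u := u) (G := G)
    rw [e]
    cases ha : allZ Z g.1 with
    | false =>
      show Nat.testBit (dyn Z G) u = true ↔ _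
      rw [ih]
      constructor
      · rintro ⟨x, h1, h2⟩
        exact ⟨x, List.mem_cons_of_mem _ h1, h2⟩
      · rintro ⟨x, h1, h2, h3⟩
        rcases List.mem_cons.1 h1 with rfl | h1
        · rw [ha] at h2; exact Bool.noConfusion h2
        · exact ⟨x, h1, h2, h3⟩
    | true =>
      show Nat.testBit (g.2 ||| dyn Z G) u = true ↔ _
      rw [Nat.testBit_or, Bool.or_eq_true, ih]
      constructor
      · rintro (h | ⟨x, h1, h2⟩)
        · exact ⟨g, List.mem_cons_self .., ha, h⟩
        · exact ⟨x, List.mem_cons_of_mem _ h1, h2⟩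
      · rintro ⟨x, h1, h2, h3⟩
        rcases List.mem_cons.1 h1 with rfl | h1
        · exact Or.inl h3
        · exact Or.inr ⟨x, h1, h2, h3⟩

/-- the first mask -/
def hdm (T : Nat) (Bs : List Nat) : Nat := List.rec (motive := fun _ => Nat) T (fun B _ _ => B) Bs

/-- the other masks -/
def tlm (Bs : List Nat) : List Nat :=
  List.rec (motive := fun _ => List Nat) [] (fun _ Bs _ => Bs) Bs

/-- all the first `r` masks have a chosen bit -/
def hts (T Y : Nat) : Nat → List Nat → Bool
  | 0, _ => true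
  | r + 1, Bs => decide (hdm T Bs &&& Y ≠ 0) && hts T Y r (tlm Bs)

/-- the chosen bits and one more -/
def ychs (J Z : Nat) : Nat := (Z &&& (2 ^ J - 1)) ||| 2 ^ J

theorem ychs_top (J Z : Nat) : 2 ^ J &&& ychs J Z ≠ 0 := by
  intro h
  have h1 : Nat.testBit (2 ^ J &&& ychs J Z) J = true := by
    unfold ychs
    rw [Nat.testBit_and, Nat.testBit_or, Nat.testBit_two_pow_self, Bool.or_true]
    rfl
  rw [h, Nat.zero_testBit] at h1
  exact Bool.noConfusion h1

theorem ychs_land {J Z B : Nat} (hB : B < 2 ^ J) : B &&& ychs J Z = B &&& Z := by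
  apply Nat.eq_of_testBit_eq
  intro i
  unfold ychs
  rw [Nat.testBit_and, Nat.testBit_or, Nat.testBit_and, Nat.testBit_two_pow_sub_one,
    Nat.testBit_two_pow, Nat.testBit_and]
  by_cases hi : i < J
  · have : ¬ J = i := by omega
    simp [hi, this]
  · have h1 : Nat.testBit B i = false :=
      Nat.testBit_lt_two_pow (lt_of_lt_of_le hB (Nat.pow_le_pow_right (by norm_num) (by omega)))
    rw [h1]
    rfl

theorem allZ_hts {J Z : Nat} : ∀ {r : Nat} {Bs : List Nat}, Bs.length ≤ r → (∀ B ∈ Bs, B < 2 ^ J) →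
    hts (2 ^ J) (ychs J Z) r Bs = allZ Z Bs
  | 0, [], _, _ => rfl
  | 0, _ :: _, h, _ => by simp at h
  | r + 1, [], _, _ => by
    have ih := allZ_hts (J := J) (Z := Z) (r := r) (Bs := []) (by simp) (by simp)
    show (decide (2 ^ J &&& ychs J Z ≠ 0) && hts (2 ^ J) (ychs J Z) r []) = true
    rw [ih, decide_eq_true (ychs_top J Z)]
    rfl
  | r + 1, B :: Bs, h, hB => by
    have ih := allZ_hts (J := J) (Z := Z) (r := r) (Bs := Bs) (by simpa using h)
      fun C hC => hB C (List.mem_cons_of_mem _ hC)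
    have e : allZ Z (B :: Bs) = Bool.rec (motive := fun _ => Bool) (allZ Z Bs) false
      (Nat.beq (Nat.land B Z) 0) := rfl
    show (decide (B &&& ychs J Z ≠ 0) && hts (2 ^ J) (ychs J Z) r Bs) = _
    rw [ih, e, ychs_land (hB B (List.mem_cons_self ..))]
    cases hb : Nat.beq (Nat.land B Z) 0 with
    | true =>
      have h1 : B &&& Z = 0 := Nat.eq_of_beq_eq_true hb
      rw [decide_eq_false (by rw [h1]; simp)]
      rfl
    | false =>
      have h1 : B &&& Z ≠ 0 := Nat.ne_of_beq_eq_false hb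
      rw [decide_eq_true h1]
      rfl

theorem grd_bit {K t : Nat} (ht : t < 2 ^ K) :
    Nat.testBit (t + (2 ^ K - 1)) K = decide (t ≠ 0) := by
  have h2 : 0 < 2 ^ K := by positivity
  by_cases h0 : t = 0
  · subst h0
    rw [Nat.zero_add, Nat.testBit_lt_two_pow (by omega)]
    rfl
  · have e : t + (2 ^ K - 1) = 2 ^ K * 1 + (t - 1) := by omega
    rw [e, Nat.testBit_two_pow_mul_add 1 (by omega) K, if_neg (by omega), Nat.sub_self,
      decide_eq_true h0]
    rfl

/-! ### Lanes of the groups -/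

theorem zwm {α : Type} (op : Nat → Nat → Nat) (f g : α → Nat) : ∀ G : List α,
    List.zipWith op (G.map f) (G.map g) = G.map fun x => op (f x) (g x)
  | [] => rfl
  | _ :: G => congrArg _ (zwm op f g G)

/-- lanes over the list `G`, `q` the guard bits -/
def Lgr {α : Type} (K : Nat) (G : List α) (S : Nat) (q : α → Bool) : Prop :=
  ∃ φ : α → Nat, S = pks (K + 1) (G.map φ) ∧ (∀ g ∈ G, φ g < 2 ^ (K + 1)) ∧
    ∀ g ∈ G, Nat.testBit (φ g) K = q g

theorem Lgr.and {α : Type} {K : Nat} {G : List α} {S S' : Nat} {q q' : α → Bool}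
    (h : Lgr K G S q) (h' : Lgr K G S' q') : Lgr K G (Nat.land S S') fun g => q g && q' g := by
  obtain ⟨φ, h1, h2, h3⟩ := h
  obtain ⟨φ', h1', h2', h3'⟩ := h'
  refine ⟨fun g => φ g &&& φ' g, ?_, fun g hg => lt_of_le_of_lt Nat.and_le_left (h2 g hg),
    fun g hg => by rw [Nat.testBit_and, h3 g hg, h3' g hg]⟩
  show S &&& S' = _
  rw [h1, h1', pks_land]
  · rw [zwm]
  · intro x hx
    obtain ⟨g, hg, rfl⟩ := List.mem_map.1 hx
    exact h2 g hg
  · intro x hx
    obtain ⟨g, hg, rfl⟩ := List.mem_map.1 hx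
    exact h2' g hg

/-- the number with the guard bits of a plane -/
def vpl (P Zr H : Nat) : Nat := Nat.add (Nat.land P Zr) H

theorem Lgr.val {α : Type} {K Y : Nat} {G : List α} {φ : α → Nat} {P Zr H : Nat} (hY : Y < 2 ^ K)
    (hP : P = pks (K + 1) (G.map φ)) (hφ : ∀ g ∈ G, φ g < 2 ^ (K + 1))
    (hZ : Zr = pks (K + 1) (G.map fun _ => Y)) (hH : H = pks (K + 1) (G.map fun _ => 2 ^ K - 1)) :
    Lgr K G (vpl P Zr H) fun g => decide (φ g &&& Y ≠ 0) := by
  have hp : 2 ^ (K + 1) = 2 ^ K + 2 ^ K := by rw [pow_succ]; ring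
  have hb : ∀ g, φ g &&& Y < 2 ^ K := fun g => lt_of_le_of_lt Nat.and_le_right hY
  refine ⟨fun g => (φ g &&& Y) + (2 ^ K - 1), ?_, fun g _ => ?_, fun g _ => grd_bit (hb g)⟩
  · show (P &&& Zr) + H = _
    rw [hP, hZ, hH, pks_land, zwm, pks_add, zwm]
    · rw [List.length_map, List.length_map]
    · intro x hx
      obtain ⟨g, hg, rfl⟩ := List.mem_map.1 hx
      exact hφ g hg
    · intro x hx
      obtain ⟨g, hg, rfl⟩ := List.mem_map.1 hx
      omega
  · have := hb g
    show (φ g &&& Y) + (2 ^ K - 1) < _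
    omega

/-- the tails -/
def tls (Bss : List (List Nat)) : List (List Nat) :=
  List.rec (motive := fun _ => List (List Nat)) [] (fun Bs _ ih => tlm Bs :: ih) Bss

theorem tls_eq : ∀ Bss : List (List Nat), tls Bss = Bss.map tlm
  | [] => rfl
  | _ :: s => congrArg _ (tls_eq s)

/-- a plane -/
def pln (L T : Nat) (Bss : List (List Nat)) : Nat :=
  List.rec (motive := fun _ => Nat) (nat_lit 0)
    (fun Bs _ ih => Nat.lor (hdm T Bs) (Nat.shiftLeft ih L)) Bss

theorem pln_eq {L T : Nat} : ∀ {Bss : List (List Nat)}, pln L T Bss = pkl L (Bss.map (hdm T))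
  | [] => rfl
  | Bs :: s => by
    show Nat.lor (hdm T Bs) (Nat.shiftLeft (pln L T s) L) = _
    rw [pln_eq]
    rfl

/-- the other planes -/
def pls (L T r : Nat) : List (List Nat) → List Nat :=
  Nat.rec (motive := fun _ => List (List Nat) → List Nat) (fun _ => [])
    (fun _ ih Bss => frc (pln L T Bss) fun P => P :: ih (tls Bss)) r

/-- all planes -/
def anp (Zr H S : Nat) (Ps : List Nat) : Nat :=
  List.rec (motive := fun _ => Nat) S (fun P _ ih => Nat.land (Nat.add (Nat.land P Zr) H) ih) Ps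

theorem hdm_lt {T L : Nat} (hT : T < 2 ^ L) : ∀ {Bs : List Nat}, (∀ B ∈ Bs, B < 2 ^ L) →
    hdm T Bs < 2 ^ L
  | [], _ => hT
  | B :: _, h => h B (List.mem_cons_self ..)

theorem tlm_mem : ∀ {Bs : List Nat} {B : Nat}, B ∈ tlm Bs → B ∈ Bs
  | [], _, h => h
  | _ :: _, _, h => List.mem_cons_of_mem _ h

theorem anp_ok {α : Type} {K Y T : Nat} {G : List α} {Zr H S : Nat} (hY : Y < 2 ^ K)
    (hT : T < 2 ^ (K + 1))
    (hZ : Zr = pks (K + 1) (G.map fun _ => Y)) (hH : H = pks (K + 1) (G.map fun _ => 2 ^ K - 1)) :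
    ∀ (r : Nat) (t : α → List Nat) (q : α → Bool), (∀ g ∈ G, ∀ B ∈ t g, B < 2 ^ (K + 1)) →
      Lgr K G S q → Lgr K G (anp Zr H S (pls (K + 1) T r (G.map t))) fun g => hts T Y r (t g) && q g
  | 0, t, q, _, h => by
    obtain ⟨φ, h1, h2, h3⟩ := h
    exact ⟨φ, h1, h2, h3⟩
  | r + 1, t, q, ht, h => by
    have ih := anp_ok hY hT hZ hH r (fun g => tlm (t g)) q
      (fun g hg B hB => ht g hg B (tlm_mem hB)) h
    have e : tls (G.map t) = G.map fun g => tlm (t g) := by rw [tls_eq, List.map_map]; rfl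
    have hb : ∀ g ∈ G, hdm T (t g) < 2 ^ (K + 1) := fun g hg => hdm_lt hT (ht g hg)
    have e2 : pln (K + 1) T (G.map t) = pks (K + 1) (G.map fun g => hdm T (t g)) := by
      rw [pln_eq, List.map_map, pkl_eq]
      · rfl
      · intro x hx
        obtain ⟨g, hg, rfl⟩ := List.mem_map.1 hx
        exact hb g hg
    have h5 := Lgr.val (H := H) hY e2 hb hZ hH
    have h6 := h5.and ih
    have e3 : pls (K + 1) T (r + 1) (G.map t) =
      pln (K + 1) T (G.map t) :: pls (K + 1) T r (tls (G.map t)) := rfl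
    rw [e3, e]
    obtain ⟨φ, h1, h2, h3⟩ := h6
    refine ⟨φ, h1, h2, fun g hg => ?_⟩
    rw [h3 g hg]
    show _ = ((decide (hdm T (t g) &&& Y ≠ 0) && hts T Y r (tlm (t g))) && q g)
    rw [Bool.and_assoc]

/-! ### The packed groups -/

/-- Packed groups: at most one group, or lanes of `L = K + 1` bits, `F` all bits of a lane, `C`, `T`
the chosen bits of a lane and the bit above, `O` ones, `H` the numbers `2 ^ K - 1`, the first two
planes, the others, the excluded bits, the number of the steps of the union. -/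
inductive PG where
  | sm (G : List (List Nat × Nat))
  | mk (L K F C T O H P Q : Nat) (Ps : List Nat) (MM k : Nat)

/-- the bits which are excluded by packed groups -/
def dyp (Z : Nat) (g : PG) : Nat :=
  PG.rec (motive := fun _ => Nat) (fun G => dyn Z G)
    (fun L K F C T O H P Q Ps MM k =>
      (fun b : Nat => Bool.rec (motive := fun _ => Nat)
          (Nat.land (fld L k (Nat.land (Nat.mul F b) MM)) F) (nat_lit 0) (Nat.beq b (nat_lit 0)))
        (Nat.land (Nat.shiftRight (anp (Nat.mul O (Nat.lor (Nat.land Z C) T)) H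
          (Nat.land (Nat.add (Nat.land P (Nat.mul O (Nat.lor (Nat.land Z C) T))) H)
            (Nat.add (Nat.land Q (Nat.mul O (Nat.lor (Nat.land Z C) T))) H)) Ps) K) O)) g

theorem dyp_ok {Z J k r : Nat} {G : List (List Nat × Nat)}
    (hB : ∀ g ∈ G, ∀ B ∈ g.1, B < 2 ^ J) (hm : ∀ g ∈ G, g.2 < 2 ^ J)
    (hr : ∀ g ∈ G, g.1.length ≤ r + 2) (hk : G.length ≤ 2 ^ k) :
    dyp Z (.mk (J + 2) (J + 1) (2 ^ (J + 2) - 1) (2 ^ J - 1) (2 ^ J)
      (pks (J + 2) (G.map fun _ => 1)) (pks (J + 2) (G.map fun _ => 2 ^ (J + 1) - 1))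
      (pks (J + 2) (G.map fun g => hdm (2 ^ J) g.1)) (pks (J + 2) (G.map fun g => hdm (2 ^ J) (tlm g.1)))
      (pls (J + 2) (2 ^ J) r (G.map fun g => tlm (tlm g.1))) (pks (J + 2) (G.map fun g => g.2)) k) =
      dyn Z G := by
  have p1 : 2 ^ (J + 1) = 2 ^ J + 2 ^ J := by rw [pow_succ]; ring
  have p2 : 2 ^ (J + 2) = 2 ^ (J + 1) + 2 ^ (J + 1) := by rw [pow_succ]; ring
  have p0 : 0 < 2 ^ J := by positivity
  have hY : ychs J Z < 2 ^ (J + 1) := by
    unfold ychs
    refine Nat.or_lt_two_pow ?_ ?_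
    · exact lt_of_le_of_lt Nat.and_le_right (by omega)
    · omega
  have hT : 2 ^ J < 2 ^ (J + 1 + 1) := by omega
  have hB' : ∀ g ∈ G, ∀ B ∈ g.1, B < 2 ^ (J + 1 + 1) := fun g hg B h => by
    have := hB g hg B h
    omega
  have hz : Nat.mul (pks (J + 2) (G.map fun _ => 1)) (Nat.lor (Nat.land Z (2 ^ J - 1)) (2 ^ J)) =
      pks (J + 1 + 1) (G.map fun _ => ychs J Z) := by
    show pks (J + 2) (G.map fun _ => 1) * ychs J Z = _
    rw [Nat.mul_comm, pks_mul, List.map_map]
    congr 2
    funext g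
    show ychs J Z * 1 = _
    rw [Nat.mul_one]
  have hH : pks (J + 2) (G.map fun _ => 2 ^ (J + 1) - 1) =
    pks (J + 1 + 1) (G.map fun _ => 2 ^ (J + 1) - 1) := rfl
  have v1 := Lgr.val (G := G) (φ := fun g => hdm (2 ^ J) g.1) hY rfl
    (fun g hg => hdm_lt hT (hB' g hg)) hz hH
  have v2 := Lgr.val (G := G) (φ := fun g => hdm (2 ^ J) (tlm g.1)) hY rfl
    (fun g hg => hdm_lt hT fun B h => hB' g hg B (tlm_mem h)) hz hH
  have v3 := anp_ok (T := 2 ^ J) hY hT hz hH r (fun g => tlm (tlm g.1)) _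
    (fun g hg B h => hB' g hg B (tlm_mem (tlm_mem h))) (v1.and v2)
  obtain ⟨φ, f1, f2, f3⟩ := v3
  have f4 : ∀ g ∈ G, Nat.testBit (φ g) (J + 1) = allZ Z g.1 := fun g hg => by
    rw [f3 g hg, ← allZ_hts (hr g hg) (hB g hg)]
    show (hts _ _ r (tlm (tlm g.1)) && (decide _ && decide _)) =
      (decide _ && (decide _ && hts _ _ r (tlm (tlm g.1))))
    rw [Bool.and_comm, Bool.and_assoc]
  have hb : Nat.land (Nat.shiftRight (anp (Nat.mul (pks (J + 2) (G.map fun _ => 1))
      (Nat.lor (Nat.land Z (2 ^ J - 1)) (2 ^ J))) (pks (J + 2) (G.map fun _ => 2 ^ (J + 1) - 1))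
      (Nat.land (vpl (pks (J + 2) (G.map fun g => hdm (2 ^ J) g.1))
          (Nat.mul (pks (J + 2) (G.map fun _ => 1)) (Nat.lor (Nat.land Z (2 ^ J - 1)) (2 ^ J)))
          (pks (J + 2) (G.map fun _ => 2 ^ (J + 1) - 1)))
        (vpl (pks (J + 2) (G.map fun g => hdm (2 ^ J) (tlm g.1)))
          (Nat.mul (pks (J + 2) (G.map fun _ => 1)) (Nat.lor (Nat.land Z (2 ^ J - 1)) (2 ^ J)))
          (pks (J + 2) (G.map fun _ => 2 ^ (J + 1) - 1))))
      (pls (J + 2) (2 ^ J) r (G.map fun g => tlm (tlm g.1)))) (J + 1))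
      (pks (J + 2) (G.map fun _ => 1)) = pks (J + 2) (G.map fun g => (allZ Z g.1).toNat) := by
    have e1 : (pks (J + 2) (G.map fun _ => 1)) = pks (J + 1 + 1) ((G.map φ).map fun _ => 1) := by
      rw [List.map_map]; rfl
    refine (congrArg₂ (fun a b => (a >>> (J + 1)) &&& b) f1 e1).trans ?_
    rw [pks_grd, List.map_map]
    · congr 1
      refine List.map_congr_left fun g hg => ?_
      show (Nat.testBit (φ g) (J + 1)).toNat = _
      rw [f4 g hg]
    · intro x hx
      obtain ⟨g, hg, rfl⟩ := List.mem_map.1 hx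
      exact f2 g hg
  have hX : Nat.land (Nat.mul (2 ^ (J + 2) - 1) (pks (J + 2) (G.map fun g => (allZ Z g.1).toNat)))
      (pks (J + 2) (G.map fun g => g.2)) =
      pks (J + 2) (G.map fun g => (2 ^ (J + 2) - 1) * (allZ Z g.1).toNat &&& g.2) := by
    show ((2 ^ (J + 2) - 1) * pks (J + 2) (G.map fun g => (allZ Z g.1).toNat)) &&& _ = _
    rw [pks_mul, List.map_map, pks_land]
    · rw [zwm]
      rfl
    · intro x hx
      obtain ⟨g, hg, rfl⟩ := List.mem_map.1 hx
      show (2 ^ (J + 2) - 1) * (allZ Z g.1).toNat < _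
      cases allZ Z g.1
      · show _ * 0 < _
        omega
      · show _ * 1 < _
        omega
    · intro x hx
      obtain ⟨g, hg, rfl⟩ := List.mem_map.1 hx
      have := hm g hg
      omega
  have hl : ∀ x ∈ (G.map fun g => (2 ^ (J + 2) - 1) * (allZ Z g.1).toNat &&& g.2),
      x < 2 ^ (J + 2) := by
    intro x hx
    obtain ⟨g, hg, rfl⟩ := List.mem_map.1 hx
    have := hm g hg
    exact lt_of_le_of_lt Nat.and_le_right (by omega)
  have key : Nat.land (fld (J + 2) k (pks (J + 2)
      (G.map fun g => (2 ^ (J + 2) - 1) * (allZ Z g.1).toNat &&& g.2))) (2 ^ (J + 2) - 1) =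
      dyn Z G := by
    apply Nat.eq_of_testBit_eq
    intro u
    show Nat.testBit (_ &&& (2 ^ (J + 2) - 1)) u = _
    rw [Nat.testBit_and, Nat.testBit_two_pow_sub_one, Bool.eq_iff_iff, Bool.and_eq_true,
      decide_eq_true_eq, fld_bit, dyn_bit]
    constructor
    · rintro ⟨⟨n, hn, h⟩, hu⟩
      rw [pks_at hu hl] at h
      have hn2 : n < G.length := by
        by_contra hc
        rw [List.getD_eq_getElem?_getD, List.getElem?_eq_none (by rw [List.length_map]; omega)] at h
        simp at h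
      rw [List.getD_eq_getElem?_getD, List.getElem?_map, List.getElem?_eq_getElem hn2] at h
      have h' : Nat.testBit ((2 ^ (J + 2) - 1) * (allZ Z (G[n]).1).toNat &&& (G[n]).2) u = true := h
      refine ⟨G[n], List.getElem_mem hn2, ?_⟩
      cases ha : allZ Z (G[n]).1 with
      | false =>
        rw [ha] at h'
        have : (2 ^ (J + 2) - 1) * (false : Bool).toNat &&& (G[n]).2 = 0 := by simp
        rw [this, Nat.zero_testBit] at h'
        exact Bool.noConfusion h'
      | true =>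
        rw [Nat.testBit_and, Bool.and_eq_true] at h'
        exact ⟨rfl, h'.2⟩
    · rintro ⟨g, hg, ha, hu⟩
      obtain ⟨n, hn, rfl⟩ := List.getElem_of_mem hg
      have hu2 : u < J + 2 := by
        by_contra hc
        have h7 : Nat.testBit (G[n]).2 u = false := Nat.testBit_lt_two_pow
          (lt_of_lt_of_le (hm _ hg) (Nat.pow_le_pow_right (by norm_num) (by omega)))
        rw [h7] at hu
        exact Bool.noConfusion hu
      refine ⟨⟨n, by omega, ?_⟩, hu2⟩
      rw [pks_at hu2 hl, List.getD_eq_getElem?_getD, List.getElem?_map, List.getElem?_eq_getElem hn]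
      show Nat.testBit ((2 ^ (J + 2) - 1) * (allZ Z (G[n]).1).toNat &&& (G[n]).2) u = true
      rw [ha, Nat.testBit_and, hu, Bool.and_true]
      show Nat.testBit ((2 ^ (J + 2) - 1) * 1) u = true
      rw [Nat.mul_one, Nat.testBit_two_pow_sub_one, decide_eq_true hu2]
  refine (congrArg (fun b : Nat => (Bool.rec (motive := fun _ => Nat)
      (Nat.land (fld (J + 2) k (Nat.land (Nat.mul (2 ^ (J + 2) - 1) b)
        (pks (J + 2) (G.map fun g => g.2)))) (2 ^ (J + 2) - 1)) 0 (Nat.beq b 0) : Nat)) hb).trans ?_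
  show Bool.rec (motive := fun _ => Nat)
      (Nat.land (fld (J + 2) k (Nat.land (Nat.mul (2 ^ (J + 2) - 1)
        (pks (J + 2) (G.map fun g => (allZ Z g.1).toNat)))
        (pks (J + 2) (G.map fun g => g.2)))) (2 ^ (J + 2) - 1)) 0
      (Nat.beq (pks (J + 2) (G.map fun g => (allZ Z g.1).toNat)) 0) = _
  cases hb0 : Nat.beq (pks (J + 2) (G.map fun g => (allZ Z g.1).toNat)) 0 with
  | false =>
    show Nat.land (fld _ _ _) _ = _
    rw [hX, key]
  | true =>
    have h0 : pks (J + 2) (G.map fun g => (allZ Z g.1).toNat) = 0 := Nat.eq_of_beq_eq_true hb0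
    show 0 = _
    rw [← key, ← hX, h0]
    apply Nat.eq_of_testBit_eq
    intro u
    rw [Nat.zero_testBit]
    symm
    rw [← Bool.not_eq_true]
    intro h
    have h1 : Nat.testBit (fld (J + 2) k (Nat.land (Nat.mul (2 ^ (J + 2) - 1) 0)
      (pks (J + 2) (G.map fun g => g.2)))) u = true := by
      have h2 : Nat.testBit ((fld (J + 2) k (Nat.land (Nat.mul (2 ^ (J + 2) - 1) 0)
        (pks (J + 2) (G.map fun g => g.2)))) &&& (2 ^ (J + 2) - 1)) u = true := h
      rw [Nat.testBit_and, Bool.and_eq_true] at h2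
      exact h2.1
    rw [fld_bit] at h1
    obtain ⟨n, _, h1⟩ := h1
    have h3 : Nat.land (Nat.mul (2 ^ (J + 2) - 1) 0) (pks (J + 2) (G.map fun g => g.2)) = 0 :=
      Nat.zero_and _
    rw [h3, Nat.zero_testBit] at h1
    exact Bool.noConfusion h1

/-! ### Packing -/

/-- the union of masks -/
def orm (Bs : List Nat) (r : Nat) : Nat :=
  List.rec (motive := fun _ => Nat) r (fun B _ ih => Nat.lor B ih) Bs

/-- the union of all masks -/
def org (G : List (List Nat × Nat)) : Nat :=
  List.rec (motive := fun _ => Nat) (nat_lit 0)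
    (fun g _ ih => Nat.lor (Prod.snd g) (orm (Prod.fst g) ih)) G

theorem orm_le {r : Nat} : ∀ {Bs : List Nat}, r ≤ orm Bs r ∧ ∀ B ∈ Bs, B ≤ orm Bs r
  | [] => ⟨le_refl _, by simp⟩
  | B :: Bs => by
    obtain ⟨h1, h2⟩ := orm_le (r := r) (Bs := Bs)
    have e : orm (B :: Bs) r = B ||| orm Bs r := rfl
    have g1 : B ≤ B ||| orm Bs r := Nat.left_le_or
    have g2 : orm Bs r ≤ B ||| orm Bs r := Nat.right_le_or
    rw [e]
    refine ⟨le_trans h1 g2, fun C hC => ?_⟩
    rcases List.mem_cons.1 hC with rfl | hC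
    · exact g1
    · exact le_trans (h2 C hC) g2

theorem org_le : ∀ {G : List (List Nat × Nat)}, ∀ g ∈ G, g.2 ≤ org G ∧ ∀ B ∈ g.1, B ≤ org G
  | [], _, h => by simp at h
  | x :: G, g, h => by
    have e : org (x :: G) = x.2 ||| orm x.1 (org G) := rfl
    have g1 : x.2 ≤ x.2 ||| orm x.1 (org G) := Nat.left_le_or
    have g2 : orm x.1 (org G) ≤ x.2 ||| orm x.1 (org G) := Nat.right_le_or
    obtain ⟨h1, h2⟩ := orm_le (r := org G) (Bs := x.1)
    rw [e]
    rcases List.mem_cons.1 h with rfl | h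
    · exact ⟨g1, fun B hB => le_trans (h2 B hB) g2⟩
    · obtain ⟨h3, h4⟩ := org_le g h
      exact ⟨le_trans h3 (le_trans h1 g2), fun B hB => le_trans (h4 B hB) (le_trans h1 g2)⟩

/-- number of bits of the masks; `W` if possible -/
def jbt (W U : Nat) : Nat :=
  Bool.rec (motive := fun _ => Nat) U W (Nat.ble U (Nat.sub (Nat.pow (nat_lit 2) W) (nat_lit 1)))

theorem jbt_lt (W U : Nat) : U < 2 ^ jbt W U := by
  unfold jbt
  cases h : Nat.ble U (Nat.sub (Nat.pow 2 W) 1) with
  | false => exact Nat.lt_two_pow_self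
  | true =>
    have h1 : U ≤ 2 ^ W - 1 := Nat.le_of_ble_eq_true h
    have h2 : 0 < 2 ^ W := by positivity
    show U < 2 ^ W
    omega

/-- the length of a list -/
def lnn {α : Type} (G : List α) : Nat :=
  List.rec (motive := fun _ => Nat) (nat_lit 0) (fun _ _ ih => Nat.succ ih) G

theorem lnn_eq {α : Type} : ∀ G : List α, lnn G = G.length
  | [] => rfl
  | _ :: G => congrArg Nat.succ (lnn_eq G)

/-- the maximal length -/
def mln (Bss : List (List Nat)) : Nat :=
  List.rec (motive := fun _ => Nat) (nat_lit 0)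
    (fun Bs _ ih => (fun a b : Nat => Bool.rec (motive := fun _ => Nat) a b (Nat.ble a b)) (lnn Bs) ih)
    Bss

theorem mln_le : ∀ {Bss : List (List Nat)}, ∀ Bs ∈ Bss, Bs.length ≤ mln Bss
  | [], _, h => by simp at h
  | x :: s, Bs, h => by
    have e : mln (x :: s) = Bool.rec (motive := fun _ => Nat) (lnn x) (mln s)
      (Nat.ble (lnn x) (mln s)) := rfl
    have hx : x.length ≤ mln (x :: s) ∧ mln s ≤ mln (x :: s) := by
      rw [e, lnn_eq]
      cases hb : Nat.ble x.length (mln s) with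
      | false =>
        refine ⟨le_refl _, ?_⟩
        by_contra hc
        rw [Nat.ble_eq_true_of_le (by
          have : ¬ mln s ≤ x.length := hc
          omega)] at hb
        exact Bool.noConfusion hb
      | true => exact ⟨Nat.le_of_ble_eq_true hb, le_refl _⟩
    rcases List.mem_cons.1 h with rfl | h
    · exact hx.1
    · exact le_trans (mln_le Bs h) hx.2

/-- number of the steps of the union: `j` with `n ≤ 2 ^ j` -/
def stp (n : Nat) (fuel : Nat) : Nat → Nat :=
  Nat.rec (motive := fun _ => Nat → Nat) (fun _ => n)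
    (fun _ ih j => Bool.rec (motive := fun _ => Nat) (ih (Nat.succ j)) j
      (Nat.ble n (Nat.pow (nat_lit 2) j))) fuel

theorem stp_le (n : Nat) : ∀ f j, n ≤ 2 ^ stp n f j
  | 0, _ => (Nat.lt_two_pow_self).le
  | f + 1, j => by
    have ih := stp_le n f (Nat.succ j)
    have e : stp n (f + 1) j = Bool.rec (motive := fun _ => Nat) (stp n f (Nat.succ j)) j
      (Nat.ble n (Nat.pow 2 j)) := rfl
    rw [e]
    cases hb : Nat.ble n (Nat.pow 2 j) with
    | false => exact ih
    | true => exact Nat.le_of_ble_eq_true hb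

/-- the lanes with the number `c` -/
def cln (L c : Nat) (G : List (List Nat × Nat)) : Nat :=
  List.rec (motive := fun _ => Nat) (nat_lit 0) (fun _ _ ih => Nat.lor c (Nat.shiftLeft ih L)) G

theorem cln_eq {L c : Nat} : ∀ {G : List (List Nat × Nat)}, cln L c G = pkl L (G.map fun _ => c)
  | [] => rfl
  | _ :: s => by
    show Nat.lor c (Nat.shiftLeft (cln L c s) L) = _
    rw [cln_eq]
    rfl

/-- the lanes with the excluded bits -/
def mln2 (L : Nat) (G : List (List Nat × Nat)) : Nat :=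
  List.rec (motive := fun _ => Nat) (nat_lit 0)
    (fun g _ ih => Nat.lor (Prod.snd g) (Nat.shiftLeft ih L)) G

theorem mln2_eq {L : Nat} : ∀ {G : List (List Nat × Nat)}, mln2 L G = pkl L (G.map fun g => g.2)
  | [] => rfl
  | g :: s => by
    show Nat.lor g.2 (Nat.shiftLeft (mln2 L s) L) = _
    rw [mln2_eq]
    rfl

/-- the masks of the groups -/
def fsl (G : List (List Nat × Nat)) : List (List Nat) :=
  List.rec (motive := fun _ => List (List Nat)) [] (fun g _ ih => Prod.fst g :: ih) G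

theorem fsl_eq : ∀ {G : List (List Nat × Nat)}, fsl G = G.map Prod.fst
  | [] => rfl
  | _ :: _ => congrArg _ fsl_eq

/-- packed groups -/
def pkm (W : Nat) (G : List (List Nat × Nat)) : PG :=
  frc (jbt W (org G)) fun J => frc (Nat.add J (nat_lit 2)) fun L => frc (Nat.add J (nat_lit 1)) fun K =>
    frc (Nat.pow (nat_lit 2) J) fun T =>
      frc (Nat.sub (Nat.pow (nat_lit 2) L) (nat_lit 1)) fun F =>
        frc (Nat.sub (Nat.pow (nat_lit 2) J) (nat_lit 1)) fun C =>
          frc (cln L (nat_lit 1) G) fun O =>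
            frc (cln L (Nat.sub (Nat.pow (nat_lit 2) K) (nat_lit 1)) G) fun H =>
              (fun B0 => frc (pln L T B0) fun P => (fun B1 => frc (pln L T B1) fun Q =>
                (fun B2 => frc (mln2 L G) fun MM => frc (stp (lnn G) (nat_lit 9) (nat_lit 0)) fun k =>
                  PG.mk L K F C T O H P Q (pls L T (Nat.sub (mln B0) (nat_lit 2)) B2) MM k)
                  (tls B1)) (tls B0)) (fsl G)

/-- packed groups, plain if there is at most one -/
def pkg (W : Nat) (G : List (List Nat × Nat)) : PG :=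
  List.rec (motive := fun _ => PG) (PG.sm [])
    (fun g G' _ => List.rec (motive := fun _ => PG) (PG.sm (g :: [])) (fun h G'' _ =>
      pkm W (g :: h :: G'')) G') G

theorem dyp_pkm (Z W : Nat) (G : List (List Nat × Nat)) : dyp Z (pkm W G) = dyn Z G := by
  have hJ := jbt_lt W (org G)
  generalize hj : jbt W (org G) = J at hJ
  have hB : ∀ g ∈ G, ∀ B ∈ g.1, B < 2 ^ J := fun g hg B h =>
    lt_of_le_of_lt ((org_le g hg).2 B h) hJ
  have hm : ∀ g ∈ G, g.2 < 2 ^ J := fun g hg => lt_of_le_of_lt (org_le g hg).1 hJ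
  have p0 : 0 < 2 ^ J := by positivity
  have p1 : 2 ^ (J + 1) = 2 ^ J + 2 ^ J := by rw [pow_succ]; ring
  have p2 : 2 ^ (J + 2) = 2 ^ (J + 1) + 2 ^ (J + 1) := by rw [pow_succ]; ring
  have hr : ∀ g ∈ G, g.1.length ≤ (mln (fsl G) - 2) + 2 := fun g hg => by
    have := mln_le (Bss := fsl G) g.1 (by rw [fsl_eq]; exact List.mem_map_of_mem hg)
    omega
  have hk : G.length ≤ 2 ^ stp (lnn G) 9 0 := by
    have := stp_le (lnn G) 9 0
    rw [lnn_eq] at this ⊢
    exact this
  have e1 : cln (J + 2) 1 G = pks (J + 2) (G.map fun _ => 1) := by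
    rw [cln_eq, pkl_eq]
    intro x hx
    obtain ⟨g, hg, rfl⟩ := List.mem_map.1 hx
    omega
  have e2 : cln (J + 2) (2 ^ (J + 1) - 1) G = pks (J + 2) (G.map fun _ => 2 ^ (J + 1) - 1) := by
    rw [cln_eq, pkl_eq]
    intro x hx
    obtain ⟨g, hg, rfl⟩ := List.mem_map.1 hx
    omega
  have e3 : pln (J + 2) (2 ^ J) (fsl G) = pks (J + 2) (G.map fun g => hdm (2 ^ J) g.1) := by
    rw [pln_eq, fsl_eq, List.map_map, pkl_eq]
    · rfl
    · intro x hx
      obtain ⟨g, hg, rfl⟩ := List.mem_map.1 hx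
      exact hdm_lt (by omega) fun B h => by have := hB g hg B h; omega
  have e5 : tls (fsl G) = G.map fun g => tlm g.1 := by rw [tls_eq, fsl_eq, List.map_map]; rfl
  have e4 : pln (J + 2) (2 ^ J) (tls (fsl G)) = pks (J + 2) (G.map fun g => hdm (2 ^ J) (tlm g.1)) := by
    rw [pln_eq, e5, List.map_map, pkl_eq]
    · rfl
    · intro x hx
      obtain ⟨g, hg, rfl⟩ := List.mem_map.1 hx
      exact hdm_lt (by omega) fun B h => by have := hB g hg B (tlm_mem h); omega
  have e6 : tls (tls (fsl G)) = G.map fun g => tlm (tlm g.1) := by rw [e5, tls_eq, List.map_map]; rfl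
  have e7 : mln2 (J + 2) G = pks (J + 2) (G.map fun g => g.2) := by
    rw [mln2_eq, pkl_eq]
    intro x hx
    obtain ⟨g, hg, rfl⟩ := List.mem_map.1 hx
    have := hm g hg
    omega
  have e : pkm W G = PG.mk (J + 2) (J + 1) (2 ^ (J + 2) - 1) (2 ^ J - 1) (2 ^ J)
      (cln (J + 2) 1 G) (cln (J + 2) (2 ^ (J + 1) - 1) G) (pln (J + 2) (2 ^ J) (fsl G))
      (pln (J + 2) (2 ^ J) (tls (fsl G)))
      (pls (J + 2) (2 ^ J) (mln (fsl G) - 2) (tls (tls (fsl G)))) (mln2 (J + 2) G)
      (stp (lnn G) 9 0) := by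
    rw [← hj]
    rfl
  rw [e, e1, e2, e3, e4, e6, e7]
  exact dyp_ok hB hm hr hk

theorem dyp_pkg (Z W : Nat) : ∀ G : List (List Nat × Nat), dyp Z (pkg W G) = dyn Z G
  | [] => rfl
  | [_] => rfl
  | g :: h :: G => dyp_pkm Z W (g :: h :: G)

end Dv

end

end Pool.FCS
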