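import Pool.Agent.FCS.Cen
import Mathlib.Dynamics.PeriodicPts.Defs
import Mathlib.Algebra.BigOperators.Ring.Finset
import Mathlib.Algebra.Order.Ring.Int

/-!
# Star check: the inequality for all stars
-/

namespace Pool.FCS

open Finset

section

variable {D : Type*} {cmp : Nat → Nat → Bool} {sol : Nat → Bool} {S : Sys D} {Q : Par}

/-- number of gaps of a word -/
def ngap (sol : Nat → Bool) (l : List Nat) : Nat := l.countP fun x => !sol x

/-- the charge of a star -/
noncomputable def chg (sol : Nat → Bool) (S : Sys D) (Q : Par) (e : D) : Int :=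
  (Q.den : Int) * (12 - 2 * ((S.W e).length : Int) - (ngap sol (S.W e) : Int)) +
    ∑ i ∈ range (S.W e).length, Q.ga S (S.nx^[i] e)

/-- two consecutive null neighbours across a solid sector -/
def Apx (sol : Nat → Bool) (S : Sys D) (e : D) : Prop :=
  ∃ i, sol ((S.W (S.nx^[i] e)).getD 0 0) = true ∧ S.W (S.al (S.nx^[i] e)) = [] ∧
    S.W (S.al (S.nx (S.nx^[i] e))) = []

theorem length_nx (hS : S.Ok cmp sol) {e : D} (he : S.W e ≠ []) :
    (S.W (S.nx e)).length = (S.W e).length := by rw [hS.rot e he, List.length_rotate]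

theorem chg_nx (hS : S.Ok cmp sol) {e : D} (he : S.W e ≠ []) :
    chg sol S Q (S.nx e) = chg sol S Q e := by
  have h1 : ngap sol (S.W (S.nx e)) = ngap sol (S.W e) := by
    unfold ngap
    rw [hS.rot e he]
    exact (List.rotate_perm (S.W e) 1).countP_eq _
  have h2 : ∑ i ∈ range (S.W e).length, Q.ga S (S.nx^[i] (S.nx e)) =
      ∑ i ∈ range (S.W e).length, Q.ga S (S.nx^[i] e) := by
    have e1 := sum_range_succ (fun i => Q.ga S (S.nx^[i] e)) (S.W e).length
    have e2 := sum_range_succ' (fun i => Q.ga S (S.nx^[i] e)) (S.W e).length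
    rw [hS.per e he] at e1
    have e3 : ∀ i, S.nx^[i] (S.nx e) = S.nx^[i + 1] e := fun i => rfl
    simp only [e3]
    have e4 : S.nx^[0] e = e := rfl
    rw [e4] at e2
    omega
  unfold chg
  rw [h1, length_nx hS he, h2]

theorem chg_iter (hS : S.Ok cmp sol) {e : D} (he : S.W e ≠ []) (k : Nat) :
    chg sol S Q (S.nx^[k] e) = chg sol S Q e := by
  induction k with
  | zero => rfl
  | succ k ih => rw [Function.iterate_succ_apply', chg_nx hS (hS.ne_iter he k), ih]

theorem length_iter (hS : S.Ok cmp sol) {e : D} (he : S.W e ≠ []) (k : Nat) :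
    (S.W (S.nx^[k] e)).length = (S.W e).length := by
  rw [hS.W_iter he, List.length_rotate]

theorem Apx.iter (hS : S.Ok cmp sol) {e : D} (he : S.W e ≠ []) (k : Nat) (h : Apx sol S e) :
    Apx sol S (S.nx^[k] e) := by
  obtain ⟨i, h1, h2, h3⟩ := h
  have h4 := (hS.len e he).1
  set d := (S.W e).length with hd
  have hp : Function.IsPeriodicPt S.nx d e := hS.per e he
  refine ⟨i + d * k - k, ?_⟩
  have e1 : S.nx^[i + d * k - k] (S.nx^[k] e) = S.nx^[i] e := by
    rw [← Function.iterate_add_apply]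
    have h5 : k ≤ d * k := Nat.le_mul_of_pos_left _ (by omega)
    have h6 : i + d * k - k + k = i + d * k := by omega
    rw [h6, Function.iterate_add_apply]
    rw [(hp.mul_const k).eq]
  rw [e1]
  exact ⟨h1, h2, h3⟩

theorem Apx.lt (hS : S.Ok cmp sol) {e : D} (he : S.W e ≠ []) (h : Apx sol S e) :
    ∃ i < (S.W e).length, sol ((S.W (S.nx^[i] e)).getD 0 0) = true ∧ S.nb e i = 0 ∧
      S.nb e (i + 1) = 0 := by
  obtain ⟨i, h1, h2, h3⟩ := h
  have h4 := (hS.len e he).1
  have hp : Function.IsPeriodicPt S.nx (S.W e).length e := hS.per e he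
  refine ⟨i % (S.W e).length, Nat.mod_lt _ (by omega), ?_⟩
  have e1 : S.nx^[i % (S.W e).length] e = S.nx^[i] e := hp.iterate_mod_apply i
  unfold Sys.nb Sys.c
  rw [Function.iterate_succ_apply', e1, h2, h3]
  exact ⟨h1, rfl, rfl⟩

/-- The conclusion at a dart. -/
def Good (sol : Nat → Bool) (S : Sys D) (Q : Par) (e : D) : Prop :=
  chg sol S Q e ≤ 0 ∧ (Apx sol S e → chg sol S Q e < 0)

theorem good_iter (hS : S.Ok cmp sol) {e : D} (he : S.W e ≠ []) (k : Nat)
    (h : Good sol S Q (S.nx^[k] e)) : Good sol S Q e := by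
  unfold Good at h ⊢
  rw [chg_iter hS he] at h
  exact ⟨h.1, fun ha => h.2 (ha.iter hS he k)⟩

/-- from the sums of the gains to the charge -/
theorem good_of (hy : Hy cmp sol S Q) {e : D} (he : S.W e ≠ []) {t : Nat}
    (ht : (t : Int) ≤ Q.den * (4 * ((S.W e).length : Int) + (ngap sol (S.W e) : Int) - 12))
    (h1 : ∑ i ∈ range (S.W e).length, Q.G (S.c (S.nx^[i] e)) (S.nb e i) ≤ t)
    (h2 : ∀ i < (S.W e).length, sol ((S.W (S.nx^[i] e)).getD 0 0) = true →
      S.nb e i = 0 → S.nb e (i + 1) = 0 →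
      ∑ i ∈ range (S.W e).length, Q.G (S.c (S.nx^[i] e)) (S.nb e i) < t) :
    Good sol S Q e := by
  have key : ∑ i ∈ range (S.W e).length, Q.ga S (S.nx^[i] e) + 2 * Q.den * (S.W e).length ≤
      ((∑ i ∈ range (S.W e).length, Q.G (S.c (S.nx^[i] e)) (S.nb e i) : Nat) : Int) := by
    rw [Nat.cast_sum]
    have h3 : ∑ i ∈ range (S.W e).length, (Q.ga S (S.nx^[i] e) + 2 * Q.den) ≤
      ∑ i ∈ range (S.W e).length, ((Q.G (S.c (S.nx^[i] e)) (S.nb e i) : Nat) : Int) :=
      sum_le_sum fun i _ => gi_le (S.nx^[i] e)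
    rw [sum_add_distrib, sum_const, card_range, nsmul_eq_mul] at h3
    have e1 : ((S.W e).length : Int) * (2 * (Q.den : Int)) = 2 * Q.den * (S.W e).length := by ring
    rw [e1] at h3
    exact h3
  have e2 : (Q.den : Int) * (4 * ((S.W e).length : Int) + (ngap sol (S.W e) : Int) - 12) =
      2 * Q.den * (S.W e).length - Q.den * (12 - 2 * ((S.W e).length : Int) -
        (ngap sol (S.W e) : Int)) := by ring
  rw [e2] at ht
  unfold Good chg
  constructor
  · have h3 : ((∑ i ∈ range (S.W e).length, Q.G (S.c (S.nx^[i] e)) (S.nb e i) : Nat) : Int) ≤ t := by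
      exact_mod_cast h1
    linarith
  · intro ha
    obtain ⟨i, hi, a1, a2, a3⟩ := ha.lt hy.ok he
    have h3 : ((∑ i ∈ range (S.W e).length, Q.G (S.c (S.nx^[i] e)) (S.nb e i) : Nat) : Int) < t := by
      exact_mod_cast h2 i hi a1 a2 a3
    linarith

theorem thr_eq (hy : Hy cmp sol S Q) {e : D} (he : S.W e ≠ []) :
    (Q.thr (S.c e) : Int) =
      Q.den * (4 * ((S.W e).length : Int) + (ngap sol (S.W e) : Int) - 12) := by
  have h4 := hy.ok.len e he
  have hd : dgn (S.c e) = (S.W e).length := dgn_enc (hy.ok.sm e) h4.1 h4.2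
  have hg : gps Q.sm (S.c e) (S.W e).length = ngap sol (S.W e) :=
    gps_eq (hy.ok.sm e) (hy.sm e)
  show ((Q.den * (4 * dgn (S.c e) + gps Q.sm (S.c e) (dgn (S.c e)) - 12) : Nat) : Int) = _
  rw [hd, hg]
  have : 12 ≤ 4 * (S.W e).length + ngap sol (S.W e) := by omega
  push_cast [Nat.cast_sub this]
  ring

/-- checked centres -/
theorem good_chk (hy : Hy cmp sol S Q) {C : Cen} (hC : Q.chk C = true) {e : D}
    (he : S.W e ≠ []) (hc : S.c e = C.c)
    (hP : ∀ P ∈ C.pats, ¬ ∀ q ∈ P, S.nb e q.1 = q.2) : Good sol S Q e := by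
  obtain ⟨h1, h2⟩ := chk_sound hy hC he hc hP
  rw [← hc] at h1 h2
  exact good_of hy he (le_of_eq (thr_eq hy he)) h1 h2

/-- no flows and charge at most 0 -/
noncomputable def Par.trv (Q : Par) (c : Nat) : Bool :=
  bif Nat.ble 12 (2 * dgn c + gps Q.sm c (dgn c)) then
    alln (dgn c) fun i => bif (Q.T.get (rot c i)).isEmpty then (Q.SG.get (rot c i)).isEmpty
      else false else false

theorem good_trv (hy : Hy cmp sol S Q) (hnu : 0 < Q.nu) {e : D} (he : S.W e ≠ [])
    (h : Q.trv (S.c e) = true) : Good sol S Q e := by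
  have h4 := hy.ok.len e he
  have hd : dgn (S.c e) = (S.W e).length := dgn_enc (hy.ok.sm e) h4.1 h4.2
  have hg : gps Q.sm (S.c e) (S.W e).length = ngap sol (S.W e) :=
    gps_eq (hy.ok.sm e) (hy.sm e)
  unfold Par.trv at h
  rw [cond_true_iff, hd, hg] at h
  obtain ⟨h0, h1⟩ := h
  have h0 := Nat.le_of_ble_eq_true h0
  have hG : ∀ i < (S.W e).length, Q.G (S.c (S.nx^[i] e)) (S.nb e i) ≤ 2 * Q.den := by
    intro i hi
    have h2 := alln_iff.1 h1 i hi
    rw [cond_true_iff, rot_c hy.ok he i] at h2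
    have h3 := hy.pos _ (hy.ok.ne_iter he i)
    have e1 : Q.SG.get (S.c (S.nx^[i] e)) = [] := List.isEmpty_iff.1 h2.2
    have e2 : Q.T.get (S.c (S.nx^[i] e)) = [] := List.isEmpty_iff.1 h2.1
    unfold Par.PosOk Par.pos at h3
    rw [e1, e2] at h3
    rcases h3 with h3 | ⟨g, h3, _⟩
    · exact h3
    · simp at h3
  have hs : ∑ i ∈ range (S.W e).length, Q.G (S.c (S.nx^[i] e)) (S.nb e i) ≤
      2 * Q.den * (S.W e).length := by
    have := sum_le_sum (s := range (S.W e).length) (fun i hi => hG i (mem_range.1 hi))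
    rw [sum_const, card_range, smul_eq_mul] at this
    rw [mul_comm (2 * Q.den)]
    exact this
  have ht : ((2 * Q.den * (S.W e).length : Nat) : Int) ≤
      Q.den * (4 * ((S.W e).length : Int) + (ngap sol (S.W e) : Int) - 12) := by
    have h5 : (12 : Int) ≤ 2 * ((S.W e).length : Int) + (ngap sol (S.W e) : Int) := by
      exact_mod_cast h0
    have h6 : (0 : Int) ≤ Q.den * (2 * ((S.W e).length : Int) + (ngap sol (S.W e) : Int) - 12) :=
      mul_nonneg (by positivity) (by linarith)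
    push_cast
    nlinarith
  refine good_of hy he ht hs fun i hi _ n1 _ => ?_
  refine lt_of_lt_of_le (sum_lt_sum (fun j hj => hG j (mem_range.1 hj)) ⟨i, mem_range.2 hi, ?_⟩) ?_
  · rw [n1]
    unfold Par.G Par.gi
    rw [if_pos rfl]
    have := hy.nu
    omega
  · rw [sum_const, card_range, smul_eq_mul, mul_comm]

/-- The star inequality for all darts. -/
theorem good_all (hy : Hy cmp sol S Q) (hnu : 0 < Q.nu) (cens : List Cen)
    (hchk : ∀ C ∈ cens, Q.chk C = true)
    (hP : ∀ C ∈ cens, ∀ P ∈ C.pats, ∀ e, S.c e = C.c → ¬ ∀ q ∈ P, S.nb e q.1 = q.2)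
    (hcov : ∀ e, S.W e ≠ [] → (∃ i, ∃ C ∈ cens, S.c (S.nx^[i] e) = C.c) ∨
      Q.trv (S.c e) = true) (e : D) (he : S.W e ≠ []) : Good sol S Q e := by
  rcases hcov e he with ⟨i, C, hC, hc⟩ | h
  · exact good_iter hy.ok he i (good_chk hy (hchk C hC) (hy.ok.ne_iter he i) hc
      fun P hPm => hP C hC P hPm _ hc)
  · exact good_trv hy hnu he h

end

end Pool.FCS
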