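import Pool.Agent.FCS.Bq
import Mathlib.Data.Nat.Bitwise

/-!
# Star check: the search with bit masks

The candidates of a position are bits, the bit `0` of a position stands for every other neighbour.
The state of the search is one number `M` (the bits which are still possible) and one number `Z`
(the bits which have been chosen).
-/

namespace Pool.FCS

/-- A candidate: gain, bit, excluded bits, patterns (the other members, as masks). -/
structure Rw where
  g : Nat
  bt : Nat
  E : Nat
  ps : List (List Nat)

/-- A position: shift, mask of the bits, packed gains, default gain, candidates. -/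
structure PM where
  a : Nat
  f : Nat
  gp : Nat
  df : Nat
  rows : List Rw

/-- the gain of the bit `i` -/
def gn (gp i : Nat) : Nat := Nat.mod (Nat.shiftRight gp (Nat.mul 20 i)) 1048576

/-- the best gain of a position -/
def bst (p : PM) (M : Nat) : Nat := gn p.gp (Nat.log2 (Nat.land (Nat.shiftRight M p.a) p.f))

/-- sum of the best gains -/
def bsts (M : Nat) (ps : List PM) : Nat :=
  List.rec (motive := fun _ => Nat) 0 (fun p _ ih => Nat.add (bst p M) ih) ps

/-- the only member without a chosen bit -/
def clr (Z : Nat) (P : List Nat) : Nat → Nat :=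
  List.rec (motive := fun _ => Nat → Nat) (fun acc => acc)
    (fun B _ ih acc => Bool.rec (motive := fun _ => Nat) (ih acc)
      (Bool.rec (motive := fun _ => Nat) 0 (ih B) (Nat.beq acc 0)) (Nat.beq (Nat.land B Z) 0)) P

/-- the bits which are excluded by patterns -/
def cls (Z : Nat) (ps : List (List Nat)) : Nat :=
  List.rec (motive := fun _ => Nat) 0 (fun P _ ih => Nat.lor (clr Z P 0) ih) ps

/-- The search. -/
def gom (thr : Nat) (ps : List PM) : Nat → Nat → Nat → Bool :=
  List.rec (motive := fun _ => Nat → Nat → Nat → Bool)
    (fun _ _ s => Nat.ble s thr)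
    (fun p ps ih M Z s =>
      (fun r : Nat =>
        Bool.rec (motive := fun _ => Bool)
          (List.rec (motive := fun _ => Bool)
            (Bool.rec (motive := fun _ => Bool)
              (Bool.rec (motive := fun _ => Bool) (ih M Z (Nat.add s p.df)) true
                (Nat.beq (Nat.land (Nat.shiftRight M p.a) 1) 0)) true
              (Nat.ble (Nat.add s (Nat.add p.df r)) thr))
            (fun c _ jh =>
              Bool.rec (motive := fun _ => Bool)
                (Bool.rec (motive := fun _ => Bool)
                  (Bool.rec (motive := fun _ => Bool) false jh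
                    (ih (Nat.xor M (Nat.land M (Nat.lor c.E (cls (Nat.lor Z c.bt) c.ps))))
                      (Nat.lor Z c.bt) (Nat.add s c.g))) jh
                  (Nat.beq (Nat.land M c.bt) 0)) true
                (Nat.ble (Nat.add s (Nat.add c.g r)) thr)) p.rows)
          true
          (Nat.ble (Nat.add s (Nat.add (bst p M) r)) thr))
        (bsts M ps)) ps

section sound

variable {τ : Nat → Prop}

/-- a true bit -/
def Sat (τ : Nat → Prop) (B : Nat) : Prop := ∃ t, τ t ∧ Nat.testBit B t = true

/-- the pattern does not occur -/
def PatOk (τ : Nat → Prop) (P : List Nat) : Prop := (∀ B ∈ P, B ≠ 0) ∧ ¬ ∀ B ∈ P, Sat τ B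

/-- the exclusions of a candidate are correct -/
def RwOk (τ : Nat → Prop) (r : Rw) : Prop :=
  (∀ t, Nat.testBit r.E t = true → ¬ τ t) ∧ ∀ P ∈ r.ps, PatOk τ P

/-- decreasing gains -/
def SrtR : Nat → List Rw → Nat → Prop
  | m, [], df => df ≤ m
  | m, r :: l, df => r.g ≤ m ∧ SrtR r.g l df

/-- the position `p` is correct -/
def POk2 (τ : Nat → Prop) (k G : Nat) (p : PM) : Prop :=
  Nat.testBit p.f k = true ∧ (∀ i, k ≤ i → Nat.testBit p.f i = true → G ≤ gn p.gp i) ∧
    (∃ m, SrtR m p.rows p.df) ∧
    ((k = 0 ∧ G ≤ p.df) ∨ ∃ r ∈ p.rows, r.bt = 2 ^ (p.a + k) ∧ G ≤ r.g ∧ RwOk τ r)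

theorem SrtR.df {m df : Nat} : ∀ {l : List Rw}, SrtR m l df → df ≤ m
  | [], h => h
  | _ :: l, h => le_trans (SrtR.df (l := l) h.2) h.1

theorem SrtR.le {m df : Nat} : ∀ {l : List Rw}, SrtR m l df → ∀ r ∈ l, r.g ≤ m
  | [], _, r, hr => by simp at hr
  | a :: l, h, r, hr => by
    rcases List.mem_cons.1 hr with rfl | hr
    · exact h.1
    · exact le_trans (SrtR.le (l := l) h.2 r hr) h.1

theorem land_eq {a b : Nat} : Nat.land a b = a &&& b := rfl

theorem lor_eq {a b : Nat} : Nat.lor a b = a ||| b := rfl

theorem xor_eq {a b : Nat} : Nat.xor a b = a ^^^ b := rfl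

theorem shr_eq {a b : Nat} : Nat.shiftRight a b = a >>> b := rfl

theorem shl_eq {a b : Nat} : Nat.shiftLeft a b = a <<< b := rfl

theorem not_sat_zero : ¬ Sat τ 0 := by
  rintro ⟨t, -, ht⟩
  rw [Nat.zero_testBit] at ht
  exact absurd ht (by decide)

/-- a common bit -/
theorem land_ne {B Z : Nat} (h : Nat.land B Z ≠ 0) :
    ∃ t, Nat.testBit B t = true ∧ Nat.testBit Z t = true := by
  by_contra hc
  push Not at hc
  apply h
  rw [land_eq]
  apply Nat.eq_of_testBit_eq
  intro i
  rw [Nat.testBit_and, Nat.zero_testBit]
  cases hB : Nat.testBit B i with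
  | false => rfl
  | true =>
    have := hc i hB
    simpa using this

theorem clr_sound {Z : Nat} (hZ : ∀ t, Nat.testBit Z t = true → τ t) :
    ∀ (P : List Nat) (acc : Nat), (∀ B ∈ P, B ≠ 0) →
      (acc ≠ 0 → ¬ (Sat τ acc ∧ ∀ B ∈ P, Sat τ B)) →
      (acc = 0 → ¬ ∀ B ∈ P, Sat τ B) → ¬ Sat τ (clr Z P acc)
  | [], acc, _, h1, h0 => by
    show ¬ Sat τ acc
    by_cases ha : acc = 0
    · exfalso
      exact h0 ha (fun B hB => by simp at hB)
    · intro hs
      exact h1 ha ⟨hs, fun B hB => by simp at hB⟩
  | B :: P, acc, hn0, h1, h0 => by
    have e : clr Z (B :: P) acc = Bool.rec (motive := fun _ => Nat) (clr Z P acc)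
      (Bool.rec (motive := fun _ => Nat) 0 (clr Z P B) (Nat.beq acc 0))
      (Nat.beq (Nat.land B Z) 0) := rfl
    have hn1 : ∀ C ∈ P, C ≠ 0 := fun C hC => hn0 C (List.mem_cons_of_mem _ hC)
    have hB0 : B ≠ 0 := hn0 B (List.mem_cons_self ..)
    rw [e]
    cases hb : Nat.beq (Nat.land B Z) 0 with
    | false =>
      show ¬ Sat τ (clr Z P acc)
      have hn : Nat.land B Z ≠ 0 := Nat.ne_of_beq_eq_false hb
      obtain ⟨t, t1, t2⟩ := land_ne hn
      have hsB : Sat τ B := ⟨t, hZ t t2, t1⟩
      refine clr_sound hZ P acc hn1 (fun ha hs => h1 ha ⟨hs.1, fun C hC => ?_⟩)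
        fun ha hs => h0 ha fun C hC => ?_
      · rcases List.mem_cons.1 hC with rfl | hC
        · exact hsB
        · exact hs.2 C hC
      · rcases List.mem_cons.1 hC with rfl | hC
        · exact hsB
        · exact hs C hC
    | true =>
      show ¬ Sat τ (Bool.rec (motive := fun _ => Nat) 0 (clr Z P B) (Nat.beq acc 0))
      cases ha : Nat.beq acc 0 with
      | false => exact not_sat_zero
      | true =>
        show ¬ Sat τ (clr Z P B)
        have ha' := Nat.eq_of_beq_eq_true ha
        refine clr_sound hZ P B hn1 (fun _ hs => h0 ha' fun C hC => ?_) (fun h => absurd h hB0)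
        rcases List.mem_cons.1 hC with rfl | hC
        · exact hs.1
        · exact hs.2 C hC

theorem sat_lor {A B : Nat} (h : Sat τ (Nat.lor A B)) : Sat τ A ∨ Sat τ B := by
  obtain ⟨t, h1, h2⟩ := h
  rw [lor_eq, Nat.testBit_or, Bool.or_eq_true] at h2
  rcases h2 with h2 | h2
  · exact Or.inl ⟨t, h1, h2⟩
  · exact Or.inr ⟨t, h1, h2⟩

theorem cls_sound {Z : Nat} (hZ : ∀ t, Nat.testBit Z t = true → τ t) :
    ∀ (ps : List (List Nat)), (∀ P ∈ ps, PatOk τ P) → ¬ Sat τ (cls Z ps)
  | [], _ => not_sat_zero
  | P :: ps, h => by
    have e : cls Z (P :: ps) = Nat.lor (clr Z P 0) (cls Z ps) := rfl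
    rw [e]
    intro hs
    have hP := h P (List.mem_cons_self ..)
    rcases sat_lor hs with hs | hs
    · exact clr_sound hZ P 0 hP.1 (fun h => absurd rfl h) (fun _ => hP.2) hs
    · exact cls_sound hZ ps (fun Q hQ => h Q (List.mem_cons_of_mem _ hQ)) hs

/-- clearing bits which are not true -/
theorem clear_ok {M E t : Nat} (ht : τ t) (hM : Nat.testBit M t = true) (hE : ¬ Sat τ E) :
    Nat.testBit (Nat.xor M (Nat.land M E)) t = true := by
  have h1 : Nat.testBit E t = false := by
    cases h : Nat.testBit E t with
    | false => rfl
    | true => exact absurd ⟨t, ht, h⟩ hE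
  rw [xor_eq, land_eq, Nat.testBit_xor, Nat.testBit_and, hM, h1]
  rfl

theorem testBit_log2 {m : Nat} (h : m ≠ 0) : Nat.testBit m (Nat.log2 m) = true := by
  have h1 : 2 ^ Nat.log2 m ≤ m := Nat.log2_self_le h
  have h2 : m < 2 ^ (Nat.log2 m + 1) := Nat.lt_log2_self
  rw [Nat.testBit_eq_decide_div_mod_eq, decide_eq_true_eq]
  have h3 : m / 2 ^ Nat.log2 m = 1 := by
    apply Nat.div_eq_of_lt_le
    · omega
    · rw [pow_succ] at h2
      omega
  rw [h3]

theorem bst_le {p : PM} {k G M : Nat} (h1 : Nat.testBit p.f k = true)
    (h2 : ∀ i, k ≤ i → Nat.testBit p.f i = true → G ≤ gn p.gp i)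
    (hM : Nat.testBit M (p.a + k) = true) : G ≤ bst p M := by
  set m := Nat.land (Nat.shiftRight M p.a) p.f with hm
  have hmk : Nat.testBit m k = true := by
    rw [hm, land_eq, shr_eq, Nat.testBit_and, Nat.testBit_shiftRight, hM, h1]
    rfl
  have hm0 : m ≠ 0 := by
    intro h0
    rw [h0, Nat.zero_testBit] at hmk
    exact absurd hmk (by decide)
  have hk : k ≤ Nat.log2 m := by
    rw [Nat.le_log2 hm0]
    exact Nat.ge_two_pow_of_testBit hmk
  have h3 := testBit_log2 hm0
  have h4 : Nat.testBit p.f (Nat.log2 m) = true := by
    rw [hm, land_eq, Nat.testBit_and, Bool.and_eq_true] at h3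
    rw [hm, land_eq]
    exact h3.2
  exact h2 _ hk h4

variable {κ G : Nat → Nat}

theorem bsts_le {M : Nat} : ∀ (ps : List PM), (∀ p ∈ ps, POk2 τ (κ p.a) (G p.a) p) →
    (∀ p ∈ ps, Nat.testBit M (p.a + κ p.a) = true) → (ps.map fun p => G p.a).sum ≤ bsts M ps
  | [], _, _ => le_refl _
  | p :: ps, h, hM => by
    have h1 := h p (List.mem_cons_self ..)
    have h2 := bst_le h1.1 h1.2.1 (hM p (List.mem_cons_self ..))
    have h3 := bsts_le ps (fun q hq => h q (List.mem_cons_of_mem _ hq))
      (fun q hq => hM q (List.mem_cons_of_mem _ hq))
    show _ ≤ bst p M + bsts M ps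
    simp only [List.map_cons, List.sum_cons]
    omega

theorem gom_sound (thr : Nat) : ∀ (ps : List PM), (∀ p ∈ ps, POk2 τ (κ p.a) (G p.a) p) →
    (∀ p ∈ ps, τ (p.a + κ p.a)) → ∀ M Z s, (∀ p ∈ ps, Nat.testBit M (p.a + κ p.a) = true) →
    (∀ t, Nat.testBit Z t = true → τ t) → gom thr ps M Z s = true →
    s + (ps.map fun p => G p.a).sum ≤ thr
  | [], _, _, M, Z, s, _, _, h => by
    have : Nat.ble s thr = true := h
    simpa using Nat.le_of_ble_eq_true this
  | p :: ps, hp, ht, M, Z, s, hM, hZ, h => by
    obtain ⟨f1, f2, ⟨m, f3⟩, f4⟩ := hp p (List.mem_cons_self ..)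
    have hps := fun q hq => hp q (List.mem_cons_of_mem p hq)
    have hts := fun q hq => ht q (List.mem_cons_of_mem p hq)
    have hMs := fun q hq => hM q (List.mem_cons_of_mem p hq)
    have hM0 := hM p (List.mem_cons_self ..)
    have ht0 := ht p (List.mem_cons_self ..)
    have hr := bsts_le ps hps hMs
    have hb0 := bst_le f1 f2 hM0
    have ih := gom_sound thr ps hps hts
    replace h : Bool.rec (motive := fun _ => Bool)
          (List.rec (motive := fun _ => Bool)
            (Bool.rec (motive := fun _ => Bool)
              (Bool.rec (motive := fun _ => Bool) (gom thr ps M Z (s + p.df)) true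
                (Nat.beq (Nat.land (Nat.shiftRight M p.a) 1) 0)) true
              (Nat.ble (s + (p.df + bsts M ps)) thr))
            (fun (c : Rw) _ jh =>
              Bool.rec (motive := fun _ => Bool)
                (Bool.rec (motive := fun _ => Bool)
                  (Bool.rec (motive := fun _ => Bool) false jh
                    (gom thr ps (Nat.xor M (Nat.land M (Nat.lor c.E (cls (Nat.lor Z c.bt) c.ps))))
                      (Nat.lor Z c.bt) (s + c.g))) jh
                  (Nat.beq (Nat.land M c.bt) 0)) true
                (Nat.ble (s + (c.g + bsts M ps)) thr)) p.rows)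
          true
          (Nat.ble (s + (bst p M + bsts M ps)) thr) = true := h
    simp only [List.map_cons, List.sum_cons]
    generalize bsts M ps = r at *
    generalize bst p M = b at *
    cases hb : Nat.ble (s + (b + r)) thr with
    | true =>
      have h1 := Nat.le_of_ble_eq_true hb
      omega
    | false =>
      rw [hb] at h
      have key : ∀ (l : List Rw) (m : Nat), SrtR m l p.df →
          ((κ p.a = 0 ∧ G p.a ≤ p.df) ∨ ∃ r ∈ l, r.bt = 2 ^ (p.a + κ p.a) ∧ G p.a ≤ r.g ∧
            RwOk τ r) →
          List.rec (motive := fun _ => Bool)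
            (Bool.rec (motive := fun _ => Bool)
              (Bool.rec (motive := fun _ => Bool) (gom thr ps M Z (s + p.df)) true
                (Nat.beq (Nat.land (Nat.shiftRight M p.a) 1) 0)) true
              (Nat.ble (s + (p.df + r)) thr))
            (fun (c : Rw) _ jh =>
              Bool.rec (motive := fun _ => Bool)
                (Bool.rec (motive := fun _ => Bool)
                  (Bool.rec (motive := fun _ => Bool) false jh
                    (gom thr ps (Nat.xor M (Nat.land M (Nat.lor c.E (cls (Nat.lor Z c.bt) c.ps))))
                      (Nat.lor Z c.bt) (s + c.g))) jh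
                  (Nat.beq (Nat.land M c.bt) 0)) true
                (Nat.ble (s + (c.g + r)) thr)) l = true →
          s + (G p.a + (ps.map fun q => G q.a).sum) ≤ thr := by
        intro l
        induction l with
        | nil =>
          intro m _ hc hh
          rcases hc with ⟨hk, hc⟩ | ⟨r', hr', -⟩
          · dsimp only at hh
            cases hd : Nat.ble (s + (p.df + r)) thr with
            | true => have := Nat.le_of_ble_eq_true hd; omega
            | false =>
              rw [hd] at hh
              have hz : Nat.beq (Nat.land (Nat.shiftRight M p.a) 1) 0 = false := by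
                rw [← Bool.not_eq_true]
                intro h0
                have h1 := Nat.eq_of_beq_eq_true h0
                have h2 : Nat.testBit ((M >>> p.a) &&& 1) 0 = true := by
                  rw [hk] at hM0
                  rw [Nat.testBit_and, Nat.testBit_shiftRight, hM0]
                  rfl
                rw [land_eq, shr_eq] at h1
                rw [h1, Nat.zero_testBit] at h2
                exact absurd h2 (by decide)
              rw [hz] at hh
              have := ih M Z (s + p.df) hMs hZ hh
              omega
          · simp at hr'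
        | cons c l jh =>
          intro m hs hc hh
          dsimp only at hh
          cases hd : Nat.ble (s + (c.g + r)) thr with
          | true =>
            have h1 := Nat.le_of_ble_eq_true hd
            have h2 : G p.a ≤ c.g := by
              rcases hc with ⟨-, hc⟩ | ⟨r', hr', -, hc, -⟩
              · exact le_trans hc (SrtR.df hs.2)
              · rcases List.mem_cons.1 hr' with rfl | hr'
                · exact hc
                · exact le_trans hc (SrtR.le hs.2 r' hr')
            omega
          | false =>
            rw [hd] at hh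
            replace hh : Bool.rec (motive := fun _ => Bool)
                  (Bool.rec (motive := fun _ => Bool) false _
                    (gom thr ps (Nat.xor M (Nat.land M (Nat.lor c.E (cls (Nat.lor Z c.bt) c.ps))))
                      (Nat.lor Z c.bt) (s + c.g))) _
                  (Nat.beq (Nat.land M c.bt) 0) = true := hh
            cases hz : Nat.beq (Nat.land M c.bt) 0 with
            | true =>
              rw [hz] at hh
              refine jh c.g hs.2 ?_ hh
              rcases hc with hc | ⟨r', hr', hbt, hc⟩
              · exact Or.inl hc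
              · rcases List.mem_cons.1 hr' with rfl | hr'
                · exfalso
                  have h0 := Nat.eq_of_beq_eq_true hz
                  rw [hbt, land_eq] at h0
                  have h1 : Nat.testBit (M &&& 2 ^ (p.a + κ p.a)) (p.a + κ p.a) = true := by
                    rw [Nat.testBit_and, hM0, Nat.testBit_two_pow_self]
                    rfl
                  rw [h0, Nat.zero_testBit] at h1
                  exact absurd h1 (by decide)
                · exact Or.inr ⟨r', hr', hbt, hc⟩
            | false =>
              rw [hz] at hh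
              replace hh : Bool.rec (motive := fun _ => Bool) false _
                    (gom thr ps (Nat.xor M (Nat.land M (Nat.lor c.E (cls (Nat.lor Z c.bt) c.ps))))
                      (Nat.lor Z c.bt) (s + c.g)) = true := hh
              cases hg : gom thr ps
                  (Nat.xor M (Nat.land M (Nat.lor c.E (cls (Nat.lor Z c.bt) c.ps))))
                  (Nat.lor Z c.bt) (s + c.g) with
              | false => rw [hg] at hh; exact Bool.noConfusion hh
              | true =>
                rw [hg] at hh
                rcases hc with hc | ⟨r', hr', hbt, hc⟩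
                · exact jh c.g hs.2 (Or.inl hc) hh
                · rcases List.mem_cons.1 hr' with rfl | hr'
                  · obtain ⟨c1, c2, c3⟩ := hc
                    have hZ' : ∀ t, Nat.testBit (Nat.lor Z r'.bt) t = true → τ t := by
                      intro t h
                      rw [lor_eq, Nat.testBit_or, Bool.or_eq_true, hbt,
                        Nat.testBit_two_pow, decide_eq_true_eq] at h
                      rcases h with h | h
                      · exact hZ t h
                      · rw [← h]; exact ht0
                    have hE : ¬ Sat τ (Nat.lor r'.E (cls (Nat.lor Z r'.bt) r'.ps)) := by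
                      intro hs
                      rcases sat_lor hs with ⟨t, t1, t2⟩ | hs
                      · exact c2 t t2 t1
                      · exact cls_sound hZ' _ c3 hs
                    have h9 := ih _ _ (s + r'.g)
                      (fun q hq => clear_ok (hts q hq) (hMs q hq) hE) hZ' hg
                    omega
                  · exact jh c.g hs.2 (Or.inr ⟨r', hr', hbt, hc⟩) hh
      exact key p.rows m f3 f4 h

end sound

end Pool.FCS
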