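import Pool.Agent.FCS.Bn

/-!
# Star check: the charge with prices of the null neighbours
-/

namespace Pool.FCS

open Finset

/-- contribution of an edge, `a` here, `b` at the other end; a null neighbour costs `nu` and the
prices of the two letters of `a` at the edge -/
def gav2 (nu : Nat) (h : Nat → Nat) (F : List Nat → List Nat → Nat) (a b : List Nat) : Int :=
  if b = [] then -((nu : Int) + h (a.getD 0 0) + h (a.getD (a.length - 1) 0))
  else 2 * ((F b a : Int) - (F a b : Int))

/-- the charge of a star for the flows `F`; one null neighbour costs `dl` more -/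
def chv2 {D : Type*} (sol lng : Nat → Bool) (den nl nu dl : Nat) (h : Nat → Nat)
    (F : List Nat → List Nat → Nat) (S : Sys D) (e : D) : Int :=
  12 * den - 2 * (S.W e).length * den - gsv sol lng den nl (S.W e) +
    ∑ i ∈ range (S.W e).length, gav2 nu h F (S.W (S.nx^[i] e)) (S.W (S.al (S.nx^[i] e))) -
    (if ((range (S.W e).length).filter fun i => S.W (S.al (S.nx^[i] e)) = []).card = 1
      then (dl : Int) else 0)

section sound

variable {D : Type*} {cmp : Nat → Nat → Bool} {sol lng : Nat → Bool} {S : Sys D}

/-- rotation of a sum -/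
theorem sum_nx (hS : S.Ok cmp sol) {M : Type*} [AddCommMonoid M] [IsRightCancelAdd M] (g : D → M)
    {e : D} (he : S.W e ≠ []) :
    ∑ i ∈ range (S.W e).length, g (S.nx^[i] (S.nx e)) =
      ∑ i ∈ range (S.W e).length, g (S.nx^[i] e) := by
  have e1 := sum_range_succ (fun i => g (S.nx^[i] e)) (S.W e).length
  have e2 := sum_range_succ' (fun i => g (S.nx^[i] e)) (S.W e).length
  rw [hS.per e he] at e1
  have e3 : ∀ i, S.nx^[i] (S.nx e) = S.nx^[i + 1] e := fun i => rfl
  simp only [e3]
  have e4 : S.nx^[0] e = e := rfl
  rw [e4] at e2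
  exact add_right_cancel (e2.symm.trans e1)

theorem chv2_nx (hS : S.Ok cmp sol) {den nl nu dl : Nat} {h : Nat → Nat}
    {F : List Nat → List Nat → Nat} {e : D} (he : S.W e ≠ []) :
    chv2 sol lng den nl nu dl h F S (S.nx e) = chv2 sol lng den nl nu dl h F S e := by
  have h1 : gsv sol lng den nl (S.W (S.nx e)) = gsv sol lng den nl (S.W e) := by
    rw [hS.rot e he, gsv_rotate]
  have h0 : (S.W (S.nx e)).length = (S.W e).length := by rw [hS.rot e he, List.length_rotate]
  have h2 := sum_nx hS (fun x => gav2 nu h F (S.W x) (S.W (S.al x))) he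
  have h3 := sum_nx hS (fun x => if S.W (S.al x) = [] then 1 else 0) he
  have h4 : ((range (S.W e).length).filter fun i => S.W (S.al (S.nx^[i] (S.nx e))) = []).card =
      ((range (S.W e).length).filter fun i => S.W (S.al (S.nx^[i] e)) = []).card := by
    rw [card_filter, card_filter]
    exact h3
  unfold chv2
  rw [h1, h0, h4, h2]

theorem chv2_iter (hS : S.Ok cmp sol) {den nl nu dl : Nat} {h : Nat → Nat}
    {F : List Nat → List Nat → Nat} {e : D} (he : S.W e ≠ []) (k : Nat) :
    chv2 sol lng den nl nu dl h F S (S.nx^[k] e) = chv2 sol lng den nl nu dl h F S e := by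
  induction k with
  | zero => rfl
  | succ k ih => rw [Function.iterate_succ_apply', chv2_nx hS (hS.ne_iter he k), ih]

end sound

end Pool.FCS
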