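import Pool.Agent.FCS.Ma
import Pool.Agent.FCS.Mx

/-!
# Star check: conflicts with weights
-/

namespace Pool.FCS

noncomputable section

/-- the slack of a flagged code or of a key -/
def slf (u : Nat) : Nat := Nat.mod (Nat.div u 1073741824) 4

/-- evaluation at a literal -/
def sl6 {α : Type} (f : Nat → α) (j : Nat) : α :=
  Bool.rec (motive := fun _ => α)
    (Bool.rec (motive := fun _ => α)
      (Bool.rec (motive := fun _ => α)
        (Bool.rec (motive := fun _ => α)
          (Bool.rec (motive := fun _ => α)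
            (Bool.rec (motive := fun _ => α) (f j) (f 5) (Nat.beq j 5))
            (f 4) (Nat.beq j 4))
          (f 3) (Nat.beq j 3))
        (f 2) (Nat.beq j 2))
      (f 1) (Nat.beq j 1))
    (f 0) (Nat.beq j 0)

theorem sl6_eq {α : Type} (f : Nat → α) (j : Nat) : sl6 f j = f j := by
  unfold sl6
  cases h0 : Nat.beq j 0 with
  | true => rw [Nat.eq_of_beq_eq_true h0]
  | false =>
  cases h1 : Nat.beq j 1 with
  | true => rw [Nat.eq_of_beq_eq_true h1]
  | false =>
  cases h2 : Nat.beq j 2 with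
  | true => rw [Nat.eq_of_beq_eq_true h2]
  | false =>
  cases h3 : Nat.beq j 3 with
  | true => rw [Nat.eq_of_beq_eq_true h3]
  | false =>
  cases h4 : Nat.beq j 4 with
  | true => rw [Nat.eq_of_beq_eq_true h4]
  | false =>
  cases h5 : Nat.beq j 5 with
  | true => rw [Nat.eq_of_beq_eq_true h5]
  | false => rfl

/-- length -/
def len (cl : List (Nat × Nat)) : Nat :=
  List.rec (motive := fun _ => Nat) 0 (fun _ _ ih => Nat.add ih 1) cl

/-- the code of the candidate with the bit `i` -/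
def cda (cl : List (Nat × Nat)) (i : Nat) : Nat :=
  List.rec (motive := fun _ => Nat → Nat) (fun _ => 0)
    (fun c _ ih m => Bool.rec (motive := fun _ => Nat) (ih (Nat.sub m 1)) c.2 (Nat.beq m i)) cl
    (len cl)

/-- The parameters: `w` bits for a position, `rt` the table of the pairs of letters at the ends of
an edge, `ua`, `ub` the letters at the two ends of an edge (view letter of the centre), `lg` the
letters of a view letter, `vl` the view letter of a digit, `lev`, `leb` the letters of the facts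
and the view letters, blind letters, `imp` impossible letters, `gv` conflicts of two neighbours with
the view letter between them, `cd` the code of a candidate (key, bit), `hd` the price of a digit
at a null neighbour, `dl` the additional price of a single null neighbour. -/
structure Pn where
  Q : Pm
  w : Nat
  rt : Nat
  ua : Nat → Nat → Nat → Nat → Bool
  ub : Nat → Nat → Nat → Nat → Bool
  lg : Nat → List Nat
  vl : Nat → Nat
  lev : Nat → Nat → Bool
  leb : Nat → Nat → Bool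
  imp : Nat → Nat → Nat → Nat → Bool
  gv : Nat → Nat → Nat → Nat → Bool
  cd : Nat → Nat → Nat
  hd : Nat → Nat
  dl : Nat

/-- the price of a null neighbour at the key `a` -/
def Pn.nk (P : Pn) (a : Nat) : Nat :=
  Nat.add P.Q.nu (Nat.add (P.hd (Nat.mod (hi a) 32)) (P.hd (Nat.div (hi a) 32)))

/-- shifted gain (codes) -/
def Pn.G2 (P : Pn) (a b : Nat) : Nat :=
  bif Nat.beq b 0 then Nat.sub P.Q.sh (P.nk (P.Q.ky a)) else P.Q.Gn (P.Q.ky a) (P.Q.ky b)

/-- the position is correct for the neighbour `b` -/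
def Pn.PosOk2 (P : Pn) (a b : Nat) : Prop :=
  P.G2 a b ≤ (P.Q.pos (P.Q.ky a) 0).df ∨
    ∃ g, (g, P.Q.nz b) ∈ (P.Q.pos (P.Q.ky a) 0).cl ∧ P.G2 a b ≤ g

/-- the two letters of a face at the ends of an edge: `k`, `m` the slacks, `l` the first digit of
one word, `x` the last digit of the other word -/
def Pn.r2 (P : Pn) (k l m x : Nat) : Bool :=
  Nat.beq (Nat.land (Nat.shiftRight P.rt
    (Nat.add l (Nat.add (Nat.mul 32 x) (Nat.mul 1024 (Nat.add k (Nat.mul 4 m)))))) 1) 1

/-- conflict of two words at the ends of an edge -/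
def Pn.pcs (P : Pn) (k x m y : Nat) : Bool :=
  Bool.rec (motive := fun _ => Bool) true
    (Bool.rec (motive := fun _ => Bool) true (memF y (getF P.Q.PF x))
      (P.r2 k (Nat.mod x 32) m (Nat.div y (pwF y))))
    (P.r2 m (Nat.mod y 32) k (Nat.div x (pwF x)))

/-- conflict of two neighbours `u`, `v` of a centre with the slack `k`, `x` the digit of the sector
between them -/
def Pn.sid (P : Pn) (k x u v : Nat) : Bool :=
  Bool.rec (motive := fun _ => Bool)
    (Bool.rec (motive := fun _ => Bool)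
      (Bool.rec (motive := fun _ => Bool)
        (Bool.rec (motive := fun _ => Bool)
          (Bool.rec (motive := fun _ => Bool) false
            (P.pcs (slf u) (rrc (lo u)) (slf v) (rlc (lo v)))
            (Nat.beq (Nat.land (Nat.shiftRight P.Q.sm x) 1) 1))
          true (P.Q.gk k x u v))
        false (Nat.beq x 0))
      false (Nat.ble v 1))
    false (Nat.ble u 1)

/-- conflict of the codes `u` at the position `i` and `v` at the position `j` -/
def Pn.exc (P : Pn) (k c d i u j v : Nat) : Bool :=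
  Bool.rec (motive := fun _ => Bool)
    (Bool.rec (motive := fun _ => Bool)
      (Bool.rec (motive := fun _ => Bool) false
        (P.sid k (dg (Nat.pow 32 j) c) v u) (Nat.beq i (nxt d j)))
      (P.sid k (dg (Nat.pow 32 i) c) u v) (Nat.beq j (nxt d i)))
    (Bool.rec (motive := fun _ => Bool) false (nlc P.Q.sm c d i [(j, 1)]) (Nat.beq v 1))
    (Nat.beq u 1)

section sound

variable {D : Type*} {cmp cmp' : Nat → Nat → Bool} {sol sol' : Nat → Bool} {Y : Sys D}
  {f : Nat → Nat} {P : Pn}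

/-- The hypotheses on the conflicts. -/
structure Hc2 (cmp cmp' : Nat → Nat → Bool) (sol sol' : Nat → Bool) (Y : Sys D) (f : Nat → Nat)
    (P : Pn) : Prop where
  ok : Y.Ok cmp sol
  hb : Bmp P.Q.bm f Y
  ok' : (Y.mp f).Ok cmp' sol'
  hsm : ∀ e, ∀ x ∈ Y.W e, tb P.Q.sm (x + 1) = sol x
  hr2 : ∀ r, Y.W r ≠ [] → Y.W (Y.al r) ≠ [] →
    P.r2 (wsl P.Q.wm (Y.c r)) (f ((Y.W r).getD 0 0) + 1) (wsl P.Q.wm (Y.c (Y.al r)))
      (f ((Y.W (Y.al r)).getD ((Y.W (Y.al r)).length - 1) 0) + 1) = true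
  hpf : ∀ r, Y.W r ≠ [] → Y.W (Y.al r) ≠ [] →
    P.Q.pf (blc P.Q.bm (Y.c r)) (blc P.Q.bm (Y.c (Y.al r))) = false
  hgk : ∀ r, Y.W r ≠ [] → Y.W (Y.al r) ≠ [] → Y.W (Y.al (Y.nx r)) ≠ [] →
    P.Q.gk (wsl P.Q.wm (Y.c r)) ((Y.W r).getD 0 0 + 1) (nfc P.Q.bm P.Q.wm P.Q.sm (Y.c (Y.al r)))
      (nfc P.Q.bm P.Q.wm P.Q.sm (Y.c (Y.al (Y.nx r)))) = false
  hcd : ∀ a i, P.cd a i = cda (P.Q.pos a 0).cl i

theorem slf_nfc {bm wm sm c : Nat} (h : blc bm c < 1073741824) :
    slf (nfc bm wm sm c) = wsl wm c := by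
  have h1 : (6 - wtc wm c) % 4 < 4 := Nat.mod_lt _ (by norm_num)
  show (blc bm c + (1073741824 * ((6 - wtc wm c) % 4) +
    (bif so4 sm c then 4294967296 else 0))) / 1073741824 % 4 = (6 - wtc wm c) % 4
  cases so4 sm c
  · dsimp only [cond_false]; omega
  · dsimp only [cond_true]; omega

theorem slf_ky {Q : Pm} {c : Nat} (h : blc Q.bm c < 1073741824) :
    slf (Q.ky c) = wsl Q.wm c := by
  have e : slf (mi (Q.ky c)) = slf (Q.ky c) := by
    show Q.ky c % 8589934592 / 1073741824 % 4 = Q.ky c / 1073741824 % 4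
    omega
  unfold Pm.ky at e ⊢
  rw [← e, mi_kfc h, slf_nfc h]

theorem wsl_nx (hS : Y.Ok cmp sol) {wm : Nat} {e : D} (he : Y.W e ≠ []) :
    wsl wm (Y.c (Y.nx e)) = wsl wm (Y.c e) := wsl_iter hS he 1

/-- the first digit of the blind code -/
theorem bl0 (hb : Bmp P.Q.bm f Y) (hS : Y.Ok cmp sol) (hS' : (Y.mp f).Ok cmp' sol') {e : D}
    (he : Y.W e ≠ []) : Nat.mod (blc P.Q.bm (Y.c e)) 32 = f ((Y.W e).getD 0 0) + 1 := by
  have h4 := (hS.len e he).1
  rw [hb.bl hS, hS'.dg0 (mp_ne.2 he)]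
  show ((Y.W e).map f).getD 0 0 + 1 = _
  rw [getD_map0 (by omega)]

/-- the last digit of the blind code -/
theorem bll (hb : Bmp P.Q.bm f Y) (hS : Y.Ok cmp sol) (hS' : (Y.mp f).Ok cmp' sol') {e : D}
    (he : Y.W e ≠ []) : Nat.div (blc P.Q.bm (Y.c e)) (pw (blc P.Q.bm (Y.c e))) =
      f ((Y.W e).getD ((Y.W e).length - 1) 0) + 1 := by
  have h4 := (hS.len e he).1
  rw [hb.bl hS, hS'.dgl (mp_ne.2 he)]
  show ((Y.W e).map f).getD (((Y.W e).map f).length - 1) 0 + 1 = _
  rw [List.length_map, getD_map0 (by omega)]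

theorem pcs_ok (hy : Hc2 cmp cmp' sol sol' Y f P) {r : D} (hr : Y.W r ≠ [])
    (hr' : Y.W (Y.al r) ≠ []) :
    P.pcs (wsl P.Q.wm (Y.c r)) (blc P.Q.bm (Y.c r)) (wsl P.Q.wm (Y.c (Y.al r)))
      (blc P.Q.bm (Y.c (Y.al r))) = false := by
  have h1 := hy.hr2 r hr hr'
  have h2 := hy.hr2 (Y.al r) hr' (by rw [hy.ok.alal]; exact hr)
  rw [hy.ok.alal] at h2
  have h3 := hy.hpf r hr hr'
  unfold Pm.pf at h3
  unfold Pn.pcs
  rw [pwF_eq, pwF_eq, bl0 hy.hb hy.ok hy.ok' hr, bl0 hy.hb hy.ok hy.ok' hr',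
    bll hy.hb hy.ok hy.ok' hr, bll hy.hb hy.ok hy.ok' hr', h1, h2, memF_eq, getF_eq]
  exact h3

theorem sid_ok (hy : Hc2 cmp cmp' sol sol' Y f P) {r : D} (hr : Y.W r ≠ [])
    (h1 : Y.W (Y.al r) ≠ []) (h2 : Y.W (Y.al (Y.nx r)) ≠ []) :
    P.sid (wsl P.Q.wm (Y.c r)) ((Y.W r).getD 0 0 + 1)
      (nfc P.Q.bm P.Q.wm P.Q.sm (Y.c (Y.al r)))
      (nfc P.Q.bm P.Q.wm P.Q.sm (Y.c (Y.al (Y.nx r)))) = false := by
  have hS := hy.ok
  have h4 := (hS.len r hr).1
  have hm : (Y.W r).getD 0 0 ∈ Y.W r := by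
    rw [List.getD_eq_getElem _ _ (by omega)]; exact List.getElem_mem _
  unfold Pn.sid
  cases Nat.ble (nfc P.Q.bm P.Q.wm P.Q.sm (Y.c (Y.al r))) 1 with
  | true => rfl
  | false =>
    cases Nat.ble (nfc P.Q.bm P.Q.wm P.Q.sm (Y.c (Y.al (Y.nx r)))) 1 with
    | true => rfl
    | false =>
      cases Nat.beq ((Y.W r).getD 0 0 + 1) 0 with
      | true => rfl
      | false =>
        dsimp only
        rw [hy.hgk r hr h1 h2]
        dsimp only
        have e0 : Nat.beq (Nat.land (Nat.shiftRight P.Q.sm ((Y.W r).getD 0 0 + 1)) 1) 1 =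
          sol ((Y.W r).getD 0 0) := hy.hsm r _ hm
        rw [e0]
        cases h5 : sol ((Y.W r).getD 0 0) with
        | false => rfl
        | true =>
          dsimp only
          obtain ⟨r', hr1, hr2⟩ := hS.tri r hr h5
          have n1 : Y.W (Y.nx r') ≠ [] := by rw [hr1]; exact h1
          have n2 : Y.W r' ≠ [] := hS.nn r' n1
          have n4 : Y.W (Y.al r') ≠ [] := by rw [hr2]; exact hS.ne_nx h2
          have hS' := hy.ok'
          rw [slf_nfc (hy.hb.lt hS _), slf_nfc (hy.hb.lt hS _), lo_nfc (hy.hb.lt hS _),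
            lo_nfc (hy.hb.lt hS _)]
          have a1 : wsl P.Q.wm (Y.c (Y.al r)) = wsl P.Q.wm (Y.c r') := by
            rw [← hr1]; exact wsl_nx hS n2
          have a2 : wsl P.Q.wm (Y.c (Y.al (Y.nx r))) = wsl P.Q.wm (Y.c (Y.al r')) := by
            rw [hr2]; exact (wsl_nx hS h2).symm
          have b1 : rrc (blc P.Q.bm (Y.c (Y.al r))) = blc P.Q.bm (Y.c r') := by
            rw [hy.hb.bl hS, hy.hb.bl hS, ← hr1]
            exact hS'.c_pr (mp_ne.2 n2)
          have b2 : rlc (blc P.Q.bm (Y.c (Y.al (Y.nx r)))) = blc P.Q.bm (Y.c (Y.al r')) := by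
            rw [hy.hb.bl hS, hy.hb.bl hS, hr2]
            exact (hS'.c_nx (mp_ne.2 h2)).symm
          rw [a1, a2, b1, b2]
          exact pcs_ok hy n2 n4

/-- the digit of a sector -/
theorem dg_sec (hS : Y.Ok cmp sol) {e : D} {i : Nat} (hl : i < (Y.W e).length)
    (he : Y.W e ≠ []) :
    dg (Nat.pow 32 i) (Y.c e) = (Y.W (Y.nx^[i] e)).getD 0 0 + 1 := by
  have h1 : dg (32 ^ i) (enc (Y.W e)) = _ := dg_enc (hS.sm e) hl
  have h2 : dg (Nat.pow 32 i) (Y.c e) = (Y.W e).getD i 0 + 1 := h1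
  rw [h2, hS.W_iter he i, List.getD_eq_getElem _ _ hl,
    List.getD_eq_getElem _ _ (by rw [List.length_rotate]; omega), List.getElem_rotate]
  simp [Nat.mod_eq_of_lt hl]

theorem nx_nxt (hS : Y.Ok cmp sol) {e : D} (he : Y.W e ≠ []) (i : Nat) :
    Y.nx^[nxt (Y.W e).length i] e = Y.nx (Y.nx^[i] e) := by
  unfold nxt
  cases hb : Nat.beq (Nat.succ i) (Y.W e).length with
  | true =>
    have h1 := Nat.eq_of_beq_eq_true hb
    rw [← Function.iterate_succ_apply' Y.nx, h1, hS.per e he]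
    rfl
  | false => rw [← Function.iterate_succ_apply' Y.nx]; rfl

/-- two consecutive neighbours -/
theorem sid_side (hy : Hc2 cmp cmp' sol sol' Y f P) {e : D} (he : Y.W e ≠ []) {i u v : Nat}
    (hu : Y.nf P.Q.bm P.Q.wm P.Q.sm e i = u) (hi : i < (Y.W e).length)
    (hv : Y.nf P.Q.bm P.Q.wm P.Q.sm e (nxt (Y.W e).length i) = v) :
    P.sid (wsl P.Q.wm (Y.c e)) (dg (Nat.pow 32 i) (Y.c e)) u v = false := by
  have hS := hy.ok
  by_cases u1 : Y.W (Y.al (Y.nx^[i] e)) = []
  · rw [nf_nil u1] at hu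
    rw [← hu]; rfl
  · by_cases v1 : Y.W (Y.al (Y.nx^[nxt (Y.W e).length i] e)) = []
    · rw [nf_nil v1] at hv
      rw [← hv]
      unfold Pn.sid
      cases Nat.ble u 1 <;> rfl
    · rw [nf_ne u1] at hu
      rw [nf_ne v1, nx_nxt hS he i] at hv
      rw [dg_sec hS hi he, ← hu, ← hv]
      rw [nx_nxt hS he i] at v1
      rw [← wsl_iter hS he i]
      exact sid_ok hy (hS.ne_iter he i) u1 v1

theorem exc_ok (hy : Hc2 cmp cmp' sol sol' Y f P) {e : D} (he : Y.W e ≠ []) (hN : Nr sol Y e)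
    {i j u v : Nat} (hi : i < (Y.W e).length) (hj : j < (Y.W e).length)
    (hu : Y.nf P.Q.bm P.Q.wm P.Q.sm e i = u) (hv : Y.nf P.Q.bm P.Q.wm P.Q.sm e j = v) :
    P.exc (wsl P.Q.wm (Y.c e)) (Y.c e) (Y.W e).length i u j v = false := by
  unfold Pn.exc
  cases h1 : Nat.beq u 1 with
  | true =>
    have h1' := Nat.eq_of_beq_eq_true h1
    dsimp only
    cases h2 : Nat.beq v 1 with
    | false => rfl
    | true =>
      have h2' := Nat.eq_of_beq_eq_true h2
      dsimp only
      rw [← Bool.not_eq_true]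
      intro h3
      exact nlcb_sound hy.hb hy.ok (hy.hsm e) hN (fun q hq => by
        simp only [List.mem_singleton] at hq
        rw [hq]; exact hv.trans h2') h3 (hu.trans h1')
  | false =>
    dsimp only
    cases h2 : Nat.beq j (nxt (Y.W e).length i) with
    | true =>
      have h2' := Nat.eq_of_beq_eq_true h2
      dsimp only
      rw [h2'] at hv
      exact sid_side hy he hu hi hv
    | false =>
      dsimp only
      cases h3 : Nat.beq i (nxt (Y.W e).length j) with
      | false => rfl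
      | true =>
        have h3' := Nat.eq_of_beq_eq_true h3
        dsimp only
        rw [h3'] at hu
        exact sid_side hy he hv hj hu

end sound

end

end Pool.FCS
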