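import Pool.Agent.FCS.Mb

/-!
# Star check: the candidates of a position as bits
-/

namespace Pool.FCS

noncomputable section

/-- head -/
def hdl (R : List (List Nat)) : List Nat :=
  List.rec (motive := fun _ => List Nat) [] (fun x _ _ => x) R

/-- tail -/
def tll (R : List (List Nat)) : List (List Nat) :=
  List.rec (motive := fun _ => List (List Nat)) [] (fun _ l _ => l) R

/-- the `i`-th list of rows -/
def nthR (R : List (List (List Nat))) (i : Nat) : List (List Nat) :=
  List.rec (motive := fun _ => Nat → List (List Nat)) (fun _ => [])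
    (fun x _ ih i => Bool.rec (motive := fun _ => List (List Nat)) (ih (Nat.sub i 1)) x
      (Nat.beq i 0)) R i

/-- the packed gains -/
def pk (cl : List (Nat × Nat)) (df : Nat) : Nat :=
  List.rec (motive := fun _ => Nat → Nat) (fun acc => Nat.add (Nat.mul acc 1048576) df)
    (fun c _ ih acc => ih (Nat.add (Nat.mul acc 1048576) c.1)) cl 0

/-- the mask of a list of bits -/
def msk (ts : List Nat) : Nat :=
  List.rec (motive := fun _ => Nat) 0 (fun t _ ih => Nat.lor (Nat.shiftLeft 1 t) ih) ts

/-- a member contains the bit -/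
def hasb (b : Nat) (P : List Nat) : Bool :=
  List.rec (motive := fun _ => Bool) false
    (fun B _ ih => Bool.rec (motive := fun _ => Bool) true ih (Nat.beq (Nat.land B b) 0)) P

/-- the members which do not contain the bit -/
def fil (b : Nat) (P : List Nat) : List Nat :=
  List.rec (motive := fun _ => List Nat) []
    (fun B _ ih => Bool.rec (motive := fun _ => List Nat) ih (B :: ih)
      (Nat.beq (Nat.land B b) 0)) P

/-- the patterns with the bit, without the member which contains it -/
def oths (b : Nat) (PL : List (List Nat)) : List (List Nat) :=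
  List.rec (motive := fun _ => List (List Nat)) []
    (fun P _ ih => Bool.rec (motive := fun _ => List (List Nat)) ih (fil b P :: ih) (hasb b P)) PL

/-- the rows -/
def rws (a : Nat) (PL : List (List Nat)) (cl : List (Nat × Nat)) :
    Nat → List (List Nat) → List Rw :=
  List.rec (motive := fun _ => Nat → List (List Nat) → List Rw) (fun _ _ => [])
    (fun c _ ih k R =>
      ⟨c.1, Nat.shiftLeft 1 (Nat.add a k), msk (hdl R), oths (Nat.shiftLeft 1 (Nat.add a k)) PL⟩ ::
        ih (Nat.sub k 1) (tll R)) cl

/-- decreasing gains smaller than `2 ^ 20` -/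
def pok (cl : List (Nat × Nat)) (df : Nat) : Bool :=
  List.rec (motive := fun _ => Nat → Bool) (fun m => Nat.ble df m)
    (fun c _ ih m => Bool.rec (motive := fun _ => Bool) false (ih c.1) (Nat.ble c.1 m)) cl 1048575

section sound

/-- the bit of a code -/
def ix (b : Nat) : List (Nat × Nat) → Nat
  | [] => 0
  | c :: l => if c.2 = b then l.length + 1 else ix b l

/-- the gain of a bit -/
def gi (df : Nat) : List (Nat × Nat) → Nat → Nat
  | [], _ => df
  | c :: l, i => if i = l.length + 1 then c.1 else gi df l i

theorem len_eq : ∀ cl : List (Nat × Nat), len cl = cl.length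
  | [] => rfl
  | c :: l => by
    show len l + 1 = _
    rw [len_eq l, List.length_cons]

theorem ix_le (b : Nat) : ∀ cl : List (Nat × Nat), ix b cl ≤ cl.length
  | [] => le_refl _
  | c :: l => by
    unfold ix
    have := ix_le b l
    split_ifs
    · simp
    · rw [List.length_cons]; omega

theorem ix_zero {b : Nat} : ∀ {cl : List (Nat × Nat)}, ix b cl = 0 → ∀ g, (g, b) ∉ cl
  | [], _, g => by simp
  | c :: l, h, g => by
    unfold ix at h
    split_ifs at h with h1
    rw [List.mem_cons, not_or]
    refine ⟨fun h2 => h1 (by rw [← h2]), ix_zero h g⟩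

/-- sorted -/
def SrtC (df : Nat) : Nat → List (Nat × Nat) → Prop
  | m, [] => df ≤ m
  | m, c :: l => c.1 ≤ m ∧ SrtC df c.1 l

theorem pok_aux (df : Nat) : ∀ (l : List (Nat × Nat)) (m : Nat),
    List.rec (motive := fun _ => Nat → Bool) (fun m => Nat.ble df m)
      (fun (c : Nat × Nat) _ ih m => Bool.rec (motive := fun _ => Bool) false (ih c.1)
        (Nat.ble c.1 m)) l m = true → SrtC df m l
  | [], m, h => Nat.le_of_ble_eq_true h
  | c :: l, m, h => by
    dsimp only at h
    cases hb : Nat.ble c.1 m with
    | false => rw [hb] at h; exact Bool.noConfusion h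
    | true =>
      rw [hb] at h
      exact ⟨Nat.le_of_ble_eq_true hb, pok_aux df l c.1 h⟩

theorem pok_srt {cl : List (Nat × Nat)} {df : Nat} (h : pok cl df = true) :
    SrtC df 1048575 cl := pok_aux df cl _ h

theorem SrtC.df {df m : Nat} : ∀ {l : List (Nat × Nat)}, SrtC df m l → df ≤ m
  | [], h => h
  | _ :: l, h => le_trans (SrtC.df (l := l) h.2) h.1

theorem SrtC.mono {df m m' : Nat} (h : m ≤ m') : ∀ {l : List (Nat × Nat)}, SrtC df m l →
    SrtC df m' l
  | [], h' => le_trans h' h
  | _ :: _, h' => ⟨le_trans h'.1 h, h'.2⟩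

theorem SrtC.le {df m : Nat} : ∀ {l : List (Nat × Nat)}, SrtC df m l → ∀ c ∈ l, c.1 ≤ m
  | [], _, r, hr => by simp at hr
  | a :: l, h, r, hr => by
    rcases List.mem_cons.1 hr with rfl | hr
    · exact h.1
    · exact le_trans (SrtC.le (l := l) h.2 r hr) h.1

theorem gi_leM {df m : Nat} : ∀ {l : List (Nat × Nat)}, SrtC df m l → ∀ i, gi df l i ≤ m
  | [], h, _ => h
  | c :: l, h, i => by
    unfold gi
    split_ifs
    · exact h.1
    · exact le_trans (gi_leM h.2 i) h.1

theorem df_le_gi {df m : Nat} : ∀ {l : List (Nat × Nat)}, SrtC df m l → ∀ i, df ≤ gi df l i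
  | [], _, _ => le_refl _
  | c :: l, h, i => by
    unfold gi
    split_ifs
    · exact SrtC.df h.2
    · exact df_le_gi h.2 i

theorem gi_mono {df m : Nat} : ∀ {l : List (Nat × Nat)}, SrtC df m l → ∀ {k i : Nat}, k ≤ i →
    i ≤ l.length → gi df l k ≤ gi df l i
  | [], _, k, i, _, _ => le_refl _
  | c :: l, h, k, i, h1, h2 => by
    unfold gi
    rw [List.length_cons] at h2
    split_ifs with a1 a2
    · exact le_refl _
    · omega
    · exact gi_leM h.2 k
    · exact gi_mono h.2 h1 (by omega)

/-- the first occurrence has the largest gain -/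
theorem le_gi {df m b g : Nat} : ∀ {l : List (Nat × Nat)}, SrtC df m l → (g, b) ∈ l →
    g ≤ gi df l (ix b l)
  | [], _, hm => by simp at hm
  | c :: l, h, hm => by
    unfold ix
    split_ifs with h1
    · unfold gi
      rw [if_pos rfl]
      rcases List.mem_cons.1 hm with h2 | h2
      · rw [← h2]
      · exact SrtC.le h.2 _ h2
    · have h3 := ix_le b l
      unfold gi
      rw [if_neg (by omega)]
      rcases List.mem_cons.1 hm with h2 | h2
      · exact absurd (by rw [← h2]) h1
      · exact le_gi h.2 h2

/-- the number with the digits of the gains -/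
def low (df : Nat) : List (Nat × Nat) → Nat
  | [] => df
  | c :: l => c.1 * 1048576 ^ (l.length + 1) + low df l

theorem pk_aux (df : Nat) : ∀ (cl : List (Nat × Nat)) (acc : Nat),
    List.rec (motive := fun _ => Nat → Nat) (fun acc => Nat.add (Nat.mul acc 1048576) df)
      (fun (c : Nat × Nat) _ ih acc => ih (Nat.add (Nat.mul acc 1048576) c.1)) cl acc =
      acc * 1048576 ^ (cl.length + 1) + low df cl
  | [], acc => by
    show acc * 1048576 + df = acc * 1048576 ^ 1 + df
    rw [pow_one]
  | c :: l, acc => by
    have ih := pk_aux df l (acc * 1048576 + c.1)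
    show List.rec (motive := fun _ => Nat → Nat) (fun acc => Nat.add (Nat.mul acc 1048576) df)
      (fun (c : Nat × Nat) _ ih acc => ih (Nat.add (Nat.mul acc 1048576) c.1)) l
        (acc * 1048576 + c.1) = _
    rw [ih, List.length_cons]
    show (acc * 1048576 + c.1) * 1048576 ^ (l.length + 1) + low df l =
      acc * 1048576 ^ (l.length + 1 + 1) + (c.1 * 1048576 ^ (l.length + 1) + low df l)
    ring

theorem pk_eq (cl : List (Nat × Nat)) (df : Nat) : pk cl df = low df cl := by
  have := pk_aux df cl 0
  rw [Nat.zero_mul, Nat.zero_add] at this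
  exact this

theorem low_lt {df m : Nat} (hm : m < 1048576) : ∀ {l : List (Nat × Nat)}, SrtC df m l →
    low df l < 1048576 ^ (l.length + 1)
  | [], h => by
    show df < 1048576 ^ 1
    rw [pow_one]
    exact lt_of_le_of_lt h hm
  | c :: l, h => by
    have h1 := low_lt (lt_of_le_of_lt h.1 hm) h.2
    have h2 : c.1 < 1048576 := lt_of_le_of_lt h.1 hm
    show c.1 * 1048576 ^ (l.length + 1) + low df l < 1048576 ^ (l.length + 1 + 1)
    rw [pow_succ 1048576 (l.length + 1)]
    nlinarith

theorem low_dig {df m : Nat} (hm : m < 1048576) : ∀ {l : List (Nat × Nat)}, SrtC df m l →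
    ∀ i ≤ l.length, low df l / 1048576 ^ i % 1048576 = gi df l i
  | [], h, i, hi => by
    have : i = 0 := by simpa using hi
    subst this
    show df / 1048576 ^ 0 % 1048576 = df
    rw [pow_zero, Nat.div_one]
    exact Nat.mod_eq_of_lt (lt_of_le_of_lt h hm)
  | c :: l, h, i, hi => by
    have hc : c.1 < 1048576 := lt_of_le_of_lt h.1 hm
    have h1 := low_lt (lt_of_le_of_lt h.1 hm) h.2
    have hp : ∀ j : Nat, 0 < 1048576 ^ j := fun j => by positivity
    rw [List.length_cons] at hi
    show (c.1 * 1048576 ^ (l.length + 1) + low df l) / 1048576 ^ i % 1048576 = _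
    unfold gi
    split_ifs with a1
    · subst a1
      rw [Nat.add_comm, Nat.add_mul_div_right _ _ (hp _), Nat.div_eq_of_lt h1, Nat.zero_add]
      exact Nat.mod_eq_of_lt hc
    · have hi' : i ≤ l.length := by omega
      obtain ⟨j, hj⟩ : ∃ j, l.length + 1 = i + (j + 1) := ⟨l.length - i, by omega⟩
      have e : c.1 * 1048576 ^ (l.length + 1) = c.1 * 1048576 ^ j * 1048576 * 1048576 ^ i := by
        rw [hj]
        ring
      rw [e, Nat.add_comm, Nat.add_mul_div_right _ _ (hp _), Nat.add_mul_mod_self_right]
      exact low_dig (lt_of_le_of_lt h.1 hm) h.2 i hi'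

theorem gn_pk {cl : List (Nat × Nat)} {df : Nat} (h : pok cl df = true) {i : Nat}
    (hi : i ≤ cl.length) : gn (pk cl df) i = gi df cl i := by
  rw [pk_eq, ← low_dig (by norm_num) (pok_srt h) i hi]
  show (low df cl >>> (20 * i)) % 1048576 = _
  rw [Nat.shiftRight_eq_div_pow, pow_mul]
  norm_num

theorem cda_aux (b : Nat) : ∀ (l : List (Nat × Nat)), ix b l ≠ 0 →
    List.rec (motive := fun _ => Nat → Nat) (fun _ => 0)
      (fun (c : Nat × Nat) _ ih m => Bool.rec (motive := fun _ => Nat) (ih (Nat.sub m 1)) c.2
        (Nat.beq m (ix b l))) l l.length = b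
  | [], h => absurd rfl h
  | c :: l, h => by
    unfold ix at h ⊢
    dsimp only
    by_cases h1 : c.2 = b
    · rw [if_pos h1]
      have : Nat.beq (c :: l).length (l.length + 1) = true := Nat.beq_refl _
      rw [this]
      exact h1
    · rw [if_neg h1] at h ⊢
      have h2 := ix_le b l
      have : Nat.beq (c :: l).length (ix b l) = false := by
        rw [← Bool.not_eq_true]
        intro hc
        have := Nat.eq_of_beq_eq_true hc
        rw [List.length_cons] at this
        omega
      rw [this]
      exact cda_aux b l h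

theorem cda_ix {b : Nat} {cl : List (Nat × Nat)} (h : ix b cl ≠ 0) : cda cl (ix b cl) = b := by
  unfold cda
  rw [len_eq]
  exact cda_aux b cl h

theorem cda_zero (cl : List (Nat × Nat)) : cda cl 0 = 0 := by
  unfold cda
  rw [len_eq]
  induction cl with
  | nil => rfl
  | cons c l ih => exact ih

theorem shl_one (t : Nat) : Nat.shiftLeft 1 t = 2 ^ t := by
  show 1 <<< t = 2 ^ t
  rw [Nat.shiftLeft_eq, Nat.one_mul]

theorem msk_bit : ∀ {ts : List Nat} {t : Nat}, Nat.testBit (msk ts) t = true ↔ t ∈ ts
  | [], t => by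
    show Nat.testBit 0 t = true ↔ _
    simp
  | s :: ts, t => by
    have e : msk (s :: ts) = Nat.lor (Nat.shiftLeft 1 s) (msk ts) := rfl
    rw [e, lor_eq, shl_one, Nat.testBit_or, Bool.or_eq_true, Nat.testBit_two_pow,
      decide_eq_true_eq, msk_bit (ts := ts), List.mem_cons]
    constructor
    · rintro (h | h)
      · exact Or.inl h.symm
      · exact Or.inr h
    · rintro (h | h)
      · exact Or.inl h.symm
      · exact Or.inr h

variable {τ : Nat → Prop}

theorem oths_ok {t : Nat} (ht : τ t) : ∀ {PL : List (List Nat)}, (∀ P ∈ PL, PatOk τ P) →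
    ∀ P ∈ oths (2 ^ t) PL, PatOk τ P
  | [], _, P, hP => by simp [oths] at hP
  | Q :: PL, h, P, hP => by
    have e : oths (2 ^ t) (Q :: PL) = Bool.rec (motive := fun _ => List (List Nat))
      (oths (2 ^ t) PL) (fil (2 ^ t) Q :: oths (2 ^ t) PL) (hasb (2 ^ t) Q) := rfl
    rw [e] at hP
    have ih := oths_ok ht (PL := PL) (fun R hR => h R (List.mem_cons_of_mem _ hR))
    cases hb : hasb (2 ^ t) Q with
    | false => rw [hb] at hP; exact ih P hP
    | true =>
      rw [hb] at hP
      rcases List.mem_cons.1 hP with rfl | hP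
      · have hQ := h Q (List.mem_cons_self ..)
        -- members with the bit are satisfied
        have hs : ∀ B, Nat.beq (Nat.land B (2 ^ t)) 0 = false → Sat τ B := by
          intro B hB
          obtain ⟨i, i1, i2⟩ := land_ne (Nat.ne_of_beq_eq_false hB)
          rw [Nat.testBit_two_pow, decide_eq_true_eq] at i2
          exact ⟨i, by rw [← i2]; exact ht, i1⟩
        have hmem : ∀ (Q : List Nat) B, B ∈ fil (2 ^ t) Q ↔
            B ∈ Q ∧ Nat.beq (Nat.land B (2 ^ t)) 0 = true := by
          intro Q
          induction Q with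
          | nil => intro B; simp [fil]
          | cons C Q ihQ =>
            intro B
            have e : fil (2 ^ t) (C :: Q) = Bool.rec (motive := fun _ => List Nat)
              (fil (2 ^ t) Q) (C :: fil (2 ^ t) Q) (Nat.beq (Nat.land C (2 ^ t)) 0) := rfl
            rw [e]
            cases hC : Nat.beq (Nat.land C (2 ^ t)) 0 with
            | false =>
              show B ∈ fil (2 ^ t) Q ↔ _
              rw [ihQ B, List.mem_cons]
              constructor
              · rintro ⟨h1, h2⟩; exact ⟨Or.inr h1, h2⟩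
              · rintro ⟨h1 | h1, h2⟩
                · subst h1; rw [hC] at h2; exact Bool.noConfusion h2
                · exact ⟨h1, h2⟩
            | true =>
              show B ∈ C :: fil (2 ^ t) Q ↔ _
              rw [List.mem_cons, ihQ B, List.mem_cons]
              constructor
              · rintro (h1 | ⟨h1, h2⟩)
                · subst h1; exact ⟨Or.inl rfl, hC⟩
                · exact ⟨Or.inr h1, h2⟩
              · rintro ⟨h1 | h1, h2⟩
                · exact Or.inl h1
                · exact Or.inr ⟨h1, h2⟩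
        refine ⟨fun B hB => hQ.1 B ((hmem Q B).1 hB).1, fun hall => hQ.2 fun B hB => ?_⟩
        cases hBb : Nat.beq (Nat.land B (2 ^ t)) 0 with
        | false => exact hs B hBb
        | true => exact hall B ((hmem Q B).2 ⟨hB, hBb⟩)
      · exact ih P hP

/-- the row of the code `b` -/
theorem rws_row {a b df : Nat} {PL : List (List Nat)} : ∀ (cl : List (Nat × Nat))
    (R : List (List Nat)), ix b cl ≠ 0 →
    ∃ r ∈ rws a PL cl cl.length R, r.bt = 2 ^ (a + ix b cl) ∧ r.g = gi df cl (ix b cl) ∧
      r.ps = oths (2 ^ (a + ix b cl)) PL ∧ ∃ n, r.E = msk (hdl (tll^[n] R)) ∧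
        n < cl.length ∧ (cl.getD n (0, 0)).2 = b
  | [], _, h => absurd rfl h
  | c :: l, R, h => by
    have e : rws a PL (c :: l) (c :: l).length R = ⟨c.1, Nat.shiftLeft 1 (a + (l.length + 1)),
      msk (hdl R), oths (Nat.shiftLeft 1 (a + (l.length + 1))) PL⟩ ::
        rws a PL l l.length (tll R) := rfl
    rw [e]
    unfold ix at h ⊢
    by_cases h1 : c.2 = b
    · rw [if_pos h1]
      refine ⟨_, List.mem_cons_self .., shl_one _, ?_, ?_, 0, rfl, by simp, ?_⟩
      · unfold gi; rw [if_pos rfl]
      · show oths (Nat.shiftLeft 1 _) PL = _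
        rw [shl_one]
      · simpa using h1
    · rw [if_neg h1] at h ⊢
      obtain ⟨r, r1, r2, r3, r4, n, r5, r6, r7⟩ := rws_row (a := a) (b := b) (df := df) l (tll R) h
      have h3 := ix_le b l
      refine ⟨r, List.mem_cons_of_mem _ r1, r2, ?_, r4, n + 1, ?_, ?_, ?_⟩
      · unfold gi
        rw [if_neg (by omega)]
        exact r3
      · rw [Function.iterate_succ_apply]; exact r5
      · simpa using r6
      · simpa using r7

theorem rws_srt {a df : Nat} {PL : List (List Nat)} : ∀ (cl : List (Nat × Nat)) (m k : Nat)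
    (R : List (List Nat)), SrtC df m cl → SrtR m (rws a PL cl k R) df
  | [], _, _, _, h => h
  | c :: l, m, k, R, h => ⟨h.1, rws_srt l c.1 (Nat.sub k 1) (tll R) h.2⟩

end sound

end

end Pool.FCS
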