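import Pool.Agent.FCS.Mc

/-!
# Star check: the positions of a centre
-/

namespace Pool.FCS

noncomputable section

/-- the candidates at the position `i` of the centre `c` -/
def Pn.ps (P : Pn) (c i : Nat) : Pos := P.Q.pos (P.Q.ky (rot c i)) i

/-- the code of a bit -/
def Pn.cdt (P : Pn) (c t : Nat) : Nat :=
  sl6 (fun j => P.cd (P.Q.ky (rot c j)) (Nat.mod t P.w)) (Nat.div t P.w)

/-- the bit `t` is excluded by the code `u` at the position `i` -/
def Pn.xt (P : Pn) (k c d i u t : Nat) : Bool :=
  sl6 (fun j => P.exc k c d i u j (P.cd (P.Q.ky (rot c j)) (Nat.mod t P.w))) (Nat.div t P.w)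

theorem xt_eq (P : Pn) (k c d i u t : Nat) :
    P.xt k c d i u t = P.exc k c d i u (Nat.div t P.w) (P.cdt c t) := by
  unfold Pn.xt Pn.cdt
  rw [sl6_eq, sl6_eq]

/-- the exclusions of the candidates of a position -/
def Pn.exl (P : Pn) (k c d i : Nat) (R : List (List Nat)) : List (Nat × Nat) → Bool :=
  List.rec (motive := fun _ => List (Nat × Nat) → Bool) (fun _ => true)
    (fun ts _ ih cl => List.rec (motive := fun _ => Bool) true
      (fun q l _ => Bool.rec (motive := fun _ => Bool) false (ih l) (allb (P.xt k c d i q.2) ts))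
      cl) R

/-- the position `i` -/
def Pn.pm (P : Pn) (c : Nat) (R : List (List (List Nat))) (PL : List (List Nat)) (i : Nat) : PM :=
  ⟨Nat.mul P.w i, Nat.sub (Nat.pow 2 (Nat.add (len (P.ps c i).cl) 1)) 1,
    pk (P.ps c i).cl (P.ps c i).df, (P.ps c i).df,
    rws (Nat.mul P.w i) PL (P.ps c i).cl (len (P.ps c i).cl) (nthR R i)⟩

/-- the positions in the given order -/
def Pn.pms (P : Pn) (c : Nat) (R : List (List (List Nat))) (PL : List (List Nat))
    (ord : List Nat) : List PM :=
  List.rec (motive := fun _ => List PM) [] (fun i _ ih => sl6 (P.pm c R PL) i :: ih) ord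

theorem pms_cons (P : Pn) (c : Nat) (R : List (List (List Nat))) (PL : List (List Nat)) (i : Nat)
    (ord : List Nat) : P.pms c R PL (i :: ord) = P.pm c R PL i :: P.pms c R PL ord := by
  have h : P.pms c R PL (i :: ord) = sl6 (P.pm c R PL) i :: P.pms c R PL ord := rfl
  rw [h, sl6_eq]

/-- the checks of the positions and of the exclusions -/
def Pn.ckR (P : Pn) (k c d : Nat) (R : List (List (List Nat))) : Bool :=
  alln d fun i =>
    bif pok (P.ps c i).cl (P.ps c i).df then
      bif Nat.ble (Nat.add (len (P.ps c i).cl) 1) P.w then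
        P.exl k c d i (nthR R i) (P.ps c i).cl else false
    else false

/-- the mask of the candidates which are null or not solid of length 4 -/
def Pn.plm (P : Pn) (c i : Nat) : Nat :=
  List.rec (motive := fun _ => Nat → Nat) (fun _ => 0)
    (fun q _ ih k => Nat.lor (Bool.rec (motive := fun _ => Nat)
      (Bool.rec (motive := fun _ => Nat) (Nat.shiftLeft 1 (Nat.add (Nat.mul P.w i) k)) 0
        (Nat.ble 4294967296 q.2)) 0 (Nat.beq q.2 0)) (ih (Nat.sub k 1)))
    (P.ps c i).cl (len (P.ps c i).cl)

/-- the mask of a member of a pattern -/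
def Pn.mm (P : Pn) (c t : Nat) : Nat :=
  Bool.rec (motive := fun _ => Nat) (Nat.shiftLeft 1 t) (sl6 (P.plm c) (Nat.sub t 1000000))
    (Nat.ble 1000000 t)

/-- the masks of a pattern -/
def Pn.mml (P : Pn) (c : Nat) (ts : List Nat) : List Nat :=
  List.rec (motive := fun _ => List Nat) [] (fun t _ ih => P.mm c t :: ih) ts

/-- the conditions of a pattern -/
def Pn.trl (P : Pn) (c : Nat) (ts : List Nat) : List (Nat × Nat) :=
  List.rec (motive := fun _ => List (Nat × Nat)) []
    (fun t _ ih => Bool.rec (motive := fun _ => List (Nat × Nat))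
      ((Nat.div t P.w, P.cdt c t) :: ih) ((Nat.sub t 1000000, 2) :: ih) (Nat.ble 1000000 t)) ts

/-- no mask and no condition of the pattern is `0` -/
def Pn.nzp (P : Pn) (c : Nat) (ts : List Nat) : Bool :=
  bif allb (fun t => bif Nat.beq (P.mm c t) 0 then false else
    bif Nat.ble 1000000 t then true else bif Nat.beq (P.cdt c t) 0 then false else true) ts
  then true else false

section sound

variable {D : Type*} {cmp cmp' : Nat → Nat → Bool} {sol sol' lng : Nat → Bool} {Y : Sys D}
  {f : Nat → Nat} {P : Pn}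

/-- the flagged code of a neighbour -/
def Pn.nfy (P : Pn) (Y : Sys D) (e : D) (i : Nat) : Nat := Y.nf P.Q.bm P.Q.wm P.Q.sm e i

/-- the bit of a neighbour -/
def Pn.kp (P : Pn) (Y : Sys D) (e : D) (i : Nat) : Nat := ix (P.nfy Y e i) (P.ps (Y.c e) i).cl

/-- the true bits -/
def Pn.tau (P : Pn) (Y : Sys D) (e : D) (t : Nat) : Prop :=
  ∃ i < (Y.W e).length, t = P.w * i + P.kp Y e i

theorem exl_sound {k c d i : Nat} : ∀ {R : List (List Nat)} {cl : List (Nat × Nat)},
    P.exl k c d i R cl = true → ∀ n < cl.length, ∀ t ∈ hdl (tll^[n] R),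
      P.xt k c d i (cl.getD n (0, 0)).2 t = true
  | [], _, _, n, _, t, ht => by
    have : ∀ n, tll^[n] ([] : List (List Nat)) = [] := by
      intro n
      induction n with
      | zero => rfl
      | succ n ih => rw [Function.iterate_succ_apply]; exact ih
    rw [this] at ht
    exact absurd ht (by simp [hdl])
  | _ :: _, [], _, n, hn, _, _ => by simp at hn
  | ts :: R, q :: l, h, n, hn, t, ht => by
    have h' : Bool.rec (motive := fun _ => Bool) false (P.exl k c d i R l)
      (allb (P.xt k c d i q.2) ts) = true := h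
    cases ha : allb (P.xt k c d i q.2) ts with
    | false => rw [ha] at h'; exact Bool.noConfusion h'
    | true =>
      rw [ha] at h'
      cases n with
      | zero => exact allb_sound ha t ht
      | succ n =>
        rw [Function.iterate_succ_apply] at ht
        have := exl_sound (R := R) (cl := l) h' n (by simpa using hn) t ht
        simpa using this

theorem nfy_ne {e : D} {i : Nat} (hb : Bmp P.Q.bm f Y) (hS : Y.Ok cmp sol) :
    P.nfy Y e i ≠ 0 ∧ P.nfy Y e i ≠ 2 := by
  unfold Pn.nfy
  by_cases h : Y.W (Y.al (Y.nx^[i] e)) = []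
  · rw [nf_nil h]; exact ⟨by norm_num, by norm_num⟩
  · rw [nf_ne h]
    have := hb.nge (wm := P.Q.wm) (sm := P.Q.sm) hS h
    omega

variable {e : D} {k c : Nat} {R : List (List (List Nat))}

theorem kp_lt (hc : P.ckR k (Y.c e) (Y.W e).length R = true) {i : Nat}
    (hi : i < (Y.W e).length) : (P.ps (Y.c e) i).cl.length < P.w ∧ P.kp Y e i < P.w := by
  have h := alln_iff.1 hc i hi
  rw [cond_true_iff, cond_true_iff] at h
  have h1 := Nat.le_of_ble_eq_true h.2.1
  have h2 : len (P.ps (Y.c e) i).cl + 1 ≤ P.w := h1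
  rw [len_eq] at h2
  have h3 := ix_le (P.nfy Y e i) (P.ps (Y.c e) i).cl
  unfold Pn.kp
  omega

/-- the position of a true bit -/
theorem tau_div (hc : P.ckR k (Y.c e) (Y.W e).length R = true) {t : Nat} (ht : P.tau Y e t) :
    t / P.w < (Y.W e).length ∧ t % P.w = P.kp Y e (t / P.w) := by
  obtain ⟨i, hi, rfl⟩ := ht
  have h1 := (kp_lt hc hi).2
  have hw : 0 < P.w := by omega
  have e1 : (P.w * i + P.kp Y e i) / P.w = i := by
    rw [Nat.mul_add_div hw, Nat.div_eq_of_lt h1, Nat.add_zero]
  have e2 : (P.w * i + P.kp Y e i) % P.w = P.kp Y e i := by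
    rw [Nat.mul_add_mod, Nat.mod_eq_of_lt h1]
  rw [e1, e2]
  exact ⟨hi, rfl⟩

theorem cdt_eq (hy : Hc2 cmp cmp' sol sol' Y f P) (c t : Nat) :
    P.cdt c t = cda (P.ps c (Nat.div t P.w)).cl (Nat.mod t P.w) := by
  unfold Pn.cdt Pn.ps
  rw [sl6_eq, hy.hcd, ← Pm.pos_cl P.Q _ (Nat.div t P.w)]

/-- the code of a true bit -/
theorem cdt_tau (hy : Hc2 cmp cmp' sol sol' Y f P)
    (hc : P.ckR k (Y.c e) (Y.W e).length R = true) {t : Nat} (ht : P.tau Y e t) :
    P.cdt (Y.c e) t = 0 ∨ P.cdt (Y.c e) t = P.nfy Y e (t / P.w) := by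
  have h1 := (tau_div hc ht).2
  have h2 : Nat.mod t P.w = P.kp Y e (t / P.w) := h1
  rw [cdt_eq hy, h2]
  by_cases h3 : P.kp Y e (t / P.w) = 0
  · left
    rw [h3]
    exact cda_zero _
  · right
    exact cda_ix h3

theorem xt_tau (hy : Hc2 cmp cmp' sol sol' Y f P) (he : Y.W e ≠ []) (hN : Nr sol Y e)
    (hc : P.ckR k (Y.c e) (Y.W e).length R = true) {i t : Nat} (hi : i < (Y.W e).length)
    (h : P.xt (wsl P.Q.wm (Y.c e)) (Y.c e) (Y.W e).length i (P.nfy Y e i) t = true) :
    ¬ P.tau Y e t := by
  intro ht
  have h1 := tau_div hc ht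
  rw [xt_eq] at h
  rcases cdt_tau hy hc ht with h2 | h2
  · rw [h2] at h
    -- the code `0` is never excluded
    have e0 : ∀ k c d i u j, P.exc k c d i u j 0 = false := by
      intro k c d i u j
      have e1 : ∀ k x u, P.sid k x u 0 = false := by
        intro k x u
        unfold Pn.sid
        cases Nat.ble u 1 <;> rfl
      have e2 : ∀ k x v, P.sid k x 0 v = false := fun k x v => rfl
      unfold Pn.exc
      rw [e1, e2]
      cases Nat.beq u 1 <;> cases Nat.beq j (nxt d i) <;> cases Nat.beq i (nxt d j) <;> rfl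
    rw [e0] at h
    exact Bool.noConfusion h
  · rw [h2] at h
    have h3 := exc_ok hy he hN hi h1.1 (u := P.nfy Y e i) (v := P.nfy Y e (t / P.w)) rfl rfl
    have h4 : Nat.div t P.w = t / P.w := rfl
    rw [h4, h3] at h
    exact Bool.noConfusion h

/-- the positions are correct -/
theorem pm_ok (hy : Hc2 cmp cmp' sol sol' Y f P) (he : Y.W e ≠ []) (hN : Nr sol Y e)
    (hpos : ∀ e, Y.W e ≠ [] → P.PosOk2 (Y.c e) (Y.c (Y.al e)))
    (hc : P.ckR (wsl P.Q.wm (Y.c e)) (Y.c e) (Y.W e).length R = true)
    {PL : List (List Nat)} (hPL : ∀ Q ∈ PL, PatOk (P.tau Y e) Q) {i : Nat}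
    (hi : i < (Y.W e).length) :
    POk2 (P.tau Y e) (P.kp Y e i) (P.G2 (Y.c (Y.nx^[i] e)) (Y.nb e i))
      (P.pm (Y.c e) R PL i) := by
  have h := alln_iff.1 hc i hi
  rw [cond_true_iff, cond_true_iff] at h
  obtain ⟨c1, -, c3⟩ := h
  have hs := pok_srt c1
  have hk : P.kp Y e i = ix (P.nfy Y e i) (P.ps (Y.c e) i).cl := rfl
  have hkl : P.kp Y e i ≤ (P.ps (Y.c e) i).cl.length := ix_le _ _
  -- the gain
  have hG : P.G2 (Y.c (Y.nx^[i] e)) (Y.nb e i) ≤
      gi (P.ps (Y.c e) i).df (P.ps (Y.c e) i).cl (P.kp Y e i) := by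
    have h1 := hpos _ (hy.ok.ne_iter he i)
    unfold Pn.PosOk2 at h1
    have h2 : Y.c (Y.nx^[i] e) = rot (Y.c e) i := (rot_c hy.ok he i).symm
    have h3 : (P.ps (Y.c e) i).df = (P.Q.pos (P.Q.ky (Y.c (Y.nx^[i] e))) 0).df := by
      rw [h2]; exact Pm.pos_df _ _ _
    have h4 : (P.ps (Y.c e) i).cl = (P.Q.pos (P.Q.ky (Y.c (Y.nx^[i] e))) 0).cl := by
      rw [h2]; exact Pm.pos_cl _ _ _
    rw [← h3, ← h4] at h1
    rcases h1 with h1 | ⟨g, h1, h5⟩
    · exact le_trans h1 (df_le_gi hs _)
    · exact le_trans h5 (le_gi hs h1)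
  have ef : (P.pm (Y.c e) R PL i).f = 2 ^ ((P.ps (Y.c e) i).cl.length + 1) - 1 := by
    show Nat.sub (Nat.pow 2 (Nat.add (len (P.ps (Y.c e) i).cl) 1)) 1 = _
    rw [len_eq]; rfl
  have ea : (P.pm (Y.c e) R PL i).a = P.w * i := rfl
  have eg : (P.pm (Y.c e) R PL i).gp = pk (P.ps (Y.c e) i).cl (P.ps (Y.c e) i).df := rfl
  have ed : (P.pm (Y.c e) R PL i).df = (P.ps (Y.c e) i).df := rfl
  have er : (P.pm (Y.c e) R PL i).rows = rws (P.w * i) PL (P.ps (Y.c e) i).cl
      (P.ps (Y.c e) i).cl.length (nthR R i) := by
    show rws (Nat.mul P.w i) PL (P.ps (Y.c e) i).cl (len (P.ps (Y.c e) i).cl) (nthR R i) = _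
    rw [len_eq]; rfl
  unfold POk2
  rw [ef, ea, eg, ed, er]
  refine ⟨?_, fun j hj hf => ?_, ⟨_, rws_srt _ _ _ _ hs⟩, ?_⟩
  · rw [Nat.testBit_two_pow_sub_one, decide_eq_true_eq]
    omega
  · rw [Nat.testBit_two_pow_sub_one, decide_eq_true_eq] at hf
    rw [gn_pk c1 (by omega)]
    exact le_trans hG (gi_mono hs hj (by omega))
  · by_cases h0 : P.kp Y e i = 0
    · left
      refine ⟨h0, ?_⟩
      rw [h0] at hG
      refine le_trans hG (le_of_eq ?_)
      -- the gain of the bit `0`
      generalize (P.ps (Y.c e) i).cl = l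
      induction l with
      | nil => rfl
      | cons c l ih =>
        unfold gi
        rw [if_neg (by omega)]
        exact ih
    · right
      obtain ⟨r, r1, r2, r3, r4, n, r5, r6, r7⟩ := rws_row (a := P.w * i)
        (df := (P.ps (Y.c e) i).df) (PL := PL) (P.ps (Y.c e) i).cl (nthR R i) h0
      refine ⟨r, r1, r2, by rw [r3]; exact hG, fun t ht => ?_, ?_⟩
      · rw [r5, msk_bit] at ht
        have h1 := exl_sound c3 n r6 t ht
        rw [r7] at h1
        exact xt_tau hy he hN hc hi h1
      · rw [r4]
        exact oths_ok (t := P.w * i + ix (P.nfy Y e i) (P.ps (Y.c e) i).cl)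
          ⟨i, hi, rfl⟩ hPL

/-- the sum of the gains -/
theorem pms_sum (PL : List (List Nat)) (G : Nat → Nat) : ∀ ord : List Nat,
    ((P.pms c R PL ord).map fun p => G p.a).sum = (ord.map fun i => G (P.w * i)).sum
  | [] => rfl
  | i :: ord => by
    have e1 : P.pms c R PL (i :: ord) = P.pm c R PL i :: P.pms c R PL ord := pms_cons ..
    rw [e1, List.map_cons, List.map_cons, List.sum_cons, List.sum_cons, pms_sum PL G ord]
    rfl

theorem pms_mem {PL : List (List Nat)} : ∀ {ord : List Nat} {p : PM}, p ∈ P.pms c R PL ord →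
    ∃ i ∈ ord, p = P.pm c R PL i
  | [], p, h => by simp [Pn.pms] at h
  | i :: ord, p, h => by
    have e1 : P.pms c R PL (i :: ord) = P.pm c R PL i :: P.pms c R PL ord := pms_cons ..
    rw [e1, List.mem_cons] at h
    rcases h with h | h
    · exact ⟨i, List.mem_cons_self .., h⟩
    · obtain ⟨j, h1, h2⟩ := pms_mem h
      exact ⟨j, List.mem_cons_of_mem _ h1, h2⟩

theorem plm_aux {a : Nat} : ∀ (l : List (Nat × Nat)) (t : Nat), Nat.testBit
    (List.rec (motive := fun _ => Nat → Nat) (fun _ => 0)
    (fun (q : Nat × Nat) _ ih k => Nat.lor (Bool.rec (motive := fun _ => Nat)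
      (Bool.rec (motive := fun _ => Nat) (Nat.shiftLeft 1 (Nat.add a k)) 0
        (Nat.ble 4294967296 q.2)) 0 (Nat.beq q.2 0)) (ih (Nat.sub k 1))) l l.length) t = true →
    ∃ n < l.length, t = a + (l.length - n) ∧ Nat.ble 4294967296 (l.getD n (0, 0)).2 = false ∧
      (l.getD n (0, 0)).2 ≠ 0
  | [], t, h => by
    rw [show (List.rec (motive := fun _ => Nat → Nat) (fun _ => 0)
      (fun (q : Nat × Nat) _ ih k => Nat.lor (Bool.rec (motive := fun _ => Nat)
      (Bool.rec (motive := fun _ => Nat) (Nat.shiftLeft 1 (Nat.add a k)) 0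
        (Nat.ble 4294967296 q.2)) 0 (Nat.beq q.2 0)) (ih (Nat.sub k 1)))
        ([] : List (Nat × Nat)) ([] : List (Nat × Nat)).length) = 0 from rfl,
        Nat.zero_testBit] at h
    exact Bool.noConfusion h
  | q :: l, t, h => by
    have h' : Nat.testBit (Nat.lor (Bool.rec (motive := fun _ => Nat)
      (Bool.rec (motive := fun _ => Nat) (Nat.shiftLeft 1 (Nat.add a (l.length + 1))) 0
        (Nat.ble 4294967296 q.2)) 0 (Nat.beq q.2 0))
        (List.rec (motive := fun _ => Nat → Nat) (fun _ => 0)
      (fun (q : Nat × Nat) _ ih k => Nat.lor (Bool.rec (motive := fun _ => Nat)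
      (Bool.rec (motive := fun _ => Nat) (Nat.shiftLeft 1 (Nat.add a k)) 0
        (Nat.ble 4294967296 q.2)) 0 (Nat.beq q.2 0)) (ih (Nat.sub k 1))) l l.length)) t = true := h
    rw [lor_eq, Nat.testBit_or, Bool.or_eq_true] at h'
    rcases h' with h' | h'
    · cases h0 : Nat.beq q.2 0 with
      | true =>
        rw [h0] at h'
        rw [show (Bool.rec (motive := fun _ => Nat) (Bool.rec (motive := fun _ => Nat)
          (Nat.shiftLeft 1 (Nat.add a (l.length + 1))) 0 (Nat.ble 4294967296 q.2)) 0 true) = 0
          from rfl, Nat.zero_testBit] at h'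
        exact Bool.noConfusion h'
      | false =>
        rw [h0] at h'
        cases h1 : Nat.ble 4294967296 q.2 with
        | true =>
          rw [h1] at h'
          rw [show (Bool.rec (motive := fun _ => Nat) (Bool.rec (motive := fun _ => Nat)
            (Nat.shiftLeft 1 (Nat.add a (l.length + 1))) 0 true) 0 false) = 0
            from rfl, Nat.zero_testBit] at h'
          exact Bool.noConfusion h'
        | false =>
          rw [h1] at h'
          have h2 : Nat.testBit (Nat.shiftLeft 1 (a + (l.length + 1))) t = true := h'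
          rw [shl_one, Nat.testBit_two_pow, decide_eq_true_eq] at h2
          refine ⟨0, by simp, ?_, by simpa using h1, by
            simpa using Nat.ne_of_beq_eq_false h0⟩
          rw [List.length_cons]
          omega
    · obtain ⟨n, n1, n2, n3, n4⟩ := plm_aux l t h'
      refine ⟨n + 1, by rw [List.length_cons]; omega, ?_, by simpa using n3, by simpa using n4⟩
      rw [List.length_cons]
      omega

theorem cda_getD : ∀ (l : List (Nat × Nat)) (n : Nat), n < l.length →
    cda l (l.length - n) = (l.getD n (0, 0)).2 := by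
  intro l n hn
  unfold cda
  rw [len_eq]
  induction l generalizing n with
  | nil => simp at hn
  | cons c l ih =>
    dsimp only
    cases n with
    | zero =>
      have : Nat.beq (c :: l).length ((c :: l).length - 0) = true := Nat.beq_refl _
      rw [this]; rfl
    | succ n =>
      have hn' : n < l.length := by simpa using hn
      have e1 : (c :: l).length - (n + 1) = l.length - n := by rw [List.length_cons]; omega
      rw [e1]
      have : Nat.beq (c :: l).length (l.length - n) = false := by
        rw [← Bool.not_eq_true]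
        intro hc
        have := Nat.eq_of_beq_eq_true hc
        rw [List.length_cons] at this
        omega
      rw [this]
      have := ih n hn'
      simpa using this

/-- a pattern -/
theorem mml_ok (hy : Hc2 cmp cmp' sol sol' Y f P) (hb : Bmp P.Q.bm f Y) (hS : Y.Ok cmp sol)
    (hc : P.ckR k (Y.c e) (Y.W e).length R = true) {ts : List Nat}
    (hz : P.nzp (Y.c e) ts = true)
    (h : ¬ ∀ q ∈ P.trl (Y.c e) ts, mtb (P.nfy Y e q.1) q.2 = true) :
    PatOk (P.tau Y e) (P.mml (Y.c e) ts) := by
  unfold Pn.nzp at hz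
  rw [cond_true_iff] at hz
  have hz := allb_sound hz.1
  have hmem : ∀ (ts : List Nat) B, B ∈ P.mml (Y.c e) ts ↔ ∃ t ∈ ts, B = P.mm (Y.c e) t := by
    intro ts
    induction ts with
    | nil => intro B; simp [Pn.mml]
    | cons t ts ih =>
      intro B
      have e1 : P.mml (Y.c e) (t :: ts) = P.mm (Y.c e) t :: P.mml (Y.c e) ts := rfl
      rw [e1, List.mem_cons, ih]
      simp
  refine ⟨fun B hB => ?_, fun hall => h ?_⟩
  · obtain ⟨t, t1, rfl⟩ := (hmem ts B).1 hB
    have := hz t t1
    cases h0 : Nat.beq (P.mm (Y.c e) t) 0 with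
    | true => rw [h0] at this; exact Bool.noConfusion this
    | false => exact Nat.ne_of_beq_eq_false h0
  · have key : ∀ ts : List Nat, (∀ t ∈ ts, Sat (P.tau Y e) (P.mm (Y.c e) t) ∧
        (Nat.ble 1000000 t = false → P.cdt (Y.c e) t ≠ 0)) →
        ∀ q ∈ P.trl (Y.c e) ts, mtb (P.nfy Y e q.1) q.2 = true := by
      intro ts
      induction ts with
      | nil => intro _ q hq; simp [Pn.trl] at hq
      | cons t ts ih =>
        intro ht q hq
        have ih := ih (fun s hs => ht s (List.mem_cons_of_mem _ hs))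
        obtain ⟨hsat, hnz⟩ := ht t (List.mem_cons_self ..)
        have e1 : P.trl (Y.c e) (t :: ts) = Bool.rec (motive := fun _ => List (Nat × Nat))
          ((Nat.div t P.w, P.cdt (Y.c e) t) :: P.trl (Y.c e) ts)
          ((Nat.sub t 1000000, 2) :: P.trl (Y.c e) ts) (Nat.ble 1000000 t) := rfl
        rw [e1] at hq
        have e2 : P.mm (Y.c e) t = Bool.rec (motive := fun _ => Nat) (Nat.shiftLeft 1 t)
          (P.plm (Y.c e) (Nat.sub t 1000000)) (Nat.ble 1000000 t) := by
          rw [← sl6_eq (P.plm (Y.c e))]; rfl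
        rw [e2] at hsat
        cases hb1 : Nat.ble 1000000 t with
        | false =>
          rw [hb1] at hq hsat
          rcases List.mem_cons.1 hq with rfl | hq
          · obtain ⟨s, s1, s2⟩ := hsat
            have s3 : Nat.testBit (Nat.shiftLeft 1 t) s = true := s2
            rw [shl_one, Nat.testBit_two_pow, decide_eq_true_eq] at s3
            subst s3
            show mtb (P.nfy Y e (t / P.w)) (P.cdt (Y.c e) t) = true
            rcases cdt_tau hy hc s1 with h2 | h2
            · exact absurd h2 (hnz hb1)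
            · rw [h2]
              unfold mtb
              have h3 := (nfy_ne (e := e) (i := t / P.w) hb hS).2
              have h4 : Nat.beq (P.nfy Y e (t / P.w)) 2 = false := by
                rw [← Bool.not_eq_true]
                intro hc
                exact h3 (Nat.eq_of_beq_eq_true hc)
              rw [h4]
              exact Nat.beq_refl _
          · exact ih q hq
        | true =>
          rw [hb1] at hq hsat
          generalize Nat.sub t 1000000 = m at hq hsat
          rcases List.mem_cons.1 hq with rfl | hq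
          · obtain ⟨s, s1, s2⟩ := hsat
            have s2' : Nat.testBit (P.plm (Y.c e) m) s = true := s2
            unfold Pn.plm at s2'
            rw [len_eq] at s2'
            obtain ⟨n, n1, n2, n3, n4⟩ := plm_aux _ s s2'
            show mtb (P.nfy Y e m) 2 = true
            -- the position
            obtain ⟨i, i1, i2⟩ := s1
            have hk := kp_lt hc i1
            have n2' : s = P.w * m + ((P.ps (Y.c e) m).cl.length - n) := n2
            -- the list at `m`
            have hi : i = m := by
              by_contra hne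
              rw [i2] at n2'
              rcases Nat.lt_or_gt_of_ne hne with hlt | hgt
              · obtain ⟨z, hz⟩ : ∃ z, m = i + 1 + z := ⟨m - i - 1, by omega⟩
                have e5 : P.w * m = P.w * i + P.w + P.w * z := by rw [hz]; ring
                omega
              · -- the position of the mask is smaller
                have hlt : m < (Y.W e).length := by omega
                have hk2 := (kp_lt hc hlt).1
                obtain ⟨z, hz⟩ : ∃ z, i = m + 1 + z := ⟨i - m - 1, by omega⟩
                have e5 : P.w * i = P.w * m + P.w + P.w * z := by rw [hz]; ring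
                omega
            subst hi
            have h5 : P.kp Y e i = (P.ps (Y.c e) i).cl.length - n := by omega
            have h6 : P.nfy Y e i = ((P.ps (Y.c e) i).cl.getD n (0, 0)).2 := by
              rw [← cda_getD _ n n1, ← h5]
              exact (cda_ix (by
                have : P.kp Y e i ≠ 0 := by omega
                exact this)).symm
            unfold mtb
            rw [h6]
            have h7 : Nat.beq ((P.ps (Y.c e) i).cl.getD n (0, 0)).2 0 = false := by
              rw [← Bool.not_eq_true]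
              intro hc
              exact n4 (Nat.eq_of_beq_eq_true hc)
            rw [h7, n3]
            rfl
          · exact ih q hq
    apply key
    intro t ht
    refine ⟨hall _ ((hmem ts _).2 ⟨t, ht, rfl⟩), fun h1 => ?_⟩
    have := hz t ht
    cases h0 : Nat.beq (P.mm (Y.c e) t) 0 with
    | true => rw [h0] at this; exact Bool.noConfusion this
    | false =>
      rw [h0, h1] at this
      cases h2 : Nat.beq (P.cdt (Y.c e) t) 0 with
      | true => rw [h2] at this; exact Bool.noConfusion this
      | false => exact Nat.ne_of_beq_eq_false h2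

end sound

end

end Pool.FCS
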