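import Pool.Agent.FCS.Md

/-!
# Star check: views of the centre, the tree of a centre
-/

namespace Pool.FCS

noncomputable section

/-- the `p`-th letter -/
def gtk (V : List Nat) (p : Nat) : Nat :=
  List.rec (motive := fun _ => Nat → Nat) (fun _ => 0)
    (fun x _ ih p => Bool.rec (motive := fun _ => Nat) (ih (Nat.sub p 1)) x (Nat.beq p 0)) V p

/-- replace the `p`-th letter -/
def stk (x : Nat) (V : List Nat) (p : Nat) : List Nat :=
  List.rec (motive := fun _ => Nat → List Nat) (fun _ => [])
    (fun y l ih p => Bool.rec (motive := fun _ => List Nat) (y :: ih (Nat.sub p 1)) (x :: l)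
      (Nat.beq p 0)) V p

/-- length -/
def lln (l : List Nat) : Nat := List.rec (motive := fun _ => Nat) 0 (fun _ _ ih => Nat.add ih 1) l

/-- the letters of a fact, from the sector `r` on -/
def Pn.mv (P : Pn) (d : Nat) (V : List Nat) (X : List Nat) (r : Nat) : Bool :=
  List.rec (motive := fun _ => Nat → Bool) (fun _ => true)
    (fun g _ ih p => Bool.rec (motive := fun _ => Bool) false (ih (nxt d p))
      (P.lev g (gtk V p))) X r

/-- the conditions `Pl` and the view `V` imply the fact at the dart `r` -/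
def Pn.ptv (P : Pn) (d : Nat) (V : List Nat) (X : Fct) (r : Nat) (Pl : List (Nat × Nat)) : Bool :=
  bif Nat.beq (lln X.1) d then
    bif Nat.ble (Nat.succ r) d then
      bif P.mv d V X.1 r then
        List.rec (motive := fun _ => Bool) true
          (fun p _ ih => bif cdb P.leb p.2 (look Pl (Nat.mod (Nat.add r p.1) d)) then ih
            else false) X.2
      else false
    else false
  else false

/-- The tree of a centre: leaf (order, excluded bits, positions where a null neighbour is
considered separately), dead, more patterns, pairs of bits excluded by the view, split a sector,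
next letter, end. -/
inductive Tr where
  | lf (ord xs ns : List Nat) : Tr
  | dd (n : Nat) : Tr
  | pt (ts : List (List Nat)) (ds : List Nat) (t : Tr) : Tr
  | pr (ts : List (Nat × Nat)) (t : Tr) : Tr
  | sp (i : Nat) (t : Tr) : Tr
  | ch (a t : Tr) : Tr
  | en : Tr

/-- the bit `t` is excluded by the view -/
def Pn.ux (P : Pn) (c d k : Nat) (V : List Nat) (t : Nat) : Bool :=
  sl6 (fun i => (fun b : Nat => bif Nat.ble b 1 then false else
    bif P.ua k (gtk V i) (slf b) (Nat.div (lo b) (pwF (lo b))) then
      bif P.ub k (gtk V (prv d i)) (slf b) (Nat.mod (lo b) 32) then false else true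
    else true) (P.cd (P.Q.ky (rot c i)) (Nat.mod t P.w))) (Nat.div t P.w)

theorem ux_eq (P : Pn) (c d k : Nat) (V : List Nat) (t : Nat) : P.ux c d k V t =
    (fun i b : Nat => bif Nat.ble b 1 then false else
    bif P.ua k (gtk V i) (slf b) (Nat.div (lo b) (pwF (lo b))) then
      bif P.ub k (gtk V (prv d i)) (slf b) (Nat.mod (lo b) 32) then false else true
    else true) (Nat.div t P.w) (P.cdt c t) := by
  unfold Pn.ux Pn.cdt
  rw [sl6_eq, sl6_eq]

/-- the first mask -/
def Pn.m0 (P : Pn) (d : Nat) (xs : List Nat) (PL : List (List Nat)) : Nat :=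
  (fun A : Nat => Nat.xor A (Nat.land A (Nat.lor (msk xs) (cls 0 PL))))
    (Nat.sub (Nat.pow 2 (Nat.mul P.w d)) 1)

/-- remove bits -/
def rmv (M X : Nat) : Nat := Nat.xor M (Nat.land M X)

/-- the bit of the null candidate at the position `i` -/
def Pn.nlx (P : Pn) (c i : Nat) : Nat :=
  List.rec (motive := fun _ => Nat → Nat) (fun _ => 0)
    (fun q _ ih k => Bool.rec (motive := fun _ => Nat) (ih (Nat.sub k 1)) k (Nat.beq q.2 1))
    (P.ps c i).cl (len (P.ps c i).cl)

/-- the bit of the null candidate at the position `i`, nothing for the bit `0` -/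
def Pn.nlm (P : Pn) (c i : Nat) : Nat :=
  Bool.rec (motive := fun _ => Nat) (Nat.shiftLeft 1 (Nat.add (Nat.mul P.w i) (P.nlx c i))) 0
    (Nat.beq (P.nlx c i) 0)

/-- the other bits of the position `i` -/
def Pn.nlo (P : Pn) (c i : Nat) : Nat :=
  Nat.xor (Nat.shiftLeft (Nat.sub (Nat.pow 2 P.w) 1) (Nat.mul P.w i))
    (Nat.shiftLeft 1 (Nat.add (Nat.mul P.w i) (P.nlx c i)))

/-- the bits of the null candidates of the positions `ns` -/
def Pn.x0 (P : Pn) (c : Nat) (ns : List Nat) : Nat :=
  List.rec (motive := fun _ => Nat) 0 (fun i _ ih => Nat.lor (P.nlm c i) ih) ns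

/-- the bits of the null candidates of all positions except for `i` -/
def Pn.x1 (P : Pn) (c i d : Nat) : Nat :=
  Nat.rec (motive := fun _ => Nat) 0 (fun j ih => Nat.lor
    (Bool.rec (motive := fun _ => Nat) (P.nlm c j) 0 (Nat.beq j i)) ih) d

/-- the check of a leaf: no null neighbour in `ns`, one null neighbour, two null neighbours -/
def Pn.lfn (P : Pn) (c d : Nat) (ns : List Nat) (ps : List PM) (m : Nat) : Bool :=
  bif gom (P.Q.thr c) ps (rmv m (P.x0 c ns)) 0 0 then
    bif allb (fun i => bif Nat.ble (Nat.succ i) d then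
        gom (Nat.add (P.Q.thr c) P.dl) ps (rmv m (Nat.lor (P.nlo c i) (P.x1 c i d))) 0 0
      else false) ns then
      alln d fun i => bif (bif tb P.Q.sm (dg (Nat.pow 32 i) c) then
          (bif mem i ns then true else mem (nxt d i) ns) else false) then
        gom (P.Q.thr c) ps (rmv m (Nat.lor (P.nlo c i) (sl6 (P.nlo c) (nxt d i)))) 0 0
      else true
    else false
  else false

/-- the check of a leaf -/
def Pn.lfc (P : Pn) (c d k : Nat) (R : List (List (List Nat))) (ord xs ns V : List Nat)
    (PL : List (List Nat)) : Bool :=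
  bif okOrd d ord then
    bif allb (P.ux c d k V) xs then
      List.rec (motive := fun _ => Bool) (gom (P.Q.thr c) (P.pms c R PL ord) (P.m0 d xs PL) 0 0)
        (fun _ _ _ => P.lfn c d ns (P.pms c R PL ord) (P.m0 d xs PL)) ns
    else false
  else false

/-- the derivations of the patterns -/
def Pn.pdv (P : Pn) (ml : Nat → Nat) (FB : BT (List Fct)) (c d : Nat) (V : List Nat)
    (ts : List (List Nat)) : List Nat → Bool :=
  List.rec (motive := fun _ => List Nat → Bool) (fun _ => true)
    (fun T _ ih ds => List.rec (motive := fun _ => Bool) false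
      (fun n ds' _ => bif P.nzp c T then
        bif P.ptv d V (fct ml FB (Nat.div n 8)) (Nat.mod n 8) (P.trl c T) then ih ds' else false
      else false) ds) ts

/-- the pairs of bits are excluded by the view -/
def Pn.pvr (P : Pn) (c d k : Nat) (V : List Nat) (ts : List (Nat × Nat)) : Bool :=
  List.rec (motive := fun _ => Bool) true
    (fun q _ ih => bif Nat.beq (Nat.div q.2 P.w) (nxt d (Nat.div q.1 P.w)) then
      bif (bif Nat.ble (P.cdt c q.1) 1 then false else bif Nat.ble (P.cdt c q.2) 1 then false else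
        P.gv k (gtk V (Nat.div q.1 P.w)) (P.cdt c q.1) (P.cdt c q.2)) then ih else false
      else false) ts

/-- the patterns of the pairs -/
def appr (PL : List (List Nat)) (ts : List (Nat × Nat)) : List (List Nat) :=
  List.rec (motive := fun _ => List (List Nat)) PL
    (fun q _ ih => [Nat.shiftLeft 1 q.1, Nat.shiftLeft 1 q.2] :: ih) ts

/-- more patterns -/
def Pn.apl (P : Pn) (c : Nat) (PL ts : List (List Nat)) : List (List Nat) :=
  List.rec (motive := fun _ => List (List Nat)) PL (fun T _ ih => P.mml c T :: ih) ts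

/-- the check of a tree -/
def Pn.ckt (P : Pn) (ml : Nat → Nat) (FB : BT (List Fct)) (c d k : Nat)
    (R : List (List (List Nat))) (t : Tr) :
    List Nat → List (List Nat) → Nat → List Nat → Bool :=
  Tr.rec (motive := fun _ => List Nat → List (List Nat) → Nat → List Nat → Bool)
    (fun ord xs ns V PL _ _ => P.lfc c d k R ord xs ns V PL)
    (fun n V _ _ _ => P.ptv d V (fct ml FB (Nat.div n 8)) (Nat.mod n 8) [])
    (fun ts ds _ ih V PL i L => bif P.pdv ml FB c d V ts ds then ih V (P.apl c PL ts) i L
      else false)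
    (fun ts _ ih V PL i L => bif P.pvr c d k V ts then ih V (appr PL ts) i L else false)
    (fun i _ ih V PL _ _ => bif Nat.ble (Nat.succ i) d then ih V PL i (P.lg (gtk V i)) else false)
    (fun _ _ iha iht V PL i L => List.rec (motive := fun _ => Bool) true
      (fun x L' _ => bif (bif P.imp k x (gtk V (prv d i)) (gtk V (nxt d i)) then true else
          iha (stk x V i) PL i [x]) then
        iht V PL i L' else false) L)
    (fun _ _ _ L => List.rec (motive := fun _ => Bool) true (fun _ _ _ => false) L) t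

/-- all leaves are dead -/
def ded (t : Tr) : Bool :=
  Tr.rec (motive := fun _ => Bool) (fun _ _ _ => false) (fun _ => true) (fun _ _ _ ih => ih)
    (fun _ _ ih => ih) (fun _ _ ih => ih) (fun _ _ iha iht => bif iha then iht else false) true t

/-- the first view -/
def Pn.v0 (P : Pn) (c : Nat) : List Nat :=
  Nat.rec (motive := fun _ => Nat → List Nat) (fun _ => [])
    (fun _ ih c => bif Nat.beq c 0 then [] else P.vl (Nat.mod c 32) :: ih (Nat.div c 32)) 6 c

section sound

theorem gtk_eq : ∀ (V : List Nat) (p : Nat), gtk V p = V.getD p 0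
  | [], p => rfl
  | x :: V, p => by
    have e : gtk (x :: V) p = Bool.rec (motive := fun _ => Nat) (gtk V (p - 1)) x
      (Nat.beq p 0) := rfl
    rw [e]
    cases p with
    | zero => rfl
    | succ p =>
      have : Nat.beq (p + 1) 0 = false := rfl
      rw [this]
      show gtk V p = _
      rw [gtk_eq V p, List.getD_cons_succ]

theorem stk_eq (x : Nat) : ∀ (V : List Nat) (p : Nat), stk x V p = V.set p x
  | [], p => rfl
  | y :: V, p => by
    have e : stk x (y :: V) p = Bool.rec (motive := fun _ => List Nat) (y :: stk x V (p - 1))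
      (x :: V) (Nat.beq p 0) := rfl
    rw [e]
    cases p with
    | zero => rfl
    | succ p =>
      have : Nat.beq (p + 1) 0 = false := rfl
      rw [this]
      show y :: stk x V p = _
      rw [stk_eq x V p, List.set_cons_succ]

theorem lln_eq : ∀ l : List Nat, lln l = l.length
  | [] => rfl
  | x :: l => by
    show lln l + 1 = _
    rw [lln_eq l, List.length_cons]

theorem lew_of {le : Nat → Nat → Bool} : ∀ {l m : List Nat}, l.length = m.length →
    (∀ i < l.length, le (l.getD i 0) (m.getD i 0) = true) → lew le l m = true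
  | [], [], _, _ => rfl
  | [], _ :: _, h, _ => by simp at h
  | _ :: _, [], h, _ => by simp at h
  | x :: l, y :: m, h, hi => by
    show (le x y && lew le l m) = true
    have h1 := hi 0 (by simp)
    have h2 := lew_of (l := l) (m := m) (by simpa using h) (fun i hh => by
      have := hi (i + 1) (by simpa using hh)
      simpa using this)
    rw [show le x y = true from by simpa using h1, h2]
    rfl

variable {D : Type*} {cmp cmp' cmpS : Nat → Nat → Bool} {sol sol' lng : Nat → Bool}
  {S : Sys D} {cc f : Nat → Nat} {P : Pn} {le : Nat → Nat → Bool} {ml : Nat → Nat}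
  {FB : BT (List Fct)}

/-- the view covers the word -/
def Cov (P : Pn) (V w : List Nat) : Prop :=
  V.length = w.length ∧ ∀ i < w.length, w.getD i 0 ∈ P.lg (V.getD i 0)

/-- The hypotheses on the letters of the words and of the facts. -/
structure Hv (cmpS cmp cmp' : Nat → Nat → Bool) (sol sol' : Nat → Bool) (S : Sys D)
    (cc f : Nat → Nat) (P : Pn) (le : Nat → Nat → Bool) : Prop where
  hS : S.Ok cmpS sol
  h2 : Hc2 cmp cmp' sol sol' (S.mp cc) f P
  sol : ∀ e, ∀ x ∈ S.W e, sol (cc x) = sol x
  leb : ∀ e, ∀ x ∈ S.W e, ∀ g, P.leb g (f (cc x)) = true → le g x = true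
  lev : ∀ g v, P.lev g v = true → ∀ x ∈ P.lg v, le g x = true
  vl : ∀ e, ∀ x ∈ S.W e, x ∈ P.lg (P.vl (cc x + 1))
  lg : ∀ v, ∀ x ∈ P.lg v, x ∈ P.lg x
  imp : ∀ e, ∀ i < (S.W e).length, ∀ p n, (S.W e).getD (prv (S.W e).length i) 0 ∈ P.lg p →
    (S.W e).getD (nxt (S.W e).length i) 0 ∈ P.lg n →
    P.imp (wsl P.Q.wm ((S.mp cc).c e)) ((S.W e).getD i 0) p n = false
  gv : ∀ r, S.W r ≠ [] → S.W (S.al r) ≠ [] → S.W (S.al (S.nx r)) ≠ [] →
    ∀ v, (S.W r).getD 0 0 ∈ P.lg v →
    P.gv (wsl P.Q.wm ((S.mp cc).c r)) v
      (nfc P.Q.bm P.Q.wm P.Q.sm ((S.mp cc).c (S.al r)))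
      (nfc P.Q.bm P.Q.wm P.Q.sm ((S.mp cc).c (S.al (S.nx r)))) = false
  ua : ∀ e, S.W e ≠ [] → S.W (S.al e) ≠ [] → ∀ v, (S.W e).getD 0 0 ∈ P.lg v →
    P.ua (wsl P.Q.wm ((S.mp cc).c e)) v (wsl P.Q.wm ((S.mp cc).c (S.al e)))
      (f (cc ((S.W (S.al e)).getD ((S.W (S.al e)).length - 1) 0)) + 1) = true
  ub : ∀ e, S.W e ≠ [] → S.W (S.al e) ≠ [] → ∀ v,
    (S.W e).getD ((S.W e).length - 1) 0 ∈ P.lg v →
    P.ub (wsl P.Q.wm ((S.mp cc).c e)) v (wsl P.Q.wm ((S.mp cc).c (S.al e)))
      (f (cc ((S.W (S.al e)).getD 0 0)) + 1) = true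

theorem pls_mp {w : List Nat} (h : ∀ x ∈ w, sol (cc x) = sol x) (hp : Pls sol (w.map cc)) :
    Pls sol w := by
  rcases hp with hp | hp
  · left
    rwa [List.map_eq_nil_iff] at hp
  · right
    rintro ⟨h1, h2⟩
    apply hp
    refine ⟨by rw [List.length_map]; exact h1, fun y hy => ?_⟩
    obtain ⟨x, hx, rfl⟩ := List.mem_map.1 hy
    rw [h x hx]
    exact h2 x hx

/-- the conditions for the neighbours, from the coarse words to the exact words -/
theorem cond_down (hv : Hv cmpS cmp cmp' sol sol' S cc f P le) {x : D} {w : List Nat}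
    (h : (w = [] → Pls sol ((S.mp cc).W x)) ∧
      (w ≠ [] → lew (fun g y => P.leb g (f y)) w ((S.mp cc).W x) = true)) :
    (w = [] → Pls sol (S.W x)) ∧ (w ≠ [] → lew le w (S.W x) = true) :=
  ⟨fun h0 => pls_mp (hv.sol x) (h.1 h0), fun h0 =>
    lew_map (f := cc) (leb := fun g y => P.leb g (f y)) (hv.leb x) (h.2 h0)⟩

/-- a fact in the exact words -/
theorem mtn_down (hv : Hv cmpS cmp cmp' sol sol' S cc f P le) {X : Fct} {e : D}
    (h : Mtn (fun g y => P.leb g (f y)) sol (S.mp cc) X e) : Mtn le sol S X e :=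
  ⟨lew_map (f := cc) (leb := fun g y => P.leb g (f y)) (hv.leb e) h.1,
    fun p hp => cond_down hv (h.2 p hp)⟩

theorem nox_up (hv : Hv cmpS cmp cmp' sol sol' S cc f P le) {X : Fct}
    (h : NoX le ml sol S X) : NoX (fun g y => P.leb g (f y)) ml sol (S.mp cc) X :=
  ⟨fun e hm => h.1 e (mtn_down hv hm), fun e hm => h.2 e (mtn_down hv hm)⟩

theorem mv_sound {d : Nat} {V : List Nat} : ∀ {X : List Nat} {r : Nat}, P.mv d V X r = true →
    r < d → ∀ i < X.length, P.lev (X.getD i 0) (V.getD ((r + i) % d) 0) = true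
  | [], _, _, _, i, hi => by simp at hi
  | g :: X, r, h, hr, i, hi => by
    have h' : Bool.rec (motive := fun _ => Bool) false (P.mv d V X (nxt d r))
      (P.lev g (gtk V r)) = true := h
    cases hg : P.lev g (gtk V r) with
    | false => rw [hg] at h'; exact Bool.noConfusion h'
    | true =>
      rw [hg] at h'
      cases i with
      | zero =>
        rw [gtk_eq] at hg
        rw [Nat.add_zero, Nat.mod_eq_of_lt hr]
        exact hg
      | succ i =>
        have h2 := mv_sound h' (nxt_lt hr) i (by simpa using hi)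
        rw [List.getD_cons_succ]
        have e1 : (nxt d r + i) % d = (r + (i + 1)) % d := by
          unfold nxt
          cases hb : Nat.beq (Nat.succ r) d with
          | true =>
            have := Nat.eq_of_beq_eq_true hb
            show (0 + i) % d = _
            have e2 : r + (i + 1) = i + d := by omega
            rw [e2, Nat.add_mod_right, Nat.zero_add]
          | false =>
            show (r + 1 + i) % d = _
            congr 1
            omega
        rw [← e1]
        exact h2

theorem ptv_sound (hv : Hv cmpS cmp cmp' sol sol' S cc f P le) {X : Fct} {r : Nat}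
    {Pl : List (Nat × Nat)} {V : List Nat} {e : D} (he : S.W e ≠ []) (hV : Cov P V (S.W e))
    (h : P.ptv (S.W e).length V X r Pl = true)
    (hP : ∀ q ∈ Pl, mtb (P.nfy (S.mp cc) e q.1) q.2 = true) :
    X.1 ≠ [] ∧ Mtn le sol S X (S.nx^[r] e) := by
  unfold Pn.ptv at h
  rw [cond_true_iff, cond_true_iff, cond_true_iff] at h
  obtain ⟨h1, h2, h3, h4⟩ := h
  have hl : X.1.length = (S.W e).length := by
    rw [← lln_eq]; exact Nat.eq_of_beq_eq_true h1
  have hr : r < (S.W e).length := Nat.le_of_ble_eq_true h2
  have hS := hv.hS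
  have h4l := (hS.len e he).1
  refine ⟨fun h0 => ?_, lew_of ?_ fun i hi => ?_, ?_⟩
  · rw [h0] at hl
    simp only [List.length_nil] at hl
    omega
  · rw [hS.W_iter he, List.length_rotate]
    exact hl
  · rw [hS.W_iter he]
    have h5 := mv_sound h3 hr i hi
    apply hv.lev _ _ h5
    have h6 : (r + i) % (S.W e).length < (S.W e).length := Nat.mod_lt _ (by omega)
    have h7 := hV.2 _ h6
    have h8 : ((S.W e).rotate r).getD i 0 = (S.W e).getD ((r + i) % (S.W e).length) 0 := by
      rw [List.getD_eq_getElem _ _ (by rw [List.length_rotate, ← hl]; exact hi),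
        List.getElem_rotate, List.getD_eq_getElem _ _ h6]
      congr 1
      rw [Nat.add_comm]
    rw [h8]
    exact h7
  · have key : ∀ L : List (Nat × List Nat), List.rec (motive := fun _ => Bool) true
        (fun p _ ih => bif cdb P.leb p.2 (look Pl (Nat.mod (Nat.add r p.1) (S.W e).length))
          then ih else false) L = true → ∀ p ∈ L,
        (p.2 = [] → Pls sol (S.W (S.al (S.nx^[p.1] (S.nx^[r] e))))) ∧
        (p.2 ≠ [] → lew le p.2 (S.W (S.al (S.nx^[p.1] (S.nx^[r] e)))) = true) := by
      intro L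
      induction L with
      | nil => intro _ p hp; simp at hp
      | cons q L ih =>
        intro hL p hp
        dsimp only at hL
        rw [cond_true_iff] at hL
        rcases List.mem_cons.1 hp with rfl | hp
        · have e1 : S.nx^[p.1] (S.nx^[r] e) = S.nx^[(r + p.1) % (S.W e).length] e := by
            rw [← Function.iterate_add_apply, Nat.add_comm p.1 r]
            have hpp : Function.IsPeriodicPt S.nx (S.W e).length e := hS.per e he
            exact (hpp.iterate_mod_apply _).symm
          rw [e1]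
          refine cond_down hv ?_
          have hL1 : cdb P.leb p.2 (look Pl ((r + p.1) % (S.W e).length)) = true := hL.1
          have hL1' : cdb (fun g y => P.leb g y) p.2
              (look Pl ((r + p.1) % (S.W e).length)) = true := hL1
          exact cdb_sound (S := S.mp cc) (le := fun g y => P.leb g (f y)) (leb := P.leb)
            (f := f) (bm := P.Q.bm) (wm := P.Q.wm) (sm := P.Q.sm) hv.h2.ok hv.h2.hb
            (fun _ _ _ _ h => h) hv.h2.hsm (fun h0 => hP _ (look_mem h0)) hL1'
        · exact ih hL.2 p hp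
    exact key X.2 h4

variable {e : D} {R : List (List (List Nat))}

theorem getD_set_ne {V : List Nat} {i j x : Nat} (h : i ≠ j) :
    (V.set i x).getD j 0 = V.getD j 0 := by
  simp [List.getD_eq_getElem?_getD, List.getElem?_set_ne h]

theorem getD_set_eq {V : List Nat} {i x : Nat} (h : i < V.length) :
    (V.set i x).getD i 0 = x := by
  simp [List.getD_eq_getElem?_getD, h]

/-- the view with an exact letter -/
theorem cov_set (hv : Hv cmpS cmp cmp' sol sol' S cc f P le) {V : List Nat} {i x : Nat}
    (hV : Cov P V (S.W e)) (hi : i < (S.W e).length) (hx : (S.W e).getD i 0 = x) :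
    Cov P (stk x V i) (S.W e) := by
  rw [stk_eq]
  refine ⟨by rw [List.length_set]; exact hV.1, fun j hj => ?_⟩
  by_cases h : i = j
  · subst h
    rw [getD_set_eq (by rw [hV.1]; exact hi), hx]
    have := hv.lg _ _ (hV.2 i hi)
    rw [hx] at this
    exact this
  · rw [getD_set_ne h]
    exact hV.2 j hj

theorem lastD_iter (hS : S.Ok cmpS sol) (he : S.W e ≠ []) {i : Nat} (hi : i < (S.W e).length) :
    (S.W (S.nx^[i] e)).getD ((S.W (S.nx^[i] e)).length - 1) 0 =
      (S.W e).getD (prv (S.W e).length i) 0 := by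
  have h4 := (hS.len e he).1
  rw [hS.W_iter he, List.length_rotate]
  have h1 : (S.W e).length - 1 < ((S.W e).rotate i).length := by rw [List.length_rotate]; omega
  rw [List.getD_eq_getElem _ _ h1, List.getElem_rotate]
  have h2 : ((S.W e).length - 1 + i) % (S.W e).length = prv (S.W e).length i := by
    unfold prv
    cases i with
    | zero =>
      show ((S.W e).length - 1 + 0) % (S.W e).length = (S.W e).length - 1
      rw [Nat.add_zero, Nat.mod_eq_of_lt (by omega)]
    | succ i =>
      show ((S.W e).length - 1 + (i + 1)) % (S.W e).length = i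
      rw [show (S.W e).length - 1 + (i + 1) = i + (S.W e).length by omega, Nat.add_mod_right,
        Nat.mod_eq_of_lt (by omega)]
  have h3 : prv (S.W e).length i < (S.W e).length := by
    rw [← h2]; exact Nat.mod_lt _ (by omega)
  rw [List.getD_eq_getElem _ _ h3]
  congr 1

theorem getD_iter (hS : S.Ok cmpS sol) (he : S.W e ≠ []) {i : Nat} (hi : i < (S.W e).length) :
    (S.W (S.nx^[i] e)).getD 0 0 = (S.W e).getD i 0 := by
  have h4 := (hS.len e he).1
  rw [hS.W_iter he, List.getD_eq_getElem _ _ (by rw [List.length_rotate]; omega),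
    List.getElem_rotate, List.getD_eq_getElem _ _ hi]
  congr 1
  rw [Nat.zero_add, Nat.mod_eq_of_lt hi]

theorem prv_lt {d i : Nat} (hi : i < d) : prv d i < d := by
  unfold prv
  cases Nat.beq i 0
  · show Nat.pred i < d
    exact lt_of_le_of_lt (Nat.pred_le i) hi
  · show Nat.pred d < d
    exact Nat.pred_lt (by omega)

/-- bits excluded by the view -/
theorem ux_tau (hv : Hv cmpS cmp cmp' sol sol' S cc f P le) {V : List Nat} (he : S.W e ≠ [])
    (hV : Cov P V (S.W e)) {k : Nat}
    (hc : P.ckR k ((S.mp cc).c e) ((S.mp cc).W e).length R = true) {t : Nat}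
    (h : P.ux ((S.mp cc).c e) (S.W e).length (wsl P.Q.wm ((S.mp cc).c e)) V t = true) :
    ¬ P.tau (S.mp cc) e t := by
  intro ht
  have hS := hv.hS
  have hY := hv.h2.ok
  have he' : (S.mp cc).W e ≠ [] := mp_ne.2 he
  have hlen : ((S.mp cc).W e).length = (S.W e).length := by
    show ((S.W e).map cc).length = _
    rw [List.length_map]
  have h1 := tau_div hc ht
  have hi : t / P.w < (S.W e).length := by rw [← hlen]; exact h1.1
  rw [ux_eq] at h
  rcases cdt_tau hv.h2 hc ht with h2 | h2
  · rw [h2] at h
    exact Bool.noConfusion h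
  · rw [h2] at h
    have h3 : Nat.div t P.w = t / P.w := rfl
    rw [h3] at h
    generalize t / P.w = i at *
    dsimp only at h
    cases hb : Nat.ble (P.nfy (S.mp cc) e i) 1 with
    | true => rw [hb] at h; exact Bool.noConfusion h
    | false =>
      rw [hb] at h
      -- the neighbour has a word
      have n1 : (S.mp cc).W ((S.mp cc).al ((S.mp cc).nx^[i] e)) ≠ [] := by
        intro h0
        have : P.nfy (S.mp cc) e i = 1 := nf_nil h0
        rw [this] at hb
        exact Bool.noConfusion hb
      have n2 : S.W (S.al (S.nx^[i] e)) ≠ [] := mp_ne.1 n1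
      have n0 : S.W (S.nx^[i] e) ≠ [] := hS.ne_iter he i
      have e1 : P.nfy (S.mp cc) e i = nfc P.Q.bm P.Q.wm P.Q.sm
        ((S.mp cc).c ((S.mp cc).al ((S.mp cc).nx^[i] e))) := nf_ne n1
      have hbl := hv.h2.hb.lt hY ((S.mp cc).al ((S.mp cc).nx^[i] e))
      have hS' := hv.h2.ok'
      rw [e1, slf_nfc hbl, lo_nfc hbl, pwF_eq, bll hv.h2.hb hY hS' n1, bl0 hv.h2.hb hY hS' n1,
        gtk_eq, gtk_eq] at h
      have g1 : wsl P.Q.wm ((S.mp cc).c e) = wsl P.Q.wm ((S.mp cc).c (S.nx^[i] e)) :=
        (wsl_iter hY he' i).symm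
      have u1 := hv.ua (S.nx^[i] e) n0 n2 (V.getD i 0) (by
        rw [getD_iter hS he hi]; exact hV.2 i hi)
      have u2 := hv.ub (S.nx^[i] e) n0 n2 (V.getD (prv (S.W e).length i) 0) (by
        rw [lastD_iter hS he hi]; exact hV.2 _ (prv_lt hi))
      have l4 := (hS.len _ n2).1
      have m1 : ((S.mp cc).W ((S.mp cc).al ((S.mp cc).nx^[i] e))).getD
          (((S.mp cc).W ((S.mp cc).al ((S.mp cc).nx^[i] e))).length - 1) 0 =
          cc ((S.W (S.al (S.nx^[i] e))).getD ((S.W (S.al (S.nx^[i] e))).length - 1) 0) := by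
        show ((S.W (S.al (S.nx^[i] e))).map cc).getD
          (((S.W (S.al (S.nx^[i] e))).map cc).length - 1) 0 = _
        rw [List.length_map, getD_map0 (by omega)]
      have m2 : ((S.mp cc).W ((S.mp cc).al ((S.mp cc).nx^[i] e))).getD 0 0 =
          cc ((S.W (S.al (S.nx^[i] e))).getD 0 0) := by
        show ((S.W (S.al (S.nx^[i] e))).map cc).getD 0 0 = _
        rw [getD_map0 (by omega)]
      rw [m1, m2, g1] at h
      have u1' : P.ua (wsl P.Q.wm ((S.mp cc).c (S.nx^[i] e))) (V.getD i 0)
        (wsl P.Q.wm ((S.mp cc).c ((S.mp cc).al ((S.mp cc).nx^[i] e)))) (f (cc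
          ((S.W (S.al (S.nx^[i] e))).getD ((S.W (S.al (S.nx^[i] e))).length - 1) 0)) + 1) = true :=
        u1
      have u2' : P.ub (wsl P.Q.wm ((S.mp cc).c (S.nx^[i] e))) (V.getD (prv (S.W e).length i) 0)
        (wsl P.Q.wm ((S.mp cc).c ((S.mp cc).al ((S.mp cc).nx^[i] e)))) (f (cc
          ((S.W (S.al (S.nx^[i] e))).getD 0 0)) + 1) = true := u2
      rw [u1', u2'] at h
      exact Bool.noConfusion h

/-- pairs of bits excluded by the view -/
theorem prv_tau (hv : Hv cmpS cmp cmp' sol sol' S cc f P le) {V : List Nat} (he : S.W e ≠ [])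
    (hV : Cov P V (S.W e)) {k : Nat}
    (hc : P.ckR k ((S.mp cc).c e) ((S.mp cc).W e).length R = true) {PL : List (List Nat)}
    (hPL : ∀ T ∈ PL, PatOk (P.tau (S.mp cc) e) T) : ∀ {ts : List (Nat × Nat)},
    P.pvr ((S.mp cc).c e) (S.W e).length (wsl P.Q.wm ((S.mp cc).c e)) V ts = true →
      ∀ T ∈ appr PL ts, PatOk (P.tau (S.mp cc) e) T
  | [], _, T, hT => hPL T hT
  | q :: ts, h, T, hT => by
    have hS := hv.hS
    have hlen : ((S.mp cc).W e).length = (S.W e).length := by
      show ((S.W e).map cc).length = _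
      rw [List.length_map]
    have h' : (bif Nat.beq (Nat.div q.2 P.w) (nxt (S.W e).length (Nat.div q.1 P.w)) then
      bif (bif Nat.ble (P.cdt ((S.mp cc).c e) q.1) 1 then false else
          bif Nat.ble (P.cdt ((S.mp cc).c e) q.2) 1 then false else
        P.gv (wsl P.Q.wm ((S.mp cc).c e)) (gtk V (Nat.div q.1 P.w))
          (P.cdt ((S.mp cc).c e) q.1) (P.cdt ((S.mp cc).c e) q.2)) then
        P.pvr ((S.mp cc).c e) (S.W e).length (wsl P.Q.wm ((S.mp cc).c e)) V ts else false
      else false) = true := h
    rw [cond_true_iff, cond_true_iff] at h'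
    obtain ⟨h1, h2, h3⟩ := h'
    have e1 : appr PL (q :: ts) = [Nat.shiftLeft 1 q.1, Nat.shiftLeft 1 q.2] :: appr PL ts := rfl
    rw [e1] at hT
    rcases List.mem_cons.1 hT with rfl | hT
    · rw [shl_one, shl_one]
      refine ⟨fun B hB => ?_, fun hall => ?_⟩
      · simp only [List.mem_cons, List.not_mem_nil, or_false] at hB
        rcases hB with rfl | rfl <;> positivity
      · obtain ⟨s1, a1, a2⟩ := hall (2 ^ q.1) (by simp)
        obtain ⟨s2, b1, b2⟩ := hall (2 ^ q.2) (by simp)
        rw [Nat.testBit_two_pow, decide_eq_true_eq] at a2 b2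
        subst a2 b2
        have t1 := tau_div hc a1
        rw [hlen] at t1
        have h1' : q.2 / P.w = nxt (S.W e).length (q.1 / P.w) := Nat.eq_of_beq_eq_true h1
        have h2' : (bif Nat.ble (P.cdt ((S.mp cc).c e) q.1) 1 then false else
          bif Nat.ble (P.cdt ((S.mp cc).c e) q.2) 1 then false else
          P.gv (wsl P.Q.wm ((S.mp cc).c e)) (gtk V (q.1 / P.w))
          (P.cdt ((S.mp cc).c e) q.1) (P.cdt ((S.mp cc).c e) q.2)) = true := h2
        rcases cdt_tau hv.h2 hc a1 with c1 | c1
        · rw [c1] at h2'; exact Bool.noConfusion h2'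
        rcases cdt_tau hv.h2 hc b1 with c2 | c2
        · rw [c2] at h2'
          cases hbb : Nat.ble (P.cdt ((S.mp cc).c e) q.1) 1 with
          | true => rw [hbb] at h2'; exact Bool.noConfusion h2'
          | false => rw [hbb] at h2'; exact Bool.noConfusion h2'
        rw [c1, c2, h1'] at h2'
        generalize q.1 / P.w = i at *
        cases hb1 : Nat.ble (P.nfy (S.mp cc) e i) 1 with
        | true => rw [hb1] at h2'; exact Bool.noConfusion h2'
        | false =>
          rw [hb1] at h2'
          cases hb2 : Nat.ble (P.nfy (S.mp cc) e (nxt (S.W e).length i)) 1 with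
          | true => rw [hb2] at h2'; exact Bool.noConfusion h2'
          | false =>
            rw [hb2] at h2'
            have n1 : (S.mp cc).W ((S.mp cc).al ((S.mp cc).nx^[i] e)) ≠ [] := by
              intro h0
              have : P.nfy (S.mp cc) e i = 1 := nf_nil h0
              rw [this] at hb1
              exact Bool.noConfusion hb1
            have n2 : (S.mp cc).W ((S.mp cc).al ((S.mp cc).nx^[nxt (S.W e).length i] e)) ≠
                [] := by
              intro h0
              have : P.nfy (S.mp cc) e (nxt (S.W e).length i) = 1 := nf_nil h0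
              rw [this] at hb2
              exact Bool.noConfusion hb2
            have g1 : P.nfy (S.mp cc) e i = nfc P.Q.bm P.Q.wm P.Q.sm
              ((S.mp cc).c ((S.mp cc).al ((S.mp cc).nx^[i] e))) := nf_ne n1
            have g2 : P.nfy (S.mp cc) e (nxt (S.W e).length i) = nfc P.Q.bm P.Q.wm P.Q.sm
              ((S.mp cc).c ((S.mp cc).al ((S.mp cc).nx^[nxt (S.W e).length i] e))) := nf_ne n2
            have g3 : (S.mp cc).nx^[nxt (S.W e).length i] e = S.nx (S.nx^[i] e) :=
              nx_nxt hS he i
            rw [g3] at g2 n2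
            have n1' : S.W (S.al (S.nx^[i] e)) ≠ [] := mp_ne.1 n1
            have n2' : S.W (S.al (S.nx (S.nx^[i] e))) ≠ [] := mp_ne.1 n2
            have h5 := hv.gv (S.nx^[i] e) (hS.ne_iter he i) n1' n2' (V.getD i 0) (by
              rw [getD_iter hS he t1.1]; exact hV.2 i t1.1)
            have g4 : wsl P.Q.wm ((S.mp cc).c e) = wsl P.Q.wm ((S.mp cc).c (S.nx^[i] e)) :=
              (wsl_iter hv.h2.ok (mp_ne.2 he) i).symm
            have h6 : P.gv (wsl P.Q.wm ((S.mp cc).c e)) (gtk V i) (P.nfy (S.mp cc) e i)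
                (P.nfy (S.mp cc) e (nxt (S.W e).length i)) = true := h2'
            rw [g1, g2, g4, gtk_eq] at h6
            exact Bool.noConfusion (h5.symm.trans h6)
    · exact prv_tau hv he hV hc hPL h3 T hT

end sound

end

end Pool.FCS
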