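import Pool.Agent.FCS.Me

/-!
# Star check: the tree of a centre is sound
-/

namespace Pool.FCS

open Finset

noncomputable section

section sound

variable {D : Type*} {cmp cmp' cmpS : Nat → Nat → Bool} {sol sol' lng : Nat → Bool}
  {S Y : Sys D} {cc f : Nat → Nat} {P : Pn} {Q : Pm} {le : Nat → Nat → Bool} {ml : Nat → Nat}
  {FB : BT (List Fct)}

/-- The hypotheses on the prices. -/
structure Hpr (sol lng : Nat → Bool) (Y : Sys D) (Q : Pm) : Prop where
  sm : ∀ e, ∀ x ∈ Y.W e, tb Q.sm (x + 1) = sol x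
  lm : ∀ e, ∀ x ∈ Y.W e, tb Q.lm (x + 1) = lng x
  sh : 12 * Q.den ≤ 4 * (Q.sh + 2 * Q.den)

theorem thrc_eq (hS : Y.Ok cmp sol) (hy : Hpr sol lng Y Q) {e : D} (he : Y.W e ≠ []) :
    (Q.thr (Y.c e) : Int) =
      (Y.W e).length * (Q.sh + 2 * Q.den) + gsv sol lng Q.den Q.nl (Y.W e) - 12 * Q.den := by
  have h4 := hS.len e he
  have hd : dgn (Y.c e) = (Y.W e).length := dgn_enc (hS.sm e) h4.1 h4.2
  have hg : Q.gws (Y.c e) (Y.W e).length = gsv sol lng Q.den Q.nl (Y.W e) :=
    gwsv_eq (hS.sm e) (hy.sm e) (hy.lm e)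
  show ((dgn (Y.c e) * (Q.sh + 2 * Q.den) + Q.gws (Y.c e) (dgn (Y.c e)) - 12 * Q.den : Nat) :
    Int) = _
  rw [hd, hg]
  have : 12 * Q.den ≤ (Y.W e).length * (Q.sh + 2 * Q.den) + gsv sol lng Q.den Q.nl (Y.W e) := by
    have h1 : 4 * (Q.sh + 2 * Q.den) ≤ (Y.W e).length * (Q.sh + 2 * Q.den) :=
      Nat.mul_le_mul_right _ h4.1
    have h2 := hy.sh
    omega
  push_cast [Nat.cast_sub this]
  ring

/-- the price of a letter -/
def Pn.hl (P : Pn) (y : Nat) : Nat := P.hd (y + 1)

/-- the contribution of an edge -/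
theorem gab2_le (hY : Y.Ok cmp sol) (hb : Bmp P.Q.bm f Y) (x : D) (hx : Y.W x ≠ []) :
    gav2 P.Q.nu P.hl P.Q.fw (Y.W x) (Y.W (Y.al x)) + P.Q.sh ≤ P.G2 (Y.c x) (Y.c (Y.al x)) := by
  unfold gav2
  by_cases h : Y.W (Y.al x) = []
  · rw [if_pos h]
    have h1 : Y.c (Y.al x) = 0 := by unfold Sys.c; rw [h]; rfl
    have h2 : P.G2 (Y.c x) (Y.c (Y.al x)) = P.Q.sh - P.nk (P.Q.ky (Y.c x)) := by rw [h1]; rfl
    have h3 : hi (P.Q.ky (Y.c x)) = Y.c x % 32 + 32 * (Y.c x / pw (Y.c x)) := hi_kfc (hb.lt hY _)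
    have h4 : Y.c x % 32 = (Y.W x).getD 0 0 + 1 := hY.dg0 hx
    have h5 : Y.c x / pw (Y.c x) = (Y.W x).getD ((Y.W x).length - 1) 0 + 1 := hY.dgl hx
    have h6 : Y.c x % 32 < 32 := Nat.mod_lt _ (by norm_num)
    have h7 : Nat.mod (hi (P.Q.ky (Y.c x))) 32 = (Y.W x).getD 0 0 + 1 := by
      rw [h3, ← h4]
      show (Y.c x % 32 + 32 * (Y.c x / pw (Y.c x))) % 32 = _
      omega
    have h8 : Nat.div (hi (P.Q.ky (Y.c x))) 32 = (Y.W x).getD ((Y.W x).length - 1) 0 + 1 := by
      rw [h3, ← h5]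
      show (Y.c x % 32 + 32 * (Y.c x / pw (Y.c x))) / 32 = _
      omega
    have h9 : P.nk (P.Q.ky (Y.c x)) = P.Q.nu + (P.hl ((Y.W x).getD 0 0) +
        P.hl ((Y.W x).getD ((Y.W x).length - 1) 0)) := by
      unfold Pn.nk
      rw [h7, h8]; rfl
    rw [h2, h9]
    omega
  · rw [if_neg h]
    have h1 : Nat.beq (Y.c (Y.al x)) 0 = false := by
      rw [← Bool.not_eq_true]
      intro h0
      exact Sys.enc_ne h (Nat.eq_of_beq_eq_true h0)
    have h2 : P.G2 (Y.c x) (Y.c (Y.al x)) = 2 * P.Q.fk (P.Q.ky (Y.c (Y.al x))) (P.Q.ky (Y.c x)) +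
        P.Q.sh - 2 * P.Q.fk (P.Q.ky (Y.c x)) (P.Q.ky (Y.c (Y.al x))) := by
      unfold Pn.G2; rw [h1]; rfl
    rw [h2]
    show 2 * ((P.Q.fk (P.Q.ky (Y.c (Y.al x))) (P.Q.ky (Y.c x)) : Int) -
      (P.Q.fk (P.Q.ky (Y.c x)) (P.Q.ky (Y.c (Y.al x))) : Int)) + P.Q.sh ≤ _
    omega

/-- the number of the null neighbours -/
def nnl (Y : Sys D) (e : D) : Nat :=
  ((range (Y.W e).length).filter fun i => Y.W (Y.al (Y.nx^[i] e)) = []).card

/-- the sum of the gains is small enough -/
def Sok (P : Pn) (Y : Sys D) (e : D) : Prop :=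
  ∑ i ∈ range (Y.W e).length, P.G2 (Y.c (Y.nx^[i] e)) (Y.nb e i) ≤ P.Q.thr (Y.c e) ∨
    (nnl Y e = 1 ∧
      ∑ i ∈ range (Y.W e).length, P.G2 (Y.c (Y.nx^[i] e)) (Y.nb e i) ≤ P.Q.thr (Y.c e) + P.dl)

/-- from the sums of the gains to the charge -/
theorem chc_le (hS : Y.Ok cmp sol) (hb : Bmp P.Q.bm f Y) (hy : Hpr sol lng Y P.Q) {e : D}
    (he : Y.W e ≠ []) (h1 : Sok P Y e) :
    chv2 sol lng P.Q.den P.Q.nl P.Q.nu P.dl P.hl P.Q.fw Y e ≤ 0 := by
  have key : ∑ i ∈ range (Y.W e).length, gav2 P.Q.nu P.hl P.Q.fw (Y.W (Y.nx^[i] e))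
      (Y.W (Y.al (Y.nx^[i] e))) + (Y.W e).length * P.Q.sh ≤
      ((∑ i ∈ range (Y.W e).length, P.G2 (Y.c (Y.nx^[i] e)) (Y.nb e i) : Nat) : Int) := by
    rw [Nat.cast_sum]
    have h3 : ∑ i ∈ range (Y.W e).length, (gav2 P.Q.nu P.hl P.Q.fw (Y.W (Y.nx^[i] e))
        (Y.W (Y.al (Y.nx^[i] e))) + (P.Q.sh : Int)) ≤
      ∑ i ∈ range (Y.W e).length, ((P.G2 (Y.c (Y.nx^[i] e)) (Y.nb e i) : Nat) : Int) :=
      sum_le_sum fun i _ => gab2_le hS hb (Y.nx^[i] e) (hS.ne_iter he i)
    rw [sum_add_distrib, sum_const, card_range, nsmul_eq_mul] at h3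
    exact h3
  have ht := thrc_eq hS hy he
  have e3 : ((Y.W e).length : Int) * (P.Q.sh + 2 * P.Q.den) =
    (Y.W e).length * P.Q.sh + 2 * (Y.W e).length * P.Q.den := by ring
  rw [e3] at ht
  have e4 : chv2 sol lng P.Q.den P.Q.nl P.Q.nu P.dl P.hl P.Q.fw Y e = 12 * P.Q.den -
    2 * (Y.W e).length * P.Q.den - gsv sol lng P.Q.den P.Q.nl (Y.W e) +
    ∑ i ∈ range (Y.W e).length, gav2 P.Q.nu P.hl P.Q.fw (Y.W (Y.nx^[i] e))
      (Y.W (Y.al (Y.nx^[i] e))) - (if nnl Y e = 1 then (P.dl : Int) else 0) := rfl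
  rw [e4]
  rcases h1 with h1 | ⟨h0, h1⟩
  · have h3 : ((∑ i ∈ range (Y.W e).length, P.G2 (Y.c (Y.nx^[i] e)) (Y.nb e i) : Nat) : Int) ≤
        P.Q.thr (Y.c e) := by exact_mod_cast h1
    have h4 : (0 : Int) ≤ if nnl Y e = 1 then (P.dl : Int) else 0 := by
      split_ifs <;> omega
    rw [ht] at h3
    linarith
  · have h3 : ((∑ i ∈ range (Y.W e).length, P.G2 (Y.c (Y.nx^[i] e)) (Y.nb e i) : Nat) : Int) ≤
        P.Q.thr (Y.c e) + P.dl := by exact_mod_cast h1
    rw [ht] at h3
    rw [if_pos h0]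
    linarith

theorem chc_trv (hS : Y.Ok cmp sol) (hb : Bmp P.Q.bm f Y) (hy : Hpr sol lng Y P.Q)
    (hpos : ∀ e, Y.W e ≠ [] → P.PosOk2 (Y.c e) (Y.c (Y.al e))) {e : D} (he : Y.W e ≠ [])
    (h : P.Q.trv (Y.c e) = true) :
    chv2 sol lng P.Q.den P.Q.nl P.Q.nu P.dl P.hl P.Q.fw Y e ≤ 0 := by
  have h4 := hS.len e he
  have hd : dgn (Y.c e) = (Y.W e).length := dgn_enc (hS.sm e) h4.1 h4.2
  have hg : P.Q.gws (Y.c e) (Y.W e).length = gsv sol lng P.Q.den P.Q.nl (Y.W e) :=
    gwsv_eq (hS.sm e) (hy.sm e) (hy.lm e)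
  unfold Pm.trv at h
  rw [cond_true_iff, hd, hg] at h
  obtain ⟨h0, h1⟩ := h
  have h0 : 12 * P.Q.den ≤ 2 * (Y.W e).length * P.Q.den +
    gsv sol lng P.Q.den P.Q.nl (Y.W e) := Nat.le_of_ble_eq_true h0
  have hG : ∀ i < (Y.W e).length, P.G2 (Y.c (Y.nx^[i] e)) (Y.nb e i) ≤ P.Q.sh := by
    intro i hi
    have h2 := alln_iff.1 h1 i hi
    rw [cond_true_iff, rot_c hS he i] at h2
    have h3 := hpos _ (hS.ne_iter he i)
    have e1 : P.Q.SG.get (P.Q.ky (Y.c (Y.nx^[i] e))) = [] := List.isEmpty_iff.1 h2.2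
    have e2 : P.Q.T.get (P.Q.ky (Y.c (Y.nx^[i] e))) = [] := List.isEmpty_iff.1 h2.1
    unfold Pn.PosOk2 Pm.pos at h3
    rw [e1, e2] at h3
    rcases h3 with h3 | ⟨g, h3, _⟩
    · exact h3
    · simp at h3
  apply chc_le hS hb hy he
  left
  have hs : ∑ i ∈ range (Y.W e).length, P.G2 (Y.c (Y.nx^[i] e)) (Y.nb e i) ≤
      (Y.W e).length * P.Q.sh := by
    have := sum_le_sum (s := range (Y.W e).length) (fun i hi => hG i (mem_range.1 hi))
    rw [sum_const, card_range, smul_eq_mul] at this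
    exact this
  refine le_trans hs ?_
  have h5 := thrc_eq hS hy he
  zify
  rw [h5]
  have h6 : (12 * P.Q.den : Int) ≤ 2 * (Y.W e).length * P.Q.den +
    gsv sol lng P.Q.den P.Q.nl (Y.W e) := by exact_mod_cast h0
  nlinarith

variable {e : D} {R : List (List (List Nat))}

/-- the positions of the true bits -/
theorem tau_pos {k : Nat} (hc : P.ckR k (Y.c e) (Y.W e).length R = true) {t i : Nat}
    (ht : P.tau Y e t) (h1 : P.w * i ≤ t) (h2 : t < P.w * i + P.w) :
    i < (Y.W e).length ∧ t = P.w * i + P.kp Y e i := by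
  have h3 := tau_div hc ht
  have h4 : t / P.w = i := by
    obtain ⟨s, rfl⟩ := Nat.exists_eq_add_of_le h1
    have h5 : s < P.w := by omega
    rw [Nat.mul_add_div (by omega), Nat.div_eq_of_lt h5, Nat.add_zero]
  rw [h4] at h3
  refine ⟨h3.1, ?_⟩
  have h5 := Nat.div_add_mod t P.w
  rw [h4, h3.2] at h5
  exact h5.symm

theorem nlx_aux : ∀ l : List (Nat × Nat), List.rec (motive := fun _ => Nat → Nat) (fun _ => 0)
    (fun (q : Nat × Nat) _ ih k => Bool.rec (motive := fun _ => Nat) (ih (Nat.sub k 1)) k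
      (Nat.beq q.2 1)) l l.length = ix 1 l
  | [] => rfl
  | q :: l => by
    have h := nlx_aux l
    show Bool.rec (motive := fun _ => Nat) (List.rec (motive := fun _ => Nat → Nat) (fun _ => 0)
      (fun (q : Nat × Nat) _ ih k => Bool.rec (motive := fun _ => Nat) (ih (Nat.sub k 1)) k
      (Nat.beq q.2 1)) l l.length) (l.length + 1) (Nat.beq q.2 1) = ix 1 (q :: l)
    have e1 : ix 1 (q :: l) = if q.2 = 1 then l.length + 1 else ix 1 l := rfl
    rw [h, e1]
    cases hq : Nat.beq q.2 1 with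
    | true => rw [if_pos (Nat.eq_of_beq_eq_true hq)]
    | false => rw [if_neg (Nat.ne_of_beq_eq_false hq)]

theorem nlx_eq (c i : Nat) : P.nlx c i = ix 1 (P.ps c i).cl := by
  unfold Pn.nlx
  rw [len_eq]
  exact nlx_aux _

/-- a null neighbour has no other bit -/
theorem nlo_ok {k : Nat} (hc : P.ckR k (Y.c e) (Y.W e).length R = true) {i : Nat}
    (hi : i < (Y.W e).length) (hn : P.nfy Y e i = 1) : ¬ Sat (P.tau Y e) (P.nlo (Y.c e) i) := by
  rintro ⟨t, t1, t2⟩
  have hx : P.nlx (Y.c e) i = P.kp Y e i := by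
    rw [nlx_eq]
    unfold Pn.kp
    rw [hn]
  have hk := (kp_lt hc hi).2
  unfold Pn.nlo at t2
  have e1 : Nat.shiftLeft 1 (Nat.add (Nat.mul P.w i) (P.nlx (Y.c e) i)) =
      2 ^ (P.w * i + P.nlx (Y.c e) i) := shl_one _
  have e2 : Nat.shiftLeft (Nat.sub (Nat.pow 2 P.w) 1) (Nat.mul P.w i) =
      (2 ^ P.w - 1) <<< (P.w * i) := rfl
  rw [e1, e2, xor_eq, Nat.testBit_xor, Nat.testBit_shiftLeft, Nat.testBit_two_pow_sub_one,
    Nat.testBit_two_pow, hx] at t2
  by_cases h1 : P.w * i ≤ t ∧ t < P.w * i + P.w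
  · have h2 := (tau_pos hc t1 h1.1 h1.2).2
    have h3 : decide (P.w * i ≤ t) = true := decide_eq_true h1.1
    have h4 : decide (t - P.w * i < P.w) = true := decide_eq_true (by omega)
    have h5 : decide (P.w * i + P.kp Y e i = t) = true := decide_eq_true h2.symm
    rw [h3, h4, h5] at t2
    exact Bool.noConfusion t2
  · have h5 : decide (P.w * i + P.kp Y e i = t) = false := decide_eq_false (by omega)
    rw [h5] at t2
    have h6 : (decide (P.w * i ≤ t) && decide (t - P.w * i < P.w)) = true := by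
      simpa using t2
    rw [Bool.and_eq_true, decide_eq_true_eq, decide_eq_true_eq] at h6
    omega

/-- a neighbour which is not null has another bit -/
theorem nlm_ok {k : Nat} (hc : P.ckR k (Y.c e) (Y.W e).length R = true) {i : Nat}
    (hi : i < (Y.W e).length) (hn : P.nfy Y e i ≠ 1) : ¬ Sat (P.tau Y e) (P.nlm (Y.c e) i) := by
  intro hs
  unfold Pn.nlm at hs
  cases h0 : Nat.beq (P.nlx (Y.c e) i) 0 with
  | true => rw [h0] at hs; exact not_sat_zero hs
  | false =>
    rw [h0] at hs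
    obtain ⟨t, t1, t2⟩ := hs
    have hz := Nat.ne_of_beq_eq_false h0
    have e1 : Nat.shiftLeft 1 (Nat.add (Nat.mul P.w i) (P.nlx (Y.c e) i)) =
        2 ^ (P.w * i + P.nlx (Y.c e) i) := shl_one _
    have t2' : Nat.testBit (Nat.shiftLeft 1 (Nat.add (Nat.mul P.w i) (P.nlx (Y.c e) i))) t =
      true := t2
    rw [e1, Nat.testBit_two_pow, decide_eq_true_eq] at t2'
    have hw := (kp_lt hc hi).1
    have hl := ix_le 1 (P.ps (Y.c e) i).cl
    have hx := nlx_eq (P := P) (Y.c e) i
    have h1 := (tau_pos hc t1 (i := i) (by omega) (by omega)).2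
    have h2 : P.kp Y e i = ix 1 (P.ps (Y.c e) i).cl := by omega
    have h3 : P.kp Y e i ≠ 0 := by omega
    have h4 : cda (P.ps (Y.c e) i).cl (P.kp Y e i) = P.nfy Y e i := cda_ix h3
    rw [h2, cda_ix (by omega)] at h4
    exact hn h4.symm

/-- a null neighbour -/
theorem nfy_one (hb : Bmp P.Q.bm f Y) (hY : Y.Ok cmp sol) {i : Nat} :
    P.nfy Y e i = 1 ↔ Y.W (Y.al (Y.nx^[i] e)) = [] := by
  refine ⟨fun h => ?_, fun h => nf_nil h⟩
  by_contra h1
  have h2 : P.nfy Y e i = nfc P.Q.bm P.Q.wm P.Q.sm (Y.c (Y.al (Y.nx^[i] e))) := nf_ne h1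
  have h3 := hb.nge (wm := P.Q.wm) (sm := P.Q.sm) hY h1
  omega

theorem x1_ok {k : Nat} (hc : P.ckR k (Y.c e) (Y.W e).length R = true) {i : Nat}
    (hn : ∀ j < (Y.W e).length, j ≠ i → P.nfy Y e j ≠ 1) : ∀ d ≤ (Y.W e).length,
    ¬ Sat (P.tau Y e) (P.x1 (Y.c e) i d)
  | 0, _ => not_sat_zero
  | d + 1, hd => by
    have e1 : P.x1 (Y.c e) i (d + 1) = Nat.lor (Bool.rec (motive := fun _ => Nat)
      (P.nlm (Y.c e) d) 0 (Nat.beq d i)) (P.x1 (Y.c e) i d) := rfl
    rw [e1]
    intro hs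
    rcases sat_lor hs with hs | hs
    · cases h0 : Nat.beq d i with
      | true => rw [h0] at hs; exact not_sat_zero hs
      | false =>
        rw [h0] at hs
        exact nlm_ok hc (by omega) (hn d (by omega) (Nat.ne_of_beq_eq_false h0)) hs
    · exact x1_ok hc hn d (by omega) hs

theorem x0_ok {k : Nat} (hc : P.ckR k (Y.c e) (Y.W e).length R = true) : ∀ {ns : List Nat},
    (∀ i ∈ ns, i < (Y.W e).length) → (∀ i ∈ ns, P.nfy Y e i ≠ 1) →
    ¬ Sat (P.tau Y e) (P.x0 (Y.c e) ns)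
  | [], _, _ => not_sat_zero
  | i :: ns, h1, h2 => by
    have e1 : P.x0 (Y.c e) (i :: ns) = Nat.lor (P.nlm (Y.c e) i) (P.x0 (Y.c e) ns) := rfl
    rw [e1]
    intro hs
    rcases sat_lor hs with hs | hs
    · exact nlm_ok hc (h1 i (List.mem_cons_self ..)) (h2 i (List.mem_cons_self ..)) hs
    · exact x0_ok hc (fun j hj => h1 j (List.mem_cons_of_mem _ hj))
        (fun j hj => h2 j (List.mem_cons_of_mem _ hj)) hs

/-- the sum of the gains is bounded by the search -/
theorem gsum_ok (hy : Hc2 cmp cmp' sol sol' Y f P) (he : Y.W e ≠ []) (hN : Nr sol Y e)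
    (hpos : ∀ e, Y.W e ≠ [] → P.PosOk2 (Y.c e) (Y.c (Y.al e)))
    (hc : P.ckR (wsl P.Q.wm (Y.c e)) (Y.c e) (Y.W e).length R = true)
    {PL : List (List Nat)} (hPL : ∀ T ∈ PL, PatOk (P.tau Y e) T) {ord : List Nat}
    (ho : okOrd (Y.W e).length ord = true) {M th : Nat}
    (hM : ∀ i < (Y.W e).length, Nat.testBit M (P.w * i + P.kp Y e i) = true)
    (h : gom th (P.pms (Y.c e) R PL ord) M 0 0 = true) :
    ∑ i ∈ range (Y.W e).length, P.G2 (Y.c (Y.nx^[i] e)) (Y.nb e i) ≤ th := by
  have h4 := (hy.ok.len e he).1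
  have hperm := okOrd_perm ho
  -- `w` is positive
  have hw : 0 < P.w := by
    have := (kp_lt hc (i := 0) (by omega)).1
    omega
  set κ : Nat → Nat := fun a => P.kp Y e (a / P.w) with hκ
  set G : Nat → Nat := fun a => P.G2 (Y.c (Y.nx^[a / P.w] e)) (Y.nb e (a / P.w)) with hG
  have hdiv : ∀ i, P.w * i / P.w = i := fun i => Nat.mul_div_cancel_left i hw
  have hord : ∀ i ∈ ord, i < (Y.W e).length := fun i hi =>
    List.mem_range.1 (hperm.mem_iff.1 hi)
  have hgo := gom_sound (τ := P.tau Y e) (κ := κ) (G := G) th (P.pms (Y.c e) R PL ord) (by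
      intro p hp
      obtain ⟨i, i1, rfl⟩ := pms_mem hp
      have e1 : (P.pm (Y.c e) R PL i).a / P.w = i := hdiv i
      simp only [hκ, hG]
      rw [e1]
      exact pm_ok hy he hN hpos hc hPL (hord i i1)) (by
      intro p hp
      obtain ⟨i, i1, rfl⟩ := pms_mem hp
      have e1 : (P.pm (Y.c e) R PL i).a / P.w = i := hdiv i
      simp only [hκ]
      rw [e1]
      exact ⟨i, hord i i1, rfl⟩) M 0 0 (by
      intro p hp
      obtain ⟨i, i1, rfl⟩ := pms_mem hp
      have e1 : (P.pm (Y.c e) R PL i).a / P.w = i := hdiv i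
      simp only [hκ]
      rw [e1]
      exact hM i (hord i i1)) (fun t ht => by
        rw [Nat.zero_testBit] at ht; exact Bool.noConfusion ht) h
  rw [Nat.zero_add, pms_sum PL G] at hgo
  have e5 : (ord.map fun i => G (P.w * i)).sum = (ord.map fun i =>
      P.G2 (Y.c (Y.nx^[i] e)) (Y.nb e i)).sum := by
    congr 1
    refine List.map_congr_left fun i _ => ?_
    simp only [hG]
    rw [hdiv]
  rw [e5, (hperm.map _).sum_eq, sum_range_list] at hgo
  exact hgo

/-- The cases of a leaf. -/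
theorem lfn_sound (hy : Hc2 cmp cmp' sol sol' Y f P) (he : Y.W e ≠ []) (hN : Nr sol Y e)
    (hpos : ∀ e, Y.W e ≠ [] → P.PosOk2 (Y.c e) (Y.c (Y.al e)))
    (hc : P.ckR (wsl P.Q.wm (Y.c e)) (Y.c e) (Y.W e).length R = true)
    {PL : List (List Nat)} (hPL : ∀ T ∈ PL, PatOk (P.tau Y e) T) {ord ns : List Nat}
    (ho : okOrd (Y.W e).length ord = true) {M : Nat}
    (hM : ∀ i < (Y.W e).length, Nat.testBit M (P.w * i + P.kp Y e i) = true)
    (h : P.lfn (Y.c e) (Y.W e).length ns (P.pms (Y.c e) R PL ord) M = true) : Sok P Y e := by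
  have hY := hy.ok
  have hnf : ∀ i, P.nfy Y e i = 1 ↔ Y.W (Y.al (Y.nx^[i] e)) = [] := fun i => nfy_one hy.hb hY
  unfold Pn.lfn at h
  rw [cond_true_iff, cond_true_iff] at h
  obtain ⟨h1, h2, h3⟩ := h
  have hns : ∀ i ∈ ns, i < (Y.W e).length ∧ gom (P.Q.thr (Y.c e) + P.dl)
      (P.pms (Y.c e) R PL ord) (rmv M (Nat.lor (P.nlo (Y.c e) i)
        (P.x1 (Y.c e) i (Y.W e).length))) 0 0 = true := by
    intro i hi
    have h4 := allb_sound h2 i hi
    rw [cond_true_iff] at h4
    exact ⟨Nat.le_of_ble_eq_true h4.1, h4.2⟩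
  -- removing bits
  have hrm : ∀ X, ¬ Sat (P.tau Y e) X → ∀ i < (Y.W e).length,
      Nat.testBit (rmv M X) (P.w * i + P.kp Y e i) = true := fun X hX i hi =>
    clear_ok (τ := P.tau Y e) ⟨i, hi, rfl⟩ (hM i hi) hX
  by_cases hz : ∀ i ∈ ns, P.nfy Y e i ≠ 1
  · left
    exact gsum_ok hy he hN hpos hc hPL ho
      (hrm _ (x0_ok hc (fun i hi => (hns i hi).1) hz)) h1
  · push Not at hz
    obtain ⟨i, hi, hi1⟩ := hz
    have hid := (hns i hi).1
    by_cases h4 : ∀ j < (Y.W e).length, j ≠ i → P.nfy Y e j ≠ 1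
    · right
      refine ⟨?_, gsum_ok hy he hN hpos hc hPL ho (hrm _ ?_) (hns i hi).2⟩
      · unfold nnl
        rw [card_eq_one]
        refine ⟨i, ?_⟩
        ext j
        rw [mem_filter, mem_range, mem_singleton]
        constructor
        · rintro ⟨j1, j2⟩
          by_contra hj
          exact h4 j j1 hj ((hnf j).2 j2)
        · rintro rfl
          exact ⟨hid, (hnf j).1 hi1⟩
      · intro hs
        rcases sat_lor hs with hs | hs
        · exact nlo_ok hc hid hi1 hs
        · exact x1_ok hc h4 _ le_rfl hs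
    · left
      push Not at h4
      obtain ⟨j, hj, hji, hj1⟩ := h4
      have hnb : ∀ i, P.nfy Y e i = 1 → Y.nb e i = 0 := by
        intro i h
        have h5 := (hnf i).1 h
        show Y.c (Y.al (Y.nx^[i] e)) = 0
        unfold Sys.c
        rw [h5]; rfl
      -- the two null neighbours are consecutive
      have key : ∀ a b, a < (Y.W e).length → b < (Y.W e).length →
          b = nxt (Y.W e).length a → sol ((Y.W e).getD a 0) = true → P.nfy Y e a = 1 →
          P.nfy Y e b = 1 → (a ∈ ns ∨ b ∈ ns) →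
          ∑ i ∈ range (Y.W e).length, P.G2 (Y.c (Y.nx^[i] e)) (Y.nb e i) ≤
            P.Q.thr (Y.c e) := by
        intro a b ha hb hab hsl ha1 hb1 hor
        have h5 := alln_iff.1 h3 a ha
        have h6 : tb P.Q.sm (dg (Nat.pow 32 a) (Y.c e)) = true := by
          have h7 : dg (Nat.pow 32 a) (Y.c e) = (Y.W e).getD a 0 + 1 := by
            have h8 : dg (32 ^ a) (enc (Y.W e)) = _ := dg_enc (hY.sm e) ha
            exact h8
          have h9 : (Y.W e).getD a 0 ∈ Y.W e := by
            rw [List.getD_eq_getElem _ _ ha]; exact List.getElem_mem _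
          rw [h7, hy.hsm e _ h9]
          exact hsl
        rw [h6] at h5
        have h7 : (bif mem a ns then true else mem (nxt (Y.W e).length a) ns) = true := by
          cases hm : mem a ns with
          | true => rfl
          | false =>
            dsimp only [cond_false]
            rcases hor with hor | hor
            · rw [mem_iff.2 hor] at hm; exact Bool.noConfusion hm
            · rw [← hab]; exact mem_iff.2 hor
        dsimp only [cond_true] at h5
        rw [h7] at h5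
        dsimp only [cond_true] at h5
        refine gsum_ok hy he hN hpos hc hPL ho (hrm _ ?_) h5
        rw [sl6_eq, ← hab]
        intro hs
        rcases sat_lor hs with hs | hs
        · exact nlo_ok hc ha ha1 hs
        · exact nlo_ok hc hb hb1 hs
      rcases hN i hid j hj (fun h => hji h.symm) (hnb i hi1) (hnb j hj1) with ⟨h5, h6⟩ | ⟨h5, h6⟩
      · exact key i j hid hj h5 h6 hi1 hj1 (Or.inl hi)
      · exact key j i hj hid h5 h6 hj1 hi1 (Or.inr hi)

/-- The check of a leaf. -/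
theorem lfc_sound (hv : Hv cmpS cmp cmp' sol sol' S cc f P le) (he : S.W e ≠ [])
    (hN : Nr sol (S.mp cc) e) (hpr : Hpr sol lng (S.mp cc) P.Q)
    (hpos : ∀ e, (S.mp cc).W e ≠ [] → P.PosOk2 ((S.mp cc).c e) ((S.mp cc).c ((S.mp cc).al e)))
    (hc : P.ckR (wsl P.Q.wm ((S.mp cc).c e)) ((S.mp cc).c e) (S.W e).length R = true)
    {V : List Nat} (hV : Cov P V (S.W e)) {PL : List (List Nat)}
    (hPL : ∀ T ∈ PL, PatOk (P.tau (S.mp cc) e) T) {ord xs ns : List Nat}
    (h : P.lfc ((S.mp cc).c e) (S.W e).length (wsl P.Q.wm ((S.mp cc).c e)) R ord xs ns V PL =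
      true) :
    chv2 sol lng P.Q.den P.Q.nl P.Q.nu P.dl P.hl P.Q.fw (S.mp cc) e ≤ 0 := by
  have he' : (S.mp cc).W e ≠ [] := mp_ne.2 he
  have hY := hv.h2.ok
  have hlen : ((S.mp cc).W e).length = (S.W e).length := by
    show ((S.W e).map cc).length = _
    rw [List.length_map]
  have hc' := hc
  rw [← hlen] at hc'
  unfold Pn.lfc at h
  rw [cond_true_iff, cond_true_iff] at h
  obtain ⟨h1, h2, h3⟩ := h
  have hux := allb_sound h2
  have hτ : ∀ i < (S.W e).length, P.tau (S.mp cc) e (P.w * i + P.kp (S.mp cc) e i) :=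
    fun i hi => ⟨i, by rw [hlen]; exact hi, rfl⟩
  have hm0 : ∀ i < (S.W e).length,
      Nat.testBit (P.m0 (S.W e).length xs PL) (P.w * i + P.kp (S.mp cc) e i) = true := by
    intro i hi
    apply clear_ok (hτ i hi)
    · have e1 : Nat.sub (Nat.pow 2 (Nat.mul P.w (S.W e).length)) 1 =
        2 ^ (P.w * (S.W e).length) - 1 := rfl
      rw [e1, Nat.testBit_two_pow_sub_one, decide_eq_true_eq]
      have h5 := (kp_lt hc' (i := i) (by rw [hlen]; exact hi)).2
      calc P.w * i + P.kp (S.mp cc) e i < P.w * i + P.w := by omega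
        _ = P.w * (i + 1) := by ring
        _ ≤ P.w * (S.W e).length := Nat.mul_le_mul_left _ hi
    · intro hs
      rcases sat_lor hs with ⟨t, t1, t2⟩ | hs
      · rw [msk_bit] at t2
        exact ux_tau hv he hV hc' (hux t t2) t1
      · exact cls_sound (τ := P.tau (S.mp cc) e) (fun t ht => by
          rw [Nat.zero_testBit] at ht; exact Bool.noConfusion ht) PL hPL hs
  rw [← hlen] at h1 h3 hm0
  apply chc_le hY hv.h2.hb hpr he'
  cases ns with
  | nil => exact Or.inl (gsum_ok hv.h2 he' hN hpos hc' hPL h1 hm0 h3)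
  | cons a ns => exact lfn_sound (ns := a :: ns) hv.h2 he' hN hpos hc' hPL h1 hm0 h3

theorem pdv_sound (hv : Hv cmpS cmp cmp' sol sol' S cc f P le) (he : S.W e ≠ [])
    (hF : ∀ p ∈ FB.toList, ∀ X ∈ p.2, NoX le ml sol S X)
    (hc : P.ckR (wsl P.Q.wm ((S.mp cc).c e)) ((S.mp cc).c e) (S.W e).length R = true)
    {V : List Nat} (hV : Cov P V (S.W e)) {PL : List (List Nat)}
    (hPL : ∀ T ∈ PL, PatOk (P.tau (S.mp cc) e) T) : ∀ {ts : List (List Nat)} {ds : List Nat},
    P.pdv ml FB ((S.mp cc).c e) (S.W e).length V ts ds = true →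
      ∀ T ∈ P.apl ((S.mp cc).c e) PL ts, PatOk (P.tau (S.mp cc) e) T
  | [], _, _, T, hT => hPL T hT
  | U :: ts, [], h, _, _ => absurd (show false = true from h) (by simp)
  | U :: ts, n :: ds, h, T, hT => by
    have hlen : ((S.mp cc).W e).length = (S.W e).length := by
      show ((S.W e).map cc).length = _
      rw [List.length_map]
    have hc' := hc
    rw [← hlen] at hc'
    have h' : (bif P.nzp ((S.mp cc).c e) U then
        bif P.ptv (S.W e).length V (fct ml FB (Nat.div n 8)) (Nat.mod n 8)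
          (P.trl ((S.mp cc).c e) U) then P.pdv ml FB ((S.mp cc).c e) (S.W e).length V ts ds
        else false
      else false) = true := h
    rw [cond_true_iff, cond_true_iff] at h'
    obtain ⟨h1, h2, h3⟩ := h'
    have e1 : P.apl ((S.mp cc).c e) PL (U :: ts) =
      P.mml ((S.mp cc).c e) U :: P.apl ((S.mp cc).c e) PL ts := rfl
    rw [e1] at hT
    rcases List.mem_cons.1 hT with rfl | hT
    · refine mml_ok hv.h2 hv.h2.hb hv.h2.ok hc' h1 fun hall => ?_
      obtain ⟨g1, g2⟩ := ptv_sound hv he hV h2 hall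
      exact fct_no hF g1 _ g2
    · exact pdv_sound hv he hF hc hV hPL h3 T hT

/-- The check of a tree. -/
theorem ckt_sound (hv : Hv cmpS cmp cmp' sol sol' S cc f P le) (he : S.W e ≠ [])
    (hF : ∀ p ∈ FB.toList, ∀ X ∈ p.2, NoX le ml sol S X)
    (hN : Nr sol (S.mp cc) e) (hpr : Hpr sol lng (S.mp cc) P.Q)
    (hpos : ∀ e, (S.mp cc).W e ≠ [] → P.PosOk2 ((S.mp cc).c e) ((S.mp cc).c ((S.mp cc).al e)))
    (hc : P.ckR (wsl P.Q.wm ((S.mp cc).c e)) ((S.mp cc).c e) (S.W e).length R = true) :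
    ∀ (t : Tr) (V : List Nat) (PL : List (List Nat)) (i : Nat) (L : List Nat),
      Cov P V (S.W e) → (∀ T ∈ PL, PatOk (P.tau (S.mp cc) e) T) → i < (S.W e).length →
      (S.W e).getD i 0 ∈ L →
      P.ckt ml FB ((S.mp cc).c e) (S.W e).length (wsl P.Q.wm ((S.mp cc).c e)) R t V PL i L =
        true →
      chv2 sol lng P.Q.den P.Q.nl P.Q.nu P.dl P.hl P.Q.fw (S.mp cc) e ≤ 0 ∧ ded t = false := by
  intro t
  induction t with
  | lf ord xs ns =>
    intro V PL i L hV hPL _ _ h
    exact ⟨lfc_sound hv he hN hpr hpos hc hV hPL h, rfl⟩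
  | dd n =>
    intro V PL i L hV hPL _ _ h
    exfalso
    have h' : P.ptv (S.W e).length V (fct ml FB (Nat.div n 8)) (Nat.mod n 8) [] = true := h
    obtain ⟨g1, g2⟩ := ptv_sound hv he hV h' (fun q hq => by simp at hq)
    exact fct_no hF g1 _ g2
  | pt ts ds t ih =>
    intro V PL i L hV hPL hi hL h
    have h' : (bif P.pdv ml FB ((S.mp cc).c e) (S.W e).length V ts ds then
      P.ckt ml FB ((S.mp cc).c e) (S.W e).length (wsl P.Q.wm ((S.mp cc).c e)) R t V
        (P.apl ((S.mp cc).c e) PL ts) i L else false) = true := h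
    rw [cond_true_iff] at h'
    exact ih V _ i L hV (pdv_sound hv he hF hc hV hPL h'.1) hi hL h'.2
  | pr ts t ih =>
    intro V PL i L hV hPL hi hL h
    have h' : (bif P.pvr ((S.mp cc).c e) (S.W e).length (wsl P.Q.wm ((S.mp cc).c e)) V ts then
      P.ckt ml FB ((S.mp cc).c e) (S.W e).length (wsl P.Q.wm ((S.mp cc).c e)) R t V
        (appr PL ts) i L else false) = true := h
    rw [cond_true_iff] at h'
    have hlen : ((S.mp cc).W e).length = (S.W e).length := by
      show ((S.W e).map cc).length = _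
      rw [List.length_map]
    exact ih V _ i L hV (prv_tau hv he hV (by rw [hlen]; exact hc) hPL h'.1) hi hL h'.2
  | sp j t ih =>
    intro V PL i L hV hPL hi hL h
    have h' : (bif Nat.ble (Nat.succ j) (S.W e).length then
      P.ckt ml FB ((S.mp cc).c e) (S.W e).length (wsl P.Q.wm ((S.mp cc).c e)) R t V
        PL j (P.lg (gtk V j)) else false) = true := h
    rw [cond_true_iff] at h'
    have hj : j < (S.W e).length := Nat.le_of_ble_eq_true h'.1
    refine ih V PL j _ hV hPL hj ?_ h'.2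
    rw [gtk_eq]
    exact hV.2 j hj
  | ch a t iha iht =>
    intro V PL i L hV hPL hi hL h
    cases L with
    | nil => simp at hL
    | cons x L =>
      have h' : (bif (bif P.imp (wsl P.Q.wm ((S.mp cc).c e)) x
          (gtk V (prv (S.W e).length i)) (gtk V (nxt (S.W e).length i)) then true else
          P.ckt ml FB ((S.mp cc).c e) (S.W e).length (wsl P.Q.wm ((S.mp cc).c e)) R a
            (stk x V i) PL i [x]) then
          P.ckt ml FB ((S.mp cc).c e) (S.W e).length (wsl P.Q.wm ((S.mp cc).c e)) R t V PL i L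
        else false) = true := h
      rw [cond_true_iff] at h'
      obtain ⟨h1, h2⟩ := h'
      have e1 : ded (.ch a t) = (bif ded a then ded t else false) := rfl
      rw [e1]
      rcases List.mem_cons.1 hL with hx | hx
      · have himp : P.imp (wsl P.Q.wm ((S.mp cc).c e)) x
            (gtk V (prv (S.W e).length i)) (gtk V (nxt (S.W e).length i)) = false := by
          rw [← hx, gtk_eq, gtk_eq]
          exact hv.imp e i hi _ _ (hV.2 _ (prv_lt hi)) (hV.2 _ (nxt_lt hi))
        rw [himp] at h1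
        have h3 := iha (stk x V i) PL i [x] (cov_set hv hV hi hx) hPL hi
          (by rw [hx]; exact List.mem_singleton.2 rfl) h1
        refine ⟨h3.1, ?_⟩
        rw [h3.2]; rfl
      · have h3 := iht V PL i L hV hPL hi hx h2
        refine ⟨h3.1, ?_⟩
        rw [h3.2]
        cases ded a <;> rfl
  | en =>
    intro V PL i L _ _ _ hL h
    cases L with
    | nil => simp at hL
    | cons x L => exact Bool.noConfusion h

/-- A tree with dead leaves only. -/
theorem ckt_dead (hv : Hv cmpS cmp cmp' sol sol' S cc f P le) (he : S.W e ≠ [])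
    (hF : ∀ p ∈ FB.toList, ∀ X ∈ p.2, NoX le ml sol S X) :
    ∀ (t : Tr) (V : List Nat) (PL : List (List Nat)) (i : Nat) (L : List Nat),
      Cov P V (S.W e) → i < (S.W e).length → (S.W e).getD i 0 ∈ L →
      P.ckt ml FB ((S.mp cc).c e) (S.W e).length (wsl P.Q.wm ((S.mp cc).c e)) R t V PL i L =
        true → ded t = false := by
  intro t
  induction t with
  | lf ord xs ns => intros; rfl
  | dd n =>
    intro V PL i L hV _ _ h
    exfalso
    have h' : P.ptv (S.W e).length V (fct ml FB (Nat.div n 8)) (Nat.mod n 8) [] = true := h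
    obtain ⟨g1, g2⟩ := ptv_sound hv he hV h' (fun q hq => by simp at hq)
    exact fct_no hF g1 _ g2
  | pt ts ds t ih =>
    intro V PL i L hV hi hL h
    have h' : (bif P.pdv ml FB ((S.mp cc).c e) (S.W e).length V ts ds then
      P.ckt ml FB ((S.mp cc).c e) (S.W e).length (wsl P.Q.wm ((S.mp cc).c e)) R t V
        (P.apl ((S.mp cc).c e) PL ts) i L else false) = true := h
    rw [cond_true_iff] at h'
    exact ih V _ i L hV hi hL h'.2
  | pr ts t ih =>
    intro V PL i L hV hi hL h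
    have h' : (bif P.pvr ((S.mp cc).c e) (S.W e).length (wsl P.Q.wm ((S.mp cc).c e)) V ts then
      P.ckt ml FB ((S.mp cc).c e) (S.W e).length (wsl P.Q.wm ((S.mp cc).c e)) R t V
        (appr PL ts) i L else false) = true := h
    rw [cond_true_iff] at h'
    exact ih V _ i L hV hi hL h'.2
  | sp j t ih =>
    intro V PL i L hV hi hL h
    have h' : (bif Nat.ble (Nat.succ j) (S.W e).length then
      P.ckt ml FB ((S.mp cc).c e) (S.W e).length (wsl P.Q.wm ((S.mp cc).c e)) R t V
        PL j (P.lg (gtk V j)) else false) = true := h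
    rw [cond_true_iff] at h'
    have hj : j < (S.W e).length := Nat.le_of_ble_eq_true h'.1
    refine ih V PL j _ hV hj ?_ h'.2
    rw [gtk_eq]
    exact hV.2 j hj
  | ch a t iha iht =>
    intro V PL i L hV hi hL h
    cases L with
    | nil => simp at hL
    | cons x L =>
      have h' : (bif (bif P.imp (wsl P.Q.wm ((S.mp cc).c e)) x
          (gtk V (prv (S.W e).length i)) (gtk V (nxt (S.W e).length i)) then true else
          P.ckt ml FB ((S.mp cc).c e) (S.W e).length (wsl P.Q.wm ((S.mp cc).c e)) R a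
            (stk x V i) PL i [x]) then
          P.ckt ml FB ((S.mp cc).c e) (S.W e).length (wsl P.Q.wm ((S.mp cc).c e)) R t V PL i L
        else false) = true := h
      rw [cond_true_iff] at h'
      obtain ⟨h1, h2⟩ := h'
      have e1 : ded (.ch a t) = (bif ded a then ded t else false) := rfl
      rw [e1]
      rcases List.mem_cons.1 hL with hx | hx
      · have himp : P.imp (wsl P.Q.wm ((S.mp cc).c e)) x
            (gtk V (prv (S.W e).length i)) (gtk V (nxt (S.W e).length i)) = false := by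
          rw [← hx, gtk_eq, gtk_eq]
          exact hv.imp e i hi _ _ (hV.2 _ (prv_lt hi)) (hV.2 _ (nxt_lt hi))
        rw [himp] at h1
        rw [iha (stk x V i) PL i [x] (cov_set hv hV hi hx) hi
          (by rw [hx]; exact List.mem_singleton.2 rfl) h1]
        rfl
      · rw [iht V PL i L hV hi hx h2]
        cases ded a <;> rfl
  | en =>
    intro V PL i L _ _ hL h
    cases L with
    | nil => simp at hL
    | cons x L => exact Bool.noConfusion h

/-- the first view -/
theorem v0_enc {w : List Nat} (hs : Sm w) (hl : w.length ≤ 6) :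
    P.v0 (enc w) = w.map fun x => P.vl (x + 1) := by
  have key : ∀ (n : Nat) (w : List Nat), Sm w → w.length ≤ n →
      Nat.rec (motive := fun _ => Nat → List Nat) (fun _ => [])
        (fun _ ih c => bif Nat.beq c 0 then [] else P.vl (Nat.mod c 32) :: ih (Nat.div c 32)) n
          (enc w) = w.map fun x => P.vl (x + 1) := by
    intro n
    induction n with
    | zero =>
      intro w _ hl
      have : w = [] := List.eq_nil_of_length_eq_zero (by omega)
      subst this; rfl
    | succ n ih =>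
      intro w hs hl
      cases w with
      | nil => rfl
      | cons x w =>
        have hx := hs x (List.mem_cons_self ..)
        have e1 : Nat.mod (enc (x :: w)) 32 = x + 1 := by
          show (x + 1 + 32 * enc w) % 32 = x + 1
          omega
        have e2 : Nat.div (enc (x :: w)) 32 = enc w := by
          show (x + 1 + 32 * enc w) / 32 = enc w
          omega
        have e3 : Nat.beq (enc (x :: w)) 0 = false := by
          rw [← Bool.not_eq_true]
          intro h
          have := Nat.eq_of_beq_eq_true h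
          rw [enc_cons] at this
          omega
        dsimp only
        rw [e3, e1, e2]
        dsimp only [cond_false]
        rw [ih w (fun y hy => hs y (List.mem_cons_of_mem _ hy)) (by simpa using hl),
          List.map_cons]
  exact key 6 w hs hl

theorem v0_cov (hv : Hv cmpS cmp cmp' sol sol' S cc f P le) (he : S.W e ≠ []) :
    Cov P (P.v0 ((S.mp cc).c e)) (S.W e) := by
  have hY := hv.h2.ok
  have he' : (S.mp cc).W e ≠ [] := mp_ne.2 he
  have h1 : P.v0 ((S.mp cc).c e) = ((S.W e).map cc).map fun x => P.vl (x + 1) :=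
    v0_enc (hY.sm e) (hY.len e he').2
  rw [h1]
  refine ⟨by rw [List.length_map, List.length_map], fun i hi => ?_⟩
  rw [List.getD_eq_getElem (((S.W e).map cc).map fun x => P.vl (x + 1)) _
    (by rw [List.length_map, List.length_map]; exact hi), List.getElem_map, List.getElem_map,
    List.getD_eq_getElem _ _ hi]
  exact hv.vl e _ (List.getElem_mem _)

end sound

end

end Pool.FCS
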