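import Pool.Agent.FCS.Mf

/-!
# Star check with masks: the tables and the final theorem
-/

namespace Pool.FCS

noncomputable section

/-- the neighbour with the key `b` is covered -/
def Pn.okc (P : Pn) (a df : Nat) (cl : List (Nat × Nat)) (b : Nat) : Bool :=
  bif P.pcs (slf a) (lo a) (slf b) (lo b) then true else
    (fun g : Nat => bif Nat.ble g df then true else lst g (mi b) cl) (P.Q.Gn a b)

/-- the list of the candidates of the sender `a` (key) is complete -/
def Pn.soc (P : Pn) (WL : BT (List Nat)) (a : Nat) (L : List (Nat × Nat)) : Bool :=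
  List.rec (motive := fun _ => Bool) true
    (fun q cl _ =>
      bif (bif Nat.ble (Nat.sub P.Q.sh (P.nk a)) q.1 then true else
        lst (Nat.sub P.Q.sh (P.nk a)) 1 cl) then
        (fun la fa : Nat =>
          alln 32 fun f => bif P.Q.cme f la then
            alln 32 fun l => bif P.Q.cme fa l then
              allb (P.okc a q.1 cl) (WL.get (Nat.add f (Nat.mul 32 l))) else true
          else true) (Nat.div (hi a) 32) (Nat.mod (hi a) 32)
      else false) L

/-- A centre: code, exclusions, tree. -/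
structure CE where
  c : Nat
  R : List (List (List Nat))
  t : Tr

/-- The check of an entry of the table of the centres. -/
def Pn.ckc (P : Pn) (ml : Nat → Nat) (FB : BT (List Fct)) (k : Nat) (l : List CE) : Bool :=
  List.rec (motive := fun _ => Bool) true
    (fun E _ ih => bif Nat.beq E.c k then
      bif P.ckR (wsl P.Q.wm k) k (dgn k) E.R then
        bif P.ckt ml FB k (dgn k) (wsl P.Q.wm k) E.R E.t (P.v0 k) [] 0 (P.lg (gtk (P.v0 k) 0))
          then ih else false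
      else false
    else false) l

/-- first rotation in the table of the centres: `0` none, `1` dead, `2` centre -/
def csu (CB : BT (List CE)) (c d : Nat) : Nat :=
  Nat.rec (motive := fun _ => Nat) 0
    (fun i ih => List.rec (motive := fun _ => Nat) ih
      (fun E _ _ => bif ded E.t then 1 else 2) (CB.get (rot c i))) d

/-- the check of a word -/
def Pn.cow (P : Pn) (CB : BT (List CE)) (WL : BT (List Nat)) (c : Nat) : Bool :=
  (fun t : Nat => bif Nat.beq t 1 then true else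
    bif (bif Nat.beq t 0 then P.Q.trv c else true) then
      mem (P.Q.ky c) (WL.get (hi (P.Q.ky c)))
    else false) (csu CB c (dgn c))

section sound

variable {D : Type*} {cmp cmp' cmpS : Nat → Nat → Bool} {sol sol' lng : Nat → Bool}
  {S Y : Sys D} {cc f : Nat → Nat} {P : Pn} {le : Nat → Nat → Bool} {ml : Nat → Nat}
  {FB : BT (List Fct)} {CB : BT (List CE)} {WL : BT (List Nat)} {PD : BT (List Nat)}

theorem posc_null {a : Nat} (hs : P.soc WL (P.Q.ky a) (P.Q.SG.get (P.Q.ky a)) = true) :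
    P.PosOk2 a 0 := by
  unfold Pn.PosOk2
  show P.Q.sh - P.nk (P.Q.ky a) ≤ _ ∨ ∃ g, (g, 1) ∈ _ ∧ P.Q.sh - P.nk (P.Q.ky a) ≤ g
  unfold Pm.pos
  revert hs
  cases hSG : P.Q.SG.get (P.Q.ky a) with
  | nil =>
    intro _
    left
    show P.Q.sh - P.nk (P.Q.ky a) ≤ P.Q.sh
    omega
  | cons q cl =>
    intro hs
    have e : P.soc WL (P.Q.ky a) (q :: cl) =
      (bif (bif Nat.ble (Nat.sub P.Q.sh (P.nk (P.Q.ky a))) q.1 then true else
        lst (Nat.sub P.Q.sh (P.nk (P.Q.ky a))) 1 cl) then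
        (alln 32 fun f => bif P.Q.cme f (Nat.div (hi (P.Q.ky a)) 32) then
            alln 32 fun l => bif P.Q.cme (Nat.mod (hi (P.Q.ky a)) 32) l then
              allb (P.okc (P.Q.ky a) q.1 cl) (WL.get (Nat.add f (Nat.mul 32 l))) else true
          else true)
      else false) := rfl
    rw [e, cond_true_iff] at hs
    obtain ⟨h1, -⟩ := hs
    cases h2 : Nat.ble (Nat.sub P.Q.sh (P.nk (P.Q.ky a))) q.1 with
    | true => left; exact Nat.le_of_ble_eq_true h2
    | false =>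
      rw [h2] at h1
      right
      exact lst_sound h1

theorem posc_typed {a b : Nat} (hb : b ≠ 0)
    (hs : P.soc WL (P.Q.ky a) (P.Q.SG.get (P.Q.ky a)) = true)
    (ha1 : blc P.Q.bm a < 1073741824) (hb1 : blc P.Q.bm b < 1073741824)
    (h1 : P.Q.cme (Nat.mod b 32) (Nat.div a (pw a)) = true)
    (h2 : P.Q.cme (Nat.mod a 32) (Nat.div b (pw b)) = true)
    (hb32 : Nat.div b (pw b) < 32)
    (hpc : P.pcs (wsl P.Q.wm a) (blc P.Q.bm a) (wsl P.Q.wm b) (blc P.Q.bm b) = false)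
    (hW : P.Q.ky b ∈ WL.get (hi (P.Q.ky b))) : P.PosOk2 a b := by
  have hb0 : Nat.beq b 0 = false := by
    rw [← Bool.not_eq_true]
    intro h
    exact hb (Nat.eq_of_beq_eq_true h)
  have hG : P.G2 a b = P.Q.Gn (P.Q.ky a) (P.Q.ky b) := by unfold Pn.G2; rw [hb0]; rfl
  have hnz : P.Q.nz b = mi (P.Q.ky b) := by
    unfold Pm.nz Pm.ky
    rw [hb0, mi_kfc hb1]; rfl
  have hib : hi (P.Q.ky b) = b % 32 + 32 * (b / pw b) := hi_kfc hb1
  have hia : hi (P.Q.ky a) = a % 32 + 32 * (a / pw a) := hi_kfc ha1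
  unfold Pn.PosOk2
  rw [hG, hnz]
  unfold Pm.pos
  revert hs
  cases hSG : P.Q.SG.get (P.Q.ky a) with
  | nil =>
    intro _
    show P.Q.Gn (P.Q.ky a) (P.Q.ky b) ≤ P.Q.sh ∨
      ∃ g, (g, mi (P.Q.ky b)) ∈ P.Q.T.get (P.Q.ky a) ∧ P.Q.Gn (P.Q.ky a) (P.Q.ky b) ≤ g
    have e : P.Q.Gn (P.Q.ky a) (P.Q.ky b) =
      2 * ((asc (P.Q.T.get (P.Q.ky a)) (mi (P.Q.ky b)) - P.Q.sh) / 2) +
      P.Q.sh - 2 * P.Q.fk (P.Q.ky a) (P.Q.ky b) := rfl
    by_cases hA : asc (P.Q.T.get (P.Q.ky a)) (mi (P.Q.ky b)) = 0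
    · left; rw [e, hA]; omega
    · by_cases hB : asc (P.Q.T.get (P.Q.ky a)) (mi (P.Q.ky b)) ≤ P.Q.sh
      · left; rw [e]; omega
      · right
        exact ⟨_, asc_mem hA, by rw [e]; omega⟩
  | cons q cl =>
    intro hs
    have e : P.soc WL (P.Q.ky a) (q :: cl) =
      (bif (bif Nat.ble (Nat.sub P.Q.sh (P.nk (P.Q.ky a))) q.1 then true else
        lst (Nat.sub P.Q.sh (P.nk (P.Q.ky a))) 1 cl) then
        (alln 32 fun f => bif P.Q.cme f (Nat.div (hi (P.Q.ky a)) 32) then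
            alln 32 fun l => bif P.Q.cme (Nat.mod (hi (P.Q.ky a)) 32) l then
              allb (P.okc (P.Q.ky a) q.1 cl) (WL.get (Nat.add f (Nat.mul 32 l))) else true
          else true)
      else false) := rfl
    rw [e, cond_true_iff] at hs
    obtain ⟨-, h3⟩ := hs
    have a32 : a % 32 < 32 := Nat.mod_lt _ (by norm_num)
    have b32 : b % 32 < 32 := Nat.mod_lt _ (by norm_num)
    have hb32' : b / pw b < 32 := hb32
    have e1 : Nat.div (hi (P.Q.ky a)) 32 = Nat.div a (pw a) := by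
      rw [hia]
      show (a % 32 + 32 * (a / pw a)) / 32 = a / pw a
      omega
    have e2 : Nat.mod (hi (P.Q.ky a)) 32 = Nat.mod a 32 := by
      rw [hia]
      show (a % 32 + 32 * (a / pw a)) % 32 = a % 32
      omega
    rw [e1, e2] at h3
    have h4 := alln_iff.1 h3 (Nat.mod b 32) b32
    rw [h1] at h4
    dsimp only [cond_true] at h4
    have h5 := alln_iff.1 h4 (Nat.div b (pw b)) hb32
    rw [h2] at h5
    dsimp only [cond_true] at h5
    have e3 : Nat.add (Nat.mod b 32) (Nat.mul 32 (Nat.div b (pw b))) = hi (P.Q.ky b) := hib.symm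
    rw [e3] at h5
    have h6 := allb_sound h5 _ hW
    unfold Pn.okc at h6
    have e4 : lo (P.Q.ky a) = blc P.Q.bm a := lo_kfc ha1
    have e5 : lo (P.Q.ky b) = blc P.Q.bm b := lo_kfc hb1
    rw [slf_ky ha1, slf_ky hb1, e4, e5, hpc] at h6
    dsimp only [cond_false] at h6
    show P.Q.Gn (P.Q.ky a) (P.Q.ky b) ≤ q.1 ∨
      ∃ g, (g, mi (P.Q.ky b)) ∈ cl ∧ P.Q.Gn (P.Q.ky a) (P.Q.ky b) ≤ g
    cases h7 : Nat.ble (P.Q.Gn (P.Q.ky a) (P.Q.ky b)) q.1 with
    | true => left; exact Nat.le_of_ble_eq_true h7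
    | false =>
      rw [h7] at h6
      right
      exact lst_sound h6

/-- the positions are correct -/
theorem posc_all (hy : Hc2 cmp cmp' sol sol' Y f P)
    (hcm : ∀ x y, cmp x y = true → P.Q.cme (x + 1) (y + 1) = true)
    (hWL : ∀ e, Y.W e ≠ [] → P.Q.ky (Y.c e) ∈ WL.get (hi (P.Q.ky (Y.c e))))
    (hs : ∀ a, P.soc WL a (P.Q.SG.get a) = true) (e : D) (he : Y.W e ≠ []) :
    P.PosOk2 (Y.c e) (Y.c (Y.al e)) := by
  have hS := hy.ok
  have hb := hy.hb
  by_cases ha : Y.W (Y.al e) = []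
  · have : Y.c (Y.al e) = 0 := by unfold Sys.c; rw [ha]; rfl
    rw [this]
    exact posc_null (hs _)
  · have h4 := hS.len _ ha
    refine posc_typed (Sys.enc_ne ha) (hs _) (hb.lt hS _) (hb.lt hS _) ?_ ?_ ?_
      (pcs_ok hy he ha) (hWL _ ha)
    · rw [hS.dg0 ha, hS.dgl he]
      apply hcm
      have := hS.cmp (Y.al e) ha (by rw [hS.alal]; exact he)
      rwa [hS.alal] at this
    · rw [hS.dg0 he, hS.dgl ha]
      exact hcm _ _ (hS.cmp e he ha)
    · rw [hS.dgl ha]
      have h5 : (Y.W (Y.al e)).length - 1 < (Y.W (Y.al e)).length := by omega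
      rw [List.getD_eq_getElem _ _ h5]
      have := hS.sm (Y.al e) _ (List.getElem_mem h5)
      omega

/-- from the entries of the table -/
theorem socb_all (h : ∀ p ∈ P.Q.SG.toList, P.soc WL p.1 p.2 = true) (a : Nat) :
    P.soc WL a (P.Q.SG.get a) = true := by
  by_cases h0 : P.Q.SG.get a = []
  · rw [h0]; rfl
  · exact h _ (BT.get_mem h0)

theorem ckc_sound {k : Nat} : ∀ {l : List CE}, P.ckc ml FB k l = true → ∀ E ∈ l,
    E.c = k ∧ P.ckR (wsl P.Q.wm k) k (dgn k) E.R = true ∧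
      P.ckt ml FB k (dgn k) (wsl P.Q.wm k) E.R E.t (P.v0 k) [] 0 (P.lg (gtk (P.v0 k) 0)) = true
  | [], _, E, hE => by simp at hE
  | F :: l, h, E, hE => by
    have h' : (bif Nat.beq F.c k then
      bif P.ckR (wsl P.Q.wm k) k (dgn k) F.R then
        bif P.ckt ml FB k (dgn k) (wsl P.Q.wm k) F.R F.t (P.v0 k) [] 0 (P.lg (gtk (P.v0 k) 0))
          then P.ckc ml FB k l else false
      else false
    else false) = true := h
    rw [cond_true_iff, cond_true_iff, cond_true_iff] at h'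
    obtain ⟨h1, h2, h3, h4⟩ := h'
    rcases List.mem_cons.1 hE with rfl | hE
    · exact ⟨Nat.eq_of_beq_eq_true h1, h2, h3⟩
    · exact ckc_sound h4 E hE

theorem csu_sound (CB : BT (List CE)) (c : Nat) : ∀ d, csu CB c d = 0 ∨
    ∃ i, i < d ∧ ∃ E ∈ CB.get (rot c i), (csu CB c d = 1 → ded E.t = true)
  | 0 => Or.inl rfl
  | d + 1 => by
    have e : csu CB c (d + 1) = List.rec (motive := fun _ => Nat) (csu CB c d)
      (fun E _ _ => bif ded E.t then 1 else 2) (CB.get (rot c d)) := rfl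
    rw [e]
    cases h : CB.get (rot c d) with
    | nil =>
      rcases csu_sound CB c d with h1 | ⟨i, h1, h2⟩
      · exact Or.inl h1
      · exact Or.inr ⟨i, by omega, h2⟩
    | cons E l =>
      right
      refine ⟨d, by omega, E, by rw [h]; exact List.mem_cons_self .., fun h1 => ?_⟩
      cases h2 : ded E.t with
      | true => rfl
      | false =>
        have h1' : (bif ded E.t then 1 else 2) = 1 := h1
        rw [h2] at h1'
        exact absurd h1' (by simp)

theorem chv_down {den nl nu dl : Nat} {h hY : Nat → Nat} {F : List Nat → List Nat → Nat}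
    {lngY : Nat → Bool} {cmp : Nat → Nat → Bool} (hS : S.Ok cmp sol)
    (hs : ∀ e, ∀ x ∈ S.W e, sol (cc x) = sol x) (hl : ∀ e, ∀ x ∈ S.W e, lngY (cc x) = lng x)
    (hh : ∀ e, ∀ x ∈ S.W e, hY (cc x) = h x) (e : D) (he : S.W e ≠ []) :
    chv2 sol lngY den nl nu dl hY F (S.mp cc) e =
      chv2 sol lng den nl nu dl h (fun a b => F (a.map cc) (b.map cc)) S e := by
  have e1 : ((S.mp cc).W e).length = (S.W e).length := by
    show ((S.W e).map cc).length = _
    rw [List.length_map]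
  have e2 : gsv sol lngY den nl ((S.mp cc).W e) = gsv sol lng den nl (S.W e) := by
    show gsv sol lngY den nl ((S.W e).map cc) = _
    unfold gsv
    rw [List.map_map]
    congr 1
    refine List.map_congr_left fun x hx => ?_
    show (bif sol (cc x) then 0 else bif lngY (cc x) then nl else den) = _
    rw [hs e x hx, hl e x hx]
  have e3 : ((Finset.range (S.W e).length).filter fun i =>
      (S.mp cc).W ((S.mp cc).al ((S.mp cc).nx^[i] e)) = []).card =
      ((Finset.range (S.W e).length).filter fun i => S.W (S.al (S.nx^[i] e)) = []).card := by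
    congr 1
    refine Finset.filter_congr fun i _ => ?_
    show (S.W (S.al (S.nx^[i] e))).map cc = [] ↔ _
    rw [List.map_eq_nil_iff]
  unfold chv2
  rw [e1, e2, e3]
  congr 2
  refine Finset.sum_congr rfl fun i _ => ?_
  show gav2 nu hY F ((S.W (S.nx^[i] e)).map cc) ((S.W (S.al (S.nx^[i] e))).map cc) = _
  unfold gav2
  by_cases h : S.W (S.al (S.nx^[i] e)) = []
  · have h0 := hS.ne_iter he i
    have h4 := (hS.len _ h0).1
    have m0 : (S.W (S.nx^[i] e)).getD 0 0 ∈ S.W (S.nx^[i] e) := by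
      rw [List.getD_eq_getElem _ _ (by omega)]; exact List.getElem_mem _
    have m1 : (S.W (S.nx^[i] e)).getD ((S.W (S.nx^[i] e)).length - 1) 0 ∈ S.W (S.nx^[i] e) := by
      rw [List.getD_eq_getElem _ _ (by omega)]; exact List.getElem_mem _
    rw [h, List.map_nil, if_pos rfl, if_pos rfl, List.length_map, getD_map0 (by omega),
      getD_map0 (by omega), hh _ _ m0, hh _ _ m1]
  · have h' : ¬ (S.W (S.al (S.nx^[i] e))).map cc = [] := by
      rw [List.map_eq_nil_iff]; exact h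
    rw [if_neg h, if_neg h']

theorem nr_up (hs : ∀ e, ∀ x ∈ S.W e, sol (cc x) = sol x) {e : D} (h : Nr sol S e) :
    Nr sol (S.mp cc) e := by
  have e1 : ((S.mp cc).W e).length = (S.W e).length := by
    show ((S.W e).map cc).length = _
    rw [List.length_map]
  have hz : ∀ i, (S.mp cc).nb e i = 0 → S.nb e i = 0 := by
    intro i hi
    by_contra h0
    have h1 : S.W (S.al (S.nx^[i] e)) ≠ [] := Sys.ne_of_c h0
    have h2 : (S.mp cc).W ((S.mp cc).al ((S.mp cc).nx^[i] e)) ≠ [] := mp_ne.2 h1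
    exact Sys.enc_ne h2 hi
  have hsol : ∀ i < (S.W e).length, sol (((S.mp cc).W e).getD i 0) = sol ((S.W e).getD i 0) := by
    intro i hi
    show sol (((S.W e).map cc).getD i 0) = _
    rw [getD_map0 hi]
    apply hs e
    rw [List.getD_eq_getElem _ _ hi]
    exact List.getElem_mem _
  intro i hi j hj hij h1 h2
  rw [e1] at hi hj ⊢
  rw [hsol i hi, hsol j hj]
  exact h i hi j hj hij (hz i h1) (hz j h2)

/-- The star inequality. -/
theorem star_allc (hS : S.Ok cmpS sol)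
    (hF : ∀ p ∈ FB.toList, ∀ X ∈ p.2, NoX le ml sol S X)
    (hN : ∀ e, S.W e ≠ [] → Nr sol S e)
    {glY : List Nat → Bool} (hg : ∀ e, S.W e ≠ [] → glY ((S.W e).map cc) = true)
    (hcc : ∀ x y, cmpS x y = true → P.Q.cme (cc x + 1) (cc y + 1) = true ∧
      P.Q.cmb (f (cc x) + 1) (f (cc y) + 1) = true)
    (hL : ∀ e, ∀ x ∈ S.W e, cc x < 31 ∧ f (cc x) < 31 ∧ sol (cc x) = sol x ∧
      tb P.Q.sm (cc x + 1) = sol x ∧ tb P.Q.lm (cc x + 1) = lng x ∧
      tdg P.Q.bm (cc x + 1) = f (cc x) + 1 ∧ tb P.Q.sm (f (cc x) + 1) = sol x ∧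
      x ∈ P.lg (P.vl (cc x + 1)) ∧ ∀ g, P.leb g (f (cc x)) = true → le g x = true)
    (himp : ∀ e, ∀ i < (S.W e).length, ∀ p n, (S.W e).getD (prv (S.W e).length i) 0 ∈ P.lg p →
      (S.W e).getD (nxt (S.W e).length i) 0 ∈ P.lg n →
      P.imp (wsl P.Q.wm ((S.mp cc).c e)) ((S.W e).getD i 0) p n = false)
    (hlev : ∀ g v, P.lev g v = true → ∀ x ∈ P.lg v, le g x = true)
    (hlg : ∀ v, ∀ x ∈ P.lg v, x ∈ P.lg x)
    (hr2 : ∀ r, S.W r ≠ [] → S.W (S.al r) ≠ [] →
      P.r2 (wsl P.Q.wm ((S.mp cc).c r)) (f (cc ((S.W r).getD 0 0)) + 1)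
        (wsl P.Q.wm ((S.mp cc).c (S.al r)))
        (f (cc ((S.W (S.al r)).getD ((S.W (S.al r)).length - 1) 0)) + 1) = true)
    (hua : ∀ e, S.W e ≠ [] → S.W (S.al e) ≠ [] → ∀ v, (S.W e).getD 0 0 ∈ P.lg v →
      P.ua (wsl P.Q.wm ((S.mp cc).c e)) v (wsl P.Q.wm ((S.mp cc).c (S.al e)))
        (f (cc ((S.W (S.al e)).getD ((S.W (S.al e)).length - 1) 0)) + 1) = true)
    (hub : ∀ e, S.W e ≠ [] → S.W (S.al e) ≠ [] → ∀ v,
      (S.W e).getD ((S.W e).length - 1) 0 ∈ P.lg v →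
      P.ub (wsl P.Q.wm ((S.mp cc).c e)) v (wsl P.Q.wm ((S.mp cc).c (S.al e)))
        (f (cc ((S.W (S.al e)).getD 0 0)) + 1) = true)
    (hgk : ∀ r, S.W r ≠ [] → S.W (S.al r) ≠ [] → S.W (S.al (S.nx r)) ≠ [] →
      P.Q.gk (wsl P.Q.wm ((S.mp cc).c r)) (cc ((S.W r).getD 0 0) + 1)
        (nfc P.Q.bm P.Q.wm P.Q.sm ((S.mp cc).c (S.al r)))
        (nfc P.Q.bm P.Q.wm P.Q.sm ((S.mp cc).c (S.al (S.nx r)))) = false)
    (hgv : ∀ r, S.W r ≠ [] → S.W (S.al r) ≠ [] → S.W (S.al (S.nx r)) ≠ [] →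
      ∀ v, (S.W r).getD 0 0 ∈ P.lg v →
      P.gv (wsl P.Q.wm ((S.mp cc).c r)) v
        (nfc P.Q.bm P.Q.wm P.Q.sm ((S.mp cc).c (S.al r)))
        (nfc P.Q.bm P.Q.wm P.Q.sm ((S.mp cc).c (S.al (S.nx r)))) = false)
    (hcd : ∀ a i, P.cd a i = cda (P.Q.pos a 0).cl i)
    (hsh : 12 * P.Q.den ≤ 4 * (P.Q.sh + 2 * P.Q.den))
    {h : Nat → Nat} (hh : ∀ e, ∀ x ∈ S.W e, P.hd (cc x + 1) = h x)
    (hPF : P.Q.PF.allB (fun x ys => pfdb P.leb ml FB x ys (PD.get x)) = true)
    (hCB : CB.allB (P.ckc ml FB) = true)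
    (hSG : P.Q.SG.allB (P.soc WL) = true)
    (hcov : ∀ w, glY w = true → P.cow CB WL (enc w) = true)
    (e : D) (he : S.W e ≠ []) :
    chv2 sol lng P.Q.den P.Q.nl P.Q.nu P.dl h (fun a b => P.Q.fw (a.map cc) (b.map cc)) S e ≤ 0 := by
  set Y := S.mp cc with hYd
  set lngY : Nat → Bool := fun y => tb P.Q.lm (y + 1) with hlY
  set cmpY : Nat → Nat → Bool := fun x y =>
    P.Q.cme (x + 1) (y + 1) && P.Q.cmb (f x + 1) (f y + 1) with hcY
  -- the coarse system
  have hY : Y.Ok cmpY sol := by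
    refine hS.mp (fun e x hx => (hL e x hx).1) (fun x y h => ?_) ?_
    · obtain ⟨h1, h2⟩ := hcc x y h
      simp only [hcY]
      rw [h1, h2]; rfl
    · intro e x hx h
      rw [← (hL e x hx).2.2.1]
      exact h
  have hYm : ∀ e, ∀ y ∈ Y.W e, ∃ x ∈ S.W e, y = cc x := by
    intro e y hy
    obtain ⟨x, hx, rfl⟩ := List.mem_map.1 hy
    exact ⟨x, hx, rfl⟩
  have hYsm : ∀ e, ∀ y ∈ Y.W e, tb P.Q.sm (y + 1) = sol y := by
    intro e y hy
    obtain ⟨x, hx, rfl⟩ := hYm e y hy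
    rw [(hL e x hx).2.2.2.1, (hL e x hx).2.2.1]
  have hb : Bmp P.Q.bm f Y := ⟨fun e y hy => by
      obtain ⟨x, hx, rfl⟩ := hYm e y hy
      exact (hL e x hx).2.2.2.2.2.1, fun e y hy => by
      obtain ⟨x, hx, rfl⟩ := hYm e y hy
      exact (hL e x hx).2.1⟩
  have hY' : (Y.mp f).Ok (fun x y => P.Q.cmb (x + 1) (y + 1)) (fun x => tb P.Q.sm (x + 1)) := by
    refine hY.mp (fun e y hy => hb.s e y hy) (fun x y h => ?_) ?_
    · simp only [hcY, Bool.and_eq_true] at h
      exact h.2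
    · intro e y hy h
      obtain ⟨x, hx, rfl⟩ := hYm e y hy
      rw [(hL e x hx).2.2.1, ← (hL e x hx).2.2.2.2.2.2.1]
      exact h
  -- the facts in the coarse system
  have hl : Leb (fun g y => P.leb g (f y)) P.leb f Y := fun _ _ _ _ h => h
  have hsl : ∀ e, ∀ x ∈ S.W e, sol (cc x) = sol x := fun e x hx => (hL e x hx).2.2.1
  have hlb : ∀ e, ∀ x ∈ S.W e, ∀ g, P.leb g (f (cc x)) = true → le g x = true :=
    fun e x hx => (hL e x hx).2.2.2.2.2.2.2.2
  have hmd : ∀ {X : Fct} {e : D}, Mtn (fun g y => P.leb g (f y)) sol Y X e →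
      Mtn le sol S X e := by
    intro X e hm
    exact ⟨lew_map (f := cc) (leb := fun g y => P.leb g (f y)) (hlb e) hm.1,
      fun p hp => ⟨fun h0 => pls_mp (hsl _) ((hm.2 p hp).1 h0), fun h0 =>
        lew_map (f := cc) (leb := fun g y => P.leb g (f y)) (hlb _) ((hm.2 p hp).2 h0)⟩⟩
  have hF' : ∀ p ∈ FB.toList, ∀ X ∈ p.2, NoX (fun g y => P.leb g (f y)) ml sol Y X :=
    fun p hp X hX => ⟨fun e hm => (hF p hp X hX).1 e (hmd hm),
      fun e hm => (hF p hp X hX).2 e (hmd hm)⟩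
  have hpf := pfb_all (Q := P.Q) hY hb hY' hl hF' hPF
  have first : ∀ r, S.W r ≠ [] → (Y.W r).getD 0 0 = cc ((S.W r).getD 0 0) := by
    intro r hr
    have := (hS.len r hr).1
    show ((S.W r).map cc).getD 0 0 = _
    rw [getD_map0 (by omega)]
  have last : ∀ r, S.W r ≠ [] → (Y.W r).getD ((Y.W r).length - 1) 0 =
      cc ((S.W r).getD ((S.W r).length - 1) 0) := by
    intro r hr
    have := (hS.len r hr).1
    show ((S.W r).map cc).getD (((S.W r).map cc).length - 1) 0 = _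
    rw [List.length_map, getD_map0 (by omega)]
  have h2 : Hc2 cmpY (fun x y => P.Q.cmb (x + 1) (y + 1)) sol (fun x => tb P.Q.sm (x + 1))
      Y f P := by
    refine ⟨hY, hb, hY', hYsm, fun r hr hr' => ?_, hpf, fun r hr hr' hr'' => ?_, hcd⟩
    · have hr1 := mp_ne.1 hr
      have hr2' := mp_ne.1 hr'
      rw [first r hr1]
      have e2 : (Y.W (Y.al r)).getD ((Y.W (Y.al r)).length - 1) 0 =
        cc ((S.W (S.al r)).getD ((S.W (S.al r)).length - 1) 0) := last _ hr2'
      rw [e2]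
      exact hr2 r hr1 hr2'
    · have hr1 := mp_ne.1 hr
      rw [first r hr1]
      exact hgk r hr1 (mp_ne.1 hr') (mp_ne.1 hr'')
  have hv : Hv cmpS cmpY (fun x y => P.Q.cmb (x + 1) (y + 1)) sol (fun x => tb P.Q.sm (x + 1))
      S cc f P le :=
    ⟨hS, h2, hsl, hlb, hlev, fun e x hx => (hL e x hx).2.2.2.2.2.2.2.1, hlg,
      himp, hgv, hua, hub⟩
  have hpr : Hpr sol lngY Y P.Q := by
    exact ⟨hYsm, fun e y hy => rfl, hsh⟩
  -- centres
  have ent : ∀ e, S.W e ≠ [] → ∀ E ∈ CB.get (Y.c e), ∃ j < (S.W e).length,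
      j = 0 ∧ dgn (Y.c e) = (S.W e).length ∧
      P.ckR (wsl P.Q.wm (Y.c e)) (Y.c e) (S.W e).length E.R = true ∧
      P.ckt ml FB (Y.c e) (S.W e).length (wsl P.Q.wm (Y.c e)) E.R E.t (P.v0 (Y.c e)) [] j
        (P.lg (gtk (P.v0 (Y.c e)) 0)) = true := by
    intro e he E hE
    have he' : Y.W e ≠ [] := mp_ne.2 he
    have h4 := hY.len e he'
    have hlen : (Y.W e).length = (S.W e).length := by
      show ((S.W e).map cc).length = _
      rw [List.length_map]
    have hd : dgn (Y.c e) = (S.W e).length := by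
      rw [← hlen]; exact dgn_enc (hY.sm e) h4.1 h4.2
    have h1 : CB.get (Y.c e) ≠ [] := by
      intro h0; rw [h0] at hE; simp at hE
    obtain ⟨-, h3, h5⟩ := ckc_sound (BT.allB_sound hCB _ (BT.get_mem h1)) E hE
    dsimp only at h3 h5
    rw [hd] at h3 h5
    exact ⟨0, by omega, rfl, hd, h3, h5⟩
  have v00 : ∀ e, S.W e ≠ [] → (S.W e).getD 0 0 ∈ P.lg (gtk (P.v0 (Y.c e)) 0) := by
    intro e he
    have h4 := (hS.len e he).1
    rw [gtk_eq]
    exact (v0_cov hv he).2 0 (by omega)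
  -- dead centres do not occur
  have hded : ∀ e, S.W e ≠ [] → ∀ E ∈ CB.get (Y.c e), ded E.t = false := by
    intro e he E hE
    obtain ⟨j, hj, rfl, hd, h3, h5⟩ := ent e he E hE
    exact ckt_dead hv he hF E.t _ [] 0 _ (v0_cov hv he) hj (v00 e he) h5
  have hst : ∀ e, S.W e ≠ [] → (csu CB (Y.c e) (dgn (Y.c e)) ≠ 1) := by
    intro e he h1
    rcases csu_sound CB (Y.c e) (dgn (Y.c e)) with h2 | ⟨i, -, E, hE, h2⟩
    · rw [h2] at h1; exact absurd h1 (by decide)
    · rw [rot_c hY (mp_ne.2 he) i] at hE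
      have h3 := hded (S.nx^[i] e) (hS.ne_iter he i) E hE
      rw [h2 h1] at h3
      exact Bool.noConfusion h3
  have hcv : ∀ e, S.W e ≠ [] →
      ((bif Nat.beq (csu CB (Y.c e) (dgn (Y.c e))) 0 then P.Q.trv (Y.c e) else true) = true) ∧
      P.Q.ky (Y.c e) ∈ WL.get (hi (P.Q.ky (Y.c e))) := by
    intro e he
    have h1 : P.cow CB WL (Y.c e) = true := hcov _ (hg e he)
    unfold Pn.cow at h1
    dsimp only at h1
    have h2 : Nat.beq (csu CB (Y.c e) (dgn (Y.c e))) 1 = false := by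
      rw [← Bool.not_eq_true]
      intro h3
      exact hst e he (Nat.eq_of_beq_eq_true h3)
    rw [h2] at h1
    dsimp only [cond_false] at h1
    rw [cond_true_iff] at h1
    exact ⟨h1.1, mem_iff.1 h1.2⟩
  have hpos := posc_all (WL := WL) h2 (fun x y h => by
    simp only [hcY, Bool.and_eq_true] at h
    exact h.1) (fun e he => (hcv e (mp_ne.1 he)).2) (socb_all (BT.allB_sound hSG))
  rw [← chv_down (lngY := lngY) (hY := P.hl) hS hsl (fun e x hx => (hL e x hx).2.2.2.2.1)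
    (fun e x hx => hh e x hx) e he]
  have he' : Y.W e ≠ [] := mp_ne.2 he
  have h1 := (hcv e he).1
  by_cases h3 : csu CB (Y.c e) (dgn (Y.c e)) = 0
  · rw [h3] at h1
    exact chc_trv hY hb hpr hpos he' h1
  · rcases csu_sound CB (Y.c e) (dgn (Y.c e)) with h4 | ⟨i, -, E, hE, -⟩
    · exact absurd h4 h3
    · rw [rot_c hY he' i] at hE
      have hei := hS.ne_iter he i
      obtain ⟨j, hj, rfl, hd, h5, h6⟩ := ent (S.nx^[i] e) hei E hE
      have h7 := (ckt_sound hv hei hF (nr_up hsl (hN _ hei)) hpr hpos h5 E.t _ [] 0 _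
        (v0_cov hv hei) (fun T hT => by simp at hT) hj (v00 _ hei) h6).1
      have h8 := chv2_iter (lng := lngY) (den := P.Q.den) (nl := P.Q.nl) (nu := P.Q.nu)
        (dl := P.dl) (h := P.hl) (F := P.Q.fw) hY he' i
      rw [← h8]
      exact h7

end sound

end

end Pool.FCS
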