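import Pool.Agent.FCS.Mg
import Pool.Agent.FCS.Dx

/-!
# Star check: packed data
-/

namespace Pool.FCS

noncomputable section

/-- list of numbers with `b` bits; the length in the lowest 12 bits -/
def dN (b n : Nat) : List Nat :=
  Nat.rec (motive := fun _ => Nat → List Nat) (fun _ => [])
    (fun _ ih m => Nat.mod m (Nat.pow 2 b) :: ih (Nat.shiftRight m b))
    (Nat.mod n 4096) (Nat.shiftRight n 12)

/-- list of pairs (gain, code), with a given length -/
def dPa (k : Nat) : Nat → List (Nat × Nat) :=
  Nat.rec (motive := fun _ => Nat → List (Nat × Nat)) (fun _ => [])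
    (fun _ ih m => (Nat.mod m 1048576, Nat.mod (Nat.shiftRight m 20) 8589934592) ::
      ih (Nat.shiftRight m 53)) k

/-- list of pairs (gain, code) -/
def dP (n : Nat) : List (Nat × Nat) := dPa (Nat.mod n 4096) (Nat.shiftRight n 12)

/-- list of pairs of bits -/
def dQ (n : Nat) : List (Nat × Nat) :=
  Nat.rec (motive := fun _ => Nat → List (Nat × Nat)) (fun _ => [])
    (fun _ ih m => (Nat.mod m 2048, Nat.mod (Nat.shiftRight m 11) 2048) ::
      ih (Nat.shiftRight m 22))
    (Nat.mod n 4096) (Nat.shiftRight n 12)

/-- list of lists: digits with `b` bits, `0` ends a list -/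
def dR (b n : Nat) : List (List Nat) :=
  Nat.rec (motive := fun _ => Nat → List Nat → List (List Nat)) (fun _ _ => [])
    (fun _ ih m cur => Bool.rec (motive := fun _ => List (List Nat))
      (Bool.rec (motive := fun _ => List (List Nat))
        (ih (Nat.shiftRight m b) (Nat.sub (Nat.mod m (Nat.pow 2 b)) 1 :: cur))
        (cur :: ih (Nat.shiftRight m b) [])
        (Nat.beq (Nat.mod m (Nat.pow 2 b)) 0))
      [cur] (Nat.beq m 0)) 1000000 n []

/-- value of a key -/
def BT.getN (t : BT Nat) (k : Nat) : Nat :=
  BT.rec (motive := fun _ => Nat) 0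
    (fun _ m v _ hl hr => bif Nat.beq k m then v else bif Nat.ble k m then hl else hr) t

/-- mapped values -/
def BT.mp {α : Type} (g : Nat → α) (t : BT Nat) : BT α :=
  BT.rec (motive := fun _ => BT α) BT.lf (fun _ m v _ hl hr => BT.nd hl m (g v) hr) t

theorem BT.get_mp {α : Type} {g : Nat → List α} (h0 : g 0 = []) :
    ∀ (t : BT Nat) (k : Nat), (t.mp g).get k = g (t.getN k)
  | lf, k => h0.symm
  | nd l m v r, k => by
    have e1 : ((nd l m v r).mp g).get k = (bif Nat.beq k m then g v else
      bif Nat.ble k m then (l.mp g).get k else (r.mp g).get k) := rfl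
    have e2 : (nd l m v r).getN k = (bif Nat.beq k m then v else
      bif Nat.ble k m then l.getN k else r.getN k) := rfl
    rw [e1, e2, BT.get_mp h0 l, BT.get_mp h0 r]
    cases Nat.beq k m
    · cases Nat.ble k m <;> rfl
    · rfl

/-- the code of the bit `i` in a packed list, the default is the first entry -/
def cdN (n i : Nat) : Nat :=
  bif Nat.beq i 0 then 0 else bif Nat.ble (Nat.mod n 4096) i then 0 else
    Nat.mod (Nat.shiftRight n (Nat.add 32 (Nat.mul 53 (Nat.sub (Nat.mod n 4096) i)))) 8589934592

theorem dPa_length : ∀ k m : Nat, (dPa k m).length = k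
  | 0, m => rfl
  | k + 1, m => by
    have e : dPa (k + 1) m = (Nat.mod m 1048576, Nat.mod (Nat.shiftRight m 20) 8589934592) ::
      dPa k (Nat.shiftRight m 53) := rfl
    rw [e, List.length_cons, dPa_length k]

theorem dPa_getD : ∀ (k m j : Nat), j < k → ((dPa k m).getD j (0, 0)).2 =
    (m >>> (53 * j) >>> 20) % 8589934592
  | 0, m, j, h => by omega
  | k + 1, m, 0, h => rfl
  | k + 1, m, j + 1, h => by
    have e : dPa (k + 1) m = (Nat.mod m 1048576, Nat.mod (Nat.shiftRight m 20) 8589934592) ::
      dPa k (Nat.shiftRight m 53) := rfl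
    rw [e, List.getD_cons_succ, dPa_getD k _ j (by omega)]
    have e2 : Nat.shiftRight m 53 = m >>> 53 := rfl
    rw [e2]
    congr 2
    rw [← Nat.shiftRight_add, show 53 + 53 * j = 53 * (j + 1) by ring]

theorem cda_big : ∀ (l : List (Nat × Nat)) (i : Nat), l.length < i → cda l i = 0 := by
  intro l i h
  unfold cda
  rw [len_eq]
  induction l with
  | nil => rfl
  | cons c l ih =>
    have h1 : Nat.beq (c :: l).length i = false := by
      rw [← Bool.not_eq_true]
      intro h2
      have := Nat.eq_of_beq_eq_true h2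
      omega
    show Bool.rec (motive := fun _ => Nat) _ c.2 (Nat.beq (c :: l).length i) = 0
    rw [h1]
    have h3 : Nat.sub (c :: l).length 1 = l.length := rfl
    rw [h3]
    exact ih (by rw [List.length_cons] at h; omega)

theorem cdN_eq (n i : Nat) : cdN n i = cda (dP n).tail i := by
  have hn : n % 4096 < 4096 := Nat.mod_lt _ (by norm_num)
  unfold cdN
  by_cases h0 : i = 0
  · subst h0
    rw [cda_zero]; rfl
  · have e0 : Nat.beq i 0 = false := by
      rw [← Bool.not_eq_true]
      intro h; exact h0 (Nat.eq_of_beq_eq_true h)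
    rw [e0]
    dsimp only [cond_false]
    have hL : (dP n).length = n % 4096 := dPa_length _ _
    have hT : (dP n).tail.length = n % 4096 - 1 := by rw [List.length_tail, hL]
    by_cases h1 : n % 4096 ≤ i
    · have e1 : Nat.ble (Nat.mod n 4096) i = true := Nat.ble_eq_true_of_le h1
      rw [e1]
      dsimp only [cond_true]
      rw [cda_big _ _ (by rw [hT]; omega)]
    · have e1 : Nat.ble (Nat.mod n 4096) i = false := by
        rw [← Bool.not_eq_true]
        intro h; exact h1 (Nat.le_of_ble_eq_true h)
      rw [e1]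
      dsimp only [cond_false]
      have h2 : i = (dP n).tail.length - (n % 4096 - 1 - i) := by rw [hT]; omega
      have h3 : cda (dP n).tail i = ((dP n).tail.getD (n % 4096 - 1 - i) (0, 0)).2 := by
        conv_lhs => rw [h2]
        exact cda_getD _ _ (by rw [hT]; omega)
      have h4 : (dP n).tail.getD (n % 4096 - 1 - i) (0, 0) = (dP n).getD (n % 4096 - i) (0, 0) := by
        rw [List.getD_eq_getElem _ _ (by rw [hT]; omega), List.getElem_tail,
          List.getD_eq_getElem _ _ (by rw [hL]; omega)]
        congr 1
        omega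
      rw [h3, h4]
      have h5 : ((dP n).getD (n % 4096 - i) (0, 0)).2 =
          ((n >>> 12) >>> (53 * (n % 4096 - i)) >>> 20) % 8589934592 := dPa_getD _ _ _ (by
            show n % 4096 - i < n % 4096
            omega)
      rw [h5, ← Nat.shiftRight_add, ← Nat.shiftRight_add]
      show (n >>> (32 + 53 * (n % 4096 - i))) % 8589934592 = _
      rw [show 12 + (53 * (n % 4096 - i) + 20) = 32 + 53 * (n % 4096 - i) by ring]

/-- the code of the bit `i` of the key `a` -/
def cdf (T : BT (List (Nat × Nat))) (G : BT Nat) (a i : Nat) : Nat :=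
  (fun n : Nat => bif Nat.beq (Nat.mod n 4096) 0 then cda (T.get a) i else cdN n i) (G.getN a)

/-- the codes of the candidates in a packed table -/
theorem cdf_ok {Q : Pm} {G : BT Nat} (h : Q.SG = G.mp dP) (a i : Nat) :
    cdf Q.T G a i = cda (Q.pos a 0).cl i := by
  unfold cdf
  dsimp only
  unfold Pm.pos
  rw [h, BT.get_mp rfl]
  generalize G.getN a = n
  have hL : (dP n).length = n % 4096 := dPa_length _ _
  cases h0 : Nat.beq (Nat.mod n 4096) 0 with
  | true =>
    have h1 : n % 4096 = 0 := Nat.eq_of_beq_eq_true h0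
    rw [h1] at hL
    rw [List.eq_nil_of_length_eq_zero hL]
    rfl
  | false =>
    dsimp only [cond_false]
    rw [cdN_eq]
    cases h2 : dP n with
    | nil =>
      exfalso
      rw [h2] at hL
      have h3 : n % 4096 = 0 := hL.symm
      exact Nat.ne_of_beq_eq_false h0 h3
    | cons q l => rfl

end

end Pool.FCS
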