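import Pool.Agent.FCS.Code

/-!
# Star check: systems of words and conflicts
-/

namespace Pool.FCS

/-- A system: darts, next dart at the vertex, opposite dart, word of the vertex read from the dart
(empty: nothing is known). -/
structure Sys (D : Type*) where
  nx : D → D
  al : D → D
  W : D → List Nat

variable {D : Type*}

/-- The properties of the words. -/
structure Sys.Ok (cmp : Nat → Nat → Bool) (sol : Nat → Bool) (S : Sys D) : Prop where
  sm : ∀ e, Sm (S.W e)
  len : ∀ e, S.W e ≠ [] → 4 ≤ (S.W e).length ∧ (S.W e).length ≤ 6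
  nn : ∀ e, S.W (S.nx e) ≠ [] → S.W e ≠ []
  rot : ∀ e, S.W e ≠ [] → S.W (S.nx e) = (S.W e).rotate 1
  per : ∀ e, S.W e ≠ [] → S.nx^[(S.W e).length] e = e
  alal : ∀ e, S.al (S.al e) = e
  cmp : ∀ e, S.W e ≠ [] → S.W (S.al e) ≠ [] →
    cmp ((S.W e).getD 0 0) ((S.W (S.al e)).getD ((S.W (S.al e)).length - 1) 0) = true
  tri : ∀ e, S.W e ≠ [] → sol ((S.W e).getD 0 0) = true →
    ∃ r, S.nx r = S.al e ∧ S.al r = S.nx (S.al (S.nx e))

/-- code of the word at a dart -/
def Sys.c (S : Sys D) (e : D) : Nat := enc (S.W e)

/-- code at the other end of the `i`-th edge -/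
def Sys.nb (S : Sys D) (e : D) (i : Nat) : Nat := S.c (S.al (S.nx^[i] e))

/-- test of a bit -/
def tb (m i : Nat) : Bool := Nat.beq (Nat.land (Nat.shiftRight m i) 1) 1

/-- value of an assignment -/
def look (asg : List (Nat × Nat)) (i : Nat) : Nat :=
  List.rec (motive := fun _ => Nat) 0 (fun q _ ih => bif Nat.beq q.1 i then q.2 else ih) asg

/-- `b`, `b'` at the two ends of a side opposite to the centre -/
def adj (cmd pf : Nat → Nat → Bool) (x y : Nat) : Bool :=
  bif cmd (Nat.mod y 32) (Nat.div x (pw x)) then pf x y else true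

/-- all conditions of the pattern hold -/
def ptm (i b : Nat) (asg : List (Nat × Nat)) (P : List (Nat × Nat)) : Bool :=
  List.rec (motive := fun _ => Bool) true
    (fun q _ ih => bif Nat.beq (bif Nat.beq q.1 i then b else look asg q.1) q.2 then ih else false) P

/-- some pattern holds -/
def pta (i b : Nat) (asg : List (Nat × Nat)) (pats : List (List (Nat × Nat))) : Bool :=
  List.rec (motive := fun _ => Bool) false (fun P _ ih => bif ptm i b asg P then true else ih) pats

/-- The conflicts of the candidate `b` at the position `i` of the centre with the code `c` and the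
degree `d`. -/
def cf (cmd pf : Nat → Nat → Bool) (sm c d : Nat) (pats : List (List (Nat × Nat)))
    (i b : Nat) (asg : List (Nat × Nat)) : Bool :=
  bif Nat.beq b 0 then false else
  bif (bif tb sm (dg (Nat.pow 32 i) c) then
      bif Nat.beq (look asg (bif Nat.beq (Nat.succ i) d then 0 else Nat.succ i)) 0 then false
      else adj cmd pf (rrc b) (rlc (look asg (bif Nat.beq (Nat.succ i) d then 0 else Nat.succ i)))
    else false) then true else
  bif (bif tb sm (dg (Nat.pow 32 (bif Nat.beq i 0 then Nat.pred d else Nat.pred i)) c) then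
      bif Nat.beq (look asg (bif Nat.beq i 0 then Nat.pred d else Nat.pred i)) 0 then false
      else adj cmd pf (rrc (look asg (bif Nat.beq i 0 then Nat.pred d else Nat.pred i))) (rlc b)
    else false) then true else
  pta i b asg pats

section sound

variable {cmp : Nat → Nat → Bool} {sol : Nat → Bool} {S : Sys D}

theorem look_agr {nb : Nat → Nat} : ∀ {asg : List (Nat × Nat)}, Agr nb asg → ∀ i,
    look asg i ≠ 0 → nb i = look asg i
  | [], _, i, h => absurd rfl h
  | q :: asg, ha, i, h => by
    have e : look (q :: asg) i = (bif Nat.beq q.1 i then q.2 else look asg i) := rfl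
    rw [e] at h ⊢
    cases hb : Nat.beq q.1 i with
    | true =>
      have := Nat.eq_of_beq_eq_true hb
      subst this
      exact ha q (List.mem_cons_self ..)
    | false =>
      rw [hb] at h
      exact look_agr (fun r hr => ha r (List.mem_cons_of_mem _ hr)) i h

theorem ptm_sound {nb : Nat → Nat} {asg : List (Nat × Nat)} (ha : Agr nb asg) {i b : Nat}
    (hb : nb i = b) : ∀ {P : List (Nat × Nat)}, (∀ q ∈ P, q.2 ≠ 0) → ptm i b asg P = true →
      ∀ q ∈ P, nb q.1 = q.2
  | [], _, _, q, hq => by simp at hq
  | r :: P, h0, h, q, hq => by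
    have e : ptm i b asg (r :: P) =
      (bif Nat.beq (bif Nat.beq r.1 i then b else look asg r.1) r.2 then ptm i b asg P else false) := rfl
    rw [e] at h
    cases hr : Nat.beq (bif Nat.beq r.1 i then b else look asg r.1) r.2 with
    | false => rw [hr] at h; simp at h
    | true =>
      rw [hr] at h
      rcases List.mem_cons.1 hq with rfl | hq
      · have h1 := Nat.eq_of_beq_eq_true hr
        cases hi : Nat.beq q.1 i with
        | true =>
          rw [hi] at h1
          have := Nat.eq_of_beq_eq_true hi
          rw [this, hb]; exact h1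
        | false =>
          rw [hi] at h1
          have h2 : look asg q.1 = q.2 := h1
          have h3 := h0 q (List.mem_cons_self ..)
          rw [look_agr ha q.1 (by rw [h2]; exact h3), h2]
      · exact ptm_sound ha hb (fun q hq => h0 q (List.mem_cons_of_mem _ hq)) h q hq

theorem pta_sound {nb : Nat → Nat} {asg : List (Nat × Nat)} (ha : Agr nb asg) {i b : Nat}
    (hb : nb i = b) : ∀ {pats : List (List (Nat × Nat))},
      (∀ P ∈ pats, (∀ q ∈ P, q.2 ≠ 0) ∧ ¬ ∀ q ∈ P, nb q.1 = q.2) → pta i b asg pats = false
  | [], _ => rfl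
  | P :: pats, h => by
    have e : pta i b asg (P :: pats) = (bif ptm i b asg P then true else pta i b asg pats) := rfl
    rw [e]
    have h1 := h P (List.mem_cons_self ..)
    have h2 : ptm i b asg P = false := by
      rw [← Bool.not_eq_true]
      exact fun hc => h1.2 (ptm_sound ha hb h1.1 hc)
    rw [h2]
    exact pta_sound ha hb (fun Q hQ => h Q (List.mem_cons_of_mem _ hQ))

variable (hS : S.Ok cmp sol)

theorem Sys.enc_ne {e : D} (h : S.W e ≠ []) : S.c e ≠ 0 := by
  have := le_enc h
  have hp : 0 < 32 ^ ((S.W e).length - 1) := by positivity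
  unfold Sys.c
  omega

theorem Sys.ne_of_c {e : D} (h : S.c e ≠ 0) : S.W e ≠ [] := by
  intro h0; apply h; unfold Sys.c; rw [h0]; rfl

include hS

theorem Sys.Ok.ne_nx {e : D} (h : S.W e ≠ []) : S.W (S.nx e) ≠ [] := by
  rw [hS.rot e h]
  intro h0
  apply h
  have := congrArg List.length h0
  rw [List.length_rotate] at this
  exact List.eq_nil_of_length_eq_zero this

theorem Sys.Ok.c_nx {e : D} (h : S.W e ≠ []) : S.c (S.nx e) = rlc (S.c e) := by
  unfold Sys.c
  rw [hS.rot e h, rlc_enc (hS.sm e) (hS.len e h).1 (hS.len e h).2]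

theorem Sys.Ok.c_pr {e : D} (h : S.W e ≠ []) : rrc (S.c (S.nx e)) = S.c e := by
  unfold Sys.c
  rw [hS.rot e h, rrc_enc (hS.sm e) (hS.len e h).1 (hS.len e h).2]

theorem Sys.Ok.ne_iter {e : D} (h : S.W e ≠ []) (i : Nat) : S.W (S.nx^[i] e) ≠ [] := by
  induction i with
  | zero => exact h
  | succ i ih => rw [Function.iterate_succ_apply']; exact hS.ne_nx ih

theorem Sys.Ok.W_iter {e : D} (h : S.W e ≠ []) (i : Nat) :
    S.W (S.nx^[i] e) = (S.W e).rotate i := by
  induction i with
  | zero => simp
  | succ i ih =>
    rw [Function.iterate_succ_apply', hS.rot _ (hS.ne_iter h i), ih, List.rotate_rotate]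

/-- first digit -/
theorem Sys.Ok.dg0 {e : D} (h : S.W e ≠ []) : Nat.mod (S.c e) 32 = (S.W e).getD 0 0 + 1 := by
  have h4 := (hS.len e h).1
  have := dg_enc (hS.sm e) (k := 0) (by omega)
  rw [← this]
  show _ = S.c e / 32 ^ 0 % 32
  simp only [pow_zero, Nat.div_one]
  rfl

/-- last digit -/
theorem Sys.Ok.dgl {e : D} (h : S.W e ≠ []) : Nat.div (S.c e) (pw (S.c e)) =
    (S.W e).getD ((S.W e).length - 1) 0 + 1 := by
  have h4 := (hS.len e h).1
  have h1 := dg_enc (hS.sm e) (k := (S.W e).length - 1) (by omega)
  rw [← h1]
  unfold Sys.c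
  rw [pw_enc (hS.sm e) h4 (hS.len e h).2]
  show _ = enc (S.W e) / 32 ^ ((S.W e).length - 1) % 32
  symm
  apply Nat.mod_eq_of_lt
  have h2 := enc_lt (hS.sm e)
  apply Nat.div_lt_of_lt_mul
  rw [← pow_succ]
  convert h2 using 2
  omega

/-- `adj` is sound -/
theorem adj_sound {cmd pf : Nat → Nat → Bool}
    (hcm : ∀ x y, cmp x y = true → cmd (x + 1) (y + 1) = true)
    (hpf : ∀ r, S.W r ≠ [] → S.W (S.al r) ≠ [] → pf (S.c r) (S.c (S.al r)) = false)
    {e : D} (he : S.W e ≠ []) (hs : sol ((S.W e).getD 0 0) = true)
    (h1 : S.c (S.al e) ≠ 0) (h2 : S.c (S.al (S.nx e)) ≠ 0) :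
    adj cmd pf (rrc (S.c (S.al e))) (rlc (S.c (S.al (S.nx e)))) = false := by
  obtain ⟨r, hr1, hr2⟩ := hS.tri e he hs
  have n1 : S.W (S.nx r) ≠ [] := by rw [hr1]; exact Sys.ne_of_c h1
  have n2 : S.W r ≠ [] := hS.nn r n1
  have n3 : S.W (S.al (S.nx e)) ≠ [] := Sys.ne_of_c h2
  have n4 : S.W (S.al r) ≠ [] := by rw [hr2]; exact hS.ne_nx n3
  have e1 : rrc (S.c (S.al e)) = S.c r := by rw [← hr1]; exact hS.c_pr n2
  have e2 : rlc (S.c (S.al (S.nx e))) = S.c (S.al r) := by rw [hr2]; exact (hS.c_nx n3).symm
  rw [e1, e2]
  unfold adj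
  have h3 := hS.cmp (S.al r) n4 (by rw [hS.alal]; exact n2)
  rw [hS.alal] at h3
  have h4 := hcm _ _ h3
  rw [hS.dg0 n4, hS.dgl n2, h4]
  exact hpf r n2 n4

theorem cf_sound {cmd pf : Nat → Nat → Bool} {sm : Nat}
    (hcm : ∀ x y, cmp x y = true → cmd (x + 1) (y + 1) = true)
    (hsm : ∀ x, tb sm (x + 1) = true → sol x = true) (hsm0 : tb sm 0 = false)
    (hpf : ∀ r, S.W r ≠ [] → S.W (S.al r) ≠ [] → pf (S.c r) (S.c (S.al r)) = false)
    {e : D} (he : S.W e ≠ []) {pats : List (List (Nat × Nat))}
    (hP : ∀ P ∈ pats, (∀ q ∈ P, q.2 ≠ 0) ∧ ¬ ∀ q ∈ P, S.nb e q.1 = q.2) :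
    ∀ asg, Agr (S.nb e) asg → ∀ i b,
      cf cmd pf sm (S.c e) (S.W e).length pats i b asg = true → S.nb e i ≠ b := by
  intro asg ha i b h hb
  have h4 := hS.len e he
  -- the letter of the sector `i`
  have hsec : ∀ i, tb sm (dg (Nat.pow 32 i) (S.c e)) = true →
      i < (S.W e).length ∧ sol ((S.W (S.nx^[i] e)).getD 0 0) = true := by
    intro i hi
    by_cases hl : i < (S.W e).length
    · refine ⟨hl, ?_⟩
      have h1 : dg (32 ^ i) (enc (S.W e)) = _ := dg_enc (hS.sm e) hl
      have hi' : tb sm (dg (32 ^ i) (enc (S.W e))) = true := hi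
      rw [h1] at hi'
      have h2 := hsm _ hi'
      rw [hS.W_iter he i]
      rw [List.getD_eq_getElem _ _ (by rw [List.length_rotate]; omega), List.getElem_rotate]
      rw [List.getD_eq_getElem _ _ hl] at h2
      simpa [Nat.mod_eq_of_lt hl] using h2
    · exfalso
      have h1 : dg (Nat.pow 32 i) (S.c e) = 0 := by
        show S.c e / 32 ^ i % 32 = 0
        have h2 : S.c e < 32 ^ (S.W e).length := enc_lt (hS.sm e)
        have h3 : 32 ^ (S.W e).length ≤ 32 ^ i := Nat.pow_le_pow_right (by norm_num) (by omega)
        rw [Nat.div_eq_of_lt (by omega)]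
      rw [h1, hsm0] at hi
      exact absurd hi (by simp)
  -- the next position
  have hnx : ∀ i, i < (S.W e).length →
      S.nb e (bif Nat.beq (Nat.succ i) (S.W e).length then 0 else Nat.succ i) =
        S.c (S.al (S.nx (S.nx^[i] e))) := by
    intro i hi
    unfold Sys.nb
    cases hb : Nat.beq (Nat.succ i) (S.W e).length with
    | true =>
      have h1 := Nat.eq_of_beq_eq_true hb
      rw [← Function.iterate_succ_apply' S.nx, h1, hS.per e he]
      rfl
    | false => rw [← Function.iterate_succ_apply' S.nx]; rfl
  unfold cf at h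
  have hb0 : Nat.beq b 0 = false := by
    cases h0 : Nat.beq b 0 with
    | true => rw [h0] at h; simp at h
    | false => rfl
  have hb1 : b ≠ 0 := by rintro rfl; simp at hb0
  rw [hb0] at h
  replace h : (bif (bif tb sm (dg (Nat.pow 32 i) (S.c e)) then
      bif Nat.beq (look asg (bif Nat.beq (Nat.succ i) (S.W e).length then 0 else Nat.succ i)) 0 then false
      else adj cmd pf (rrc b) (rlc (look asg (bif Nat.beq (Nat.succ i) (S.W e).length then 0 else Nat.succ i)))
    else false) then true else
    bif (bif tb sm (dg (Nat.pow 32 (bif Nat.beq i 0 then Nat.pred (S.W e).length else Nat.pred i)) (S.c e)) then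
      bif Nat.beq (look asg (bif Nat.beq i 0 then Nat.pred (S.W e).length else Nat.pred i)) 0 then false
      else adj cmd pf (rrc (look asg (bif Nat.beq i 0 then Nat.pred (S.W e).length else Nat.pred i))) (rlc b)
    else false) then true else
    pta i b asg pats) = true := h
  cases c1 : (bif tb sm (dg (Nat.pow 32 i) (S.c e)) then
      bif Nat.beq (look asg (bif Nat.beq (Nat.succ i) (S.W e).length then 0 else Nat.succ i)) 0 then false
      else adj cmd pf (rrc b) (rlc (look asg (bif Nat.beq (Nat.succ i) (S.W e).length then 0 else Nat.succ i)))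
    else false) with
  | true =>
    cases h1 : tb sm (dg (Nat.pow 32 i) (S.c e)) with
    | false => rw [h1] at c1; simp at c1
    | true =>
      obtain ⟨hl, hs⟩ := hsec i h1
      rw [h1] at c1
      set k := (bif Nat.beq (Nat.succ i) (S.W e).length then 0 else Nat.succ i) with hk
      cases h2 : Nat.beq (look asg k) 0 with
      | true => rw [h2] at c1; simp at c1
      | false =>
        rw [h2] at c1
        have h3 : look asg k ≠ 0 := by
          intro h0; rw [h0] at h2; simp at h2
        have h5 := look_agr ha k h3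
        rw [hnx i hl] at h5
        have h6 : adj cmd pf (rrc b) (rlc (look asg k)) = true := c1
        rw [← h5, ← hb] at h6
        have h7 := adj_sound hS hcm hpf (hS.ne_iter he i) hs
          (by unfold Sys.nb at hb; rw [hb]; exact hb1) (by rw [h5]; exact h3)
        unfold Sys.nb at h6
        rw [h6] at h7
        exact absurd h7 (by simp)
  | false =>
    rw [c1] at h
    dsimp only [cond_false] at h
    set k := (bif Nat.beq i 0 then Nat.pred (S.W e).length else Nat.pred i) with hk
    cases c2 : (bif tb sm (dg (Nat.pow 32 k) (S.c e)) then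
      bif Nat.beq (look asg k) 0 then false
      else adj cmd pf (rrc (look asg k)) (rlc b)
      else false) with
    | false =>
      rw [c2] at h
      dsimp only [cond_false] at h
      rw [pta_sound ha hb hP] at h
      exact absurd h (by simp)
    | true =>
      cases h1 : tb sm (dg (Nat.pow 32 k) (S.c e)) with
      | false => rw [h1] at c2; simp at c2
      | true =>
        obtain ⟨hl, hs⟩ := hsec k h1
        rw [h1] at c2
        cases h2 : Nat.beq (look asg k) 0 with
        | true => rw [h2] at c2; simp at c2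
        | false =>
          rw [h2] at c2
          have h3 : look asg k ≠ 0 := by
            intro h0; rw [h0] at h2; simp at h2
          have h5 := look_agr ha k h3
          have h6 : adj cmd pf (rrc (look asg k)) (rlc b) = true := c2
          -- the successor of `k` is `i`
          have hki : S.c (S.al (S.nx (S.nx^[k] e))) = b := by
            rw [← hnx k hl, ← hb]
            cases hi0 : Nat.beq i 0 with
            | true =>
              have hi := Nat.eq_of_beq_eq_true hi0
              subst hi
              rw [hi0] at hk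
              have hk' : k = (S.W e).length - 1 := hk
              have : Nat.succ k = (S.W e).length := by omega
              rw [this]
              have : Nat.beq (S.W e).length (S.W e).length = true := Nat.beq_refl _
              rw [this]; rfl
            | false =>
              have hi : i ≠ 0 := by rintro rfl; simp at hi0
              rw [hi0] at hk
              have hk' : k = i - 1 := hk
              have hs' : Nat.succ k = i := by omega
              rw [hs']
              by_cases hil : i = (S.W e).length
              · have : Nat.beq i (S.W e).length = true := by rw [hil]; exact Nat.beq_refl _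
                rw [this]
                unfold Sys.nb
                rw [hil, hS.per e he]; rfl
              · have : Nat.beq i (S.W e).length = false := by
                  rw [← Bool.not_eq_true]; intro hc; exact hil (Nat.eq_of_beq_eq_true hc)
                rw [this]; rfl
          rw [← h5, ← hki] at h6
          have h7 := adj_sound hS hcm hpf (hS.ne_iter he k) hs
            (by unfold Sys.nb at h5; rw [h5]; exact h3) (by rw [hki]; exact hb1)
          unfold Sys.nb at h6
          rw [h6] at h7
          exact absurd h7 (by simp)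

end sound

end Pool.FCS
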