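import Pool.Agent.FCS.Der

/-!
# Star check: the tables
-/

namespace Pool.FCS

noncomputable section

/-- all entries of a tree -/
def BT.allB {α : Type} (f : Nat → α → Bool) (t : BT α) : Bool :=
  BT.rec (motive := fun _ => Bool) true
    (fun _ m v _ hl hr => bif f m v then bif hl then hr else false else false) t

theorem BT.allB_nd {α : Type} {f : Nat → α → Bool} {l r : BT α} {m : Nat} {v : α}
    (hl : l.allB f = true) (hv : f m v = true) (hr : r.allB f = true) :
    (BT.nd l m v r).allB f = true := by
  have e : (BT.nd l m v r).allB f = (bif f m v then bif l.allB f then r.allB f else false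
    else false) := rfl
  rw [e, hl, hv, hr]; rfl

theorem BT.allB_sound {α : Type} {f : Nat → α → Bool} : ∀ {t : BT α}, t.allB f = true →
    ∀ p ∈ t.toList, f p.1 p.2 = true
  | lf, _, p, hp => by simp [BT.toList] at hp
  | nd l m v r, h, p, hp => by
    have e : (BT.nd l m v r).allB f = (bif f m v then bif l.allB f then r.allB f else false
      else false) := rfl
    rw [e, cond_true_iff, cond_true_iff] at h
    obtain ⟨h1, h2, h3⟩ := h
    unfold BT.toList at hp
    rcases List.mem_append.1 hp with hp | hp
    · exact BT.allB_sound h2 p hp
    · rcases List.mem_cons.1 hp with rfl | hp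
      · exact h1
      · exact BT.allB_sound h3 p hp

/-- the `j`-th fact -/
def nthF (l : List Fct) : Nat → Fct :=
  List.rec (motive := fun _ => Nat → Fct) (fun _ => ([], []))
    (fun x _ ih j => bif Nat.beq j 0 then x else ih (Nat.pred j)) l

theorem nthF_mem : ∀ {l : List Fct} {j : Nat}, (nthF l j).1 ≠ [] → nthF l j ∈ l
  | [], j, h => absurd rfl h
  | x :: l, j, h => by
    have e : nthF (x :: l) j = (bif Nat.beq j 0 then x else nthF l (Nat.pred j)) := rfl
    rw [e] at h ⊢
    cases hb : Nat.beq j 0 with
    | true => exact List.mem_cons_self ..
    | false =>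
      rw [hb] at h
      exact List.mem_cons_of_mem _ (nthF_mem (l := l) h)

/-- the mirror image of a word of letters -/
def mirw (ml : Nat → Nat) (w : List Nat) : List Nat := (w.map ml).reverse

/-- the mirror image of a fact -/
def mirX (ml : Nat → Nat) (X : Fct) : Fct :=
  (mirw ml X.1, X.2.map fun p => ((X.1.length - p.1) % X.1.length, mirw ml p.2))

/-- mirror image, for the kernel -/
def mirwk (ml : Nat → Nat) (w : List Nat) : List Nat → List Nat :=
  List.rec (motive := fun _ => List Nat → List Nat) (fun acc => acc)
    (fun x _ ih acc => ih (ml x :: acc)) w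

theorem mirwk_eq (ml : Nat → Nat) : ∀ (w acc : List Nat), mirwk ml w acc = mirw ml w ++ acc
  | [], acc => rfl
  | x :: w, acc => by
    have e : mirwk ml (x :: w) acc = mirwk ml w (ml x :: acc) := rfl
    rw [e, mirwk_eq ml w]
    simp [mirw]

/-- mirror image of a fact, for the kernel -/
def mirXk (ml : Nat → Nat) (X : Fct) : Fct :=
  (fun d : Nat => (mirwk ml X.1 [],
    List.rec (motive := fun _ => List (Nat × List Nat)) []
      (fun p _ ih => (Nat.mod (Nat.sub d p.1) d, mirwk ml p.2 []) :: ih) X.2)) X.1.length

theorem mirXk_eq (ml : Nat → Nat) (X : Fct) : mirXk ml X = mirX ml X := by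
  unfold mirXk mirX
  dsimp only
  rw [mirwk_eq, List.append_nil]
  congr 1
  generalize X.1.length = d
  induction X.2 with
  | nil => rfl
  | cons p l ih =>
    dsimp only
    rw [List.map_cons, ← ih, mirwk_eq, List.append_nil]
    rfl

/-- the fact with the number `n` -/
def fct (ml : Nat → Nat) (FB : BT (List Fct)) (n : Nat) : Fct :=
  bif Nat.beq (Nat.mod n 2) 0 then nthF (FB.get (Nat.div n 64)) (Nat.mod (Nat.div n 2) 32)
  else mirXk ml (nthF (FB.get (Nat.div n 64)) (Nat.mod (Nat.div n 2) 32))

/-- A centre with the derivations of its patterns. -/
structure CenD where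
  C : Cen
  ds : List Nat

/-- the derivations of the patterns -/
def pdr (le : Nat → Nat → Bool) (ml : Nat → Nat) (FB : BT (List Fct)) (sm c : Nat)
    (pats : List (List (Nat × Nat))) : List Nat → Bool :=
  List.rec (motive := fun _ => List Nat → Bool) (fun _ => true)
    (fun P _ ih ds => List.rec (motive := fun _ => Bool) false
      (fun d ds' _ => bif ptf le sm (fct ml FB (Nat.div d 8)) c (Nat.mod d 8) P then ih ds'
        else false) ds) pats

/-- some pattern is empty -/
def hasNil (pats : List (List (Nat × Nat))) : Bool :=
  List.rec (motive := fun _ => Bool) false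
    (fun P _ ih => List.rec (motive := fun _ => Bool) true (fun _ _ _ => ih) P) pats

theorem hasNil_iff : ∀ {pats : List (List (Nat × Nat))}, hasNil pats = true → [] ∈ pats
  | [], h => absurd h (by simp [hasNil])
  | [] :: pats, _ => List.mem_cons_self ..
  | (q :: P) :: pats, h => List.mem_cons_of_mem _ (hasNil_iff (pats := pats) h)

/-- The check of an entry of the table of the centres. -/
def Prm.ckE (Q : Prm) (le : Nat → Nat → Bool) (ml : Nat → Nat) (FB : BT (List Fct)) (k : Nat)
    (l : List CenD) : Bool :=
  List.rec (motive := fun _ => Bool) true
    (fun E _ ih => bif Nat.beq E.C.c k then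
      bif pdr le ml FB Q.sm k E.C.pats E.ds then
        bif (bif hasNil E.C.pats then true else Q.chk E.C) then ih else false
      else false
    else false) l

/-- The check of an entry of the table of the forbidden pairs. -/
def pfd (le : Nat → Nat → Bool) (ml : Nat → Nat) (FB : BT (List Fct)) (x : Nat)
    (ys : List Nat) : List Nat → Bool :=
  List.rec (motive := fun _ => List Nat → Bool) (fun _ => true)
    (fun y _ ih ds => List.rec (motive := fun _ => Bool) false
      (fun d ds' _ =>
        bif (bif Nat.beq (Nat.mod d 2) 0 then
            prf le (fct ml FB (Nat.div d 16)) x y (Nat.mod (Nat.div d 2) 8)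
          else prf le (fct ml FB (Nat.div d 16)) y x (Nat.mod (Nat.div d 2) 8)) then ih ds'
        else false) ds) ys

/-- first rotation in the table of the centres: `0` none, `1` dead, `2` centre -/
def cst (CB : BT (List CenD)) (c d : Nat) : Nat :=
  Nat.rec (motive := fun _ => Nat) 0
    (fun i ih => List.rec (motive := fun _ => Nat) ih
      (fun E _ _ => bif hasNil E.C.pats then 1 else 2) (CB.get (rot c i))) d

/-- the check of a word -/
def Prm.covc (Q : Prm) (CB : BT (List CenD)) (WL : BT (List Nat)) (S4 : List Nat) (c : Nat) :
    Bool :=
  (fun t : Nat => bif Nat.beq t 1 then true else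
    bif (bif Nat.beq t 0 then Q.trv c else true) then
      bif mem c (WL.get (wkey c)) then
        bif so4 Q.sm c then mem c S4 else true
      else false
    else false) (cst CB c (dgn c))

/-- all words of a given weight, extending the code `acc` with `k` letters -/
def enu (wt : Nat → Nat) (al : List Nat) (p : Nat → Bool) (n : Nat) : Nat → Nat → Nat → Nat → Bool :=
  Nat.rec (motive := fun _ => Nat → Nat → Nat → Nat → Bool)
    (fun _ acc _ k => bif Nat.ble 4 k then p acc else true)
    (fun _ ih rem acc pwr k =>
      bif (bif Nat.ble 4 k then p acc else true) then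
        List.rec (motive := fun _ => Bool) true
          (fun x _ jh => bif Nat.ble (wt x) rem then
            bif ih (Nat.sub rem (wt x)) (Nat.add acc (Nat.mul (Nat.succ x) pwr)) (Nat.mul pwr 32)
              (Nat.succ k) then jh else false
            else jh) al
      else false) n

theorem enu_sound {wt : Nat → Nat} {al : List Nat} {p : Nat → Bool} : ∀ (n : Nat) (w : List Nat)
    (rem acc pwr k : Nat), w.length ≤ n → (w.map wt).sum ≤ rem → (∀ x ∈ w, x ∈ al) →
    4 ≤ k + w.length → enu wt al p n rem acc pwr k = true → p (acc + pwr * enc w) = true
  | 0, w, rem, acc, pwr, k, hl, _, _, h4, h => by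
    have hw : w = [] := List.eq_nil_of_length_eq_zero (by omega)
    subst hw
    have h' : (bif Nat.ble 4 k then p acc else true) = true := h
    have h5 : Nat.ble 4 k = true := Nat.ble_eq_true_of_le (by simpa using h4)
    rw [h5] at h'
    simpa using h'
  | n + 1, w, rem, acc, pwr, k, hl, hs, ha, h4, h => by
    have h' : (bif (bif Nat.ble 4 k then p acc else true) then
        List.rec (motive := fun _ => Bool) true
          (fun x _ jh => bif Nat.ble (wt x) rem then
            bif enu wt al p n (Nat.sub rem (wt x)) (Nat.add acc (Nat.mul (Nat.succ x) pwr))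
              (Nat.mul pwr 32) (Nat.succ k) then jh else false
            else jh) al
      else false) = true := h
    rw [cond_true_iff] at h'
    obtain ⟨h1, h2⟩ := h'
    cases w with
    | nil =>
      have h5 : Nat.ble 4 k = true := Nat.ble_eq_true_of_le (by simpa using h4)
      rw [h5] at h1
      simpa using h1
    | cons y w =>
      have hy : y ∈ al := ha y (List.mem_cons_self ..)
      rw [List.map_cons, List.sum_cons] at hs
      have key : ∀ l : List Nat, y ∈ l → List.rec (motive := fun _ => Bool) true
          (fun x _ jh => bif Nat.ble (wt x) rem then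
            bif enu wt al p n (Nat.sub rem (wt x)) (Nat.add acc (Nat.mul (Nat.succ x) pwr))
              (Nat.mul pwr 32) (Nat.succ k) then jh else false
            else jh) l = true →
          enu wt al p n (rem - wt y) (acc + (y + 1) * pwr) (pwr * 32) (k + 1) = true := by
        intro l
        induction l with
        | nil => intro h; simp at h
        | cons x l jh =>
          intro hm hh
          dsimp only at hh
          rcases List.mem_cons.1 hm with hm | hm
          · subst hm
            rw [Nat.ble_eq_true_of_le (by omega : wt y ≤ rem)] at hh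
            dsimp only [cond_true] at hh
            rw [cond_true_iff] at hh
            exact hh.1
          · apply jh hm
            revert hh
            cases Nat.ble (wt x) rem with
            | false => intro hh; exact hh
            | true =>
              intro hh
              dsimp only [cond_true] at hh
              rw [cond_true_iff] at hh
              exact hh.2
      have h3 := key al hy h2
      have h6 := enu_sound n w _ _ _ _ (by simpa using hl) (by omega)
        (fun x hx => ha x (List.mem_cons_of_mem _ hx)) (by
          rw [List.length_cons] at h4; omega) h3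
      rw [enc_cons]
      have e : acc + pwr * (y + 1 + 32 * enc w) = acc + (y + 1) * pwr + pwr * 32 * enc w := by ring
      rw [e]
      exact h6

end

end Pool.FCS
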