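import Pool.Agent.FCS.Tg

/-! # The gains on the triangles in the coarse system -/

open Finset

namespace Pool.FCS

variable {D : Type*} {cmp : Nat → Nat → Bool} {sol sol' : Nat → Bool} {S : Sys D} {cc : Nat → Nat}

/-- the gain of a corner does not change -/
theorem tgn_down (hS : S.Ok cmp sol) (hs : ∀ e, ∀ x ∈ S.W e, sol' (cc x) = sol x)
    (T : List Nat → List Nat → List Nat → Nat) {e : D} (he : S.W e ≠ []) :
    tgn sol' T (S.mp cc) e = tgn sol (fun a b c => T (a.map cc) (b.map cc) (c.map cc)) S e := by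
  have h4 := (hS.len e he).1
  have h1 : sol' (((S.mp cc).W e).getD 0 0) = sol ((S.W e).getD 0 0) := by
    show sol' (((S.W e).map cc).getD 0 0) = _
    rw [getD_map0 (by omega)]
    exact hs e _ (by rw [List.getD_eq_getElem _ _ (by omega)]; exact List.getElem_mem _)
  have h2 : ∀ d, (S.mp cc).W ((S.mp cc).rh d) ≠ [] ↔ S.W (S.rh d) ≠ [] := fun d => mp_ne
  have h3 : ∀ d, (S.mp cc).W ((S.mp cc).rh ((S.mp cc).rh d)) ≠ [] ↔ S.W (S.rh (S.rh d)) ≠ [] :=
    fun d => mp_ne
  unfold tgn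
  by_cases hc : sol ((S.W e).getD 0 0) = true ∧ S.W (S.rh e) ≠ [] ∧ S.W (S.rh (S.rh e)) ≠ []
  · rw [if_pos hc, if_pos ⟨by rw [h1]; exact hc.1, (h2 e).2 hc.2.1, (h3 e).2 hc.2.2⟩]
    rfl
  · rw [if_neg hc, if_neg fun h => hc ⟨by rw [← h1]; exact h.1, (h2 e).1 h.2.1, (h3 e).1 h.2.2⟩]

/-- the sum of the gains around a vertex does not change -/
theorem tgs_down (hS : S.Ok cmp sol) (hs : ∀ e, ∀ x ∈ S.W e, sol' (cc x) = sol x)
    (T : List Nat → List Nat → List Nat → Nat) {e : D} (he : S.W e ≠ []) :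
    ∑ i ∈ range ((S.mp cc).W e).length, tgn sol' T (S.mp cc) ((S.mp cc).nx^[i] e) =
      ∑ i ∈ range (S.W e).length,
        tgn sol (fun a b c => T (a.map cc) (b.map cc) (c.map cc)) S (S.nx^[i] e) := by
  have e1 : ((S.mp cc).W e).length = (S.W e).length := by
    show ((S.W e).map cc).length = _
    rw [List.length_map]
  rw [e1]
  refine Finset.sum_congr rfl fun i _ => ?_
  exact tgn_down hS hs T (hS.ne_iter he i)

/-- rotation of the centre -/
theorem tgs_nx (hS : S.Ok cmp sol) (T : List Nat → List Nat → List Nat → Nat) {e : D}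
    (he : S.W e ≠ []) : ∑ i ∈ range (S.W (S.nx e)).length, tgn sol T S (S.nx^[i] (S.nx e)) =
      ∑ i ∈ range (S.W e).length, tgn sol T S (S.nx^[i] e) := by
  have h1 : (S.W (S.nx e)).length = (S.W e).length := by rw [hS.rot e he, List.length_rotate]
  rw [h1]
  exact sum_nx hS (fun d => tgn sol T S d) he

theorem tgs_iter (hS : S.Ok cmp sol) (T : List Nat → List Nat → List Nat → Nat) {e : D}
    (he : S.W e ≠ []) (j : Nat) :
    ∑ i ∈ range (S.W (S.nx^[j] e)).length, tgn sol T S (S.nx^[i] (S.nx^[j] e)) =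
      ∑ i ∈ range (S.W e).length, tgn sol T S (S.nx^[i] e) := by
  induction j with
  | zero => rfl
  | succ j ih =>
    rw [Function.iterate_succ_apply', tgs_nx hS T (hS.ne_iter he j), ih]

/-- the gain of the corner at a solid sector `i` of the star of `e`, by the words as the centre sees
them: `a` from the sector, `v` the neighbour behind it, `u` the neighbour before it -/
theorem tgn_star (hS : S.Ok cmp sol) (T : List Nat → List Nat → List Nat → Nat) {e : D}
    (he : S.W e ≠ []) (h : sol ((S.W e).getD 0 0) = true) (h1 : S.W (S.al e) ≠ [])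
    (h2 : S.W (S.al (S.nx e)) ≠ []) :
    tgn sol T S e =
      T (S.W e) (S.W (S.al (S.nx e))) ((S.W (S.al e)).rotate ((S.W (S.al e)).length - 1)) -
      T (S.W (S.al (S.nx e))) ((S.W (S.al e)).rotate ((S.W (S.al e)).length - 1)) (S.W e) := by
  have h3 := (hS.rh3 he h).1
  have h4 : S.W (S.rh (S.rh e)) ≠ [] := (hS.rh_ne he h).2 h1
  have h5 : S.W (S.al e) = (S.W (S.rh (S.rh e))).rotate 1 := by
    rw [← h3, hS.rot _ h4]
  have h6 : (S.W (S.al e)).rotate ((S.W (S.al e)).length - 1) = S.W (S.rh (S.rh e)) := by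
    have h7 := (hS.len _ h4).1
    rw [h5, List.length_rotate, List.rotate_rotate,
      show 1 + ((S.W (S.rh (S.rh e))).length - 1) = (S.W (S.rh (S.rh e))).length by omega,
      List.rotate_length]
  rw [h6]
  unfold tgn
  rw [if_pos ⟨h, h2, h4⟩]
  rfl

theorem tgn_zero {T : List Nat → List Nat → List Nat → Nat} {e : D}
    (hS : S.Ok cmp sol) (he : S.W e ≠ [])
    (h : ¬ (sol ((S.W e).getD 0 0) = true ∧ S.W (S.al e) ≠ [] ∧ S.W (S.al (S.nx e)) ≠ [])) :
    tgn sol T S e = 0 := by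
  unfold tgn
  rw [if_neg]
  rintro ⟨h1, h2, h3⟩
  exact h ⟨h1, (hS.rh_ne he h1).1 h3, h2⟩

end Pool.FCS
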