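import Pool.Agent.FCS.Wa

/-!
# Star check: packed facts, fields of 36 bits, definitions
-/

namespace Pool.FCS

noncomputable section

/-- the field `p` (36 bits) -/
def fld (N p : Nat) : Nat := Nat.mod (Nat.shiftRight N (Nat.mul 36 p)) 68719476736

/-- bits of the letters of a word -/
def fml (w : List Nat) : Nat → Nat :=
  List.rec (motive := fun _ => Nat → Nat) (fun _ => 0)
    (fun g _ ih a => Nat.lor (Nat.shiftLeft 1 (Nat.add a g)) (ih (Nat.add a 64))) w

/-- the masks of the letters of a view (`lv` the mask of a view letter) -/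
def avl (lv : Nat → Nat) (V : List Nat) (r : Nat) : Nat :=
  List.rec (motive := fun _ => Nat) r
    (fun v _ ih => Nat.lor (lv v) (Nat.shiftLeft ih 64)) V

/-- the masks of a view, twice -/
def av2 (lv : Nat → Nat) (V : List Nat) : Nat := avl lv V (avl lv V 0)

/-- reverse -/
def rvl (V : List Nat) : List Nat :=
  List.rec (motive := fun _ => List Nat → List Nat) (fun a => a) (fun v _ ih a => ih (v :: a)) V []

/-- table with 6 bits -/
def tg6 (T x : Nat) : Nat := Nat.mod (Nat.shiftRight T (Nat.mul (nat_lit 6) x)) (nat_lit 64)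

/-- the letters of the facts for a blind code, as one number -/
def fcd (T b : Nat) : Nat :=
  Nat.rec (motive := fun _ => Nat → Nat) (fun _ => 0)
    (fun _ ih b => Bool.rec (motive := fun _ => Nat)
      (Nat.add (tg6 T (Nat.mod b 32)) (Nat.mul 64 (ih (Nat.div b 32)))) 0 (Nat.beq b 0)) 6 b

/-- the letters of the mirrored facts for a blind code, in the opposite order -/
def fcm (T b : Nat) : Nat :=
  Nat.rec (motive := fun _ => Nat → Nat → Nat) (fun _ a => a)
    (fun _ ih b a => Bool.rec (motive := fun _ => Nat)
      (ih (Nat.div b 32) (Nat.add (Nat.mul 64 a) (tg6 T (Nat.mod b 32)))) a (Nat.beq b 0)) 6 b 0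

/-- the conditions on the neighbours and the letters: `MV`, `MW` the fields of the members (`MW` in
the opposite order), `AV`, `AW` the masks of the view (`AW` in the opposite order), `n` the number
of the fact, `FN` the packed lists -/
def fq (FN : Nat → Nat) (d AV AW MV MW n : Nat) : Bool :=
  frc (Nat.div n (nat_lit 512)) fun l =>
    (fun x D r : Nat => frc (Nat.mod x (Nat.pow (nat_lit 64) D)) fun w =>
      Bool.rec (motive := fun _ => Bool)
        (Bool.rec (motive := fun _ => Bool) false
          (Bool.rec (motive := fun _ => Bool) false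
            (Nat.beq (Nat.shiftRight x (Nat.mul (nat_lit 6) D))
              (Nat.mod (Nat.shiftRight (Nat.lor MW (Nat.shiftLeft MW (Nat.mul (nat_lit 36) d)))
                (Nat.mul (nat_lit 36) (Nat.sub d r))) (Nat.pow (nat_lit 2) (Nat.mul (nat_lit 36) d))))
            (Nat.beq (lln (dW w)) d))
          (Nat.beq (Nat.land (fml (dW w) (nat_lit 0))
            (Nat.shiftRight AW (Nat.mul (nat_lit 64) (Nat.sub d r)))) (fml (dW w) (nat_lit 0))))
        (Bool.rec (motive := fun _ => Bool) false
          (Bool.rec (motive := fun _ => Bool) false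
            (Nat.beq (Nat.shiftRight x (Nat.mul (nat_lit 6) D))
              (Nat.mod (Nat.shiftRight (Nat.lor MV (Nat.shiftLeft MV (Nat.mul (nat_lit 36) d)))
                (Nat.mul (nat_lit 36) r)) (Nat.pow (nat_lit 2) (Nat.mul (nat_lit 36) d))))
            (Nat.beq (lln (dW w)) d))
          (Nat.beq (Nat.land (fml (dW w) (nat_lit 0))
            (Nat.shiftRight AV (Nat.mul (nat_lit 64) r))) (fml (dW w) (nat_lit 0))))
        (Nat.beq (Nat.mod (Nat.div n (nat_lit 8)) (nat_lit 2)) (nat_lit 0)))
    (nX (FN l) (Nat.mod (Nat.div n (nat_lit 16)) (nat_lit 32))) (Nat.mod (FN l) (nat_lit 16))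
    (Nat.mod n (nat_lit 8))

end

end Pool.FCS
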