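import Pool.Agent.FCS.Wb

/-!
# Star check: packed facts, soundness
-/

namespace Pool.FCS

noncomputable section

section fields

theorem fld_bit (N p i : Nat) :
    Nat.testBit (fld N p) i = (decide (i < 36) && Nat.testBit N (36 * p + i)) := by
  show Nat.testBit ((N >>> (36 * p)) % 68719476736) i = _
  rw [show (68719476736 : Nat) = 2 ^ 36 by norm_num, Nat.testBit_mod_two_pow,
    Nat.testBit_shiftRight]

theorem fld_lt (N p : Nat) : fld N p < 2 ^ 36 := by
  show (N >>> (36 * p)) % 68719476736 < _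
  rw [show (68719476736 : Nat) = 2 ^ 36 by norm_num]
  exact Nat.mod_lt _ (by norm_num)

theorem fld_or (A B p : Nat) : fld (Nat.lor A B) p = fld A p ||| fld B p := by
  apply Nat.eq_of_testBit_eq
  intro i
  rw [Nat.testBit_or, fld_bit, fld_bit, fld_bit, lor_eq, Nat.testBit_or]
  cases decide (i < 36) <;> simp

theorem fld_zero (p : Nat) : fld 0 p = 0 := by
  apply Nat.eq_of_testBit_eq
  intro i
  rw [fld_bit, Nat.zero_testBit, Nat.zero_testBit, Bool.and_false]

/-- bits above the size -/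
theorem tb_lt {y n i : Nat} (h : y < 2 ^ n) (hi : n ≤ i) : Nat.testBit y i = false :=
  Nat.testBit_lt_two_pow (lt_of_lt_of_le h (Nat.pow_le_pow_right (by norm_num) hi))

theorem fld_shl {y : Nat} (hy : y < 2 ^ 36) (p q : Nat) :
    fld (Nat.shiftLeft y (Nat.mul 36 p)) q = if q = p then y else 0 := by
  apply Nat.eq_of_testBit_eq
  intro i
  rw [fld_bit]
  show (decide (i < 36) && Nat.testBit (y <<< (36 * p)) (36 * q + i)) = _
  rw [Nat.testBit_shiftLeft]
  by_cases hi : i < 36
  · by_cases h : q = p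
    · rw [if_pos h, h, decide_eq_true hi, decide_eq_true (by omega), Nat.add_sub_cancel_left]
      simp
    · rw [if_neg h, Nat.zero_testBit]
      by_cases h1 : q < p
      · rw [decide_eq_false (p := 36 * q + i ≥ 36 * p) (by omega)]
        simp
      · rw [tb_lt hy (by omega)]
        simp
  · rw [decide_eq_false hi, Bool.false_and]
    split_ifs
    · exact (tb_lt hy (by omega)).symm
    · exact (Nat.zero_testBit i).symm

theorem fld_shr (y i : Nat) : fld (Nat.shiftRight y 36) i = fld y (i + 1) := by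
  apply Nat.eq_of_testBit_eq
  intro j
  rw [fld_bit, fld_bit]
  show (decide (j < 36) && Nat.testBit (y >>> 36) (36 * i + j)) = _
  rw [Nat.testBit_shiftRight]
  congr 2
  ring

/-- a field of the turned number -/
theorem fld_turn {M d r s : Nat} (hM : M < 2 ^ (36 * d)) (hr : r ≤ d) (hs : s < d) :
    fld (Nat.mod (Nat.shiftRight (Nat.lor M (Nat.shiftLeft M (Nat.mul 36 d))) (Nat.mul 36 r))
      (Nat.pow 2 (Nat.mul 36 d))) s = fld M ((r + s) % d) := by
  apply Nat.eq_of_testBit_eq
  intro i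
  rw [fld_bit, fld_bit]
  by_cases hi : i < 36
  · rw [decide_eq_true hi, Bool.true_and, Bool.true_and]
    show Nat.testBit (((M ||| (M <<< (36 * d))) >>> (36 * r)) % 2 ^ (36 * d)) (36 * s + i) = _
    rw [Nat.testBit_mod_two_pow, decide_eq_true (by omega), Bool.true_and,
      Nat.testBit_shiftRight, Nat.testBit_or, Nat.testBit_shiftLeft]
    by_cases h : r + s < d
    · rw [decide_eq_false (p := 36 * r + (36 * s + i) ≥ 36 * d) (by omega), Bool.false_and,
        Bool.or_false, Nat.mod_eq_of_lt h]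
      congr 1
      ring
    · rw [tb_lt hM (i := 36 * r + (36 * s + i)) (by omega), Bool.false_or,
        decide_eq_true (by omega), Bool.true_and]
      have h1 : (r + s) % d = r + s - d := by
        rw [Nat.mod_eq_sub_mod (by omega), Nat.mod_eq_of_lt (by omega)]
      rw [h1]
      congr 1
      omega
  · rw [decide_eq_false hi, Bool.false_and, Bool.false_and]

theorem fld_high {M d s : Nat} (hs : d ≤ s) :
    fld (Nat.mod M (Nat.pow 2 (Nat.mul 36 d))) s = 0 := by
  apply Nat.eq_of_testBit_eq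
  intro i
  rw [fld_bit, Nat.zero_testBit]
  have h1 : Nat.mod M (Nat.pow 2 (Nat.mul 36 d)) < 2 ^ (36 * d) := by
    show M % 2 ^ (36 * d) < 2 ^ (36 * d)
    exact Nat.mod_lt _ (by positivity)
  rw [tb_lt h1 (by omega), Bool.and_false]

theorem or_self_pow {y n : Nat} (h : y < 2 ^ n) : (2 ^ n - 1) ||| y = 2 ^ n - 1 := by
  apply Nat.eq_of_testBit_eq
  intro i
  rw [Nat.testBit_or, Nat.testBit_two_pow_sub_one]
  by_cases hi : i < n
  · rw [decide_eq_true hi, Bool.true_or]
  · rw [decide_eq_false hi, Bool.false_or, tb_lt h (by omega)]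

theorem plu_eq : plu = 2 ^ 36 - 1 := by unfold plu; norm_num

end fields

section lists

/-- the neighbours of a fact -/
theorem mem_dnb : ∀ (k s y : Nat) (p : Nat × List Nat), p ∈ dnb k s y →
    ∃ i < k, p.1 = s + i ∧ fld y i ≠ 0 ∧
      ((fld y i = plu ∧ p.2 = []) ∨ (fld y i ≠ plu ∧ p.2 = dW (fld y i)))
  | 0, s, y, p, h => by
    have h' : p ∈ ([] : List (Nat × List Nat)) := h
    simp at h'
  | k + 1, s, y, p, h => by
    have e0 : fld y 0 = Nat.mod y 68719476736 := by
      show (y >>> (36 * 0)) % 68719476736 = _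
      rw [Nat.mul_zero, Nat.shiftRight_zero]; rfl
    have h' : p ∈ (Bool.rec (motive := fun _ => List (Nat × List Nat))
      (Bool.rec (motive := fun _ => List (Nat × List Nat))
        ((s, dW (Nat.mod y 68719476736)) :: dnb k (Nat.add s 1) (Nat.shiftRight y 36))
        ((s, []) :: dnb k (Nat.add s 1) (Nat.shiftRight y 36))
        (Nat.beq (Nat.mod y 68719476736) plu))
      (dnb k (Nat.add s 1) (Nat.shiftRight y 36))
      (Nat.beq (Nat.mod y 68719476736) 0) : List (Nat × List Nat)) := h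
    rw [← e0] at h'
    have ih : p ∈ dnb k (Nat.add s 1) (Nat.shiftRight y 36) → ∃ i < k + 1, p.1 = s + i ∧
        fld y i ≠ 0 ∧ ((fld y i = plu ∧ p.2 = []) ∨ (fld y i ≠ plu ∧ p.2 = dW (fld y i))) := by
      intro hp
      obtain ⟨i, h1, h2, h3, h4⟩ := mem_dnb k _ _ p hp
      rw [fld_shr] at h3 h4
      refine ⟨i + 1, by omega, ?_, h3, h4⟩
      rw [h2]
      show s + 1 + i = s + (i + 1)
      omega
    cases hz : Nat.beq (fld y 0) 0 with
    | true =>
      rw [hz] at h'
      exact ih h'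
    | false =>
      rw [hz] at h'
      have z : fld y 0 ≠ 0 := Nat.ne_of_beq_eq_false hz
      cases hp : Nat.beq (fld y 0) plu with
      | true =>
        rw [hp] at h'
        rcases List.mem_cons.1 h' with h1 | h1
        · exact ⟨0, by omega, by rw [h1]; rfl, z, Or.inl ⟨Nat.eq_of_beq_eq_true hp, by rw [h1]⟩⟩
        · exact ih h1
      | false =>
        rw [hp] at h'
        rcases List.mem_cons.1 h' with h1 | h1
        · exact ⟨0, by omega, by rw [h1]; rfl, z, Or.inr ⟨Nat.ne_of_beq_eq_false hp, by rw [h1]⟩⟩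
        · exact ih h1

/-- the facts of a packed list -/
theorem mem_dFa {N j : Nat} (hj : nX N j ≠ 0) : ∀ (k j0 : Nat), j0 ≤ j → j < j0 + k →
    dX (Nat.mod N 16) (nX N j) ∈ dFa N k j0
  | 0, j0, h1, h2 => by omega
  | k + 1, j0, h1, h2 => by
    have e : dFa N (k + 1) j0 = Bool.rec (motive := fun _ => List Fct)
      (dX (Nat.mod N 16) (nX N j0) :: dFa N k (Nat.add j0 1))
      (dFa N k (Nat.add j0 1)) (Nat.beq (nX N j0) 0) := rfl
    rw [e]
    by_cases h : j = j0
    · have hz : Nat.beq (nX N j0) 0 = false := by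
        rw [← Bool.not_eq_true]
        intro h0
        exact hj (by rw [h]; exact Nat.eq_of_beq_eq_true h0)
      rw [hz, h]
      exact List.mem_cons_self ..
    · have ih := mem_dFa hj k (Nat.add j0 1) (show j0 + 1 ≤ j by omega)
        (show j < j0 + 1 + k by omega)
      cases Nat.beq (nX N j0) 0 with
      | true => exact ih
      | false => exact List.mem_cons_of_mem _ ih

theorem mem_dF {N j : Nat} (hj : nX N j ≠ 0) (h : j < 32) : dX (Nat.mod N 16) (nX N j) ∈ dF N :=
  mem_dFa hj 32 0 (Nat.zero_le _) (by omega)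

/-- letters from a number, with fuel -/
def dWk (k n : Nat) : List Nat :=
  Nat.rec (motive := fun _ => Nat → List Nat) (fun _ => [])
    (fun _ ih m => Bool.rec (motive := fun _ => List Nat)
      (Nat.sub (Nat.mod m 64) 1 :: ih (Nat.shiftRight m 6)) [] (Nat.beq m 0)) k n

theorem dW_eq (n : Nat) : dW n = dWk 8 n := rfl

theorem dWk_zero' (k : Nat) : dWk k 0 = [] := by cases k <;> rfl

theorem dWk_succ {k n : Nat} (h : n ≠ 0) : dWk (k + 1) n = (n % 64 - 1) :: dWk k (n / 64) := by
  have e : dWk (k + 1) n = Bool.rec (motive := fun _ => List Nat)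
      (Nat.sub (Nat.mod n 64) 1 :: dWk k (Nat.shiftRight n 6)) [] (Nat.beq n 0) := rfl
  have hz : Nat.beq n 0 = false := by
    rw [← Bool.not_eq_true]
    intro h0
    exact h (Nat.eq_of_beq_eq_true h0)
  rw [e, hz]
  show (n % 64 - 1) :: dWk k (n >>> 6) = _
  rw [Nat.shiftRight_eq_div_pow]

theorem dWk_lt : ∀ (k n : Nat), ∀ g ∈ dWk k n, g < 64
  | 0, n, g, h => by
    have h' : g ∈ ([] : List Nat) := h
    simp at h'
  | k + 1, n, g, h => by
    by_cases hn : n = 0
    · rw [hn, dWk_zero'] at h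
      simp at h
    · rw [dWk_succ hn] at h
      rcases List.mem_cons.1 h with h1 | h1
      · have := Nat.mod_lt n (show 0 < 64 by norm_num)
        omega
      · exact dWk_lt k _ g h1

/-- digits with base 64 -/
def e64 : List Nat → Nat
  | [] => 0
  | x :: l => x + 64 * e64 l

theorem dWk_e64 : ∀ (l : List Nat) (k : Nat), l.length ≤ k → (∀ x ∈ l, 0 < x ∧ x < 64) →
    dWk k (e64 l) = l.map fun x => x - 1
  | [], k, _, _ => dWk_zero' k
  | x :: l, 0, h, _ => by simp at h
  | x :: l, k + 1, h, hx => by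
    have h1 := hx x (List.mem_cons_self ..)
    have e : e64 (x :: l) = x + 64 * e64 l := rfl
    rw [dWk_succ (by rw [e]; omega), e, List.map_cons]
    have a1 : (x + 64 * e64 l) % 64 = x := by omega
    have a2 : (x + 64 * e64 l) / 64 = e64 l := by omega
    rw [a1, a2, dWk_e64 l k (by simpa using h) fun y hy => hx y (List.mem_cons_of_mem _ hy)]

theorem e64_lt : ∀ (l : List Nat), (∀ x ∈ l, x < 64) → e64 l < 64 ^ l.length
  | [], _ => by simp [e64]
  | x :: l, h => by
    have h1 := e64_lt l fun y hy => h y (List.mem_cons_of_mem _ hy)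
    have h2 := h x (List.mem_cons_self ..)
    have e : e64 (x :: l) = x + 64 * e64 l := rfl
    rw [e, List.length_cons, pow_succ]
    omega

/-- not all ones -/
theorem e64_ne {l : List Nat} (h0 : l ≠ []) (h : ∀ x ∈ l, x < 63) : e64 l ≠ plu := by
  cases l with
  | nil => exact absurd rfl h0
  | cons x l =>
    have h2 := h x (List.mem_cons_self ..)
    have e : e64 (x :: l) = x + 64 * e64 l := rfl
    rw [e]
    unfold plu
    omega

/-- letters of the facts for a blind code, with fuel -/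
def fcdk (T k b : Nat) : Nat :=
  Nat.rec (motive := fun _ => Nat → Nat) (fun _ => 0)
    (fun _ ih b => Bool.rec (motive := fun _ => Nat)
      (Nat.add (tg6 T (Nat.mod b 32)) (Nat.mul 64 (ih (Nat.div b 32)))) 0 (Nat.beq b 0)) k b

theorem fcd_eq (T b : Nat) : fcd T b = fcdk T 6 b := rfl

theorem fcdk_zero (T k : Nat) : fcdk T k 0 = 0 := by cases k <;> rfl

theorem fcdk_succ {T k b : Nat} (h : b ≠ 0) :
    fcdk T (k + 1) b = tg6 T (b % 32) + 64 * fcdk T k (b / 32) := by
  have e : fcdk T (k + 1) b = Bool.rec (motive := fun _ => Nat)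
      (Nat.add (tg6 T (Nat.mod b 32)) (Nat.mul 64 (fcdk T k (Nat.div b 32)))) 0
        (Nat.beq b 0) := rfl
  have hz : Nat.beq b 0 = false := by
    rw [← Bool.not_eq_true]
    intro h0
    exact h (Nat.eq_of_beq_eq_true h0)
  rw [e, hz]
  rfl

theorem tg6_lt (T x : Nat) : tg6 T x < 64 := Nat.mod_lt _ (by norm_num)

theorem fcdk_lt (T : Nat) : ∀ (k b : Nat), fcdk T k b < 64 ^ k
  | 0, b => by
    have e : fcdk T 0 b = 0 := rfl
    rw [e]; norm_num
  | k + 1, b => by
    by_cases h : b = 0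
    · rw [h, fcdk_zero]; positivity
    · rw [fcdk_succ h, pow_succ]
      have h1 := fcdk_lt T k (b / 32)
      have h2 := tg6_lt T (b % 32)
      omega

theorem fcdk_enc (T : Nat) : ∀ (w : List Nat) (k : Nat), Sm w → w.length ≤ k →
    fcdk T k (enc w) = e64 (w.map fun x => tg6 T (x + 1))
  | [], k, _, _ => fcdk_zero T k
  | x :: w, 0, _, h => by simp at h
  | x :: w, k + 1, hs, h => by
    have hx := hs x (List.mem_cons_self ..)
    have e : e64 ((x :: w).map fun x => tg6 T (x + 1)) =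
      tg6 T (x + 1) + 64 * e64 (w.map fun x => tg6 T (x + 1)) := rfl
    rw [fcdk_succ (by rw [enc_cons]; omega), e, enc_cons]
    have a1 : (x + 1 + 32 * enc w) % 32 = x + 1 := by omega
    have a2 : (x + 1 + 32 * enc w) / 32 = enc w := by omega
    rw [a1, a2, fcdk_enc T w k (fun y hy => hs y (List.mem_cons_of_mem _ hy)) (by simpa using h)]

/-- the letters in the opposite order, with fuel -/
def fcmk (T k b a : Nat) : Nat :=
  Nat.rec (motive := fun _ => Nat → Nat → Nat) (fun _ a => a)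
    (fun _ ih b a => Bool.rec (motive := fun _ => Nat)
      (ih (Nat.div b 32) (Nat.add (Nat.mul 64 a) (tg6 T (Nat.mod b 32)))) a (Nat.beq b 0)) k b a

theorem fcm_eq (T b : Nat) : fcm T b = fcmk T 6 b 0 := rfl

theorem fcmk_zero (T k a : Nat) : fcmk T k 0 a = a := by cases k <;> rfl

theorem fcmk_succ {T k b a : Nat} (h : b ≠ 0) :
    fcmk T (k + 1) b a = fcmk T k (b / 32) (64 * a + tg6 T (b % 32)) := by
  have e : fcmk T (k + 1) b a = Bool.rec (motive := fun _ => Nat)
      (fcmk T k (Nat.div b 32) (Nat.add (Nat.mul 64 a) (tg6 T (Nat.mod b 32)))) a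
        (Nat.beq b 0) := rfl
  have hz : Nat.beq b 0 = false := by
    rw [← Bool.not_eq_true]
    intro h0
    exact h (Nat.eq_of_beq_eq_true h0)
  rw [e, hz]
  rfl

theorem fcmk_lt (T : Nat) : ∀ (k b a : Nat), fcmk T k b a < 64 ^ k * (a + 1)
  | 0, b, a => by
    have e : fcmk T 0 b a = a := rfl
    rw [e]; omega
  | k + 1, b, a => by
    by_cases h : b = 0
    · rw [h, fcmk_zero]
      have : 1 ≤ 64 ^ (k + 1) := Nat.one_le_pow _ _ (by norm_num)
      nlinarith
    · rw [fcmk_succ h, pow_succ]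
      have h1 := fcmk_lt T k (b / 32) (64 * a + tg6 T (b % 32))
      have h2 := tg6_lt T (b % 32)
      have h3 : 64 ^ k * (64 * a + tg6 T (b % 32) + 1) ≤ 64 ^ k * (64 * (a + 1)) :=
        Nat.mul_le_mul_left _ (by omega)
      calc _ < _ := h1
        _ ≤ _ := h3
        _ = _ := by ring

theorem fcmk_enc (T : Nat) : ∀ (w : List Nat) (k : Nat) (l : List Nat), Sm w → w.length ≤ k →
    fcmk T k (enc w) (e64 l) = e64 ((w.map fun x => tg6 T (x + 1)).reverse ++ l)
  | [], k, l, _, _ => fcmk_zero T k _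
  | x :: w, 0, l, _, h => by simp at h
  | x :: w, k + 1, l, hs, h => by
    have hx := hs x (List.mem_cons_self ..)
    rw [fcmk_succ (by rw [enc_cons]; omega), enc_cons]
    have a1 : (x + 1 + 32 * enc w) % 32 = x + 1 := by omega
    have a2 : (x + 1 + 32 * enc w) / 32 = enc w := by omega
    have a3 : 64 * e64 l + tg6 T (x + 1) = e64 (tg6 T (x + 1) :: l) := by
      show _ = tg6 T (x + 1) + 64 * e64 l
      omega
    rw [a1, a2, a3, fcmk_enc T w k _ (fun y hy => hs y (List.mem_cons_of_mem _ hy))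
      (by simpa using h)]
    simp

end lists

section masks

theorem fml_bit : ∀ (w : List Nat) (a i : Nat), i < w.length →
    Nat.testBit (fml w a) (a + 64 * i + w.getD i 0) = true
  | [], a, i, h => by simp at h
  | g :: w, a, i, h => by
    have e : fml (g :: w) a = Nat.lor (Nat.shiftLeft 1 (Nat.add a g)) (fml w (Nat.add a 64)) := rfl
    rw [e, lor_eq, shl_one, Nat.testBit_or, Bool.or_eq_true]
    cases i with
    | zero =>
      left
      rw [Nat.testBit_two_pow, decide_eq_true_eq]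
      simp
    | succ i =>
      right
      have := fml_bit w (a + 64) i (by simpa using h)
      rw [List.getD_cons_succ]
      have e2 : a + 64 * (i + 1) + w.getD i 0 = a + 64 + 64 * i + w.getD i 0 := by ring
      rw [e2]
      exact this

theorem avl_bit {lv : Nat → Nat} (hl : ∀ v g, Nat.testBit (lv v) g = true → g < 64) :
    ∀ (V : List Nat) (r q g : Nat), g < 64 → Nat.testBit (avl lv V r) (64 * q + g) = true →
    (q < V.length ∧ Nat.testBit (lv (V.getD q 0)) g = true) ∨
      (V.length ≤ q ∧ Nat.testBit r (64 * (q - V.length) + g) = true)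
  | [], r, q, g, _, h => Or.inr ⟨Nat.zero_le _, by
    have h' : Nat.testBit r (64 * q + g) = true := h
    simpa using h'⟩
  | v :: V, r, q, g, hg, h => by
    have e : avl lv (v :: V) r = Nat.lor (lv v) (Nat.shiftLeft (avl lv V r) 64) := rfl
    rw [e, lor_eq, Nat.testBit_or, Bool.or_eq_true] at h
    rcases h with h | h
    · left
      have h1 := hl _ _ h
      have h2 : q = 0 := by omega
      subst h2
      refine ⟨by simp, ?_⟩
      simpa using h
    · have h' : Nat.testBit ((avl lv V r) <<< 64) (64 * q + g) = true := h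
      rw [Nat.testBit_shiftLeft, Bool.and_eq_true, decide_eq_true_eq] at h'
      obtain ⟨h1, h2⟩ := h'
      have h3 : q ≠ 0 := by omega
      obtain ⟨q, rfl⟩ := Nat.exists_eq_succ_of_ne_zero h3
      have h4 : 64 * (q + 1) + g - 64 = 64 * q + g := by omega
      rw [Nat.succ_eq_add_one, h4] at h2
      rcases avl_bit hl V r q g hg h2 with ⟨h5, h6⟩ | ⟨h5, h6⟩
      · left
        refine ⟨by simpa using h5, ?_⟩
        rw [Nat.succ_eq_add_one, List.getD_cons_succ]; exact h6
      · right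
        refine ⟨by simpa using h5, ?_⟩
        have : q.succ - (v :: V).length = q - V.length := by
          rw [List.length_cons]; omega
        rw [this]; exact h6

theorem av2_bit {lv : Nat → Nat} (hl : ∀ v g, Nat.testBit (lv v) g = true → g < 64)
    {V : List Nat} {q g : Nat} (hg : g < 64) (h : Nat.testBit (av2 lv V) (64 * q + g) = true) :
    q < 2 * V.length ∧ Nat.testBit (lv (V.getD (q % V.length) 0)) g = true := by
  unfold av2 at h
  rcases avl_bit hl V _ q g hg h with ⟨h1, h2⟩ | ⟨h1, h2⟩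
  · refine ⟨by omega, ?_⟩
    rw [Nat.mod_eq_of_lt h1]; exact h2
  · rcases avl_bit hl V _ _ g hg h2 with ⟨h3, h4⟩ | ⟨h3, h4⟩
    · refine ⟨by omega, ?_⟩
      have : q % V.length = q - V.length := by
        rw [Nat.mod_eq_sub_mod h1, Nat.mod_eq_of_lt h3]
      rw [this]; exact h4
    · rw [Nat.zero_testBit] at h4
      exact absurd h4 (by decide)

theorem rvl_eq (V : List Nat) : rvl V = V.reverse := by
  have key : ∀ (V a : List Nat), List.rec (motive := fun _ => List Nat → List Nat) (fun a => a)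
      (fun v _ ih a => ih (v :: a)) V a = V.reverse ++ a := by
    intro V
    induction V with
    | nil => intro a; rfl
    | cons v V ih =>
      intro a
      show List.rec (motive := fun _ => List Nat → List Nat) (fun a => a)
        (fun v _ ih a => ih (v :: a)) V (v :: a) = _
      rw [ih]
      simp
  unfold rvl
  rw [key, List.append_nil]

end masks


section sound

variable {D : Type*} {cmp cmp' cmpS : Nat → Nat → Bool} {sol sol' lng : Nat → Bool}
  {S : Sys D} {cc f : Nat → Nat} {P : Pn} {le : Nat → Nat → Bool} {ml : Nat → Nat}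
  {lv lm FN : Nat → Nat} {T Tm : Nat} {e : D}

/-- the tables of the masks and of the letters are correct -/
structure Hw (S : Sys D) (cc f : Nat → Nat) (P : Pn) (ml lv lm : Nat → Nat) (T Tm : Nat) :
    Prop where
  lv : ∀ v g, Nat.testBit (lv v) g = true → g < 64 ∧ P.lev g v = true
  lm : ∀ v g, Nat.testBit (lm v) g = true → g < 64 ∧ P.lev (ml g) v = true
  ft : ∀ e, ∀ x ∈ S.W e, 0 < tg6 T (f (cc x) + 1) ∧ tg6 T (f (cc x) + 1) < 63 ∧
    P.leb (tg6 T (f (cc x) + 1) - 1) (f (cc x)) = true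
  fm : ∀ e, ∀ x ∈ S.W e, 0 < tg6 Tm (f (cc x) + 1) ∧ tg6 Tm (f (cc x) + 1) < 63 ∧
    P.leb (ml (tg6 Tm (f (cc x) + 1) - 1)) (f (cc x)) = true

/-- the field `y` is correct for the neighbour at the position `p` -/
def Vf (P : Pn) (S : Sys D) (cc : Nat → Nat) (e : D) (F : Nat → Nat) (p y : Nat) : Prop :=
  y = 0 ∨ (1 < P.nfy (S.mp cc) e p ∧ y = F (lo (P.nfy (S.mp cc) e p))) ∨
    (y = plu ∧ P.nfy (S.mp cc) e p < 4294967296)

/-- all fields are correct -/
def Vo (P : Pn) (S : Sys D) (cc : Nat → Nat) (T : Nat) (e : D) (MV : Nat) : Prop :=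
  MV < 2 ^ (36 * (S.W e).length) ∧ ∀ p < (S.W e).length, Vf P S cc e (fcd T) p (fld MV p)

/-- all fields are correct, opposite order -/
def Wo (P : Pn) (S : Sys D) (cc : Nat → Nat) (Tm : Nat) (e : D) (MW : Nat) : Prop :=
  MW < 2 ^ (36 * (S.W e).length) ∧ ∀ p < (S.W e).length,
    Vf P S cc e (fcm Tm) p (fld MW (((S.W e).length - p) % (S.W e).length))

theorem Vo.zero (he : S.W e ≠ []) : Vo P S cc T e 0 :=
  ⟨by positivity, fun p _ => Or.inl (fld_zero p)⟩

theorem Wo.zero (he : S.W e ≠ []) : Wo P S cc Tm e 0 :=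
  ⟨by positivity, fun p _ => Or.inl (fld_zero _)⟩

theorem Vf.or {F : Nat → Nat} {p x y : Nat} (hx : x < 2 ^ 36) (hy : y < 2 ^ 36)
    (h1 : Vf P S cc e F p x) (h2 : Vf P S cc e F p y) : Vf P S cc e F p (x ||| y) := by
  rcases h1 with h1 | ⟨a1, a2⟩ | ⟨a1, a2⟩
  · rw [h1, Nat.zero_or]; exact h2
  · rcases h2 with h2 | ⟨b1, b2⟩ | ⟨b1, b2⟩
    · rw [h2, Nat.or_zero]; exact Or.inr (Or.inl ⟨a1, a2⟩)
    · refine Or.inr (Or.inl ⟨a1, ?_⟩)
      rw [a2, b2, Nat.or_self]
    · refine Or.inr (Or.inr ⟨?_, b2⟩)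
      rw [b1, plu_eq, Nat.or_comm, or_self_pow hx]
  · refine Or.inr (Or.inr ⟨?_, a2⟩)
    rw [a1, plu_eq, or_self_pow hy]

theorem Vo.lor {A B : Nat} (hA : Vo P S cc T e A) (hB : Vo P S cc T e B) :
    Vo P S cc T e (Nat.lor A B) :=
  ⟨Nat.or_lt_two_pow hA.1 hB.1, fun p hp => by
    rw [fld_or]
    exact Vf.or (fld_lt _ _) (fld_lt _ _) (hA.2 p hp) (hB.2 p hp)⟩

theorem Wo.lor {A B : Nat} (hA : Wo P S cc Tm e A) (hB : Wo P S cc Tm e B) :
    Wo P S cc Tm e (Nat.lor A B) :=
  ⟨Nat.or_lt_two_pow hA.1 hB.1, fun p hp => by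
    rw [fld_or]
    exact Vf.or (fld_lt _ _) (fld_lt _ _) (hA.2 p hp) (hB.2 p hp)⟩

theorem fcd_lt (T b : Nat) : fcd T b < 2 ^ 36 := by
  have h := fcdk_lt T 6 b
  rw [fcd_eq]
  omega

theorem fcm_lt (T b : Nat) : fcm T b < 2 ^ 36 := by
  have h := fcmk_lt T 6 b 0
  rw [fcm_eq]
  omega

theorem Vf.lt {F : Nat → Nat} {p y : Nat} (hF : ∀ b, F b < 2 ^ 36)
    (h : Vf P S cc e F p y) : y < 2 ^ 36 := by
  rcases h with h | ⟨-, h⟩ | ⟨h, -⟩
  · rw [h]; norm_num
  · rw [h]; exact hF _
  · rw [h, plu_eq]; norm_num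

theorem shl_lt {y p d : Nat} (hy : y < 2 ^ 36) (hp : p < d) :
    Nat.shiftLeft y (Nat.mul 36 p) < 2 ^ (36 * d) := by
  show y <<< (36 * p) < 2 ^ (36 * d)
  rw [Nat.shiftLeft_eq]
  calc y * 2 ^ (36 * p) < 2 ^ 36 * 2 ^ (36 * p) :=
        Nat.mul_lt_mul_of_pos_right hy (by positivity)
    _ = 2 ^ (36 + 36 * p) := by rw [← pow_add]
    _ ≤ 2 ^ (36 * d) := Nat.pow_le_pow_right (by norm_num) (by omega)

/-- one field -/
theorem Vo.one (hw : Hw S cc f P ml lv lm T Tm)
    (hv : Hv cmpS cmp cmp' sol sol' S cc f P le) {p y : Nat} (hp : p < (S.W e).length)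
    (hy : Vf P S cc e (fcd T) p y) : Vo P S cc T e (Nat.shiftLeft y (Nat.mul 36 p)) := by
  have h1 : y < 2 ^ 36 := Vf.lt (fcd_lt T) hy
  refine ⟨shl_lt h1 hp, fun q _ => ?_⟩
  rw [fld_shl h1]
  by_cases h : q = p
  · rw [if_pos h, h]; exact hy
  · rw [if_neg h]; exact Or.inl rfl

theorem mod_inj {d p q : Nat} (hp : p < d) (hq : q < d) (h : (d - q) % d = (d - p) % d) :
    q = p := by
  by_cases h1 : p = 0
  · by_cases h2 : q = 0
    · omega
    · rw [h1, Nat.sub_zero, Nat.mod_self, Nat.mod_eq_of_lt (by omega)] at h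
      omega
  · by_cases h2 : q = 0
    · rw [h2, Nat.sub_zero, Nat.mod_self, Nat.mod_eq_of_lt (by omega)] at h
      omega
    · rw [Nat.mod_eq_of_lt (by omega), Nat.mod_eq_of_lt (by omega)] at h
      omega

theorem Wo.one (hw : Hw S cc f P ml lv lm T Tm)
    (hv : Hv cmpS cmp cmp' sol sol' S cc f P le) {p y : Nat} (hp : p < (S.W e).length)
    (hy : Vf P S cc e (fcm Tm) p y) : Wo P S cc Tm e (Nat.shiftLeft y
      (Nat.mul 36 (Nat.mod (Nat.sub (S.W e).length p) (S.W e).length))) := by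
  have h1 : y < 2 ^ 36 := Vf.lt (fcm_lt Tm) hy
  refine ⟨shl_lt h1 (Nat.mod_lt _ (by omega)), fun q hq => ?_⟩
  rw [fld_shl h1]
  by_cases h : q = p
  · rw [if_pos (by rw [h]; rfl), h]; exact hy
  · rw [if_neg (show ¬ ((S.W e).length - q) % (S.W e).length = Nat.mod (Nat.sub (S.W e).length p)
      (S.W e).length from fun h2 => h (mod_inj hp hq h2))]
    exact Or.inl rfl

theorem lew_mapl {g : Nat → Nat} : ∀ {w : List Nat}, (∀ x ∈ w, le (g x) x = true) →
    lew le (w.map g) w = true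
  | [], _ => rfl
  | x :: w, h => by
    show (le (g x) x && lew le (w.map g) w) = true
    rw [h x (List.mem_cons_self ..), lew_mapl fun y hy => h y (List.mem_cons_of_mem _ hy)]
    rfl

/-- the word of a neighbour with a code -/
theorem nfy_word (hv : Hv cmpS cmp cmp' sol sol' S cc f P le) {q : Nat}
    (h : 1 < P.nfy (S.mp cc) e q) : S.W (S.al (S.nx^[q] e)) ≠ [] ∧
      lo (P.nfy (S.mp cc) e q) = enc (((S.W (S.al (S.nx^[q] e))).map cc).map f) := by
  have hY := hv.h2.ok
  have n1 : (S.mp cc).W ((S.mp cc).al ((S.mp cc).nx^[q] e)) ≠ [] := by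
    intro h0
    have : P.nfy (S.mp cc) e q = 1 := nf_nil h0
    omega
  have n2 : S.W (S.al (S.nx^[q] e)) ≠ [] := mp_ne.1 n1
  have e1 : P.nfy (S.mp cc) e q = nfc P.Q.bm P.Q.wm P.Q.sm
    ((S.mp cc).c ((S.mp cc).al ((S.mp cc).nx^[q] e))) := nf_ne n1
  refine ⟨n2, ?_⟩
  rw [e1, lo_nfc (hv.h2.hb.lt hY _), hv.h2.hb.bl hY]
  rfl

theorem nfy_pls (hv : Hv cmpS cmp cmp' sol sol' S cc f P le) {q : Nat}
    (h : P.nfy (S.mp cc) e q < 4294967296) : Pls sol (S.W (S.al (S.nx^[q] e))) := by
  have h1 : Nat.ble 4294967296 ((S.mp cc).nf P.Q.bm P.Q.wm P.Q.sm e q) = false := by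
    rw [← Bool.not_eq_true]
    intro h2
    have h3 := Nat.le_of_ble_eq_true h2
    have h4 : P.nfy (S.mp cc) e q = (S.mp cc).nf P.Q.bm P.Q.wm P.Q.sm e q := rfl
    omega
  have h2 := pls_nf (S := S.mp cc) (f := f) hv.h2.ok hv.h2.hb hv.h2.hsm h1
  exact pls_mp (hv.sol _) h2

/-- the letters of a word -/
theorem dW_fcd (hw : Hw S cc f P ml lv lm T Tm) (hv : Hv cmpS cmp cmp' sol sol' S cc f P le)
    (z : D) (hz : S.W z ≠ []) :
    dW (fcd T (enc (((S.W z).map cc).map f))) =
      (S.W z).map (fun x => tg6 T (f (cc x) + 1) - 1) ∧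
    fcd T (enc (((S.W z).map cc).map f)) ≠ plu := by
  have hl : (((S.W z).map cc).map f).length ≤ 6 := by
    rw [List.length_map, List.length_map]
    exact len6 hv.hS z
  have hs : Sm (((S.W z).map cc).map f) := hv.h2.hb.sm' z
  rw [fcd_eq, fcdk_enc T _ 6 hs hl]
  have hm : ∀ y ∈ ((((S.W z).map cc).map f).map fun x => tg6 T (x + 1)), 0 < y ∧ y < 63 := by
    intro y hy
    simp only [List.map_map, List.mem_map, Function.comp] at hy
    obtain ⟨x, hx, rfl⟩ := hy
    exact ⟨(hw.ft z x hx).1, (hw.ft z x hx).2.1⟩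
  constructor
  · rw [dW_eq, dWk_e64 _ 8 (by rw [List.length_map]; omega) (fun y hy =>
      ⟨(hm y hy).1, by have := (hm y hy).2; omega⟩)]
    simp only [List.map_map]
    rfl
  · apply e64_ne
    · simp only [ne_eq, List.map_eq_nil_iff]; exact hz
    · exact fun y hy => (hm y hy).2

/-- the letters of a word, mirror image -/
theorem dW_fcm (hw : Hw S cc f P ml lv lm T Tm) (hv : Hv cmpS cmp cmp' sol sol' S cc f P le)
    (z : D) (hz : S.W z ≠ []) :
    mirw ml (dW (fcm Tm (enc (((S.W z).map cc).map f)))) =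
      (S.W z).map (fun x => ml (tg6 Tm (f (cc x) + 1) - 1)) ∧
    fcm Tm (enc (((S.W z).map cc).map f)) ≠ plu := by
  have hl : (((S.W z).map cc).map f).length ≤ 6 := by
    rw [List.length_map, List.length_map]
    exact len6 hv.hS z
  have hs : Sm (((S.W z).map cc).map f) := hv.h2.hb.sm' z
  have h0 := fcmk_enc Tm _ 6 [] hs hl
  rw [List.append_nil] at h0
  have h1 : fcm Tm (enc (((S.W z).map cc).map f)) =
      e64 ((((S.W z).map cc).map f).map fun x => tg6 Tm (x + 1)).reverse := h0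
  rw [h1]
  have hm : ∀ y ∈ ((((S.W z).map cc).map f).map fun x => tg6 Tm (x + 1)).reverse,
      0 < y ∧ y < 63 := by
    intro y hy
    rw [List.mem_reverse] at hy
    simp only [List.map_map, List.mem_map, Function.comp] at hy
    obtain ⟨x, hx, rfl⟩ := hy
    exact ⟨(hw.fm z x hx).1, (hw.fm z x hx).2.1⟩
  constructor
  · rw [dW_eq, dWk_e64 _ 8 (by rw [List.length_reverse, List.length_map]; omega) (fun y hy =>
      ⟨(hm y hy).1, by have := (hm y hy).2; omega⟩)]
    unfold mirw
    rw [List.map_reverse, List.map_reverse, List.reverse_reverse]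
    simp only [List.map_map]
    rfl
  · apply e64_ne
    · simp only [ne_eq, List.reverse_eq_nil_iff, List.map_eq_nil_iff]; exact hz
    · exact fun y hy => (hm y hy).2

/-- a neighbour, from a field -/
theorem vf_nb (hw : Hw S cc f P ml lv lm T Tm) (hv : Hv cmpS cmp cmp' sol sol' S cc f P le)
    {q y : Nat} (h : Vf P S cc e (fcd T) q y) (h0 : y ≠ 0) {w : List Nat}
    (hy : (y = plu ∧ w = []) ∨ (y ≠ plu ∧ w = dW y)) :
    (w = [] → Pls sol (S.W (S.al (S.nx^[q] e)))) ∧
    (w ≠ [] → lew le w (S.W (S.al (S.nx^[q] e))) = true) := by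
  rcases h with h | ⟨a1, a2⟩ | ⟨a1, a2⟩
  · exact absurd h h0
  · obtain ⟨b1, b2⟩ := nfy_word hv a1
    rw [b2] at a2
    obtain ⟨c1, c2⟩ := dW_fcd hw hv _ b1
    rcases hy with ⟨hy, -⟩ | ⟨-, hy⟩
    · exact absurd (a2.symm.trans hy) c2
    · rw [a2, c1] at hy
      constructor
      · intro h3
        rw [hy, List.map_eq_nil_iff] at h3
        exact absurd h3 b1
      · intro _
        rw [hy]
        exact lew_mapl fun x hx => hv.leb _ x hx _ (hw.ft _ x hx).2.2
  · rcases hy with ⟨-, hy⟩ | ⟨hy, -⟩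
    · exact ⟨fun _ => nfy_pls hv a2, fun h3 => absurd hy h3⟩
    · exact absurd a1 hy

/-- a neighbour, from a field, mirror image -/
theorem vf_nm (hw : Hw S cc f P ml lv lm T Tm) (hv : Hv cmpS cmp cmp' sol sol' S cc f P le)
    {q y : Nat} (h : Vf P S cc e (fcm Tm) q y) (h0 : y ≠ 0) {w : List Nat}
    (hy : (y = plu ∧ w = []) ∨ (y ≠ plu ∧ w = dW y)) :
    (mirw ml w = [] → Pls sol (S.W (S.al (S.nx^[q] e)))) ∧
    (mirw ml w ≠ [] → lew le (mirw ml w) (S.W (S.al (S.nx^[q] e))) = true) := by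
  rcases h with h | ⟨a1, a2⟩ | ⟨a1, a2⟩
  · exact absurd h h0
  · obtain ⟨b1, b2⟩ := nfy_word hv a1
    rw [b2] at a2
    obtain ⟨c1, c2⟩ := dW_fcm hw hv _ b1
    rcases hy with ⟨hy, -⟩ | ⟨-, hy⟩
    · exact absurd (a2.symm.trans hy) c2
    · rw [hy, a2, c1]
      constructor
      · intro h3
        rw [List.map_eq_nil_iff] at h3
        exact absurd h3 b1
      · intro _
        exact lew_mapl fun x hx => hv.leb _ x hx _ (hw.fm _ x hx).2.2
  · rcases hy with ⟨-, hy⟩ | ⟨hy, -⟩
    · refine ⟨fun _ => nfy_pls hv a2, fun h3 => absurd ?_ h3⟩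
      rw [hy]; rfl
    · exact absurd a1 hy

/-- the letters of a fact -/
theorem fml_av2 {lv : Nat → Nat} (hl : ∀ v g, Nat.testBit (lv v) g = true → g < 64)
    {w V : List Nat} {r : Nat} (hw : ∀ g ∈ w, g < 64)
    (h : Nat.beq (Nat.land (fml w 0) (Nat.shiftRight (av2 lv V) (Nat.mul 64 r))) (fml w 0) = true)
    {i : Nat} (hi : i < w.length) : r + i < 2 * V.length ∧
      Nat.testBit (lv (V.getD ((r + i) % V.length) 0)) (w.getD i 0) = true := by
  have h1 := Nat.eq_of_beq_eq_true h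
  have h2 := fml_bit w 0 i hi
  rw [Nat.zero_add] at h2
  rw [← h1, land_eq, Nat.testBit_and, Bool.and_eq_true] at h2
  have h3 : Nat.testBit ((av2 lv V) >>> (64 * r)) (64 * i + w.getD i 0) = true := h2.2
  rw [Nat.testBit_shiftRight] at h3
  have h4 : 64 * r + (64 * i + w.getD i 0) = 64 * (r + i) + w.getD i 0 := by ring
  rw [h4] at h3
  have h5 : w.getD i 0 < 64 := hw _ (by
    rw [List.getD_eq_getElem _ _ hi]; exact List.getElem_mem _)
  exact av2_bit hl h5 h3

theorem dW_lt (n : Nat) : ∀ g ∈ dW n, g < 64 := dWk_lt 8 n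

theorem iter_mod (hS : S.Ok cmpS sol) (he : S.W e ≠ []) (a b : Nat) :
    S.nx^[a] (S.nx^[b] e) = S.nx^[(b + a) % (S.W e).length] e := by
  rw [← Function.iterate_add_apply, Nat.add_comm a b]
  have hpp : Function.IsPeriodicPt S.nx (S.W e).length e := hS.per e he
  exact (hpp.iterate_mod_apply _).symm

theorem rot_getD {w : List Nat} {r i : Nat} (hi : i < w.length) :
    (w.rotate r).getD i 0 = w.getD ((r + i) % w.length) 0 := by
  have h6 : (r + i) % w.length < w.length := Nat.mod_lt _ (by omega)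
  rw [List.getD_eq_getElem _ _ (by rw [List.length_rotate]; exact hi),
    List.getElem_rotate, List.getD_eq_getElem _ _ h6]
  congr 1
  rw [Nat.add_comm]

/-- the direct case -/
theorem fq_dir (hw : Hw S cc f P ml lv lm T Tm)
    (hv : Hv cmpS cmp cmp' sol sol' S cc f P le) (he : S.W e ≠ [])
    {V : List Nat} (hV : Cov P V (S.W e)) {MV : Nat} (h1 : Vo P S cc T e MV) {D' x r : Nat}
    (a1 : Nat.beq (Nat.land (fml (dW (Nat.mod x (Nat.pow 64 D'))) 0)
      (Nat.shiftRight (av2 lv V) (Nat.mul 64 r))) (fml (dW (Nat.mod x (Nat.pow 64 D'))) 0) = true)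
    (a2 : (dW (Nat.mod x (Nat.pow 64 D'))).length = (S.W e).length)
    (a3 : Nat.shiftRight x (Nat.mul 6 D') = Nat.mod (Nat.shiftRight (Nat.lor MV
      (Nat.shiftLeft MV (Nat.mul 36 (S.W e).length))) (Nat.mul 36 r))
      (Nat.pow 2 (Nat.mul 36 (S.W e).length))) :
    Mtn le sol S (dX D' x) (S.nx^[r] e) := by
  have hS := hv.hS
  have h4 := hS.len e he
  have hlet := fun i (hi : i < (dW (Nat.mod x (Nat.pow 64 D'))).length) =>
    fml_av2 (lv := lv) (fun v g h => (hw.lv v g h).1) (V := V) (r := r) (dW_lt _) a1 hi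
  have hr : r ≤ (S.W e).length := by
    have := (hlet ((S.W e).length - 1) (by omega)).1
    rw [hV.1] at this
    omega
  refine ⟨lew_of ?_ fun i hi => ?_, fun p hp => ?_⟩
  · rw [hS.W_iter he, List.length_rotate]
    exact a2
  · have hi' : i < (S.W e).length := by rw [← a2]; exact hi
    rw [hS.W_iter he, rot_getD hi']
    have h5 := (hlet i hi).2
    rw [hV.1] at h5
    exact hv.lev _ _ (hw.lv _ _ h5).2 _ (hV.2 _ (Nat.mod_lt _ (by omega)))
  · have hp' : p ∈ dnb D' 0 (Nat.shiftRight x (Nat.mul 6 D')) := hp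
    obtain ⟨s, -, b1, b2, b3⟩ := mem_dnb _ _ _ p hp'
    rw [a3] at b2 b3
    have hs : s < (S.W e).length := by
      by_contra hc
      exact b2 (fld_high (by omega))
    rw [fld_turn h1.1 hr hs] at b2 b3
    rw [b1, Nat.zero_add, iter_mod hS he]
    exact vf_nb hw hv (h1.2 _ (Nat.mod_lt _ (by omega))) b2 b3

theorem ar1 {d r s : Nat} (h4 : 4 ≤ d) (h6 : d ≤ 6) (hr : r ≤ d) (hs : s < d) :
    ((d - r) + (d - s) % d) % d = (d - (r + s) % d) % d := by
  obtain rfl | rfl | rfl : d = 4 ∨ d = 5 ∨ d = 6 := by omega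
  all_goals omega

theorem ar2 {d r s : Nat} (h4 : 4 ≤ d) (h6 : d ≤ 6) :
    (d - (d - (r + s) % d) % d) % d = (r + s) % d := by
  obtain rfl | rfl | rfl : d = 4 ∨ d = 5 ∨ d = 6 := by omega
  all_goals omega

theorem ar3 {d r j : Nat} (h4 : 4 ≤ d) (h6 : d ≤ 6) (hr : r ≤ d) (hj : j < d) :
    d - 1 - (r + (d - 1 - j)) % d = ((d - r) + j) % d := by
  obtain rfl | rfl | rfl : d = 4 ∨ d = 5 ∨ d = 6 := by omega
  all_goals omega

theorem getD_rev {w : List Nat} {i : Nat} (hi : i < w.length) :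
    w.reverse.getD i 0 = w.getD (w.length - 1 - i) 0 := by
  rw [List.getD_eq_getElem _ _ (by rw [List.length_reverse]; exact hi), List.getElem_reverse,
    List.getD_eq_getElem _ _ (by omega)]

/-- the mirrored case -/
theorem fq_mir (hw : Hw S cc f P ml lv lm T Tm)
    (hv : Hv cmpS cmp cmp' sol sol' S cc f P le) (he : S.W e ≠ [])
    {V : List Nat} (hV : Cov P V (S.W e)) {MW : Nat} (h1 : Wo P S cc Tm e MW) {D' x r : Nat}
    (hr : r ≤ (S.W e).length)
    (a1 : Nat.beq (Nat.land (fml (dW (Nat.mod x (Nat.pow 64 D'))) 0)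
      (Nat.shiftRight (av2 lm (rvl V)) (Nat.mul 64 r)))
        (fml (dW (Nat.mod x (Nat.pow 64 D'))) 0) = true)
    (a2 : (dW (Nat.mod x (Nat.pow 64 D'))).length = (S.W e).length)
    (a3 : Nat.shiftRight x (Nat.mul 6 D') = Nat.mod (Nat.shiftRight (Nat.lor MW
      (Nat.shiftLeft MW (Nat.mul 36 (S.W e).length))) (Nat.mul 36 r))
      (Nat.pow 2 (Nat.mul 36 (S.W e).length))) :
    Mtn le sol S (mirX ml (dX D' x)) (S.nx^[(S.W e).length - r] e) := by
  have hS := hv.hS
  have h4 := hS.len e he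
  rw [rvl_eq] at a1
  have hlet := fun i (hi : i < (dW (Nat.mod x (Nat.pow 64 D'))).length) =>
    fml_av2 (lv := lm) (fun v g h => (hw.lm v g h).1) (V := V.reverse) (r := r) (dW_lt _) a1 hi
  have hx1 : (dX D' x).1 = dW (Nat.mod x (Nat.pow 64 D')) := rfl
  have e1 : (mirX ml (dX D' x)).1 = ((dW (Nat.mod x (Nat.pow 64 D'))).map ml).reverse := rfl
  refine ⟨lew_of ?_ fun i hi => ?_, fun p hp => ?_⟩
  · rw [hS.W_iter he, List.length_rotate, e1, List.length_reverse, List.length_map]
    exact a2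
  · rw [e1, List.length_reverse, List.length_map] at hi
    have hi' : i < (S.W e).length := by rw [← a2]; exact hi
    rw [hS.W_iter he, rot_getD hi', e1, getD_rev (by rw [List.length_map]; exact hi),
      List.length_map]
    have hj : (dW (Nat.mod x (Nat.pow 64 D'))).length - 1 - i <
        (dW (Nat.mod x (Nat.pow 64 D'))).length := by omega
    have h5 := (hlet _ hj).2
    rw [List.length_reverse, getD_rev (by rw [hV.1]; exact Nat.mod_lt _ (by omega)), hV.1, a2,
      ar3 h4.1 h4.2 hr hi'] at h5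
    have h6 := hv.lev _ _ (hw.lm _ _ h5).2 _ (hV.2 _ (Nat.mod_lt _ (by omega)))
    rw [a2, getD_map0 (by omega)]
    exact h6
  · have hp1 : p ∈ (dnb D' 0 (Nat.shiftRight x (Nat.mul 6 D'))).map fun p =>
      (((dW (Nat.mod x (Nat.pow 64 D'))).length - p.1) % (dW (Nat.mod x (Nat.pow 64 D'))).length,
        mirw ml p.2) := hp
    obtain ⟨p', hp', rfl⟩ := List.mem_map.1 hp1
    obtain ⟨s, -, b1, b2, b3⟩ := mem_dnb _ _ _ p' hp'
    rw [a3] at b2 b3
    have hs : s < (S.W e).length := by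
      by_contra hc
      exact b2 (fld_high (by omega))
    rw [fld_turn h1.1 hr hs] at b2 b3
    dsimp only
    rw [b1, Nat.zero_add, a2, iter_mod hS he, ar1 h4.1 h4.2 hr hs]
    have h7 := h1.2 ((((S.W e).length - (r + s) % (S.W e).length)) % (S.W e).length)
      (Nat.mod_lt _ (by omega))
    rw [ar2 h4.1 h4.2] at h7
    exact vf_nm hw hv h7 b2 b3

/-- a fact which is violated -/
theorem fq_sound (hw : Hw S cc f P ml lv lm T Tm)
    (hv : Hv cmpS cmp cmp' sol sol' S cc f P le) (he : S.W e ≠ [])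
    (hF : ∀ l, ∀ X ∈ dF (FN l), NoX le ml sol S X)
    {V : List Nat} (hV : Cov P V (S.W e)) {MV MW n : Nat} (h1 : Vo P S cc T e MV)
    (h2 : Wo P S cc Tm e MW)
    (h : fq FN (S.W e).length (av2 lv V) (av2 lm (rvl V)) MV MW n = true) : False := by
  have h4 := hv.hS.len e he
  unfold fq at h
  rw [frc_eq] at h
  dsimp only at h
  rw [frc_eq] at h
  generalize hx : nX (FN (Nat.div n 512)) (Nat.mod (Nat.div n 16) 32) = x at h
  generalize hD : Nat.mod (FN (Nat.div n 512)) 16 = D' at h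
  generalize Nat.mod n 8 = r at h
  have key : (dW (Nat.mod x (Nat.pow 64 D'))).length = (S.W e).length →
      NoX le ml sol S (dX D' x) := by
    intro h5
    have hx0 : x ≠ 0 := by
      intro h0
      rw [h0] at h5
      have h6 : Nat.mod 0 (Nat.pow 64 D') = 0 := Nat.zero_mod _
      rw [h6] at h5
      have h7 : (dW 0).length = 0 := rfl
      omega
    have h6 := mem_dF (N := FN (Nat.div n 512)) (j := Nat.mod (Nat.div n 16) 32) (by
      rw [hx]; exact hx0) (Nat.mod_lt _ (by norm_num))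
    rw [hx, hD] at h6
    exact hF _ _ h6
  cases hb : Nat.beq (Nat.mod (Nat.div n 8) 2) 0 with
  | false =>
    rw [hb] at h
    cases c1 : Nat.beq (Nat.land (fml (dW (Nat.mod x (Nat.pow 64 D'))) 0)
      (Nat.shiftRight (av2 lm (rvl V)) (Nat.mul 64 (Nat.sub (S.W e).length r))))
        (fml (dW (Nat.mod x (Nat.pow 64 D'))) 0) with
    | false => rw [c1] at h; exact Bool.noConfusion h
    | true =>
      rw [c1] at h
      cases c2 : Nat.beq (lln (dW (Nat.mod x (Nat.pow 64 D')))) (S.W e).length with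
      | false => rw [c2] at h; exact Bool.noConfusion h
      | true =>
        rw [c2] at h
        have c3 := Nat.eq_of_beq_eq_true (show Nat.beq _ _ = true from h)
        have c4 := Nat.eq_of_beq_eq_true c2
        rw [lln_eq] at c4
        exact (key c4).2 _ (fq_mir hw hv he hV h2 (Nat.sub_le _ _) c1 c4 c3)
  | true =>
    rw [hb] at h
    cases c1 : Nat.beq (Nat.land (fml (dW (Nat.mod x (Nat.pow 64 D'))) 0)
      (Nat.shiftRight (av2 lv V) (Nat.mul 64 r))) (fml (dW (Nat.mod x (Nat.pow 64 D'))) 0) with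
    | false => rw [c1] at h; exact Bool.noConfusion h
    | true =>
      rw [c1] at h
      cases c2 : Nat.beq (lln (dW (Nat.mod x (Nat.pow 64 D')))) (S.W e).length with
      | false => rw [c2] at h; exact Bool.noConfusion h
      | true =>
        rw [c2] at h
        have c3 := Nat.eq_of_beq_eq_true (show Nat.beq _ _ = true from h)
        have c4 := Nat.eq_of_beq_eq_true c2
        rw [lln_eq] at c4
        exact (key c4).1 _ (fq_dir hw hv he hV h1 c1 c4 c3)

end sound

end

end Pool.FCS
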