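import Pool.Agent.FCS.Wa

/-!
# Star check: fast membership, excluded bits for solid sectors
-/

namespace Pool.FCS

noncomputable section

/-- the entry `j` of a packed list of numbers with 30 bits -/
def ety (N j : Nat) : Nat :=
  Nat.mod (Nat.shiftRight N (Nat.add (nat_lit 12) (Nat.mul (nat_lit 30) j))) (nat_lit 1073741824)

/-- binary search: an index between `a` and `b` -/
def bsh (N y k : Nat) : Nat → Nat → Nat :=
  Nat.rec (motive := fun _ => Nat → Nat → Nat) (fun a _ => a)
    (fun _ ih a b => Bool.rec (motive := fun _ => Nat)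
      (Bool.rec (motive := fun _ => Nat) (ih a (Nat.div (Nat.add a b) (nat_lit 2)))
        (ih (Nat.div (Nat.add a b) (nat_lit 2)) b)
        (Nat.ble (ety N (Nat.div (Nat.add a b) (nat_lit 2))) y)) a
      (Nat.ble b (Nat.add a (nat_lit 1)))) k

/-- membership in a packed list -/
def mbs (N y : Nat) : Bool :=
  (fun j : Nat => Bool.rec (motive := fun _ => Bool) false (Nat.beq (ety N j) y)
    (Nat.ble (Nat.succ j) (Nat.mod N (nat_lit 4096))))
    (bsh N y (nat_lit 13) (nat_lit 0) (Nat.mod N (nat_lit 4096)))

theorem dN_mem (b : Nat) {m j k : Nat} (h : j < k) :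
    (m >>> (b * j)) % 2 ^ b ∈ (Nat.rec (motive := fun _ => Nat → List Nat) (fun _ => [])
      (fun _ ih m => Nat.mod m (Nat.pow 2 b) :: ih (Nat.shiftRight m b)) k m : List Nat) := by
  induction k generalizing m j with
  | zero => omega
  | succ k ih =>
    show _ ∈ Nat.mod m (Nat.pow 2 b) :: (Nat.rec (motive := fun _ => Nat → List Nat) (fun _ => [])
      (fun _ ih m => Nat.mod m (Nat.pow 2 b) :: ih (Nat.shiftRight m b)) k
        (Nat.shiftRight m b) : List Nat)
    cases j with
    | zero =>
      rw [Nat.mul_zero, Nat.shiftRight_zero]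
      exact List.mem_cons_self ..
    | succ j =>
      have h1 := ih (m := m >>> b) (j := j) (by omega)
      rw [← Nat.shiftRight_add, show b + b * j = b * (j + 1) by ring] at h1
      exact List.mem_cons_of_mem _ h1

theorem mbs_mem {N y : Nat} (h : mbs N y = true) : memF y (dN 30 N) = true := by
  unfold mbs at h
  dsimp only at h
  generalize bsh N y 13 0 (Nat.mod N 4096) = j at h
  cases h1 : Nat.ble (Nat.succ j) (Nat.mod N 4096) with
  | false => rw [h1] at h; exact Bool.noConfusion h
  | true =>
    rw [h1] at h
    have h2 : ety N j = y := Nat.eq_of_beq_eq_true (show Nat.beq _ _ = true from h)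
    have h3 : j < Nat.mod N 4096 := Nat.le_of_ble_eq_true h1
    rw [memF_eq, mem_iff, ← h2]
    have h4 := dN_mem 30 (m := N >>> 12) h3
    rw [← Nat.shiftRight_add] at h4
    exact h4

/-- conflict of two words at the ends of an edge, fast (`mo` the pairs) -/
def Pn.pcq (P : Pn) (mo : Nat → Nat → Bool) (k x m y : Nat) : Bool :=
  Bool.rec (motive := fun _ => Bool) true
    (Bool.rec (motive := fun _ => Bool) true (mo x y)
      (P.r2 k (Nat.mod x 32) m (Nat.div y (pwF y))))
    (P.r2 m (Nat.mod y 32) k (Nat.div x (pwF x)))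

theorem pcq_pcs {P : Pn} {mo : Nat → Nat → Bool}
    (hmo : ∀ x y, mo x y = true → memF y (getF P.Q.PF x) = true) {k x m y : Nat}
    (h : P.pcq mo k x m y = true) : P.pcs k x m y = true := by
  unfold Pn.pcq at h
  unfold Pn.pcs
  cases h1 : P.r2 m (Nat.mod y 32) k (Nat.div x (pwF x)) with
  | false => rfl
  | true =>
    rw [h1] at h
    cases h2 : P.r2 k (Nat.mod x 32) m (Nat.div y (pwF y)) with
    | false => rfl
    | true =>
      rw [h2] at h
      exact hmo x y h

/-- conflict of two neighbours, solid sector -/
def Pn.siq (P : Pn) (mo : Nat → Nat → Bool) (k x u v : Nat) : Bool :=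
  Bool.rec (motive := fun _ => Bool)
    (Bool.rec (motive := fun _ => Bool)
      (Bool.rec (motive := fun _ => Bool)
        (Bool.rec (motive := fun _ => Bool) false
          (P.pcq mo (slf u) (rrc (lo u)) (slf v) (rlc (lo v)))
          (Nat.beq (Nat.land (Nat.shiftRight P.Q.sm x) (nat_lit 1)) (nat_lit 1)))
        false (Nat.beq x (nat_lit 0)))
      false (Nat.ble v (nat_lit 1)))
    false (Nat.ble u (nat_lit 1))

theorem siq_sid {P : Pn} {mo : Nat → Nat → Bool}
    (hmo : ∀ x y, mo x y = true → memF y (getF P.Q.PF x) = true) {k x u v : Nat}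
    (h : P.siq mo k x u v = true) : P.sid k x u v = true := by
  unfold Pn.siq at h
  unfold Pn.sid
  cases h1 : Nat.ble u 1 with
  | true => rw [h1] at h; exact Bool.noConfusion h
  | false =>
    rw [h1] at h
    cases h2 : Nat.ble v 1 with
    | true => rw [h2] at h; exact Bool.noConfusion h
    | false =>
      rw [h2] at h
      cases h3 : Nat.beq x 0 with
      | true => rw [h3] at h; exact Bool.noConfusion h
      | false =>
        rw [h3] at h
        cases P.Q.gk k x u v with
        | true => rfl
        | false =>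
          cases h4 : Nat.beq (Nat.land (Nat.shiftRight P.Q.sm x) 1) 1 with
          | false => rw [h4] at h; exact Bool.noConfusion h
          | true =>
            rw [h4] at h
            exact pcq_pcs hmo h

/-- the bit `t` is excluded by the code `u` at the position `i`, fast -/
def Pn.xtq (P : Pn) (mo : Nat → Nat → Bool) (k c d i u t : Nat) : Bool :=
  (fun j v : Nat =>
    Bool.rec (motive := fun _ => Bool)
      (Bool.rec (motive := fun _ => Bool)
        (Bool.rec (motive := fun _ => Bool) false
          (P.siq mo k (dg (Nat.pow 32 j) c) v u) (Nat.beq i (nxt d j)))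
        (P.siq mo k (dg (Nat.pow 32 i) c) u v) (Nat.beq j (nxt d i)))
      (P.exc k c d i u j v)
      (Nat.beq u (nat_lit 1))) (Nat.div t P.w) (P.cdt c t)

theorem xtq_xt {P : Pn} {mo : Nat → Nat → Bool}
    (hmo : ∀ x y, mo x y = true → memF y (getF P.Q.PF x) = true) {k c d i u t : Nat}
    (h : P.xtq mo k c d i u t = true) : P.xt k c d i u t = true := by
  rw [xt_eq]
  unfold Pn.xtq at h
  dsimp only at h
  generalize Nat.div t P.w = j at h ⊢
  generalize P.cdt c t = v at h ⊢
  cases h1 : Nat.beq u 1 with
  | true => rw [h1] at h; exact h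
  | false =>
    rw [h1] at h
    unfold Pn.exc
    rw [h1]
    cases h2 : Nat.beq j (nxt d i) with
    | true => rw [h2] at h; exact siq_sid hmo h
    | false =>
      rw [h2] at h
      cases h3 : Nat.beq i (nxt d j) with
      | true => rw [h3] at h; exact siq_sid hmo h
      | false => rw [h3] at h; exact Bool.noConfusion h

end

end Pool.FCS
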