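import Pool.Agent.FCS.Wa

/-!
# Star check: union of selected fields of a large number
-/

namespace Pool.FCS

noncomputable section

/-- `k` ones at the distance `W` -/
def geo (W k : Nat) : Nat :=
  Nat.div (Nat.sub (Nat.pow (nat_lit 2) (Nat.mul W k)) (nat_lit 1))
    (Nat.sub (Nat.pow (nat_lit 2) W) (nat_lit 1))

/-- the union of the fields `x` of `C` (`W` bits) with the bit `x` of `T` -/
def sel (W T C : Nat) : Nat :=
  Nat.mod (Nat.land (Nat.mul (Nat.land (Nat.mul T (geo (Nat.sub W (nat_lit 1)) (nat_lit 60)))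
    (geo W (nat_lit 60))) (Nat.sub (Nat.pow (nat_lit 2) W) (nat_lit 1))) C)
    (Nat.sub (Nat.pow (nat_lit 2) W) (nat_lit 1))

section geo

/-- the number `geo`, recursively -/
def gr (W : Nat) : Nat → Nat
  | 0 => 0
  | k + 1 => 2 ^ W * gr W k + 1

theorem gr_succ (W k : Nat) : gr W (k + 1) = 2 ^ W * gr W k + 1 := rfl

theorem gr_mul (W : Nat) : ∀ k, gr W k * (2 ^ W - 1) + 1 = 2 ^ (W * k)
  | 0 => by simp [gr]
  | k + 1 => by
    have ih := gr_mul W k
    have h1 : 1 ≤ 2 ^ W := Nat.one_le_two_pow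
    obtain ⟨c, hc⟩ : ∃ c, 2 ^ W = c + 1 := ⟨2 ^ W - 1, by omega⟩
    rw [Nat.mul_succ, pow_add, ← ih, gr_succ, hc, Nat.add_sub_cancel]
    ring

theorem geo_eq {W : Nat} (hW : 0 < W) (k : Nat) : geo W k = gr W k := by
  have h := gr_mul W k
  have h1 : 2 ≤ 2 ^ W := by
    calc 2 = 2 ^ 1 := rfl
      _ ≤ 2 ^ W := Nat.pow_le_pow_right (by norm_num) hW
  show (2 ^ (W * k) - 1) / (2 ^ W - 1) = _
  rw [← h, Nat.add_sub_cancel]
  exact Nat.mul_div_cancel _ (by omega)

/-- bits of the copies -/
theorem bit_mul_gr {W a : Nat} (hW : 0 < W) (ha : a < 2 ^ W) : ∀ k p : Nat,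
    Nat.testBit (a * gr W k) p = (decide (p / W < k) && Nat.testBit a (p % W))
  | 0, p => by simp [gr]
  | k + 1, p => by
    have e : a * gr W (k + 1) = 2 ^ W * (a * gr W k) + a := by
      rw [gr_succ]; ring
    rw [e, Nat.testBit_two_pow_mul_add _ ha]
    split_ifs with h
    · rw [Nat.div_eq_of_lt h, Nat.mod_eq_of_lt h, decide_eq_true (by omega), Bool.true_and]
    · rw [bit_mul_gr hW ha k (p - W)]
      have h1 : p / W = (p - W) / W + 1 := by
        conv_lhs => rw [show p = (p - W) + W by omega]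
        exact Nat.add_div_right _ hW
      have h2 : p % W = (p - W) % W := Nat.mod_eq_sub_mod (by omega)
      rw [h1, h2]
      congr 1
      simp

/-- sum without common bits -/
theorem add_or : ∀ (n a b : Nat), a < 2 ^ n → (∀ i, Nat.testBit a i = true →
    Nat.testBit b i = false) → a + b = a ||| b
  | 0, a, b, h, _ => by
    have : a = 0 := by simpa using h
    rw [this, Nat.zero_add, Nat.zero_or]
  | n + 1, a, b, h, hd => by
    have ih := add_or n (a / 2) (b / 2) (by rw [pow_succ] at h; omega) (fun i hi => by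
      rw [← Nat.testBit_succ] at hi ⊢
      exact hd _ hi)
    have h0 := hd 0
    rw [Nat.testBit_zero, Nat.testBit_zero, decide_eq_true_eq, decide_eq_false_iff_not] at h0
    have e1 : (a ||| b) / 2 = a / 2 ||| b / 2 := by
      apply Nat.eq_of_testBit_eq
      intro i
      rw [← Nat.testBit_succ, Nat.testBit_or, Nat.testBit_or, Nat.testBit_succ, Nat.testBit_succ]
    have e2 : (a ||| b) % 2 = 1 ↔ (a % 2 = 1 ∨ b % 2 = 1) := by
      have h2 := Nat.testBit_or a b 0
      rw [Nat.testBit_zero, Nat.testBit_zero, Nat.testBit_zero] at h2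
      by_cases ha : a % 2 = 1 <;> by_cases hb : b % 2 = 1 <;> simp [ha, hb] at h2 ⊢
    by_cases ha : a % 2 = 1
    · have hb := h0 ha
      have h3 := e2.2 (Or.inl ha)
      omega
    · by_cases hb : b % 2 = 1
      · have h3 := e2.2 (Or.inr hb)
        omega
      · have h3 : ¬ (a ||| b) % 2 = 1 := fun h => by
          rcases e2.1 h with h | h
          · exact ha h
          · exact hb h
        omega

end geo

section sel

/-- the selected fields -/
def cs (W : Nat) : Nat → Nat → Nat → Nat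
  | 0, _, _ => 0
  | k + 1, T, C => 2 ^ W * cs W k (T / 2) (C / 2 ^ W) + T % 2 * (C % 2 ^ W)

/-- the sum of the selected fields -/
def su (W : Nat) : Nat → Nat → Nat → Nat
  | 0, _, _ => 0
  | k + 1, T, C => T % 2 * (C % 2 ^ W) + su W k (T / 2) (C / 2 ^ W)

theorem cs_succ (W k T C : Nat) : cs W (k + 1) T C =
    2 ^ W * cs W k (T / 2) (C / 2 ^ W) + T % 2 * (C % 2 ^ W) := rfl

theorem su_succ (W k T C : Nat) : su W (k + 1) T C =
    T % 2 * (C % 2 ^ W) + su W k (T / 2) (C / 2 ^ W) := rfl

theorem fst_lt {W T C : Nat} : T % 2 * (C % 2 ^ W) < 2 ^ W := by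
  have h1 : C % 2 ^ W < 2 ^ W := Nat.mod_lt _ (by positivity)
  rcases Nat.mod_two_eq_zero_or_one T with h | h <;> rw [h]
  · rw [Nat.zero_mul]; positivity
  · rw [Nat.one_mul]; exact h1

theorem fst_bit {W T C i : Nat} : Nat.testBit (T % 2 * (C % 2 ^ W)) i =
    (Nat.testBit T 0 && (decide (i < W) && Nat.testBit C i)) := by
  rcases Nat.mod_two_eq_zero_or_one T with h | h
  · rw [Nat.testBit_zero, h, Nat.zero_mul, Nat.zero_testBit]; rfl
  · rw [Nat.testBit_zero, h, Nat.one_mul, Nat.testBit_mod_two_pow]; rfl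

theorem div_bit {W C i : Nat} : Nat.testBit (C / 2 ^ W) i = Nat.testBit C (W + i) := by
  rw [← Nat.shiftRight_eq_div_pow, Nat.testBit_shiftRight]

theorem cs_bit {W : Nat} (hW : 0 < W) : ∀ (k T C p : Nat), Nat.testBit (cs W k T C) p =
    (decide (p / W < k) && (Nat.testBit T (p / W) && Nat.testBit C p))
  | 0, T, C, p => by simp [cs]
  | k + 1, T, C, p => by
    rw [cs_succ, Nat.testBit_two_pow_mul_add _ fst_lt]
    split_ifs with h
    · rw [fst_bit, Nat.div_eq_of_lt h, decide_eq_true h, decide_eq_true (by omega),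
        Bool.true_and, Bool.true_and]
    · have h1 : p / W = (p - W) / W + 1 := by
        conv_lhs => rw [show p = (p - W) + W by omega]
        exact Nat.add_div_right _ hW
      rw [cs_bit hW k, div_bit, ← Nat.testBit_succ, h1, show W + (p - W) = p by omega]
      congr 1
      simp

/-- the selected fields modulo `2 ^ W - 1` -/
theorem cs_mod {W : Nat} : ∀ (k T C : Nat),
    cs W k T C % (2 ^ W - 1) = su W k T C % (2 ^ W - 1)
  | 0, T, C => rfl
  | k + 1, T, C => by
    have h1 : 1 ≤ 2 ^ W := Nat.one_le_two_pow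
    have ih := cs_mod (W := W) k (T / 2) (C / 2 ^ W)
    have h2 : cs W (k + 1) T C = (2 ^ W - 1) * cs W k (T / 2) (C / 2 ^ W) +
        (T % 2 * (C % 2 ^ W) + cs W k (T / 2) (C / 2 ^ W)) := by
      rw [cs_succ]
      generalize T % 2 * (C % 2 ^ W) = a
      generalize cs W k (T / 2) (C / 2 ^ W) = b
      obtain ⟨c, hc⟩ : ∃ c, 2 ^ W = c + 1 := ⟨2 ^ W - 1, by omega⟩
      rw [hc, Nat.add_sub_cancel]
      ring
    rw [h2, su_succ, Nat.mul_add_mod, Nat.add_mod, ih, ← Nat.add_mod]

theorem su_bit {W : Nat} : ∀ (k T C : Nat), (∀ x y b, x < k → y < k → b < W →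
    Nat.testBit C (W * x + b) = true → Nat.testBit C (W * y + b) = true → x = y) →
    su W k T C < 2 ^ W ∧ ∀ b, Nat.testBit (su W k T C) b = true ↔
      ∃ x < k, Nat.testBit T x = true ∧ Nat.testBit C (W * x + b) = true ∧ b < W
  | 0, T, C, _ => ⟨by unfold su; positivity, fun b => by simp [su]⟩
  | k + 1, T, C, hd => by
    obtain ⟨h1, h2⟩ := su_bit k (T / 2) (C / 2 ^ W) (fun x y b hx hy hb h3 h4 => by
      rw [div_bit, show W + (W * x + b) = W * (x + 1) + b by ring] at h3
      rw [div_bit, show W + (W * y + b) = W * (y + 1) + b by ring] at h4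
      have := hd (x + 1) (y + 1) b (by omega) (by omega) hb h3 h4
      omega)
    have h3 : su W (k + 1) T C = T % 2 * (C % 2 ^ W) ||| su W k (T / 2) (C / 2 ^ W) := by
      rw [su_succ]
      refine add_or W _ _ fst_lt fun i hi => ?_
      rw [← Bool.not_eq_true]
      intro h4
      obtain ⟨x, x1, x2, x3, x4⟩ := (h2 i).1 h4
      rw [div_bit, show W + (W * x + i) = W * (x + 1) + i by ring] at x3
      rw [fst_bit, Bool.and_eq_true, Bool.and_eq_true] at hi
      have := hd (x + 1) 0 i (by omega) (by omega) x4 x3 (by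
        rw [Nat.mul_zero, Nat.zero_add]; exact hi.2.2)
      omega
    rw [h3]
    refine ⟨Nat.or_lt_two_pow fst_lt h1, fun b => ?_⟩
    rw [Nat.testBit_or, Bool.or_eq_true, h2, fst_bit, Bool.and_eq_true, Bool.and_eq_true,
      decide_eq_true_eq]
    constructor
    · rintro (⟨a1, a2, a3⟩ | ⟨x, x1, x2, x3, x4⟩)
      · exact ⟨0, by omega, a1, by rw [Nat.mul_zero, Nat.zero_add]; exact a3, a2⟩
      · rw [div_bit, show W + (W * x + b) = W * (x + 1) + b by ring] at x3
        rw [← Nat.testBit_succ] at x2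
        exact ⟨x + 1, by omega, x2, x3, x4⟩
    · rintro ⟨x, x1, x2, x3, x4⟩
      cases x with
      | zero =>
        rw [Nat.mul_zero, Nat.zero_add] at x3
        exact Or.inl ⟨x2, x4, x3⟩
      | succ x =>
        refine Or.inr ⟨x, by omega, ?_, ?_, x4⟩
        · rw [← Nat.testBit_succ]; exact x2
        · rw [div_bit, show W + (W * x + b) = W * (x + 1) + b by ring]; exact x3

/-- the number before the reduction -/
theorem sel_cs {W T C : Nat} (hW : 61 ≤ W) (hT : T < 2 ^ 60) :
    Nat.land (Nat.mul (Nat.land (Nat.mul T (geo (Nat.sub W 1) 60)) (geo W 60))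
      (Nat.sub (Nat.pow 2 W) 1)) C = cs W 60 T C := by
  have hW0 : 0 < W := by omega
  rw [geo_eq hW0, show Nat.sub W 1 = W - 1 from rfl, geo_eq (by omega)]
  -- the marks of the fields
  have h1 : Nat.land (Nat.mul T (gr (W - 1) 60)) (gr W 60) = cs W 60 T (gr W 60) := by
    apply Nat.eq_of_testBit_eq
    intro p
    rw [cs_bit hW0, land_eq, Nat.testBit_and]
    have h2 : Nat.testBit (Nat.mul T (gr (W - 1) 60)) p =
        (decide (p / (W - 1) < 60) && Nat.testBit T (p % (W - 1))) :=
      bit_mul_gr (by omega) (lt_of_lt_of_le hT (Nat.pow_le_pow_right (by norm_num) (by omega)))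
        60 p
    have h3 : Nat.testBit (gr W 60) p = (decide (p / W < 60) && Nat.testBit 1 (p % W)) := by
      have := bit_mul_gr (a := 1) hW0 (Nat.one_lt_two_pow (by omega)) 60 p
      rw [Nat.one_mul] at this
      exact this
    rw [h2, h3]
    by_cases h4 : p / W < 60
    · rw [decide_eq_true h4, Bool.true_and, Bool.true_and]
      by_cases h5 : p % W = 0
      · have h6 : p = (W - 1) * (p / W) + p / W := by
          have h7 := Nat.div_add_mod p W
          have h8 : W * (p / W) = (W - 1) * (p / W) + p / W := by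
            obtain ⟨c, hc⟩ : ∃ c, W = c + 1 := ⟨W - 1, by omega⟩
            rw [hc, Nat.add_sub_cancel]; ring
          omega
        have h8 : p / W < W - 1 := by omega
        have h9 : p / (W - 1) = p / W := by
          conv_lhs => rw [h6]
          rw [Nat.mul_add_div (by omega), Nat.div_eq_of_lt h8, Nat.add_zero]
        have h10 : p % (W - 1) = p / W := by
          conv_lhs => rw [h6]
          rw [Nat.mul_add_mod, Nat.mod_eq_of_lt h8]
        rw [h9, h10, decide_eq_true h4, Bool.true_and]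
      · have h6 : Nat.testBit 1 (p % W) = false := by
          have : Nat.testBit (2 ^ 0) (p % W) = false := by
            rw [Nat.testBit_two_pow, decide_eq_false (fun h => h5 h.symm)]
          exact this
        rw [h6, Bool.and_false, Bool.and_false]
    · rw [decide_eq_false h4, Bool.false_and, Bool.and_false, Bool.false_and]
  rw [h1]
  -- the full fields
  have h2 : Nat.land (Nat.mul (cs W 60 T (gr W 60)) (Nat.sub (Nat.pow 2 W) 1)) C =
      Nat.land (cs W 60 T (2 ^ (W * 60) - 1)) C := by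
    congr 1
    show cs W 60 T (gr W 60) * (2 ^ W - 1) = _
    have key : ∀ k T, cs W k T (gr W k) * (2 ^ W - 1) = cs W k T (2 ^ (W * k) - 1) := by
      intro k
      induction k with
      | zero => intro T; simp [cs]
      | succ k ih =>
        intro T
        have p1 : 1 ≤ 2 ^ (W * k) := Nat.one_le_two_pow
        have p2 : 1 < 2 ^ W := Nat.one_lt_two_pow (by omega)
        have e0 : 2 ^ (W * (k + 1)) - 1 = 2 ^ W * (2 ^ (W * k) - 1) + (2 ^ W - 1) := by
          rw [Nat.mul_succ, pow_add]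
          obtain ⟨c, hc⟩ : ∃ c, 2 ^ (W * k) = c + 1 := ⟨2 ^ (W * k) - 1, by omega⟩
          obtain ⟨b, hb⟩ : ∃ b, 2 ^ W = b + 1 := ⟨2 ^ W - 1, by omega⟩
          rw [hc, hb, Nat.add_sub_cancel, Nat.add_sub_cancel]
          have : (c + 1) * (b + 1) = (b + 1) * c + b + 1 := by ring
          omega
        have e1 : gr W (k + 1) / 2 ^ W = gr W k := by
          show (2 ^ W * gr W k + 1) / 2 ^ W = _
          rw [Nat.mul_add_div (by omega), Nat.div_eq_of_lt p2, Nat.add_zero]
        have e2 : gr W (k + 1) % 2 ^ W = 1 := by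
          show (2 ^ W * gr W k + 1) % 2 ^ W = _
          rw [Nat.mul_add_mod, Nat.mod_eq_of_lt p2]
        have e3 : (2 ^ (W * (k + 1)) - 1) / 2 ^ W = 2 ^ (W * k) - 1 := by
          rw [e0, Nat.mul_add_div (by omega), Nat.div_eq_of_lt (by omega), Nat.add_zero]
        have e4 : (2 ^ (W * (k + 1)) - 1) % 2 ^ W = 2 ^ W - 1 := by
          rw [e0, Nat.mul_add_mod, Nat.mod_eq_of_lt (by omega)]
        have f1 : cs W (k + 1) T (gr W (k + 1)) = 2 ^ W * cs W k (T / 2) (gr W (k + 1) / 2 ^ W) +
          T % 2 * (gr W (k + 1) % 2 ^ W) := rfl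
        have f2 : cs W (k + 1) T (2 ^ (W * (k + 1)) - 1) =
          2 ^ W * cs W k (T / 2) ((2 ^ (W * (k + 1)) - 1) / 2 ^ W) +
          T % 2 * ((2 ^ (W * (k + 1)) - 1) % 2 ^ W) := rfl
        rw [f1, f2, e1, e2, e3, e4, ← ih (T / 2)]
        ring
    exact key 60 T
  rw [h2]
  apply Nat.eq_of_testBit_eq
  intro p
  rw [land_eq, Nat.testBit_and, cs_bit hW0, cs_bit hW0, Nat.testBit_two_pow_sub_one]
  by_cases h4 : p / W < 60
  · have h5 : p < W * 60 := by
      rw [Nat.div_lt_iff_lt_mul hW0] at h4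
      rw [Nat.mul_comm]; exact h4
    rw [decide_eq_true h4, decide_eq_true h5, Bool.true_and, Bool.true_and, Bool.and_true]
  · rw [decide_eq_false h4, Bool.false_and, Bool.false_and, Bool.false_and]

/-- the union of the selected fields -/
theorem sel_iff {W T C : Nat} (hW : 61 ≤ W) (hT : T < 2 ^ 60)
    (hd : ∀ x y b, x < 60 → y < 60 → b < W → Nat.testBit C (W * x + b) = true →
      Nat.testBit C (W * y + b) = true → x = y)
    (h0 : ∀ x < 60, Nat.testBit C (W * x) = false) (b : Nat) :
    Nat.testBit (sel W T C) b = true ↔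
      ∃ x < 60, Nat.testBit T x = true ∧ Nat.testBit C (W * x + b) = true ∧ b < W := by
  have e1 : sel W T C = Nat.mod (Nat.land (Nat.mul (Nat.land (Nat.mul T (geo (Nat.sub W 1) 60))
    (geo W 60)) (Nat.sub (Nat.pow 2 W) 1)) C) (Nat.sub (Nat.pow 2 W) 1) := rfl
  obtain ⟨h1, h2⟩ := su_bit (W := W) 60 T C hd
  have h3 : su W 60 T C < 2 ^ W - 1 := by
    have h4 : Nat.testBit (su W 60 T C) 0 = false := by
      rw [← Bool.not_eq_true]
      intro h5
      obtain ⟨x, x1, -, x3, -⟩ := (h2 0).1 h5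
      rw [Nat.add_zero, h0 x x1] at x3
      exact Bool.noConfusion x3
    rw [Nat.testBit_zero, decide_eq_false_iff_not] at h4
    have h5 : (2 ^ W) % 2 = 0 := by
      obtain ⟨c, hc⟩ : ∃ c, W = c + 1 := ⟨W - 1, by omega⟩
      rw [hc, pow_succ]; omega
    omega
  have e2 : sel W T C = su W 60 T C := by
    rw [e1, sel_cs hW hT]
    show cs W 60 T C % (2 ^ W - 1) = _
    rw [cs_mod 60 T C, Nat.mod_eq_of_lt h3]
  rw [e2]
  exact h2 b

/-- the union of the selected fields -/
theorem sel_sound {W T C : Nat} (hW : 61 ≤ W) (hT : T < 2 ^ 60)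
    (hd : ∀ x y b, x < 60 → y < 60 → b < W → Nat.testBit C (W * x + b) = true →
      Nat.testBit C (W * y + b) = true → x = y)
    (h0 : ∀ x < 60, Nat.testBit C (W * x) = false) {b : Nat}
    (h : Nat.testBit (sel W T C) b = true) :
    ∃ x < 60, Nat.testBit T x = true ∧ Nat.testBit C (W * x + b) = true ∧ b < W :=
  (sel_iff hW hT hd h0 b).1 h

end sel

end

end Pool.FCS
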