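import Pool.Agent.FCS.Wc
import Pool.Agent.FCS.Wd
import Pool.Agent.FCS.Wg
import Pool.Agent.FCS.Dv

/-!
# Star check, second version: keys, rows, leaves, trees (definitions)
-/

namespace Pool.FCS

noncomputable section

/-- list of `k` numbers with `b` bits -/
def dNa (b k : Nat) : Nat → List Nat :=
  Nat.rec (motive := fun _ => Nat → List Nat) (fun _ => [])
    (fun _ ih m => Nat.mod m (Nat.pow (nat_lit 2) b) :: ih (Nat.shiftRight m b)) k

/-- number of the candidates of a key record -/
def kn (K : Nat) : Nat := Nat.mod K (nat_lit 512)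

/-- the width of the fields -/
def kw (K : Nat) : Nat := Nat.mod (Nat.shiftRight K (nat_lit 9)) (nat_lit 512)

/-- the packed gains -/
def kg (K : Nat) : Nat :=
  Nat.mod (Nat.shiftRight K (nat_lit 18)) (Nat.pow (nat_lit 2) (Nat.mul 20 (Nat.add (kn K) 1)))

/-- the candidates by the classes of the first letters -/
def kCF (K : Nat) : Nat :=
  Nat.mod (Nat.shiftRight K (Nat.add 18 (Nat.mul 20 (Nat.add (kn K) 1))))
    (Nat.pow 2 (Nat.mul (kw K) 60))

/-- the candidates by the classes of the last letters -/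
def kCL (K : Nat) : Nat :=
  Nat.mod (Nat.shiftRight K (Nat.add (Nat.add 18 (Nat.mul 20 (Nat.add (kn K) 1)))
    (Nat.mul (kw K) 60))) (Nat.pow 2 (Nat.mul (kw K) 60))

/-- the class of a code, by the first letter -/
def clF (u : Nat) : Nat := Nat.add (Nat.mod u 32) (Nat.mul 20 (slf u))

/-- the class of a code, by the last letter -/
def clL (u : Nat) : Nat := Nat.add (Nat.div (lo u) (pwF (lo u))) (Nat.mul 20 (slf u))

/-- the candidates by classes -/
def mkC (cl : Nat → Nat) (cd : Nat → Nat) (W n : Nat) : Nat :=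
  Nat.rec (motive := fun _ => Nat) 0
    (fun b ih => (fun u : Nat => Bool.rec (motive := fun _ => Nat)
      (Nat.lor ih (Nat.shiftLeft 1 (Nat.add (Nat.mul W (cl u)) (Nat.succ b)))) ih (Nat.ble u 1))
      (cd (Nat.succ b))) n

/-- the row `j` of a packed list of rows -/
def rwj (N j : Nat) : Nat :=
  frc (Nat.mod (Nat.shiftRight N (Nat.add 9 (Nat.mul 60 j))) 1152921504606846976) fun e =>
    Nat.mod (Nat.shiftRight N (Nat.mod e 4294967296)) (Nat.pow 2 (Nat.shiftRight e 32))

/-- the row of the bit `κ` -/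
def rwx (n κ N : Nat) : Nat :=
  Bool.rec (motive := fun _ => Nat) 0 (rwj N (Nat.sub n κ))
    (Nat.ble (Nat.succ (Nat.sub n κ)) (Nat.mod N 512))

/-- the excluded bits of a row -/
def rex (r : Nat) : List Nat :=
  dNa 11 (Nat.mod r 512) (Nat.mod (Nat.shiftRight r 9) (Nat.pow 2 (Nat.mul 11 (Nat.mod r 512))))

/-- the rest of a row -/
def rr1 (r : Nat) : Nat := Nat.shiftRight r (Nat.add 9 (Nat.mul 11 (Nat.mod r 512)))

/-- the patterns with two members of a row: member, fact -/
def rss (r : Nat) : List Nat :=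
  dNa 36 (Nat.mod (rr1 r) 512)
    (Nat.mod (Nat.shiftRight (rr1 r) 9) (Nat.pow 2 (Nat.mul 36 (Nat.mod (rr1 r) 512))))

/-- a group: mark, members, (member, fact) -/
abbrev Gr := Nat × (List Nat × List Nat)

/-- the groups of a block, `T` the groups of the other blocks -/
def dgr (k : Nat) (T : List Gr) : Nat → List Gr :=
  Nat.rec (motive := fun _ => Nat → List Gr) (fun _ => T)
    (fun _ ih X => Bool.rec (motive := fun _ => List Gr)
      ((fun nb X2 : Nat => (Nat.div (Nat.mod X 16) 8, (dNa 12 nb (Nat.shiftRight X 4),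
          dNa 36 (Nat.mod X2 512) (Nat.shiftRight X2 9))) ::
          ih (Nat.shiftRight X2 (Nat.add 9 (Nat.mul 36 (Nat.mod X2 512)))))
        (Nat.sub (Nat.mod X 8) 1)
        (Nat.shiftRight X (Nat.add 4 (Nat.mul 12 (Nat.sub (Nat.mod X 8) 1)))))
      T (Nat.beq (Nat.mod X 8) 0)) k

/-- the groups, in blocks with 16 bits for the length -/
def dbk (k : Nat) : Nat → List Gr :=
  Nat.rec (motive := fun _ => Nat → List Gr) (fun _ => [])
    (fun _ ih X => Bool.rec (motive := fun _ => List Gr)
      (dgr 4096 (ih (Nat.shiftRight X (Nat.add 16 (Nat.mod X 65536))))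
        (Nat.mod (Nat.shiftRight X 16) (Nat.pow 2 (Nat.mod X 65536))))
      [] (Nat.beq (Nat.mod X 65536) 0)) k

/-- the groups of a row -/
def rgs (r : Nat) : List Gr :=
  dbk 65536 (Nat.shiftRight (rr1 r) (Nat.add 9 (Nat.mul 36 (Nat.mod (rr1 r) 512))))

/-- The parameters: `kt` the record of a key, `gF`, `gL` the conflicts of classes for a slack and a
digit, `mo` the pairs, `FN` the packed lists of facts, `lv`, `lm` the masks of the view letters, `T`, `Tm` the
letters of the facts. -/
structure Pw where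
  P : Pn
  kt : Nat → Nat
  gF : Nat → Nat → Nat
  gL : Nat → Nat → Nat
  mo : Nat → Nat → Bool
  FN : Nat → Nat
  lv : Nat → Nat
  lm : Nat → Nat
  T : Nat
  Tm : Nat

/-- all of a list -/
def ala {α : Type} (f : α → Bool) (l : List α) : Bool :=
  List.rec (motive := fun _ => Bool) true
    (fun z _ ih => Bool.rec (motive := fun _ => Bool) false ih (f z)) l

/-- the key of a position -/
def Pw.ke (W : Pw) (c i : Nat) : Nat := W.P.Q.ky (rot c i)

/-- the record of a position -/
def Pw.kr (W : Pw) (c i : Nat) : Nat := W.kt (W.ke c i)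

/-- the check of the record `K` of the key `a` -/
def Pw.kok (W : Pw) (a K : Nat) : Bool :=
  Bool.rec (motive := fun _ => Bool) false
    (Bool.rec (motive := fun _ => Bool) false
      (Bool.rec (motive := fun _ => Bool) false
        (Bool.rec (motive := fun _ => Bool) false
          (Bool.rec (motive := fun _ => Bool) false
            (Bool.rec (motive := fun _ => Bool) false
              (Nat.beq (kCL K) (mkC clL (W.P.cd a) (kw K) (kn K)))
              (Nat.beq (kCF K) (mkC clF (W.P.cd a) (kw K) (kn K))))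
            (Nat.beq (kg K) (pk (W.P.Q.pos a 0).cl (W.P.Q.pos a 0).df)))
          (pok (W.P.Q.pos a 0).cl (W.P.Q.pos a 0).df))
        (Nat.ble (Nat.add (kn K) 1) W.P.w))
      (Nat.beq (len (W.P.Q.pos a 0).cl) (kn K)))
    (Bool.rec (motive := fun _ => Bool) false (Nat.ble 61 (kw K))
      (Nat.ble (Nat.add (kn K) 1) (kw K)))

/-- the conflicts at the next position: `a` its key, `x` the digit, `y` the class of the code -/
def Pw.sN (W : Pw) (k a x y : Nat) : Nat :=
  frc (kw (W.kt a)) fun w => frc (Nat.mod (Nat.shiftRight (W.gF k x) (Nat.mul 64 y))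
    1152921504606846976) fun T => sel w T (kCF (W.kt a))

/-- the conflicts at the previous position: `a` its key, `x` the digit, `y` the class of the
code -/
def Pw.sP (W : Pw) (k a x y : Nat) : Nat :=
  frc (kw (W.kt a)) fun w => frc (Nat.mod (Nat.shiftRight (W.gL k x) (Nat.mul 64 y))
    1152921504606846976) fun T => sel w T (kCL (W.kt a))

/-- the conflicts of the neighbour `u` at the position `i` -/
def Pw.clm (W : Pw) (c d k i u : Nat) : Nat :=
  Bool.rec (motive := fun _ => Nat)
    (Nat.lor
      (Nat.shiftLeft (frc (W.ke c (nxt d i)) fun a => frc (dg (Nat.pow 32 i) c) fun x =>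
        frc (clL u) fun y => W.sN k a x y) (Nat.mul W.P.w (nxt d i)))
      (Nat.shiftLeft (frc (W.ke c (prv d i)) fun a => frc (dg (Nat.pow 32 (prv d i)) c) fun x =>
        frc (clF u) fun y => W.sP k a x y) (Nat.mul W.P.w (prv d i))))
    0 (Nat.ble u 1)

/-- the mask of a member -/
def Pw.mk1 (W : Pw) (c t : Nat) : Nat :=
  Bool.rec (motive := fun _ => Nat) (Nat.shiftLeft (nat_lit 1) t)
    (sl6 (W.P.plm c) (Nat.sub t 2048)) (Nat.ble 2048 t)

/-- the masks of members -/
def Pw.mkl (W : Pw) (c : Nat) (ts : List Nat) : List Nat :=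
  List.rec (motive := fun _ => List Nat) []
    (fun t _ ih => frc t (W.mk1 c) :: ih) ts

/-- the mask of members with facts -/
def Pw.mkz (W : Pw) (c : Nat) (zs : List Nat) : Nat :=
  List.rec (motive := fun _ => Nat) (nat_lit 0)
    (fun z _ ih => Nat.lor (frc (Nat.mod z (nat_lit 4096)) (W.mk1 c)) ih) zs

/-- the groups of a row as masks -/
def Pw.grm (W : Pw) (c : Nat) (G : List Gr) : List (List Nat × Nat) :=
  List.rec (motive := fun _ => List (List Nat × Nat)) []
    (fun g _ ih => (W.mkl c g.2.1, W.mkz c g.2.2) :: ih) G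

/-- the bits which are always excluded for a row -/
def Pw.stt (W : Pw) (c d k i κ r : Nat) : Nat :=
  Nat.lor (W.clm c d k i (W.P.cd (W.ke c i) κ)) (Nat.lor (msk (rex r)) (W.mkz c (rss r)))

/-- the excluded bits for a row -/
def Pw.rfn (W : Pw) (c d k i n N κ Z : Nat) : Nat :=
  Nat.lor (W.stt c d k i κ (rwx n κ N))
    (Dv.dyp Z (Dv.pkg (Nat.mul W.P.w d) (W.grm c (rgs (rwx n κ N)))))

theorem Pw.rfn_eq (W : Pw) (c d k i n N κ Z : Nat) : W.rfn c d k i n N κ Z =
    Nat.lor (W.stt c d k i κ (rwx n κ N)) (dyn Z (W.grm c (rgs (rwx n κ N)))) :=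
  congrArg (Nat.lor _) (Dv.dyp_pkg _ _ _)

/-- a position -/
def Pw.pq (W : Pw) (c d k i N : Nat) : PQ :=
  frc (W.kr c i) fun K => ⟨Nat.mul W.P.w i, Nat.sub (Nat.pow 2 (Nat.add (kn K) 1)) 1,
    kg K, Nat.add (kn K) 64, fun κ Z => W.rfn c d k i (kn K) N κ Z⟩

/-- the `i`-th number -/
def nth (L : List Nat) (i : Nat) : Nat :=
  List.rec (motive := fun _ => Nat → Nat) (fun _ => nat_lit 0)
    (fun x _ ih i => Bool.rec (motive := fun _ => Nat) (ih (Nat.sub i (nat_lit 1))) x
      (Nat.beq i (nat_lit 0))) L i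

/-- the positions in the given order -/
def Pw.pqs (W : Pw) (c d k : Nat) (NL : List Nat) (ord : List Nat) : List PQ :=
  List.rec (motive := fun _ => List PQ) []
    (fun i _ ih => sl6 (fun i => W.pq c d k i (nth NL i)) i :: ih) ord

/-- the field of a code -/
def yv (F : Nat → Nat) (v : Nat) : Nat :=
  Bool.rec (motive := fun _ => Nat) (frc (lo v) F) (nat_lit 0) (Nat.ble v (nat_lit 1))

/-- the fields of a member -/
def Pw.mv (W : Pw) (c t : Nat) : Nat :=
  Bool.rec (motive := fun _ => Nat)
    (Nat.shiftLeft (yv (fcd W.T) (W.P.cdt c t)) (Nat.mul 36 (Nat.div t W.P.w)))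
    (Nat.shiftLeft plu (Nat.mul 36 (Nat.sub t 2048))) (Nat.ble 2048 t)

/-- the fields of a member, opposite order -/
def Pw.mw (W : Pw) (c d t : Nat) : Nat :=
  Bool.rec (motive := fun _ => Nat)
    (Nat.shiftLeft (yv (fcm W.Tm) (W.P.cdt c t))
      (Nat.mul 36 (Nat.mod (Nat.sub d (Nat.div t W.P.w)) d)))
    (Nat.shiftLeft plu (Nat.mul 36 (Nat.mod (Nat.sub d (Nat.sub t 2048)) d))) (Nat.ble 2048 t)

/-- the fields of members -/
def Pw.mvs (W : Pw) (c : Nat) (ts : List Nat) (r : Nat) : Nat :=
  List.rec (motive := fun _ => Nat) r (fun t _ ih => Nat.lor (frc t (W.mv c)) ih) ts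

/-- the fields of members, opposite order -/
def Pw.mws (W : Pw) (c d : Nat) (ts : List Nat) (r : Nat) : Nat :=
  List.rec (motive := fun _ => Nat) r (fun t _ ih => Nat.lor (frc t (W.mw c d)) ih) ts

/-- a member with its fact, `A`, `B` the fields of the other members -/
def Pw.fqz (W : Pw) (c d AV AW A B z : Nat) : Bool :=
  frc (Nat.mod z (nat_lit 4096)) fun t =>
    fq W.FN d AV AW (Nat.lor A (W.mv c t)) (Nat.lor B (W.mw c d t))
      (Nat.shiftRight z (nat_lit 12))

/-- the check of the groups; `A`, `B` the fields of the row, `u` its code -/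
def Pw.ckg (W : Pw) (c d AV AW i u A B : Nat) (G : List Gr) : Bool :=
  List.rec (motive := fun _ => Bool) true
    (fun g _ ih => Bool.rec (motive := fun _ => Bool) false ih
      (Bool.rec (motive := fun _ => Bool)
        (Bool.rec (motive := fun _ => Bool) false
          (ala (W.fqz c d AV AW (W.mvs c g.2.1 (Nat.shiftLeft plu (Nat.mul 36 i)))
            (W.mws c d g.2.1 (Nat.shiftLeft plu (Nat.mul 36 (Nat.mod (Nat.sub d i) d))))) g.2.2)
          (Bool.rec (motive := fun _ => Bool) (Nat.ble u 4294967295) false (Nat.beq u 0)))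
        (ala (W.fqz c d AV AW (W.mvs c g.2.1 A) (W.mws c d g.2.1 B)) g.2.2)
        (Nat.beq g.1 0))) G

/-- the check of a row -/
def Pw.ckr (W : Pw) (c d k AV AW i κ r : Nat) : Bool :=
  (fun u A B : Nat =>
    Bool.rec (motive := fun _ => Bool) false
      (Bool.rec (motive := fun _ => Bool) false
        (W.ckg c d AV AW i u A B (rgs r))
        (ala (W.fqz c d AV AW A B) (rss r)))
      (ala (fun t => frc t (W.P.xtq W.mo k c d i u)) (rex r)))
    (W.P.cd (W.ke c i) κ) (Nat.shiftLeft (yv (fcd W.T) (W.P.cd (W.ke c i) κ)) (Nat.mul 36 i))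
    (Nat.shiftLeft (yv (fcm W.Tm) (W.P.cd (W.ke c i) κ)) (Nat.mul 36 (Nat.mod (Nat.sub d i) d)))

/-- the check of the rows of a position -/
def Pw.cks (W : Pw) (c d k AV AW i n N : Nat) : Bool :=
  Nat.rec (motive := fun _ => Bool) true
    (fun j ih => Bool.rec (motive := fun _ => Bool) false ih
      (frc (rwj N j) fun r => Bool.rec (motive := fun _ => Bool)
        (W.ckr c d k AV AW i (Nat.sub n j) r) true (Nat.beq r 0))) (Nat.mod N 512)

/-- the first mask -/
def Pw.m0 (W : Pw) (c d : Nat) (xs us : List Nat) : Nat :=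
  rmv (Nat.sub (Nat.pow 2 (Nat.mul W.P.w d)) 1) (Nat.lor (msk xs) (W.mkz c us))

/-- the check of a leaf: no null neighbour in `ns`, one null neighbour, two null neighbours -/
def Pw.lfn (W : Pw) (c d : Nat) (ns : List Nat) (ps : List PQ) (m : Nat) : Bool :=
  bif gon (W.P.Q.thr c) ps (rmv m (W.P.x0 c ns)) 0 0 then
    bif allb (fun i => bif Nat.ble (Nat.succ i) d then
        gon (Nat.add (W.P.Q.thr c) W.P.dl) ps (rmv m (Nat.lor (W.P.nlo c i) (W.P.x1 c i d))) 0 0
      else false) ns then
      alln d fun i => bif (bif tb W.P.Q.sm (dg (Nat.pow 32 i) c) then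
          (bif mem i ns then true else mem (nxt d i) ns) else false) then
        gon (W.P.Q.thr c) ps (rmv m (Nat.lor (W.P.nlo c i) (sl6 (W.P.nlo c) (nxt d i)))) 0 0
      else true
    else false
  else false

/-- the check of a leaf -/
def Pw.lfc (W : Pw) (c d k : Nat) (o x s u : Nat) (NL V : List Nat) : Bool :=
  Bool.rec (motive := fun _ => Bool) false
    (Bool.rec (motive := fun _ => Bool) false
      (Bool.rec (motive := fun _ => Bool) false
        (List.rec (motive := fun _ => Bool)
          (gon (W.P.Q.thr c) (W.pqs c d k NL (dN 3 o)) (W.m0 c d (dN 11 x) (dN 36 u)) 0 0)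
          (fun _ _ _ => W.lfn c d (dN 3 s) (W.pqs c d k NL (dN 3 o))
            (W.m0 c d (dN 11 x) (dN 36 u))) (dN 3 s))
        (frc (av2 W.lv V) fun AV => frc (av2 W.lm (rvl V)) fun AW =>
          Bool.rec (motive := fun _ => Bool) false
            (alln d fun i => W.cks c d k AV AW i (kn (W.kr c i)) (nth NL i))
            (ala (W.fqz c d AV AW 0 0) (dN 36 u))))
      (ala (fun t => frc t (W.P.ux c d k V)) (dN 11 x)))
    (okOrd d (dN 3 o))

/-- The tree of a centre: leaf (order, excluded bits, positions where a null neighbour is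
considered separately, single patterns, rows), dead, split a sector, next letter, end. -/
inductive Tr2 where
  | lf (o x s u : Nat) (NL : List Nat) : Tr2
  | dd (n : Nat) : Tr2
  | sp (i : Nat) (t : Tr2) : Tr2
  | ch (a t : Tr2) : Tr2
  | en : Tr2

/-- the check of a tree -/
def Pw.ckt (W : Pw) (c d k : Nat) (t : Tr2) : List Nat → Nat → List Nat → Bool :=
  Tr2.rec (motive := fun _ => List Nat → Nat → List Nat → Bool)
    (fun o x s u NL V _ _ => W.lfc c d k o x s u NL V)
    (fun n V _ _ => fq W.FN d (av2 W.lv V) (av2 W.lm (rvl V)) 0 0 n)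
    (fun i _ ih V _ _ => bif Nat.ble (Nat.succ i) d then ih V i (W.P.lg (gtk V i)) else false)
    (fun _ _ iha iht V i L => List.rec (motive := fun _ => Bool) true
      (fun x L' _ => bif (bif W.P.imp k x (gtk V (prv d i)) (gtk V (nxt d i)) then true else
          iha (stk x V i) i [x]) then
        iht V i L' else false) L)
    (fun _ _ L => List.rec (motive := fun _ => Bool) true (fun _ _ _ => false) L) t

/-- all leaves are dead -/
def ded2 (t : Tr2) : Bool :=
  Tr2.rec (motive := fun _ => Bool) (fun _ _ _ _ _ => false) (fun _ => true) (fun _ _ ih => ih)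
    (fun _ _ iha iht => bif iha then iht else false) true t

/-- A centre: code, tree. -/
structure CE2 where
  c : Nat
  t : Tr2

/-- The check of an entry of the table of the centres (no records of keys for dead trees). -/
def Pw.ckc (W : Pw) (k : Nat) (l : List CE2) : Bool :=
  List.rec (motive := fun _ => Bool) true
    (fun E _ ih => bif Nat.beq E.c k then
      bif (bif ded2 E.t then true else alln (dgn k) (fun i => Nat.ble 1 (W.kr k i))) then
        bif W.ckt k (dgn k) (wsl W.P.Q.wm k) E.t (W.P.v0 k) 0 (W.P.lg (gtk (W.P.v0 k) 0))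
          then ih else false
      else false
    else false) l

/-- first rotation in the table of the centres: `0` none, `1` dead, `2` centre -/
def csu2 (CB : BT (List CE2)) (c d : Nat) : Nat :=
  Nat.rec (motive := fun _ => Nat) 0
    (fun i ih => List.rec (motive := fun _ => Nat) ih
      (fun E _ _ => bif ded2 E.t then 1 else 2) (CB.get (rot c i))) d

/-- the check of a word -/
def Pw.cow (W : Pw) (CB : BT (List CE2)) (WL : BT (List Nat)) (c : Nat) : Bool :=
  (fun t : Nat => bif Nat.beq t 1 then true else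
    bif (bif Nat.beq t 0 then W.P.Q.trv c else true) then
      mem (W.P.Q.ky c) (WL.get (hi (W.P.Q.ky c)))
    else false) (csu2 CB c (dgn c))

end

end Pool.FCS
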