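import Pool.Agent.FCS.We

/-!
# Star check, second version: soundness
-/

namespace Pool.FCS

open Finset

noncomputable section

section sound

variable {D : Type*} {cmp cmp' cmpS : Nat → Nat → Bool} {sol sol' lng : Nat → Bool}
  {S : Sys D} {cc f : Nat → Nat} {W : Pw} {le : Nat → Nat → Bool} {ml : Nat → Nat} {e : D}

/-- conflict of the classes of two neighbours, first table -/
def Pw.cF (W : Pw) (k x u v : Nat) : Bool :=
  Nat.testBit (Nat.shiftRight (W.gF k x) (Nat.mul 64 (clL u))) (clF v)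

/-- conflict of the classes of two neighbours, second table -/
def Pw.cL (W : Pw) (k x u v : Nat) : Bool :=
  Nat.testBit (Nat.shiftRight (W.gL k x) (Nat.mul 64 (clF v))) (clL u)

/-- The hypotheses on the tables of the second version. -/
structure Hk (le : Nat → Nat → Bool) (ml : Nat → Nat) (sol : Nat → Bool) (S : Sys D)
    (cc f : Nat → Nat) (W : Pw) : Prop where
  hw : Hw S cc f W.P ml W.lv W.lm W.T W.Tm
  gF : ∀ r, S.W r ≠ [] → S.W (S.al r) ≠ [] → S.W (S.al (S.nx r)) ≠ [] →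
    W.cF (wsl W.P.Q.wm ((S.mp cc).c r)) (cc ((S.W r).getD 0 0) + 1)
      (nfc W.P.Q.bm W.P.Q.wm W.P.Q.sm ((S.mp cc).c (S.al r)))
      (nfc W.P.Q.bm W.P.Q.wm W.P.Q.sm ((S.mp cc).c (S.al (S.nx r)))) = false
  gL : ∀ r, S.W r ≠ [] → S.W (S.al r) ≠ [] → S.W (S.al (S.nx r)) ≠ [] →
    W.cL (wsl W.P.Q.wm ((S.mp cc).c r)) (cc ((S.W r).getD 0 0) + 1)
      (nfc W.P.Q.bm W.P.Q.wm W.P.Q.sm ((S.mp cc).c (S.al r)))
      (nfc W.P.Q.bm W.P.Q.wm W.P.Q.sm ((S.mp cc).c (S.al (S.nx r)))) = false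
  mo : ∀ x y, W.mo x y = true → memF y (getF W.P.Q.PF x) = true
  kt : ∀ a, W.kt a ≠ 0 → W.kok a (W.kt a) = true
  fn : ∀ l, ∀ X ∈ dF (W.FN l), NoX le ml sol S X

/-- the records of the keys of a centre are correct -/
def Kk (W : Pw) (c d : Nat) : Prop := ∀ i < d, W.kok (W.ke c i) (W.kr c i) = true


/-! ### Conjunctions -/

theorem brec_and {a b : Bool} : (Bool.rec (motive := fun _ => Bool) false b a) = true ↔
    a = true ∧ b = true := by
  cases a
  · constructor
    · intro h; exact Bool.noConfusion (show false = true from h)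
    · intro h; exact Bool.noConfusion h.1
  · constructor
    · intro h; exact ⟨rfl, h⟩
    · intro h; exact h.2

theorem ala_iff {α : Type} {f : α → Bool} : ∀ {l : List α}, ala f l = true ↔ ∀ x ∈ l, f x = true
  | [] => by
    constructor
    · intro _ x hx; simp at hx
    · intro _; rfl
  | z :: l => by
    have e : ala f (z :: l) = Bool.rec (motive := fun _ => Bool) false (ala f l) (f z) := rfl
    rw [e, brec_and, ala_iff (l := l)]
    simp

/-- The parts of the check of a record. -/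
structure Kp (W : Pw) (a K : Nat) : Prop where
  w1 : kn K + 1 ≤ kw K
  w2 : 61 ≤ kw K
  n : (W.P.Q.pos a 0).cl.length = kn K
  w3 : kn K + 1 ≤ W.P.w
  pok : pok (W.P.Q.pos a 0).cl (W.P.Q.pos a 0).df = true
  g : kg K = pk (W.P.Q.pos a 0).cl (W.P.Q.pos a 0).df
  cF : kCF K = mkC clF (W.P.cd a) (kw K) (kn K)
  cL : kCL K = mkC clL (W.P.cd a) (kw K) (kn K)

theorem kok_kp {a K : Nat} (h : W.kok a K = true) : Kp W a K := by
  unfold Pw.kok at h
  simp only [brec_and] at h
  obtain ⟨⟨h1, h2⟩, h3, h4, h5, h6, h7, h8⟩ := h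
  refine ⟨Nat.le_of_ble_eq_true h1, Nat.le_of_ble_eq_true h2, ?_, Nat.le_of_ble_eq_true h4, h5,
    Nat.eq_of_beq_eq_true h6, Nat.eq_of_beq_eq_true h7, Nat.eq_of_beq_eq_true h8⟩
  rw [← len_eq]
  exact Nat.eq_of_beq_eq_true h3

/-- the old check of the positions, without exclusions -/
theorem kk_ckR {k c d : Nat} (h : Kk W c d) : W.P.ckR k c d [] = true := by
  unfold Pn.ckR
  rw [alln_iff]
  intro i hi
  have hp := kok_kp (h i hi)
  have e1 : (W.P.ps c i).cl = (W.P.Q.pos (W.ke c i) 0).cl := Pm.pos_cl _ _ _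
  have e2 : (W.P.ps c i).df = (W.P.Q.pos (W.ke c i) 0).df := Pm.pos_df _ _ _
  rw [cond_true_iff, cond_true_iff, e1, e2, len_eq]
  refine ⟨hp.pok, ?_, rfl⟩
  rw [hp.n]
  exact Nat.ble_eq_true_of_le hp.w3

theorem mkC_bit {cl cd : Nat → Nat} {w n p : Nat} (h : Nat.testBit (mkC cl cd w n) p = true) :
    ∃ b, 0 < b ∧ b ≤ n ∧ 1 < cd b ∧ p = w * cl (cd b) + b := by
  induction n with
  | zero =>
    have h' : Nat.testBit 0 p = true := h
    rw [Nat.zero_testBit] at h'
    exact Bool.noConfusion h'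
  | succ n ih =>
    have e : mkC cl cd w (n + 1) = Bool.rec (motive := fun _ => Nat)
      (Nat.lor (mkC cl cd w n) (Nat.shiftLeft 1 (w * cl (cd (n + 1)) + (n + 1))))
      (mkC cl cd w n) (Nat.ble (cd (n + 1)) 1) := rfl
    rw [e] at h
    cases hb : Nat.ble (cd (n + 1)) 1 with
    | true =>
      rw [hb] at h
      obtain ⟨b, b1, b2, b3, b4⟩ := ih h
      exact ⟨b, b1, by omega, b3, b4⟩
    | false =>
      rw [hb] at h
      have h' : Nat.testBit (Nat.lor (mkC cl cd w n)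
        (Nat.shiftLeft 1 (w * cl (cd (n + 1)) + (n + 1)))) p = true := h
      rw [lor_eq, shl_one, Nat.testBit_or, Bool.or_eq_true, Nat.testBit_two_pow,
        decide_eq_true_eq] at h'
      rcases h' with h' | h'
      · obtain ⟨b, b1, b2, b3, b4⟩ := ih h'
        exact ⟨b, b1, by omega, b3, b4⟩
      · refine ⟨n + 1, by omega, le_refl _, ?_, h'.symm⟩
        by_contra hc
        have : Nat.ble (cd (n + 1)) 1 = true := Nat.ble_eq_true_of_le (by omega)
        rw [this] at hb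
        exact Bool.noConfusion hb

/-- uniqueness of quotient and remainder -/
theorem div_uniq {w a b c d : Nat} (hb : b < w) (hd : d < w) (h : w * a + b = w * c + d) :
    a = c ∧ b = d := by
  have hw : 0 < w := by omega
  have h1 : (w * a + b) / w = a := by
    rw [Nat.mul_add_div hw, Nat.div_eq_of_lt hb, Nat.add_zero]
  have h2 : (w * c + d) / w = c := by
    rw [Nat.mul_add_div hw, Nat.div_eq_of_lt hd, Nat.add_zero]
  have h3 : a = c := by rw [← h1, h, h2]
  subst h3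
  exact ⟨rfl, by omega⟩

/-- the selected candidates -/
theorem sel_mkC {cl cd : Nat → Nat} {w n T b : Nat} (h1 : n + 1 ≤ w) (h2 : 61 ≤ w)
    (h : Nat.testBit (sel w (Nat.mod T 1152921504606846976) (mkC cl cd w n)) b = true) :
    0 < b ∧ b ≤ n ∧ 1 < cd b ∧ Nat.testBit T (cl (cd b)) = true := by
  have e60 : (1152921504606846976 : Nat) = 2 ^ 60 := by norm_num
  have hT : Nat.mod T 1152921504606846976 < 2 ^ 60 := by
    rw [← e60]; exact Nat.mod_lt _ (by norm_num)
  obtain ⟨x, x1, x2, x3, x4⟩ := sel_sound h2 hT (fun x y b hx hy hb h3 h4 => by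
      obtain ⟨b1, _, c2, _, c4⟩ := mkC_bit h3
      obtain ⟨b2, _, d2, _, d4⟩ := mkC_bit h4
      obtain ⟨u1, u2⟩ := div_uniq hb (by omega) c4
      obtain ⟨v1, v2⟩ := div_uniq hb (by omega) d4
      rw [u1, v1, ← u2, ← v2]) (fun x _ => by
      rw [← Bool.not_eq_true]
      intro h3
      obtain ⟨b1, c1, c2, _, c4⟩ := mkC_bit h3
      have c4' : w * x + 0 = w * cl (cd b1) + b1 := by rw [Nat.add_zero]; exact c4
      have := (div_uniq (by omega) (by omega) c4').2
      omega) h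
  obtain ⟨b', c1, c2, c3, c4⟩ := mkC_bit x3
  obtain ⟨u1, u2⟩ := div_uniq x4 (by omega) c4
  subst u2
  refine ⟨c1, c2, c3, ?_⟩
  have x2' : Nat.testBit (T % 2 ^ 60) x = true := by
    rw [← e60]; exact x2
  rw [Nat.testBit_mod_two_pow, Bool.and_eq_true] at x2'
  rw [← u1]
  exact x2'.2

theorem nxt_prv {d i : Nat} (hi : i < d) : nxt d (prv d i) = i := by
  unfold prv
  cases h0 : Nat.beq i 0 with
  | true =>
    have h0' := Nat.eq_of_beq_eq_true h0
    subst h0'
    obtain ⟨d, rfl⟩ : ∃ k, d = k + 1 := ⟨d - 1, by omega⟩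
    show nxt (d + 1) d = 0
    unfold nxt
    have : Nat.beq (Nat.succ d) (d + 1) = true := Nat.beq_refl _
    rw [this]; rfl
  | false =>
    have h0' := Nat.ne_of_beq_eq_false h0
    obtain ⟨i, rfl⟩ : ∃ k, i = k + 1 := ⟨i - 1, by omega⟩
    show nxt d i = i + 1
    unfold nxt
    have : Nat.beq (Nat.succ i) d = false := by
      rw [← Bool.not_eq_true]
      intro h
      have h1 : i + 1 = d := Nat.eq_of_beq_eq_true h
      omega
    rw [this]; rfl

/-- a neighbour with a code has a word -/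
theorem nfy_nfc (hv : Hv cmpS cmp cmp' sol sol' S cc f W.P le) {i : Nat}
    (h : 1 < W.P.nfy (S.mp cc) e i) : S.W (S.al (S.nx^[i] e)) ≠ [] ∧
      W.P.nfy (S.mp cc) e i = nfc W.P.Q.bm W.P.Q.wm W.P.Q.sm
        ((S.mp cc).c (S.al (S.nx^[i] e))) := by
  have n1 : (S.mp cc).W ((S.mp cc).al ((S.mp cc).nx^[i] e)) ≠ [] := by
    intro h0
    have : W.P.nfy (S.mp cc) e i = 1 := nf_nil h0
    omega
  exact ⟨mp_ne.1 n1, nf_ne n1⟩

/-- the code of a true bit -/
theorem cd_kp (hv : Hv cmpS cmp cmp' sol sol' S cc f W.P le) {i : Nat}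
    (h0 : W.P.kp (S.mp cc) e i ≠ 0) :
    W.P.cd (W.ke ((S.mp cc).c e) i) (W.P.kp (S.mp cc) e i) = W.P.nfy (S.mp cc) e i := by
  have h1 : W.P.cd (W.ke ((S.mp cc).c e) i) (W.P.kp (S.mp cc) e i) =
      cda (W.P.Q.pos (W.ke ((S.mp cc).c e) i) 0).cl (W.P.kp (S.mp cc) e i) := hv.h2.hcd _ _
  have h2 : (W.P.ps ((S.mp cc).c e) i).cl = (W.P.Q.pos (W.ke ((S.mp cc).c e) i) 0).cl :=
    Pm.pos_cl _ _ _
  rw [h1, ← h2]
  exact cda_ix h0

theorem mlen {e : D} : ((S.mp cc).W e).length = (S.W e).length := by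
  show ((S.W e).map cc).length = _
  rw [List.length_map]

theorem kk_ckR' (hK : Kk W ((S.mp cc).c e) (S.W e).length) (k : Nat) :
    W.P.ckR k ((S.mp cc).c e) ((S.mp cc).W e).length [] = true := by
  rw [mlen]; exact kk_ckR hK

/-- the digit of a sector -/
theorem dg_cc (hv : Hv cmpS cmp cmp' sol sol' S cc f W.P le) (he : S.W e ≠ []) {i : Nat}
    (hi : i < (S.W e).length) :
    dg (Nat.pow 32 i) ((S.mp cc).c e) = cc ((S.W (S.nx^[i] e)).getD 0 0) + 1 := by
  have h1 := dg_sec hv.h2.ok (e := e) (i := i) (by rw [mlen]; exact hi) (mp_ne.2 he)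
  rw [h1]
  have h4 := (hv.hS.len _ (hv.hS.ne_iter he i)).1
  show ((S.W (S.nx^[i] e)).map cc).getD 0 0 + 1 = _
  rw [getD_map0 (by omega)]

/-- the true bit of a shifted mask -/
theorem tau_shl (hK : Kk W ((S.mp cc).c e) (S.W e).length) {j X n : Nat}
    (hj : j < (S.W e).length) (hX : ∀ b, Nat.testBit X b = true → 0 < b ∧ b ≤ n)
    (hn : n + 1 ≤ W.P.w)
    (h : Sat (W.P.tau (S.mp cc) e) (Nat.shiftLeft X (Nat.mul W.P.w j))) :
    W.P.kp (S.mp cc) e j ≠ 0 ∧ Nat.testBit X (W.P.kp (S.mp cc) e j) = true := by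
  obtain ⟨t, t1, t2⟩ := h
  have t3 : Nat.testBit (X <<< (W.P.w * j)) t = true := t2
  rw [Nat.testBit_shiftLeft, Bool.and_eq_true, decide_eq_true_eq] at t3
  obtain ⟨t4, t5⟩ := t3
  obtain ⟨h1, h2⟩ := hX _ t5
  have h3 := (tau_pos (kk_ckR' hK 0) t1 (i := j) t4 (by omega)).2
  have h4 : t - W.P.w * j = W.P.kp (S.mp cc) e j := by omega
  rw [h4] at t5 h1
  exact ⟨by omega, t5⟩

/-- the conflicts of classes -/
theorem clm_ok (hv : Hv cmpS cmp cmp' sol sol' S cc f W.P le) (hk : Hk le ml sol S cc f W)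
    (he : S.W e ≠ []) (hK : Kk W ((S.mp cc).c e) (S.W e).length) {i : Nat}
    (hi : i < (S.W e).length) : ¬ Sat (W.P.tau (S.mp cc) e) (W.clm ((S.mp cc).c e)
      (S.W e).length (wsl W.P.Q.wm ((S.mp cc).c e)) i (W.P.nfy (S.mp cc) e i)) := by
  unfold Pw.clm
  cases hu : Nat.ble (W.P.nfy (S.mp cc) e i) 1 with
  | true => exact not_sat_zero
  | false =>
    have hu1 : 1 < W.P.nfy (S.mp cc) e i := by
      by_contra hc
      have : Nat.ble (W.P.nfy (S.mp cc) e i) 1 = true := Nat.ble_eq_true_of_le (by omega)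
      rw [this] at hu
      exact Bool.noConfusion hu
    obtain ⟨m1, m2⟩ := nfy_nfc hv hu1
    intro hs
    have hnx : nxt (S.W e).length i < (S.W e).length := nxt_lt hi
    have hpv : prv (S.W e).length i < (S.W e).length := prv_lt hi
    rcases sat_lor hs with hs | hs
    · -- the next position
      have hp := kok_kp (hK _ hnx)
      have key : ∀ b, Nat.testBit (W.sN (wsl W.P.Q.wm ((S.mp cc).c e))
          (W.ke ((S.mp cc).c e) (nxt (S.W e).length i)) (dg (Nat.pow 32 i) ((S.mp cc).c e))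
          (clL (W.P.nfy (S.mp cc) e i))) b = true → 0 < b ∧
          b ≤ kn (W.kr ((S.mp cc).c e) (nxt (S.W e).length i)) ∧
          1 < W.P.cd (W.ke ((S.mp cc).c e) (nxt (S.W e).length i)) b ∧
          W.cF (wsl W.P.Q.wm ((S.mp cc).c e)) (dg (Nat.pow 32 i) ((S.mp cc).c e))
            (W.P.nfy (S.mp cc) e i) (W.P.cd (W.ke ((S.mp cc).c e) (nxt (S.W e).length i)) b) =
              true := by
        intro b hb
        have hb' : Nat.testBit (sel (kw (W.kr ((S.mp cc).c e) (nxt (S.W e).length i)))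
          (Nat.mod (Nat.shiftRight (W.gF (wsl W.P.Q.wm ((S.mp cc).c e))
            (dg (Nat.pow 32 i) ((S.mp cc).c e)))
            (Nat.mul 64 (clL (W.P.nfy (S.mp cc) e i)))) 1152921504606846976)
          (kCF (W.kr ((S.mp cc).c e) (nxt (S.W e).length i)))) b = true := hb
        rw [hp.cF] at hb'
        obtain ⟨c1, c2, c3, c4⟩ := sel_mkC hp.w1 hp.w2 hb'
        exact ⟨c1, c2, c3, c4⟩
      obtain ⟨h1, h2⟩ := tau_shl hK hnx (fun b hb => ⟨(key b hb).1, (key b hb).2.1⟩) hp.w3 hs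
      obtain ⟨-, -, k3, k4⟩ := key _ h2
      rw [cd_kp hv h1] at k3 k4
      obtain ⟨n1, n2⟩ := nfy_nfc hv k3
      rw [nx_nxt hv.hS he i] at n1 n2
      rw [dg_cc hv he hi, m2, n2] at k4
      have g := hk.gF (S.nx^[i] e) (hv.hS.ne_iter he i) m1 n1
      have g1 : wsl W.P.Q.wm ((S.mp cc).c e) = wsl W.P.Q.wm ((S.mp cc).c (S.nx^[i] e)) :=
        (wsl_iter hv.h2.ok (mp_ne.2 he) i).symm
      rw [g1] at k4
      exact Bool.noConfusion (g.symm.trans k4)
    · -- the previous position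
      have hp := kok_kp (hK _ hpv)
      have key : ∀ b, Nat.testBit (W.sP (wsl W.P.Q.wm ((S.mp cc).c e))
          (W.ke ((S.mp cc).c e) (prv (S.W e).length i))
          (dg (Nat.pow 32 (prv (S.W e).length i)) ((S.mp cc).c e))
          (clF (W.P.nfy (S.mp cc) e i))) b = true → 0 < b ∧
          b ≤ kn (W.kr ((S.mp cc).c e) (prv (S.W e).length i)) ∧
          1 < W.P.cd (W.ke ((S.mp cc).c e) (prv (S.W e).length i)) b ∧
          W.cL (wsl W.P.Q.wm ((S.mp cc).c e))
            (dg (Nat.pow 32 (prv (S.W e).length i)) ((S.mp cc).c e))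
            (W.P.cd (W.ke ((S.mp cc).c e) (prv (S.W e).length i)) b)
            (W.P.nfy (S.mp cc) e i) = true := by
        intro b hb
        have hb' : Nat.testBit (sel (kw (W.kr ((S.mp cc).c e) (prv (S.W e).length i)))
          (Nat.mod (Nat.shiftRight (W.gL (wsl W.P.Q.wm ((S.mp cc).c e))
            (dg (Nat.pow 32 (prv (S.W e).length i)) ((S.mp cc).c e)))
            (Nat.mul 64 (clF (W.P.nfy (S.mp cc) e i)))) 1152921504606846976)
          (kCL (W.kr ((S.mp cc).c e) (prv (S.W e).length i)))) b = true := hb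
        rw [hp.cL] at hb'
        obtain ⟨c1, c2, c3, c4⟩ := sel_mkC hp.w1 hp.w2 hb'
        exact ⟨c1, c2, c3, c4⟩
      obtain ⟨h1, h2⟩ := tau_shl hK hpv (fun b hb => ⟨(key b hb).1, (key b hb).2.1⟩) hp.w3 hs
      obtain ⟨-, -, k3, k4⟩ := key _ h2
      rw [cd_kp hv h1] at k3 k4
      obtain ⟨n1, n2⟩ := nfy_nfc hv k3
      have e1 : S.nx^[i] e = S.nx (S.nx^[prv (S.W e).length i] e) := by
        rw [← nx_nxt hv.hS he, nxt_prv hi]
      rw [e1] at m1 m2
      rw [dg_cc hv he hpv, m2, n2] at k4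
      have g := hk.gL (S.nx^[prv (S.W e).length i] e) (hv.hS.ne_iter he _) n1 m1
      have g1 : wsl W.P.Q.wm ((S.mp cc).c e) =
          wsl W.P.Q.wm ((S.mp cc).c (S.nx^[prv (S.W e).length i] e)) :=
        (wsl_iter hv.h2.ok (mp_ne.2 he) _).symm
      rw [g1] at k4
      exact Bool.noConfusion (g.symm.trans k4)

theorem allZ_sat {τ : Nat → Prop} {Z : Nat} (hZ : ∀ t, Nat.testBit Z t = true → τ t) :
    ∀ {Bs : List Nat}, allZ Z Bs = true → ∀ B ∈ Bs, Sat τ B
  | [], _, B, hB => by simp at hB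
  | C :: Bs, h, B, hB => by
    have e : allZ Z (C :: Bs) = Bool.rec (motive := fun _ => Bool) (allZ Z Bs) false
      (Nat.beq (Nat.land C Z) 0) := rfl
    rw [e] at h
    cases hb : Nat.beq (Nat.land C Z) 0 with
    | true => rw [hb] at h; exact Bool.noConfusion h
    | false =>
      rw [hb] at h
      rcases List.mem_cons.1 hB with rfl | hB
      · obtain ⟨t, t1, t2⟩ := land_ne (Nat.ne_of_beq_eq_false hb)
        exact ⟨t, hZ t t2, t1⟩
      · exact allZ_sat hZ h B hB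

theorem dyn_ok {τ : Nat → Prop} {Z : Nat} (hZ : ∀ t, Nat.testBit Z t = true → τ t) :
    ∀ {G : List (List Nat × Nat)}, (∀ g ∈ G, (∀ B ∈ g.1, Sat τ B) → ¬ Sat τ g.2) →
    ¬ Sat τ (dyn Z G)
  | [], _ => not_sat_zero
  | g :: G, h => by
    have e : dyn Z (g :: G) = Bool.rec (motive := fun _ => Nat) (dyn Z G)
      (Nat.lor g.2 (dyn Z G)) (allZ Z g.1) := rfl
    have ih := dyn_ok hZ (G := G) fun g' hg' => h g' (List.mem_cons_of_mem _ hg')
    rw [e]
    cases ha : allZ Z g.1 with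
    | false => exact ih
    | true =>
      intro hs
      have hs' : Sat τ (Nat.lor g.2 (dyn Z G)) := hs
      rcases sat_lor hs' with hs | hs
      · exact h g (List.mem_cons_self ..) (allZ_sat hZ ha) hs
      · exact ih hs

/-- the mask of the neighbours which are null or not solid of length 4 -/
theorem plm_tau (hK : Kk W ((S.mp cc).c e) (S.W e).length) {m : Nat}
    (h : Sat (W.P.tau (S.mp cc) e) (W.P.plm ((S.mp cc).c e) m)) :
    m < (S.W e).length ∧ W.P.nfy (S.mp cc) e m < 4294967296 := by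
  have hc := kk_ckR' hK 0
  obtain ⟨s, s1, s2⟩ := h
  unfold Pn.plm at s2
  rw [len_eq] at s2
  obtain ⟨n, n1, n2, n3, n4⟩ := plm_aux _ s s2
  obtain ⟨i, i1, i2⟩ := s1
  have hk := kp_lt hc i1
  have n2' : s = W.P.w * m + ((W.P.ps ((S.mp cc).c e) m).cl.length - n) := n2
  have hi : i = m := by
    by_contra hne
    rw [i2] at n2'
    rcases Nat.lt_or_gt_of_ne hne with hlt | hgt
    · obtain ⟨z, hz⟩ : ∃ z, m = i + 1 + z := ⟨m - i - 1, by omega⟩
      have e5 : W.P.w * m = W.P.w * i + W.P.w + W.P.w * z := by rw [hz]; ring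
      omega
    · have hlt : m < ((S.mp cc).W e).length := by omega
      have hk2 := (kp_lt hc hlt).1
      obtain ⟨z, hz⟩ : ∃ z, i = m + 1 + z := ⟨i - m - 1, by omega⟩
      have e5 : W.P.w * i = W.P.w * m + W.P.w + W.P.w * z := by rw [hz]; ring
      omega
  subst hi
  have h5 : W.P.kp (S.mp cc) e i = (W.P.ps ((S.mp cc).c e) i).cl.length - n := by omega
  have h6 : W.P.nfy (S.mp cc) e i = ((W.P.ps ((S.mp cc).c e) i).cl.getD n (0, 0)).2 := by
    rw [← cda_getD _ n n1, ← h5]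
    exact (cda_ix (by
      have : W.P.kp (S.mp cc) e i ≠ 0 := by omega
      exact this)).symm
  rw [mlen] at i1
  refine ⟨i1, ?_⟩
  rw [h6]
  by_contra hc2
  have : Nat.ble 4294967296 ((W.P.ps ((S.mp cc).c e) i).cl.getD n (0, 0)).2 = true :=
    Nat.ble_eq_true_of_le (by omega)
  rw [this] at n3
  exact Bool.noConfusion n3

/-- the field of a code -/
theorem yv_vf {F : Nat → Nat} {p v : Nat}
    (h : v = 0 ∨ v = W.P.nfy (S.mp cc) e p) : Vf W.P S cc e F p (yv F v) := by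
  unfold yv
  cases hb : Nat.ble v 1 with
  | true => exact Or.inl rfl
  | false =>
    have hv1 : 1 < v := by
      by_contra hc
      have : Nat.ble v 1 = true := Nat.ble_eq_true_of_le (by omega)
      rw [this] at hb
      exact Bool.noConfusion hb
    rcases h with h | h
    · omega
    · refine Or.inr (Or.inl ⟨by rw [← h]; exact hv1, ?_⟩)
      show F (lo v) = _
      rw [h]

/-- a member whose mask has a true bit gives correct fields -/
theorem mv_vo (hv : Hv cmpS cmp cmp' sol sol' S cc f W.P le) (hk : Hk le ml sol S cc f W)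
    (hK : Kk W ((S.mp cc).c e) (S.W e).length) {t : Nat}
    (ht : Sat (W.P.tau (S.mp cc) e) (W.mk1 ((S.mp cc).c e) t)) :
    Vo W.P S cc W.T e (W.mv ((S.mp cc).c e) t) ∧
      Wo W.P S cc W.Tm e (W.mw ((S.mp cc).c e) (S.W e).length t) := by
  unfold Pw.mk1 at ht
  unfold Pw.mv Pw.mw
  cases hb : Nat.ble 2048 t with
  | false =>
    rw [hb] at ht
    have ht' : Sat (W.P.tau (S.mp cc) e) (Nat.shiftLeft 1 t) := ht
    rw [shl_one] at ht'
    obtain ⟨s, s1, s2⟩ := ht'
    rw [Nat.testBit_two_pow, decide_eq_true_eq] at s2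
    subst s2
    have hc := kk_ckR' hK 0
    have h1 := (tau_div hc s1).1
    rw [mlen] at h1
    have h2 := cdt_tau hv.h2 hc s1
    exact ⟨Vo.one hk.hw hv h1 (yv_vf h2), Wo.one hk.hw hv h1 (yv_vf h2)⟩
  | true =>
    rw [hb] at ht
    have ht' : Sat (W.P.tau (S.mp cc) e) (sl6 (W.P.plm ((S.mp cc).c e)) (Nat.sub t 2048)) := ht
    rw [sl6_eq] at ht'
    obtain ⟨h1, h2⟩ := plm_tau hK ht'
    exact ⟨Vo.one hk.hw hv h1 (Or.inr (Or.inr ⟨rfl, h2⟩)),
      Wo.one hk.hw hv h1 (Or.inr (Or.inr ⟨rfl, h2⟩))⟩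

/-- a fact excludes a member if the other members occur (`A`, `B` their fields) -/
theorem fqz_ok (hv : Hv cmpS cmp cmp' sol sol' S cc f W.P le) (hk : Hk le ml sol S cc f W)
    (he : S.W e ≠ []) (hK : Kk W ((S.mp cc).c e) (S.W e).length) {V : List Nat}
    (hV : Cov W.P V (S.W e)) {A B z : Nat} (hA : Vo W.P S cc W.T e A)
    (hB : Wo W.P S cc W.Tm e B)
    (h : W.fqz ((S.mp cc).c e) (S.W e).length (av2 W.lv V) (av2 W.lm (rvl V)) A B z = true) :
    ¬ Sat (W.P.tau (S.mp cc) e) (W.mk1 ((S.mp cc).c e) (Nat.mod z 4096)) := by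
  intro hs
  obtain ⟨h1, h2⟩ := mv_vo hv hk hK hs
  exact fq_sound hk.hw hv he hk.fn hV (hA.lor h1) (hB.lor h2) h

/-- a list of members with facts -/
theorem mkz_ok (hv : Hv cmpS cmp cmp' sol sol' S cc f W.P le) (hk : Hk le ml sol S cc f W)
    (he : S.W e ≠ []) (hK : Kk W ((S.mp cc).c e) (S.W e).length) {V : List Nat}
    (hV : Cov W.P V (S.W e)) {A B : Nat} (hA : Vo W.P S cc W.T e A)
    (hB : Wo W.P S cc W.Tm e B) : ∀ {zs : List Nat},
    ala (W.fqz ((S.mp cc).c e) (S.W e).length (av2 W.lv V) (av2 W.lm (rvl V)) A B) zs =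
      true → ¬ Sat (W.P.tau (S.mp cc) e) (W.mkz ((S.mp cc).c e) zs)
  | [], _ => not_sat_zero
  | z :: zs, h => by
    rw [ala_iff] at h
    have ih := mkz_ok hv hk he hK hV hA hB (zs := zs)
      (ala_iff.2 fun y hy => h y (List.mem_cons_of_mem _ hy))
    have e : W.mkz ((S.mp cc).c e) (z :: zs) =
      Nat.lor (W.mk1 ((S.mp cc).c e) (Nat.mod z 4096)) (W.mkz ((S.mp cc).c e) zs) := rfl
    rw [e]
    intro hs
    rcases sat_lor hs with hs | hs
    · exact fqz_ok hv hk he hK hV hA hB (h z (List.mem_cons_self ..)) hs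
    · exact ih hs

end sound

end

end Pool.FCS
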