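import Pool.Agent.FCS.Wf

/-!
# Star check, second version: soundness of the rows, the leaves, the trees
-/

namespace Pool.FCS

open Finset

noncomputable section

section sound

variable {D : Type*} {cmp cmp' cmpS : Nat → Nat → Bool} {sol sol' lng : Nat → Bool}
  {S : Sys D} {cc f : Nat → Nat} {W : Pw} {le : Nat → Nat → Bool} {ml : Nat → Nat} {e : D}

/-- the fields of members -/
theorem mvs_vo (hv : Hv cmpS cmp cmp' sol sol' S cc f W.P le) (hk : Hk le ml sol S cc f W)
    (hK : Kk W ((S.mp cc).c e) (S.W e).length) {A B : Nat} (hA : Vo W.P S cc W.T e A)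
    (hB : Wo W.P S cc W.Tm e B) : ∀ {ts : List Nat},
    (∀ C ∈ W.mkl ((S.mp cc).c e) ts, Sat (W.P.tau (S.mp cc) e) C) →
    Vo W.P S cc W.T e (W.mvs ((S.mp cc).c e) ts A) ∧
      Wo W.P S cc W.Tm e (W.mws ((S.mp cc).c e) (S.W e).length ts B)
  | [], _ => ⟨hA, hB⟩
  | t :: ts, h => by
    have e0 : W.mkl ((S.mp cc).c e) (t :: ts) =
      W.mk1 ((S.mp cc).c e) t :: W.mkl ((S.mp cc).c e) ts := rfl
    rw [e0] at h
    obtain ⟨h1, h2⟩ := mvs_vo hv hk hK hA hB (ts := ts)
      (fun C hC => h C (List.mem_cons_of_mem _ hC))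
    obtain ⟨h3, h4⟩ := mv_vo hv hk hK (h _ (List.mem_cons_self ..))
    exact ⟨h3.lor h1, h4.lor h2⟩

/-- the groups of a row -/
theorem ckg_ok (hv : Hv cmpS cmp cmp' sol sol' S cc f W.P le) (hk : Hk le ml sol S cc f W)
    (he : S.W e ≠ []) (hK : Kk W ((S.mp cc).c e) (S.W e).length) {V : List Nat}
    (hV : Cov W.P V (S.W e)) {A B i : Nat} (hi : i < (S.W e).length)
    (hA : Vo W.P S cc W.T e A) (hB : Wo W.P S cc W.Tm e B) : ∀ {G : List Gr},
    W.ckg ((S.mp cc).c e) (S.W e).length (av2 W.lv V) (av2 W.lm (rvl V)) i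
      (W.P.nfy (S.mp cc) e i) A B G = true →
    ∀ g ∈ W.grm ((S.mp cc).c e) G, (∀ C ∈ g.1, Sat (W.P.tau (S.mp cc) e) C) →
      ¬ Sat (W.P.tau (S.mp cc) e) g.2
  | [], _, g, hg => by
    have h' : g ∈ ([] : List (List Nat × Nat)) := hg
    simp at h'
  | q :: G, h, g, hg => by
    have e0 : W.grm ((S.mp cc).c e) (q :: G) = (W.mkl ((S.mp cc).c e) q.2.1,
      W.mkz ((S.mp cc).c e) q.2.2) :: W.grm ((S.mp cc).c e) G := rfl
    have e1 : W.ckg ((S.mp cc).c e) (S.W e).length (av2 W.lv V) (av2 W.lm (rvl V)) i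
      (W.P.nfy (S.mp cc) e i) A B (q :: G) = Bool.rec (motive := fun _ => Bool) false
      (W.ckg ((S.mp cc).c e) (S.W e).length (av2 W.lv V) (av2 W.lm (rvl V)) i
        (W.P.nfy (S.mp cc) e i) A B G)
      (Bool.rec (motive := fun _ => Bool)
        (Bool.rec (motive := fun _ => Bool) false
          (ala (W.fqz ((S.mp cc).c e) (S.W e).length (av2 W.lv V) (av2 W.lm (rvl V))
            (W.mvs ((S.mp cc).c e) q.2.1 (Nat.shiftLeft plu (Nat.mul 36 i)))
            (W.mws ((S.mp cc).c e) (S.W e).length q.2.1 (Nat.shiftLeft plu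
              (Nat.mul 36 (Nat.mod (Nat.sub (S.W e).length i) (S.W e).length))))) q.2.2)
          (Bool.rec (motive := fun _ => Bool) (Nat.ble (W.P.nfy (S.mp cc) e i) 4294967295) false
            (Nat.beq (W.P.nfy (S.mp cc) e i) 0)))
        (ala (W.fqz ((S.mp cc).c e) (S.W e).length (av2 W.lv V) (av2 W.lm (rvl V))
          (W.mvs ((S.mp cc).c e) q.2.1 A) (W.mws ((S.mp cc).c e) (S.W e).length q.2.1 B)) q.2.2)
        (Nat.beq q.1 0)) := rfl
    rw [e1, brec_and] at h
    rw [e0] at hg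
    rcases List.mem_cons.1 hg with rfl | hg
    · intro hm
      obtain ⟨h1, -⟩ := h
      cases hb : Nat.beq q.1 0 with
      | true =>
        rw [hb] at h1
        obtain ⟨m1, m2⟩ := mvs_vo hv hk hK hA hB hm
        exact mkz_ok hv hk he hK hV m1 m2 h1
      | false =>
        rw [hb] at h1
        have h2 := brec_and.1 h1
        obtain ⟨h3, h4⟩ := h2
        have h5 : W.P.nfy (S.mp cc) e i < 4294967296 := by
          cases hz : Nat.beq (W.P.nfy (S.mp cc) e i) 0 with
          | true =>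
            rw [Nat.eq_of_beq_eq_true hz]
            norm_num
          | false =>
            rw [hz] at h3
            have := Nat.le_of_ble_eq_true (show Nat.ble _ _ = true from h3)
            omega
        have hA' : Vo W.P S cc W.T e (Nat.shiftLeft plu (Nat.mul 36 i)) :=
          Vo.one hk.hw hv hi (Or.inr (Or.inr ⟨rfl, h5⟩))
        have hB' : Wo W.P S cc W.Tm e (Nat.shiftLeft plu (Nat.mul 36 (Nat.mod
            (Nat.sub (S.W e).length i) (S.W e).length))) :=
          Wo.one hk.hw hv hi (Or.inr (Or.inr ⟨rfl, h5⟩))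
        obtain ⟨m1, m2⟩ := mvs_vo hv hk hK hA' hB' hm
        exact mkz_ok hv hk he hK hV m1 m2 h4
    · exact ckg_ok hv hk he hK hV hi hA hB h.2 g hg

/-- the exclusions of the row of the neighbour -/
theorem ckr_ok (hv : Hv cmpS cmp cmp' sol sol' S cc f W.P le) (hk : Hk le ml sol S cc f W)
    (he : S.W e ≠ []) (hN : Nr sol (S.mp cc) e)
    (hK : Kk W ((S.mp cc).c e) (S.W e).length) {V : List Nat}
    (hV : Cov W.P V (S.W e)) {i r : Nat} (hi : i < (S.W e).length)
    (h0 : W.P.kp (S.mp cc) e i ≠ 0)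
    (h : W.ckr ((S.mp cc).c e) (S.W e).length (wsl W.P.Q.wm ((S.mp cc).c e)) (av2 W.lv V)
      (av2 W.lm (rvl V)) i (W.P.kp (S.mp cc) e i) r = true) {Z : Nat}
    (hZ : ∀ t, Nat.testBit Z t = true → W.P.tau (S.mp cc) e t) :
    ¬ Sat (W.P.tau (S.mp cc) e) (Nat.lor (W.stt ((S.mp cc).c e) (S.W e).length
      (wsl W.P.Q.wm ((S.mp cc).c e)) i (W.P.kp (S.mp cc) e i) r)
      (dyn Z (W.grm ((S.mp cc).c e) (rgs r)))) := by
  unfold Pw.ckr at h
  dsimp only at h
  rw [cd_kp hv h0] at h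
  simp only [brec_and] at h
  obtain ⟨h1, h2, h3⟩ := h
  have hA : Vo W.P S cc W.T e (Nat.shiftLeft (yv (fcd W.T) (W.P.nfy (S.mp cc) e i))
      (Nat.mul 36 i)) := Vo.one hk.hw hv hi (yv_vf (Or.inr rfl))
  have hB : Wo W.P S cc W.Tm e (Nat.shiftLeft (yv (fcm W.Tm) (W.P.nfy (S.mp cc) e i))
      (Nat.mul 36 (Nat.mod (Nat.sub (S.W e).length i) (S.W e).length))) :=
    Wo.one hk.hw hv hi (yv_vf (Or.inr rfl))
  intro hs
  rcases sat_lor hs with hs | hs
  · unfold Pw.stt at hs
    rw [cd_kp hv h0] at hs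
    rcases sat_lor hs with hs | hs
    · exact clm_ok hv hk he hK hi hs
    · rcases sat_lor hs with ⟨t, t1, t2⟩ | hs
      · rw [msk_bit] at t2
        have h4 := (ala_iff.1 h1) t t2
        rw [frc_eq] at h4
        have h5 := xtq_xt hk.mo h4
        rw [← mlen (S := S) (cc := cc)] at h5 hi
        exact xt_tau hv.h2 (mp_ne.2 he) hN (kk_ckR' hK 0) hi h5 t1
      · exact mkz_ok hv hk he hK hV hA hB h2 hs
  · exact dyn_ok hZ (ckg_ok hv hk he hK hV hi hA hB h3) hs

theorem rex_zero : rex 0 = [] := rfl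

theorem rss_zero : rss 0 = [] := rfl

theorem rgs_zero : rgs 0 = [] := rfl

theorem ckr_zero {c d k AV AW i κ : Nat} : W.ckr c d k AV AW i κ 0 = true := by
  unfold Pw.ckr
  rw [rex_zero, rss_zero, rgs_zero]
  rfl

/-- the rows of a position -/
theorem cks_row {c d k AV AW i n N : Nat} (h : W.cks c d k AV AW i n N = true) {κ : Nat}
    (hκ : κ ≤ n) : W.ckr c d k AV AW i κ (rwx n κ N) = true := by
  unfold rwx
  cases hb : Nat.ble (Nat.succ (Nat.sub n κ)) (Nat.mod N 512) with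
  | false => exact ckr_zero
  | true =>
    have h1 : n - κ < Nat.mod N 512 := Nat.le_of_ble_eq_true hb
    have key : ∀ m, Nat.rec (motive := fun _ => Bool) true
      (fun j ih => Bool.rec (motive := fun _ => Bool) false ih
        (frc (rwj N j) fun r => Bool.rec (motive := fun _ => Bool)
          (W.ckr c d k AV AW i (Nat.sub n j) r) true (Nat.beq r 0))) m = true →
        ∀ j < m, W.ckr c d k AV AW i (n - j) (rwj N j) = true := by
      intro m
      induction m with
      | zero => intro _ j hj; omega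
      | succ m ih =>
        intro hm j hj
        dsimp only at hm
        rw [brec_and] at hm
        obtain ⟨m1, m2⟩ := hm
        by_cases hjm : j = m
        · subst hjm
          rw [frc_eq] at m1
          cases h0 : Nat.beq (rwj N j) 0 with
          | true =>
            rw [Nat.eq_of_beq_eq_true h0]
            exact ckr_zero
          | false =>
            rw [h0] at m1
            exact m1
        · exact ih m2 j (by omega)
    have h2 := key _ h (n - κ) h1
    have e1 : n - (n - κ) = κ := by omega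
    rw [e1] at h2
    exact h2

/-- the positions are correct -/
theorem pq_ok (hv : Hv cmpS cmp cmp' sol sol' S cc f W.P le) (hk : Hk le ml sol S cc f W)
    (he : S.W e ≠ []) (hN : Nr sol (S.mp cc) e)
    (hpos : ∀ e, (S.mp cc).W e ≠ [] → W.P.PosOk2 ((S.mp cc).c e) ((S.mp cc).c ((S.mp cc).al e)))
    (hK : Kk W ((S.mp cc).c e) (S.W e).length) {V : List Nat}
    (hV : Cov W.P V (S.W e)) {i N : Nat} (hi : i < (S.W e).length)
    (h : W.cks ((S.mp cc).c e) (S.W e).length (wsl W.P.Q.wm ((S.mp cc).c e)) (av2 W.lv V)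
      (av2 W.lm (rvl V)) i (kn (W.kr ((S.mp cc).c e) i)) N = true) :
    POk3 (W.P.tau (S.mp cc) e) (W.P.kp (S.mp cc) e i)
      (W.P.G2 ((S.mp cc).c ((S.mp cc).nx^[i] e)) ((S.mp cc).nb e i))
      (W.pq ((S.mp cc).c e) (S.W e).length (wsl W.P.Q.wm ((S.mp cc).c e)) i N) := by
  have hp := kok_kp (hK i hi)
  have q1 : (W.P.ps ((S.mp cc).c e) i).cl = (W.P.Q.pos (W.ke ((S.mp cc).c e) i) 0).cl :=
    Pm.pos_cl _ _ _
  have q2 : (W.P.ps ((S.mp cc).c e) i).df = (W.P.Q.pos (W.ke ((S.mp cc).c e) i) 0).df :=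
    Pm.pos_df _ _ _
  have c1 : pok (W.P.ps ((S.mp cc).c e) i).cl (W.P.ps ((S.mp cc).c e) i).df = true := by
    rw [q1, q2]; exact hp.pok
  have hn : (W.P.ps ((S.mp cc).c e) i).cl.length = kn (W.kr ((S.mp cc).c e) i) := by
    rw [q1]; exact hp.n
  have hs := pok_srt c1
  have hkl : W.P.kp (S.mp cc) e i ≤ kn (W.kr ((S.mp cc).c e) i) := by
    rw [← hn]; exact ix_le _ _
  have he' : (S.mp cc).W e ≠ [] := mp_ne.2 he
  -- the gain
  have hG : W.P.G2 ((S.mp cc).c ((S.mp cc).nx^[i] e)) ((S.mp cc).nb e i) ≤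
      gi (W.P.ps ((S.mp cc).c e) i).df (W.P.ps ((S.mp cc).c e) i).cl (W.P.kp (S.mp cc) e i) := by
    have h1 := hpos _ (hv.h2.ok.ne_iter he' i)
    unfold Pn.PosOk2 at h1
    have h2 : (S.mp cc).c ((S.mp cc).nx^[i] e) = rot ((S.mp cc).c e) i :=
      (rot_c hv.h2.ok he' i).symm
    have h3 : (W.P.ps ((S.mp cc).c e) i).df =
        (W.P.Q.pos (W.P.Q.ky ((S.mp cc).c ((S.mp cc).nx^[i] e))) 0).df := by
      rw [h2]; exact Pm.pos_df _ _ _
    have h4 : (W.P.ps ((S.mp cc).c e) i).cl =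
        (W.P.Q.pos (W.P.Q.ky ((S.mp cc).c ((S.mp cc).nx^[i] e))) 0).cl := by
      rw [h2]; exact Pm.pos_cl _ _ _
    rw [← h3, ← h4] at h1
    rcases h1 with h1 | ⟨g, h1, h5⟩
    · exact le_trans h1 (df_le_gi hs _)
    · exact le_trans h5 (le_gi hs h1)
  have ef : (W.pq ((S.mp cc).c e) (S.W e).length (wsl W.P.Q.wm ((S.mp cc).c e)) i N).f =
      2 ^ (kn (W.kr ((S.mp cc).c e) i) + 1) - 1 := rfl
  have eg : (W.pq ((S.mp cc).c e) (S.W e).length (wsl W.P.Q.wm ((S.mp cc).c e)) i N).gp =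
      pk (W.P.ps ((S.mp cc).c e) i).cl (W.P.ps ((S.mp cc).c e) i).df := by
    rw [q1, q2]; exact hp.g
  have eR : ∀ κ Z, (W.pq ((S.mp cc).c e) (S.W e).length (wsl W.P.Q.wm ((S.mp cc).c e)) i N).R κ Z =
      Nat.lor (W.stt ((S.mp cc).c e) (S.W e).length (wsl W.P.Q.wm ((S.mp cc).c e)) i κ
        (rwx (kn (W.kr ((S.mp cc).c e) i)) κ N))
      (dyn Z (W.grm ((S.mp cc).c e) (rgs (rwx (kn (W.kr ((S.mp cc).c e) i)) κ N)))) :=
    fun _ _ => congrArg (Nat.lor _) (Dv.dyp_pkg _ _ _)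
  unfold POk3
  rw [ef, eg]
  refine ⟨?_, fun j hj hf => ?_, fun h0 Z hZ => ?_⟩
  · rw [Nat.testBit_two_pow_sub_one, decide_eq_true_eq]
    omega
  · rw [Nat.testBit_two_pow_sub_one, decide_eq_true_eq] at hf
    rw [gn_pk c1 (by omega)]
    exact le_trans hG (gi_mono hs hj (by omega))
  · rw [eR]
    exact ckr_ok hv hk he hN hK hV hi h0 (cks_row h hkl) hZ

theorem pqs_cons (c d k : Nat) (NL : List Nat) (i : Nat) (ord : List Nat) :
    W.pqs c d k NL (i :: ord) = W.pq c d k i (nth NL i) :: W.pqs c d k NL ord := by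
  have h : W.pqs c d k NL (i :: ord) = sl6 (fun i => W.pq c d k i (nth NL i)) i ::
    W.pqs c d k NL ord := rfl
  rw [h, sl6_eq]

theorem pqs_sum {c d k : Nat} {NL : List Nat} (G : Nat → Nat) : ∀ ord : List Nat,
    ((W.pqs c d k NL ord).map fun p => G p.a).sum = (ord.map fun i => G (W.P.w * i)).sum
  | [] => rfl
  | i :: ord => by
    rw [pqs_cons, List.map_cons, List.map_cons, List.sum_cons, List.sum_cons, pqs_sum G ord]
    rfl

theorem pqs_mem {c d k : Nat} {NL : List Nat} : ∀ {ord : List Nat} {p : PQ},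
    p ∈ W.pqs c d k NL ord → ∃ i ∈ ord, p = W.pq c d k i (nth NL i)
  | [], p, h => by
    have h' : p ∈ ([] : List PQ) := h
    simp at h'
  | i :: ord, p, h => by
    rw [pqs_cons, List.mem_cons] at h
    rcases h with h | h
    · exact ⟨i, List.mem_cons_self .., h⟩
    · obtain ⟨j, h1, h2⟩ := pqs_mem h
      exact ⟨j, List.mem_cons_of_mem _ h1, h2⟩

/-- the sum of the gains is bounded by the search (analogue of `gsum_ok`) -/
theorem gsum2_ok (hv : Hv cmpS cmp cmp' sol sol' S cc f W.P le) (hk : Hk le ml sol S cc f W)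
    (he : S.W e ≠ []) (hN : Nr sol (S.mp cc) e)
    (hpos : ∀ e, (S.mp cc).W e ≠ [] → W.P.PosOk2 ((S.mp cc).c e) ((S.mp cc).c ((S.mp cc).al e)))
    (hK : Kk W ((S.mp cc).c e) (S.W e).length) {V : List Nat}
    (hV : Cov W.P V (S.W e)) {NL ord : List Nat}
    (h : alln (S.W e).length (fun i => W.cks ((S.mp cc).c e) (S.W e).length
      (wsl W.P.Q.wm ((S.mp cc).c e)) (av2 W.lv V) (av2 W.lm (rvl V)) i
      (kn (W.kr ((S.mp cc).c e) i)) (nth NL i)) = true)
    (ho : okOrd (S.W e).length ord = true) {M th : Nat}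
    (hM : ∀ i < (S.W e).length,
      Nat.testBit M (W.P.w * i + W.P.kp (S.mp cc) e i) = true)
    (hg : gon th (W.pqs ((S.mp cc).c e) (S.W e).length (wsl W.P.Q.wm ((S.mp cc).c e)) NL ord)
      M 0 0 = true) :
    ∑ i ∈ range (S.W e).length, W.P.G2 ((S.mp cc).c ((S.mp cc).nx^[i] e)) ((S.mp cc).nb e i) ≤
      th := by
  have h4 := (hv.hS.len e he).1
  have hperm := okOrd_perm ho
  rw [alln_iff] at h
  -- `w` is positive
  have hw : 0 < W.P.w := by
    have := (kok_kp (hK 0 (by omega))).w3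
    omega
  set κ : Nat → Nat := fun a => W.P.kp (S.mp cc) e (a / W.P.w) with hκ
  set G : Nat → Nat := fun a => W.P.G2 ((S.mp cc).c ((S.mp cc).nx^[a / W.P.w] e))
    ((S.mp cc).nb e (a / W.P.w)) with hG
  have hdiv : ∀ i, W.P.w * i / W.P.w = i := fun i => Nat.mul_div_cancel_left i hw
  have hord : ∀ i ∈ ord, i < (S.W e).length := fun i hi =>
    List.mem_range.1 (hperm.mem_iff.1 hi)
  have hgo := gon_sound (τ := W.P.tau (S.mp cc) e) (κ := κ) (G := G) th
    (W.pqs ((S.mp cc).c e) (S.W e).length (wsl W.P.Q.wm ((S.mp cc).c e)) NL ord) (by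
      intro p hp
      obtain ⟨i, i1, rfl⟩ := pqs_mem hp
      have e1 : (W.pq ((S.mp cc).c e) (S.W e).length (wsl W.P.Q.wm ((S.mp cc).c e)) i
        (nth NL i)).a / W.P.w = i := hdiv i
      simp only [hκ, hG]
      rw [e1]
      exact pq_ok hv hk he hN hpos hK hV (hord i i1) (h i (hord i i1))) (by
      intro p hp
      obtain ⟨i, i1, rfl⟩ := pqs_mem hp
      have e1 : (W.pq ((S.mp cc).c e) (S.W e).length (wsl W.P.Q.wm ((S.mp cc).c e)) i
        (nth NL i)).a / W.P.w = i := hdiv i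
      simp only [hκ]
      rw [e1]
      exact ⟨i, by rw [mlen]; exact hord i i1, rfl⟩) M 0 0 (by
      intro p hp
      obtain ⟨i, i1, rfl⟩ := pqs_mem hp
      have e1 : (W.pq ((S.mp cc).c e) (S.W e).length (wsl W.P.Q.wm ((S.mp cc).c e)) i
        (nth NL i)).a / W.P.w = i := hdiv i
      simp only [hκ]
      rw [e1]
      exact hM i (hord i i1)) (fun t ht => by
        rw [Nat.zero_testBit] at ht; exact Bool.noConfusion ht) hg
  rw [Nat.zero_add, pqs_sum G] at hgo
  have e5 : (ord.map fun i => G (W.P.w * i)).sum = (ord.map fun i =>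
      W.P.G2 ((S.mp cc).c ((S.mp cc).nx^[i] e)) ((S.mp cc).nb e i)).sum := by
    congr 1
    refine List.map_congr_left fun i _ => ?_
    simp only [hG]
    rw [hdiv]
  rw [e5, (hperm.map _).sum_eq, sum_range_list] at hgo
  exact hgo

/-- The cases of a leaf. -/
theorem lfn2_sound {Y : Sys D} {P : Pn} (hy : Hc2 cmp cmp' sol sol' Y f P)
    (hN : Nr sol Y e) {k d : Nat} (hd : (Y.W e).length = d)
    (hc : P.ckR k (Y.c e) (Y.W e).length [] = true)
    {g : Nat → Nat → Bool} {ns : List Nat}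
    (hgs : ∀ th M, (∀ i < d, Nat.testBit M (P.w * i + P.kp Y e i) = true) →
      g th M = true →
      ∑ i ∈ range (Y.W e).length, P.G2 (Y.c (Y.nx^[i] e)) (Y.nb e i) ≤ th) {M : Nat}
    (hM : ∀ i < d, Nat.testBit M (P.w * i + P.kp Y e i) = true)
    (h1 : g (P.Q.thr (Y.c e)) (rmv M (P.x0 (Y.c e) ns)) = true)
    (hns : ∀ i ∈ ns, i < d ∧ g (P.Q.thr (Y.c e) + P.dl)
      (rmv M (Nat.lor (P.nlo (Y.c e) i) (P.x1 (Y.c e) i d))) = true)
    (h3 : alln d (fun i => bif (bif tb P.Q.sm (dg (Nat.pow 32 i) (Y.c e)) then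
          (bif mem i ns then true else mem (nxt d i) ns) else false) then
        g (P.Q.thr (Y.c e)) (rmv M (Nat.lor (P.nlo (Y.c e) i)
          (sl6 (P.nlo (Y.c e)) (nxt d i))))
      else true) = true) : Sok P Y e := by
  subst hd
  have hY := hy.ok
  have hnf : ∀ i, P.nfy Y e i = 1 ↔ Y.W (Y.al (Y.nx^[i] e)) = [] := fun i => nfy_one hy.hb hY
  -- removing bits
  have hrm : ∀ X, ¬ Sat (P.tau Y e) X → ∀ i < (Y.W e).length,
      Nat.testBit (rmv M X) (P.w * i + P.kp Y e i) = true := fun X hX i hi =>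
    clear_ok (τ := P.tau Y e) ⟨i, hi, rfl⟩ (hM i hi) hX
  by_cases hz : ∀ i ∈ ns, P.nfy Y e i ≠ 1
  · left
    exact hgs _ _ (hrm _ (x0_ok hc (fun i hi => (hns i hi).1) hz)) h1
  · push Not at hz
    obtain ⟨i, hi, hi1⟩ := hz
    have hid := (hns i hi).1
    by_cases h4 : ∀ j < (Y.W e).length, j ≠ i → P.nfy Y e j ≠ 1
    · right
      refine ⟨?_, hgs _ _ (hrm _ ?_) (hns i hi).2⟩
      · unfold nnl
        rw [card_eq_one]
        refine ⟨i, ?_⟩
        ext j
        rw [mem_filter, mem_range, mem_singleton]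
        constructor
        · rintro ⟨j1, j2⟩
          by_contra hj
          exact h4 j j1 hj ((hnf j).2 j2)
        · rintro rfl
          exact ⟨hid, (hnf j).1 hi1⟩
      · intro hs
        rcases sat_lor hs with hs | hs
        · exact nlo_ok hc hid hi1 hs
        · exact x1_ok hc h4 _ le_rfl hs
    · left
      push Not at h4
      obtain ⟨j, hj, hji, hj1⟩ := h4
      have hnb : ∀ i, P.nfy Y e i = 1 → Y.nb e i = 0 := by
        intro i h
        have h5 := (hnf i).1 h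
        show Y.c (Y.al (Y.nx^[i] e)) = 0
        unfold Sys.c
        rw [h5]; rfl
      -- the two null neighbours are consecutive
      have key : ∀ a b, a < (Y.W e).length → b < (Y.W e).length →
          b = nxt (Y.W e).length a → sol ((Y.W e).getD a 0) = true → P.nfy Y e a = 1 →
          P.nfy Y e b = 1 → (a ∈ ns ∨ b ∈ ns) →
          ∑ i ∈ range (Y.W e).length, P.G2 (Y.c (Y.nx^[i] e)) (Y.nb e i) ≤
            P.Q.thr (Y.c e) := by
        intro a b ha hb hab hsl ha1 hb1 hor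
        have h5 := alln_iff.1 h3 a ha
        have h6 : tb P.Q.sm (dg (Nat.pow 32 a) (Y.c e)) = true := by
          have h7 : dg (Nat.pow 32 a) (Y.c e) = (Y.W e).getD a 0 + 1 := by
            have h8 : dg (32 ^ a) (enc (Y.W e)) = _ := dg_enc (hY.sm e) ha
            exact h8
          have h9 : (Y.W e).getD a 0 ∈ Y.W e := by
            rw [List.getD_eq_getElem _ _ ha]; exact List.getElem_mem _
          rw [h7, hy.hsm e _ h9]
          exact hsl
        rw [h6] at h5
        have h7 : (bif mem a ns then true else mem (nxt (Y.W e).length a) ns) = true := by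
          cases hm : mem a ns with
          | true => rfl
          | false =>
            dsimp only [cond_false]
            rcases hor with hor | hor
            · rw [mem_iff.2 hor] at hm; exact Bool.noConfusion hm
            · rw [← hab]; exact mem_iff.2 hor
        dsimp only [cond_true] at h5
        rw [h7] at h5
        dsimp only [cond_true] at h5
        refine hgs _ _ (hrm _ ?_) h5
        rw [sl6_eq, ← hab]
        intro hs
        rcases sat_lor hs with hs | hs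
        · exact nlo_ok hc ha ha1 hs
        · exact nlo_ok hc hb hb1 hs
      rcases hN i hid j hj (fun h => hji h.symm) (hnb i hi1) (hnb j hj1) with ⟨h5, h6⟩ | ⟨h5, h6⟩
      · exact key i j hid hj h5 h6 hi1 hj1 (Or.inl hi)
      · exact key j i hj hid h5 h6 hj1 hi1 (Or.inr hi)

/-- The check of a leaf. -/
theorem lfc2_sound (hv : Hv cmpS cmp cmp' sol sol' S cc f W.P le) (hk : Hk le ml sol S cc f W)
    (he : S.W e ≠ []) (hN : Nr sol (S.mp cc) e) (hpr : Hpr sol lng (S.mp cc) W.P.Q)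
    (hpos : ∀ e, (S.mp cc).W e ≠ [] → W.P.PosOk2 ((S.mp cc).c e) ((S.mp cc).c ((S.mp cc).al e)))
    (hK : Kk W ((S.mp cc).c e) (S.W e).length) {V : List Nat} (hV : Cov W.P V (S.W e))
    {o x s u : Nat} {NL : List Nat}
    (h : W.lfc ((S.mp cc).c e) (S.W e).length (wsl W.P.Q.wm ((S.mp cc).c e)) o x s u NL V =
      true) :
    chv2 sol lng W.P.Q.den W.P.Q.nl W.P.Q.nu W.P.dl W.P.hl W.P.Q.fw (S.mp cc) e ≤ 0 := by
  have he' : (S.mp cc).W e ≠ [] := mp_ne.2 he
  have hY := hv.h2.ok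
  unfold Pw.lfc at h
  rw [brec_and] at h
  obtain ⟨h1, h⟩ := h
  rw [brec_and] at h
  obtain ⟨h2, h⟩ := h
  rw [brec_and] at h
  obtain ⟨h3, h4⟩ := h
  rw [frc_eq, frc_eq, brec_and] at h3
  obtain ⟨h5, h6⟩ := h3
  rw [ala_iff] at h2
  have hm0 : ∀ i < (S.W e).length,
      Nat.testBit (W.m0 ((S.mp cc).c e) (S.W e).length (dN 11 x) (dN 36 u))
        (W.P.w * i + W.P.kp (S.mp cc) e i) = true := by
    intro i hi
    unfold Pw.m0
    apply clear_ok (τ := W.P.tau (S.mp cc) e) ⟨i, by rw [mlen]; exact hi, rfl⟩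
    · have e1 : Nat.sub (Nat.pow 2 (Nat.mul W.P.w (S.W e).length)) 1 =
        2 ^ (W.P.w * (S.W e).length) - 1 := rfl
      rw [e1, Nat.testBit_two_pow_sub_one, decide_eq_true_eq]
      have h7 := (kp_lt (kk_ckR' hK 0) (i := i) (by rw [mlen]; exact hi)).2
      calc W.P.w * i + W.P.kp (S.mp cc) e i < W.P.w * i + W.P.w := by omega
        _ = W.P.w * (i + 1) := by ring
        _ ≤ W.P.w * (S.W e).length := Nat.mul_le_mul_left _ hi
    · intro hs
      rcases sat_lor hs with ⟨t, t1, t2⟩ | hs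
      · rw [msk_bit] at t2
        have h7 := h2 t t2
        rw [frc_eq] at h7
        exact ux_tau hv he hV (kk_ckR' hK 0) h7 t1
      · exact mkz_ok hv hk he hK hV (Vo.zero he) (Wo.zero he) h5 hs
  have hgs : ∀ th M, (∀ i < (S.W e).length,
      Nat.testBit M (W.P.w * i + W.P.kp (S.mp cc) e i) = true) →
      gon th (W.pqs ((S.mp cc).c e) (S.W e).length (wsl W.P.Q.wm ((S.mp cc).c e)) NL (dN 3 o))
        M 0 0 = true →
      ∑ i ∈ range ((S.mp cc).W e).length, W.P.G2 ((S.mp cc).c ((S.mp cc).nx^[i] e))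
        ((S.mp cc).nb e i) ≤ th := by
    intro th M h7 h8
    rw [mlen]
    exact gsum2_ok hv hk he hN hpos hK hV h6 h1 h7 h8
  apply chc_le hY hv.h2.hb hpr he'
  generalize dN 3 s = ns at h4
  cases ns with
  | nil => exact Or.inl (hgs _ _ hm0 h4)
  | cons a ns =>
    have h4' : W.lfn ((S.mp cc).c e) (S.W e).length (a :: ns) (W.pqs ((S.mp cc).c e)
      (S.W e).length (wsl W.P.Q.wm ((S.mp cc).c e)) NL (dN 3 o))
      (W.m0 ((S.mp cc).c e) (S.W e).length (dN 11 x) (dN 36 u)) = true := h4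
    unfold Pw.lfn at h4'
    rw [cond_true_iff, cond_true_iff] at h4'
    obtain ⟨g1, g2, g3⟩ := h4'
    refine lfn2_sound (g := fun th M => gon th (W.pqs ((S.mp cc).c e) (S.W e).length
      (wsl W.P.Q.wm ((S.mp cc).c e)) NL (dN 3 o)) M 0 0) (ns := a :: ns) hv.h2 hN mlen
      (kk_ckR' hK 0) hgs hm0 g1 (fun i hi => ?_) g3
    have g4 := allb_sound g2 i hi
    rw [cond_true_iff] at g4
    exact ⟨Nat.le_of_ble_eq_true g4.1, g4.2⟩

end sound

end

end Pool.FCS
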