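import Pool.Agent.FCS.Tab

/-!
# Star check: the highest bit with few operations
-/

namespace Pool.FCS

noncomputable section

/-- `1` in every field of 161 bits -/
def lgG (n : Nat) : Nat :=
  Nat.rec (motive := fun _ => Nat) 0 (fun j ih => Nat.add ih (Nat.pow 2 (Nat.mul 161 j))) n

/-- the complements of the powers of two -/
def lgC (n : Nat) : Nat :=
  Nat.rec (motive := fun _ => Nat) 0 (fun j ih => Nat.add ih
    (Nat.mul (Nat.sub (Nat.pow 2 160) (Nat.pow 2 (Nat.succ j))) (Nat.pow 2 (Nat.mul 161 j)))) n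

/-- the sums in the fields -/
def lgD (m n : Nat) : Nat :=
  Nat.rec (motive := fun _ => Nat) 0 (fun j ih => Nat.add ih
    (Nat.mul (Nat.sub (Nat.add m (Nat.pow 2 160)) (Nat.pow 2 (Nat.succ j)))
      (Nat.pow 2 (Nat.mul 161 j)))) n

/-- the powers of two up to `m`, one bit in every field -/
def lgB (m n : Nat) : Nat :=
  Nat.rec (motive := fun _ => Nat) 0 (fun j ih => Nat.add ih
    (Nat.mul (if 2 ^ (j + 1) ≤ m then 1 else 0) (Nat.pow 2 (Nat.mul 161 j)))) n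

/-- the number of the powers of two up to `m` -/
def lgN (m n : Nat) : Nat :=
  Nat.rec (motive := fun _ => Nat) 0 (fun j ih => Nat.add ih (if 2 ^ (j + 1) ≤ m then 1 else 0)) n

theorem lgG_succ (n : Nat) : lgG (n + 1) = lgG n + 2 ^ (161 * n) := rfl

theorem lgC_succ (n : Nat) : lgC (n + 1) = lgC n + (2 ^ 160 - 2 ^ (n + 1)) * 2 ^ (161 * n) := rfl

theorem lgD_succ (m n : Nat) :
    lgD m (n + 1) = lgD m n + (m + 2 ^ 160 - 2 ^ (n + 1)) * 2 ^ (161 * n) := rfl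

theorem lgB_succ (m n : Nat) :
    lgB m (n + 1) = lgB m n + (if 2 ^ (n + 1) ≤ m then 1 else 0) * 2 ^ (161 * n) := rfl

theorem lgN_succ (m n : Nat) : lgN m (n + 1) = lgN m n + (if 2 ^ (n + 1) ≤ m then 1 else 0) := rfl

theorem lgD_eq (m : Nat) : ∀ n : Nat, n ≤ 159 → m * lgG n + lgC n = lgD m n
  | 0, _ => by
    show m * 0 + 0 = 0
    rw [Nat.mul_zero]
  | n + 1, h => by
    rw [lgG_succ, lgC_succ, lgD_succ, ← lgD_eq m n (by omega)]
    have h1 : 2 ^ (n + 1) ≤ 2 ^ 160 := Nat.pow_le_pow_right (by norm_num) (by omega)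
    rw [Nat.add_sub_assoc h1]
    ring

theorem land_fld {a b c e k : Nat} (ha : a < 2 ^ k) (hc : c < 2 ^ k) :
    (a + b * 2 ^ k) &&& (c + e * 2 ^ k) = (a &&& c) + (b &&& e) * 2 ^ k := by
  have hac : a &&& c < 2 ^ k := lt_of_le_of_lt Nat.and_le_left ha
  apply Nat.eq_of_testBit_eq
  intro i
  rw [Nat.testBit_and, add_comm a, add_comm c, add_comm (a &&& c), mul_comm b, mul_comm e,
    mul_comm (b &&& e), Nat.testBit_two_pow_mul_add _ ha, Nat.testBit_two_pow_mul_add _ hc,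
    Nat.testBit_two_pow_mul_add _ hac]
  split_ifs
  · rw [Nat.testBit_and]
  · rw [Nat.testBit_and]

theorem lgD_lt {m : Nat} (hm : m < 2 ^ 160) : ∀ n : Nat, lgD m n < 2 ^ (161 * n)
  | 0 => by
    show 0 < 2 ^ 0
    norm_num
  | n + 1 => by
    have e : 2 ^ (161 * (n + 1)) = 2 ^ 161 * 2 ^ (161 * n) := by
      rw [show 161 * (n + 1) = 161 + 161 * n by ring, pow_add]
    rw [lgD_succ, e]
    have h1 := lgD_lt hm n
    have hp : 0 < 2 ^ (n + 1) := by positivity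
    have h2 : m + 2 ^ 160 - 2 ^ (n + 1) + 1 ≤ 2 ^ 161 := by
      have e161 : (2 : Nat) ^ 161 = 2 ^ 160 + 2 ^ 160 := by norm_num
      omega
    have h3 := Nat.mul_le_mul_right (2 ^ (161 * n)) h2
    rw [Nat.add_mul, Nat.one_mul] at h3
    omega

theorem lgG_lt : ∀ n : Nat, 2 ^ 160 * lgG n < 2 ^ (161 * n)
  | 0 => by
    show 2 ^ 160 * 0 < 2 ^ 0
    norm_num
  | n + 1 => by
    have e : 2 ^ (161 * (n + 1)) = 2 ^ 161 * 2 ^ (161 * n) := by
      rw [show 161 * (n + 1) = 161 + 161 * n by ring, pow_add]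
    rw [lgG_succ, e, Nat.mul_add]
    have h1 := lgG_lt n
    have h2 : (2 : Nat) ^ 160 + 1 ≤ 2 ^ 161 := by norm_num
    have h3 := Nat.mul_le_mul_right (2 ^ (161 * n)) h2
    rw [Nat.add_mul, Nat.one_mul] at h3
    omega

theorem land_top {d : Nat} (hd : d < 2 ^ 161) :
    d &&& 2 ^ 160 = (if 2 ^ 160 ≤ d then 1 else 0) * 2 ^ 160 := by
  have hp : (0 : Nat) < 2 ^ 160 := by positivity
  by_cases h : 2 ^ 160 ≤ d
  · rw [if_pos h]
    have h1 : d - 2 ^ 160 < 2 ^ 160 := by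
      have e161 : (2 : Nat) ^ 161 = 2 ^ 160 + 2 ^ 160 := by norm_num
      omega
    have h2 := land_fld (b := 1) (e := 1) h1 hp
    rw [Nat.one_mul, Nat.sub_add_cancel h, Nat.zero_add, Nat.and_zero, Nat.zero_add] at h2
    exact h2
  · rw [if_neg h]
    have h2 := land_fld (b := 0) (e := 1) (by omega : d < 2 ^ 160) hp
    rw [Nat.one_mul, Nat.zero_mul, Nat.zero_add, Nat.and_zero, Nat.zero_add, Nat.zero_and,
      Nat.zero_mul, Nat.add_zero] at h2
    rw [h2, Nat.zero_mul]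

theorem lgB_eq {m : Nat} (hm : m < 2 ^ 160) : ∀ n : Nat, n ≤ 159 →
    lgD m n &&& (2 ^ 160 * lgG n) = 2 ^ 160 * lgB m n
  | 0, _ => by
    show 0 &&& _ = 2 ^ 160 * 0
    rw [Nat.zero_and, Nat.mul_zero]
  | n + 1, h => by
    have h1 : 2 ^ (n + 1) ≤ 2 ^ 160 := Nat.pow_le_pow_right (by norm_num) (by omega)
    have e161 : (2 : Nat) ^ 161 = 2 ^ 160 + 2 ^ 160 := by norm_num
    have hp : 0 < 2 ^ (n + 1) := by positivity
    rw [lgD_succ, lgG_succ, Nat.mul_add, land_fld (lgD_lt hm n) (lgG_lt n), lgB_eq hm n (by omega),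
      lgB_succ, land_top (by omega), Nat.mul_add]
    have e2 : (2 ^ 160 ≤ m + 2 ^ 160 - 2 ^ (n + 1)) ↔ 2 ^ (n + 1) ≤ m := by omega
    simp only [e2]
    ring

theorem lgB_mod (m : Nat) : ∀ n : Nat, lgB m n % (2 ^ 161 - 1) = lgN m n % (2 ^ 161 - 1)
  | 0 => rfl
  | n + 1 => by
    have h1 : 2 ^ 161 % (2 ^ 161 - 1) = 1 := by norm_num
    have h2 : 2 ^ (161 * n) % (2 ^ 161 - 1) = 1 := by
      rw [pow_mul, Nat.pow_mod, h1, one_pow]
      norm_num
    rw [lgB_succ, lgN_succ, Nat.add_mod, lgB_mod m n, Nat.mul_mod, h2, Nat.mul_one, Nat.mod_mod,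
      ← Nat.add_mod]

theorem lgN_zero : ∀ n : Nat, lgN 0 n = 0
  | 0 => rfl
  | n + 1 => by
    rw [lgN_succ, lgN_zero n, if_neg (by
      have : 0 < 2 ^ (n + 1) := by positivity
      omega)]

theorem lgN_eq {m : Nat} (hm : m ≠ 0) : ∀ n : Nat, lgN m n = min n (Nat.log2 m)
  | 0 => by
    show 0 = _
    rw [Nat.zero_min]
  | n + 1 => by
    rw [lgN_succ, lgN_eq hm n]
    have h1 : 2 ^ (n + 1) ≤ m ↔ n + 1 ≤ Nat.log2 m := (Nat.le_log2 hm).symm
    simp only [h1]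
    split_ifs <;> omega

theorem lg_core {G C H s q b : Nat} (hG : G = lgG 159) (hC : C = lgC 159)
    (hH : H = 2 ^ 160 * lgG 159) (hs : s = 160) (hq : q = 2 ^ 161 - 1) (hb : b = 2 ^ 160 - 1)
    (m : Nat) : Bool.rec (motive := fun _ => Nat) (Nat.log2 m)
      (Nat.mod (Nat.shiftRight (Nat.land (Nat.add (Nat.mul m G) C) H) s) q) (Nat.ble m b) =
        Nat.log2 m := by
  cases h : Nat.ble m b with
  | false => rfl
  | true =>
    have h1 : m < 2 ^ 160 := by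
      have := Nat.le_of_ble_eq_true h
      rw [hb] at this
      have h2 : 0 < 2 ^ 160 := by positivity
      omega
    subst hG; subst hC; subst hH; subst hs; subst hq
    show (((m * lgG 159 + lgC 159) &&& (2 ^ 160 * lgG 159)) >>> 160) % (2 ^ 161 - 1) = Nat.log2 m
    rw [lgD_eq m 159 le_rfl, lgB_eq h1 159 le_rfl, Nat.shiftRight_eq_div_pow,
      Nat.mul_div_cancel_left _ (by positivity)]
    have h3 : lgB m 159 % (2 ^ 161 - 1) = lgN m 159 % (2 ^ 161 - 1) := lgB_mod m 159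
    rw [h3]
    by_cases h0 : m = 0
    · subst h0
      rw [lgN_zero, Nat.zero_mod]
      rfl
    · rw [lgN_eq h0]
      have h4 : Nat.log2 m < 160 := (Nat.log2_lt h0).2 h1
      have h5 : min 159 (Nat.log2 m) = Nat.log2 m := by omega
      rw [h5]
      apply Nat.mod_eq_of_lt
      have h6 : 160 < (2 : Nat) ^ 161 - 1 := by norm_num
      omega

end

end Pool.FCS
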