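import Pool.Agent.FCS.Wa

/-!
# Star check with flows on triangles: the search

As `gon`, but the gain of a chosen candidate is a function of the bits which are already chosen.
-/

namespace Pool.FCS

noncomputable section

/-- A position: shift, mask of the bits, packed bounds of the gains, number of the bits, excluded
bits, new sum. -/
structure PX where
  a : Nat
  f : Nat
  gp : Nat
  n : Nat
  R : Nat → Nat → Nat
  A : Nat → Nat → Nat → Nat

/-- sum of the best gains -/
def bsx (M : Nat) (ps : List PX) : Nat :=
  List.rec (motive := fun _ => Nat) (nat_lit 0)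
    (fun p _ ih => PX.rec (motive := fun _ => Nat) (fun a f gp _ _ _ =>
      Nat.rec (motive := fun _ => Nat) (nat_lit 0) (fun z _ => Nat.add (gnl gp (lgm z)) ih)
        (Nat.add (Nat.land (Nat.shiftRight M a) f) (nat_lit 1))) p) ps

/-- the candidate `k` is tested, `ih` the test of the other candidates -/
def golB (thr a gp : Nat) (R : Nat → Nat → Nat) (A : Nat → Nat → Nat → Nat)
    (ch : Nat → Nat → Nat → Bool) (r M Z s : Nat) (ih : Nat → Bool) (m k : Nat) : Bool :=
  Bool.rec (motive := fun _ => Bool) false
    (ih (Nat.xor m (Nat.shiftLeft (nat_lit 1) k)))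
    (Bool.rec (motive := fun _ => Bool)
      ((fun Z' : Nat => Nat.rec (motive := fun _ => Bool) false
        (fun s' _ => Bool.rec (motive := fun _ => Bool)
          ((fun E => Bool.rec (motive := fun _ => Bool) true
            (ch (Nat.xor M (Nat.land M E)) Z' s')
            (Nat.beq (Nat.land (Nat.shiftRight E (Nat.add a k)) (nat_lit 1)) (nat_lit 0)))
            (R k Z'))
          true (Nat.ble (Nat.add s' r) thr)) (Nat.add (A k Z' s) (nat_lit 1)))
        (Nat.lor Z (Nat.shiftLeft (nat_lit 1) (Nat.add a k))))
      (ch M Z (Nat.add s (gnl gp (nat_lit 0)))) (Nat.beq k (nat_lit 0)))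

/-- the highest candidate first -/
def golC (thr a gp : Nat) (R : Nat → Nat → Nat) (A : Nat → Nat → Nat → Nat)
    (ch : Nat → Nat → Nat → Bool) (r M Z s : Nat) (ih : Nat → Bool) (m : Nat) : Bool :=
  Nat.rec (motive := fun _ => Bool) false (fun k _ => golB thr a gp R A ch r M Z s ih m k)
    (Nat.add (lgm m) (nat_lit 1))

/-- the candidates of a position, `m` the mask of the candidates which are left -/
def gol3 (thr a gp : Nat) (R : Nat → Nat → Nat) (A : Nat → Nat → Nat → Nat)
    (ch : Nat → Nat → Nat → Bool) (r M Z s n : Nat) : Nat → Bool :=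
  Nat.rec (motive := fun _ => Nat → Bool) (fun _ => false)
    (fun _ ih m =>
      Nat.rec (motive := fun _ => (Nat → Bool) → Bool) (fun _ => false)
        (fun m _ => Bool.rec (motive := fun _ => (Nat → Bool) → Bool)
          (Bool.rec (motive := fun _ => (Nat → Bool) → Bool)
            (fun ih => golC thr a gp R A ch r M Z s ih m)
            (fun _ => true) (Nat.ble (Nat.add s (Nat.add (gnl gp (lgm m)) r)) thr))
          (fun _ => true) (Nat.beq m (nat_lit 0))) (Nat.add m (nat_lit 1)) ih) n

theorem gol3_step {thr a gp : Nat} {R : Nat → Nat → Nat} {A : Nat → Nat → Nat → Nat}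
    {ch : Nat → Nat → Nat → Bool} {r M Z s n m : Nat} :
    gol3 thr a gp R A ch r M Z s (n + 1) m = Bool.rec (motive := fun _ => Bool)
        (Bool.rec (motive := fun _ => Bool)
          (Bool.rec (motive := fun _ => Bool) false
              (gol3 thr a gp R A ch r M Z s n (Nat.xor m (Nat.shiftLeft 1 (lgm m))))
              (Bool.rec (motive := fun _ => Bool)
                (Bool.rec (motive := fun _ => Bool)
                  (Bool.rec (motive := fun _ => Bool) true
                    (ch (Nat.xor M (Nat.land M (R (lgm m)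
                      (Nat.lor Z (Nat.shiftLeft 1 (a + lgm m))))))
                      (Nat.lor Z (Nat.shiftLeft 1 (a + lgm m)))
                      (A (lgm m) (Nat.lor Z (Nat.shiftLeft 1 (a + lgm m))) s))
                    (Nat.beq (Nat.land (Nat.shiftRight (R (lgm m)
                      (Nat.lor Z (Nat.shiftLeft 1 (a + lgm m)))) (a + lgm m)) 1) 0))
                  true (Nat.ble (A (lgm m) (Nat.lor Z (Nat.shiftLeft 1 (a + lgm m))) s + r)
                    thr))
                (ch M Z (s + gnl gp 0)) (Nat.beq (lgm m) 0)))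
          true (Nat.ble (s + (gnl gp (lgm m) + r)) thr))
        true (Nat.beq m 0) := by
  show (Bool.rec (motive := fun _ => (Nat → Bool) → Bool)
          (Bool.rec (motive := fun _ => (Nat → Bool) → Bool)
            (fun ih => golC thr a gp R A ch r M Z s ih m)
            (fun _ => true) (Nat.ble (s + (gnl gp (lgm m) + r)) thr))
          (fun _ => true) (Nat.beq m 0) : (Nat → Bool) → Bool) (gol3 thr a gp R A ch r M Z s n) = _
  cases Nat.beq m 0
  · cases Nat.ble (s + (gnl gp (lgm m) + r)) thr <;> rfl
  · rfl

/-- The search. -/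
def gon3 (thr : Nat) (ps : List PX) : Nat → Nat → Nat → Bool :=
  List.rec (motive := fun _ => Nat → Nat → Nat → Bool)
    (fun _ _ s => Nat.ble s thr)
    (fun p ps ih M Z s => PX.rec (motive := fun _ => Bool)
      (fun a f gp n R A => gol3 thr a gp R A ih (bsx M ps) M Z s n
        (Nat.land (Nat.shiftRight M a) f)) p) ps

section sound

variable {τ : Nat → Prop}

/-- the position `p` is correct, `B` the bits which have been chosen -/
def POk4 (τ B : Nat → Prop) (k : Nat) (G : ℤ) (p : PX) : Prop :=
  Nat.testBit p.f k = true ∧ (∀ i, k ≤ i → Nat.testBit p.f i = true → G ≤ (gn p.gp i : ℤ)) ∧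
    (k ≠ 0 → ∀ Z, (∀ t, Nat.testBit Z t = true ↔ (B t ∨ t = p.a + k)) →
      ¬ Sat τ (p.R k Z) ∧ ∀ s : Nat, (s : ℤ) + G ≤ (p.A k Z s : ℤ))

/-- the positions are correct, one after the other -/
def Chn (τ : Nat → Prop) (κ : Nat → Nat) (G : Nat → ℤ) : (Nat → Prop) → List PX → Prop
  | _, [] => True
  | B, p :: ps => POk4 τ B (κ p.a) (G p.a) p ∧
      Chn τ κ G (fun t => B t ∨ (κ p.a ≠ 0 ∧ t = p.a + κ p.a)) ps

theorem bsa_lei {M a f gp k : Nat} {G : ℤ} (h1 : Nat.testBit f k = true)
    (h2 : ∀ i, k ≤ i → Nat.testBit f i = true → G ≤ (gn gp i : ℤ))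
    (hM : Nat.testBit M (a + k) = true) : G ≤ (bsa M a f gp : ℤ) := by
  have h3 : G.toNat ≤ bsa M a f gp := by
    refine bsa_le h1 (fun i hi hf => ?_) hM
    have := h2 i hi hf
    omega
  omega

variable {κ : Nat → Nat} {G : Nat → ℤ}

theorem bsx_le {M : Nat} : ∀ {B : Nat → Prop} (ps : List PX), Chn τ κ G B ps →
    (∀ p ∈ ps, Nat.testBit M (p.a + κ p.a) = true) →
    (ps.map fun p => G p.a).sum ≤ (bsx M ps : ℤ)
  | _, [], _, _ => by
    show (0 : ℤ) ≤ ((0 : Nat) : ℤ)
    simp
  | B, p :: ps, h, hM => by
    have h1 := h.1
    have h2 : G p.a ≤ (bsa M p.a p.f p.gp : ℤ) :=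
      bsa_lei h1.1 h1.2.1 (hM p (List.mem_cons_self ..))
    have h3 := bsx_le ps h.2 (fun q hq => hM q (List.mem_cons_of_mem _ hq))
    have e : (bsx M (p :: ps) : ℤ) = (bsa M p.a p.f p.gp : ℤ) + (bsx M ps : ℤ) := by
      have : bsx M (p :: ps) = bsa M p.a p.f p.gp + bsx M ps := rfl
      rw [this]; push_cast; rfl
    rw [e]
    simp only [List.map_cons, List.sum_cons]
    omega

/-- the loop over the candidates -/
theorem gol3_sound {thr a gp : Nat} {R : Nat → Nat → Nat} {A : Nat → Nat → Nat → Nat}
    {ch : Nat → Nat → Nat → Bool} {r M Z s k f : Nat} {g : ℤ} {T : Prop}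
    (hg : ∀ i, k ≤ i → Nat.testBit f i = true → g ≤ (gn gp i : ℤ))
    (hf : Nat.testBit f k = true)
    (hb : ∀ x : ℤ, g ≤ x → (s : ℤ) + x + r ≤ thr → T)
    (h0 : k = 0 → ch M Z (s + gn gp 0) = true → T)
    (hk : k ≠ 0 → Nat.testBit (R k (Nat.lor Z (2 ^ (a + k)))) (a + k) = false ∧
      (s : ℤ) + g ≤ (A k (Nat.lor Z (2 ^ (a + k))) s : ℤ) ∧
      (ch (Nat.xor M (Nat.land M (R k (Nat.lor Z (2 ^ (a + k)))))) (Nat.lor Z (2 ^ (a + k)))
        (A k (Nat.lor Z (2 ^ (a + k))) s) = true → T)) :
    ∀ (n m : Nat), (∀ i, Nat.testBit m i = true → Nat.testBit f i = true) →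
      Nat.testBit m k = true → gol3 thr a gp R A ch r M Z s n m = true → T
  | 0, _, _, _, h => Bool.noConfusion (show false = true from h)
  | n + 1, m, hm, hmk, h => by
    have hm0 : m ≠ 0 := by
      intro h0
      rw [h0, Nat.zero_testBit] at hmk
      exact absurd hmk (by decide)
    have h' : Bool.rec (motive := fun _ => Bool)
        (Bool.rec (motive := fun _ => Bool)
          (Bool.rec (motive := fun _ => Bool) false
              (gol3 thr a gp R A ch r M Z s n (Nat.xor m (Nat.shiftLeft 1 (Nat.log2 m))))
              (Bool.rec (motive := fun _ => Bool)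
                (Bool.rec (motive := fun _ => Bool)
                  (Bool.rec (motive := fun _ => Bool) true
                    (ch (Nat.xor M (Nat.land M (R (Nat.log2 m)
                      (Nat.lor Z (Nat.shiftLeft 1 (a + Nat.log2 m))))))
                      (Nat.lor Z (Nat.shiftLeft 1 (a + Nat.log2 m)))
                      (A (Nat.log2 m) (Nat.lor Z (Nat.shiftLeft 1 (a + Nat.log2 m))) s))
                    (Nat.beq (Nat.land (Nat.shiftRight (R (Nat.log2 m)
                      (Nat.lor Z (Nat.shiftLeft 1 (a + Nat.log2 m)))) (a + Nat.log2 m)) 1) 0))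
                  true (Nat.ble (A (Nat.log2 m) (Nat.lor Z (Nat.shiftLeft 1 (a + Nat.log2 m))) s + r)
                    thr))
                (ch M Z (s + gn gp 0)) (Nat.beq (Nat.log2 m) 0)))
          true (Nat.ble (s + (gn gp (Nat.log2 m) + r)) thr))
        true (Nat.beq m 0) = true := by
      rw [← lgm_eq m]
      rw [gol3_step] at h
      exact h
    have e0 : Nat.beq m 0 = false := by
      rw [← Bool.not_eq_true]
      intro h0
      exact hm0 (Nat.eq_of_beq_eq_true h0)
    rw [e0] at h'
    have hkl : k ≤ Nat.log2 m := by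
      rw [Nat.le_log2 hm0]
      exact Nat.ge_two_pow_of_testBit hmk
    have hfl := hm _ (testBit_log2 hm0)
    cases hbl : Nat.ble (s + (gn gp (Nat.log2 m) + r)) thr with
    | true =>
      have h9 := Nat.le_of_ble_eq_true hbl
      exact hb _ (hg _ hkl hfl) (by omega)
    | false =>
      rw [hbl] at h'
      rw [shl_one, shl_one] at h'
      generalize hj : Nat.log2 m = j at h' hkl hfl
      generalize hc : (Bool.rec (motive := fun _ => Bool)
                (Bool.rec (motive := fun _ => Bool)
                  (Bool.rec (motive := fun _ => Bool) true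
                    (ch (Nat.xor M (Nat.land M (R j (Nat.lor Z (2 ^ (a + j))))))
                      (Nat.lor Z (2 ^ (a + j))) (A j (Nat.lor Z (2 ^ (a + j))) s))
                    (Nat.beq (Nat.land (Nat.shiftRight (R j
                      (Nat.lor Z (2 ^ (a + j)))) (a + j)) 1) 0))
                  true (Nat.ble (A j (Nat.lor Z (2 ^ (a + j))) s + r) thr))
                (ch M Z (s + gn gp 0)) (Nat.beq j 0) : Bool) = b at h'
      cases b with
      | false => exact Bool.noConfusion (show false = true from h')
      | true =>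
        have h2 : gol3 thr a gp R A ch r M Z s n (Nat.xor m (2 ^ j)) = true := h'
        by_cases hjk : j = k
        · subst hjk
          by_cases hj0 : j = 0
          · subst hj0
            exact h0 rfl hc
          · have e1 : Nat.beq j 0 = false := by
              rw [← Bool.not_eq_true]
              intro h0
              exact hj0 (Nat.eq_of_beq_eq_true h0)
            rw [e1] at hc
            obtain ⟨k1, k3, k2⟩ := hk hj0
            cases hq : Nat.ble (A j (Nat.lor Z (2 ^ (a + j))) s + r) thr with
            | true =>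
              have h9 := Nat.le_of_ble_eq_true hq
              exact hb ((A j (Nat.lor Z (2 ^ (a + j))) s : ℤ) - s) (by omega) (by omega)
            | false =>
            rw [hq] at hc
            have e2 : Nat.beq (Nat.land (Nat.shiftRight (R j
                (Nat.lor Z (2 ^ (a + j)))) (a + j)) 1) 0 = true := by
              have e3 : Nat.land (Nat.shiftRight (R j
                (Nat.lor Z (2 ^ (a + j)))) (a + j)) 1 = 0 := by
                have e4 := Nat.testBit_eq_decide_div_mod_eq
                  (x := R j (Nat.lor Z (2 ^ (a + j)))) (i := a + j)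
                rw [k1] at e4
                have e5 : ¬ (R j (Nat.lor Z (2 ^ (a + j)))) / 2 ^ (a + j) % 2 = 1 := by
                  intro h
                  rw [h] at e4
                  exact absurd e4 (by decide)
                rw [land_eq, shr_eq, Nat.and_one_is_mod, Nat.shiftRight_eq_div_pow]
                omega
              rw [e3]; rfl
            rw [e2] at hc
            exact k2 hc
        · refine gol3_sound hg hf hb h0 hk n _ (fun i hi => ?_) ?_ h2
          · rw [xor_eq, Nat.testBit_xor, Nat.testBit_two_pow] at hi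
            by_cases hij : j = i
            · rw [← hij]; exact hfl
            · rw [decide_eq_false hij, Bool.xor_false] at hi
              exact hm i hi
          · rw [xor_eq, Nat.testBit_xor, Nat.testBit_two_pow, hmk,
              decide_eq_false hjk]
            rfl

theorem gon3_sound (thr : Nat) : ∀ {B : Nat → Prop} (ps : List PX), Chn τ κ G B ps →
    (∀ p ∈ ps, τ (p.a + κ p.a)) → ∀ M Z s, (∀ p ∈ ps, Nat.testBit M (p.a + κ p.a) = true) →
    (∀ t, Nat.testBit Z t = true ↔ B t) →
    gon3 thr ps M Z s = true → (s : ℤ) + (ps.map fun p => G p.a).sum ≤ (thr : ℤ)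
  | _, [], _, _, M, Z, s, _, _, h => by
    have h1 : Nat.ble s thr = true := h
    have h2 := Nat.le_of_ble_eq_true h1
    simpa using h2
  | B, p :: ps, hp, ht, M, Z, s, hM, hZ, h => by
    obtain ⟨⟨f1, f2, f3⟩, hps⟩ := hp
    have hts := fun q hq => ht q (List.mem_cons_of_mem p hq)
    have hMs := fun q hq => hM q (List.mem_cons_of_mem p hq)
    have hM0 := hM p (List.mem_cons_self ..)
    have ht0 := ht p (List.mem_cons_self ..)
    have hr := bsx_le ps hps hMs
    have ih := gon3_sound thr ps hps hts
    have h' : gol3 thr p.a p.gp p.R p.A (gon3 thr ps) (bsx M ps) M Z s p.n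
      (Nat.land (Nat.shiftRight M p.a) p.f) = true := h
    simp only [List.map_cons, List.sum_cons]
    refine gol3_sound (f := p.f) (k := κ p.a) (g := G p.a) f2 f1 (fun x h1 h2 => ?_)
      (fun h0 h1 => ?_) (fun h0 => ?_) p.n _ (fun i hi => ?_) ?_ h'
    · omega
    · have h2 := ih M Z _ hMs (fun t => by
        rw [hZ t]
        constructor
        · exact Or.inl
        · rintro (ht | ht)
          · exact ht
          · exact absurd h0 ht.1) h1
      have h3 := f2 _ (le_refl _) f1
      rw [h0] at h3
      push_cast at h2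
      omega
    · have hZ' : ∀ t, Nat.testBit (Nat.lor Z (2 ^ (p.a + κ p.a))) t = true ↔
          (B t ∨ t = p.a + κ p.a) := by
        intro t
        rw [lor_eq, Nat.testBit_or, Bool.or_eq_true, Nat.testBit_two_pow,
          decide_eq_true_eq, hZ t]
        constructor
        · rintro (h | h)
          · exact Or.inl h
          · exact Or.inr h.symm
        · rintro (h | h)
          · exact Or.inl h
          · exact Or.inr h.symm
      obtain ⟨hE, hA⟩ := f3 h0 _ hZ'
      refine ⟨?_, hA s, fun h1 => ?_⟩
      · rw [← Bool.not_eq_true]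
        intro h1
        exact hE ⟨_, ht0, h1⟩
      · have h2 := ih _ _ _ (fun q hq => clear_ok (hts q hq) (hMs q hq) hE) (fun t => by
          rw [hZ' t]
          constructor
          · rintro (h | h)
            · exact Or.inl h
            · exact Or.inr ⟨h0, h⟩
          · rintro (h | h)
            · exact Or.inl h
            · exact Or.inr h.2) h1
        have h3 := hA s
        omega
    · rw [land_eq, Nat.testBit_and, Bool.and_eq_true] at hi
      exact hi.2
    · rw [land_eq, shr_eq, Nat.testBit_and, Nat.testBit_shiftRight, hM0, f1]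
      rfl

end sound

end

end Pool.FCS
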