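import Pool.Agent.FCS.Xa
import Pool.Agent.FCS.Wm

/-!
# Star check with flows on triangles: definitions

The gain of the corner `A` of a solid triangle with the other two corners `B` (neighbour before the
sector) and `C` (neighbour behind the sector), blind codes, each read from the letter of the
triangle, is `x A B C` minus the offset `65536`. The gains of a corner `A` are a matrix, its rows
are the classes of the codes `B`, its columns the classes of the codes `C`.
-/

namespace Pool.FCS

noncomputable section

/-- number of the rows -/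
def mnB (m : Nat) : Nat := Nat.mod m (nat_lit 512)

/-- number of the columns -/
def mnC (m : Nat) : Nat := Nat.mod (Nat.shiftRight m (nat_lit 9)) (nat_lit 512)

/-- the row `b` (from 1) -/
def mrw (m b : Nat) : Nat :=
  frc (mnC m) fun n => Nat.mod
    (Nat.shiftRight m (Nat.add (nat_lit 18) (Nat.mul (nat_lit 17) (Nat.mul (Nat.sub b (nat_lit 1)) n))))
    (Nat.pow (nat_lit 2) (Nat.mul (nat_lit 17) n))

/-- the field `c` (from 1) of a row -/
def rfd (r c : Nat) : Nat :=
  Nat.mod (Nat.shiftRight r (Nat.mul (nat_lit 17) (Nat.sub c (nat_lit 1)))) (nat_lit 131072)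

/-- the end of the matrix -/
def mo1 (m : Nat) : Nat := Nat.add (nat_lit 18) (Nat.mul (nat_lit 17) (Nat.mul (mnB m) (mnC m)))

/-- the code of a row -/
def mcB (m b : Nat) : Nat :=
  Nat.mod (Nat.shiftRight m (Nat.add (mo1 m) (Nat.mul (nat_lit 30) (Nat.sub b (nat_lit 1)))))
    (nat_lit 1073741824)

/-- the code of a column -/
def mcC (m c : Nat) : Nat :=
  Nat.mod (Nat.shiftRight m (Nat.add (mo1 m) (Nat.mul (nat_lit 30)
    (Nat.add (mnB m) (Nat.sub c (nat_lit 1)))))) (nat_lit 1073741824)

/-- the end of the codes -/
def mo2 (m : Nat) : Nat := Nat.add (mo1 m) (Nat.mul (nat_lit 30) (Nat.add (mnB m) (mnC m)))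

/-- the allowance of a row -/
def maR (m b : Nat) : Nat :=
  Nat.mod (Nat.shiftRight m (Nat.add (mo2 m) (Nat.mul (nat_lit 17) (Nat.sub b (nat_lit 1)))))
    (nat_lit 131072)

/-- the allowance of a column -/
def maL (m c : Nat) : Nat :=
  Nat.mod (Nat.shiftRight m (Nat.add (mo2 m) (Nat.mul (nat_lit 17)
    (Nat.add (mnB m) (Nat.sub c (nat_lit 1)))))) (nat_lit 131072)

/-- two blind codes in one number -/
def pr2 (A B : Nat) : Nat := Nat.add A (Nat.mul (nat_lit 1073741824) B)

/-- The tables: `W` the check of the stars with the bounds of the gains, `M` the matrices, `B`, `C`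
the classes of two blind codes, `V` the classes of the candidates of a key, `ka` the packed gains
without allowances. -/
structure Px where
  W : Pw
  M : Nat → Nat
  B : Nat → Nat
  C : Nat → Nat
  V : Nat → Nat
  ka : Nat → Nat

/-- the gain of the classes `b`, `c` with offset -/
def xbc (m b c : Nat) : Nat :=
  Bool.rec (motive := fun _ => Nat)
    (Bool.rec (motive := fun _ => Nat) (frc (mrw m b) fun r => rfd r c) (nat_lit 65536)
      (Nat.beq c (nat_lit 0)))
    (nat_lit 65536) (Nat.beq b (nat_lit 0))

/-- the gain of the corner `A` with offset -/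
def Px.x (X : Px) (A B C : Nat) : Nat :=
  frc (X.B (pr2 A B)) fun b => frc (X.C (pr2 A C)) fun c => frc (X.M A) fun m => xbc m b c

/-- the gain of a corner of a triangle (words) -/
def Px.xw (X : Px) (a b c : List Nat) : Int :=
  (fun A B C : Nat => if A < 1073741824 ∧ B < 1073741824 ∧ C < 1073741824 then
      (X.x A B C : Int) - 65536 else 0)
    (blc X.W.P.Q.bm (enc a)) (blc X.W.P.Q.bm (enc b)) (blc X.W.P.Q.bm (enc c))

/-- the check of a matrix -/
def Px.kM (X : Px) (A m : Nat) : Bool :=
  Bool.rec (motive := fun _ => Bool) false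
    (alln (mnB m) fun j => frc (Nat.succ j) fun b => frc (mcB m b) fun B => frc (maR m b) fun q =>
      frc (mrw m b) fun r => alln (mnC m) fun j' => frc (Nat.succ j') fun c =>
        frc (rfd r c) fun x =>
          Bool.rec (motive := fun _ => Bool) false
            (Bool.rec (motive := fun _ => Bool) false
              (Bool.rec (motive := fun _ => Bool)
                (frc (mcC m c) fun C =>
                  Nat.beq (Nat.add x (Nat.add (X.x B C A) (X.x C A B))) (nat_lit 196608))
                true (Nat.beq x (nat_lit 65536)))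
              (Nat.ble x (Nat.add (nat_lit 65536) (maL m c))))
            (Nat.ble x (Nat.add (nat_lit 65536) q)))
    (tb X.W.P.Q.sm (Nat.mod A 32))

/-- the check of the class `b` of a pair of codes -/
def Px.kB (X : Px) (p b : Nat) : Bool :=
  frc (X.M (Nat.mod p (nat_lit 1073741824))) fun m =>
    Bool.rec (motive := fun _ => Bool) false
      (Nat.beq (mcB m b) (Nat.div p (nat_lit 1073741824))) (Nat.ble b (mnB m))

/-- the check of the class `c` of a pair of codes -/
def Px.kC (X : Px) (p c : Nat) : Bool :=
  frc (X.M (Nat.mod p (nat_lit 1073741824))) fun m =>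
    Bool.rec (motive := fun _ => Bool) false
      (Nat.beq (mcC m c) (Nat.div p (nat_lit 1073741824))) (Nat.ble c (mnC m))

/-- the classes of the candidate `κ`: `256` times the column plus the row -/
def vfd (v κ : Nat) : Nat :=
  Nat.mod (Nat.shiftRight v (Nat.mul (nat_lit 16) κ)) (nat_lit 65536)

/-- the check of the classes of the candidates of the key `a` -/
def Px.kV (X : Px) (a v : Nat) : Bool :=
  frc (lo a) fun A => frc (rrc A) fun A' => alln (kn (X.W.kt a)) fun j => frc (Nat.succ j) fun κ =>
    frc (X.W.P.cd a κ) fun u => frc (vfd v κ) fun z =>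
      Bool.rec (motive := fun _ => Bool)
        (Bool.rec (motive := fun _ => Bool) false
          (Nat.beq (Nat.div z (nat_lit 256)) (X.C (pr2 A' (lo u))))
          (Nat.beq (Nat.mod z (nat_lit 256)) (X.B (pr2 A (rrc (lo u))))))
        (Nat.beq z (nat_lit 0)) (Nat.ble u (nat_lit 1))

/-- the allowance for the sector behind the edge -/
def Px.ar (X : Px) (A B : Nat) : Nat :=
  frc (X.B (pr2 A B)) fun b => Bool.rec (motive := fun _ => Nat) (maR (X.M A) b) (nat_lit 0)
    (Nat.beq b (nat_lit 0))

/-- the allowance for the sector before the edge -/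
def Px.al (X : Px) (A C : Nat) : Nat :=
  frc (X.C (pr2 A C)) fun c => Bool.rec (motive := fun _ => Nat) (maL (X.M A) c) (nat_lit 0)
    (Nat.beq c (nat_lit 0))

/-- the allowances of the neighbour `u` of the key `a` -/
def Px.ae (X : Px) (a u : Nat) : Nat :=
  Bool.rec (motive := fun _ => Nat)
    (Nat.add (X.ar (lo a) (rrc (lo u))) (X.al (rrc (lo a)) (lo u))) (nat_lit 0)
    (Nat.ble u (nat_lit 1))

/-- the packed gains without allowances -/
def Px.ga (X : Px) (a K : Nat) : Nat :=
  frc (X.ka a) fun G => Bool.rec (motive := fun _ => Nat) G (kg K) (Nat.beq G (nat_lit 0))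

/-- the check of the packed gains `G` of the key `a` -/
def Px.kA (X : Px) (a G : Nat) : Bool :=
  frc (X.W.kt a) fun K => alln (kn K) fun j => frc (Nat.succ j) fun κ =>
    frc (X.W.P.cd a κ) fun u =>
      Nat.ble (gnl (kg K) κ) (Nat.add (gnl G κ) (X.ae a u))

/-- a list is empty -/
def nilb {α : Type} (l : List α) : Bool :=
  List.rec (motive := fun _ => Bool) true (fun _ _ _ => false) l

/-- no allowances -/
def mz (n : Nat) (f : Nat → Nat) : Bool := alln n fun j => Nat.beq (f (Nat.succ j)) (nat_lit 0)

/-- a key without list of candidates has no allowances -/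
def Px.k0 (X : Px) (a : Nat) : Bool :=
  bif nilb (X.W.P.Q.SG.get a) then
    frc (X.M (lo a)) fun m => frc (X.M (rrc (lo a))) fun m' =>
      bif mz (mnB m) (maR m) then mz (mnC m') (maL m') else false
  else true

/-- the blind code of a key can be rotated; the keys without list of candidates have no
allowances -/
def Px.kW (X : Px) (_k : Nat) (l : List Nat) : Bool :=
  allb (fun a => bif Nat.beq (rlc (rrc (lo a))) (lo a) then X.k0 a else false) l

/-- the bound of the gain (keys) -/
def Px.gk (X : Px) (a b : Nat) : Nat := Nat.add (X.W.P.Q.Gn a b) (X.ae a (mi b))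

/-- the neighbour with the key `b` is covered -/
def Px.okx (X : Px) (a df : Nat) (cl : List (Nat × Nat)) (b : Nat) : Bool :=
  bif X.W.P.pcs (slf a) (lo a) (slf b) (lo b) then true else
    frc (X.gk a b) fun g => bif Nat.ble g df then true else lst g (mi b) cl

/-- the list of the candidates of the key `a` is complete -/
def Px.soc (X : Px) (WL : BT (List Nat)) (a : Nat) (L : List (Nat × Nat)) : Bool :=
  List.rec (motive := fun _ => Bool) true
    (fun q cl _ =>
      bif (bif Nat.ble (Nat.sub X.W.P.Q.sh (X.W.P.nk a)) q.1 then true else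
        lst (Nat.sub X.W.P.Q.sh (X.W.P.nk a)) 1 cl) then
        (fun la fa : Nat =>
          alln 32 fun f => bif X.W.P.Q.cme f la then
            alln 32 fun l => bif X.W.P.Q.cme fa l then
              allb (X.okx a q.1 cl) (WL.get (Nat.add f (Nat.mul 32 l))) else true
          else true) (Nat.div (hi a) 32) (Nat.mod (hi a) 32)
      else false) L

/-- the keys `bs` are covered, as far as they are possible -/
def Px.oks (X : Px) (a la fa df : Nat) (cl : List (Nat × Nat)) (bs : List Nat) : Bool :=
  allb (fun b => bif (bif X.W.P.Q.cme (Nat.mod (hi b) 32) la then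
    X.W.P.Q.cme fa (Nat.div (hi b) 32) else false) then X.okx a df cl b else true) bs

/-- the keys with the blind code `C` are covered -/
def Px.ok8 (X : Px) (WM : BT (List Nat)) (a la fa df : Nat) (cl : List (Nat × Nat)) (C : Nat) :
    Bool :=
  alln 8 fun f => X.oks a la fa df cl (WM.get (Nat.add C (Nat.mul (nat_lit 1073741824) f)))

/-- The list of the candidates of the key `a` is complete, fast check: only the entries of the tables
with a larger gain than the default are considered; `WM` the keys of a flagged blind code. -/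
def Px.so3 (X : Px) (WL WM : BT (List Nat)) (a : Nat) (L : List (Nat × Nat)) : Bool :=
  List.rec (motive := fun _ => Bool) true
    (fun q cl _ =>
      bif (bif Nat.ble X.W.P.Q.sh q.1 then Nat.ble (rrc (lo a)) 1073741823 else false) then
        (fun la fa : Nat => frc (lo a) fun A => frc (rrc A) fun A' =>
          bif ala (fun p => bif Nat.ble (Nat.add p.1 (X.ae a p.2)) q.1 then true else
              X.oks a la fa q.1 cl (WM.get p.2)) (X.W.P.Q.T.get a) then
            bif frc (X.M A) (fun m => alln (mnB m) fun j => frc (Nat.succ j) fun b =>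
              frc (rlc (mcB m b)) fun C =>
                bif Nat.ble (Nat.add X.W.P.Q.sh (Nat.add (maR m b) (X.al A' C))) q.1 then true
                else X.ok8 WM a la fa q.1 cl C) then
              frc (X.M A') (fun m => alln (mnC m) fun j => frc (Nat.succ j) fun c =>
                frc (mcC m c) fun C =>
                  bif Nat.ble (Nat.add X.W.P.Q.sh (Nat.add (X.ar A (rrc C)) (maL m c))) q.1 then
                    true else X.ok8 WM a la fa q.1 cl C)
            else false
          else false) (Nat.div (hi a) 32) (Nat.mod (hi a) 32)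
      else X.soc WL a L) L

/-- the correction for the right neighbour: `b` the own class (row), `a` the shift of the right
position, `V` the classes of its candidates -/
def crR (w m b a V Z s : Nat) : Nat :=
  Bool.rec (motive := fun _ => Nat)
    (frc (Nat.mod (Nat.shiftRight Z a) (Nat.pow (nat_lit 2) w)) fun z =>
      Bool.rec (motive := fun _ => Nat)
        (frc (Nat.div (vfd V (lgm z)) (nat_lit 256)) fun c =>
          Bool.rec (motive := fun _ => Nat)
            (frc (mrw m b) fun r => Nat.sub (Nat.add s (rfd r c)) (nat_lit 65536)) s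
            (Nat.beq c (nat_lit 0))) s
        (Nat.beq z (nat_lit 0))) s
    (Nat.beq b (nat_lit 0))

/-- the correction for the left neighbour: `c` the own class (column) -/
def crL (w m c a V Z s : Nat) : Nat :=
  Bool.rec (motive := fun _ => Nat)
    (frc (Nat.mod (Nat.shiftRight Z a) (Nat.pow (nat_lit 2) w)) fun z =>
      Bool.rec (motive := fun _ => Nat)
        (frc (Nat.mod (vfd V (lgm z)) (nat_lit 256)) fun b =>
          Bool.rec (motive := fun _ => Nat)
            (frc (mrw m b) fun r => Nat.sub (Nat.add s (rfd r c)) (nat_lit 65536)) s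
            (Nat.beq b (nat_lit 0))) s
        (Nat.beq z (nat_lit 0))) s
    (Nat.beq c (nat_lit 0))

/-- the new sum with both neighbours -/
def axs (w aR aL mR mL V VR VL G κ Z s : Nat) : Nat :=
  frc (vfd V κ) fun v =>
    frc (crR w mR (Nat.mod v (nat_lit 256)) aR VR Z (Nat.add s (gnl G κ)))
      (crL w mL (Nat.div v (nat_lit 256)) aL VL Z)

/-- a position -/
def Px.pq (X : Px) (c d k i N : Nat) : PX :=
  frc (X.W.kr c i) fun K => frc (X.ga (X.W.ke c i) K) fun G =>
    frc (X.M (lo (X.W.ke c i))) fun mR => frc (X.M (lo (X.W.ke c (prv d i)))) fun mL =>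
      Bool.rec (motive := fun _ => PX)
        (frc (X.V (X.W.ke c i)) fun V => frc (X.V (X.W.ke c (nxt d i))) fun VR =>
          frc (X.V (X.W.ke c (prv d i))) fun VL =>
            ⟨Nat.mul X.W.P.w i, Nat.sub (Nat.pow 2 (Nat.add (kn K) 1)) 1,
              kg K, Nat.add (kn K) 64, fun κ Z => X.W.rfn c d k i (kn K) N κ Z,
              axs X.W.P.w (Nat.mul X.W.P.w (nxt d i)) (Nat.mul X.W.P.w (prv d i)) mR mL V VR VL G⟩)
        ⟨Nat.mul X.W.P.w i, Nat.sub (Nat.pow 2 (Nat.add (kn K) 1)) 1,
          kg K, Nat.add (kn K) 64, fun κ Z => X.W.rfn c d k i (kn K) N κ Z,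
          fun κ _ s => Nat.add s (gnl G κ)⟩
        (Nat.beq (Nat.add mR mL) (nat_lit 0))

/-- the positions in the given order -/
def Px.pqs (X : Px) (c d k : Nat) (NL : List Nat) (ord : List Nat) : List PX :=
  List.rec (motive := fun _ => List PX) []
    (fun i _ ih => sl6 (fun i => X.pq c d k i (nth NL i)) i :: ih) ord

/-- the check of a leaf: no null neighbour in `ns`, one null neighbour, two null neighbours -/
def Px.lfn (X : Px) (c d : Nat) (ns : List Nat) (ps : List PX) (m : Nat) : Bool :=
  bif gon3 (X.W.P.Q.thr c) ps (rmv m (X.W.P.x0 c ns)) 0 0 then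
    bif allb (fun i => bif Nat.ble (Nat.succ i) d then
        gon3 (Nat.add (X.W.P.Q.thr c) X.W.P.dl) ps (rmv m (Nat.lor (X.W.P.nlo c i)
          (X.W.P.x1 c i d))) 0 0
      else false) ns then
      alln d fun i => bif (bif tb X.W.P.Q.sm (dg (Nat.pow 32 i) c) then
          (bif mem i ns then true else mem (nxt d i) ns) else false) then
        gon3 (X.W.P.Q.thr c) ps (rmv m (Nat.lor (X.W.P.nlo c i) (sl6 (X.W.P.nlo c) (nxt d i))))
          0 0
      else true
    else false
  else false

/-- the check of a leaf -/
def Px.lfc (X : Px) (c d k : Nat) (o x s u : Nat) (NL V : List Nat) : Bool :=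
  Bool.rec (motive := fun _ => Bool) false
    (Bool.rec (motive := fun _ => Bool) false
      (Bool.rec (motive := fun _ => Bool) false
        (List.rec (motive := fun _ => Bool)
          (gon3 (X.W.P.Q.thr c) (X.pqs c d k NL (dN 3 o)) (X.W.m0 c d (dN 11 x) (dN 36 u)) 0 0)
          (fun _ _ _ => X.lfn c d (dN 3 s) (X.pqs c d k NL (dN 3 o))
            (X.W.m0 c d (dN 11 x) (dN 36 u))) (dN 3 s))
        (frc (av2 X.W.lv V) fun AV => frc (av2 X.W.lm (rvl V)) fun AW =>
          Bool.rec (motive := fun _ => Bool) false
            (alln d fun i => X.W.cks c d k AV AW i (kn (X.W.kr c i)) (nth NL i))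
            (ala (X.W.fqz c d AV AW 0 0) (dN 36 u))))
      (ala (fun t => frc t (X.W.P.ux c d k V)) (dN 11 x)))
    (okOrd d (dN 3 o))

/-- the check of a tree -/
def Px.ckt (X : Px) (c d k : Nat) (t : Tr2) : List Nat → Nat → List Nat → Bool :=
  Tr2.rec (motive := fun _ => List Nat → Nat → List Nat → Bool)
    (fun o x s u NL V _ _ => X.lfc c d k o x s u NL V)
    (fun n V _ _ => fq X.W.FN d (av2 X.W.lv V) (av2 X.W.lm (rvl V)) 0 0 n)
    (fun i _ ih V _ _ => bif Nat.ble (Nat.succ i) d then ih V i (X.W.P.lg (gtk V i)) else false)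
    (fun _ _ iha iht V i L => List.rec (motive := fun _ => Bool) true
      (fun x L' _ => bif (bif X.W.P.imp k x (gtk V (prv d i)) (gtk V (nxt d i)) then true else
          iha (stk x V i) i [x]) then
        iht V i L' else false) L)
    (fun _ _ L => List.rec (motive := fun _ => Bool) true (fun _ _ _ => false) L) t

/-- the classes of the candidates of the position `i` are known, if they are used -/
def Px.kc (X : Px) (c d i : Nat) : Bool :=
  bif Nat.beq (Nat.add (X.M (lo (X.W.ke c i))) (X.M (lo (X.W.ke c (prv d i))))) (nat_lit 0) then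
    true else Nat.ble (nat_lit 1) (X.V (X.W.ke c i))

/-- the trees which are checked without the flows on the triangles -/
def Px.old (X : Px) (k : Nat) (t : Tr2) : Bool :=
  bif ded2 t then true else alln (dgn k) fun i => Nat.beq (X.M (lo (X.W.ke k i))) (nat_lit 0)

/-- The check of an entry of the table of the centres (no records of keys for dead trees). -/
def Px.ckc (X : Px) (k : Nat) (l : List CE2) : Bool :=
  List.rec (motive := fun _ => Bool) true
    (fun E _ ih => bif Nat.beq E.c k then
      bif (bif ded2 E.t then true else alln (dgn k) (fun i => Nat.ble 1 (X.W.kr k i))) then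
        bif (bif X.old k E.t then
            X.W.ckt k (dgn k) (wsl X.W.P.Q.wm k) E.t (X.W.P.v0 k) 0 (X.W.P.lg (gtk (X.W.P.v0 k) 0))
          else bif alln (dgn k) (fun i => X.kc k (dgn k) i) then
            X.ckt k (dgn k) (wsl X.W.P.Q.wm k) E.t (X.W.P.v0 k) 0 (X.W.P.lg (gtk (X.W.P.v0 k) 0))
          else false)
          then ih else false
      else false
    else false) l

/-- The checks of the tables. -/
structure Kt (X : Px) (WL : BT (List Nat)) : Prop where
  kM : ∀ A, X.M A ≠ 0 → X.kM A (X.M A) = true
  kB : ∀ p, X.B p ≠ 0 → X.kB p (X.B p) = true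
  kC : ∀ p, X.C p ≠ 0 → X.kC p (X.C p) = true
  kV : ∀ a, X.V a ≠ 0 → X.kV a (X.V a) = true
  kA : ∀ a, X.ka a ≠ 0 → X.kA a (X.ka a) = true
  so : X.W.P.Q.SG.allB (X.soc WL) = true
  kW : WL.allB X.kW = true

end

end Pool.FCS
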