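import Pool.Agent.FCS.Xb
import Pool.Agent.FCS.Wi
import Pool.Agent.FCS.Tx

/-!
# Star check with flows on triangles: the tables
-/

namespace Pool.FCS

open Finset

noncomputable section

variable {X : Px} {WL WM : BT (List Nat)}

theorem pr2_mod {A B : Nat} (hA : A < 1073741824) : Nat.mod (pr2 A B) 1073741824 = A := by
  show (A + 1073741824 * B) % 1073741824 = A
  omega

theorem pr2_div {A B : Nat} (hA : A < 1073741824) : Nat.div (pr2 A B) 1073741824 = B := by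
  show (A + 1073741824 * B) / 1073741824 = B
  omega

/-- the class of a row -/
theorem kb_of (hB : ∀ p, X.B p ≠ 0 → X.kB p (X.B p) = true) {A B : Nat} (hA : A < 1073741824)
    (hb : X.B (pr2 A B) ≠ 0) :
    X.B (pr2 A B) ≤ mnB (X.M A) ∧ mcB (X.M A) (X.B (pr2 A B)) = B := by
  have h1 := hB _ hb
  unfold Px.kB at h1
  rw [frc_eq, pr2_mod hA, pr2_div hA, brec_and] at h1
  exact ⟨Nat.le_of_ble_eq_true h1.1, Nat.eq_of_beq_eq_true h1.2⟩

/-- the class of a column -/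
theorem kc_of (hC : ∀ p, X.C p ≠ 0 → X.kC p (X.C p) = true) {A B : Nat} (hA : A < 1073741824)
    (hb : X.C (pr2 A B) ≠ 0) :
    X.C (pr2 A B) ≤ mnC (X.M A) ∧ mcC (X.M A) (X.C (pr2 A B)) = B := by
  have h1 := hC _ hb
  unfold Px.kC at h1
  rw [frc_eq, pr2_mod hA, pr2_div hA, brec_and] at h1
  exact ⟨Nat.le_of_ble_eq_true h1.1, Nat.eq_of_beq_eq_true h1.2⟩

theorem Kt.b0 (h : Kt X WL) {A B : Nat} (hA : A < 1073741824) (h0 : X.M A = 0) :
    X.B (pr2 A B) = 0 := by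
  by_contra hb
  have h1 := (kb_of h.kB hA hb).1
  rw [h0] at h1
  have h2 : mnB 0 = 0 := rfl
  omega

theorem Kt.c0 (h : Kt X WL) {A B : Nat} (hA : A < 1073741824) (h0 : X.M A = 0) :
    X.C (pr2 A B) = 0 := by
  by_contra hb
  have h1 := (kc_of h.kC hA hb).1
  rw [h0] at h1
  have h2 : mnC 0 = 0 := rfl
  omega

theorem Kt.x0 (h : Kt X WL) {A B C : Nat} (hA : A < 1073741824) (h0 : X.M A = 0) :
    X.x A B C = 65536 := by
  have e : X.x A B C = xbc (X.M A) (X.B (pr2 A B)) (X.C (pr2 A C)) := rfl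
  rw [e, h.b0 hA h0]
  rfl

theorem beq_false_of {m n : Nat} (h : m ≠ n) : Nat.beq m n = false := by
  rw [← Bool.not_eq_true]
  intro h1
  exact h (Nat.eq_of_beq_eq_true h1)

/-- a field of a matrix -/
theorem Kt.km (h : Kt X WL) {A B C : Nat} (hA : A < 1073741824) (hb : X.B (pr2 A B) ≠ 0)
    (hc : X.C (pr2 A C) ≠ 0) : tb X.W.P.Q.sm (Nat.mod A 32) = true ∧
      X.x A B C ≤ 65536 + maR (X.M A) (X.B (pr2 A B)) ∧
      X.x A B C ≤ 65536 + maL (X.M A) (X.C (pr2 A C)) ∧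
      (X.x A B C = 65536 ∨ X.x A B C + (X.x B C A + X.x C A B) = 196608) := by
  have hM : X.M A ≠ 0 := by
    intro h0
    exact hb (h.b0 hA h0)
  obtain ⟨b1, b2⟩ := kb_of h.kB hA hb
  obtain ⟨c1, c2⟩ := kc_of h.kC hA hc
  have h1 := h.kM A hM
  unfold Px.kM at h1
  rw [brec_and] at h1
  obtain ⟨h1, h2⟩ := h1
  refine ⟨h1, ?_⟩
  obtain ⟨j, hj⟩ : ∃ j, X.B (pr2 A B) = j + 1 := ⟨X.B (pr2 A B) - 1, by omega⟩
  obtain ⟨k, hk⟩ : ∃ k, X.C (pr2 A C) = k + 1 := ⟨X.C (pr2 A C) - 1, by omega⟩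
  have h3 := alln_iff.1 h2 j (by omega)
  rw [frc_eq, frc_eq, frc_eq, frc_eq] at h3
  have h4 := alln_iff.1 h3 k (by omega)
  rw [frc_eq, frc_eq] at h4
  have e1 : Nat.succ j = X.B (pr2 A B) := hj.symm
  have e2 : Nat.succ k = X.C (pr2 A C) := hk.symm
  rw [e1, e2] at h4
  have ex : rfd (mrw (X.M A) (X.B (pr2 A B))) (X.C (pr2 A C)) = X.x A B C := by
    have e : X.x A B C = xbc (X.M A) (X.B (pr2 A B)) (X.C (pr2 A C)) := rfl
    rw [e]
    unfold xbc
    rw [beq_false_of hb, beq_false_of hc]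
    rfl
  rw [ex, b2] at h4
  rw [brec_and, brec_and] at h4
  obtain ⟨h5, h6, h7⟩ := h4
  refine ⟨Nat.le_of_ble_eq_true h5, Nat.le_of_ble_eq_true h6, ?_⟩
  by_cases h8 : X.x A B C = 65536
  · exact Or.inl h8
  · right
    rw [beq_false_of h8] at h7
    dsimp only at h7
    rw [frc_eq, c2] at h7
    exact Nat.eq_of_beq_eq_true h7

theorem x_b0 {A B C : Nat} (hb : X.B (pr2 A B) = 0) : X.x A B C = 65536 := by
  have e : X.x A B C = xbc (X.M A) (X.B (pr2 A B)) (X.C (pr2 A C)) := rfl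
  rw [e, hb]
  rfl

theorem x_c0 {A B C : Nat} (hc : X.C (pr2 A C) = 0) : X.x A B C = 65536 := by
  have e : X.x A B C = xbc (X.M A) (X.B (pr2 A B)) (X.C (pr2 A C)) := rfl
  rw [e, hc]
  unfold xbc
  cases Nat.beq (X.B (pr2 A B)) 0 <;> rfl

theorem ar_eq {A B : Nat} : X.ar A B = if X.B (pr2 A B) = 0 then 0 else
    maR (X.M A) (X.B (pr2 A B)) := by
  unfold Px.ar
  rw [frc_eq]
  by_cases h : X.B (pr2 A B) = 0
  · rw [if_pos h, h]
    rfl
  · rw [if_neg h, beq_false_of h]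

theorem al_eq {A C : Nat} : X.al A C = if X.C (pr2 A C) = 0 then 0 else
    maL (X.M A) (X.C (pr2 A C)) := by
  unfold Px.al
  rw [frc_eq]
  by_cases h : X.C (pr2 A C) = 0
  · rw [if_pos h, h]
    rfl
  · rw [if_neg h, beq_false_of h]

theorem Kt.xar (h : Kt X WL) {A B C : Nat} (hA : A < 1073741824) :
    X.x A B C ≤ 65536 + X.ar A B := by
  rw [ar_eq]
  by_cases hb : X.B (pr2 A B) = 0
  · rw [x_b0 hb]
    omega
  · by_cases hc : X.C (pr2 A C) = 0
    · rw [x_c0 hc]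
      omega
    · rw [if_neg hb]
      exact (h.km hA hb hc).2.1

theorem Kt.xal (h : Kt X WL) {A B C : Nat} (hA : A < 1073741824) :
    X.x A B C ≤ 65536 + X.al A C := by
  rw [al_eq]
  by_cases hb : X.B (pr2 A B) = 0
  · rw [x_b0 hb]
    omega
  · by_cases hc : X.C (pr2 A C) = 0
    · rw [x_c0 hc]
      omega
    · rw [if_neg hc]
      exact (h.km hA hb hc).2.2.1

theorem Kt.xsm (h : Kt X WL) {A B C : Nat} (hA : A < 1073741824) (hx : X.x A B C ≠ 65536) :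
    tb X.W.P.Q.sm (Nat.mod A 32) = true := by
  by_cases hb : X.B (pr2 A B) = 0
  · exact absurd (x_b0 hb) hx
  · by_cases hc : X.C (pr2 A C) = 0
    · exact absurd (x_c0 hc) hx
    · exact (h.km hA hb hc).1

theorem Kt.cy1 (h : Kt X WL) {A B C : Nat} (hA : A < 1073741824) (hx : X.x A B C ≠ 65536) :
    X.x A B C + (X.x B C A + X.x C A B) = 196608 := by
  by_cases hb : X.B (pr2 A B) = 0
  · exact absurd (x_b0 hb) hx
  · by_cases hc : X.C (pr2 A C) = 0
    · exact absurd (x_c0 hc) hx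
    · exact (h.km hA hb hc).2.2.2.resolve_left hx

/-- the sum of the gains of the three corners is zero -/
theorem Kt.cyc (h : Kt X WL) {A B C : Nat} (hA : A < 1073741824) (hB : B < 1073741824)
    (hC : C < 1073741824) : X.x A B C + X.x B C A + X.x C A B = 196608 := by
  by_cases h1 : X.x A B C = 65536
  · by_cases h2 : X.x B C A = 65536
    · by_cases h3 : X.x C A B = 65536
      · omega
      · have := h.cy1 hC h3
        omega
    · have := h.cy1 hB h2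
      omega
  · have := h.cy1 hA h1
    omega

theorem Kt.hz (h : Kt X WL) (a b c : List Nat) : X.xw a b c + X.xw b c a + X.xw c a b = 0 := by
  unfold Px.xw
  dsimp only
  generalize blc X.W.P.Q.bm (enc a) = A
  generalize blc X.W.P.Q.bm (enc b) = B
  generalize blc X.W.P.Q.bm (enc c) = C
  by_cases hh : A < 1073741824 ∧ B < 1073741824 ∧ C < 1073741824
  · obtain ⟨hA, hB, hC⟩ := hh
    rw [if_pos ⟨hA, hB, hC⟩, if_pos ⟨hB, hC, hA⟩, if_pos ⟨hC, hA, hB⟩]
    have := h.cyc hA hB hC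
    omega
  · rw [if_neg hh, if_neg fun h => hh ⟨h.2.2, h.1, h.2.1⟩, if_neg fun h => hh ⟨h.2.1, h.2.2, h.1⟩]
    rfl

theorem mz_iff {n : Nat} {f : Nat → Nat} (h : mz n f = true) {b : Nat} (hb : b ≠ 0)
    (hn : b ≤ n) : f b = 0 := by
  obtain ⟨j, rfl⟩ : ∃ j, b = j + 1 := ⟨b - 1, by omega⟩
  exact Nat.eq_of_beq_eq_true (alln_iff.1 h j (by omega))

theorem nilb_iff {α : Type} {l : List α} : nilb l = true ↔ l = [] := by
  cases l with
  | nil => exact ⟨fun _ => rfl, fun _ => rfl⟩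
  | cons a l =>
    constructor
    · intro h; exact Bool.noConfusion (show false = true from h)
    · intro h; exact absurd h (by simp)

/-- the properties of the keys -/
theorem Kt.kw (h : Kt X WL) {k a : Nat} (ha : a ∈ WL.get k) :
    rlc (rrc (lo a)) = lo a ∧ X.k0 a = true := by
  have h0 : WL.get k ≠ [] := by
    intro h1; rw [h1] at ha; simp at ha
  have h1 := allb_sound (show allb _ _ = true from BT.allB_sound h.kW _ (BT.get_mem h0)) a ha
  rw [cond_true_iff] at h1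
  exact ⟨Nat.eq_of_beq_eq_true h1.1, h1.2⟩

theorem Kt.ae0 (h : Kt X WL) {k a u : Nat} (ha : a ∈ WL.get k) (hr : rrc (lo a) < 1073741824)
    (h0 : X.W.P.Q.SG.get a = []) : X.ae a u = 0 := by
  have h1 := (h.kw ha).2
  unfold Px.k0 at h1
  rw [nilb_iff.2 h0] at h1
  dsimp only [cond_true] at h1
  rw [frc_eq, frc_eq, cond_true_iff] at h1
  obtain ⟨h2, h3⟩ := h1
  unfold Px.ae
  cases Nat.ble u 1 with
  | true => rfl
  | false =>
    show X.ar (lo a) (rrc (lo u)) + X.al (rrc (lo a)) (lo u) = 0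
    have l1 : lo a < 1073741824 := Nat.mod_lt _ (by norm_num)
    have e1 : X.ar (lo a) (rrc (lo u)) = 0 := by
      rw [ar_eq]
      by_cases hb : X.B (pr2 (lo a) (rrc (lo u))) = 0
      · rw [if_pos hb]
      · rw [if_neg hb]
        exact mz_iff h2 hb (kb_of h.kB l1 hb).1
    have e2 : X.al (rrc (lo a)) (lo u) = 0 := by
      rw [al_eq]
      by_cases hb : X.C (pr2 (rrc (lo a)) (lo u)) = 0
      · rw [if_pos hb]
      · rw [if_neg hb]
        exact mz_iff h3 hb (kc_of h.kC hr hb).1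
    omega

/-- the gain of a corner of a triangle -/
theorem Kt.tgx {D : Type*} {cmp cmp' : Nat → Nat → Bool} {sol sol' : Nat → Bool} {Y : Sys D}
    {f : Nat → Nat} (hx : Kt X WL) (hY : Y.Ok cmp sol) (hb : Bmp X.W.P.Q.bm f Y)
    (hY' : (Y.mp f).Ok cmp' sol') (hsm : ∀ e, ∀ x ∈ Y.W e, tb X.W.P.Q.sm (f x + 1) = sol x)
    {e : D} (he : Y.W e ≠ []) (h1 : Y.W (Y.al e) ≠ []) (h2 : Y.W (Y.al (Y.nx e)) ≠ []) :
    tgx sol X.xw Y e = (X.x (blc X.W.P.Q.bm (Y.c e)) (rrc (blc X.W.P.Q.bm (Y.c (Y.al e))))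
      (blc X.W.P.Q.bm (Y.c (Y.al (Y.nx e)))) : ℤ) - 65536 := by
  have h4 := (hY.len e he).1
  have hm : (Y.W e).getD 0 0 ∈ Y.W e := by
    rw [List.getD_eq_getElem _ _ (by omega)]; exact List.getElem_mem _
  by_cases hs : sol ((Y.W e).getD 0 0) = true
  · have h3 : Y.W (Y.rh (Y.rh e)) ≠ [] := (hY.rh_ne he hs).2 h1
    unfold Pool.FCS.tgx
    rw [if_pos ⟨hs, h2, h3⟩]
    have e1 : blc X.W.P.Q.bm (Y.c (Y.rh (Y.rh e))) = rrc (blc X.W.P.Q.bm (Y.c (Y.al e))) := by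
      rw [← (hY.rh3 he hs).1, hb.bl hY, hb.bl hY]
      exact (hY'.c_pr (mp_ne.2 h3)).symm
    rw [← e1]
    show (if blc X.W.P.Q.bm (Y.c e) < 1073741824 ∧
        blc X.W.P.Q.bm (Y.c (Y.rh (Y.rh e))) < 1073741824 ∧
        blc X.W.P.Q.bm (Y.c (Y.rh e)) < 1073741824 then
      (X.x (blc X.W.P.Q.bm (Y.c e)) (blc X.W.P.Q.bm (Y.c (Y.rh (Y.rh e))))
        (blc X.W.P.Q.bm (Y.c (Y.rh e))) : ℤ) - 65536 else 0) = _
    rw [if_pos ⟨hb.lt hY _, hb.lt hY _, hb.lt hY _⟩]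
    rfl
  · have e1 : Pool.FCS.tgx sol X.xw Y e = 0 := by
      unfold Pool.FCS.tgx
      rw [if_neg fun h => hs h.1]
    rw [e1]
    by_contra hx0
    have h5 : X.x (blc X.W.P.Q.bm (Y.c e)) (rrc (blc X.W.P.Q.bm (Y.c (Y.al e))))
        (blc X.W.P.Q.bm (Y.c (Y.al (Y.nx e)))) ≠ 65536 := by
      intro h6
      apply hx0
      rw [h6]
      rfl
    have h6 := hx.xsm (hb.lt hY _) h5
    have h7 : Nat.mod (blc X.W.P.Q.bm (Y.c e)) 32 = f ((Y.W e).getD 0 0) + 1 := by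
      rw [hb.bl hY, hY'.dg0 (mp_ne.2 he)]
      show ((Y.W e).map f).getD 0 0 + 1 = _
      rw [getD_map0 (by omega)]
    rw [h7, hsm e _ hm] at h6
    exact hs h6

end

end Pool.FCS
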