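import Pool.Agent.FCS.Xc

/-!
# Star check with flows on triangles: the lists of the candidates, fast check
-/

namespace Pool.FCS

noncomputable section

variable {X : Px} {WL WM : BT (List Nat)}

theorem Px.oks_mem {a la fa df : Nat} {cl : List (Nat × Nat)} {bs : List Nat}
    (h : X.oks a la fa df cl bs = true) {b : Nat} (hb : b ∈ bs)
    (h1 : X.W.P.Q.cme (Nat.mod (hi b) 32) la = true)
    (h2 : X.W.P.Q.cme fa (Nat.div (hi b) 32) = true) : X.okx a df cl b = true := by
  have h3 := allb_sound h b hb
  rw [h1, h2] at h3
  exact h3

theorem Px.ok8_mem {a la fa df C : Nat} {cl : List (Nat × Nat)}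
    (h : X.ok8 WM a la fa df cl C = true) {b : Nat} (hb : b ∈ WM.get (mi b)) (hC : lo b = C)
    (h1 : X.W.P.Q.cme (Nat.mod (hi b) 32) la = true)
    (h2 : X.W.P.Q.cme fa (Nat.div (hi b) 32) = true) : X.okx a df cl b = true := by
  have h3 : mi b < 8589934592 := Nat.mod_lt _ (by norm_num)
  have h4 := alln_iff.1 h (mi b / 1073741824) (by omega)
  refine Px.oks_mem h4 ?_ h1 h2
  have e : Nat.add C (Nat.mul 1073741824 (mi b / 1073741824)) = mi b := by
    rw [← hC]
    show b % 1073741824 + 1073741824 * (b % 8589934592 / 1073741824) = b % 8589934592
    omega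
  rw [e]
  exact hb

/-- the fast check is correct -/
theorem so3_soc {a : Nat} {L : List (Nat × Nat)}
    (hB : ∀ p, X.B p ≠ 0 → X.kB p (X.B p) = true) (hC : ∀ p, X.C p ≠ 0 → X.kC p (X.C p) = true)
    (hW : ∀ k, ∀ b ∈ WL.get k, hi b = k ∧ b ∈ WM.get (mi b))
    (hR : ∀ k, ∀ b ∈ WL.get k, rlc (rrc (lo b)) = lo b)
    (h : X.so3 WL WM a L = true) : X.soc WL a L = true := by
  cases L with
  | nil => rfl
  | cons q cl =>
    have e : X.so3 WL WM a (q :: cl) =
      (bif (bif Nat.ble X.W.P.Q.sh q.1 then Nat.ble (rrc (lo a)) 1073741823 else false) then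
        (fun la fa : Nat => frc (lo a) fun A => frc (rrc A) fun A' =>
          bif ala (fun p => bif Nat.ble (Nat.add p.1 (X.ae a p.2)) q.1 then true else
              X.oks a la fa q.1 cl (WM.get p.2)) (X.W.P.Q.T.get a) then
            bif frc (X.M A) (fun m => alln (mnB m) fun j => frc (Nat.succ j) fun b =>
              frc (rlc (mcB m b)) fun C =>
                bif Nat.ble (Nat.add X.W.P.Q.sh (Nat.add (maR m b) (X.al A' C))) q.1 then true
                else X.ok8 WM a la fa q.1 cl C) then
              frc (X.M A') (fun m => alln (mnC m) fun j => frc (Nat.succ j) fun c =>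
                frc (mcC m c) fun C =>
                  bif Nat.ble (Nat.add X.W.P.Q.sh (Nat.add (X.ar A (rrc C)) (maL m c))) q.1 then
                    true else X.ok8 WM a la fa q.1 cl C)
            else false
          else false) (Nat.div (hi a) 32) (Nat.mod (hi a) 32)
      else X.soc WL a (q :: cl)) := rfl
    rw [e] at h
    cases hsh : (bif Nat.ble X.W.P.Q.sh q.1 then Nat.ble (rrc (lo a)) 1073741823 else false) with
    | false => rw [hsh] at h; exact h
    | true =>
      rw [hsh] at h
      dsimp only [cond_true] at h
      rw [frc_eq, frc_eq, frc_eq, frc_eq, cond_true_iff, cond_true_iff] at h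
      obtain ⟨t1, t2, t3⟩ := h
      rw [cond_true_iff] at hsh
      have hsh' : X.W.P.Q.sh ≤ q.1 := Nat.le_of_ble_eq_true hsh.1
      have hA' : rrc (lo a) < 1073741824 := by
        have := Nat.le_of_ble_eq_true hsh.2
        omega
      have hA : lo a < 1073741824 := Nat.mod_lt _ (by norm_num)
      have e2 : X.soc WL a (q :: cl) =
        (bif (bif Nat.ble (Nat.sub X.W.P.Q.sh (X.W.P.nk a)) q.1 then true else
          lst (Nat.sub X.W.P.Q.sh (X.W.P.nk a)) 1 cl) then
          (alln 32 fun f => bif X.W.P.Q.cme f (Nat.div (hi a) 32) then
              alln 32 fun l => bif X.W.P.Q.cme (Nat.mod (hi a) 32) l then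
                allb (X.okx a q.1 cl) (WL.get (Nat.add f (Nat.mul 32 l))) else true
            else true)
        else false) := rfl
      have e3 : Nat.ble (Nat.sub X.W.P.Q.sh (X.W.P.nk a)) q.1 = true :=
        Nat.ble_eq_true_of_le (le_trans (Nat.sub_le _ _) hsh')
      rw [e2, e3]
      dsimp only [cond_true]
      rw [alln_iff]
      intro f hf
      cases c1 : X.W.P.Q.cme f (Nat.div (hi a) 32) with
      | false => rfl
      | true =>
        dsimp only [cond_true]
        rw [alln_iff]
        intro l hl
        cases c2 : X.W.P.Q.cme (Nat.mod (hi a) 32) l with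
        | false => rfl
        | true =>
          dsimp only [cond_true]
          apply allb_of
          intro b hb
          obtain ⟨w1, w2⟩ := hW _ b hb
          have w0 := hR _ b hb
          have w1' : hi b = f + 32 * l := w1
          have w3 : Nat.mod (hi b) 32 = f := by
            show hi b % 32 = f
            omega
          have w4 : Nat.div (hi b) 32 = l := by
            show hi b / 32 = l
            omega
          have c1' : X.W.P.Q.cme (Nat.mod (hi b) 32) (Nat.div (hi a) 32) = true := by
            rw [w3]; exact c1
          have c2' : X.W.P.Q.cme (Nat.mod (hi a) 32) (Nat.div (hi b) 32) = true := by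
            rw [w4]; exact c2
          have eg : X.W.P.Q.Gn a b =
            (2 * ((asc (X.W.P.Q.T.get a) (mi b) - X.W.P.Q.sh) / 2) + X.W.P.Q.sh) -
              2 * X.W.P.Q.fk a b := rfl
          have ek : X.gk a b = X.W.P.Q.Gn a b + X.ae a (mi b) := rfl
          have small : X.gk a b ≤ q.1 → X.okx a q.1 cl b = true := by
            intro hs
            have e4 : Nat.ble (X.gk a b) q.1 = true := Nat.ble_eq_true_of_le hs
            have e5 : X.okx a q.1 cl b = (bif X.W.P.pcs (slf a) (lo a) (slf b) (lo b) then true
              else bif Nat.ble (X.gk a b) q.1 then true else lst (X.gk a b) (mi b) cl) := rfl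
            rw [e5, e4]
            cases X.W.P.pcs (slf a) (lo a) (slf b) (lo b) <;> rfl
          by_cases hp : asc (X.W.P.Q.T.get a) (mi b) ≤ X.W.P.Q.sh
          · have hG : X.W.P.Q.Gn a b ≤ X.W.P.Q.sh := by rw [eg]; omega
            have elo : lo (mi b) = lo b := by
              show b % 8589934592 % 1073741824 = b % 1073741824
              omega
            by_cases hu : mi b ≤ 1
            · apply small
              have e6 : X.ae a (mi b) = 0 := by
                unfold Px.ae
                rw [Nat.ble_eq_true_of_le hu]
              omega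
            · have e6 : X.ae a (mi b) = X.ar (lo a) (rrc (lo b)) +
                  X.al (rrc (lo a)) (lo b) := by
                unfold Px.ae
                have h1 : Nat.ble (mi b) 1 = false := by
                  rw [← Bool.not_eq_true, Nat.ble_eq]; exact hu
                rw [h1, elo]
                rfl
              by_cases hb0 : X.B (pr2 (lo a) (rrc (lo b))) = 0
              · have e7 : X.ar (lo a) (rrc (lo b)) = 0 := by rw [ar_eq, if_pos hb0]
                by_cases hc0 : X.C (pr2 (rrc (lo a)) (lo b)) = 0
                · have e8 : X.al (rrc (lo a)) (lo b) = 0 := by rw [al_eq, if_pos hc0]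
                  apply small
                  omega
                · obtain ⟨d1, d2⟩ := kc_of hC hA' hc0
                  obtain ⟨j, hj⟩ : ∃ j, X.C (pr2 (rrc (lo a)) (lo b)) = j + 1 :=
                    ⟨X.C (pr2 (rrc (lo a)) (lo b)) - 1, by omega⟩
                  have h3 := alln_iff.1 t3 j (by omega)
                  rw [frc_eq, frc_eq] at h3
                  have e9 : Nat.succ j = X.C (pr2 (rrc (lo a)) (lo b)) := hj.symm
                  rw [e9, d2, e7] at h3
                  have e8 : X.al (rrc (lo a)) (lo b) =
                    maL (X.M (rrc (lo a))) (X.C (pr2 (rrc (lo a)) (lo b))) := by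
                    rw [al_eq, if_neg hc0]
                  rw [← e8] at h3
                  cases h4 : Nat.ble (Nat.add X.W.P.Q.sh (Nat.add 0
                    (X.al (rrc (lo a)) (lo b)))) q.1 with
                  | true =>
                    apply small
                    have h5 : X.W.P.Q.sh + (0 + X.al (rrc (lo a)) (lo b)) ≤ q.1 :=
                      Nat.le_of_ble_eq_true h4
                    omega
                  | false =>
                    rw [h4] at h3
                    exact Px.ok8_mem h3 w2 rfl c1' c2'
              · obtain ⟨d1, d2⟩ := kb_of hB hA hb0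
                obtain ⟨j, hj⟩ : ∃ j, X.B (pr2 (lo a) (rrc (lo b))) = j + 1 :=
                  ⟨X.B (pr2 (lo a) (rrc (lo b))) - 1, by omega⟩
                have h3 := alln_iff.1 t2 j (by omega)
                rw [frc_eq, frc_eq] at h3
                have e9 : Nat.succ j = X.B (pr2 (lo a) (rrc (lo b))) := hj.symm
                rw [e9, d2, w0] at h3
                have e8 : X.ar (lo a) (rrc (lo b)) =
                  maR (X.M (lo a)) (X.B (pr2 (lo a) (rrc (lo b)))) := by
                  rw [ar_eq, if_neg hb0]
                rw [← e8] at h3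
                cases h4 : Nat.ble (Nat.add X.W.P.Q.sh (Nat.add (X.ar (lo a) (rrc (lo b)))
                  (X.al (rrc (lo a)) (lo b)))) q.1 with
                | true =>
                  apply small
                  have h5 : X.W.P.Q.sh + (X.ar (lo a) (rrc (lo b)) +
                    X.al (rrc (lo a)) (lo b)) ≤ q.1 := Nat.le_of_ble_eq_true h4
                  omega
                | false =>
                  rw [h4] at h3
                  exact Px.ok8_mem h3 w2 rfl c1' c2'
          · have h0 : asc (X.W.P.Q.T.get a) (mi b) ≠ 0 := by omega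
            have h1 := ala_iff.1 t1 _ (asc_mem h0)
            cases h4 : Nat.ble (Nat.add (asc (X.W.P.Q.T.get a) (mi b)) (X.ae a (mi b))) q.1 with
            | true =>
              apply small
              have h5 : asc (X.W.P.Q.T.get a) (mi b) + X.ae a (mi b) ≤ q.1 :=
                Nat.le_of_ble_eq_true h4
              omega
            | false =>
              rw [h4] at h1
              exact Px.oks_mem h1 w2 c1' c2'

/-- the fast check of all lists -/
theorem so3_all {t : BT (List (Nat × Nat))}
    (hB : ∀ p, X.B p ≠ 0 → X.kB p (X.B p) = true) (hC : ∀ p, X.C p ≠ 0 → X.kC p (X.C p) = true)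
    (hW : WL.allB (wlm WM) = true) (hk : WL.allB X.kW = true)
    (h : t.allB (X.so3 WL WM) = true) : t.allB (X.soc WL) = true :=
  BT.allB_mono (fun _ _ h1 => so3_soc hB hC (wlm_sound hW) (fun k b hb => by
    have h0 : WL.get k ≠ [] := by
      intro h1; rw [h1] at hb; simp at hb
    have h2 := allb_sound (show allb _ _ = true from BT.allB_sound hk _ (BT.get_mem h0)) b hb
    rw [cond_true_iff] at h2
    exact Nat.eq_of_beq_eq_true h2.1) h1) h

end

end Pool.FCS
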