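import Pool.Agent.FCS.Xk

/-!
# Star check: leaves with null cases in parts
-/

namespace Pool.FCS

noncomputable section

theorem bif_of {b x : Bool} (h : x = true) : (bif b then x else true) = true := by
  cases b
  · rfl
  · exact h

/-- two null neighbours at the sector `i` -/
def Px.l2 (X : Px) (c d : Nat) (ns : List Nat) (ps : List PX) (m i : Nat) : Bool :=
  bif (bif tb X.W.P.Q.sm (dg (Nat.pow 32 i) c) then
      (bif mem i ns then true else mem (nxt d i) ns) else false) then
    gon3 (X.W.P.Q.thr c) ps (rmv m (Nat.lor (X.W.P.nlo c i) (sl6 (X.W.P.nlo c) (nxt d i)))) 0 0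
  else true

theorem Px.l2_of {X : Px} {c d : Nat} {ns : List Nat} {ps : List PX} {m i : Nat}
    (h : gon3 (X.W.P.Q.thr c) ps
      (rmv m (Nat.lor (X.W.P.nlo c i) (sl6 (X.W.P.nlo c) (nxt d i)))) 0 0 = true) :
    X.l2 c d ns ps m i = true := bif_of h

theorem Px.ln2_of {X : Px} {c d : Nat} {ns : List Nat} {ps : List PX} {m n : Nat}
    (h : ∀ i < n, X.l2 c d ns ps m i = true) : X.ln2 c d ns ps m n = true :=
  alln_iff.2 h

theorem Px.ln1_eq {X : Px} {c d : Nat} {ps : List PX} {m : Nat} {L L' : List Nat} (e : L = L')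
    (h : X.ln1 c d ps m L' = true) : X.ln1 c d ps m L = true := by
  rw [e]
  exact h

/-- two null neighbours at the sector `i` -/
def Pw.l2 (W : Pw) (c d : Nat) (ns : List Nat) (ps : List PQ) (m i : Nat) : Bool :=
  bif (bif tb W.P.Q.sm (dg (Nat.pow 32 i) c) then
      (bif mem i ns then true else mem (nxt d i) ns) else false) then
    gon (W.P.Q.thr c) ps (rmv m (Nat.lor (W.P.nlo c i) (sl6 (W.P.nlo c) (nxt d i)))) 0 0
  else true

theorem Pw.l2_of {W : Pw} {c d : Nat} {ns : List Nat} {ps : List PQ} {m i : Nat}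
    (h : gon (W.P.Q.thr c) ps
      (rmv m (Nat.lor (W.P.nlo c i) (sl6 (W.P.nlo c) (nxt d i)))) 0 0 = true) :
    W.l2 c d ns ps m i = true := bif_of h

theorem Pw.ln2_of {W : Pw} {c d : Nat} {ns : List Nat} {ps : List PQ} {m n : Nat}
    (h : ∀ i < n, W.l2 c d ns ps m i = true) : W.ln2 c d ns ps m n = true :=
  alln_iff.2 h

theorem Pw.ln1_eq {W : Pw} {c d : Nat} {ps : List PQ} {m : Nat} {L L' : List Nat} (e : L = L')
    (h : W.ln1 c d ps m L' = true) : W.ln1 c d ps m L = true := by
  rw [e]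
  exact h

end

end Pool.FCS
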