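import Pool.Agent.FCS.Xb

/-!
# Star check with flows on kites: definitions

The gain of the centre with the key `a` at the edge to the neighbour `b` is a function of the edge
key of `a` (its flagged blind code and the classes of the two letters at the edge), of the flagged
blind code of `b` and of the blind codes `c1`, `c2` of the common neighbours before and behind the
edge, each read from the letter of its triangle (`0` if the sector is not solid or if the common
neighbour is a null neighbour). The offset of the values is `65536`.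
-/

namespace Pool.FCS

noncomputable section

/-- the class of a letter (2 bits) -/
def qcl (qt x : Nat) : Nat :=
  Nat.mod (Nat.shiftRight qt (Nat.mul (nat_lit 2) x)) (nat_lit 4)

/-- the edge key of the key `a` -/
def aqk (qt a : Nat) : Nat :=
  frc (hi a) fun h => Nat.add (mi a) (Nat.mul (nat_lit 8589934592)
    (Nat.add (qcl qt (Nat.mod h (nat_lit 32))) (Nat.mul (nat_lit 4)
      (qcl qt (Nat.div h (nat_lit 32))))))

/-- the edge key of the neighbour `u` of the edge key `p` -/
def swk (p u : Nat) : Nat :=
  frc (Nat.div p (nat_lit 8589934592)) fun q => Nat.add u (Nat.mul (nat_lit 8589934592)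
    (Nat.add (Nat.div q (nat_lit 4)) (Nat.mul (nat_lit 4) (Nat.mod q (nat_lit 4)))))

/-- an edge key and a neighbour in one number -/
def pr3 (p u : Nat) : Nat := Nat.add p (Nat.mul (nat_lit 137438953472) u)

/-- The tables: `X` the check with triangles, `qt` the classes of the letters, `N` the lists of the
codes of the common neighbours, `B`, `C` the classes of these codes, `E` the numbers of the records,
`Y` the records, `U` the records and classes of the candidates, `kb` the packed gains. -/
structure Kx where
  X : Px
  qt : Nat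
  N : Nat → Nat
  B : Nat → Nat
  C : Nat → Nat
  E : Nat → Nat
  Y : Nat → Nat
  U : Nat → Nat
  kb : Nat → Nat

/-- number of the codes before the edge -/
def kn1 (N : Nat) : Nat := Nat.land N (nat_lit 1023)

/-- number of the codes behind the edge -/
def kn2 (N : Nat) : Nat := Nat.land (Nat.shiftRight N (nat_lit 10)) (nat_lit 1023)

/-- the code of the class `b` before the edge -/
def kc1 (N b : Nat) : Nat :=
  Nat.land (Nat.shiftRight N (Nat.add (nat_lit 20) (Nat.mul (nat_lit 30) (Nat.sub b (nat_lit 1)))))
    (nat_lit 1073741823)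

/-- the code of the class `c` behind the edge -/
def kc2 (N c : Nat) : Nat :=
  Nat.land (Nat.shiftRight N (Nat.add (nat_lit 20) (Nat.mul (nat_lit 30)
    (Nat.add (kn1 N) (Nat.sub c (nat_lit 1)))))) (nat_lit 1073741823)

/-! ### A record: 20 bits place of the rows (`0`: no rows), 20 bits place of the columns, 16 bits
length of a row of the matrix, the matrix (17 bits, row and column `0`: unknown), the rows of the
classes before the edge (8 bits), the columns of the classes behind the edge (8 bits) -/

/-- place of the rows -/
def rkR (R : Nat) : Nat := Nat.land R (nat_lit 1048575)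

/-- place of the columns -/
def rkC (R : Nat) : Nat := Nat.land (Nat.shiftRight R (nat_lit 20)) (nat_lit 1048575)

/-- a field of the matrix -/
def rkF (R ρ γ : Nat) : Nat :=
  Nat.land (Nat.shiftRight R (Nat.add (Nat.add (nat_lit 56)
    (Nat.mul ρ (Nat.land (Nat.shiftRight R (nat_lit 40)) (nat_lit 65535))))
    (Nat.mul (nat_lit 17) γ))) (nat_lit 131071)

/-- the row of the class `g` -/
def rwk (R g : Nat) : Nat :=
  frc (rkR R) fun o => Bool.rec (motive := fun _ => Nat)
    (Bool.rec (motive := fun _ => Nat)
      (Nat.land (Nat.shiftRight R (Nat.add o (Nat.mul (nat_lit 8) g))) (nat_lit 255))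
      (nat_lit 255) (Nat.beq g (nat_lit 0)))
    (nat_lit 0) (Nat.beq o (nat_lit 0))

/-- the column of the class `g` -/
def clk (R g : Nat) : Nat :=
  frc (rkC R) fun o => Bool.rec (motive := fun _ => Nat)
    (Bool.rec (motive := fun _ => Nat)
      (Nat.land (Nat.shiftRight R (Nat.add o (Nat.mul (nat_lit 8) g))) (nat_lit 255))
      (nat_lit 255) (Nat.beq g (nat_lit 0)))
    (nat_lit 0) (Nat.beq o (nat_lit 0))

/-- the value for the row `ρ` and the column `γ` (`0` unknown, `255` not in the record) -/
def yF (R ρ γ : Nat) : Nat :=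
  Bool.rec (motive := fun _ => Nat)
    (Bool.rec (motive := fun _ => Nat) (rkF R ρ γ) (nat_lit 65536) (Nat.beq γ (nat_lit 255)))
    (nat_lit 65536) (Nat.beq ρ (nat_lit 255))

/-! ### The records of an edge key: 16 bits number, for every record 33 bits neighbour, 24 bits
place, 20 bits length -/

/-- number of the records -/
def nY (m : Nat) : Nat := Nat.land m (nat_lit 65535)

/-- the neighbour of the record `j` -/
def uY (m j : Nat) : Nat :=
  Nat.land (Nat.shiftRight m (Nat.add (nat_lit 16) (Nat.mul (nat_lit 77) (Nat.sub j (nat_lit 1)))))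
    (nat_lit 8589934591)

/-- place and length of the record `j` -/
def lY (m j : Nat) : Nat :=
  Nat.land (Nat.shiftRight m (Nat.add (nat_lit 49) (Nat.mul (nat_lit 77) (Nat.sub j (nat_lit 1)))))
    (nat_lit 17592186044415)

/-- the record with the place and length `l` -/
def rcd (m l : Nat) : Nat :=
  Nat.land (Nat.shiftRight m (Nat.land l (nat_lit 16777215)))
    (Nat.sub (Nat.shiftLeft (nat_lit 1) (Nat.shiftRight l (nat_lit 24))) (nat_lit 1))

/-- place and length of the record of the edge key `p` and the neighbour `u` -/
def Kx.loc (K : Kx) (p u : Nat) : Nat :=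
  frc (K.Y p) fun m => Bool.rec (motive := fun _ => Nat)
    (frc (K.E (pr3 p u)) fun j => Bool.rec (motive := fun _ => Nat) (lY m j) (nat_lit 0)
      (Nat.beq j (nat_lit 0)))
    (nat_lit 0) (Nat.beq m (nat_lit 0))

/-- the record of the edge key `p` and the neighbour `u` -/
def Kx.rc (K : Kx) (p u : Nat) : Nat :=
  frc (K.loc p u) fun l => Bool.rec (motive := fun _ => Nat) (rcd (K.Y p) l) (nat_lit 0)
    (Nat.beq l (nat_lit 0))

/-- the gain with offset -/
def Kx.y (K : Kx) (p u c1 c2 : Nat) : Nat :=
  frc (K.loc p u) fun l => Bool.rec (motive := fun _ => Nat)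
    (frc (rcd (K.Y p) l) fun R => frc (rwk R (K.B (pr2 (lo p) c1))) fun ρ =>
      frc (clk R (K.C (pr2 (lo p) c2))) fun γ => yF R ρ γ)
    (nat_lit 65536) (Nat.beq l (nat_lit 0))

/-- the edge key of a key -/
def Kx.aq (K : Kx) (a : Nat) : Nat := aqk K.qt a

/-- the gain (words): the edge keys of both ends fit together -/
def Kx.yw (K : Kx) (a b c d : List Nat) : Int :=
  (fun p q c1 c2 : Nat => if q = swk p (mi q) ∧ p = swk q (mi p) ∧ c1 < 1073741824 ∧
      c2 < 1073741824 then (K.y p (mi q) c1 c2 : Int) - 65536 else 0)
    (K.aq (K.X.W.P.Q.ky (enc a))) (K.aq (K.X.W.P.Q.ky (enc b)))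
    (blc K.X.W.P.Q.bm (enc c)) (blc K.X.W.P.Q.bm (enc d))

/-! ### The checks of the tables -/

/-- all rows of a record, with their codes -/
def rowsK (N R : Nat) (f : Nat → Nat → Bool) : Bool :=
  Bool.rec (motive := fun _ => Bool)
    (alln (kn1 N) fun i => frc (Nat.succ i) fun g => frc (rwk R g) fun ρ =>
      Bool.rec (motive := fun _ => Bool) (frc (kc1 N g) (f ρ)) true (Nat.beq ρ (nat_lit 255)))
    (f (nat_lit 0) (nat_lit 0)) (Nat.beq (rkR R) (nat_lit 0))

/-- all columns of a record, with their codes -/
def colsK (N R : Nat) (f : Nat → Nat → Bool) : Bool :=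
  Bool.rec (motive := fun _ => Bool)
    (alln (kn2 N) fun i => frc (Nat.succ i) fun g => frc (clk R g) fun γ =>
      Bool.rec (motive := fun _ => Bool) (frc (kc2 N g) (f γ)) true (Nat.beq γ (nat_lit 255)))
    (f (nat_lit 0) (nat_lit 0)) (Nat.beq (rkC R) (nat_lit 0))

/-- the check of the record `R` of the edge key `p` and the neighbour `u` -/
def Kx.kR (K : Kx) (p u R : Nat) : Bool :=
  frc (K.N (lo p)) fun N => frc (swk p u) fun q => frc (mi p) fun v =>
    frc (rkF R (nat_lit 0) (nat_lit 0)) fun z =>
      bif (bif tb K.X.W.P.Q.sm (Nat.mod (rrc (lo p)) (nat_lit 32)) then true else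
          Nat.beq (rkR R) (nat_lit 0)) then
        bif (bif tb K.X.W.P.Q.sm (Nat.mod (lo p) (nat_lit 32)) then true else
            Nat.beq (rkC R) (nat_lit 0)) then
          bif (bif Nat.beq (rkR R) (nat_lit 0) then Nat.beq (rkC (K.rc q v)) (nat_lit 0)
              else true) then
            bif (bif Nat.beq (rkC R) (nat_lit 0) then Nat.beq (rkR (K.rc q v)) (nat_lit 0)
                else true) then
              bif (bif Nat.beq (Nat.add (rkR R) (rkC R)) (nat_lit 0) then true else
                  Nat.ble (nat_lit 65536) z) then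
                bif rowsK N R (fun ρ _ => frc (rkF R ρ (nat_lit 0)) fun x =>
                    bif Nat.ble x z then bif Nat.beq (rkC R) (nat_lit 0) then true else
                      Nat.ble (nat_lit 65536) x else false) then
                  bif colsK N R (fun γ _ => frc (rkF R (nat_lit 0) γ) fun x =>
                      bif Nat.ble x z then bif Nat.beq (rkR R) (nat_lit 0) then true else
                        Nat.ble (nat_lit 65536) x else false) then
                    rowsK N R (fun ρ c1 => frc (rkF R ρ (nat_lit 0)) fun x1 =>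
                      colsK N R (fun γ c2 => frc (rkF R ρ γ) fun x =>
                        bif Nat.ble x x1 then
                          bif Nat.ble x (rkF R (nat_lit 0) γ) then
                            bif Nat.beq x (nat_lit 65536) then true else
                              Nat.beq (Nat.add x (K.y q v c2 c1)) (nat_lit 131072)
                          else false
                        else false))
                  else false
                else false
              else false
            else false
          else false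
        else false
      else false

/-- the check of the records of the edge key `p` -/
def Kx.kY (K : Kx) (p m : Nat) : Bool :=
  alln (nY m) fun j => frc (Nat.succ j) fun j => frc (uY m j) fun u =>
    frc (rcd m (lY m j)) fun R => K.kR p u R

/-- the check of the number of a record -/
def Kx.kE (K : Kx) (q j : Nat) : Bool :=
  frc (K.Y (Nat.mod q (nat_lit 137438953472))) fun m =>
    Bool.rec (motive := fun _ => Bool) false
      (Nat.beq (uY m j) (Nat.div q (nat_lit 137438953472))) (Nat.ble j (nY m))

/-- the check of the class `b` of a pair of codes, before the edge -/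
def Kx.kB (K : Kx) (p b : Nat) : Bool :=
  frc (K.N (Nat.mod p (nat_lit 1073741824))) fun N =>
    Bool.rec (motive := fun _ => Bool) false
      (Nat.beq (kc1 N b) (Nat.div p (nat_lit 1073741824))) (Nat.ble b (kn1 N))

/-- the check of the class `c` of a pair of codes, behind the edge -/
def Kx.kC (K : Kx) (p c : Nat) : Bool :=
  frc (K.N (Nat.mod p (nat_lit 1073741824))) fun N =>
    Bool.rec (motive := fun _ => Bool) false
      (Nat.beq (kc2 N c) (Nat.div p (nat_lit 1073741824))) (Nat.ble c (kn2 N))

/-! ### The candidates of a key: 76 bits, 44 bits place and length of the record, 16 bits class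
for the record of the next position, 16 bits class for the record of the previous position -/

/-- place and length of the record of the candidate `κ` -/
def uL (U κ : Nat) : Nat :=
  Nat.land (Nat.shiftRight U (Nat.mul (nat_lit 76) κ)) (nat_lit 17592186044415)

/-- the class of the candidate `κ` for the next position -/
def uB (U κ : Nat) : Nat :=
  Nat.land (Nat.shiftRight U (Nat.add (Nat.mul (nat_lit 76) κ) (nat_lit 44))) (nat_lit 65535)

/-- the class of the candidate `κ` for the previous position -/
def uC (U κ : Nat) : Nat :=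
  Nat.land (Nat.shiftRight U (Nat.add (Nat.mul (nat_lit 76) κ) (nat_lit 60))) (nat_lit 65535)

/-- the record of the neighbour `u` -/
def Kx.lc (K : Kx) (p u : Nat) : Nat :=
  Bool.rec (motive := fun _ => Nat) (K.loc p u) (nat_lit 0) (Nat.ble u (nat_lit 1))

/-- the code of the neighbour `u` for the sector behind it -/
def cB (u : Nat) : Nat :=
  Bool.rec (motive := fun _ => Nat) (rrc (lo u)) (nat_lit 0) (Nat.ble u (nat_lit 1))

/-- the code of the neighbour `u` for the sector before it -/
def cC (u : Nat) : Nat :=
  Bool.rec (motive := fun _ => Nat) (lo u) (nat_lit 0) (Nat.ble u (nat_lit 1))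

/-- the check of the candidates of the key `a` -/
def Kx.kU (K : Kx) (a v : Nat) : Bool :=
  frc (K.aq a) fun p => frc (rlc (lo a)) fun An => frc (rrc (lo a)) fun Ap =>
    alln (kn (K.X.W.kt a)) fun j => frc (Nat.succ j) fun κ => frc (K.X.W.P.cd a κ) fun u =>
      Bool.rec (motive := fun _ => Bool) false
        (Bool.rec (motive := fun _ => Bool) false
          (Nat.beq (uC v κ) (K.C (pr2 Ap (cC u))))
          (Nat.beq (uB v κ) (K.B (pr2 An (cB u)))))
        (Nat.beq (uL v κ) (K.lc p u))

/-- the allowance of the neighbour `u` -/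
def Kx.ay (K : Kx) (a u : Nat) : Nat :=
  frc (K.aq a) fun p => frc (K.lc p u) fun l => Bool.rec (motive := fun _ => Nat)
    (Nat.sub (rkF (rcd (K.Y p) l) (nat_lit 0) (nat_lit 0)) (nat_lit 65536)) (nat_lit 0)
    (Nat.beq l (nat_lit 0))

/-- both allowances -/
def Kx.az (K : Kx) (a u : Nat) : Nat := Nat.add (K.X.ae a u) (K.ay a u)

/-- the check of the packed gains `G` of the key `a` -/
def Kx.kkb (K : Kx) (a G : Nat) : Bool :=
  frc (K.X.W.kt a) fun M => alln (kn M) fun j => frc (Nat.succ j) fun κ =>
    frc (K.X.W.P.cd a κ) fun u =>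
      Nat.ble (gnl (kg M) κ) (Nat.add (gnl G κ) (K.az a u))

/-- the tables for the search: packed gains without allowances -/
def Kx.X' (K : Kx) : Px :=
  ⟨K.X.W, K.X.M, K.X.B, K.X.C, K.X.V, fun a => frc (K.kb a) fun G =>
    Bool.rec (motive := fun _ => Nat) G (K.X.ka a) (Nat.beq G (nat_lit 0))⟩

/-- a key without list of candidates has no records -/
def Kx.k0 (K : Kx) (a : Nat) : Bool :=
  bif nilb (K.X.W.P.Q.SG.get a) then
    bif K.X.k0 a then Nat.beq (K.Y (K.aq a)) (nat_lit 0) else false
  else true

/-- the blind code of a key can be rotated; the keys without list of candidates have no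
allowances -/
def Kx.kW (K : Kx) (_k : Nat) (l : List Nat) : Bool :=
  allb (fun a => bif Nat.beq (rlc (rrc (lo a))) (lo a) then K.k0 a else false) l

/-- the bound of the gain (keys) -/
def Kx.gk (K : Kx) (a b : Nat) : Nat := Nat.add (K.X.W.P.Q.Gn a b) (K.az a (mi b))

/-- the neighbour with the key `b` is covered -/
def Kx.okx (K : Kx) (a df : Nat) (cl : List (Nat × Nat)) (b : Nat) : Bool :=
  bif K.X.W.P.pcs (slf a) (lo a) (slf b) (lo b) then true else
    frc (K.gk a b) fun g => bif Nat.ble g df then true else lst g (mi b) cl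

/-- the list of the candidates of the key `a` is complete -/
def Kx.soc (K : Kx) (WL : BT (List Nat)) (a : Nat) (L : List (Nat × Nat)) : Bool :=
  List.rec (motive := fun _ => Bool) true
    (fun q cl _ =>
      bif (bif Nat.ble (Nat.sub K.X.W.P.Q.sh (K.X.W.P.nk a)) q.1 then true else
        lst (Nat.sub K.X.W.P.Q.sh (K.X.W.P.nk a)) 1 cl) then
        (fun la fa : Nat =>
          alln 32 fun f => bif K.X.W.P.Q.cme f la then
            alln 32 fun l => bif K.X.W.P.Q.cme fa l then
              allb (K.okx a q.1 cl) (WL.get (Nat.add f (Nat.mul 32 l))) else true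
          else true) (Nat.div (hi a) 32) (Nat.mod (hi a) 32)
      else false) L

/-- the keys `bs` are covered, as far as they are possible -/
def Kx.oks (K : Kx) (a la fa df : Nat) (cl : List (Nat × Nat)) (bs : List Nat) : Bool :=
  allb (fun b => bif (bif K.X.W.P.Q.cme (Nat.mod (hi b) 32) la then
    K.X.W.P.Q.cme fa (Nat.div (hi b) 32) else false) then K.okx a df cl b else true) bs

/-- the keys with the blind code `C` are covered -/
def Kx.ok8 (K : Kx) (WM : BT (List Nat)) (a la fa df : Nat) (cl : List (Nat × Nat)) (C : Nat) :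
    Bool :=
  alln 8 fun f => K.oks a la fa df cl (WM.get (Nat.add C (Nat.mul (nat_lit 1073741824) f)))

/-- The list of the candidates of the key `a` is complete, fast check: only the entries of the tables
with a larger gain than the default are considered; `WM` the keys of a flagged blind code. -/
def Kx.so3 (K : Kx) (WL WM : BT (List Nat)) (a : Nat) (L : List (Nat × Nat)) : Bool :=
  List.rec (motive := fun _ => Bool) true
    (fun q cl _ =>
      bif (bif Nat.ble K.X.W.P.Q.sh q.1 then Nat.ble (rrc (lo a)) 1073741823 else false) then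
        (fun la fa : Nat => frc (lo a) fun A => frc (rrc A) fun A' =>
          bif ala (fun p => bif Nat.ble (Nat.add p.1 (K.az a p.2)) q.1 then true else
              K.oks a la fa q.1 cl (WM.get p.2)) (K.X.W.P.Q.T.get a) then
            bif frc (K.X.M A) (fun m => alln (mnB m) fun j => frc (Nat.succ j) fun b =>
              frc (rlc (mcB m b)) fun C =>
                bif Nat.ble (Nat.add K.X.W.P.Q.sh (Nat.add (maR m b) (K.X.al A' C))) q.1 then true
                else K.ok8 WM a la fa q.1 cl C) then
              bif frc (K.X.M A') (fun m => alln (mnC m) fun j => frc (Nat.succ j) fun c =>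
                frc (mcC m c) fun C =>
                  bif Nat.ble (Nat.add K.X.W.P.Q.sh (Nat.add (K.X.ar A (rrc C)) (maL m c))) q.1 then
                    true else K.ok8 WM a la fa q.1 cl C) then
                frc (K.Y (K.aq a)) (fun m => alln (nY m) fun j => frc (Nat.succ j) fun j =>
                  frc (uY m j) fun u =>
                    bif Nat.ble (Nat.add K.X.W.P.Q.sh (K.az a u)) q.1 then true else
                      K.oks a la fa q.1 cl (WM.get u))
              else false
            else false
          else false) (Nat.div (hi a) 32) (Nat.mod (hi a) 32)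
      else K.soc WL a L) L

/-! ### The search -/

/-- the chosen candidate of the position with the shift `a`, `0` if unknown -/
def kap (w a Z : Nat) : Nat := lgm (Nat.mod (Nat.shiftRight Z a) (Nat.pow (nat_lit 2) w))

/-- the row of the chosen candidate `κ` -/
def rwc (R U κ : Nat) : Nat :=
  Bool.rec (motive := fun _ => Nat) (rwk R (uB U κ)) (nat_lit 0) (Nat.beq κ (nat_lit 0))

/-- the column of the chosen candidate `κ` -/
def clc (R U κ : Nat) : Nat :=
  Bool.rec (motive := fun _ => Nat) (clk R (uC U κ)) (nat_lit 0) (Nat.beq κ (nat_lit 0))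

/-- the record of the own candidate `κ`: `m` the own records, `U` the own candidates, `UL`, `UR` the
candidates of the neighbours with the shifts `aL`, `aR` -/
def kOwn (w m U UL UR aL aR κ Z s : Nat) : Nat :=
  frc (uL U κ) fun l => Bool.rec (motive := fun _ => Nat)
    (frc (rcd m l) fun R => frc (rwc R UL (kap w aL Z)) fun ρ => frc (clc R UR (kap w aR Z)) fun γ =>
      Nat.sub (Nat.add s (yF R ρ γ)) (nat_lit 65536)) s (Nat.beq l (nat_lit 0))

/-- the record of the next position: `m` its records, `U` its candidates, `a` its shift, `UR` the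
candidates of the position behind it with the shift `aR`, `g` the own class -/
def kRgt (w m U UR a aR g Z s : Nat) : Nat :=
  frc (kap w a Z) fun κ => Bool.rec (motive := fun _ => Nat)
    (frc (uL U κ) fun l => Bool.rec (motive := fun _ => Nat)
      (frc (rcd m l) fun R => frc (rwk R g) fun ρ => frc (clc R UR (kap w aR Z)) fun γ =>
        Nat.sub (Nat.add s (yF R ρ γ)) (yF R (nat_lit 0) γ)) s (Nat.beq l (nat_lit 0)))
    s (Nat.beq κ (nat_lit 0))

/-- the record of the previous position -/
def kLft (w m U UL a aL g Z s : Nat) : Nat :=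
  frc (kap w a Z) fun κ => Bool.rec (motive := fun _ => Nat)
    (frc (uL U κ) fun l => Bool.rec (motive := fun _ => Nat)
      (frc (rcd m l) fun R => frc (rwc R UL (kap w aL Z)) fun ρ => frc (clk R g) fun γ =>
        Nat.sub (Nat.add s (yF R ρ γ)) (yF R ρ (nat_lit 0))) s (Nat.beq l (nat_lit 0)))
    s (Nat.beq κ (nat_lit 0))

/-- `f` if `m` is not zero -/
def ifN (m : Nat) (f : Nat → Nat) (s : Nat) : Nat :=
  Bool.rec (motive := fun _ => Nat) (f s) s (Nat.beq m (nat_lit 0))

/-- the new sum: `m`, `mL`, `mR` the records, `UM`, `UL`, `ULL`, `UR`, `URR` the candidates, `aL`,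
`aLL`, `aR`, `aRR` the shifts -/
def kAll (w m mL mR U UL ULL UR URR aL aLL aR aRR κ Z s : Nat) : Nat :=
  frc (ifN m (kOwn w m U UL UR aL aR κ Z) s) fun s =>
    frc (ifN mR (kRgt w mR UR URR aR aRR (uB U κ) Z) s) fun s =>
      ifN mL (kLft w mL UL ULL aL aLL (uC U κ) Z) s

/-- a position -/
def Kx.pq (K : Kx) (c d k i N : Nat) : PX :=
  frc (K.Y (K.aq (K.X.W.ke c i))) fun m => frc (K.Y (K.aq (K.X.W.ke c (prv d i)))) fun mL =>
    frc (K.Y (K.aq (K.X.W.ke c (nxt d i)))) fun mR =>
      PX.rec (motive := fun _ => PX) (fun a f gp n R A => Bool.rec (motive := fun _ => PX)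
        (frc (K.U (K.X.W.ke c i)) fun U => frc (K.U (K.X.W.ke c (prv d i))) fun UL =>
          frc (K.U (K.X.W.ke c (prv d (prv d i)))) fun ULL =>
            frc (K.U (K.X.W.ke c (nxt d i))) fun UR =>
              frc (K.U (K.X.W.ke c (nxt d (nxt d i)))) fun URR =>
                frc (Nat.mul K.X.W.P.w (prv d i)) fun aL =>
                  frc (Nat.mul K.X.W.P.w (prv d (prv d i))) fun aLL =>
                    frc (Nat.mul K.X.W.P.w (nxt d i)) fun aR =>
                      frc (Nat.mul K.X.W.P.w (nxt d (nxt d i))) fun aRR =>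
                        ⟨a, f, gp, n, R, fun κ Z s => frc (A κ Z s)
                          (kAll K.X.W.P.w m mL mR U UL ULL UR URR aL aLL aR aRR κ Z)⟩)
        ⟨a, f, gp, n, R, A⟩ (Nat.beq (Nat.add m (Nat.add mL mR)) (nat_lit 0)))
        (K.X'.pq c d k i N)

/-- the positions in the given order -/
def Kx.pqs (K : Kx) (c d k : Nat) (NL : List Nat) (ord : List Nat) : List PX :=
  List.rec (motive := fun _ => List PX) []
    (fun i _ ih => sl6 (fun i => K.pq c d k i (nth NL i)) i :: ih) ord

/-- the check of a leaf: no null neighbour in `ns`, one null neighbour, two null neighbours -/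
def Kx.lfn (K : Kx) (c d : Nat) (ns : List Nat) (ps : List PX) (m : Nat) : Bool :=
  K.X.lfn c d ns ps m

/-- the check of a leaf -/
def Kx.lfc (K : Kx) (c d k : Nat) (o x s u : Nat) (NL V : List Nat) : Bool :=
  Bool.rec (motive := fun _ => Bool) false
    (Bool.rec (motive := fun _ => Bool) false
      (Bool.rec (motive := fun _ => Bool) false
        (List.rec (motive := fun _ => Bool)
          (gon3 (K.X.W.P.Q.thr c) (K.pqs c d k NL (dN 3 o)) (K.X.W.m0 c d (dN 11 x) (dN 36 u))
            0 0)
          (fun _ _ _ => K.X.lfn c d (dN 3 s) (K.pqs c d k NL (dN 3 o))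
            (K.X.W.m0 c d (dN 11 x) (dN 36 u))) (dN 3 s))
        (frc (av2 K.X.W.lv V) fun AV => frc (av2 K.X.W.lm (rvl V)) fun AW =>
          Bool.rec (motive := fun _ => Bool) false
            (alln d fun i => K.X.W.cks c d k AV AW i (kn (K.X.W.kr c i)) (nth NL i))
            (ala (K.X.W.fqz c d AV AW 0 0) (dN 36 u))))
      (ala (fun t => frc t (K.X.W.P.ux c d k V)) (dN 11 x)))
    (okOrd d (dN 3 o))

/-- the check of a tree -/
def Kx.ckt (K : Kx) (c d k : Nat) (t : Tr2) : List Nat → Nat → List Nat → Bool :=
  Tr2.rec (motive := fun _ => List Nat → Nat → List Nat → Bool)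
    (fun o x s u NL V _ _ => K.lfc c d k o x s u NL V)
    (fun n V _ _ => fq K.X.W.FN d (av2 K.X.W.lv V) (av2 K.X.W.lm (rvl V)) 0 0 n)
    (fun i _ ih V _ _ => bif Nat.ble (Nat.succ i) d then ih V i (K.X.W.P.lg (gtk V i)) else false)
    (fun _ _ iha iht V i L => List.rec (motive := fun _ => Bool) true
      (fun x L' _ => bif (bif K.X.W.P.imp k x (gtk V (prv d i)) (gtk V (nxt d i)) then true else
          iha (stk x V i) i [x]) then
        iht V i L' else false) L)
    (fun _ _ L => List.rec (motive := fun _ => Bool) true (fun _ _ _ => false) L) t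

/-- the candidates of the position `i` are known, if they are used -/
def Kx.kc (K : Kx) (c d i : Nat) : Bool :=
  bif Nat.beq (Nat.add (K.Y (K.aq (K.X.W.ke c i))) (Nat.add (K.Y (K.aq (K.X.W.ke c (prv d i))))
      (K.Y (K.aq (K.X.W.ke c (nxt d i)))))) (nat_lit 0) then
    true else Nat.ble (nat_lit 1) (K.U (K.X.W.ke c i))

/-- the centre `k` has no records -/
def Kx.non (K : Kx) (k : Nat) : Bool :=
  alln (dgn k) fun i => Nat.beq (K.Y (K.aq (K.X.W.ke k i))) (nat_lit 0)

/-- The check of an entry of the table of the centres. -/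
def Kx.ckc (K : Kx) (k : Nat) (l : List CE2) : Bool :=
  List.rec (motive := fun _ => Bool) true
    (fun E _ ih => bif (bif (bif ded2 E.t then true else K.non k) then K.X.ckc k [E] else
      bif Nat.beq E.c k then
        bif alln (dgn k) (fun i => Nat.ble 1 (K.X.W.kr k i)) then
          bif alln (dgn k) (fun i => bif K.X.kc k (dgn k) i then K.kc k (dgn k) i else false) then
            K.ckt k (dgn k) (wsl K.X.W.P.Q.wm k) E.t (K.X.W.P.v0 k) 0
              (K.X.W.P.lg (gtk (K.X.W.P.v0 k) 0))
          else false
        else false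
      else false) then ih else false) l

/-- The checks of the tables. -/
structure Kz (K : Kx) (WL : BT (List Nat)) : Prop where
  kM : ∀ A, K.X.M A ≠ 0 → K.X.kM A (K.X.M A) = true
  kB : ∀ p, K.X.B p ≠ 0 → K.X.kB p (K.X.B p) = true
  kC : ∀ p, K.X.C p ≠ 0 → K.X.kC p (K.X.C p) = true
  kV : ∀ a, K.X.V a ≠ 0 → K.X.kV a (K.X.V a) = true
  kA : ∀ a, K.X.ka a ≠ 0 → K.X.kA a (K.X.ka a) = true
  kB' : ∀ p, K.B p ≠ 0 → K.kB p (K.B p) = true
  kC' : ∀ p, K.C p ≠ 0 → K.kC p (K.C p) = true
  kE : ∀ p, K.E p ≠ 0 → K.kE p (K.E p) = true
  kY : ∀ p, K.Y p ≠ 0 → K.kY p (K.Y p) = true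
  kU : ∀ a, K.U a ≠ 0 → K.kU a (K.U a) = true
  kb : ∀ a, K.kb a ≠ 0 → K.kkb a (K.kb a) = true
  so : K.X.W.P.Q.SG.allB (K.soc WL) = true
  kW : WL.allB K.kW = true

end

end Pool.FCS
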