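import Pool.Agent.FCS.Ya
import Pool.Agent.FCS.Xf

/-!
# Star check with flows on kites: the tables
-/

namespace Pool.FCS

open Finset

noncomputable section

variable {K : Kx} {WL WM : BT (List Nat)}

/-! ### Edge keys -/

theorem swk_eq (p u : Nat) : swk p u =
    u + 8589934592 * (p / 8589934592 / 4 + 4 * (p / 8589934592 % 4)) := rfl

theorem mi_swk {p u : Nat} (hu : u < 8589934592) : mi (swk p u) = u := by
  rw [swk_eq]
  show (u + 8589934592 * (p / 8589934592 / 4 + 4 * (p / 8589934592 % 4))) % 8589934592 = u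
  rw [Nat.add_mul_mod_self_left]
  exact Nat.mod_eq_of_lt hu

theorem swk_lt {p u : Nat} (hp : p < 137438953472) (hu : u < 8589934592) :
    swk p u < 137438953472 := by
  rw [swk_eq]
  omega

theorem swk_swk {p u : Nat} (hp : p < 137438953472) (hu : u < 8589934592) :
    swk (swk p u) (mi p) = p := by
  rw [swk_eq, swk_eq]
  show p % 8589934592 + _ = p
  omega

theorem lo_mi (n : Nat) : lo (mi n) = lo n := by
  show n % 8589934592 % 1073741824 = n % 1073741824
  omega

theorem lo_swk {p u : Nat} : lo (swk p u) = lo u := by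
  rw [swk_eq]
  show (u + 8589934592 * (p / 8589934592 / 4 + 4 * (p / 8589934592 % 4))) % 1073741824 =
    u % 1073741824
  omega

theorem mi_lt (n : Nat) : mi n < 8589934592 := Nat.mod_lt _ (by norm_num)

theorem pr3_mod {p u : Nat} (hp : p < 137438953472) : Nat.mod (pr3 p u) 137438953472 = p := by
  show (p + 137438953472 * u) % 137438953472 = p
  omega

theorem pr3_div {p u : Nat} (hp : p < 137438953472) : Nat.div (pr3 p u) 137438953472 = u := by
  show (p + 137438953472 * u) / 137438953472 = u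
  omega

theorem qcl_lt (qt x : Nat) : qcl qt x < 4 := Nat.mod_lt _ (by norm_num)

theorem aqk_eq (qt a : Nat) : aqk qt a = mi a + 8589934592 * (qcl qt (hi a % 32) +
    4 * qcl qt (hi a / 32)) := rfl

theorem mi_aqk (qt a : Nat) : mi (aqk qt a) = mi a := by
  rw [aqk_eq]
  show (mi a + 8589934592 * (qcl qt (hi a % 32) + 4 * qcl qt (hi a / 32))) % 8589934592 = mi a
  rw [Nat.add_mul_mod_self_left]
  exact Nat.mod_eq_of_lt (mi_lt a)

theorem lo_aqk (qt a : Nat) : lo (aqk qt a) = lo a := by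
  rw [← lo_mi, mi_aqk, lo_mi]

theorem aqk_lt (qt a : Nat) : aqk qt a < 137438953472 := by
  rw [aqk_eq]
  have h1 := mi_lt a
  have h2 := qcl_lt qt (hi a % 32)
  have h3 := qcl_lt qt (hi a / 32)
  omega

/-- the edge keys of the two ends fit together -/
theorem aqk_swk {qt a b : Nat} (h1 : qcl qt (hi a % 32) = qcl qt (hi b / 32))
    (h2 : qcl qt (hi a / 32) = qcl qt (hi b % 32)) : aqk qt b = swk (aqk qt a) (mi b) := by
  rw [swk_eq, aqk_eq, aqk_eq, h1, h2]
  have h3 := mi_lt a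
  have h4 := qcl_lt qt (hi b % 32)
  have h5 := qcl_lt qt (hi b / 32)
  omega

/-! ### The records -/

theorem Kx.loc_eq (K : Kx) (p u : Nat) : K.loc p u = if K.Y p = 0 then 0 else
    if K.E (pr3 p u) = 0 then 0 else lY (K.Y p) (K.E (pr3 p u)) := by
  unfold Kx.loc
  rw [frc_eq]
  by_cases h : K.Y p = 0
  · rw [if_pos h, h]
    rfl
  · rw [if_neg h, beq_false_of h]
    dsimp only
    rw [frc_eq]
    by_cases h1 : K.E (pr3 p u) = 0
    · rw [if_pos h1, h1]
      rfl
    · rw [if_neg h1, beq_false_of h1]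

theorem Kx.loc_y0 {p u : Nat} (h : K.Y p = 0) : K.loc p u = 0 := by
  rw [K.loc_eq, if_pos h]

theorem Kx.rc_eq (K : Kx) (p u : Nat) : K.rc p u = if K.loc p u = 0 then 0 else
    rcd (K.Y p) (K.loc p u) := by
  unfold Kx.rc
  rw [frc_eq]
  by_cases h : K.loc p u = 0
  · rw [if_pos h, h]
    rfl
  · rw [if_neg h, beq_false_of h]

theorem Kx.y_eq (K : Kx) (p u c1 c2 : Nat) : K.y p u c1 c2 = if K.loc p u = 0 then 65536 else
    yF (rcd (K.Y p) (K.loc p u)) (rwk (rcd (K.Y p) (K.loc p u)) (K.B (pr2 (lo p) c1)))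
      (clk (rcd (K.Y p) (K.loc p u)) (K.C (pr2 (lo p) c2))) := by
  unfold Kx.y
  rw [frc_eq]
  by_cases h : K.loc p u = 0
  · rw [if_pos h, h]
    rfl
  · rw [if_neg h, beq_false_of h]
    dsimp only
    rw [frc_eq, frc_eq, frc_eq]

theorem rwk_zero {R g : Nat} (h : rkR R = 0) : rwk R g = 0 := by
  unfold rwk
  rw [frc_eq, h]
  rfl

theorem clk_zero {R g : Nat} (h : rkC R = 0) : clk R g = 0 := by
  unfold clk
  rw [frc_eq, h]
  rfl

theorem rwk_g0 {R : Nat} (h : rkR R ≠ 0) : rwk R 0 = 255 := by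
  unfold rwk
  rw [frc_eq, beq_false_of h]
  rfl

theorem clk_g0 {R : Nat} (h : rkC R ≠ 0) : clk R 0 = 255 := by
  unfold clk
  rw [frc_eq, beq_false_of h]
  rfl

theorem yF_r {R γ : Nat} : yF R 255 γ = 65536 := rfl

theorem yF_c {R ρ : Nat} : yF R ρ 255 = 65536 := by
  unfold yF
  cases Nat.beq ρ 255 <;> rfl

theorem yF_eq {R ρ γ : Nat} (h1 : ρ ≠ 255) (h2 : γ ≠ 255) : yF R ρ γ = rkF R ρ γ := by
  unfold yF
  rw [beq_false_of h1, beq_false_of h2]

/-- all rows -/
theorem rowsK_sound {N R : Nat} {f : Nat → Nat → Bool} (h : rowsK N R f = true) :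
    (rkR R = 0 ∧ f 0 0 = true) ∨ (rkR R ≠ 0 ∧ ∀ g, g ≠ 0 → g ≤ kn1 N → rwk R g ≠ 255 →
      f (rwk R g) (kc1 N g) = true) := by
  unfold rowsK at h
  by_cases h0 : rkR R = 0
  · rw [h0] at h
    exact Or.inl ⟨h0, h⟩
  · rw [beq_false_of h0] at h
    right
    refine ⟨h0, fun g hg hn h1 => ?_⟩
    obtain ⟨j, rfl⟩ : ∃ j, g = j + 1 := ⟨g - 1, by omega⟩
    have h2 := alln_iff.1 h j (by omega)
    rw [frc_eq, frc_eq] at h2
    have e : Nat.succ j = j + 1 := rfl
    rw [e, beq_false_of h1] at h2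
    dsimp only at h2
    rw [frc_eq] at h2
    exact h2

/-- all columns -/
theorem colsK_sound {N R : Nat} {f : Nat → Nat → Bool} (h : colsK N R f = true) :
    (rkC R = 0 ∧ f 0 0 = true) ∨ (rkC R ≠ 0 ∧ ∀ g, g ≠ 0 → g ≤ kn2 N → clk R g ≠ 255 →
      f (clk R g) (kc2 N g) = true) := by
  unfold colsK at h
  by_cases h0 : rkC R = 0
  · rw [h0] at h
    exact Or.inl ⟨h0, h⟩
  · rw [beq_false_of h0] at h
    right
    refine ⟨h0, fun g hg hn h1 => ?_⟩
    obtain ⟨j, rfl⟩ : ∃ j, g = j + 1 := ⟨g - 1, by omega⟩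
    have h2 := alln_iff.1 h j (by omega)
    rw [frc_eq, frc_eq] at h2
    have e : Nat.succ j = j + 1 := rfl
    rw [e, beq_false_of h1] at h2
    dsimp only at h2
    rw [frc_eq] at h2
    exact h2

/-- the class of a code before the edge -/
theorem Kz.kb_of (h : Kz K WL) {A c : Nat} (hA : A < 1073741824) (hb : K.B (pr2 A c) ≠ 0) :
    K.B (pr2 A c) ≤ kn1 (K.N A) ∧ kc1 (K.N A) (K.B (pr2 A c)) = c := by
  have h1 := h.kB' _ hb
  unfold Kx.kB at h1
  rw [frc_eq, pr2_mod hA, pr2_div hA, brec_and] at h1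
  exact ⟨Nat.le_of_ble_eq_true h1.1, Nat.eq_of_beq_eq_true h1.2⟩

/-- the class of a code behind the edge -/
theorem Kz.kc_of (h : Kz K WL) {A c : Nat} (hA : A < 1073741824) (hb : K.C (pr2 A c) ≠ 0) :
    K.C (pr2 A c) ≤ kn2 (K.N A) ∧ kc2 (K.N A) (K.C (pr2 A c)) = c := by
  have h1 := h.kC' _ hb
  unfold Kx.kC at h1
  rw [frc_eq, pr2_mod hA, pr2_div hA, brec_and] at h1
  exact ⟨Nat.le_of_ble_eq_true h1.1, Nat.eq_of_beq_eq_true h1.2⟩

/-- the rows of the codes -/
theorem Kz.rows (h : Kz K WL) {A R : Nat} (hA : A < 1073741824) {f : Nat → Nat → Bool}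
    (hf : rowsK (K.N A) R f = true) (c : Nat) : rwk R (K.B (pr2 A c)) = 255 ∨
      ∃ c', f (rwk R (K.B (pr2 A c))) c' = true ∧ (c' = c ∨ rkR R = 0) := by
  rcases rowsK_sound hf with ⟨h1, h2⟩ | ⟨h1, h2⟩
  · right
    rw [rwk_zero h1]
    exact ⟨0, h2, Or.inr h1⟩
  · by_cases h3 : rwk R (K.B (pr2 A c)) = 255
    · exact Or.inl h3
    · right
      by_cases h4 : K.B (pr2 A c) = 0
      · rw [h4, rwk_g0 h1] at h3
        exact absurd rfl h3
      · obtain ⟨h5, h6⟩ := h.kb_of hA h4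
        have h7 := h2 _ h4 h5 h3
        rw [h6] at h7
        exact ⟨c, h7, Or.inl rfl⟩

/-- the columns of the codes -/
theorem Kz.cols (h : Kz K WL) {A R : Nat} (hA : A < 1073741824) {f : Nat → Nat → Bool}
    (hf : colsK (K.N A) R f = true) (c : Nat) : clk R (K.C (pr2 A c)) = 255 ∨
      ∃ c', f (clk R (K.C (pr2 A c))) c' = true ∧ (c' = c ∨ rkC R = 0) := by
  rcases colsK_sound hf with ⟨h1, h2⟩ | ⟨h1, h2⟩
  · right
    rw [clk_zero h1]
    exact ⟨0, h2, Or.inr h1⟩
  · by_cases h3 : clk R (K.C (pr2 A c)) = 255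
    · exact Or.inl h3
    · right
      by_cases h4 : K.C (pr2 A c) = 0
      · rw [h4, clk_g0 h1] at h3
        exact absurd rfl h3
      · obtain ⟨h5, h6⟩ := h.kc_of hA h4
        have h7 := h2 _ h4 h5 h3
        rw [h6] at h7
        exact ⟨c, h7, Or.inl rfl⟩

/-- what is known about the record of an edge key and a neighbour -/
structure RecOk (K : Kx) (p u R : Nat) : Prop where
  sR : tb K.X.W.P.Q.sm (Nat.mod (rrc (lo p)) 32) = true ∨ rkR R = 0
  sC : tb K.X.W.P.Q.sm (Nat.mod (lo p) 32) = true ∨ rkC R = 0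
  wR : rkR R = 0 → rkC (K.rc (swk p u) (mi p)) = 0
  wC : rkC R = 0 → rkR (K.rc (swk p u) (mi p)) = 0
  z : rkR R + rkC R = 0 ∨ 65536 ≤ rkF R 0 0
  r : ∀ c, rwk R (K.B (pr2 (lo p) c)) = 255 ∨
    (rkF R (rwk R (K.B (pr2 (lo p) c))) 0 ≤ rkF R 0 0 ∧
      (rkC R = 0 ∨ 65536 ≤ rkF R (rwk R (K.B (pr2 (lo p) c))) 0))
  c : ∀ c, clk R (K.C (pr2 (lo p) c)) = 255 ∨
    (rkF R 0 (clk R (K.C (pr2 (lo p) c))) ≤ rkF R 0 0 ∧
      (rkR R = 0 ∨ 65536 ≤ rkF R 0 (clk R (K.C (pr2 (lo p) c)))))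
  e : ∀ c1 c2, rwk R (K.B (pr2 (lo p) c1)) = 255 ∨ clk R (K.C (pr2 (lo p) c2)) = 255 ∨
    (rkF R (rwk R (K.B (pr2 (lo p) c1))) (clk R (K.C (pr2 (lo p) c2))) ≤
        rkF R (rwk R (K.B (pr2 (lo p) c1))) 0 ∧
      rkF R (rwk R (K.B (pr2 (lo p) c1))) (clk R (K.C (pr2 (lo p) c2))) ≤
        rkF R 0 (clk R (K.C (pr2 (lo p) c2))) ∧
      (rkF R (rwk R (K.B (pr2 (lo p) c1))) (clk R (K.C (pr2 (lo p) c2))) = 65536 ∨
        ∃ d1 d2, (d1 = c1 ∨ rkR R = 0) ∧ (d2 = c2 ∨ rkC R = 0) ∧
          rkF R (rwk R (K.B (pr2 (lo p) c1))) (clk R (K.C (pr2 (lo p) c2))) +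
            K.y (swk p u) (mi p) d2 d1 = 131072))

theorem bif_or {a b : Bool} : (bif a then true else b) = true ↔ a = true ∨ b = true := by
  cases a <;> cases b <;> decide

theorem bif_imp {a b : Bool} : (bif a then b else true) = true ↔ (a = true → b = true) := by
  cases a <;> cases b <;> decide

theorem Kz.recOk (h : Kz K WL) {p u R : Nat} (hR : K.kR p u R = true) : RecOk K p u R := by
  have hA := lo_lt p
  unfold Kx.kR at hR
  rw [frc_eq, frc_eq, frc_eq, frc_eq] at hR
  rw [cond_true_iff, cond_true_iff, cond_true_iff, cond_true_iff, cond_true_iff, cond_true_iff,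
    cond_true_iff] at hR
  obtain ⟨a1, a2, a3, a4, a5, a6, a7, a8⟩ := hR
  rw [bif_or] at a1 a2 a5
  rw [bif_imp] at a3 a4
  refine ⟨?_, ?_, ?_, ?_, ?_, ?_, ?_, ?_⟩
  · rcases a1 with a1 | a1
    · exact Or.inl a1
    · exact Or.inr (Nat.eq_of_beq_eq_true a1)
  · rcases a2 with a2 | a2
    · exact Or.inl a2
    · exact Or.inr (Nat.eq_of_beq_eq_true a2)
  · intro h1
    exact Nat.eq_of_beq_eq_true (a3 (by rw [h1]; rfl))
  · intro h1
    exact Nat.eq_of_beq_eq_true (a4 (by rw [h1]; rfl))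
  · rcases a5 with a5 | a5
    · exact Or.inl (Nat.eq_of_beq_eq_true a5)
    · exact Or.inr (Nat.le_of_ble_eq_true a5)
  · intro c
    rcases h.rows hA a6 c with h1 | ⟨c', h1, -⟩
    · exact Or.inl h1
    · right
      rw [frc_eq, cond_true_iff, bif_or] at h1
      refine ⟨Nat.le_of_ble_eq_true h1.1, ?_⟩
      rcases h1.2 with h2 | h2
      · exact Or.inl (Nat.eq_of_beq_eq_true h2)
      · exact Or.inr (Nat.le_of_ble_eq_true h2)
  · intro c
    rcases h.cols hA a7 c with h1 | ⟨c', h1, -⟩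
    · exact Or.inl h1
    · right
      rw [frc_eq, cond_true_iff, bif_or] at h1
      refine ⟨Nat.le_of_ble_eq_true h1.1, ?_⟩
      rcases h1.2 with h2 | h2
      · exact Or.inl (Nat.eq_of_beq_eq_true h2)
      · exact Or.inr (Nat.le_of_ble_eq_true h2)
  · intro c1 c2
    rcases h.rows hA a8 c1 with h1 | ⟨d1, h1, e1⟩
    · exact Or.inl h1
    · right
      rw [frc_eq] at h1
      rcases h.cols hA h1 c2 with h2 | ⟨d2, h2, e2⟩
      · exact Or.inl h2
      · right
        rw [frc_eq, cond_true_iff, cond_true_iff, bif_or] at h2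
        obtain ⟨b1, b2, b3⟩ := h2
        refine ⟨Nat.le_of_ble_eq_true b1, Nat.le_of_ble_eq_true b2, ?_⟩
        rcases b3 with b3 | b3
        · exact Or.inl (Nat.eq_of_beq_eq_true b3)
        · exact Or.inr ⟨d1, d2, e1, e2, Nat.eq_of_beq_eq_true b3⟩

/-- the record of an edge key and a neighbour is correct -/
theorem Kz.rcOk (h : Kz K WL) {p u : Nat} (hp : p < 137438953472) (hl : K.loc p u ≠ 0) :
    RecOk K p u (rcd (K.Y p) (K.loc p u)) := by
  rw [K.loc_eq] at hl
  have hY : K.Y p ≠ 0 := by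
    intro h0
    rw [if_pos h0] at hl
    exact hl rfl
  rw [if_neg hY] at hl
  have hE : K.E (pr3 p u) ≠ 0 := by
    intro h0
    rw [if_pos h0] at hl
    exact hl rfl
  have h1 := h.kE _ hE
  unfold Kx.kE at h1
  rw [frc_eq, pr3_mod hp, pr3_div hp, brec_and] at h1
  have h2 := Nat.le_of_ble_eq_true h1.1
  have h3 := Nat.eq_of_beq_eq_true h1.2
  have h4 := h.kY _ hY
  unfold Kx.kY at h4
  obtain ⟨j, hj⟩ : ∃ j, K.E (pr3 p u) = j + 1 := ⟨K.E (pr3 p u) - 1, by omega⟩
  have h5 := alln_iff.1 h4 j (by omega)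
  rw [frc_eq, frc_eq, frc_eq] at h5
  have e : Nat.succ j = K.E (pr3 p u) := hj.symm
  rw [e, h3] at h5
  have e2 : K.loc p u = lY (K.Y p) (K.E (pr3 p u)) := by
    rw [K.loc_eq, if_neg hY, if_neg hE]
  rw [e2]
  exact h.recOk h5

theorem Kz.y_or (h : Kz K WL) {p u : Nat} (hp : p < 137438953472) (c1 c2 : Nat) :
    K.y p u c1 c2 = 65536 ∨ K.y p u c1 c2 + K.y (swk p u) (mi p) c2 c1 = 131072 := by
  by_cases hl : K.loc p u = 0
  · left
    rw [K.y_eq, if_pos hl]
  · have hr := h.rcOk hp hl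
    have e1 := K.y_eq p u c1 c2
    rw [if_neg hl] at e1
    rcases hr.e c1 c2 with h1 | h1 | ⟨-, -, h1⟩
    · left
      rw [e1, h1]
      exact yF_r
    · left
      rw [e1, h1]
      exact yF_c
    · by_cases h2 : rwk (rcd (K.Y p) (K.loc p u)) (K.B (pr2 (lo p) c1)) = 255
      · left
        rw [e1, h2]
        exact yF_r
      · by_cases h3 : clk (rcd (K.Y p) (K.loc p u)) (K.C (pr2 (lo p) c2)) = 255
        · left
          rw [e1, h3]
          exact yF_c
        · rw [yF_eq h2 h3] at e1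
          rw [← e1] at h1
          rcases h1 with h1 | ⟨d1, d2, f1, f2, h1⟩
          · exact Or.inl h1
          · right
            rw [← h1]
            congr 1
            -- the other side does not depend on the codes of wildcards
            rw [K.y_eq, K.y_eq]
            by_cases hl' : K.loc (swk p u) (mi p) = 0
            · rw [if_pos hl', if_pos hl']
            · rw [if_neg hl', if_neg hl']
              have er : K.rc (swk p u) (mi p) =
                  rcd (K.Y (swk p u)) (K.loc (swk p u) (mi p)) := by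
                rw [K.rc_eq, if_neg hl']
              have wR := hr.wR
              have wC := hr.wC
              rw [er] at wR wC
              congr 1
              · rcases f2 with f2 | f2
                · rw [f2]
                · rw [rwk_zero (wC f2), rwk_zero (wC f2)]
              · rcases f1 with f1 | f1
                · rw [f1]
                · rw [clk_zero (wR f1), clk_zero (wR f1)]

/-- the gains of the two ends of an edge cancel -/
theorem Kz.y_sum (h : Kz K WL) {p u : Nat} (hp : p < 137438953472) (hu : u < 8589934592)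
    (c1 c2 : Nat) : K.y p u c1 c2 + K.y (swk p u) (mi p) c2 c1 = 131072 := by
  rcases h.y_or (u := u) hp c1 c2 with h1 | h1
  · have h2 := h.y_or (u := mi p) (swk_lt hp hu) c2 c1
    rw [swk_swk hp hu, mi_swk hu] at h2
    rcases h2 with h2 | h2
    · omega
    · omega
  · exact h1

/-- the gains of the two ends of an edge cancel (words) -/
theorem Kz.hz (h : Kz K WL) (a b c d : List Nat) : K.yw a b c d + K.yw b a d c = 0 := by
  unfold Kx.yw
  dsimp only
  have hp : ∀ a, K.aq a < 137438953472 := fun a => aqk_lt K.qt a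
  have hpa := hp (K.X.W.P.Q.ky (enc a))
  have hpb := hp (K.X.W.P.Q.ky (enc b))
  generalize K.aq (K.X.W.P.Q.ky (enc a)) = p at hpa ⊢
  generalize K.aq (K.X.W.P.Q.ky (enc b)) = q at hpb ⊢
  generalize blc K.X.W.P.Q.bm (enc c) = c1
  generalize blc K.X.W.P.Q.bm (enc d) = c2
  by_cases hh : q = swk p (mi q) ∧ p = swk q (mi p) ∧ c1 < 1073741824 ∧ c2 < 1073741824
  · obtain ⟨h1, h2, h3, h4⟩ := hh
    rw [if_pos ⟨h1, h2, h3, h4⟩, if_pos ⟨h2, h1, h4, h3⟩]
    have h5 := h.y_sum hpa (mi_lt q) c1 c2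
    rw [← h1] at h5
    omega
  · rw [if_neg hh, if_neg fun h => hh ⟨h.2.1, h.1, h.2.2.2, h.2.2.1⟩]
    rfl

/-! ### Bounds with unknown codes -/

/-- one code known -/
theorem RecOk.bR {p u R : Nat} (h : RecOk K p u R) (c1 c2 : Nat) :
    yF R (rwk R (K.B (pr2 (lo p) c1))) (clk R (K.C (pr2 (lo p) c2))) ≤
      yF R (rwk R (K.B (pr2 (lo p) c1))) 0 := by
  by_cases h1 : rwk R (K.B (pr2 (lo p) c1)) = 255
  · rw [h1, yF_r, yF_r]
  · rw [yF_eq h1 (show (0 : Nat) ≠ 255 by decide)]
    by_cases h2 : clk R (K.C (pr2 (lo p) c2)) = 255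
    · rw [h2, yF_c]
      rcases h.r c1 with h3 | ⟨-, h3 | h3⟩
      · exact absurd h3 h1
      · rw [clk_zero h3] at h2
        exact absurd h2 (by decide)
      · exact h3
    · rw [yF_eq h1 h2]
      rcases h.e c1 c2 with h3 | h3 | h3
      · exact absurd h3 h1
      · exact absurd h3 h2
      · exact h3.1

theorem RecOk.bC {p u R : Nat} (h : RecOk K p u R) (c1 c2 : Nat) :
    yF R (rwk R (K.B (pr2 (lo p) c1))) (clk R (K.C (pr2 (lo p) c2))) ≤
      yF R 0 (clk R (K.C (pr2 (lo p) c2))) := by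
  by_cases h2 : clk R (K.C (pr2 (lo p) c2)) = 255
  · rw [h2, yF_c, yF_c]
  · rw [yF_eq (show (0 : Nat) ≠ 255 by decide) h2]
    by_cases h1 : rwk R (K.B (pr2 (lo p) c1)) = 255
    · rw [h1, yF_r]
      rcases h.c c2 with h3 | ⟨-, h3 | h3⟩
      · exact absurd h3 h2
      · rw [rwk_zero h3] at h1
        exact absurd h1 (by decide)
      · exact h3
    · rw [yF_eq h1 h2]
      rcases h.e c1 c2 with h3 | h3 | h3
      · exact absurd h3 h1
      · exact absurd h3 h2
      · exact h3.2.1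

/-- nothing known -/
theorem RecOk.zR {p u R : Nat} (h : RecOk K p u R) (c1 : Nat) :
    yF R (rwk R (K.B (pr2 (lo p) c1))) 0 ≤ yF R 0 0 := by
  rw [yF_eq (ρ := 0) (show (0 : Nat) ≠ 255 by decide) (show (0 : Nat) ≠ 255 by decide)]
  by_cases h1 : rwk R (K.B (pr2 (lo p) c1)) = 255
  · rw [h1, yF_r]
    rcases h.z with h3 | h3
    · rw [rwk_zero (show rkR R = 0 by omega)] at h1
      exact absurd h1 (by decide)
    · exact h3
  · rw [yF_eq h1 (show (0 : Nat) ≠ 255 by decide)]
    rcases h.r c1 with h3 | h3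
    · exact absurd h3 h1
    · exact h3.1

theorem RecOk.zC {p u R : Nat} (h : RecOk K p u R) (c2 : Nat) :
    yF R 0 (clk R (K.C (pr2 (lo p) c2))) ≤ yF R 0 0 := by
  rw [yF_eq (ρ := 0) (γ := 0) (show (0 : Nat) ≠ 255 by decide) (show (0 : Nat) ≠ 255 by decide)]
  by_cases h1 : clk R (K.C (pr2 (lo p) c2)) = 255
  · rw [h1, yF_c]
    rcases h.z with h3 | h3
    · rw [clk_zero (show rkC R = 0 by omega)] at h1
      exact absurd h1 (by decide)
    · exact h3
  · rw [yF_eq (show (0 : Nat) ≠ 255 by decide) h1]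
    rcases h.c c2 with h3 | h3
    · exact absurd h3 h1
    · exact h3.1

/-! ### The checks of the triangles -/

/-- a smaller bound -/
theorem lst_mono {g g' b : Nat} (hg : g ≤ g') : ∀ {cl : List (Nat × Nat)},
    lst g' b cl = true → lst g b cl = true
  | [], h => h
  | q :: cl, h => by
    have e : ∀ g, lst g b (q :: cl) = (bif Nat.beq q.2 b then Nat.ble g q.1 else lst g b cl) :=
      fun _ => rfl
    rw [e] at h ⊢
    cases hb : Nat.beq q.2 b with
    | true =>
      rw [hb] at h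
      exact Nat.ble_eq_true_of_le (le_trans hg (Nat.le_of_ble_eq_true h))
    | false =>
      rw [hb] at h
      exact lst_mono hg h

theorem Kx.okx_x {a df b : Nat} {cl : List (Nat × Nat)} (h : K.okx a df cl b = true) :
    K.X.okx a df cl b = true := by
  have e1 : K.okx a df cl b = (bif K.X.W.P.pcs (slf a) (lo a) (slf b) (lo b) then true else
    bif Nat.ble (K.gk a b) df then true else lst (K.gk a b) (mi b) cl) := rfl
  have e2 : K.X.okx a df cl b = (bif K.X.W.P.pcs (slf a) (lo a) (slf b) (lo b) then true else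
    bif Nat.ble (K.X.gk a b) df then true else lst (K.X.gk a b) (mi b) cl) := rfl
  have hg : K.X.gk a b ≤ K.gk a b := by
    show K.X.W.P.Q.Gn a b + K.X.ae a (mi b) ≤ K.X.W.P.Q.Gn a b + (K.X.ae a (mi b) +
      K.ay a (mi b))
    omega
  rw [e1] at h
  rw [e2]
  cases hpc : K.X.W.P.pcs (slf a) (lo a) (slf b) (lo b) with
  | true => rfl
  | false =>
    rw [hpc] at h
    dsimp only [cond_false] at h ⊢
    cases h1 : Nat.ble (K.gk a b) df with
    | true =>
      rw [Nat.ble_eq_true_of_le (le_trans hg (Nat.le_of_ble_eq_true h1))]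
      rfl
    | false =>
      rw [h1] at h
      cases h2 : Nat.ble (K.X.gk a b) df with
      | true => rfl
      | false => exact lst_mono hg h

theorem Kx.soc_x {a : Nat} {L : List (Nat × Nat)} (h : K.soc WL a L = true) :
    K.X.soc WL a L = true := by
  cases L with
  | nil => rfl
  | cons q cl =>
    have e1 : K.soc WL a (q :: cl) =
      (bif (bif Nat.ble (Nat.sub K.X.W.P.Q.sh (K.X.W.P.nk a)) q.1 then true else
        lst (Nat.sub K.X.W.P.Q.sh (K.X.W.P.nk a)) 1 cl) then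
        (alln 32 fun f => bif K.X.W.P.Q.cme f (Nat.div (hi a) 32) then
            alln 32 fun l => bif K.X.W.P.Q.cme (Nat.mod (hi a) 32) l then
              allb (K.okx a q.1 cl) (WL.get (Nat.add f (Nat.mul 32 l))) else true
          else true)
      else false) := rfl
    have e2 : K.X.soc WL a (q :: cl) =
      (bif (bif Nat.ble (Nat.sub K.X.W.P.Q.sh (K.X.W.P.nk a)) q.1 then true else
        lst (Nat.sub K.X.W.P.Q.sh (K.X.W.P.nk a)) 1 cl) then
        (alln 32 fun f => bif K.X.W.P.Q.cme f (Nat.div (hi a) 32) then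
            alln 32 fun l => bif K.X.W.P.Q.cme (Nat.mod (hi a) 32) l then
              allb (K.X.okx a q.1 cl) (WL.get (Nat.add f (Nat.mul 32 l))) else true
          else true)
      else false) := rfl
    rw [e1, cond_true_iff] at h
    rw [e2, cond_true_iff]
    refine ⟨h.1, ?_⟩
    rw [alln_iff]
    intro f hf
    have h1 := alln_iff.1 h.2 f hf
    cases hc : K.X.W.P.Q.cme f (Nat.div (hi a) 32) with
    | false => rfl
    | true =>
      rw [hc] at h1
      dsimp only [cond_true] at h1 ⊢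
      rw [alln_iff]
      intro l hl
      have h2 := alln_iff.1 h1 l hl
      cases hd : K.X.W.P.Q.cme (Nat.mod (hi a) 32) l with
      | false => rfl
      | true =>
        rw [hd] at h2
        exact allb_of fun b hb => Kx.okx_x (allb_sound h2 b hb)

theorem Kx.kW_x {k : Nat} {l : List Nat} (h : K.kW k l = true) : K.X.kW k l = true := by
  apply allb_of
  intro a ha
  have h1 := allb_sound (show allb _ _ = true from h) a ha
  rw [cond_true_iff] at h1 ⊢
  refine ⟨h1.1, ?_⟩
  have h2 := h1.2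
  unfold Kx.k0 at h2
  unfold Px.k0
  cases hn : nilb (K.X.W.P.Q.SG.get a) with
  | false => rfl
  | true =>
    rw [hn] at h2
    dsimp only [cond_true] at h2
    rw [cond_true_iff] at h2
    have h3 := h2.1
    unfold Px.k0 at h3
    rw [hn] at h3
    exact h3

/-- the checks of the triangles -/
theorem Kz.kt (h : Kz K WL) : Kt K.X WL :=
  ⟨h.kM, h.kB, h.kC, h.kV, h.kA, BT.allB_mono (fun _ _ h1 => Kx.soc_x h1) h.so,
    BT.allB_mono (fun _ _ h1 => Kx.kW_x h1) h.kW⟩

/-- a key without list of candidates has no records -/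
theorem Kz.k0 (h : Kz K WL) {k a : Nat} (ha : a ∈ WL.get k)
    (h0 : K.X.W.P.Q.SG.get a = []) : K.Y (K.aq a) = 0 := by
  have h1 : WL.get k ≠ [] := by
    intro h1; rw [h1] at ha; simp at ha
  have h2 := allb_sound (show allb _ _ = true from BT.allB_sound h.kW _ (BT.get_mem h1)) a ha
  rw [cond_true_iff] at h2
  have h3 := h2.2
  unfold Kx.k0 at h3
  rw [nilb_iff.2 h0] at h3
  dsimp only [cond_true] at h3
  rw [cond_true_iff] at h3
  exact Nat.eq_of_beq_eq_true h3.2

end

end Pool.FCS
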